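import Pool.Agent.Work.MP_b0b133_an.G.Defs

/-!
# Fourier transform of the Lorentz invariant exponentials in dimension `d`

For s > 0 and x in R^d, with nu = (d - 1) / 2,
  int exp (- s |xi|) exp (- i x . xi) dxi / |xi| = (4 pi)^nu Gamma(nu) (s^2 + |x|^2)^(-nu).
-/

open MeasureTheory Set Filter
open scoped Real Topology

namespace Pool.Agent.ConeG.FT

variable {d : ℕ}

/-! ### The Cauchy-Schloemilch integral -/

/-- The map u -> a u - b / u has derivative a + b / u^2. -/
theorem cs_hasDeriv (a b : ℝ) {u : ℝ} (hu : 0 < u) :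
    HasDerivAt (fun u => a * u - b / u) (a + b / u ^ 2) u := by
  have h1 : HasDerivAt (fun u : ℝ => a * u) a u := by
    simpa using (hasDerivAt_id u).const_mul a
  have h2 : HasDerivAt (fun u : ℝ => b / u) (-b / u ^ 2) u := by
    have := (hasDerivAt_inv hu.ne').const_mul b
    have e : b * -(u ^ 2)⁻¹ = -b / u ^ 2 := by field_simp
    rw [e] at this
    simpa only [div_eq_mul_inv] using this
  have h3 := h1.sub h2
  have e : a - -b / u ^ 2 = a + b / u ^ 2 := by ring
  rw [e] at h3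
  exact h3

theorem cs_injOn {a b : ℝ} (ha : 0 < a) (hb : 0 < b) :
    InjOn (fun u : ℝ => a * u - b / u) (Ioi 0) := by
  intro u hu v hv h
  simp only [mem_Ioi] at hu hv h
  field_simp at h
  have : (u - v) * (a * u * v + b) = 0 := by
    have hu' := hu.ne'
    have hv' := hv.ne'
    nlinarith [h]
  rcases mul_eq_zero.mp this with h' | h'
  · linarith
  · have : 0 < a * u * v + b := by positivity
    linarith

theorem cs_image {a b : ℝ} (ha : 0 < a) (hb : 0 < b) :
    (fun u : ℝ => a * u - b / u) '' (Ioi 0) = univ := by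
  apply eq_univ_of_forall
  intro y
  -- the positive root of a u^2 - y u - b = 0
  have hD : 0 ≤ y ^ 2 + 4 * a * b := by positivity
  have hs := Real.sq_sqrt hD
  set r := √(y ^ 2 + 4 * a * b) with hr
  have hr0 : 0 ≤ r := Real.sqrt_nonneg _
  have hab : 0 < a * b := by positivity
  have hry : |y| < r := by
    apply lt_of_pow_lt_pow_left₀ 2 hr0
    rw [sq_abs, hs]; nlinarith
  have hpos : 0 < y + r := by
    have := neg_abs_le y
    linarith
  refine ⟨(y + r) / (2 * a), by simp only [mem_Ioi]; positivity, ?_⟩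
  have h2 : y + r ≠ 0 := hpos.ne'
  simp only
  field_simp
  nlinarith [hs]

theorem cs_int_sum {a b : ℝ} (ha : 0 < a) (hb : 0 < b) :
    ∫ u in Ioi (0 : ℝ), (a + b / u ^ 2) * Real.exp (-(a * u - b / u) ^ 2) = √π := by
  have h := integral_image_eq_integral_abs_deriv_smul (s := Ioi (0 : ℝ))
    (f := fun u : ℝ => a * u - b / u) (f' := fun u => a + b / u ^ 2) measurableSet_Ioi
    (fun u hu => (cs_hasDeriv a b hu).hasDerivWithinAt) (cs_injOn ha hb)
    (fun y => Real.exp (-y ^ 2))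
  rw [cs_image ha hb] at h
  have h3 : ∫ y : ℝ, Real.exp (-y ^ 2) = √π := by
    have := integral_gaussian 1
    simpa using this
  rw [setIntegral_univ, h3] at h
  rw [h]
  apply setIntegral_congr_fun measurableSet_Ioi
  intro u hu
  simp only [mem_Ioi] at hu
  simp only [smul_eq_mul]
  rw [abs_of_pos (by positivity)]

theorem inv_image {c : ℝ} (hc : 0 < c) : (fun u : ℝ => c / u) '' (Ioi 0) = Ioi 0 := by
  ext y
  simp only [mem_image, mem_Ioi]
  constructor
  · rintro ⟨u, hu, rfl⟩; positivity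
  · intro hy
    exact ⟨c / y, by positivity, by field_simp⟩

theorem inv_injOn {c : ℝ} (hc : 0 < c) : InjOn (fun u : ℝ => c / u) (Ioi 0) := by
  intro u hu v hv h
  simp only [mem_Ioi] at hu hv h
  field_simp at h
  linarith

theorem inv_hasDeriv (c : ℝ) {u : ℝ} (hu : 0 < u) :
    HasDerivAt (fun u : ℝ => c / u) (-c / u ^ 2) u := by
  have := (hasDerivAt_inv hu.ne').const_mul c
  have e : c * -(u ^ 2)⁻¹ = -c / u ^ 2 := by field_simp
  rw [e] at this
  simpa only [div_eq_mul_inv] using this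

theorem cs_symm {a b : ℝ} (ha : 0 < a) (hb : 0 < b) :
    ∫ u in Ioi (0 : ℝ), a * Real.exp (-(a * u - b / u) ^ 2)
      = ∫ u in Ioi (0 : ℝ), (b / u ^ 2) * Real.exp (-(a * u - b / u) ^ 2) := by
  have hc : 0 < b / a := by positivity
  have h := integral_image_eq_integral_abs_deriv_smul (s := Ioi (0 : ℝ))
    (f := fun u : ℝ => (b / a) / u) (f' := fun u => -(b / a) / u ^ 2) measurableSet_Ioi
    (fun u hu => (inv_hasDeriv _ hu).hasDerivWithinAt) (inv_injOn hc)
    (fun y => a * Real.exp (-(a * y - b / y) ^ 2))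
  rw [inv_image hc] at h
  rw [h]
  apply setIntegral_congr_fun measurableSet_Ioi
  intro u hu
  simp only [mem_Ioi] at hu
  simp only [smul_eq_mul]
  have h1 : |-(b / a) / u ^ 2| = (b / a) / u ^ 2 := by
    rw [neg_div, abs_neg, abs_of_pos (by positivity)]
  rw [h1]
  have h2 : (a * (b / a / u) - b / (b / a / u)) ^ 2 = (a * u - b / u) ^ 2 := by
    have : a * (b / a / u) - b / (b / a / u) = -(a * u - b / u) := by
      field_simp
      ring
    rw [this]; ring
  rw [h2]
  field_simp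

theorem cs_integrable_sum {a b : ℝ} (ha : 0 < a) (hb : 0 < b) :
    IntegrableOn (fun u : ℝ => (a + b / u ^ 2) * Real.exp (-(a * u - b / u) ^ 2)) (Ioi 0) := by
  have h := integrableOn_image_iff_integrableOn_abs_deriv_smul (s := Ioi (0 : ℝ))
    (f := fun u : ℝ => a * u - b / u) (f' := fun u => a + b / u ^ 2) measurableSet_Ioi
    (fun u hu => (cs_hasDeriv a b hu).hasDerivWithinAt) (cs_injOn ha hb)
    (fun y => Real.exp (-y ^ 2))
  rw [cs_image ha hb] at h
  have h3 : Integrable (fun y : ℝ => Real.exp (-y ^ 2)) := by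
    have := integrable_exp_neg_mul_sq (b := 1) one_pos
    simpa using this
  have h4 := h.mp h3.integrableOn
  apply h4.congr_fun _ measurableSet_Ioi
  intro u hu
  simp only [mem_Ioi] at hu
  simp only [smul_eq_mul]
  rw [abs_of_pos (by positivity)]

theorem cs_meas (a b : ℝ) : Measurable (fun u : ℝ => Real.exp (-(a * u - b / u) ^ 2)) := by
  fun_prop

theorem cs_integrable {a b : ℝ} (ha : 0 < a) (hb : 0 < b) :
    IntegrableOn (fun u : ℝ => Real.exp (-(a * u - b / u) ^ 2)) (Ioi 0) := by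
  have h := cs_integrable_sum ha hb
  have h2 : IntegrableOn (fun u : ℝ => a⁻¹ * ((a + b / u ^ 2) * Real.exp (-(a * u - b / u) ^ 2)))
      (Ioi 0) := h.const_mul _
  apply Integrable.mono' h2 (cs_meas a b).aestronglyMeasurable
  filter_upwards [ae_restrict_mem measurableSet_Ioi] with u hu
  simp only [mem_Ioi] at hu
  rw [Real.norm_eq_abs, abs_of_pos (Real.exp_pos _), ← mul_assoc]
  apply le_mul_of_one_le_left (Real.exp_pos _).le
  rw [mul_add, inv_mul_cancel₀ ha.ne']
  have : 0 ≤ a⁻¹ * (b / u ^ 2) := by positivity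
  linarith

/-- The Cauchy-Schloemilch integral. -/
theorem cs_int {a b : ℝ} (ha : 0 < a) (hb : 0 < b) :
    ∫ u in Ioi (0 : ℝ), Real.exp (-(a * u - b / u) ^ 2) = √π / (2 * a) := by
  have hI := cs_integrable ha hb
  have h1 := cs_int_sum ha hb
  have h2 := cs_symm ha hb
  have h3 : ∫ u in Ioi (0 : ℝ), (a + b / u ^ 2) * Real.exp (-(a * u - b / u) ^ 2)
      = (∫ u in Ioi (0 : ℝ), a * Real.exp (-(a * u - b / u) ^ 2))
        + ∫ u in Ioi (0 : ℝ), (b / u ^ 2) * Real.exp (-(a * u - b / u) ^ 2) := by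
    rw [← integral_add]
    · apply setIntegral_congr_fun measurableSet_Ioi
      intro u _
      simp only
      ring
    · exact hI.const_mul a
    · have h := cs_integrable_sum ha hb
      have h' := h.sub (hI.const_mul a)
      refine h'.congr (Eventually.of_forall fun u => ?_)
      simp only [Pi.sub_apply]
      ring
  rw [h1, ← h2, integral_const_mul] at h3
  rw [eq_div_iff (by positivity)]
  linarith

/-- Subordination: the exponential divided by r is a superposition of Gaussians. -/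
theorem subord {r s : ℝ} (hr : 0 < r) (hs : 0 < s) :
    ∫ u in Ioi (0 : ℝ), Real.exp (-(s ^ 2 / (4 * u ^ 2))) * Real.exp (-(u ^ 2 * r ^ 2))
      = (√π / 2) * (Real.exp (-(s * r)) / r) := by
  have h := cs_int (a := r) (b := s / 2) hr (by positivity)
  have h2 : ∫ u in Ioi (0 : ℝ), Real.exp (-(s ^ 2 / (4 * u ^ 2))) * Real.exp (-(u ^ 2 * r ^ 2))
      = ∫ u in Ioi (0 : ℝ), Real.exp (-(s * r)) * Real.exp (-(r * u - s / 2 / u) ^ 2) := by
    apply setIntegral_congr_fun measurableSet_Ioi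
    intro u hu
    simp only [mem_Ioi] at hu
    simp only
    rw [← Real.exp_add, ← Real.exp_add]
    congr 1
    field_simp
    ring
  rw [h2, integral_const_mul, h]
  ring

/-! ### The outer integral -/

theorem outer_aux {A u : ℝ} (hu : 0 < u) [Fact (2 ≤ d)] :
    |(-1 : ℝ) / u ^ 2| • ((1 / u) ^ ((d : ℝ) - 2) * Real.exp (-(A / 4) * (1 / u) ^ (2 : ℝ)))
      = (1 / u ^ d) * Real.exp (-(A / (4 * u ^ 2))) := by
  have h1 : |(-1 : ℝ) / u ^ 2| = 1 / u ^ 2 := by
    rw [neg_div, abs_neg, abs_of_pos (by positivity)]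
  have h2 : (1 / u) ^ (2 : ℝ) = 1 / u ^ 2 := by
    rw [Real.rpow_two]; field_simp
  have h3 : (1 / u) ^ ((d : ℝ) - 2) = u ^ 2 / u ^ d := by
    rw [Real.rpow_sub (by positivity), Real.rpow_two, Real.rpow_natCast, one_div, inv_pow,
      inv_pow, div_inv_eq_mul]
    field_simp
  have hu2 : u ^ 2 ≠ 0 := by positivity
  have hud : u ^ d ≠ 0 := by positivity
  rw [h1, h2, h3, smul_eq_mul, ← mul_assoc]
  congr 1
  · rw [div_mul_div_comm, one_mul, div_eq_div_iff (mul_ne_zero hu2 hud) hud]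
    ring
  · congr 1
    field_simp

theorem outer_int {A : ℝ} (hA : 0 < A) [Fact (2 ≤ d)] :
    ∫ u in Ioi (0 : ℝ), (1 / u ^ d) * Real.exp (-(A / (4 * u ^ 2)))
      = (1 / 2) * Real.Gamma (nu d) * (A / 4) ^ (-(nu d)) := by
  have hd := two_le_real d
  have h := integral_image_eq_integral_abs_deriv_smul (s := Ioi (0 : ℝ))
    (f := fun u : ℝ => (1 : ℝ) / u) (f' := fun u => -1 / u ^ 2) measurableSet_Ioi
    (fun u hu => (inv_hasDeriv _ hu).hasDerivWithinAt) (inv_injOn one_pos)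
    (fun y => y ^ ((d : ℝ) - 2) * Real.exp (-(A / 4) * y ^ (2 : ℝ)))
  rw [inv_image one_pos, _root_.integral_rpow_mul_exp_neg_mul_rpow (by norm_num) (by linarith)
    (by positivity)] at h
  have h3 : ∫ u in Ioi (0 : ℝ), (1 / u ^ d) * Real.exp (-(A / (4 * u ^ 2)))
      = ∫ u in Ioi (0 : ℝ), |(-1 : ℝ) / u ^ 2| • ((1 / u) ^ ((d : ℝ) - 2)
        * Real.exp (-(A / 4) * (1 / u) ^ (2 : ℝ))) := by
    apply setIntegral_congr_fun measurableSet_Ioi
    intro u hu
    exact (outer_aux hu).symm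
  rw [h3, ← h]
  have h4 : ((d : ℝ) - 2 + 1) / 2 = nu d := by unfold nu; ring
  have h5 : -((d : ℝ) - 2 + 1) / 2 = -(nu d) := by unfold nu; ring
  rw [h4, h5]
  ring

theorem outer_integrable {A : ℝ} (hA : 0 < A) [Fact (2 ≤ d)] :
    IntegrableOn (fun u : ℝ => (1 / u ^ d) * Real.exp (-(A / (4 * u ^ 2)))) (Ioi 0) := by
  have hd := two_le_real d
  have h := integrableOn_image_iff_integrableOn_abs_deriv_smul (s := Ioi (0 : ℝ))
    (f := fun u : ℝ => (1 : ℝ) / u) (f' := fun u => -1 / u ^ 2) measurableSet_Ioi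
    (fun u hu => (inv_hasDeriv _ hu).hasDerivWithinAt) (inv_injOn one_pos)
    (fun y => y ^ ((d : ℝ) - 2) * Real.exp (-(A / 4) * y ^ (2 : ℝ)))
  rw [inv_image one_pos] at h
  have h2 := h.mp (integrableOn_rpow_mul_exp_neg_mul_rpow (by linarith) (by norm_num)
    (by positivity))
  apply h2.congr_fun _ measurableSet_Ioi
  intro u hu
  exact outer_aux hu

/-! ### The Fourier transform for real s -/

theorem gauss4 {b : ℝ} (hb : 0 < b) (x : Rd d) :
    ∫ v : Rd d, (Real.exp (-(b * ‖v‖ ^ 2)) : ℂ) * Complex.exp (-Complex.I * (inner ℝ x v : ℝ))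
      = (((π / b) ^ ((d : ℝ) / 2) * Real.exp (-(‖x‖ ^ 2 / (4 * b))) : ℝ) : ℂ) := by
  have h := GaussianFourier.integral_cexp_neg_mul_sq_norm_add (V := Rd d) (b := (b : ℂ))
    (by simpa using hb) (-Complex.I) x
  have h1 : ∫ v : Rd d, (Real.exp (-(b * ‖v‖ ^ 2)) : ℂ) *
      Complex.exp (-Complex.I * (inner ℝ x v : ℝ))
      = ∫ v : Rd d, Complex.exp (-(b : ℂ) * ‖v‖ ^ 2 + -Complex.I * (inner ℝ x v : ℝ)) := by
    congr 1
    ext v
    rw [Complex.exp_add]
    congr 1
    push_cast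
    congr 1
    ring
  rw [h1, h]
  have h2 : ((Module.finrank ℝ (Rd d) : ℂ) / 2) = (((d : ℝ) / 2 : ℝ) : ℂ) := by
    simp
  have h3 : ((π : ℂ) / (b : ℂ)) = ((π / b : ℝ) : ℂ) := by push_cast; rfl
  rw [h2, h3, ← Complex.ofReal_cpow (by positivity), Complex.ofReal_mul]
  congr 1
  push_cast
  congr 1
  rw [neg_sq, Complex.I_sq]
  ring

/-- The Gaussian superposition on the product space. -/
noncomputable def gk (s : ℝ) (p : ℝ × Rd d) : ℝ :=
  Real.exp (-(s ^ 2 / (4 * p.1 ^ 2))) * Real.exp (-(p.1 ^ 2 * ‖p.2‖ ^ 2))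

theorem gk_meas (s : ℝ) : Measurable (gk s : ℝ × Rd d → ℝ) := by
  unfold gk
  fun_prop

theorem gk_nonneg (s : ℝ) (p : ℝ × Rd d) : 0 ≤ gk s p := by
  unfold gk; positivity

theorem gauss4_integrable {b : ℝ} (hb : 0 < b) :
    Integrable (fun v : Rd d => Real.exp (-(b * ‖v‖ ^ 2))) := by
  have h := GaussianFourier.integrable_cexp_neg_mul_sq_norm_add (V := Rd d) (b := (b : ℂ))
    (by simpa using hb) 0 0
  have h2 := h.norm
  refine h2.congr (Eventually.of_forall fun v => ?_)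
  simp only
  rw [Complex.norm_exp]
  congr 1
  simp
  left
  norm_cast

theorem gauss4_real {b : ℝ} (hb : 0 < b) :
    ∫ v : Rd d, Real.exp (-(b * ‖v‖ ^ 2)) = (π / b) ^ ((d : ℝ) / 2) := by
  have h := gauss4 hb (0 : Rd d)
  have h2 : ((∫ v : Rd d, Real.exp (-(b * ‖v‖ ^ 2)) : ℝ) : ℂ) =
      (((π / b) ^ ((d : ℝ) / 2) : ℝ) : ℂ) := by
    rw [← integral_complex_ofReal]
    simpa using h
  exact_mod_cast h2

theorem pow_half {u : ℝ} (hu : 0 < u) :
    (π / u ^ 2) ^ ((d : ℝ) / 2) = π ^ ((d : ℝ) / 2) * (1 / u ^ d) := by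
  rw [Real.div_rpow (by positivity) (by positivity), ← Real.rpow_natCast u 2,
    ← Real.rpow_mul hu.le, ← Real.rpow_natCast u d, div_eq_mul_one_div]
  congr 3
  push_cast
  ring

variable [Fact (2 ≤ d)]

theorem gk_integrable {s : ℝ} (hs : 0 < s) :
    Integrable (gk s : ℝ × Rd d → ℝ)
      ((volume.restrict (Ioi (0 : ℝ))).prod (volume : Measure (Rd d))) := by
  rw [integrable_prod_iff (gk_meas s).aestronglyMeasurable]
  constructor
  · filter_upwards [ae_restrict_mem measurableSet_Ioi] with u hu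
    simp only [mem_Ioi] at hu
    unfold gk
    exact (gauss4_integrable (b := u ^ 2) (by positivity)).const_mul
      (Real.exp (-(s ^ 2 / (4 * u ^ 2))))
  · have h := (outer_integrable (d := d) (A := s ^ 2) (by positivity)).const_mul
      (π ^ ((d : ℝ) / 2))
    refine h.congr ?_
    filter_upwards [ae_restrict_mem measurableSet_Ioi] with u hu
    simp only [mem_Ioi] at hu
    have h1 : ∀ v : Rd d, ‖gk s (u, v)‖ = Real.exp (-(s ^ 2 / (4 * u ^ 2)))
        * Real.exp (-(u ^ 2 * ‖v‖ ^ 2)) := by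
      intro v
      rw [Real.norm_eq_abs, abs_of_nonneg (gk_nonneg s _)]
      rfl
    simp_rw [h1]
    rw [integral_const_mul, gauss4_real (by positivity), pow_half hu]
    ring

/-- The exponential density. -/
noncomputable def ek (s : ℝ) (v : Rd d) : ℝ := Real.exp (-(s * ‖v‖)) / ‖v‖

theorem nontriv : Nontrivial (Rd d) := by
  have h2 := two_le d
  have : Nonempty (Fin d) := ⟨⟨0, by omega⟩⟩
  infer_instance

theorem ae_ne_zero : ∀ᵐ v : Rd d, v ≠ 0 := by
  have := nontriv (d := d)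
  rw [ae_iff]
  simp

theorem gk_inner {s : ℝ} (hs : 0 < s) {v : Rd d} (hv : v ≠ 0) :
    ∫ u in Ioi (0 : ℝ), gk s (u, v) = (√π / 2) * ek s v := by
  have h := subord (r := ‖v‖) (s := s) (norm_pos_iff.mpr hv) hs
  exact h

theorem ek_integrable {s : ℝ} (hs : 0 < s) : Integrable (ek s : Rd d → ℝ) := by
  have h := (gk_integrable (d := d) hs).integral_prod_right
  have h2 := h.const_mul (2 / √π)
  refine h2.congr ?_
  filter_upwards [ae_ne_zero] with v hv
  rw [gk_inner hs hv]
  have : 0 < √π := Real.sqrt_pos.mpr Real.pi_pos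
  field_simp

theorem ft_const {A : ℝ} (hA : 0 < A) :
    π ^ ((d : ℝ) / 2) * ((1 / 2) * Real.Gamma (nu d) * (A / 4) ^ (-(nu d))) =
      (√π / 2) * (kap d * A ^ (-(nu d))) := by
  have h1 : π ^ ((d : ℝ) / 2) = √π * π ^ nu d := by
    rw [Real.sqrt_eq_rpow, ← Real.rpow_add Real.pi_pos]
    congr 1
    unfold nu
    ring
  have h2 : (A / 4) ^ (-(nu d)) = A ^ (-(nu d)) * 4 ^ nu d := by
    rw [Real.div_rpow hA.le (by norm_num), Real.rpow_neg (by norm_num : (0:ℝ) ≤ 4), div_inv_eq_mul]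
  have h3 : (4 * π) ^ nu d = 4 ^ nu d * π ^ nu d :=
    Real.mul_rpow (by norm_num) Real.pi_pos.le
  rw [h1, h2, kap, h3]
  ring

theorem ft_real {s : ℝ} (hs : 0 < s) (x : Rd d) :
    ∫ v : Rd d, (ek s v : ℂ) * Complex.exp (-Complex.I * (inner ℝ x v : ℝ))
      = ((kap d * (s ^ 2 + ‖x‖ ^ 2) ^ (-(nu d)) : ℝ) : ℂ) := by
  have hpi : 0 < √π := Real.sqrt_pos.mpr Real.pi_pos
  -- the integrand on the product space
  set G : ℝ × Rd d → ℂ := fun p => (gk s p : ℂ) * Complex.exp (-Complex.I * (inner ℝ x p.2 : ℝ))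
    with hG
  have hGi : Integrable G ((volume.restrict (Ioi (0 : ℝ))).prod (volume : Measure (Rd d))) := by
    have h1 := (gk_integrable (d := d) hs).ofReal (𝕜 := ℂ)
    refine h1.mono ?_ (Eventually.of_forall fun p => ?_)
    · apply Measurable.aestronglyMeasurable
      have := gk_meas (d := d) s
      simp only [hG]
      fun_prop
    · simp only [hG, norm_mul, Complex.norm_exp]
      simp
  have hsw := integral_integral_swap (f := fun u v => G (u, v)) hGi
  -- inner integral in u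
  have hL : ∫ v : Rd d, ∫ u in Ioi (0 : ℝ), G (u, v)
      = ∫ v : Rd d, ((√π / 2 : ℝ) : ℂ) * ((ek s v : ℂ)
        * Complex.exp (-Complex.I * (inner ℝ x v : ℝ))) := by
    apply integral_congr_ae
    filter_upwards [ae_ne_zero] with v hv
    simp only [hG]
    rw [integral_mul_const, integral_complex_ofReal, gk_inner hs hv]
    push_cast
    ring
  have hR : ∫ u in Ioi (0 : ℝ), ∫ v : Rd d, G (u, v)
      = ((π ^ ((d : ℝ) / 2) * ((1 / 2) * Real.Gamma (nu d) *
        ((s ^ 2 + ‖x‖ ^ 2) / 4) ^ (-(nu d))) : ℝ) : ℂ) := by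
    have hA : 0 < s ^ 2 + ‖x‖ ^ 2 := by positivity
    rw [← outer_int hA, ← integral_const_mul, ← integral_complex_ofReal]
    apply setIntegral_congr_fun measurableSet_Ioi
    intro u hu
    simp only [mem_Ioi] at hu
    simp only [hG, gk]
    have h1 : ∀ v : Rd d, ((Real.exp (-(s ^ 2 / (4 * u ^ 2))) *
        Real.exp (-(u ^ 2 * ‖v‖ ^ 2)) : ℝ) : ℂ)
        * Complex.exp (-Complex.I * (inner ℝ x v : ℝ))
        = (Real.exp (-(s ^ 2 / (4 * u ^ 2))) : ℂ) * ((Real.exp (-(u ^ 2 * ‖v‖ ^ 2)) : ℂ)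
          * Complex.exp (-Complex.I * (inner ℝ x v : ℝ))) := by
      intro v
      rw [Complex.ofReal_mul, mul_assoc]
    simp_rw [h1]
    rw [integral_const_mul, gauss4 (by positivity), pow_half hu]
    have h2 : Real.exp (-((s ^ 2 + ‖x‖ ^ 2) / (4 * u ^ 2)))
        = Real.exp (-(s ^ 2 / (4 * u ^ 2))) * Real.exp (-(‖x‖ ^ 2 / (4 * u ^ 2))) := by
      rw [← Real.exp_add]
      congr 1
      ring
    rw [h2]
    push_cast
    ring
  rw [← hsw, hR] at hL
  rw [integral_const_mul] at hL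
  have hA : 0 < s ^ 2 + ‖x‖ ^ 2 := by positivity
  have h5 : ((√π / 2 : ℝ) : ℂ) ≠ 0 := by
    exact_mod_cast (by positivity : (√π / 2 : ℝ) ≠ 0)
  apply mul_left_cancel₀ h5
  rw [← hL, ← Complex.ofReal_mul, ft_const hA]

end Pool.Agent.ConeG.FT
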