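import Pool.Agent.Work.MP_b0b133_an.G.Defs
import Pool.Agent.Work.MP_b0b133_an.G.FourierExp

/-! # D : the extension of the exponentials

`D0`, `D1`, `D2` of the plan: the quadratic form avoids the slit, the extension of `expo c v` is
`kap d * qf^{-ν}`, and the inner products of exponentials. -/

set_option autoImplicit false
open MeasureTheory Complex Set
open scoped ENNReal ComplexConjugate

namespace Pool.Agent.ConeG

variable {d : ℕ}

/-! ### A holomorphic parametric integral -/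

theorem D_dir (l : ℂ) (r : ℝ) (hr : 0 < r) : ∃ e : ℂ, ‖e‖ ≤ r ∧ (e * l).re = r * ‖l‖ := by
  rcases eq_or_ne l 0 with rfl | hl
  · exact ⟨0, by simpa using hr.le, by simp⟩
  · have hn : (‖l‖ : ℝ) ≠ 0 := norm_ne_zero_iff.2 hl
    refine ⟨(r / ‖l‖ : ℝ) * conj l, ?_, ?_⟩
    · rw [norm_mul, Complex.norm_real, RCLike.norm_conj, Real.norm_of_nonneg (by positivity)]
      exact le_of_eq (by field_simp)
    · rw [mul_assoc, mul_comm (conj l) l, Complex.mul_conj, ← Complex.ofReal_mul,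
        Complex.ofReal_re, Complex.normSq_eq_norm_sq]
      field_simp

theorem D_param {β : Type*} [MeasurableSpace β] (ν : Measure β) (g l : β → ℂ) (bd : β → ℝ)
    (z0 : ℂ) (r : ℝ) (hr : 0 < r) (hg : AEStronglyMeasurable g ν)
    (hl : AEStronglyMeasurable l ν) (hbd : Integrable bd ν)
    (h : ∀ᵐ a ∂ν, ∀ z : ℂ, ‖z - z0‖ < 2 * r → ‖g a * cexp (z * l a)‖ ≤ bd a) :
    DifferentiableAt ℂ (fun z => ∫ a, g a * cexp (z * l a) ∂ν) z0 := by
  have hmeas : ∀ z : ℂ, AEStronglyMeasurable (fun a => g a * cexp (z * l a)) ν := fun z =>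
    hg.mul (Complex.continuous_exp.comp_aestronglyMeasurable (hl.const_mul z))
  have hint : Integrable (fun a => g a * cexp (z0 * l a)) ν := by
    refine hbd.mono' (hmeas z0) ?_
    filter_upwards [h] with a ha
    exact ha z0 (by simpa using hr)
  have := (hasDerivAt_integral_of_dominated_loc_of_deriv_le (μ := ν)
    (F := fun z a => g a * cexp (z * l a)) (F' := fun z a => g a * (l a * cexp (z * l a)))
    (x₀ := z0) (s := Metric.ball z0 r) (bound := fun a => bd a / r)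
    (Metric.ball_mem_nhds z0 hr) (Filter.Eventually.of_forall hmeas) hint
    (hg.mul (hl.mul (Complex.continuous_exp.comp_aestronglyMeasurable (hl.const_mul z0))))
    ?_ (hbd.div_const r) ?_).2
  · exact this.differentiableAt
  · filter_upwards [h] with a ha z hz
    rw [Metric.mem_ball, dist_eq_norm] at hz
    obtain ⟨e, hd, hd2⟩ := D_dir (l a) r hr
    have h1 := ha (z + e) (by
      calc ‖z + e - z0‖ = ‖(z - z0) + e‖ := by ring_nf
        _ ≤ ‖z - z0‖ + ‖e‖ := norm_add_le _ _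
        _ < 2 * r := by linarith)
    have h2 : ‖cexp ((z + e) * l a)‖ = ‖cexp (z * l a)‖ * Real.exp (r * ‖l a‖) := by
      rw [add_mul, Complex.exp_add, norm_mul, Complex.norm_exp (e * l a), hd2]
    rw [norm_mul, h2] at h1
    have h3 : r * ‖l a‖ ≤ Real.exp (r * ‖l a‖) := by
      have := Real.add_one_le_exp (r * ‖l a‖)
      linarith
    rw [le_div_iff₀ hr, norm_mul, norm_mul]
    calc ‖g a‖ * (‖l a‖ * ‖cexp (z * l a)‖) * r = ‖g a‖ * (‖cexp (z * l a)‖ * (r * ‖l a‖)) := by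
          ring
      _ ≤ ‖g a‖ * (‖cexp (z * l a)‖ * Real.exp (r * ‖l a‖)) := by gcongr
      _ ≤ bd a := h1
  · filter_upwards with a z hz
    have h1 : HasDerivAt (fun z : ℂ => z * l a) (l a) z := by
      simpa using (hasDerivAt_id z).mul_const (l a)
    have h2 := (h1.cexp).const_mul (g a)
    rw [mul_comm (cexp (z * l a)) (l a)] at h2
    exact h2

/-! ### D0 -/

/-- D0 : the quadratic form avoids the slit -/
theorem qf_mem_slitPlane (u v : Rs d) (hv : v ∈ Fwd) : qf u v ∈ slitPlane := by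
  rw [mem_slitPlane_iff]
  by_cases him : (qf u v).im = 0
  · left
    have hv' : ‖v.2‖ < v.1 := hv
    have hv1 : 0 < v.1 := lt_of_le_of_lt (norm_nonneg _) hv'
    have e1 : (qf u v).im = 2 * (u.1 * v.1 - inner ℝ u.2 v.2) := by
      unfold qf
      rw [Complex.add_im, Complex.ofReal_im, zero_add, Complex.mul_im, Complex.ofReal_im,
        Complex.ofReal_re, mul_zero, zero_add]
      simp
    have e2 : (qf u v).re = ‖u.2‖ ^ 2 - ‖v.2‖ ^ 2 - u.1 ^ 2 + v.1 ^ 2 := by
      unfold qf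
      rw [Complex.add_re, Complex.ofReal_re, Complex.mul_re, Complex.ofReal_im,
        Complex.ofReal_re, mul_zero, sub_zero]
      simp
    rw [e1] at him
    rw [e2]
    have h1 : u.1 * v.1 = inner ℝ u.2 v.2 := by linarith
    have h2 : |u.1| * v.1 ≤ ‖u.2‖ * ‖v.2‖ := by
      have := abs_real_inner_le_norm u.2 v.2
      rwa [← h1, abs_mul, abs_of_pos hv1] at this
    have h3 : |u.1| ≤ ‖u.2‖ := by
      by_contra hc
      push Not at hc
      have h4 : ‖u.2‖ * ‖v.2‖ ≤ ‖u.2‖ * v.1 := by gcongr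
      have h5 : ‖u.2‖ * v.1 < |u.1| * v.1 := by gcongr
      linarith
    have h6 : u.1 ^ 2 ≤ ‖u.2‖ ^ 2 := by
      rw [← sq_abs u.1]
      gcongr
    have h7 : ‖v.2‖ ^ 2 < v.1 ^ 2 := by gcongr
    linarith
  · right; exact him

/-! ### The measure `dξ / |ξ|` -/

theorem D_sig (f : Rd d → ℂ) : ∫ ξ, f ξ ∂(sig d) = ∫ ξ, ((‖ξ‖⁻¹ : ℝ) : ℂ) * f ξ := by
  unfold sig
  rw [integral_withDensity_eq_integral_toReal_smul (by fun_prop)
    (Filter.Eventually.of_forall fun _ => ENNReal.ofReal_lt_top)]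
  refine integral_congr_ae (Filter.Eventually.of_forall fun ξ => ?_)
  simp only
  rw [ENNReal.toReal_ofReal (by positivity), Complex.real_smul]

/-! ### D1 -/

/-- the quadratic polynomial along the path of the continuation -/
noncomputable def D_Q (u v : Rs d) (z : ℂ) : ℂ :=
  (v.1 + z * u.1) ^ 2 + (‖u.2‖ ^ 2 : ℝ) - 2 * z * (inner ℝ u.2 v.2 : ℝ) + z ^ 2 * (‖v.2‖ ^ 2 : ℝ)

theorem D_Q_eq (u v : Rs d) (z : ℂ) : D_Q u v z =
    qf (z.im * u.1, u.2 - z.re • v.2) (v.1 + z.re * u.1, z.im • v.2) := by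
  have hz : z = z.re + z.im * I := (Complex.re_add_im z).symm
  unfold D_Q qf
  simp only
  have e1 : ‖u.2 - z.re • v.2‖ ^ 2 = ‖u.2‖ ^ 2 - 2 * z.re * inner ℝ u.2 v.2 +
      z.re ^ 2 * ‖v.2‖ ^ 2 := by
    rw [norm_sub_sq_real, real_inner_smul_right, norm_smul, mul_pow, Real.norm_eq_abs, sq_abs]
    ring
  have e2 : ‖z.im • v.2‖ ^ 2 = z.im ^ 2 * ‖v.2‖ ^ 2 := by
    rw [norm_smul, mul_pow, Real.norm_eq_abs, sq_abs]
  have e3 : inner ℝ (u.2 - z.re • v.2) (z.im • v.2) = z.im * (inner ℝ u.2 v.2 -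
      z.re * ‖v.2‖ ^ 2) := by
    rw [real_inner_smul_right, inner_sub_left, real_inner_smul_left, real_inner_self_eq_norm_sq]
  rw [e1, e2, e3]
  conv_lhs => rw [hz]
  push_cast
  ring_nf
  simp only [I_sq]
  ring

theorem D_Q_I (u v : Rs d) : D_Q u v I = qf u v := by
  rw [D_Q_eq]
  simp

variable [Fact (2 ≤ d)]

/-- The exponential integral. -/
theorem D_int (u v : Rs d) (hv : v ∈ Fwd) :
    ∫ ξ : Rd d, ((‖ξ‖⁻¹ : ℝ) : ℂ) * cexp (-((pair v ξ : ℂ) + I * (pair u ξ : ℂ))) =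
      (kap d : ℂ) * (qf u v) ^ (-(nu d : ℂ)) := by
  have hv' : ‖v.2‖ < v.1 := hv
  set η := (v.1 - ‖v.2‖) / 2 with hη
  have hη0 : 0 < η := by rw [hη]; linarith
  have hvη : 2 * η ≤ v.1 - ‖v.2‖ := by rw [hη]; linarith
  set δ := η / (|u.1| + ‖v.2‖ + 1) with hδdef
  have hden : 0 < |u.1| + ‖v.2‖ + 1 := by positivity
  have hδ0 : 0 < δ := by positivity
  have hδ : δ * (|u.1| + ‖v.2‖) ≤ η := by
    have : δ * (|u.1| + ‖v.2‖ + 1) = η := by
      rw [hδdef]; field_simp
    nlinarith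
  set g : Rd d → ℂ := fun ξ => ((‖ξ‖⁻¹ : ℝ) : ℂ) *
    cexp (-(((v.1 * ‖ξ‖ : ℝ) : ℂ) + I * (inner ℝ u.2 ξ : ℝ))) with hg
  set l : Rd d → ℂ := fun ξ => -((u.1 * ‖ξ‖ : ℝ) : ℂ) + I * (inner ℝ v.2 ξ : ℝ) with hl
  have hgm : Measurable g := by
    simp only [hg]
    fun_prop
  have hlm : Measurable l := by
    simp only [hl]
    fun_prop
  set U : Set ℂ := {z | |z.re| < δ ∧ |z.im| < 1 + δ} with hU
  -- the decay
  have hdec : ∀ z ∈ U, ∀ ξ : Rd d, η * ‖ξ‖ ≤ (v.1 + z.re * u.1) * ‖ξ‖ + z.im * inner ℝ v.2 ξ := by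
    intro z hz ξ
    obtain ⟨hz1, hz2⟩ := hz
    have h1 : |z.im * inner ℝ v.2 ξ| ≤ (1 + δ) * (‖v.2‖ * ‖ξ‖) := by
      rw [abs_mul]
      exact mul_le_mul hz2.le (abs_real_inner_le_norm _ _) (abs_nonneg _) (by positivity)
    have h2 := neg_abs_le (z.im * inner ℝ v.2 ξ)
    have h3 : |z.re * u.1| ≤ δ * |u.1| := by
      rw [abs_mul]
      exact mul_le_mul_of_nonneg_right hz1.le (abs_nonneg _)
    have h4 := neg_abs_le (z.re * u.1)
    have h5 : 0 ≤ (v.1 + z.re * u.1 - (1 + δ) * ‖v.2‖ - η) * ‖ξ‖ := by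
      refine mul_nonneg ?_ (norm_nonneg _)
      nlinarith
    nlinarith
  have hFwd : ∀ z ∈ U, (v.1 + z.re * u.1, z.im • v.2) ∈ Fwd := by
    intro z hz
    obtain ⟨hz1, hz2⟩ := hz
    show ‖z.im • v.2‖ < v.1 + z.re * u.1
    rw [norm_smul, Real.norm_eq_abs]
    have h1 : |z.im| * ‖v.2‖ ≤ (1 + δ) * ‖v.2‖ :=
      mul_le_mul_of_nonneg_right hz2.le (norm_nonneg _)
    have h3 : |z.re * u.1| ≤ δ * |u.1| := by
      rw [abs_mul]
      exact mul_le_mul_of_nonneg_right hz1.le (abs_nonneg _)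
    have h4 := neg_abs_le (z.re * u.1)
    nlinarith
  have hbound : ∀ z ∈ U, ∀ ξ, ‖g ξ * cexp (z * l ξ)‖ ≤ FT.ek η ξ := by
    intro z hz ξ
    simp only [hg, hl]
    rw [mul_assoc, ← Complex.exp_add, norm_mul, Complex.norm_exp, Complex.norm_real,
      Real.norm_of_nonneg (by positivity)]
    have e1 : (-(((v.1 * ‖ξ‖ : ℝ) : ℂ) + I * (inner ℝ u.2 ξ : ℝ)) +
        z * (-((u.1 * ‖ξ‖ : ℝ) : ℂ) + I * (inner ℝ v.2 ξ : ℝ))).re =
        -((v.1 + z.re * u.1) * ‖ξ‖ + z.im * inner ℝ v.2 ξ) := by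
      simp only [Complex.add_re, Complex.neg_re, Complex.mul_re, Complex.I_re, Complex.I_im,
        Complex.ofReal_re, Complex.ofReal_im, Complex.add_im, Complex.neg_im, Complex.mul_im]
      ring
    rw [e1]
    unfold FT.ek
    rw [div_eq_mul_inv, mul_comm]
    refine mul_le_mul_of_nonneg_right ?_ (by positivity)
    exact Real.exp_le_exp.2 (by linarith [hdec z hz ξ])
  have hUo : IsOpen U := (isOpen_lt (continuous_abs.comp Complex.continuous_re)
    continuous_const).inter (isOpen_lt (continuous_abs.comp Complex.continuous_im)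
    continuous_const)
  have hUc : IsPreconnected U := by
    have : U = (Complex.reCLM ⁻¹' (Ioo (-δ) δ)) ∩ (Complex.imCLM ⁻¹' (Ioo (-(1 + δ)) (1 + δ))) := by
      ext z
      simp [hU, abs_lt]
    rw [this]
    exact (((convex_Ioo (-δ) δ).linear_preimage Complex.reCLM.toLinearMap).inter
      ((convex_Ioo (-(1 + δ)) (1 + δ)).linear_preimage Complex.imCLM.toLinearMap)).isPreconnected
  have hΦ : AnalyticOnNhd ℂ (fun z => ∫ ξ, g ξ * cexp (z * l ξ)) U := by
    refine DifferentiableOn.analyticOnNhd (fun z0 hz0 => ?_) hUo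
    refine DifferentiableAt.differentiableWithinAt ?_
    obtain ⟨r, hr, hball⟩ := Metric.isOpen_iff.1 hUo z0 hz0
    refine D_param volume g l (FT.ek η) z0 (r / 2) (by linarith)
      hgm.aestronglyMeasurable hlm.aestronglyMeasurable (FT.ek_integrable hη0) ?_
    refine Filter.Eventually.of_forall fun ξ z hz => hbound z (hball ?_) ξ
    rw [Metric.mem_ball, dist_eq_norm]
    linarith
  have hΨ : AnalyticOnNhd ℂ (fun z => (kap d : ℂ) * (D_Q u v z) ^ (-(nu d : ℂ))) U := by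
    refine DifferentiableOn.analyticOnNhd (fun z hz => ?_) hUo
    refine DifferentiableAt.differentiableWithinAt ?_
    refine DifferentiableAt.const_mul ?_ _
    have hQ : DifferentiableAt ℂ (D_Q u v) z := by
      unfold D_Q
      fun_prop
    refine hQ.cpow_const ?_
    rw [D_Q_eq]
    exact qf_mem_slitPlane _ _ (hFwd z hz)
  have hreal : ∀ x : ℝ, |x| < δ → ∫ ξ, g ξ * cexp ((x : ℂ) * l ξ) =
      (kap d : ℂ) * (D_Q u v x) ^ (-(nu d : ℂ)) := by
    intro x hx
    have hs : 0 < v.1 + x * u.1 := by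
      have h3 : |x * u.1| ≤ δ * |u.1| := by
        rw [abs_mul]
        exact mul_le_mul_of_nonneg_right hx.le (abs_nonneg _)
      have h4 := neg_abs_le (x * u.1)
      nlinarith [norm_nonneg v.2]
    have h := FT.ft_real hs (u.2 - x • v.2)
    have eQ : D_Q u v x = (((v.1 + x * u.1) ^ 2 + ‖u.2 - x • v.2‖ ^ 2 : ℝ) : ℂ) := by
      have e1 : ‖u.2 - x • v.2‖ ^ 2 = ‖u.2‖ ^ 2 - 2 * x * inner ℝ u.2 v.2 +
          x ^ 2 * ‖v.2‖ ^ 2 := by
        rw [norm_sub_sq_real, real_inner_smul_right, norm_smul, mul_pow, Real.norm_eq_abs, sq_abs]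
        ring
      rw [e1]
      unfold D_Q
      push_cast
      ring
    have hpos : 0 ≤ (v.1 + x * u.1) ^ 2 + ‖u.2 - x • v.2‖ ^ 2 := by positivity
    have e32 : (-(nu d : ℂ)) = ((-(nu d) : ℝ) : ℂ) := by push_cast; rfl
    rw [eQ, e32, ← Complex.ofReal_cpow hpos, ← Complex.ofReal_mul, ← h]
    refine integral_congr_ae (Filter.Eventually.of_forall fun ξ => ?_)
    simp only [hg, hl]
    rw [mul_assoc, ← Complex.exp_add]
    unfold FT.ek
    rw [Complex.ofReal_div, Complex.ofReal_exp, div_mul_eq_mul_div, ← Complex.exp_add,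
      Complex.ofReal_inv, inv_mul_eq_div]
    congr 2
    rw [inner_sub_left, real_inner_smul_left]
    push_cast
    ring
  have hI : (I : ℂ) ∈ U := by simp [hU, hδ0]
  have h0 : (0 : ℂ) ∈ U := by
    refine ⟨by simpa using hδ0, ?_⟩
    simp only [Complex.zero_im, abs_zero]
    positivity
  have hfreq : ∃ᶠ z in nhdsWithin (0 : ℂ) {0}ᶜ, (∫ ξ, g ξ * cexp (z * l ξ)) =
      (kap d : ℂ) * (D_Q u v z) ^ (-(nu d : ℂ)) := by
    have ht : Filter.Tendsto (fun x : ℝ => (x : ℂ)) (nhdsWithin 0 {0}ᶜ) (nhdsWithin 0 {0}ᶜ) := by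
      refine tendsto_nhdsWithin_iff.2 ⟨?_, ?_⟩
      · have : Filter.Tendsto (fun x : ℝ => (x : ℂ)) (nhds 0) (nhds ((0 : ℝ) : ℂ)) :=
          Complex.continuous_ofReal.tendsto 0
        rw [Complex.ofReal_zero] at this
        exact this.mono_left nhdsWithin_le_nhds
      · filter_upwards [self_mem_nhdsWithin] with x hx
        simpa using hx
    refine ht.frequently (Filter.Eventually.frequently ?_)
    have : ∀ᶠ x : ℝ in nhds 0, |x| < δ := by
      have := (continuous_abs (G := ℝ)).tendsto 0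
      rw [abs_zero] at this
      exact this.eventually (gt_mem_nhds hδ0)
    filter_upwards [this.filter_mono nhdsWithin_le_nhds] with x hx
    exact hreal x hx
  have heq := hΦ.eqOn_of_preconnected_of_frequently_eq hΨ hUc h0 hfreq hI
  simp only [D_Q_I] at heq
  rw [← heq]
  refine integral_congr_ae (Filter.Eventually.of_forall fun ξ => ?_)
  simp only [hg, hl]
  rw [mul_assoc, ← Complex.exp_add]
  congr 2
  unfold pair
  push_cast
  linear_combination (-(inner ℝ v.2 ξ : ℝ) : ℂ) * I_sq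

/-- D1 -/
theorem coneExt_expo (c v : Rs d) (hv : v ∈ Fwd) (a : Rs d) :
    coneExt (expo c v) a = (kap d : ℂ) * (qf (a - c) v) ^ (-(nu d : ℂ)) := by
  unfold coneExt
  rw [D_sig, ← D_int (a - c) v hv]
  refine integral_congr_ae (Filter.Eventually.of_forall fun ξ => ?_)
  simp only
  unfold expo
  rw [← Complex.exp_add]
  congr 2
  have : pair (a - c) ξ = pair a ξ - pair c ξ := by
    unfold pair
    rw [Prod.fst_sub, Prod.snd_sub, inner_sub_left]
    ring
  rw [this]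
  push_cast
  ring

/-- D2 -/
theorem inner_expo (c v c' v' : Rs d) (hv : v ∈ Fwd) (hv' : v' ∈ Fwd) :
    ∫ ξ, expo c v ξ * conj (expo c' v' ξ) ∂(sig d) =
      (kap d : ℂ) * (qf (c' - c) (v + v')) ^ (-(nu d : ℂ)) := by
  have hvv : v + v' ∈ Fwd := by
    show ‖v.2 + v'.2‖ < v.1 + v'.1
    have h1 : ‖v.2‖ < v.1 := hv
    have h2 : ‖v'.2‖ < v'.1 := hv'
    have := norm_add_le v.2 v'.2
    linarith
  rw [D_sig, ← D_int (c' - c) (v + v') hvv]
  refine integral_congr_ae (Filter.Eventually.of_forall fun ξ => ?_)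
  simp only
  unfold expo
  rw [← Complex.exp_conj, ← Complex.exp_add]
  congr 2
  have e1 : pair (c' - c) ξ = pair c' ξ - pair c ξ := by
    unfold pair
    rw [Prod.fst_sub, Prod.snd_sub, inner_sub_left]
    ring
  have e2 : pair (v + v') ξ = pair v ξ + pair v' ξ := by
    unfold pair
    rw [Prod.fst_add, Prod.snd_add, inner_add_left]
    ring
  rw [e1, e2]
  simp only [map_sub, map_mul, Complex.conj_I, Complex.conj_ofReal]
  push_cast
  ring

end Pool.Agent.ConeG
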