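import Pool.Agent.Work.MP_b0b133_an.G.Defs
import Pool.Agent.Work.MP_b0b133_an.G.FourierExp

/-!
# Integrability and completeness of the exponentials (modules D1', D3)
-/

set_option autoImplicit false
open MeasureTheory Complex
open scoped ENNReal ComplexConjugate

namespace Pool.Agent.ConeG

variable {d : ℕ}

theorem D_pair_ge (v : Rs d) (ξ : Rd d) : (v.1 - ‖v.2‖) * ‖ξ‖ ≤ pair v ξ := by
  have h := abs_le.1 (abs_real_inner_le_norm v.2 ξ)
  unfold pair
  nlinarith [h.1]

theorem D_norm_expo (c v : Rs d) (ξ : Rd d) : ‖expo c v ξ‖ = Real.exp (-(pair v ξ)) := by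
  unfold expo
  rw [Complex.norm_exp]
  congr 1
  simp

theorem D_continuous_pair (v : Rs d) : Continuous (pair v) := by
  unfold pair
  fun_prop

theorem D_continuous_expo (c v : Rs d) : Continuous (expo c v) := by
  unfold expo
  have h1 := D_continuous_pair c
  have h2 := D_continuous_pair v
  fun_prop

theorem D_integrable_sig {E : Type*} [NormedAddCommGroup E] [NormedSpace ℝ E] {g : Rd d → E} :
    Integrable g (sig d) ↔ Integrable (fun ξ : Rd d => ‖ξ‖⁻¹ • g ξ) := by
  unfold sig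
  rw [integrable_withDensity_iff_integrable_smul' (by fun_prop)
    (Filter.Eventually.of_forall fun _ => ENNReal.ofReal_lt_top)]
  have e : ∀ ξ : Rd d, (ENNReal.ofReal ‖ξ‖⁻¹).toReal = ‖ξ‖⁻¹ := fun ξ =>
    ENNReal.toReal_ofReal (by positivity)
  simp only [e]

variable [Fact (2 ≤ d)]

theorem D_exp_int {s : ℝ} (hs : 0 < s) : Integrable (fun ξ : Rd d => Real.exp (-(s * ‖ξ‖))) (sig d) := by
  rw [D_integrable_sig]
  refine (FT.ek_integrable hs).congr (Filter.Eventually.of_forall fun ξ => ?_)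
  unfold FT.ek
  simp only [smul_eq_mul]
  ring

theorem D_exp_l2 {s : ℝ} (hs : 0 < s) :
    MemLp (fun ξ : Rd d => Real.exp (-(s * ‖ξ‖))) 2 (sig d) := by
  rw [memLp_two_iff_integrable_sq (by fun_prop)]
  refine (D_exp_int (s := 2 * s) (by positivity)).congr (Filter.Eventually.of_forall fun ξ => ?_)
  simp only
  rw [← Real.exp_nat_mul]
  congr 1
  push_cast
  ring

/-- D1' -/
theorem expo_integrable (c v : Rs d) (hv : v ∈ Fwd) : Integrable (expo c v) (sig d) ∧
    MemLp (expo c v) 2 (sig d) := by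
  have hs : 0 < v.1 - ‖v.2‖ := sub_pos.2 hv
  have hb : ∀ ξ, ‖expo c v ξ‖ ≤ Real.exp (-((v.1 - ‖v.2‖) * ‖ξ‖)) := fun ξ => by
    rw [D_norm_expo]
    exact Real.exp_le_exp.2 (neg_le_neg (D_pair_ge v ξ))
  have hm : AEStronglyMeasurable (expo c v) (sig d) := (D_continuous_expo c v).aestronglyMeasurable
  refine ⟨(D_exp_int hs).mono' hm (Filter.Eventually.of_forall hb), ?_⟩
  refine (D_exp_l2 hs).mono hm (Filter.Eventually.of_forall fun ξ => ?_)
  rw [Real.norm_of_nonneg (Real.exp_pos _).le]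
  exact hb ξ

/-! ### Injectivity of the Fourier transform on `L¹` -/

/-- A real integrable function with vanishing Fourier transform is zero. -/
theorem D3_inj_real {g : Rd d → ℝ} (hg : Integrable g)
    (h : ∀ x : Rd d, ∫ ξ, (g ξ : ℂ) * cexp (I * (inner ℝ ξ x : ℝ)) = 0) : g =ᵐ[volume] 0 := by
  set μ : Measure (Rd d) := volume.withDensity fun ξ => ENNReal.ofReal (g ξ) with hμ
  set ν : Measure (Rd d) := volume.withDensity fun ξ => ENNReal.ofReal (-g ξ) with hν
  have : IsFiniteMeasure μ := isFiniteMeasure_withDensity_ofReal hg.2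
  have : IsFiniteMeasure ν := isFiniteMeasure_withDensity_ofReal hg.neg.2
  have hgm : AEMeasurable g volume := hg.aemeasurable
  have hgn : AEMeasurable (fun ξ => -g ξ) volume := hgm.neg
  have key : μ = ν := by
    refine Measure.ext_of_charFun ?_
    funext x
    rw [charFun_apply, charFun_apply, hμ, hν,
      integral_withDensity_eq_integral_toReal_smul₀ hgm.ennreal_ofReal
        (Filter.Eventually.of_forall fun _ => ENNReal.ofReal_lt_top),
      integral_withDensity_eq_integral_toReal_smul₀ hgn.ennreal_ofReal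
        (Filter.Eventually.of_forall fun _ => ENNReal.ofReal_lt_top)]
    have hb : ∀ ξ : Rd d, ‖cexp ((inner ℝ ξ x : ℝ) * I)‖ ≤ 1 := fun ξ => by
      rw [Complex.norm_exp_ofReal_mul_I]
    have hmc : AEStronglyMeasurable (fun ξ : Rd d => cexp ((inner ℝ ξ x : ℝ) * I)) volume := by
      have : Continuous fun ξ : Rd d => cexp ((inner ℝ ξ x : ℝ) * I) := by fun_prop
      exact this.aestronglyMeasurable
    have i1 : Integrable fun ξ : Rd d =>
        (ENNReal.ofReal (g ξ)).toReal • cexp ((inner ℝ ξ x : ℝ) * I) := by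
      have i0 : Integrable fun ξ => (ENNReal.ofReal (g ξ)).toReal := by
        refine hg.pos_part.congr (Filter.Eventually.of_forall fun ξ => ?_)
        simp only [ENNReal.toReal_ofReal']
      have := i0.ofReal (𝕜 := ℂ) |>.mul_bdd (c := 1) hmc (Filter.Eventually.of_forall hb)
      refine this.congr (Filter.Eventually.of_forall fun ξ => ?_)
      simp only [Complex.real_smul]
      rfl
    have i2 : Integrable fun ξ : Rd d =>
        (ENNReal.ofReal (-g ξ)).toReal • cexp ((inner ℝ ξ x : ℝ) * I) := by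
      have i0 : Integrable fun ξ => (ENNReal.ofReal (-g ξ)).toReal := by
        refine hg.neg.pos_part.congr (Filter.Eventually.of_forall fun ξ => ?_)
        simp only [ENNReal.toReal_ofReal', Pi.neg_apply]
      have := i0.ofReal (𝕜 := ℂ) |>.mul_bdd (c := 1) hmc (Filter.Eventually.of_forall hb)
      refine this.congr (Filter.Eventually.of_forall fun ξ => ?_)
      simp only [Complex.real_smul]
      rfl
    rw [← sub_eq_zero, ← integral_sub i1 i2, ← h x]
    refine integral_congr_ae (Filter.Eventually.of_forall fun ξ => ?_)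
    simp only
    rw [← sub_smul, Complex.real_smul, mul_comm I]
    congr 2
    rw [ENNReal.toReal_ofReal', ENNReal.toReal_ofReal']
    rcases le_total 0 (g ξ) with h0 | h0
    · rw [max_eq_left h0, max_eq_right (by linarith), sub_zero]
    · rw [max_eq_right h0, max_eq_left (by linarith), zero_sub, neg_neg]
  have h1 := (withDensity_eq_iff hgm.ennreal_ofReal hgn.ennreal_ofReal (by
    have := hg.2
    exact ne_of_lt (hg.lintegral_lt_top))).1 key
  filter_upwards [h1] with ξ hξ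
  by_contra h0
  rcases lt_or_gt_of_ne h0 with h2 | h2
  · simp only [Pi.zero_apply] at h2
    rw [ENNReal.ofReal_of_nonpos h2.le, eq_comm, ENNReal.ofReal_eq_zero] at hξ
    linarith
  · simp only [Pi.zero_apply] at h2
    rw [ENNReal.ofReal_of_nonpos (by linarith : -g ξ ≤ 0), ENNReal.ofReal_eq_zero] at hξ
    linarith

/-- A complex integrable function with vanishing Fourier transform is zero. -/
theorem D3_inj {g : Rd d → ℂ} (hg : Integrable g)
    (h : ∀ x : Rd d, ∫ ξ, g ξ * cexp (-(I * (inner ℝ x ξ : ℝ))) = 0) : g =ᵐ[volume] 0 := by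
  have hb : ∀ x ξ : Rd d, ‖cexp (I * (inner ℝ ξ x : ℝ))‖ ≤ 1 := fun x ξ => by
    rw [mul_comm, Complex.norm_exp_ofReal_mul_I]
  have hmc : ∀ x : Rd d, AEStronglyMeasurable (fun ξ : Rd d => cexp (I * (inner ℝ ξ x : ℝ))) volume :=
    fun x => by
      have : Continuous fun ξ : Rd d => cexp (I * (inner ℝ ξ x : ℝ)) := by fun_prop
      exact this.aestronglyMeasurable
  have hgc : Integrable fun ξ => conj (g ξ) := by
    have := (Complex.conjCLE : ℂ ≃L[ℝ] ℂ).toContinuousLinearMap.integrable_comp hg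
    exact this
  have h1 : ∀ x : Rd d, ∫ ξ, g ξ * cexp (I * (inner ℝ ξ x : ℝ)) = 0 := by
    intro x
    rw [← h (-x)]
    refine integral_congr_ae (Filter.Eventually.of_forall fun ξ => ?_)
    simp only
    rw [inner_neg_left, real_inner_comm]
    congr 2
    push_cast
    ring
  have h2 : ∀ x : Rd d, ∫ ξ, conj (g ξ) * cexp (I * (inner ℝ ξ x : ℝ)) = 0 := by
    intro x
    have h3 := congrArg conj (h x)
    rw [← integral_conj, map_zero] at h3
    rw [← h3]
    refine integral_congr_ae (Filter.Eventually.of_forall fun ξ => ?_)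
    simp only
    rw [map_mul, ← Complex.exp_conj, map_neg, map_mul, Complex.conj_I, Complex.conj_ofReal,
      real_inner_comm]
    congr 2
    ring
  have i1 : ∀ x : Rd d, Integrable fun ξ => g ξ * cexp (I * (inner ℝ ξ x : ℝ)) := fun x =>
    hg.mul_bdd (c := 1) (hmc x) (Filter.Eventually.of_forall (hb x))
  have i2 : ∀ x : Rd d, Integrable fun ξ => conj (g ξ) * cexp (I * (inner ℝ ξ x : ℝ)) := fun x =>
    hgc.mul_bdd (c := 1) (hmc x) (Filter.Eventually.of_forall (hb x))
  have hre := D3_inj_real (g := fun ξ => (g ξ).re) hg.re (fun x => by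
    have e : ∀ ξ : Rd d, (((g ξ).re : ℝ) : ℂ) * cexp (I * (inner ℝ ξ x : ℝ)) =
        (1 / 2 : ℂ) * (g ξ * cexp (I * (inner ℝ ξ x : ℝ)) +
          conj (g ξ) * cexp (I * (inner ℝ ξ x : ℝ))) := fun ξ => by
      rw [Complex.re_eq_add_conj]; ring
    simp only [e]
    rw [integral_const_mul, integral_add (i1 x) (i2 x), h1, h2, add_zero, mul_zero])
  have him := D3_inj_real (g := fun ξ => (g ξ).im) hg.im (fun x => by
    have e : ∀ ξ : Rd d, (((g ξ).im : ℝ) : ℂ) * cexp (I * (inner ℝ ξ x : ℝ)) =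
        (1 / (2 * I) : ℂ) * (g ξ * cexp (I * (inner ℝ ξ x : ℝ)) -
          conj (g ξ) * cexp (I * (inner ℝ ξ x : ℝ))) := fun ξ => by
      rw [Complex.im_eq_sub_conj]; ring
    simp only [e]
    rw [integral_const_mul, integral_sub (i1 x) (i2 x), h1, h2, sub_zero, mul_zero])
  filter_upwards [hre, him] with ξ e1 e2
  exact Complex.ext e1 e2

/-! ### Analytic continuation in one complex parameter -/

/-- The integrand. -/
noncomputable def D3_F (f : Rd d → ℂ) (x : Rd d) (z : ℂ) (ξ : Rd d) : ℂ :=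
  f ξ * cexp (-(I * z * (inner ℝ x ξ : ℝ)) - (‖ξ‖ : ℂ))

theorem D3_norm (f : Rd d → ℂ) (x : Rd d) (z : ℂ) (ξ : Rd d) :
    ‖D3_F f x z ξ‖ = ‖f ξ‖ * Real.exp (z.im * inner ℝ x ξ - ‖ξ‖) := by
  unfold D3_F
  rw [norm_mul, Complex.norm_exp]
  congr 2
  simp

theorem D3_le {x : Rd d} {z : ℂ} (hz : |z.im| ≤ 1 / (2 * (1 + ‖x‖))) (ξ : Rd d) :
    z.im * inner ℝ x ξ - ‖ξ‖ ≤ -(1 / 2 * ‖ξ‖) := by
  have h1 : |z.im * inner ℝ x ξ| ≤ 1 / 2 * ‖ξ‖ := by
    rw [abs_mul]
    have h2 := abs_real_inner_le_norm x ξ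
    calc |z.im| * |inner ℝ x ξ| ≤ 1 / (2 * (1 + ‖x‖)) * (‖x‖ * ‖ξ‖) :=
          mul_le_mul hz h2 (abs_nonneg _) (by positivity)
      _ ≤ 1 / (2 * (1 + ‖x‖)) * ((1 + ‖x‖) * ‖ξ‖) := by
          gcongr
          linarith
      _ = 1 / 2 * ‖ξ‖ := by field_simp
  linarith [(abs_le.1 h1).2]

theorem D3_norm_exp (x : Rd d) (z : ℂ) (ξ : Rd d) :
    ‖cexp (-(I * z * (inner ℝ x ξ : ℝ)) - (‖ξ‖ : ℂ))‖ = Real.exp (z.im * inner ℝ x ξ - ‖ξ‖) := by
  rw [Complex.norm_exp]
  congr 1
  simp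

theorem D3_mul_exp_le (ξ : Rd d) :
    ‖ξ‖ * Real.exp (-(1 / 2 * ‖ξ‖)) ≤ 4 * Real.exp (-(1 / 4 * ‖ξ‖)) := by
  have h1 : ‖ξ‖ ≤ 4 * Real.exp (1 / 4 * ‖ξ‖) := by
    have := Real.add_one_le_exp (1 / 4 * ‖ξ‖)
    linarith
  have e : Real.exp (1 / 4 * ‖ξ‖) * Real.exp (-(1 / 2 * ‖ξ‖)) = Real.exp (-(1 / 4 * ‖ξ‖)) := by
    rw [← Real.exp_add]
    congr 1
    ring
  calc ‖ξ‖ * Real.exp (-(1 / 2 * ‖ξ‖)) ≤ 4 * Real.exp (1 / 4 * ‖ξ‖) * Real.exp (-(1 / 2 * ‖ξ‖)) := by
        gcongr
    _ = 4 * Real.exp (-(1 / 4 * ‖ξ‖)) := by rw [mul_assoc, e]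

theorem D3_deriv {f : Rd d → ℂ} (hf : MemLp f 2 (sig d)) (x : Rd d) {z₀ : ℂ}
    (hz : |z₀.im| < 1 / (4 * (1 + ‖x‖))) :
    DifferentiableAt ℂ (fun z => ∫ ξ, D3_F f x z ξ ∂(sig d)) z₀ := by
  set δ : ℝ := 1 / (4 * (1 + ‖x‖)) with hδ
  have hδ0 : 0 < δ := by positivity
  have him : ∀ z ∈ Metric.ball z₀ δ, |z.im| ≤ 1 / (2 * (1 + ‖x‖)) := by
    intro z hz'
    have h1 : |z.im - z₀.im| ≤ δ := by
      rw [← Complex.sub_im]
      exact (Complex.abs_im_le_norm _).trans (mem_ball_iff_norm.1 hz').le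
    have h2 : |z.im| ≤ |z.im - z₀.im| + |z₀.im| := by
      have := abs_add_le (z.im - z₀.im) z₀.im
      rwa [sub_add_cancel] at this
    have h3 : 1 / (2 * (1 + ‖x‖)) = δ + δ := by rw [hδ]; field_simp; norm_num
    rw [h3]
    linarith
  have hfm : AEStronglyMeasurable f (sig d) := hf.1
  have hmeas : ∀ z : ℂ, AEStronglyMeasurable (D3_F f x z) (sig d) := by
    intro z
    unfold D3_F
    refine hfm.mul ?_
    have : Continuous fun ξ : Rd d => cexp (-(I * z * (inner ℝ x ξ : ℝ)) - (‖ξ‖ : ℂ)) := by fun_prop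
    exact this.aestronglyMeasurable
  have hint : ∀ s : ℝ, 0 < s → Integrable (fun ξ => ‖f ξ‖ * Real.exp (-(s * ‖ξ‖))) (sig d) :=
    fun s hs => hf.norm.integrable_mul (D_exp_l2 hs)
  have h := hasDerivAt_integral_of_dominated_loc_of_deriv_le (μ := sig d) (F := D3_F f x)
    (F' := fun z ξ => D3_F f x z ξ * (-(I * (inner ℝ x ξ : ℝ))))
    (x₀ := z₀) (s := Metric.ball z₀ δ)
    (bound := fun ξ => 4 * ‖x‖ * (‖f ξ‖ * Real.exp (-(1 / 4 * ‖ξ‖))))
    (Metric.ball_mem_nhds _ hδ0) (Filter.Eventually.of_forall hmeas) ?_ ?_ ?_ ?_ ?_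
  · exact h.2.differentiableAt
  · refine (hint (1 / 2) (by norm_num)).mono' (hmeas z₀) (Filter.Eventually.of_forall fun ξ => ?_)
    rw [D3_norm]
    have := D3_le (him z₀ (Metric.mem_ball_self hδ0)) ξ
    gcongr
  · refine (hmeas z₀).mul ?_
    have : Continuous fun ξ : Rd d => -(I * (inner ℝ x ξ : ℝ)) := by fun_prop
    exact this.aestronglyMeasurable
  · refine Filter.Eventually.of_forall fun ξ z hz' => ?_
    rw [norm_mul, D3_norm, norm_neg, norm_mul, Complex.norm_I, one_mul, Complex.norm_real,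
      Real.norm_eq_abs]
    have h1 := D3_le (him z hz') ξ
    have h2 := abs_real_inner_le_norm x ξ
    calc ‖f ξ‖ * Real.exp (z.im * inner ℝ x ξ - ‖ξ‖) * |inner ℝ x ξ| ≤
        ‖f ξ‖ * Real.exp (-(1 / 2 * ‖ξ‖)) * (‖x‖ * ‖ξ‖) := by gcongr
      _ = ‖x‖ * ‖f ξ‖ * (‖ξ‖ * Real.exp (-(1 / 2 * ‖ξ‖))) := by ring
      _ ≤ ‖x‖ * ‖f ξ‖ * (4 * Real.exp (-(1 / 4 * ‖ξ‖))) :=
          mul_le_mul_of_nonneg_left (D3_mul_exp_le ξ) (by positivity)
      _ = 4 * ‖x‖ * (‖f ξ‖ * Real.exp (-(1 / 4 * ‖ξ‖))) := by ring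
  · exact (hint (1 / 4) (by norm_num)).const_mul _
  · refine Filter.Eventually.of_forall fun ξ z _ => ?_
    unfold D3_F
    have h1 : HasDerivAt (fun z : ℂ => -(I * z * (inner ℝ x ξ : ℝ)) - (‖ξ‖ : ℂ))
        (-(I * (inner ℝ x ξ : ℝ))) z := by
      have := (((hasDerivAt_id z).const_mul I).mul_const ((inner ℝ x ξ : ℝ) : ℂ)).neg.sub_const
        (‖ξ‖ : ℂ)
      simpa using this
    have h2 := h1.cexp.const_mul (f ξ)
    refine h2.congr_deriv ?_
    ring

/-- D3 : density of the exponentials with parameter near `(0, e)` -/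
theorem expo_dense (f : Rd d → ℂ) (hf : MemLp f 2 (sig d)) (r : ℝ) (hr : 0 < r)
    (h : ∀ c v : Rs d, v ∈ Fwd → ‖c‖ < r → ‖v - (1, 0)‖ < r →
      ∫ ξ, f ξ * conj (expo c v ξ) ∂(sig d) = 0) : f =ᵐ[sig d] 0 := by
  have hconj : ∀ (x : Rd d) (t : ℝ) (ξ : Rd d),
      f ξ * conj (expo (0, t • x) (1, 0) ξ) = D3_F f x t ξ := by
    intro x t ξ
    unfold expo D3_F pair
    rw [← Complex.exp_conj]
    congr 2
    simp only [map_sub, map_mul, Complex.conj_I, Complex.conj_ofReal, zero_mul, zero_add,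
      inner_zero_left, one_mul, add_zero, inner_smul_left]
    push_cast
    simp only [conj_trivial]
    ring
  have hzero : ∀ x : Rd d, ∫ ξ, D3_F f x 1 ξ ∂(sig d) = 0 := by
    intro x
    set U : Set ℂ := {z | |z.im| < 1 / (4 * (1 + ‖x‖))} with hU
    have hpos : 0 < 1 / (4 * (1 + ‖x‖)) := by positivity
    have hUo : IsOpen U := by
      have : Continuous fun z : ℂ => |z.im| := by fun_prop
      exact isOpen_lt this continuous_const
    have hUc : IsPreconnected U := by
      have h1 : Convex ℝ U := by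
        have h2 : U = Complex.imLm ⁻¹' (Set.Ioo (-(1 / (4 * (1 + ‖x‖)))) (1 / (4 * (1 + ‖x‖)))) := by
          ext z
          simp only [hU, Set.mem_ofPred_eq, Set.mem_preimage, Set.mem_Ioo, abs_lt]
          rfl
        rw [h2]
        exact (convex_Ioo _ _).linear_preimage _
      exact h1.isPreconnected
    have hd : DifferentiableOn ℂ (fun z => ∫ ξ, D3_F f x z ξ ∂(sig d)) U := fun z hz =>
      (D3_deriv hf x hz).differentiableWithinAt
    have ha : AnalyticOnNhd ℂ (fun z => ∫ ξ, D3_F f x z ξ ∂(sig d)) U := hd.analyticOnNhd hUo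
    have h0U : (0 : ℂ) ∈ U := by
      simp only [hU, Set.mem_ofPred_eq, Complex.zero_im, abs_zero]
      exact hpos
    have h1U : (1 : ℂ) ∈ U := by
      simp only [hU, Set.mem_ofPred_eq, Complex.one_im, abs_zero]
      exact hpos
    have hfreq : ∃ᶠ z in nhdsWithin (0 : ℂ) {0}ᶜ, (∫ ξ, D3_F f x z ξ ∂(sig d)) = 0 := by
      have hsmall : ∀ t : ℝ, |t| * (1 + ‖x‖) < r → (∫ ξ, D3_F f x t ξ ∂(sig d)) = 0 := by
        intro t ht
        have h2 := h (0, t • x) (1, 0) (by simp [Fwd]) (by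
          rw [Prod.norm_def]
          simp only [norm_zero, norm_smul, Real.norm_eq_abs]
          rw [max_lt_iff]
          refine ⟨hr, lt_of_le_of_lt ?_ ht⟩
          gcongr
          linarith) (by simpa using hr)
        rw [← h2]
        exact integral_congr_ae (Filter.Eventually.of_forall fun ξ => (hconj x t ξ).symm)
      have htend : Filter.Tendsto (fun n : ℕ => (((r / (1 + ‖x‖) / (n + 2) : ℝ)) : ℂ))
          Filter.atTop (nhdsWithin (0 : ℂ) {0}ᶜ) := by
        rw [tendsto_nhdsWithin_iff]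
        constructor
        · have h3 : Filter.Tendsto (fun n : ℕ => (r / (1 + ‖x‖) / (n + 2) : ℝ)) Filter.atTop
              (nhds 0) := by
            have h4 : Filter.Tendsto (fun n : ℕ => (n : ℝ) + 2) Filter.atTop Filter.atTop :=
              Filter.tendsto_atTop_add_const_right _ _ tendsto_natCast_atTop_atTop
            exact h4.const_div_atTop _
          have h5 := (Complex.continuous_ofReal.tendsto 0).comp h3
          rw [Complex.ofReal_zero] at h5
          exact h5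
        · refine Filter.Eventually.of_forall fun n => ?_
          simp only [Set.mem_compl_iff, Set.mem_singleton_iff]
          have h6 : 0 < r / (1 + ‖x‖) / ((n : ℝ) + 2) := by positivity
          exact_mod_cast h6.ne'
      refine htend.frequently (Filter.Frequently.of_forall fun n => ?_)
      refine hsmall _ ?_
      have h6 : 0 < r / (1 + ‖x‖) / ((n : ℝ) + 2) := by positivity
      rw [abs_of_pos h6]
      have h7 : r / (1 + ‖x‖) / ((n : ℝ) + 2) * (1 + ‖x‖) = r / ((n : ℝ) + 2) := by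
        field_simp
      rw [h7, div_lt_iff₀ (by positivity)]
      have : (0 : ℝ) ≤ n := Nat.cast_nonneg n
      nlinarith
    exact ha.eqOn_zero_of_preconnected_of_frequently_eq_zero hUc h0U hfreq h1U
  -- the Fourier transform of `f e^{-|ξ|} / |ξ|` vanishes
  have hfe : Integrable (fun ξ => f ξ * (Real.exp (-(1 * ‖ξ‖)) : ℂ)) (sig d) := by
    have h1 : MemLp (fun ξ : Rd d => ((Real.exp (-(1 * ‖ξ‖)) : ℝ) : ℂ)) 2 (sig d) :=
      (D_exp_l2 one_pos).ofReal
    exact hf.integrable_mul h1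
  rw [D_integrable_sig] at hfe
  have h1 := D3_inj hfe (fun x => by
    have h2 := hzero x
    unfold sig at h2
    rw [integral_withDensity_eq_integral_toReal_smul (by fun_prop)
      (Filter.Eventually.of_forall fun _ => ENNReal.ofReal_lt_top)] at h2
    rw [← h2]
    refine integral_congr_ae (Filter.Eventually.of_forall fun ξ => ?_)
    simp only
    have e : (ENNReal.ofReal ‖ξ‖⁻¹).toReal = ‖ξ‖⁻¹ := ENNReal.toReal_ofReal (by positivity)
    rw [e]
    unfold D3_F
    rw [smul_mul_assoc]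
    congr 1
    rw [mul_assoc, Complex.ofReal_exp, ← Complex.exp_add]
    congr 2
    push_cast
    ring)
  have h3 : ∀ᵐ ξ : Rd d, f ξ = 0 := by
    filter_upwards [h1, FT.ae_ne_zero] with ξ e1 e2
    simp only [Pi.zero_apply, smul_eq_zero, inv_eq_zero, norm_eq_zero, e2, false_or,
      mul_eq_zero] at e1
    rcases e1 with e1 | e1
    · exact e1
    · exact absurd (Complex.ofReal_eq_zero.1 e1) (Real.exp_pos _).ne'
  have h4 : (sig d) ≪ (volume : Measure (Rd d)) := withDensity_absolutelyContinuous _ _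
  exact h4.ae_le h3

end Pool.Agent.ConeG
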