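import Pool.Agent.Work.MP_b0b133_an.G.Defs

/-!
# The constant of the Laplace transform of the powers of the Lorentz form on the forward cone
-/

set_option autoImplicit false
open MeasureTheory Complex
open scoped ENNReal ComplexConjugate

namespace Pool.Agent.ConeG

/-- the constant of the Laplace transform -/
noncomputable def lapc (d : ℕ) (α : ℂ) : ℂ :=
  (Real.pi : ℂ) ^ (((d : ℂ) - 1) / 2) * (2 : ℂ) ^ (2 * α + d) * Complex.Gamma (α + 1) *
    Complex.Gamma (α + ((d : ℂ) + 1) / 2)

end Pool.Agent.ConeG
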