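import Pool.Agent.Work.MP_b0b133_an.G.FourierExp
import Pool.Agent.Work.MP_b0b133_an.G.LapDef

/-!
# The Laplace transform of the powers of the Lorentz form on the cone: the axis
-/

set_option autoImplicit false
open MeasureTheory Complex Set
open scoped ENNReal ComplexConjugate

namespace Pool.Agent.ConeG

variable {d : ℕ}

/-- the constant of the inner integral -/
noncomputable def E_c (d : ℕ) (α : ℂ) : ℂ :=
  (Real.pi : ℂ) ^ ((d : ℂ) / 2) * Complex.Gamma (α + 1) / Complex.Gamma (α + 1 + (d : ℂ) / 2)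

theorem E_lapc (α : ℂ) (hα : -1 < α.re) :
    E_c d α * Complex.Gamma (2 * α + d + 1) = lapc d α := by
  have h := Complex.Gamma_mul_Gamma_add_half (α + ((d : ℂ) + 1) / 2)
  have e1 : α + ((d : ℂ) + 1) / 2 + 1 / 2 = α + 1 + (d : ℂ) / 2 := by ring
  have e2 : 2 * (α + ((d : ℂ) + 1) / 2) = 2 * α + d + 1 := by ring
  have e3 : 1 - (2 * α + d + 1) = -(2 * α + d) := by ring
  rw [e1, e2, e3] at h
  have n1 : Complex.Gamma (α + 1 + (d : ℂ) / 2) ≠ 0 := by
    apply Complex.Gamma_ne_zero_of_re_pos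
    have : (0 : ℝ) ≤ d := Nat.cast_nonneg d
    simp
    linarith
  have n2 : (2 : ℂ) ^ (2 * α + d) ≠ 0 := by
    rw [Ne, Complex.cpow_eq_zero_iff]
    simp
  have hpi : (Real.pi : ℂ) ≠ 0 := by exact_mod_cast Real.pi_pos.ne'
  have e4 : (Real.pi : ℂ) ^ ((d : ℂ) / 2) =
      (Real.pi : ℂ) ^ (((d : ℂ) - 1) / 2) * ((√Real.pi : ℝ) : ℂ) := by
    have h1 : ((√Real.pi : ℝ) : ℂ) = (Real.pi : ℂ) ^ ((1 : ℂ) / 2) := by
      rw [Real.sqrt_eq_rpow, Complex.ofReal_cpow Real.pi_pos.le]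
      push_cast
      rfl
    rw [h1, ← Complex.cpow_add _ _ hpi]
    congr 1
    ring
  rw [Complex.cpow_neg] at h
  unfold E_c lapc
  rw [e4, div_mul_eq_mul_div, div_eq_iff n1]
  have h' : Complex.Gamma (2 * α + d + 1) * ((√Real.pi : ℝ) : ℂ) =
      Complex.Gamma (α + ((d : ℂ) + 1) / 2) * Complex.Gamma (α + 1 + (d : ℂ) / 2) *
        (2 : ℂ) ^ (2 * α + d) := by
    rw [h]
    field_simp
  linear_combination (Real.pi : ℂ) ^ (((d : ℂ) - 1) / 2) * Complex.Gamma (α + 1) * h'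

/-- the one-dimensional integrand -/
noncomputable def E_g (d : ℕ) (A : ℝ) (α : ℂ) (y : ℝ) : ℂ :=
  (Iio A).indicator (fun y : ℝ => (y : ℂ) ^ ((d : ℂ) / 2 - 1) * ((A - y : ℝ) : ℂ) ^ α) y

variable [Fact (2 ≤ d)]

theorem E_g_int (A : ℝ) (hA : 0 < A) (α : ℂ) (hα : -1 < α.re) :
    IntegrableOn (E_g d A α) (Ioi 0) ∧
    ∫ y in Ioi 0, E_g d A α y =
      (A : ℂ) ^ (α + (d : ℂ) / 2) * Complex.betaIntegral ((d : ℂ) / 2) (α + 1) := by
  have hd := two_le_real d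
  have hs : 0 < ((d : ℂ) / 2).re := by
    have : ((d : ℂ) / 2).re = (d : ℝ) / 2 := by simp
    rw [this]
    linarith
  have ht : 0 < (α + 1).re := by simp; linarith
  have hA0 : (A : ℂ) ≠ 0 := by exact_mod_cast hA.ne'
  have h0 := Complex.betaIntegral_convergent hs ht
  have h3 : IntervalIntegrable
      (fun x : ℝ => (x : ℂ) ^ ((d : ℂ) / 2 - 1) * ((A - x : ℝ) : ℂ) ^ α) volume 0 A := by
    have h1 := (h0.comp_mul_left (c := A⁻¹))
    simp only [zero_div, one_div, inv_inv] at h1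
    have h2 := h1.const_mul ((A : ℂ) ^ ((d : ℂ) / 2 - 1) * (A : ℂ) ^ α)
    refine h2.congr ?_
    intro x hx
    rw [uIoc_of_le hA.le] at hx
    have hx0 : 0 ≤ A⁻¹ * x := by have := hx.1; positivity
    have hx1 : 0 ≤ 1 - A⁻¹ * x := by
      have : A⁻¹ * x ≤ 1 := by
        rw [inv_mul_le_iff₀ hA]
        linarith [hx.2]
      linarith
    have e1 : (x : ℂ) = (A : ℂ) * ((A⁻¹ * x : ℝ) : ℂ) := by
      push_cast
      field_simp
    have e2 : ((A - x : ℝ) : ℂ) = (A : ℂ) * ((1 - A⁻¹ * x : ℝ) : ℂ) := by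
      push_cast
      field_simp
    have e3 : (x : ℂ) ^ ((d : ℂ) / 2 - 1) =
        (A : ℂ) ^ ((d : ℂ) / 2 - 1) * ((A⁻¹ * x : ℝ) : ℂ) ^ ((d : ℂ) / 2 - 1) := by
      conv_lhs => rw [e1]
      exact Complex.mul_cpow_ofReal_nonneg hA.le hx0 _
    have e4 : ((A - x : ℝ) : ℂ) ^ α = (A : ℂ) ^ α * ((1 - A⁻¹ * x : ℝ) : ℂ) ^ α := by
      rw [e2]
      exact Complex.mul_cpow_ofReal_nonneg hA.le hx1 _
    simp only
    rw [e3, e4, add_sub_cancel_right]
    push_cast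
    ring
  have hio : IntegrableOn
      (fun x : ℝ => (x : ℂ) ^ ((d : ℂ) / 2 - 1) * ((A - x : ℝ) : ℂ) ^ α) (Ioo 0 A) volume := by
    rw [intervalIntegrable_iff_integrableOn_Ioo_of_le hA.le] at h3
    exact h3
  have hset : Ioi (0 : ℝ) ∩ Iio A = Ioo 0 A := by
    ext x; simp [mem_Ioo]
  constructor
  · unfold E_g
    rw [IntegrableOn, integrable_indicator_iff measurableSet_Iio, IntegrableOn,
      Measure.restrict_restrict measurableSet_Iio, inter_comm, hset]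
    exact hio
  · unfold E_g
    rw [integral_indicator measurableSet_Iio, Measure.restrict_restrict measurableSet_Iio,
      inter_comm, hset, ← integral_Ioc_eq_integral_Ioo, ← intervalIntegral.integral_of_le hA.le]
    have h5 := Complex.betaIntegral_scaled ((d : ℂ) / 2) (α + 1) hA
    rw [add_sub_cancel_right] at h5
    have e5 : (d : ℂ) / 2 + (α + 1) - 1 = α + (d : ℂ) / 2 := by ring
    rw [e5] at h5
    rw [← h5]
    refine intervalIntegral.integral_congr fun x _ => ?_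
    push_cast
    rfl

theorem E_radial (α : ℂ) (τ : ℝ) (hτ : 0 < τ) (r : ℝ) (hr : r ∈ Ioi (0 : ℝ)) :
    r ^ (d - 1) • (Iio τ).indicator (fun r : ℝ => ((τ ^ 2 - r ^ 2 : ℝ) : ℂ) ^ α) r =
      (1 / 2 : ℝ) • ((|(2 : ℝ)| * r ^ ((2 : ℝ) - 1)) • E_g d (τ ^ 2) α (r ^ (2 : ℝ))) := by
  have hr0 : 0 < r := hr
  have hd := two_le d
  have e1 : r ^ (2 : ℝ) = r ^ 2 := by exact_mod_cast Real.rpow_natCast r 2
  have e2 : r ^ ((2 : ℝ) - 1) = r := by norm_num
  rw [e1, e2]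
  unfold E_g
  by_cases h : r < τ
  · have h2 : r ^ 2 < τ ^ 2 := by nlinarith
    rw [indicator_of_mem (by exact h : r ∈ Iio τ),
      indicator_of_mem (by exact h2 : r ^ 2 ∈ Iio (τ ^ 2))]
    have e3 : ((r ^ 2 : ℝ) : ℂ) ^ ((d : ℂ) / 2 - 1) = ((r ^ (d - 2) : ℝ) : ℂ) := by
      have e4 : ((d : ℂ) / 2 - 1) = (((d : ℝ) / 2 - 1 : ℝ) : ℂ) := by push_cast; rfl
      rw [e4, ← Complex.ofReal_cpow (by positivity)]
      congr 1
      rw [← Real.rpow_natCast r 2, ← Real.rpow_mul hr0.le, ← Real.rpow_natCast r (d - 2)]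
      congr 1
      rw [Nat.cast_sub hd]
      push_cast
      ring
    have e5 : r ^ (d - 1) = r * r ^ (d - 2) := by
      rw [← pow_succ']
      congr 1
      omega
    rw [e3, e5]
    simp only [Complex.real_smul]
    push_cast
    rw [abs_of_pos (by norm_num : (0 : ℝ) < 2)]
    push_cast
    ring
  · have h2 : ¬ r ^ 2 < τ ^ 2 := by nlinarith
    rw [indicator_of_notMem (by exact h : r ∉ Iio τ),
      indicator_of_notMem (by exact h2 : r ^ 2 ∉ Iio (τ ^ 2))]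
    simp

theorem E_finrankd : Module.finrank ℝ (Rd d) = d := by simp

theorem E_balld : (volume : Measure (Rd d)).real (Metric.ball 0 1) =
    Real.pi ^ ((d : ℝ) / 2) / Real.Gamma ((d : ℝ) / 2 + 1) := by
  have h2 := two_le d
  have : Nonempty (Fin d) := ⟨⟨0, by omega⟩⟩
  have hg : 0 < Real.Gamma ((d : ℝ) / 2 + 1) := Real.Gamma_pos_of_pos (by positivity)
  rw [Measure.real, EuclideanSpace.volume_ball]
  simp only [ENNReal.ofReal_one, one_pow, one_mul, Fintype.card_fin]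
  rw [ENNReal.toReal_ofReal (by positivity)]
  congr 1
  rw [Real.sqrt_eq_rpow, ← Real.rpow_natCast, ← Real.rpow_mul Real.pi_pos.le]
  congr 1
  ring

theorem E_const (α : ℂ) (hα : -1 < α.re) :
    (d : ℂ) * ((Real.pi ^ ((d : ℝ) / 2) / Real.Gamma ((d : ℝ) / 2 + 1) : ℝ) : ℂ) *
      ((1 / 2) * Complex.betaIntegral ((d : ℂ) / 2) (α + 1)) = E_c d α := by
  have hd := two_le_real d
  have hs : 0 < ((d : ℂ) / 2).re := by
    have : ((d : ℂ) / 2).re = (d : ℝ) / 2 := by simp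
    rw [this]
    linarith
  have ht : 0 < (α + 1).re := by simp; linarith
  have h := Complex.Gamma_mul_Gamma_eq_betaIntegral hs ht
  have n1 : Complex.Gamma ((d : ℂ) / 2 + (α + 1)) ≠ 0 := by
    apply Complex.Gamma_ne_zero_of_re_pos
    rw [Complex.add_re]
    linarith
  have n2 : Complex.Gamma ((d : ℂ) / 2) ≠ 0 := Complex.Gamma_ne_zero_of_re_pos hs
  have hd0 : (d : ℂ) / 2 ≠ 0 := by
    intro h0
    rw [h0] at hs
    simp at hs
  have e1 : ((Real.Gamma ((d : ℝ) / 2 + 1) : ℝ) : ℂ) = (d : ℂ) / 2 * Complex.Gamma ((d : ℂ) / 2) := by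
    rw [← Complex.Gamma_ofReal]
    push_cast
    exact Complex.Gamma_add_one _ hd0
  have e2 : ((Real.pi ^ ((d : ℝ) / 2) : ℝ) : ℂ) = (Real.pi : ℂ) ^ ((d : ℂ) / 2) := by
    rw [Complex.ofReal_cpow Real.pi_pos.le]
    push_cast
    rfl
  rw [Complex.ofReal_div, e1, e2]
  unfold E_c
  have e3 : α + 1 + (d : ℂ) / 2 = (d : ℂ) / 2 + (α + 1) := by ring
  rw [e3]
  have hb : Complex.betaIntegral ((d : ℂ) / 2) (α + 1) =
      Complex.Gamma ((d : ℂ) / 2) * Complex.Gamma (α + 1) /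
        Complex.Gamma ((d : ℂ) / 2 + (α + 1)) := by
    rw [h, mul_div_cancel_left₀ _ n1]
  have hd1 : (d : ℂ) ≠ 0 := by
    intro h0
    rw [h0] at hd0
    simp at hd0
  rw [hb]
  field_simp

theorem E_inner (α : ℂ) (hα : -1 < α.re) (τ : ℝ) (hτ : 0 < τ) :
    Integrable (fun ξ : Rd d => (Iio τ).indicator
      (fun r : ℝ => ((τ ^ 2 - r ^ 2 : ℝ) : ℂ) ^ α) ‖ξ‖) ∧
    ∫ ξ : Rd d, (Iio τ).indicator (fun r : ℝ => ((τ ^ 2 - r ^ 2 : ℝ) : ℂ) ^ α) ‖ξ‖ =
      E_c d α * ((τ : ℂ) ^ (2 * α + d)) := by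
  have hnt := FT.nontriv (d := d)
  have hg := E_g_int (d := d) (τ ^ 2) (by positivity) α hα
  constructor
  · rw [integrable_fun_norm_addHaar (volume : Measure (Rd d))
      (f := (Iio τ).indicator (fun r : ℝ => ((τ ^ 2 - r ^ 2 : ℝ) : ℂ) ^ α)), E_finrankd]
    rw [integrableOn_congr_fun (fun r hr => E_radial α τ hτ r hr) measurableSet_Ioi]
    exact ((integrableOn_Ioi_comp_rpow_iff (E_g d (τ ^ 2) α) (by norm_num : (2 : ℝ) ≠ 0)).2
      hg.1).smul (1 / 2 : ℝ)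
  · rw [integral_fun_norm_addHaar (volume : Measure (Rd d))
      (f := (Iio τ).indicator (fun r : ℝ => ((τ ^ 2 - r ^ 2 : ℝ) : ℂ) ^ α)), E_finrankd, E_balld,
      setIntegral_congr_fun measurableSet_Ioi (fun r hr => E_radial α τ hτ r hr),
      integral_smul]
    have := integral_comp_rpow_Ioi (E_g d (τ ^ 2) α) (by norm_num : (2 : ℝ) ≠ 0)
    rw [this, hg.2]
    have hτ0 : (τ : ℂ) ≠ 0 := by exact_mod_cast hτ.ne'
    have e5 : (((τ ^ 2 : ℝ)) : ℂ) ^ (α + (d : ℂ) / 2) = (τ : ℂ) ^ (2 * α + d) := by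
      rw [cpow_def_of_ne_zero (by exact_mod_cast (by positivity : τ ^ 2 ≠ 0)),
        cpow_def_of_ne_zero hτ0, ← Complex.ofReal_log (by positivity), ← Complex.ofReal_log hτ.le,
        Real.log_pow]
      congr 1
      push_cast
      ring
    rw [e5, ← E_const α hα]
    simp only [nsmul_eq_mul, Complex.real_smul]
    push_cast
    ring

theorem E_norm_cpow (x : ℝ) (hx : 0 < x) (α : ℂ) : ‖((x : ℝ) : ℂ) ^ α‖ = x ^ α.re :=
  Complex.norm_cpow_eq_rpow_re_of_pos hx α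

/-- the radial profile -/
noncomputable def E_F (α : ℂ) (τ : ℝ) (ξ : Rd d) : ℂ :=
  (Iio τ).indicator (fun r : ℝ => ((τ ^ 2 - r ^ 2 : ℝ) : ℂ) ^ α) ‖ξ‖

theorem E_F_norm (α : ℂ) (τ : ℝ) (ξ : Rd d) : ((‖E_F α τ ξ‖ : ℝ) : ℂ) = E_F (α.re : ℂ) τ ξ := by
  unfold E_F
  by_cases h : ‖ξ‖ < τ
  · have h2 : 0 < τ ^ 2 - ‖ξ‖ ^ 2 := by
      have := norm_nonneg ξ
      nlinarith
    rw [indicator_of_mem (by exact h : ‖ξ‖ ∈ Iio τ), indicator_of_mem (by exact h : ‖ξ‖ ∈ Iio τ),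
      E_norm_cpow _ h2, Complex.ofReal_cpow h2.le]
  · rw [indicator_of_notMem (by exact h : ‖ξ‖ ∉ Iio τ),
      indicator_of_notMem (by exact h : ‖ξ‖ ∉ Iio τ)]
    simp

theorem E_F_int_norm (α : ℂ) (hα : -1 < α.re) (τ : ℝ) (hτ : 0 < τ) :
    ∫ ξ : Rd d, ‖E_F α τ ξ‖ = (E_c d (α.re : ℂ)).re * τ ^ (2 * α.re + d) := by
  have h := (E_inner (d := d) (α.re : ℂ) (by simpa using hα) τ hτ).2
  have e : ∫ ξ : Rd d, E_F (α.re : ℂ) τ ξ = ((∫ ξ : Rd d, ‖E_F α τ ξ‖ : ℝ) : ℂ) := by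
    rw [← integral_complex_ofReal]
    refine integral_congr_ae (Filter.Eventually.of_forall fun ξ => ?_)
    exact (E_F_norm α τ ξ).symm
  have e2 : (τ : ℂ) ^ (2 * (α.re : ℂ) + d) = ((τ ^ (2 * α.re + d) : ℝ) : ℂ) := by
    rw [Complex.ofReal_cpow hτ.le]
    push_cast
    rfl
  have h' : ((∫ ξ : Rd d, ‖E_F α τ ξ‖ : ℝ) : ℂ) =
      E_c d (α.re : ℂ) * ((τ ^ (2 * α.re + d) : ℝ) : ℂ) := by
    rw [← e, ← e2]
    unfold E_F
    rw [h]
  have h'' := congrArg Complex.re h'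
  rw [Complex.ofReal_re, Complex.re_mul_ofReal] at h''
  exact h''

/-- the integrand on the axis, extended by zero -/
theorem E_ind (α : ℂ) (m : ℝ) (k : Rs d) :
    Fwd.indicator (fun k : Rs d => cexp (-((m * k.1 : ℝ) : ℂ)) * ((lor k : ℝ) : ℂ) ^ α) k =
      (Ioi (0 : ℝ)).indicator (fun τ => cexp (-((m * τ : ℝ) : ℂ)) * E_F α τ k.2) k.1 := by
  obtain ⟨τ, ξ⟩ := k
  unfold E_F
  by_cases h : ‖ξ‖ < τ
  · have h0 : 0 < τ := lt_of_le_of_lt (norm_nonneg ξ) h
    rw [indicator_of_mem (by exact h : (τ, ξ) ∈ Fwd),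
      indicator_of_mem (by exact h0 : (τ, ξ).1 ∈ Ioi (0 : ℝ)),
      indicator_of_mem (by exact h : ‖ξ‖ ∈ Iio τ)]
    rfl
  · rw [indicator_of_notMem (by exact h : (τ, ξ) ∉ Fwd)]
    by_cases h0 : 0 < τ
    · rw [indicator_of_mem (by exact h0 : (τ, ξ).1 ∈ Ioi (0 : ℝ)),
        indicator_of_notMem (by exact h : ‖ξ‖ ∉ Iio τ), mul_zero]
    · rw [indicator_of_notMem (by exact h0 : (τ, ξ).1 ∉ Ioi (0 : ℝ))]

theorem E_Fwd_meas : MeasurableSet (Fwd : Set (Rs d)) :=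
  measurableSet_lt (measurable_snd.norm) measurable_fst

theorem E_lor_meas : Measurable (lor : Rs d → ℝ) :=
  (measurable_fst.pow_const 2).sub (measurable_snd.norm.pow_const 2)

theorem E_axis (α : ℂ) (hα : -1 < α.re) (m : ℝ) (hm : 0 < m) :
    IntegrableOn (fun k : Rs d => cexp (-((m * k.1 : ℝ) : ℂ)) * ((lor k : ℝ) : ℂ) ^ α) Fwd ∧
    ∫ k in (Fwd : Set (Rs d)), cexp (-((m * k.1 : ℝ) : ℂ)) * ((lor k : ℝ) : ℂ) ^ α =
      lapc d α * (m : ℂ) ^ (-(2 * α + (d + 1))) := by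
  have hd := two_le_real d
  have hmeas : Measurable
      (fun k : Rs d => cexp (-((m * k.1 : ℝ) : ℂ)) * ((lor k : ℝ) : ℂ) ^ α) := by
    refine Measurable.mul ?_ ?_
    · exact (Complex.measurable_ofReal.comp (measurable_fst.const_mul m)).neg.cexp
    · exact (Complex.measurable_ofReal.comp E_lor_meas).pow_const α
  have hint : Integrable (Fwd.indicator
      (fun k : Rs d => cexp (-((m * k.1 : ℝ) : ℂ)) * ((lor k : ℝ) : ℂ) ^ α)) := by
    rw [Measure.volume_eq_prod, integrable_prod_iff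
      (hmeas.indicator E_Fwd_meas).aestronglyMeasurable]
    constructor
    · refine Filter.Eventually.of_forall fun τ => ?_
      simp only [E_ind]
      by_cases h0 : 0 < τ
      · simp only [indicator_of_mem (by exact h0 : τ ∈ Ioi (0 : ℝ))]
        exact (E_inner α hα τ h0).1.const_mul _
      · simp only [indicator_of_notMem (by exact h0 : τ ∉ Ioi (0 : ℝ))]
        exact integrable_zero _ _ _
    · simp only [E_ind]
      have : (fun τ : ℝ => ∫ ξ : Rd d, ‖(Ioi (0 : ℝ)).indicator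
          (fun τ => cexp (-((m * τ : ℝ) : ℂ)) * E_F α τ ξ) τ‖) =
          (Ioi (0 : ℝ)).indicator (fun τ : ℝ => (E_c d (α.re : ℂ)).re *
            (τ ^ (2 * α.re + d) * Real.exp (-m * τ ^ (1 : ℝ)))) := by
        funext τ
        by_cases h0 : 0 < τ
        · simp only [indicator_of_mem (by exact h0 : τ ∈ Ioi (0 : ℝ)), norm_mul]
          rw [integral_const_mul, E_F_int_norm α hα τ h0, Complex.norm_exp, Real.rpow_one]
          have : (-((m * τ : ℝ) : ℂ)).re = -m * τ := by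
            rw [Complex.neg_re, Complex.ofReal_re]; ring
          rw [this]
          ring
        · simp only [indicator_of_notMem (by exact h0 : τ ∉ Ioi (0 : ℝ)), norm_zero,
            integral_zero]
      rw [this, integrable_indicator_iff measurableSet_Ioi]
      exact (integrableOn_rpow_mul_exp_neg_mul_rpow (by linarith) one_pos hm).const_mul _
  refine ⟨(integrable_indicator_iff E_Fwd_meas).1 hint, ?_⟩
  rw [← integral_indicator E_Fwd_meas]
  rw [Measure.volume_eq_prod] at hint ⊢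
  rw [integral_prod _ hint]
  simp only [E_ind]
  have : (fun τ : ℝ => ∫ ξ : Rd d, (Ioi (0 : ℝ)).indicator
      (fun τ => cexp (-((m * τ : ℝ) : ℂ)) * E_F α τ ξ) τ) =
      (Ioi (0 : ℝ)).indicator (fun τ : ℝ => E_c d α *
        ((τ : ℂ) ^ ((2 * α + d + 1) - 1) * cexp (-((m : ℂ) * τ)))) := by
    funext τ
    by_cases h0 : 0 < τ
    · simp only [indicator_of_mem (by exact h0 : τ ∈ Ioi (0 : ℝ))]
      rw [integral_const_mul]
      have := (E_inner (d := d) α hα τ h0).2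
      unfold E_F
      rw [this, show (2 * α + d + 1) - 1 = 2 * α + d by ring]
      push_cast
      ring
    · simp only [indicator_of_notMem (by exact h0 : τ ∉ Ioi (0 : ℝ)), integral_zero]
  rw [this, integral_indicator measurableSet_Ioi, integral_const_mul,
    integral_cpow_mul_exp_neg_mul_Ioi (by simp; linarith) hm]
  have e6 : (1 / (m : ℂ)) ^ (2 * α + d + 1) = (m : ℂ) ^ (-(2 * α + (d + 1))) := by
    rw [one_div, inv_cpow, ← add_assoc, cpow_neg]
    rw [Complex.arg_ofReal_of_nonneg hm.le]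
    exact Real.pi_pos.ne
  rw [e6, ← E_lapc α hα]
  ring

end Pool.Agent.ConeG
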