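import Pool.Agent.Work.MP_b0b133_an.G.EL2
import Pool.Agent.Work.MP_b0b133_an.G.ELap

/-!
# The Plancherel endpoint of the Strichartz estimate
-/

set_option autoImplicit false
open MeasureTheory Complex
open scoped ENNReal ComplexConjugate

namespace Pool.Agent.ConeG

/-- E0' : Plancherel endpoint -/
theorem l2_endpoint (d : ℕ) [Fact (2 ≤ d)] : ∃ C : ℝ, ∀ (y ε : ℝ) (_ : 0 < ε) (G H : Rs d → ℂ),
    Measurable G → Measurable H → (∃ M : ℝ, ∀ a, ‖G a‖ ≤ M ∧ ‖H a‖ ≤ M ∧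
      (M < ‖a‖ → G a = 0 ∧ H a = 0)) →
    ‖∫ a, ∫ b, (qf (a - b) (ε, 0)) ^ (-((((d : ℝ) + 1) / 2 : ℝ) : ℂ) - y * I : ℂ) * G b * H a‖ ≤
      C * Real.exp (C * |y|) * √(∫ a, ‖G a‖ ^ 2) * √(∫ a, ‖H a‖ ^ 2) := by
  obtain ⟨C, _, h⟩ := E2_l2_of (d := d) laplace_cone
  refine ⟨C, fun y ε hε G H hG hH hM => ?_⟩
  have e : ((((d : ℝ) + 1) / 2 : ℝ) : ℂ) = ((d : ℂ) + 1) / 2 := by push_cast; rfl
  rw [e]
  exact h y ε hε G H hG hH hM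

end Pool.Agent.ConeG
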