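import Pool.Agent.Work.MP_b0b133_an.G.C0

/-!
# Change of measure between space-time and the compactification
-/

set_option autoImplicit false
open MeasureTheory Complex
open scoped ENNReal ComplexConjugate

namespace Pool.Agent.ConeG

variable {d : ℕ}

theorem U3_integral_mM0 {E : Type*} [NormedAddCommGroup E] [NormedSpace ℝ E] (g : Rs d → E) :
    ∫ a, g a ∂(mM0 d) = ∫ a, (‖w a‖ ^ (-((d : ℝ) + 1))) • g a := by
  have h : mM0 d = (volume : Measure (Rs d)).withDensity C0_dens := rfl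
  rw [h, integral_withDensity_eq_integral_toReal_smul C0_measurable_dens
      (Filter.Eventually.of_forall fun a => ENNReal.ofReal_lt_top)]
  refine integral_congr_ae (Filter.Eventually.of_forall fun a => ?_)
  simp only [C0_dens]
  rw [ENNReal.toReal_ofReal (Real.rpow_nonneg (norm_nonneg _) _)]

theorem U3_integral_mM {E : Type*} [NormedAddCommGroup E] [NormedSpace ℝ E] (g : Rs d → E) :
    ∫ a, g a ∂(mM d) = ((mM0 d Set.univ).toReal)⁻¹ • ∫ a, (‖w a‖ ^ (-((d : ℝ) + 1))) • g a := by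
  rw [← U3_integral_mM0, mM, integral_smul_measure, ENNReal.toReal_inv]

theorem U3_mass_pos [Fact (2 ≤ d)] : 0 < (mM0 d Set.univ).toReal := ENNReal.toReal_pos mM0_univ.1 mM0_univ.2

theorem U3_integral_vol [Fact (2 ≤ d)] {E : Type*} [NormedAddCommGroup E] [NormedSpace ℝ E] (g : Rs d → E) :
    ∫ a, (‖w a‖ ^ (-((d : ℝ) + 1))) • g a = (mM0 d Set.univ).toReal • ∫ a, g a ∂(mM d) := by
  rw [U3_integral_mM, smul_smul, mul_inv_cancel₀ U3_mass_pos.ne', one_smul]

theorem U3_norm_toM (u : Rs d → ℂ) (a : Rs d) : ‖toM u a‖ = ‖w a‖ ^ (nu d) * ‖u a‖ := by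
  rw [toM, norm_mul]
  congr 1
  rw [Complex.norm_cpow_of_ne_zero (C0_w_ne a)]
  norm_num

theorem nu_mul_pe [Fact (2 ≤ d)] : nu d * pe d = (d : ℝ) + 1 := by
  have := two_le_real d
  unfold nu pe
  have h1 : (d : ℝ) - 1 ≠ 0 := by linarith
  field_simp

theorem U3_norm_toM_rpow [Fact (2 ≤ d)] (u : Rs d → ℂ) (a : Rs d) :
    ‖w a‖ ^ (-((d : ℝ) + 1)) * ‖toM u a‖ ^ (pe d) = ‖u a‖ ^ (pe d) := by
  have hw := C0_norm_w_pos a
  rw [U3_norm_toM, Real.mul_rpow (by positivity) (norm_nonneg _), ← Real.rpow_mul hw.le,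
    ← mul_assoc, ← Real.rpow_add hw, nu_mul_pe, neg_add_cancel, Real.rpow_zero, one_mul]

/-- U3 : change of measure -/
theorem integral_toM [Fact (2 ≤ d)] (u : Rs d → ℂ) (hu : AEStronglyMeasurable u volume) :
    ∫ a, ‖u a‖ ^ (pe d) = (mM0 d Set.univ).toReal * ∫ a, ‖toM u a‖ ^ (pe d) ∂(mM d) := by
  have h := U3_integral_vol fun a => ‖toM u a‖ ^ (pe d)
  simp only [smul_eq_mul, U3_norm_toM_rpow] at h
  exact h

theorem integral_X_toM [Fact (2 ≤ d)] (u : Rs d → ℂ) (hu : AEStronglyMeasurable u volume) (j : Fin (d + 1)) :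
    ∫ a, X j a * (‖u a‖ ^ (pe d) : ℝ) =
      ((mM0 d Set.univ).toReal : ℂ) * ∫ a, X j a * (‖toM u a‖ ^ (pe d) : ℝ) ∂(mM d) := by
  have h := U3_integral_vol fun a => X j a * (‖toM u a‖ ^ (pe d) : ℝ)
  rw [← Complex.real_smul, ← h]
  refine integral_congr_ae (Filter.Eventually.of_forall fun a => ?_)
  simp only
  rw [← U3_norm_toM_rpow u a, Complex.real_smul]
  push_cast
  ring

theorem U3_ac : mM d ≪ (volume : Measure (Rs d)) := by
  have h : mM0 d ≪ (volume : Measure (Rs d)) := withDensity_absolutelyContinuous _ _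
  exact h.smul_left _

theorem U3_ac' [Fact (2 ≤ d)] : (volume : Measure (Rs d)) ≪ mM d := by
  have h : (volume : Measure (Rs d)) ≪ mM0 d := by
    refine withDensity_absolutelyContinuous' C0_measurable_dens.aemeasurable ?_
    refine Filter.Eventually.of_forall fun a => ?_
    exact (ENNReal.ofReal_pos.2 (Real.rpow_pos_of_pos (C0_norm_w_pos a) _)).ne'
  have h2 : mM0 d ≪ mM d := by
    refine Measure.AbsolutelyContinuous.mk fun s hs h0 => ?_
    rw [mM, Measure.smul_apply, smul_eq_mul, mul_eq_zero] at h0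
    rcases h0 with h0 | h0
    · exact absurd (ENNReal.inv_eq_zero.1 h0) mM0_univ.2
    · exact h0
  exact h.trans h2

theorem U3_measurable_cpow : Measurable fun a : Rs d => (w a) ^ (nu d : ℂ) :=
  (C0_continuous_w.measurable).pow_const _

theorem U3_toM_aesm (u : Rs d → ℂ) (hu : AEStronglyMeasurable u volume) :
    AEStronglyMeasurable (toM u) (mM d) :=
  (U3_measurable_cpow.aestronglyMeasurable.mul hu).mono_ac U3_ac

end Pool.Agent.ConeG
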