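import Pool.Agent.Work.MP_b0b133_an.G.D
import Pool.Agent.Work.MP_b0b133_an.G.D3
import Pool.Agent.Work.MP_b0b133_an.G.U3

/-!
# From the sharp inequality on exponentials to the operator

`Stri d` : finiteness of the extension constant, `Sharp d` : the sharp inequality on `ExpSpan d`.
-/

set_option autoImplicit false
open MeasureTheory Complex Filter
open scoped ENNReal ComplexConjugate Topology

namespace Pool.Agent.ConeG

variable {d : ℕ}

/-- the exponent `p`, as an extended number -/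
noncomputable def pE (d : ℕ) : ℝ≥0∞ := ENNReal.ofReal (pe d)

/-- `2 / p` -/
noncomputable def te (d : ℕ) : ℝ := ((d : ℝ) - 1) / (d + 1)

/-- the Strichartz estimate with some constant -/
def Stri (d : ℕ) : Prop := ∃ C : ℝ, ∀ f : Rd d → ℂ, Integrable f (sig d) → MemLp f 2 (sig d) →
    MemLp (coneExt f) (pE d) volume ∧
    (∫ a, ‖coneExt f a‖ ^ pe d) ^ te d ≤ C * ∫ ξ, ‖f ξ‖ ^ 2 ∂(sig d)

/-- the sharp inequality on exponential sums -/
def Sharp (d : ℕ) : Prop := ∀ f ∈ ExpSpan d, (∫ a, ‖coneExt f a‖ ^ pe d) ^ te d ≤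
    (mM0 d Set.univ).toReal ^ te d * (kap d * 4 ^ nu d * ∫ ξ, ‖f ξ‖ ^ 2 ∂(sig d))

section
variable [Fact (2 ≤ d)]

theorem pe_pos : 0 < pe d := by linarith [pe_gt d]

theorem te_pos : 0 < te d := by
  have := two_le_real d
  unfold te
  apply div_pos <;> linarith

theorem pe_mul_te : pe d * te d = 2 := by
  have := two_le_real d
  unfold te pe
  have h1 : (d : ℝ) - 1 ≠ 0 := by linarith
  have h2 : (d : ℝ) + 1 ≠ 0 := by linarith
  field_simp

theorem te_eq : te d = 2 / pe d := by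
  rw [eq_div_iff pe_pos.ne', mul_comm]
  exact pe_mul_te

instance fact_pE : Fact ((1 : ℝ≥0∞) ≤ pE d) := ⟨by
  unfold pE
  rw [ENNReal.one_le_ofReal]
  linarith [pe_gt d]⟩

theorem pE_toReal : (pE d).toReal = pe d := ENNReal.toReal_ofReal pe_pos.le

theorem pE_ne_zero : pE d ≠ 0 := by
  intro h
  have := pE_toReal (d := d)
  rw [h, ENNReal.toReal_zero] at this
  linarith [pe_pos (d := d)]

theorem pE_ne_top : pE d ≠ ⊤ := ENNReal.ofReal_ne_top

end

/-! ## Elementary facts on the extension operator -/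

theorem Z_continuous_pair (a : Rs d) : Continuous fun ξ : Rd d => pair a ξ := by
  unfold pair
  fun_prop

theorem Z_integrable (f : Rd d → ℂ) (hf : Integrable f (sig d)) (a : Rs d) :
    Integrable (fun ξ => cexp (-(I * (pair a ξ : ℂ))) * f ξ) (sig d) := by
  refine hf.bdd_mul (c := 1) ?_ ?_
  · have h := Z_continuous_pair a
    have h2 : Continuous fun ξ : Rd d => cexp (-(I * (pair a ξ : ℂ))) := by fun_prop
    exact h2.aestronglyMeasurable
  · refine Filter.Eventually.of_forall fun ξ => ?_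
    rw [Complex.norm_exp]
    simp

theorem Z_coneExt_add (f g : Rd d → ℂ) (hf : Integrable f (sig d)) (hg : Integrable g (sig d))
    (a : Rs d) : coneExt (f + g) a = coneExt f a + coneExt g a := by
  unfold coneExt
  rw [← integral_add (Z_integrable f hf a) (Z_integrable g hg a)]
  refine integral_congr_ae (Filter.Eventually.of_forall fun ξ => ?_)
  simp only [Pi.add_apply]
  ring

theorem Z_coneExt_smul (r : ℂ) (f : Rd d → ℂ) (a : Rs d) :
    coneExt (r • f) a = r * coneExt f a := by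
  unfold coneExt
  rw [← integral_const_mul]
  refine integral_congr_ae (Filter.Eventually.of_forall fun ξ => ?_)
  simp only [Pi.smul_apply, smul_eq_mul]
  ring

theorem Z_coneExt_congr (f g : Rd d → ℂ) (h : f =ᵐ[sig d] g) : coneExt f = coneExt g := by
  funext a
  unfold coneExt
  refine integral_congr_ae ?_
  filter_upwards [h] with ξ hξ
  rw [hξ]

theorem Z_one_mem_Fwd : ((1, 0) : Rs d) ∈ Fwd := by
  simp [Fwd]

theorem Z_fstar_eq : (fstar : Rd d → ℂ) = expo 0 (1, 0) := by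
  funext ξ
  simp [fstar, expo, pair]

theorem Z_fstar_mem : fstar ∈ ExpSpan d := by
  rw [Z_fstar_eq]
  exact Submodule.subset_span ⟨0, (1, 0), Z_one_mem_Fwd, rfl⟩

variable [Fact (2 ≤ d)]

theorem Z_expSpan_mem (f : Rd d → ℂ) (hf : f ∈ ExpSpan d) :
    Integrable f (sig d) ∧ MemLp f 2 (sig d) := by
  unfold ExpSpan at hf
  induction hf using Submodule.span_induction with
  | mem f h =>
    obtain ⟨c, v, hv, rfl⟩ := h
    exact expo_integrable c v hv
  | zero => exact ⟨integrable_zero _ _ _, MemLp.zero⟩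
  | add f g _ _ h1 h2 => exact ⟨h1.1.add h2.1, h1.2.add h2.2⟩
  | smul r f _ h => exact ⟨h.1.smul r, h.2.const_smul r⟩

theorem memLp_fstar : MemLp (fstar : Rd d → ℂ) 2 (sig d) := by
  rw [Z_fstar_eq]
  exact (expo_integrable 0 (1, 0) Z_one_mem_Fwd).2

theorem Z_coneExt_fstar (a : Rs d) :
    coneExt fstar a = (kap d : ℂ) * (w a) ^ (-(nu d : ℂ)) := by
  rw [Z_fstar_eq, coneExt_expo 0 (1, 0) Z_one_mem_Fwd, sub_zero]
  rfl

theorem Z_toM_fstar (a : Rs d) : toM (coneExt fstar) a = (kap d : ℂ) := by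
  rw [toM, Z_coneExt_fstar, mul_left_comm, ← Complex.cpow_add _ _ (C0_w_ne a), add_neg_cancel,
    Complex.cpow_zero, mul_one]

theorem Z_norm_fstar : ∫ ξ : Rd d, ‖fstar ξ‖ ^ 2 ∂(sig d) = kap d * 4 ^ (-(nu d)) := by
  have h := inner_expo (d := d) 0 (1, 0) 0 (1, 0) Z_one_mem_Fwd Z_one_mem_Fwd
  rw [← Z_fstar_eq] at h
  have h1 : ∫ ξ : Rd d, fstar ξ * conj (fstar ξ) ∂(sig d) =
      ((∫ ξ : Rd d, ‖fstar ξ‖ ^ 2 ∂(sig d) : ℝ) : ℂ) := by
    rw [← integral_complex_ofReal]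
    refine integral_congr_ae (Filter.Eventually.of_forall fun ξ => ?_)
    simp only
    rw [Complex.mul_conj, Complex.normSq_eq_norm_sq]
  have h2 : qf ((0 : Rs d) - 0) ((1, 0) + (1, 0)) = (4 : ℝ) := by
    simp [qf]
    norm_num
  have h3 : ((4 : ℝ) : ℂ) ^ (-(nu d : ℂ)) = ((4 ^ (-(nu d)) : ℝ) : ℂ) := by
    rw [Complex.ofReal_cpow (by norm_num)]
    push_cast
    rfl
  rw [h1, h2, h3, ← Complex.ofReal_mul] at h
  exact Complex.ofReal_injective h

theorem Z_fstar_value :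
    (∫ a : Rs d, ‖coneExt fstar a‖ ^ pe d) ^ te d =
      (mM0 d Set.univ).toReal ^ te d * (kap d * 4 ^ nu d * ∫ ξ : Rd d, ‖fstar ξ‖ ^ 2 ∂(sig d)) := by
  have := mM_prob (d := d)
  have hk := kap_pos d
  have hval : ∀ a : Rs d, ‖coneExt fstar a‖ ^ pe d =
      (‖w a‖ ^ (-((d : ℝ) + 1))) • (kap d ^ pe d) := by
    intro a
    have hw := C0_norm_w_pos a
    have h1 := U3_norm_toM_rpow (coneExt fstar) a
    rw [Z_toM_fstar, Complex.norm_real, Real.norm_eq_abs, abs_of_pos hk] at h1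
    rw [← h1, smul_eq_mul]
  have hI : ∫ a : Rs d, ‖coneExt fstar a‖ ^ pe d = (mM0 d Set.univ).toReal * kap d ^ pe d := by
    simp only [hval]
    rw [U3_integral_vol fun _ : Rs d => kap d ^ pe d, integral_const]
    simp
  rw [hI, Z_norm_fstar, Real.mul_rpow ENNReal.toReal_nonneg (by positivity),
    ← Real.rpow_mul hk.le, pe_mul_te, Real.rpow_neg (by norm_num)]
  have h4 : (0 : ℝ) < 4 ^ nu d := Real.rpow_pos_of_pos (by norm_num) _
  have h5 : kap d * 4 ^ nu d * (kap d * (4 ^ nu d)⁻¹) = kap d ^ (2 : ℝ) := by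
    rw [Real.rpow_two]
    field_simp
  rw [h5]

/-! ## Density and the operator -/

/-- the classes of `L²` functions that are also integrable -/
noncomputable def Z_A0 (d : ℕ) : Submodule ℂ (Lp ℂ 2 (sig d)) where
  carrier := {f | Integrable f (sig d)}
  add_mem' := by
    intro f g hf hg
    exact (hf.add hg).congr (Lp.coeFn_add f g).symm
  zero_mem' := (integrable_zero _ _ _).congr (Lp.coeFn_zero ℂ 2 (sig d)).symm
  smul_mem' := by
    intro r f hf
    exact (hf.smul r).congr (Lp.coeFn_smul r f).symm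

/-- the classes of the exponential sums -/
noncomputable def Z_D0 (d : ℕ) : Submodule ℂ (Lp ℂ 2 (sig d)) where
  carrier := {f | ∃ g ∈ ExpSpan d, f =ᵐ[sig d] g}
  add_mem' := by
    rintro f g ⟨f', hf', hf⟩ ⟨g', hg', hg⟩
    exact ⟨f' + g', (ExpSpan d).add_mem hf' hg', (Lp.coeFn_add f g).trans (hf.add hg)⟩
  zero_mem' := ⟨0, (ExpSpan d).zero_mem, Lp.coeFn_zero ℂ 2 (sig d)⟩
  smul_mem' := by
    rintro r f ⟨f', hf', hf⟩
    exact ⟨r • f', (ExpSpan d).smul_mem r hf', (Lp.coeFn_smul r f).trans (hf.const_smul r)⟩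

theorem Z_D0_le : Z_D0 d ≤ Z_A0 d := by
  rintro f ⟨g, hg, h⟩
  exact (Z_expSpan_mem g hg).1.congr h.symm

theorem Z_D0_dense : Dense (Z_D0 d : Set (Lp ℂ 2 (sig d))) := by
  rw [Submodule.dense_iff_topologicalClosure_eq_top, Submodule.topologicalClosure_eq_top_iff,
    Submodule.eq_bot_iff]
  intro f hf
  have h0 : (f : Rd d → ℂ) =ᵐ[sig d] 0 := by
    refine expo_dense f (Lp.memLp f) 1 one_pos fun c v hv _ _ => ?_
    have hmem := (expo_integrable c v hv).2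
    have h1 : hmem.toLp (expo c v) ∈ Z_D0 d :=
      ⟨expo c v, Submodule.subset_span ⟨c, v, hv, rfl⟩, hmem.coeFn_toLp⟩
    have h2 := (Submodule.mem_orthogonal _ _).1 hf _ h1
    rw [L2.inner_def] at h2
    rw [← h2]
    refine integral_congr_ae ?_
    filter_upwards [hmem.coeFn_toLp] with ξ hξ
    rw [hξ, RCLike.inner_apply]
  exact (Lp.eq_zero_iff_ae_eq_zero).2 h0

/-- `L²` norm as an integral -/
theorem Z_norm2 (f : Lp ℂ 2 (sig d)) : ‖f‖ ^ 2 = ∫ ξ, ‖f ξ‖ ^ 2 ∂(sig d) := by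
  have h := (Lp.memLp f).eLpNorm_eq_integral_rpow_norm (by norm_num) (by norm_num)
  rw [Lp.norm_def, h, ENNReal.toReal_ofReal (by positivity)]
  simp only [ENNReal.toReal_ofNat, Real.rpow_ofNat]
  rw [← Real.rpow_natCast, ← Real.rpow_mul (integral_nonneg fun ξ => by positivity)]
  norm_num

theorem Z_normp (g : Rs d → ℂ) (hg : MemLp g (pE d) volume) :
    ‖hg.toLp g‖ ^ 2 = (∫ a, ‖g a‖ ^ pe d) ^ te d := by
  have h := hg.eLpNorm_eq_integral_rpow_norm pE_ne_zero pE_ne_top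
  have hnn : 0 ≤ ∫ a, ‖g a‖ ^ pe d :=
    integral_nonneg fun x => Real.rpow_nonneg (norm_nonneg _) _
  rw [Lp.norm_toLp, h, pE_toReal, ENNReal.toReal_ofReal (by positivity),
    ← Real.rpow_natCast, ← Real.rpow_mul hnn, te_eq]
  congr 1
  push_cast
  ring

/-- the extension operator -/
theorem exists_ext (hst : Stri d) :
    ∃ T : Lp ℂ 2 (sig d) →L[ℂ] Lp ℂ (pE d) (volume : Measure (Rs d)),
      (∀ f : Lp ℂ 2 (sig d), Integrable f (sig d) → T f =ᵐ[volume] coneExt f) ∧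
      ∀ f : Lp ℂ 2 (sig d), Integrable f (sig d) →
        ‖T f‖ ^ 2 = (∫ a, ‖coneExt f a‖ ^ pe d) ^ te d := by
  obtain ⟨C, hC⟩ := hst
  let T0 : (Z_A0 d) →ₗ[ℂ] Lp ℂ (pE d) (volume : Measure (Rs d)) :=
    { toFun := fun f => (hC f.1 f.2 (Lp.memLp f.1)).1.toLp (coneExt f.1)
      map_add' := by
        intro f g
        rw [← MemLp.toLp_add]
        refine MemLp.toLp_congr _ _ (Filter.Eventually.of_forall fun a => ?_)
        rw [Pi.add_apply, ← Z_coneExt_add f.1 g.1 f.2 g.2]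
        exact congrFun (Z_coneExt_congr _ _ (Lp.coeFn_add f.1 g.1)) a
      map_smul' := by
        intro r f
        rw [RingHom.id_apply, ← MemLp.toLp_const_smul]
        refine MemLp.toLp_congr _ _ (Filter.Eventually.of_forall fun a => ?_)
        rw [Pi.smul_apply, smul_eq_mul, ← Z_coneExt_smul]
        exact congrFun (Z_coneExt_congr _ _ (Lp.coeFn_smul r f.1)) a }
  have hT0 : ∀ f : Z_A0 d, T0 f = (hC f.1 f.2 (Lp.memLp f.1)).1.toLp (coneExt f.1) := fun f => rfl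
  have hbound : ∀ f : Z_A0 d, ‖T0 f‖ ≤ √|C| * ‖(Z_A0 d).subtype f‖ := by
    intro f
    have h1 : ‖T0 f‖ ^ 2 ≤ |C| * ‖f.1‖ ^ 2 := by
      rw [hT0, Z_normp, Z_norm2]
      refine (hC f.1 f.2 (Lp.memLp f.1)).2.trans ?_
      exact mul_le_mul_of_nonneg_right (le_abs_self C) (integral_nonneg fun ξ => by positivity)
    have h2 : ‖T0 f‖ ^ 2 ≤ (√|C| * ‖(Z_A0 d).subtype f‖) ^ 2 := by
      rw [mul_pow, Real.sq_sqrt (abs_nonneg C)]
      exact h1
    exact (abs_le_of_sq_le_sq' h2 (by positivity)).2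
  have hdense : DenseRange (Z_A0 d).subtype := by
    refine Z_D0_dense.mono ?_
    intro f hf
    exact ⟨⟨f, Z_D0_le hf⟩, rfl⟩
  let T := T0.extendOfNorm (Z_A0 d).subtype
  have hT : ∀ (f : Lp ℂ 2 (sig d)) (hf : Integrable f (sig d)), T f = T0 ⟨f, hf⟩ := fun f hf =>
    T0.extendOfNorm_eq hdense ⟨_, hbound⟩ ⟨f, hf⟩
  have hTnorm : ∀ f : Lp ℂ 2 (sig d), Integrable f (sig d) →
      ‖T f‖ ^ 2 = (∫ a, ‖coneExt f a‖ ^ pe d) ^ te d := fun f hf => by
    rw [hT f hf, hT0, Z_normp]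
  refine ⟨T, fun f hf => ?_, hTnorm⟩
  rw [hT f hf, hT0]
  exact MemLp.coeFn_toLp _

/-- the sharp inequality in the other normalisation -/
theorem sharp_of_pow (h : ∀ f ∈ ExpSpan d, ∫ a, ‖coneExt f a‖ ^ pe d ≤
    (mM0 d Set.univ).toReal * (kap d * 4 ^ nu d * ∫ ξ, ‖f ξ‖ ^ 2 ∂(sig d)) ^ (pe d / 2)) :
    Sharp d := by
  intro f hf
  have hk := kap_pos d
  have hnn : 0 ≤ ∫ a, ‖coneExt f a‖ ^ pe d :=
    integral_nonneg fun x => Real.rpow_nonneg (norm_nonneg _) _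
  have h2 : 0 ≤ kap d * 4 ^ nu d * ∫ ξ, ‖f ξ‖ ^ 2 ∂(sig d) :=
    mul_nonneg (by positivity) (integral_nonneg fun ξ => by positivity)
  have h1 := Real.rpow_le_rpow hnn (h f hf) (te_pos (d := d)).le
  rw [Real.mul_rpow ENNReal.toReal_nonneg (by positivity), ← Real.rpow_mul h2] at h1
  have e : pe d / 2 * te d = 1 := by
    have := pe_mul_te (d := d)
    linarith
  rwa [e, Real.rpow_one] at h1

/-- Z1 -/
theorem main_of_sharp (hst : Stri d) (hsh : Sharp d) :
    ∃ T : Lp ℂ 2 (sig d) →L[ℂ] Lp ℂ (pE d) (volume : Measure (Rs d)),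
      (∀ f : Lp ℂ 2 (sig d), Integrable f (sig d) → T f =ᵐ[volume] coneExt f) ∧
      ∀ f : Lp ℂ 2 (sig d), ‖T f‖ * ‖memLp_fstar.toLp (fstar : Rd d → ℂ)‖ ≤
        ‖T (memLp_fstar.toLp (fstar : Rd d → ℂ))‖ * ‖f‖ := by
  obtain ⟨T, hT, hTnorm⟩ := exists_ext hst
  refine ⟨T, hT, ?_⟩
  · have hstar : (memLp_fstar.toLp (fstar : Rd d → ℂ) : Rd d → ℂ) =ᵐ[sig d] fstar :=
      memLp_fstar.coeFn_toLp
    have hstar1 : Integrable (memLp_fstar.toLp (fstar : Rd d → ℂ)) (sig d) :=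
      (Z_expSpan_mem fstar Z_fstar_mem).1.congr hstar.symm
    set Fs := memLp_fstar.toLp (fstar : Rd d → ℂ) with hFs
    set K := (mM0 d Set.univ).toReal ^ te d * (kap d * 4 ^ nu d) with hK
    have e1 : ‖T Fs‖ ^ 2 = K * ‖Fs‖ ^ 2 := by
      rw [hTnorm _ hstar1, Z_coneExt_congr _ _ hstar, Z_fstar_value, Z_norm2]
      have : ∫ ξ, ‖Fs ξ‖ ^ 2 ∂(sig d) = ∫ ξ : Rd d, ‖fstar ξ‖ ^ 2 ∂(sig d) := by
        refine integral_congr_ae ?_
        filter_upwards [hstar] with ξ hξ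
        rw [hξ]
      rw [this]
      ring
    have e2 : ∀ f ∈ Z_D0 d, ‖T f‖ ^ 2 ≤ K * ‖f‖ ^ 2 := by
      rintro f ⟨g, hg, h⟩
      have hf : Integrable f (sig d) := (Z_expSpan_mem g hg).1.congr h.symm
      rw [hTnorm _ hf, Z_coneExt_congr _ _ h, Z_norm2]
      have : ∫ ξ, ‖f ξ‖ ^ 2 ∂(sig d) = ∫ ξ, ‖g ξ‖ ^ 2 ∂(sig d) := by
        refine integral_congr_ae ?_
        filter_upwards [h] with ξ hξ
        rw [hξ]
      rw [this, hK, mul_assoc]
      exact hsh g hg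
    have hclosed : IsClosed {f : Lp ℂ 2 (sig d) | ‖T f‖ * ‖Fs‖ ≤ ‖T Fs‖ * ‖f‖} :=
      isClosed_le (by fun_prop) (by fun_prop)
    have hall : (Set.univ : Set (Lp ℂ 2 (sig d))) ⊆ {f | ‖T f‖ * ‖Fs‖ ≤ ‖T Fs‖ * ‖f‖} := by
      rw [← Z_D0_dense.closure_eq]
      refine closure_minimal ?_ hclosed
      intro f hf
      show ‖T f‖ * ‖Fs‖ ≤ ‖T Fs‖ * ‖f‖
      refine (abs_le_of_sq_le_sq' ?_ (by positivity)).2
      rw [mul_pow, mul_pow, e1]
      have := e2 f hf
      nlinarith [sq_nonneg ‖Fs‖]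
    exact fun f => hall (Set.mem_univ f)

/-! ## The form of the result -/

/-- the norm of `L²(dξ/|ξ|)` -/
noncomputable def normTwo (f : Rd d → ℂ) : ℝ≥0∞ := eLpNorm f 2 (sig d)

/-- the norm of `L^p(ℝ × ℝᵈ)` -/
noncomputable def normQ (u : Rs d → ℂ) : ℝ≥0∞ := eLpNorm u (pE d) volume

/-- `f` is in `L²(dξ/|ξ|)` -/
def InTwo (f : Rd d → ℂ) : Prop := MemLp f 2 (sig d)

/-- `u` is in `L^p(ℝ × ℝᵈ)` -/
def InQ (u : Rs d → ℂ) : Prop := MemLp u (pE d) volume

/-- `u` is the extension of `f`: the `L^p`-limit of the extension integrals of integrable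
`L²`-functions which converge to `f` in `L²` -/
def IsExt (f : Rd d → ℂ) (u : Rs d → ℂ) : Prop :=
  InTwo f ∧ InQ u ∧ ∃ s : ℕ → Rd d → ℂ, (∀ n, Integrable (s n) (sig d) ∧ InTwo (s n)) ∧
    Tendsto (fun n => normTwo (s n - f)) atTop (𝓝 0) ∧
    Tendsto (fun n => normQ (coneExt (s n) - u)) atTop (𝓝 0)

omit [Fact (2 ≤ d)] in
theorem norm_two {f g : Rd d → ℂ} (hf : MemLp f 2 (sig d)) (hg : MemLp g 2 (sig d)) :
    normTwo (f - g) = ENNReal.ofReal ‖hf.toLp f - hg.toLp g‖ := by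
  rw [← MemLp.toLp_sub, Lp.norm_toLp, ENNReal.ofReal_toReal (hf.sub hg).2.ne]
  rfl

omit [Fact (2 ≤ d)] in
theorem norm_two' {f : Rd d → ℂ} (hf : MemLp f 2 (sig d)) :
    normTwo f = ENNReal.ofReal ‖hf.toLp f‖ := by
  rw [Lp.norm_toLp, ENNReal.ofReal_toReal hf.2.ne]
  rfl

omit [Fact (2 ≤ d)] in
theorem norm_q' {u : Rs d → ℂ} (U : Lp ℂ (pE d) (volume : Measure (Rs d))) (h : U =ᵐ[volume] u) :
    normQ u = ENNReal.ofReal ‖U‖ := by
  rw [Lp.norm_def, ENNReal.ofReal_toReal (Lp.eLpNorm_ne_top U)]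
  exact eLpNorm_congr_ae h.symm

/-- The form of the result in dimension `d`: the extension of every `f ∈ L²(dξ/|ξ|)` exists in
`L^p` and is unique, it is the extension integral if `f` is integrable, and `f_⋆ = e^{-|ξ|}` is a
maximizer. -/
theorem result_of_sharp (hst : Stri d) (hsh : Sharp d) :
    (∀ f : Rd d → ℂ, InTwo f → ∃ u, IsExt f u ∧ ∀ u', IsExt f u' → u' =ᵐ[volume] u) ∧
    (∀ f : Rd d → ℂ, InTwo f → Integrable f (sig d) → IsExt f (coneExt f)) ∧
    (InTwo (fstar : Rd d → ℂ) ∧ Integrable (fstar : Rd d → ℂ) (sig d) ∧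
      normTwo (fstar : Rd d → ℂ) ≠ 0) ∧
    ∀ (f : Rd d → ℂ) (u : Rs d → ℂ), IsExt f u →
      normQ u * normTwo (fstar : Rd d → ℂ) ≤ normQ (coneExt (fstar : Rd d → ℂ)) * normTwo f := by
  obtain ⟨T, h1, h2⟩ := main_of_sharp hst hsh
  have hstar := (memLp_fstar (d := d)).coeFn_toLp
  have hsi : Integrable (fstar : Rd d → ℂ) (sig d) := (Z_expSpan_mem fstar Z_fstar_mem).1
  -- the key fact
  have key : ∀ f u (hf : MemLp f 2 (sig d)), IsExt f u → T (hf.toLp f) =ᵐ[volume] u := by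
    rintro f u hf ⟨-, hu, s, hs, h3, h4⟩
    have e1 : Tendsto (fun n => ((hs n).2.toLp (s n) : Lp ℂ 2 (sig d))) atTop
        (𝓝 (hf.toLp f)) := by
      rw [tendsto_iff_norm_sub_tendsto_zero]
      have h5 := (ENNReal.tendsto_toReal (ENNReal.zero_ne_top)).comp h3
      rw [ENNReal.toReal_zero] at h5
      refine h5.congr fun n => ?_
      simp only [Function.comp]
      rw [norm_two (hs n).2 hf, ENNReal.toReal_ofReal (norm_nonneg _)]
    have e2 := ((T.continuous.tendsto _).comp e1)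
    have e3 : ∀ n, T ((hs n).2.toLp (s n)) =ᵐ[volume] coneExt (s n) := by
      intro n
      have h6 : ((hs n).2.toLp (s n) : Rd d → ℂ) =ᵐ[sig d] s n := (hs n).2.coeFn_toLp
      rw [← Z_coneExt_congr _ _ h6]
      exact h1 _ ((hs n).1.congr h6.symm)
    have e4 : Tendsto (fun n => T ((hs n).2.toLp (s n))) atTop (𝓝 (hu.toLp u)) := by
      rw [tendsto_iff_norm_sub_tendsto_zero]
      have h5 := (ENNReal.tendsto_toReal (ENNReal.zero_ne_top)).comp h4
      rw [ENNReal.toReal_zero] at h5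
      refine h5.congr fun n => ?_
      simp only [Function.comp]
      have h7 : ((T ((hs n).2.toLp (s n)) - hu.toLp u :
          Lp ℂ (pE d) (volume : Measure (Rs d))) : Rs d → ℂ) =ᵐ[volume] coneExt (s n) - u := by
        filter_upwards [Lp.coeFn_sub (T ((hs n).2.toLp (s n))) (hu.toLp u), e3 n,
          hu.coeFn_toLp] with a ha hb hc
        rw [ha, Pi.sub_apply, hb, hc, Pi.sub_apply]
      rw [norm_q' _ h7, ENNReal.toReal_ofReal (norm_nonneg _)]
    have e5 : T (hf.toLp f) = hu.toLp u := tendsto_nhds_unique e2 e4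
    rw [e5]
    exact hu.coeFn_toLp
  have hex : ∀ f (hf : MemLp f 2 (sig d)), IsExt f (T (hf.toLp f)) := by
    intro f hf
    have hd : ∀ n : ℕ, ∃ G ∈ Z_D0 d, ‖G - hf.toLp f‖ < 1 / ((n : ℝ) + 1) := by
      intro n
      obtain ⟨G, hG, hG2⟩ := Metric.mem_closure_iff.1 ((Z_D0_dense (d := d)).closure_eq ▸ Set.mem_univ
        (hf.toLp f)) (1 / ((n : ℝ) + 1)) (by positivity)
      exact ⟨G, hG, by rw [← dist_eq_norm, dist_comm]; exact hG2⟩
    choose G hG hG2 using hd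
    have hG3 : Tendsto G atTop (𝓝 (hf.toLp f)) := by
      rw [tendsto_iff_norm_sub_tendsto_zero]
      exact squeeze_zero (fun n => norm_nonneg _) (fun n => (hG2 n).le)
        tendsto_one_div_add_atTop_nhds_zero_nat
    have hGi : ∀ n, Integrable (G n) (sig d) := fun n => Z_D0_le (hG n)
    refine ⟨hf, Lp.memLp _, fun n => G n, fun n => ⟨hGi n, Lp.memLp _⟩, ?_, ?_⟩
    · have h5 : Tendsto (fun n => ENNReal.ofReal ‖G n - hf.toLp f‖) atTop (𝓝 0) := by
        have := ENNReal.tendsto_ofReal (tendsto_iff_norm_sub_tendsto_zero.1 hG3)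
        rwa [ENNReal.ofReal_zero] at this
      refine h5.congr fun n => ?_
      rw [norm_two (Lp.memLp (G n)) hf, Lp.toLp_coeFn]
    · have h5 : Tendsto (fun n => ENNReal.ofReal ‖T (G n) - T (hf.toLp f)‖) atTop (𝓝 0) := by
        have := ENNReal.tendsto_ofReal (tendsto_iff_norm_sub_tendsto_zero.1
          ((T.continuous.tendsto _).comp hG3))
        rwa [ENNReal.ofReal_zero] at this
      refine h5.congr fun n => ?_
      refine (norm_q' _ ?_).symm
      filter_upwards [Lp.coeFn_sub (T (G n)) (T (hf.toLp f)), h1 (G n) (hGi n)] with a ha hb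
      rw [ha, Pi.sub_apply, hb, Pi.sub_apply]
  refine ⟨fun f hf => ⟨T (MemLp.toLp f hf), hex f hf, fun u' hu' => (key f u' hf hu').symm⟩,
    fun f hf hi => ?_, ⟨memLp_fstar, hsi, ?_⟩, fun f u hfu => ?_⟩
  · have hf' : MemLp f 2 (sig d) := hf
    have h6 : (hf'.toLp f : Rd d → ℂ) =ᵐ[sig d] f := hf'.coeFn_toLp
    have h7 := h1 _ (hi.congr h6.symm)
    rw [Z_coneExt_congr _ _ h6] at h7
    refine ⟨hf, (memLp_congr_ae h7).1 (Lp.memLp _), fun _ => f, fun _ => ⟨hi, hf⟩, ?_, ?_⟩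
    · simp [normTwo]
    · simp [normQ]
  · rw [norm_two' memLp_fstar]
    have h3 := Z_norm2 (memLp_fstar.toLp (fstar : Rd d → ℂ))
    have h4 : ∫ ξ, ‖memLp_fstar.toLp (fstar : Rd d → ℂ) ξ‖ ^ 2 ∂(sig d) =
        ∫ ξ : Rd d, ‖fstar ξ‖ ^ 2 ∂(sig d) := by
      refine integral_congr_ae ?_
      filter_upwards [hstar] with ξ hξ
      rw [hξ]
    rw [h4, Z_norm_fstar] at h3
    have hk := kap_pos d
    have h5 : 0 < ‖memLp_fstar.toLp (fstar : Rd d → ℂ)‖ ^ 2 := by rw [h3]; positivity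
    have h6 : 0 < ‖memLp_fstar.toLp (fstar : Rd d → ℂ)‖ := by
      rcases (norm_nonneg (memLp_fstar.toLp (fstar : Rd d → ℂ))).lt_or_eq with h | h
      · exact h
      · rw [← h] at h5; norm_num at h5
    exact (ENNReal.ofReal_pos.2 h6).ne'
  · have hf : MemLp f 2 (sig d) := hfu.1
    have h6 := key f u hf hfu
    have h8 := h1 _ (hsi.congr hstar.symm)
    rw [Z_coneExt_congr _ _ hstar] at h8
    rw [norm_q' _ h6, norm_q' _ h8, norm_two' memLp_fstar, norm_two' hf,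
      ← ENNReal.ofReal_mul (norm_nonneg _), ← ENNReal.ofReal_mul (norm_nonneg _)]
    exact ENNReal.ofReal_le_ofReal (h2 _)

end Pool.Agent.ConeG
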