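import Pool.Agent.Work.MP_b0b133_an.G.EStr
import Pool.Agent.Work.MP_b0b133_an.G.EL2f
import Pool.Agent.Work.MP_b0b133_an.G.D
import Pool.Agent.Work.MP_b0b133_an.G.D3
import Pool.Agent.Work.MP_b0b133_an.G.Fin1

/-!
# Finiteness of the extension constant
-/

set_option autoImplicit false
open MeasureTheory Complex
open scoped ENNReal ComplexConjugate

namespace Pool.Agent.ConeG

/-- E0'' : after interpolation -/
theorem bilinear_bound (d : ℕ) [Fact (2 ≤ d)] : ∃ C : ℝ, ∀ (ε : ℝ) (_ : 0 < ε) (G : Rs d → ℂ),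
    Measurable G → (∃ M : ℝ, ∀ a, ‖G a‖ ≤ M ∧ (M < ‖a‖ → G a = 0)) →
    ‖∫ a, ∫ b, (qf (a - b) (ε, 0)) ^ (-(nu d : ℂ) : ℂ) * G b * conj (G a)‖ ≤
      C * (∫ a, ‖G a‖ ^ (qe d)) ^ (((d : ℝ) + 3) / ((d : ℝ) + 1)) := E_bilinear (l2_endpoint d)

/-- E1 -/
theorem strichartz (d : ℕ) [Fact (2 ≤ d)] : ∃ C : ℝ, ∀ f : Rd d → ℂ,
    Integrable f (sig d) → MemLp f 2 (sig d) →
    MemLp (coneExt f) (ENNReal.ofReal (pe d)) volume ∧
    (∫ a, ‖coneExt f a‖ ^ (pe d)) ^ (((d : ℝ) - 1) / ((d : ℝ) + 1)) ≤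
      C * ∫ ξ, ‖f ξ‖ ^ 2 ∂(sig d) :=
  E_strichartz (d := d) (Cd := kap d) ⟨(kap_pos (d := d)).le,
    fun ε hε => (expo_integrable 0 (ε, 0) (by simpa [Fwd] using hε)).1,
    fun ε hε c a => coneExt_expo c (ε, 0) (by simpa [Fwd] using hε) a⟩ (bilinear_bound d)

/-- E1, the form used in the final step -/
theorem stri (d : ℕ) [Fact (2 ≤ d)] : Stri d := strichartz d

end Pool.Agent.ConeG
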