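import Pool.Agent.Work.MP_b0b133_an.G.BO
import Pool.Agent.Work.MP_b0b133_an.G.C0

/-!
# Fa : almost centering of a density
-/

set_option autoImplicit false
open MeasureTheory Complex
open scoped ENNReal ComplexConjugate

namespace Pool.Agent.ConeG

variable {d : ℕ}

theorem Fa_lor_pos (v : Rs d) (hv : v ∈ Fwd) : 0 < lor v := by
  have h : ‖v.2‖ < v.1 := hv
  unfold lor
  nlinarith [norm_nonneg v.2]

theorem Fa_boost_add (v a b : Rs d) : boost v (a + b) = boost v a + boost v b := by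
  unfold boost
  refine Prod.ext ?_ ?_
  · simp only [Prod.fst_add, Prod.snd_add, inner_add_right]
    ring
  · simp only [Prod.fst_add, Prod.snd_add, inner_add_right, add_div]
    module

theorem Fa_boost_smul (v a : Rs d) (s : ℝ) : boost v (s • a) = s • boost v a := by
  unfold boost
  refine Prod.ext ?_ ?_
  · simp only [Prod.smul_fst, Prod.smul_snd, inner_smul_right, smul_eq_mul]
    ring
  · simp only [Prod.smul_fst, Prod.smul_snd, inner_smul_right, smul_eq_mul, mul_div_assoc]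
    module

theorem Fa_boost_smul_left (v a : Rs d) (s : ℝ) (hs : 0 < s) : boost (s • v) a = s • boost v a := by
  have h1 : lor (s • v) = s ^ 2 * lor v := by
    unfold lor
    simp only [Prod.smul_fst, Prod.smul_snd, smul_eq_mul, norm_smul, Real.norm_eq_abs,
      abs_of_pos hs]
    ring
  have h2 : √(lor (s • v)) = s * √(lor v) := by
    rw [h1, Real.sqrt_mul (sq_nonneg s), Real.sqrt_sq hs.le]
  unfold boost
  rw [h2]
  refine Prod.ext ?_ ?_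
  · simp only [Prod.smul_fst, Prod.smul_snd, inner_smul_left, smul_eq_mul]
    simp
    ring
  · simp only [Prod.smul_fst, Prod.smul_snd, inner_smul_left, smul_eq_mul]
    have h3 : (starRingEnd ℝ) s * inner ℝ v.2 a.2 / (s * v.1 + s * √(lor v)) =
        inner ℝ v.2 a.2 / (v.1 + √(lor v)) := by
      rw [← mul_add]
      exact mul_div_mul_left _ _ hs.ne'
    rw [h3]
    module

/-- the parameter of the inverse boost -/
noncomputable def Fa_inv (v : Rs d) : Rs d := (lor v)⁻¹ • ((v.1, -v.2) : Rs d)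

theorem Fa_inv_mem (v : Rs d) (hv : v ∈ Fwd) : Fa_inv v ∈ Fwd := by
  have h : ‖v.2‖ < v.1 := hv
  have hl := Fa_lor_pos v hv
  change ‖(lor v)⁻¹ • (-v.2)‖ < (lor v)⁻¹ * v.1
  rw [norm_smul, norm_neg, Real.norm_eq_abs, abs_of_pos (inv_pos.2 hl)]
  exact mul_lt_mul_of_pos_left h (inv_pos.2 hl)

theorem Fa_inv_right (v : Rs d) (hv : v ∈ Fwd) (a : Rs d) : boost v (boost (Fa_inv v) a) = a := by
  have hl := Fa_lor_pos v hv
  unfold Fa_inv
  rw [Fa_boost_smul_left _ _ _ (inv_pos.2 hl), Fa_boost_smul, (boost_inv v hv a).1, smul_smul,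
    inv_mul_cancel₀ hl.ne', one_smul]

theorem Fa_inv_left (v : Rs d) (hv : v ∈ Fwd) (a : Rs d) : boost (Fa_inv v) (boost v a) = a := by
  have hl := Fa_lor_pos v hv
  unfold Fa_inv
  rw [Fa_boost_smul_left _ _ _ (inv_pos.2 hl), (boost_inv v hv a).2, smul_smul,
    inv_mul_cancel₀ hl.ne', one_smul]

theorem Fa_lor_e : lor ((1, 0) : Rs d) = 1 := by
  simp [lor]

theorem Fa_e_mem : ((1, 0) : Rs d) ∈ Fwd := by
  change ‖(0 : Rd d)‖ < (1 : ℝ)
  simp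

theorem Fa_qf_zero (x : Rs d) : qf 0 x = (lor x : ℂ) := by
  unfold qf lor
  simp
  ring

theorem Fa_lor_boost (v x : Rs d) (hv : v ∈ Fwd) : lor (boost v x) = lor v * lor x := by
  have h := qf_boost v hv 0 x
  have h0 : boost v 0 = 0 := by
    have := Fa_boost_smul v 0 0
    simpa using this
  rw [h0, Fa_qf_zero, Fa_qf_zero] at h
  exact_mod_cast h

theorem Fa_norm_sq_w (a : Rs d) : ‖w a‖ ^ 2 = (1 + ‖a.2‖ ^ 2 - a.1 ^ 2) ^ 2 + 4 * a.1 ^ 2 := by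
  rw [← Complex.normSq_eq_norm_sq, Complex.normSq_apply]
  unfold w qf
  simp [-Complex.ofReal_pow]
  ring

theorem Fa_one_le (a : Rs d) : 1 ≤ ‖w a‖ := by
  have h := Fa_norm_sq_w a
  have h1 : (1 : ℝ) ≤ ‖w a‖ ^ 2 := by
    rw [h]
    nlinarith [sq_nonneg (‖a.2‖ ^ 2 - a.1 ^ 2), sq_nonneg ‖a.2‖, sq_nonneg a.1]
  by_contra hlt
  push Not at hlt
  nlinarith [norm_nonneg (w a)]

theorem Fa_w_ne (a : Rs d) : w a ≠ 0 := by
  intro h
  have := Fa_one_le a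
  rw [h, norm_zero] at this
  linarith

theorem Fa_w_eq (a : Rs d) : w a = ((1 + ‖a.2‖ ^ 2 - a.1 ^ 2 : ℝ) : ℂ) + 2 * I * (a.1 : ℂ) := by
  unfold w qf
  push_cast
  simp
  ring

/-- `X₀ w = 2 (1 + i t) - w` -/
theorem Fa_X0_mul (a : Rs d) : w a * X 0 a = 2 * (1 + I * (a.1 : ℂ)) - w a := by
  have h : X 0 a = ((1 - ‖a.2‖ ^ 2 + a.1 ^ 2 : ℝ) : ℂ) / w a := rfl
  rw [h, mul_div_cancel₀ _ (Fa_w_ne a), Fa_w_eq]
  push_cast
  ring

theorem Fa_Xs_mul (a : Rs d) (i : Fin d) : w a * X i.succ a = 2 * (a.2 i : ℂ) := by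
  have h : X i.succ a = 2 * (a.2 i : ℂ) / w a := rfl
  rw [h, mul_div_cancel₀ _ (Fa_w_ne a)]

theorem Fa_X_le (j : Fin (d + 1)) (a : Rs d) : ‖X j a‖ ≤ 1 := by
  have hw : 0 < ‖w a‖ := norm_pos_iff.2 (Fa_w_ne a)
  refine Fin.cases ?_ (fun i => ?_) j
  · have h : X 0 a = ((1 - ‖a.2‖ ^ 2 + a.1 ^ 2 : ℝ) : ℂ) / w a := rfl
    rw [h, norm_div, div_le_one hw, Complex.norm_real, Real.norm_eq_abs]
    refine abs_le_of_sq_le_sq ?_ hw.le
    rw [Fa_norm_sq_w]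
    nlinarith [sq_nonneg ‖a.2‖]
  · have h : X i.succ a = 2 * (a.2 i : ℂ) / w a := rfl
    rw [h, norm_div, div_le_one hw, norm_mul, Complex.norm_real]
    refine abs_le_of_sq_le_sq' ?_ hw.le |>.2
    have h1 : ‖a.2 i‖ ≤ ‖a.2‖ := PiLp.norm_apply_le a.2 i
    have h2 : ‖a.2 i‖ ^ 2 ≤ ‖a.2‖ ^ 2 := pow_le_pow_left₀ (norm_nonneg _) h1 2
    rw [Fa_norm_sq_w]
    simp only [Complex.norm_ofNat]
    nlinarith [sq_nonneg (1 - ‖a.2‖ ^ 2 + a.1 ^ 2)]

/-- the complex direction `z = p + i q` -/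
noncomputable def Fa_z (p q : ℝ) : ℂ := (p : ℂ) + I * (q : ℂ)

/-- `∑ X_j z_j + i (X₀ + 1) z₀` -/
noncomputable def Fa_M (p q b : Rs d) : ℂ :=
  ∑ i : Fin d, X i.succ b * Fa_z (p.2 i) (q.2 i) + I * (X 0 b + 1) * Fa_z p.1 q.1

noncomputable def Fa_zeta (p q : Rs d) : ℂ :=
  ∑ i : Fin d, Fa_z (p.2 i) (q.2 i) ^ 2 - Fa_z p.1 q.1 ^ 2

theorem Fa_qf_coord (u v : Rs d) : qf u v =
    ∑ i : Fin d, ((u.2 i : ℂ) - I * (v.2 i : ℂ)) ^ 2 - ((u.1 : ℂ) - I * (v.1 : ℂ)) ^ 2 := by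
  unfold qf
  have e1 : ‖u.2‖ ^ 2 = ∑ i : Fin d, (u.2 i) ^ 2 := EuclideanSpace.real_norm_sq_eq u.2
  have e2 : ‖v.2‖ ^ 2 = ∑ i : Fin d, (v.2 i) ^ 2 := EuclideanSpace.real_norm_sq_eq v.2
  have e3 : inner ℝ u.2 v.2 = ∑ i : Fin d, u.2 i * v.2 i := by
    rw [PiLp.inner_apply]
    refine Finset.sum_congr rfl fun i _ => ?_
    simp [mul_comm]
  rw [e1, e2, e3]
  have e4 : ∀ i : Fin d, ((u.2 i : ℂ) - I * (v.2 i : ℂ)) ^ 2 =
      (u.2 i : ℂ) ^ 2 - (v.2 i : ℂ) ^ 2 - 2 * I * ((u.2 i : ℂ) * (v.2 i : ℂ)) := fun i => by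
    linear_combination (v.2 i : ℂ) ^ 2 * I_sq
  simp only [e4, Finset.sum_sub_distrib, ← Finset.mul_sum]
  push_cast
  linear_combination (v.1 : ℂ) ^ 2 * I_sq

theorem Fa_expand (p q b : Rs d) (s : ℝ) :
    qf (b - s • p) ((1, 0) + s • q) = w b * (1 - s * Fa_M p q b) + (s : ℂ) ^ 2 * Fa_zeta p q := by
  have h1 : w b * Fa_M p q b = ∑ i : Fin d, 2 * (b.2 i : ℂ) * Fa_z (p.2 i) (q.2 i) +
      I * (2 * (1 + I * (b.1 : ℂ))) * Fa_z p.1 q.1 := by
    unfold Fa_M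
    rw [mul_add, Finset.mul_sum]
    congr 1
    · refine Finset.sum_congr rfl fun i _ => ?_
      rw [← mul_assoc, Fa_Xs_mul]
    · have := Fa_X0_mul b
      linear_combination (I * Fa_z p.1 q.1) * this
  have h2 : w b * (1 - s * Fa_M p q b) = w b - s * (w b * Fa_M p q b) := by ring
  have h3 : w b = ∑ i : Fin d, (b.2 i : ℂ) ^ 2 - ((b.1 : ℂ) - I) ^ 2 := by
    unfold w
    rw [Fa_qf_coord]
    simp
  rw [h2, h1, h3, Fa_qf_coord]
  unfold Fa_zeta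
  have h4 : ∀ i : Fin d, (((b - s • p).2 i : ℂ) - I * ((((1, 0) : Rs d) + s • q).2 i : ℂ)) ^ 2 =
      (b.2 i : ℂ) ^ 2 - s * (2 * (b.2 i : ℂ) * Fa_z (p.2 i) (q.2 i)) +
        (s : ℂ) ^ 2 * Fa_z (p.2 i) (q.2 i) ^ 2 := fun i => by
    unfold Fa_z
    simp only [Prod.snd_sub, Prod.snd_add, Prod.smul_snd, PiLp.sub_apply, PiLp.add_apply,
      PiLp.smul_apply, smul_eq_mul, PiLp.zero_apply]
    push_cast
    ring
  have h5 : (((b - s • p).1 : ℂ) - I * ((((1, 0) : Rs d) + s • q).1 : ℂ)) ^ 2 =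
      ((b.1 : ℂ) - I) ^ 2 - s * (2 * ((b.1 : ℂ) - I) * Fa_z p.1 q.1) +
        (s : ℂ) ^ 2 * Fa_z p.1 q.1 ^ 2 := by
    unfold Fa_z
    simp only [Prod.fst_sub, Prod.fst_add, Prod.smul_fst, smul_eq_mul]
    push_cast
    ring
  rw [h5, Finset.sum_congr rfl fun i _ => h4 i, Finset.sum_add_distrib, Finset.sum_sub_distrib,
    ← Finset.mul_sum, ← Finset.mul_sum]
  linear_combination (2 * (s : ℂ) * (b.1 : ℂ) * Fa_z p.1 q.1) * I_sq

/-- the derivative of the functional in the direction `(p, q)` -/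
noncomputable def Fa_D (p q b : Rs d) : ℝ := -(Fa_M p q b).re - q.1

theorem Fa_abs_le (p : Rs d) (hp : ‖p‖ ≤ 1) : |p.1| ≤ 1 ∧ ‖p.2‖ ≤ 1 ∧ ∀ i, |p.2 i| ≤ 1 := by
  have h1 : ‖p.1‖ ≤ ‖p‖ := norm_fst_le p
  have h2 : ‖p.2‖ ≤ ‖p‖ := norm_snd_le p
  refine ⟨by rw [← Real.norm_eq_abs]; linarith, by linarith, fun i => ?_⟩
  have h3 : ‖p.2 i‖ ≤ ‖p.2‖ := PiLp.norm_apply_le p.2 i
  rw [← Real.norm_eq_abs]
  linarith

theorem Fa_z_le (p q : ℝ) (hp : |p| ≤ 1) (hq : |q| ≤ 1) : ‖Fa_z p q‖ ≤ 2 := by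
  unfold Fa_z
  refine (norm_add_le _ _).trans ?_
  rw [norm_mul, Complex.norm_real, Complex.norm_real, Complex.norm_I, one_mul, Real.norm_eq_abs,
    Real.norm_eq_abs]
  linarith

theorem Fa_M_le (p q b : Rs d) (hp : ‖p‖ ≤ 1) (hq : ‖q‖ ≤ 1) : ‖Fa_M p q b‖ ≤ 2 * d + 4 := by
  obtain ⟨p1, -, p3⟩ := Fa_abs_le p hp
  obtain ⟨q1, -, q3⟩ := Fa_abs_le q hq
  unfold Fa_M
  refine (norm_add_le _ _).trans ?_
  have h1 : ‖∑ i : Fin d, X i.succ b * Fa_z (p.2 i) (q.2 i)‖ ≤ 2 * d := by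
    refine (norm_sum_le _ _).trans ?_
    have : ∀ i : Fin d, ‖X i.succ b * Fa_z (p.2 i) (q.2 i)‖ ≤ 2 := fun i => by
      rw [norm_mul]
      have h2 := Fa_z_le _ _ (p3 i) (q3 i)
      have h3 := Fa_X_le i.succ b
      nlinarith [norm_nonneg (X i.succ b), norm_nonneg (Fa_z (p.2 i) (q.2 i))]
    refine (Finset.sum_le_sum fun i _ => this i).trans ?_
    rw [Finset.sum_const, Finset.card_univ, Fintype.card_fin, nsmul_eq_mul, mul_comm]
  have h2 : ‖I * (X 0 b + 1) * Fa_z p.1 q.1‖ ≤ 4 := by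
    rw [norm_mul, norm_mul, Complex.norm_I, one_mul]
    have h3 : ‖X 0 b + 1‖ ≤ 2 := by
      refine (norm_add_le _ _).trans ?_
      rw [norm_one]
      linarith [Fa_X_le 0 b]
    have h4 := Fa_z_le _ _ p1 q1
    nlinarith [norm_nonneg (X 0 b + 1), norm_nonneg (Fa_z p.1 q.1)]
  linarith

theorem Fa_zeta_le (p q : Rs d) (hp : ‖p‖ ≤ 1) (hq : ‖q‖ ≤ 1) : ‖Fa_zeta p q‖ ≤ 4 * d + 4 := by
  obtain ⟨p1, -, p3⟩ := Fa_abs_le p hp
  obtain ⟨q1, -, q3⟩ := Fa_abs_le q hq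
  unfold Fa_zeta
  refine (norm_sub_le _ _).trans ?_
  have h1 : ‖∑ i : Fin d, Fa_z (p.2 i) (q.2 i) ^ 2‖ ≤ 4 * d := by
    refine (norm_sum_le _ _).trans ?_
    have : ∀ i : Fin d, ‖Fa_z (p.2 i) (q.2 i) ^ 2‖ ≤ 4 := fun i => by
      rw [norm_pow]
      have h2 := Fa_z_le _ _ (p3 i) (q3 i)
      nlinarith [norm_nonneg (Fa_z (p.2 i) (q.2 i))]
    refine (Finset.sum_le_sum fun i _ => this i).trans ?_
    rw [Finset.sum_const, Finset.card_univ, Fintype.card_fin, nsmul_eq_mul, mul_comm]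
  have h2 : ‖Fa_z p.1 q.1 ^ 2‖ ≤ 4 := by
    rw [norm_pow]
    have h4 := Fa_z_le _ _ p1 q1
    nlinarith [norm_nonneg (Fa_z p.1 q.1)]
  linarith

/-- `log ‖1 + R‖ ≤ Re R + ‖R‖² / 2` -/
theorem Fa_log_le (R : ℂ) (hR : 1 + R ≠ 0) : Real.log ‖1 + R‖ ≤ R.re + ‖R‖ ^ 2 / 2 := by
  have h0 : 0 < ‖1 + R‖ := norm_pos_iff.2 hR
  have h1 : ‖1 + R‖ ^ 2 = 1 + 2 * R.re + ‖R‖ ^ 2 := by
    rw [← Complex.normSq_eq_norm_sq, ← Complex.normSq_eq_norm_sq, Complex.normSq_apply,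
      Complex.normSq_apply]
    simp only [Complex.add_re, Complex.one_re, Complex.add_im, Complex.one_im]
    ring
  have h2 := Real.log_le_sub_one_of_pos (pow_pos h0 2)
  rw [Real.log_pow, h1] at h2
  push_cast at h2
  linarith

theorem Fa_qf_ne (u v : Rs d) (hv : v ∈ Fwd) : qf u v ≠ 0 := by
  have h := qf_boost v hv (boost (Fa_inv v) u) (1, 0)
  rw [Fa_inv_right v hv, boost_e] at h
  rw [h]
  exact mul_ne_zero (by exact_mod_cast (Fa_lor_pos v hv).ne') (Fa_w_ne _)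

theorem Fa_mem (q : Rs d) (hq : ‖q‖ ≤ 1) (s : ℝ) (hs0 : 0 < s) (hs : s ≤ 1 / 6) :
    ((1, 0) : Rs d) + s • q ∈ Fwd := by
  obtain ⟨q1, q2, -⟩ := Fa_abs_le q hq
  change ‖(0 : Rd d) + s • q.2‖ < 1 + s * q.1
  rw [zero_add, norm_smul, Real.norm_eq_abs, abs_of_pos hs0]
  have := (abs_le.1 q1).1
  nlinarith

/-- the constant of the second order error -/
noncomputable def Fa_K (d : ℕ) : ℝ := (6 * (d : ℝ) + 8) ^ 2 / 2 + (4 * d + 4) + 10

theorem Fa_K_pos : 0 < Fa_K d := by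
  unfold Fa_K
  positivity

theorem Fa_point (p q b : Rs d) (hp : ‖p‖ ≤ 1) (hq : ‖q‖ ≤ 1) (s : ℝ) (hs0 : 0 < s)
    (hs : s ≤ 1 / 6) :
    Real.log ‖qf (b - s • p) ((1, 0) + s • q)‖ - Real.log ‖w b‖ -
      1 / 2 * Real.log (lor ((1, 0) + s • q)) ≤ s * Fa_D p q b + Fa_K d * s ^ 2 := by
  obtain ⟨q1, q2, -⟩ := Fa_abs_le q hq
  have hw := Fa_w_ne b
  have hw0 : 0 < ‖w b‖ := norm_pos_iff.2 hw
  have hw1 := Fa_one_le b
  set M := Fa_M p q b with hM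
  set ζ := Fa_zeta p q with hζ
  have hMb : ‖M‖ ≤ 2 * d + 4 := Fa_M_le p q b hp hq
  have hd0 : (0 : ℝ) ≤ d := Nat.cast_nonneg d
  have hζb : ‖ζ‖ ≤ 4 * d + 4 := Fa_zeta_le p q hp hq
  set R : ℂ := -(s * M) + (s : ℂ) ^ 2 * (ζ / w b) with hR
  have hζw : ‖ζ / w b‖ ≤ 4 * d + 4 := by
    rw [norm_div, div_le_iff₀ hw0]
    nlinarith
  have e1 : qf (b - s • p) ((1, 0) + s • q) = w b * (1 + R) := by
    rw [Fa_expand, ← hM, ← hζ, hR]
    field_simp
    ring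
  have hne := Fa_qf_ne (b - s • p) _ (Fa_mem q hq s hs0 hs)
  have hR1 : 1 + R ≠ 0 := by
    intro h
    rw [e1, h, mul_zero] at hne
    exact hne rfl
  have h1 : Real.log ‖qf (b - s • p) ((1, 0) + s • q)‖ = Real.log ‖w b‖ + Real.log ‖1 + R‖ := by
    rw [e1, norm_mul, Real.log_mul hw0.ne' (norm_ne_zero_iff.2 hR1)]
  have h2 := Fa_log_le R hR1
  have hns : ‖(s : ℂ)‖ = s := by rw [Complex.norm_real, Real.norm_eq_abs, abs_of_pos hs0]
  have h3 : ‖R‖ ≤ (6 * d + 8) * s := by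
    rw [hR]
    refine (norm_add_le _ _).trans ?_
    rw [norm_neg, norm_mul, norm_mul, norm_pow, hns]
    have h31 : s ^ 2 * ‖ζ / w b‖ ≤ s ^ 2 * (4 * d + 4) :=
      mul_le_mul_of_nonneg_left hζw (sq_nonneg s)
    have h32 : s * ‖M‖ ≤ s * (2 * d + 4) := mul_le_mul_of_nonneg_left hMb hs0.le
    have h33 : s ^ 2 * (4 * d + 4) ≤ s * (4 * d + 4) :=
      mul_le_mul_of_nonneg_right (by nlinarith) (by positivity)
    linarith
  have h4 : ‖R‖ ^ 2 ≤ (6 * d + 8) ^ 2 * s ^ 2 := by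
    have := pow_le_pow_left₀ (norm_nonneg _) h3 2
    rwa [mul_pow] at this
  have h5 : R.re ≤ -(s * M.re) + (4 * d + 4) * s ^ 2 := by
    have : R.re = -(s * M.re) + s ^ 2 * (ζ / w b).re := by
      rw [hR]
      simp only [Complex.add_re, Complex.neg_re, Complex.re_ofReal_mul]
      rw [← Complex.ofReal_pow, Complex.re_ofReal_mul]
    rw [this]
    have h6 : (ζ / w b).re ≤ 4 * d + 4 := (Complex.re_le_norm _).trans hζw
    have h61 := mul_le_mul_of_nonneg_left h6 (sq_nonneg s)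
    linarith
  set y : ℝ := 2 * s * q.1 + s ^ 2 * (q.1 ^ 2 - ‖q.2‖ ^ 2) with hy
  have e2 : lor ((1, 0) + s • q) = 1 + y := by
    unfold lor
    simp only [Prod.fst_add, Prod.snd_add, Prod.smul_fst, Prod.smul_snd, smul_eq_mul, zero_add,
      norm_smul, Real.norm_eq_abs, abs_of_pos hs0]
    rw [hy]
    ring
  have q1' : q.1 ^ 2 ≤ 1 := by
    rw [← sq_abs]
    exact pow_le_one₀ (abs_nonneg _) q1
  have q2' : ‖q.2‖ ^ 2 ≤ 1 := pow_le_one₀ (norm_nonneg _) q2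
  have hd : |q.1 ^ 2 - ‖q.2‖ ^ 2| ≤ 1 := by
    rw [abs_le]
    constructor <;> nlinarith [sq_nonneg q.1, sq_nonneg ‖q.2‖]
  have hd1 := (abs_le.1 hd).1
  have hd2 := (abs_le.1 hd).2
  have hq1 := (abs_le.1 q1).1
  have hq2 := (abs_le.1 q1).2
  have hyb : |y| ≤ 3 * s := by
    rw [abs_le]
    constructor <;> nlinarith [sq_nonneg s]
  have hy1 : -(1 / 2) ≤ y := by
    have := (abs_le.1 hyb).1
    linarith
  have hlog : y - 2 * y ^ 2 ≤ Real.log (1 + y) := by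
    have h7 := Real.one_sub_inv_le_log_of_pos (show 0 < 1 + y by linarith)
    refine le_trans ?_ h7
    have hy3 : 1 + y ≠ 0 := (show 0 < 1 + y by linarith).ne'
    have h8 : 1 - (1 + y)⁻¹ = y / (1 + y) := by
      field_simp
      ring
    rw [h8, le_div_iff₀ (by linarith)]
    nlinarith [sq_nonneg y, mul_nonneg (sq_nonneg y) (show 0 ≤ 1 + 2 * y by linarith)]
  have hy2 : y ^ 2 ≤ 9 * s ^ 2 := by
    rw [← sq_abs]
    have := pow_le_pow_left₀ (abs_nonneg _) hyb 2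
    nlinarith
  rw [h1, e2]
  unfold Fa_D
  rw [← hM]
  have h9 : s ^ 2 * (q.1 ^ 2 - ‖q.2‖ ^ 2) ≥ -(s ^ 2) := by nlinarith [sq_nonneg s]
  have h10 : s * q.1 - s ^ 2 / 2 - 9 * s ^ 2 ≤ 1 / 2 * Real.log (1 + y) := by
    have h11 : 2 * s * q.1 - s ^ 2 ≤ y := by rw [hy]; linarith
    linarith
  have h12 : s * (-M.re - q.1) + Fa_K d * s ^ 2 =
      -(s * M.re) + (4 * d + 4) * s ^ 2 + (6 * d + 8) ^ 2 * s ^ 2 / 2 - (s * q.1 - 10 * s ^ 2) := by
    unfold Fa_K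
    ring
  rw [h12]
  linarith [sq_nonneg s]

/-! ### The functional -/

/-- the integrand of the functional -/
noncomputable def Fa_g (c v a : Rs d) : ℝ :=
  Real.log ‖qf (a - c) v‖ - Real.log ‖w a‖ - 1 / 2 * Real.log (lor v)

theorem Fa_qf_eq (u v : Rs d) (hv : v ∈ Fwd) :
    qf u v = (lor v : ℂ) * w (boost (Fa_inv v) u) := by
  have h := qf_boost v hv (boost (Fa_inv v) u) (1, 0)
  rw [Fa_inv_right v hv, boost_e] at h
  exact h

theorem Fa_cont_qf (c v : Rs d) : Continuous fun a : Rs d => qf (a - c) v := by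
  unfold qf
  fun_prop

theorem Fa_cont_w : Continuous (w : Rs d → ℂ) := by
  have h := Fa_cont_qf (d := d) 0 (1, 0)
  simp only [sub_zero] at h
  exact h

theorem Fa_cont_boost (v : Rs d) : Continuous (boost v) := by
  unfold boost
  fun_prop

theorem Fa_cont_X (j : Fin (d + 1)) : Continuous (X j) := by
  refine Fin.cases ?_ (fun i => ?_) j
  · have h : X 0 = fun a : Rs d => ((1 - ‖a.2‖ ^ 2 + a.1 ^ 2 : ℝ) : ℂ) / w a := rfl
    rw [h]
    exact Continuous.div (by fun_prop) Fa_cont_w Fa_w_ne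
  · have h : X i.succ = fun a : Rs d => 2 * (a.2 i : ℂ) / w a := rfl
    rw [h]
    exact Continuous.div (by fun_prop) Fa_cont_w Fa_w_ne

theorem Fa_g_meas (c v : Rs d) : Measurable (Fa_g c v) := by
  unfold Fa_g
  have h1 := (Fa_cont_qf c v).norm.measurable
  have h2 := (Fa_cont_w (d := d)).norm.measurable
  exact ((Real.measurable_log.comp h1).sub (Real.measurable_log.comp h2)).sub_const _

theorem Fa_g_bdd (c v : Rs d) (hv : v ∈ Fwd) : ∃ K : ℝ, ∀ a, |Fa_g c v a| ≤ K := by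
  obtain ⟨C1, h1⟩ := norm_w_boost v c hv
  obtain ⟨C2, h2⟩ := norm_w_boost (Fa_inv v) (boost (Fa_inv v) (-c)) (Fa_inv_mem v hv)
  have hC1 : 0 < C1 := by
    have := h1 0
    have h3 := Fa_one_le (boost v 0 + c)
    have h4 := Fa_one_le (0 : Rs d)
    by_contra hn
    push Not at hn
    nlinarith
  have hC2 : 0 < C2 := by
    have := h2 0
    have h3 := Fa_one_le (boost (Fa_inv v) 0 + boost (Fa_inv v) (-c))
    have h4 := Fa_one_le (0 : Rs d)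
    by_contra hn
    push Not at hn
    nlinarith
  have hl := Fa_lor_pos v hv
  refine ⟨|Real.log C1| + |Real.log C2| + |1 / 2 * Real.log (lor v)|, fun a => ?_⟩
  set b := boost (Fa_inv v) (a - c) with hb
  have hwa : 0 < ‖w a‖ := norm_pos_iff.2 (Fa_w_ne a)
  have hwb : 0 < ‖w b‖ := norm_pos_iff.2 (Fa_w_ne b)
  have e1 : ‖w a‖ ≤ C1 * ‖w b‖ := by
    have := h1 b
    rwa [hb, Fa_inv_right v hv, sub_add_cancel] at this
  have e2 : ‖w b‖ ≤ C2 * ‖w a‖ := by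
    have := h2 a
    rwa [← Fa_boost_add, ← sub_eq_add_neg] at this
  have l1 : Real.log ‖w a‖ ≤ Real.log C1 + Real.log ‖w b‖ := by
    rw [← Real.log_mul hC1.ne' hwb.ne']
    exact Real.log_le_log hwa e1
  have l2 : Real.log ‖w b‖ ≤ Real.log C2 + Real.log ‖w a‖ := by
    rw [← Real.log_mul hC2.ne' hwa.ne']
    exact Real.log_le_log hwb e2
  have e3 : Fa_g c v a = Real.log ‖w b‖ - Real.log ‖w a‖ + 1 / 2 * Real.log (lor v) := by
    unfold Fa_g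
    rw [Fa_qf_eq _ v hv, norm_mul, Complex.norm_real, Real.norm_eq_abs, abs_of_pos hl,
      Real.log_mul hl.ne' hwb.ne']
    ring
  rw [e3]
  have h3 : |Real.log ‖w b‖ - Real.log ‖w a‖| ≤ |Real.log C1| + |Real.log C2| := by
    rw [abs_le]
    have := le_abs_self (Real.log C1)
    have := le_abs_self (Real.log C2)
    have := abs_nonneg (Real.log C1)
    have := abs_nonneg (Real.log C2)
    constructor <;> linarith
  exact (abs_add_le _ _).trans (add_le_add_left h3 _)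

theorem Fa_Z [Fact (2 ≤ d)] : 0 < ∫ a : Rs d, ‖w a‖ ^ (-((d : ℝ) + 1)) := by
  have h := mM0_univ (d := d)
  unfold mM0 at h
  rw [withDensity_apply _ MeasurableSet.univ, Measure.restrict_univ] at h
  rw [integral_eq_lintegral_of_nonneg_ae
    (Filter.Eventually.of_forall fun a => Real.rpow_nonneg (norm_nonneg _) _)
    (Fa_cont_w.norm.measurable.pow_const _).aestronglyMeasurable]
  exact ENNReal.toReal_pos h.1 h.2

theorem Fa_int_P (c v : Rs d) (hv : v ∈ Fwd) :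
    ∫ a, lor v ^ (((d : ℝ) + 1) / 2) * ‖qf (a - c) v‖ ^ (-((d : ℝ) + 1)) =
      ∫ a : Rs d, ‖w a‖ ^ (-((d : ℝ) + 1)) := by
  have hl := Fa_lor_pos v hv
  have h1 := integral_boost v hv fun a => ((‖qf a v‖ ^ (-((d : ℝ) + 1)) : ℝ) : ℂ)
  have e1 : ∀ b, ‖qf (boost v b) v‖ ^ (-((d : ℝ) + 1)) = lor v ^ (-((d : ℝ) + 1)) * ‖w b‖ ^ (-((d : ℝ) + 1)) := by
    intro b
    rw [Fa_qf_eq _ v hv, Fa_inv_left v hv, norm_mul, Complex.norm_real, Real.norm_eq_abs,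
      abs_of_pos hl, Real.mul_rpow hl.le (norm_nonneg _)]
  simp only [e1] at h1
  rw [integral_complex_ofReal, integral_complex_ofReal, integral_const_mul] at h1
  have h2 : lor v ^ (-((d : ℝ) + 1)) * ∫ b : Rs d, ‖w b‖ ^ (-((d : ℝ) + 1)) =
      lor v ^ (-(((d : ℝ) + 1) / 2)) * ∫ a, ‖qf a v‖ ^ (-((d : ℝ) + 1)) := by exact_mod_cast h1
  have : (volume : Measure (Rs d)).IsAddHaarMeasure := by
    rw [Measure.volume_eq_prod]
    infer_instance
  have h3 : ∫ a, ‖qf (a - c) v‖ ^ (-((d : ℝ) + 1)) = ∫ a, ‖qf a v‖ ^ (-((d : ℝ) + 1)) :=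
    integral_sub_right_eq_self (fun a => ‖qf a v‖ ^ (-((d : ℝ) + 1))) c
  rw [integral_const_mul, h3]
  have h4 : lor v ^ (((d : ℝ) + 1) / 2) * (lor v ^ (-(((d : ℝ) + 1) / 2))) = 1 := by
    rw [← Real.rpow_add hl, add_neg_cancel, Real.rpow_zero]
  have h5 : lor v ^ ((d : ℝ) + 1) * lor v ^ (-((d : ℝ) + 1)) = 1 := by
    rw [← Real.rpow_add hl, add_neg_cancel, Real.rpow_zero]
  have h6 : lor v ^ ((d : ℝ) + 1) = lor v ^ (((d : ℝ) + 1) / 2) * lor v ^ (((d : ℝ) + 1) / 2) := by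
    rw [← Real.rpow_add hl, add_halves]
  calc lor v ^ (((d : ℝ) + 1) / 2) * ∫ a, ‖qf a v‖ ^ (-((d : ℝ) + 1))
      = lor v ^ (((d : ℝ) + 1) / 2) * lor v ^ (((d : ℝ) + 1) / 2) *
        (lor v ^ (-(((d : ℝ) + 1) / 2)) * ∫ a, ‖qf a v‖ ^ (-((d : ℝ) + 1))) := by
        linear_combination (-(lor v ^ (((d : ℝ) + 1) / 2) * ∫ a, ‖qf a v‖ ^ (-((d : ℝ) + 1)))) * h4
    _ = (lor v ^ ((d : ℝ) + 1) * lor v ^ (-((d : ℝ) + 1))) * ∫ b : Rs d, ‖w b‖ ^ (-((d : ℝ) + 1)) := by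
        rw [← h2, h6]
        ring
    _ = _ := by rw [h5, one_mul]

theorem Fa_lower [Fact (2 ≤ d)] (ρ : Rs d → ℝ) (h0 : ∀ a, 0 ≤ ρ a) (C : ℝ) (hC : 0 < C)
    (hρ : ∀ a, ρ a ≤ C * ‖w a‖ ^ (-((d : ℝ) + 1))) (hi : Integrable ρ) (c v : Rs d) (hv : v ∈ Fwd) :
    -(((d : ℝ) + 1)⁻¹ * (Real.log C * (∫ a, ρ a) + ∫ a : Rs d, ‖w a‖ ^ (-((d : ℝ) + 1)))) ≤ ∫ a, Fa_g c v a * ρ a := by
  have hl := Fa_lor_pos v hv
  obtain ⟨K, hK⟩ := Fa_g_bdd c v hv
  have hgi : Integrable fun a => Fa_g c v a * ρ a :=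
    hi.bdd_mul (Fa_g_meas c v).aestronglyMeasurable (Filter.Eventually.of_forall hK)
  set P : Rs d → ℝ := fun a => lor v ^ (((d : ℝ) + 1) / 2) * ‖qf (a - c) v‖ ^ (-((d : ℝ) + 1)) with hP
  have hPint : ∫ a, P a = ∫ a : Rs d, ‖w a‖ ^ (-((d : ℝ) + 1)) := Fa_int_P c v hv
  have hPi : Integrable P := by
    by_contra hn
    rw [integral_undef hn] at hPint
    exact Fa_Z.ne hPint
  have hpt : ∀ a, -((d : ℝ) + 1) * (Fa_g c v a * ρ a) ≤ Real.log C * ρ a + P a := by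
    intro a
    have hq : 0 < ‖qf (a - c) v‖ := norm_pos_iff.2 (Fa_qf_ne _ v hv)
    have hw : 0 < ‖w a‖ := norm_pos_iff.2 (Fa_w_ne a)
    have hPp : 0 < P a := mul_pos (Real.rpow_pos_of_pos hl _) (Real.rpow_pos_of_pos hq _)
    rcases (h0 a).eq_or_lt with hz | hz
    · rw [← hz]
      simp only [mul_zero]
      linarith
    · have hw5 : 0 < ‖w a‖ ^ (-((d : ℝ) + 1)) := Real.rpow_pos_of_pos hw _
      have e1 : -((d : ℝ) + 1) * Fa_g c v a = Real.log (P a) - Real.log (‖w a‖ ^ (-((d : ℝ) + 1))) := by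
        rw [hP]
        simp only
        rw [Real.log_mul (Real.rpow_pos_of_pos hl _).ne' (Real.rpow_pos_of_pos hq _).ne',
          Real.log_rpow hl, Real.log_rpow hq, Real.log_rpow hw]
        unfold Fa_g
        ring
      have e2 : Real.log (ρ a) ≤ Real.log C + Real.log (‖w a‖ ^ (-((d : ℝ) + 1))) := by
        rw [← Real.log_mul hC.ne' hw5.ne']
        exact Real.log_le_log hz (hρ a)
      have e3 : Real.log (P a) - Real.log (ρ a) ≤ P a / ρ a - 1 := by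
        rw [← Real.log_div hPp.ne' hz.ne']
        exact Real.log_le_sub_one_of_pos (div_pos hPp hz)
      have e4 : -((d : ℝ) + 1) * Fa_g c v a ≤ Real.log C + P a / ρ a := by linarith
      have e5 := mul_le_mul_of_nonneg_right e4 hz.le
      have e6 : (Real.log C + P a / ρ a) * ρ a = Real.log C * ρ a + P a := by
        field_simp
      linarith
  have hint : ∫ a, -((d : ℝ) + 1) * (Fa_g c v a * ρ a) ≤ ∫ a, (Real.log C * ρ a + P a) :=
    integral_mono (hgi.const_mul _) ((hi.const_mul _).add hPi) hpt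
  rw [integral_const_mul, integral_add (hi.const_mul _) hPi, integral_const_mul, hPint] at hint
  have hd1 : (0 : ℝ) < (d : ℝ) + 1 := by positivity
  rw [← mul_neg, inv_mul_le_iff₀ hd1]
  linarith

/-! ### Transport to the base point and conclusion -/

theorem Fa_g_diff (c0 v0 : Rs d) (hv0 : v0 ∈ Fwd) (p q : Rs d) (hq : ‖q‖ ≤ 1) (s : ℝ) (hs0 : 0 < s)
    (hs : s ≤ 1 / 6) (a : Rs d) :
    Fa_g (c0 + boost v0 (s • p)) (boost v0 ((1, 0) + s • q)) a - Fa_g c0 v0 a =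
      Real.log ‖qf (boost (Fa_inv v0) (a - c0) - s • p) ((1, 0) + s • q)‖ -
      Real.log ‖w (boost (Fa_inv v0) (a - c0))‖ - 1 / 2 * Real.log (lor ((1, 0) + s • q)) := by
  have hl := Fa_lor_pos v0 hv0
  have hm := Fa_mem q hq s hs0 hs
  have hl2 := Fa_lor_pos _ hm
  set b := boost (Fa_inv v0) (a - c0) with hb
  have e1 : a - (c0 + boost v0 (s • p)) = boost v0 (b - s • p) := by
    rw [sub_eq_add_neg b, Fa_boost_add, hb, Fa_inv_right v0 hv0, ← neg_smul, Fa_boost_smul,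
      Fa_boost_smul, neg_smul]
    abel
  have hq1 : 0 < ‖qf (b - s • p) ((1, 0) + s • q)‖ := norm_pos_iff.2 (Fa_qf_ne _ _ hm)
  have hw : 0 < ‖w b‖ := norm_pos_iff.2 (Fa_w_ne b)
  unfold Fa_g
  rw [e1, qf_boost v0 hv0, Fa_lor_boost v0 _ hv0, Fa_qf_eq (a - c0) v0 hv0, ← hb, norm_mul,
    norm_mul, Complex.norm_real, Real.norm_eq_abs, abs_of_pos hl, Real.log_mul hl.ne' hq1.ne',
    Real.log_mul hl.ne' hw.ne', Real.log_mul hl.ne' hl2.ne']
  ring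

theorem Fa_D_cont (p q : Rs d) : Continuous (Fa_D p q) := by
  unfold Fa_D Fa_M
  have h := fun j : Fin (d + 1) => Fa_cont_X j
  fun_prop

theorem Fa_D_le (p q b : Rs d) (hp : ‖p‖ ≤ 1) (hq : ‖q‖ ≤ 1) : |Fa_D p q b| ≤ 2 * d + 5 := by
  have h1 := (Complex.abs_re_le_norm _).trans (Fa_M_le p q b hp hq)
  obtain ⟨q1, -, -⟩ := Fa_abs_le q hq
  unfold Fa_D
  rw [abs_le] at *
  constructor <;> linarith

theorem Fa_D_neg (p q b : Rs d) : Fa_D (-p) (-q) b = -Fa_D p q b := by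
  have h : Fa_M (-p) (-q) b = -Fa_M p q b := by
    have h1 : ∀ x y : ℝ, Fa_z (-x) (-y) = -Fa_z x y := fun x y => by
      unfold Fa_z
      push_cast
      ring
    unfold Fa_M
    simp only [Prod.snd_neg, Prod.fst_neg, PiLp.neg_apply, h1, mul_neg, Finset.sum_neg_distrib]
    ring
  unfold Fa_D
  rw [h, Prod.fst_neg, Complex.neg_re]
  ring

/-- all directions at once -/
theorem Fa_core [Fact (2 ≤ d)] (ρ : Rs d → ℝ) (h0 : ∀ a, 0 ≤ ρ a)
    (hρ : ∃ C : ℝ, ∀ a, ρ a ≤ C * ‖w a‖ ^ (-((d : ℝ) + 1))) (hpos : 0 < ∫ a, ρ a) (ε : ℝ) (hε : 0 < ε) :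
    ∃ v0 ∈ Fwd, ∃ c0 : Rs d, ∀ p q : Rs d, ‖p‖ ≤ 1 → ‖q‖ ≤ 1 →
      |∫ a, Fa_D p q (boost (Fa_inv v0) (a - c0)) * ρ a| ≤ ε * ∫ a, ρ a := by
  obtain ⟨C0, hC0⟩ := hρ
  have hi : Integrable ρ := by
    by_contra hn
    rw [integral_undef hn] at hpos
    exact lt_irrefl _ hpos
  set C : ℝ := max C0 1 with hC
  have hCpos : 0 < C := lt_of_lt_of_le one_pos (le_max_right _ _)
  have hρC : ∀ a, ρ a ≤ C * ‖w a‖ ^ (-((d : ℝ) + 1)) := fun a =>
    (hC0 a).trans (mul_le_mul_of_nonneg_right (le_max_left _ _)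
      (Real.rpow_nonneg (norm_nonneg _) _))
  set N : ℝ := ∫ a, ρ a with hN
  set s : ℝ := min (1 / 6) (ε / (2 * Fa_K d)) with hs
  have hK0 : 0 < Fa_K d := Fa_K_pos
  have hs0 : 0 < s := lt_min (by norm_num) (by positivity)
  have hs1 : s ≤ 1 / 6 := min_le_left _ _
  have hs2 : Fa_K d * s ≤ ε / 2 := by
    have h1 := min_le_right (1 / 6 : ℝ) (ε / (2 * Fa_K d))
    rw [← hs, le_div_iff₀ (by positivity)] at h1
    linarith
  set Φ : Rs d × Rs d → ℝ := fun x => ∫ a, Fa_g x.1 x.2 a * ρ a with hΦ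
  set T : Set ℝ := Φ '' {x | x.2 ∈ Fwd} with hT
  have hTne : T.Nonempty := ⟨_, ⟨(0, (1, 0)), Fa_e_mem, rfl⟩⟩
  have hTb : BddBelow T := by
    refine ⟨-(((d : ℝ) + 1)⁻¹ * (Real.log C * (∫ a, ρ a) + ∫ a : Rs d, ‖w a‖ ^ (-((d : ℝ) + 1)))), ?_⟩
    rintro _ ⟨x, hx, rfl⟩
    exact Fa_lower ρ h0 C hCpos hρC hi x.1 x.2 hx
  obtain ⟨_, ⟨⟨c0, v0⟩, hv0, rfl⟩, hlt⟩ := exists_lt_of_csInf_lt hTne
    (show sInf T < sInf T + s * (ε / 2) * N by
      have : 0 < s * (ε / 2) * N := by positivity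
      linarith)
  have hv0' : v0 ∈ Fwd := hv0
  refine ⟨v0, hv0', c0, fun p q hp hq => ?_⟩
  have hmeasT : Continuous fun a => boost (Fa_inv v0) (a - c0) :=
    (Fa_cont_boost _).comp (continuous_id.sub continuous_const)
  have one_side : ∀ p q : Rs d, ‖p‖ ≤ 1 → ‖q‖ ≤ 1 →
      -(ε * N) ≤ ∫ a, Fa_D p q (boost (Fa_inv v0) (a - c0)) * ρ a := by
    intro p q hp hq
    have hDi : Integrable fun a => Fa_D p q (boost (Fa_inv v0) (a - c0)) * ρ a :=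
      hi.bdd_mul ((Fa_D_cont p q).comp hmeasT).aestronglyMeasurable
        (Filter.Eventually.of_forall fun a => Fa_D_le p q _ hp hq)
    set c1 := c0 + boost v0 (s • p) with hc1
    set v1 := boost v0 ((1, 0) + s • q) with hv1
    have hv1m : v1 ∈ Fwd := boost_mem_Fwd v0 hv0' _ (Fa_mem q hq s hs0 hs1)
    have hge : sInf T ≤ Φ (c1, v1) := csInf_le hTb ⟨(c1, v1), hv1m, rfl⟩
    obtain ⟨K0, hK0⟩ := Fa_g_bdd c0 v0 hv0'
    obtain ⟨K1, hK1⟩ := Fa_g_bdd c1 v1 hv1m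
    have hi0 : Integrable fun a => Fa_g c0 v0 a * ρ a :=
      hi.bdd_mul (Fa_g_meas c0 v0).aestronglyMeasurable (Filter.Eventually.of_forall hK0)
    have hi1 : Integrable fun a => Fa_g c1 v1 a * ρ a :=
      hi.bdd_mul (Fa_g_meas c1 v1).aestronglyMeasurable (Filter.Eventually.of_forall hK1)
    have hle : Φ (c1, v1) - Φ (c0, v0) ≤
        s * (∫ a, Fa_D p q (boost (Fa_inv v0) (a - c0)) * ρ a) + Fa_K d * s ^ 2 * N := by
      have e1 : Φ (c1, v1) - Φ (c0, v0) = ∫ a, (Fa_g c1 v1 a * ρ a - Fa_g c0 v0 a * ρ a) :=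
        (integral_sub hi1 hi0).symm
      have e2 : s * (∫ a, Fa_D p q (boost (Fa_inv v0) (a - c0)) * ρ a) + Fa_K d * s ^ 2 * N =
          ∫ a, (s * (Fa_D p q (boost (Fa_inv v0) (a - c0)) * ρ a) + Fa_K d * s ^ 2 * ρ a) := by
        rw [integral_add (hDi.const_mul _) (hi.const_mul _), integral_const_mul,
          integral_const_mul]
      rw [e1, e2]
      refine integral_mono (hi1.sub hi0) ((hDi.const_mul _).add (hi.const_mul _)) fun a => ?_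
      have h1 := Fa_g_diff c0 v0 hv0' p q hq s hs0 hs1 a
      have h2 := Fa_point p q (boost (Fa_inv v0) (a - c0)) hp hq s hs0 hs1
      rw [← h1, ← hc1, ← hv1] at h2
      have h3 := mul_le_mul_of_nonneg_right h2 (h0 a)
      simp only
      nlinarith
    have h4 : -(s * (ε / 2) * N) ≤ Φ (c1, v1) - Φ (c0, v0) := by
      have : Φ (c0, v0) < sInf T + s * (ε / 2) * N := hlt
      linarith
    have hN0 : 0 < N := hpos
    have h5 : s * (-(ε * N)) ≤ s * ∫ a, Fa_D p q (boost (Fa_inv v0) (a - c0)) * ρ a := by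
      have h6 : Fa_K d * s ^ 2 * N ≤ s * (ε / 2) * N := by
        have : Fa_K d * s ^ 2 ≤ s * (ε / 2) := by nlinarith
        exact mul_le_mul_of_nonneg_right this hN0.le
      linarith
    exact le_of_mul_le_mul_left h5 hs0
  rw [abs_le]
  refine ⟨one_side p q hp hq, ?_⟩
  have h := one_side (-p) (-q) (by rwa [norm_neg]) (by rwa [norm_neg])
  simp only [Fa_D_neg, neg_mul, integral_neg] at h
  linarith

/-- Fa : almost centering of a density by a boost and a translation -/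
theorem almost_center [Fact (2 ≤ d)] (ρ : Rs d → ℝ) (hm : Measurable ρ) (h0 : ∀ a, 0 ≤ ρ a)
    (hρ : ∃ C : ℝ, ∀ a, ρ a ≤ C * ‖w a‖ ^ (-((d : ℝ) + 1))) (hpos : 0 < ∫ a, ρ a) (ε : ℝ) (hε : 0 < ε) :
    ∃ v ∈ Fwd, ∃ c : Rs d, ∀ j, ‖∫ a, X j (boost v (a - c)) * (ρ a : ℂ)‖ ≤ ε * ∫ a, ρ a := by
  obtain ⟨v0, hv0, c0, h⟩ := Fa_core ρ h0 hρ hpos (ε / 2) (by positivity)
  have hi : Integrable ρ := by
    by_contra hn
    rw [integral_undef hn] at hpos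
    exact lt_irrefl _ hpos
  refine ⟨Fa_inv v0, Fa_inv_mem v0 hv0, c0, fun j => ?_⟩
  have hmeasT : Continuous fun a => boost (Fa_inv v0) (a - c0) :=
    (Fa_cont_boost _).comp (continuous_id.sub continuous_const)
  have hXi : Integrable fun a => X j (boost (Fa_inv v0) (a - c0)) * (ρ a : ℂ) :=
    hi.ofReal.bdd_mul ((Fa_cont_X j).comp hmeasT).aestronglyMeasurable
      (Filter.Eventually.of_forall fun a => Fa_X_le j _)
  have key : ∀ f : Rs d → ℝ, (∃ p q : Rs d, ‖p‖ ≤ 1 ∧ ‖q‖ ≤ 1 ∧ ∀ b, f b = Fa_D p q b) →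
      |∫ a, f (boost (Fa_inv v0) (a - c0)) * ρ a| ≤ ε / 2 * ∫ a, ρ a := by
    rintro f ⟨p, q, hp, hq, hf⟩
    simp only [hf]
    exact h p q hp hq
  have hre : |∫ a, (X j (boost (Fa_inv v0) (a - c0))).re * ρ a| ≤ ε / 2 * ∫ a, ρ a := by
    refine Fin.cases ?_ (fun i => ?_) j
    · refine key (fun b => (X 0 b).re) ⟨0, (1, 0), by simp, by simp, fun b => ?_⟩
      unfold Fa_D Fa_M Fa_z
      simp
    · have h1 := key (fun b => -(X i.succ b).re)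
        ⟨(0, EuclideanSpace.single i 1), 0, by simp, by simp, fun b => ?_⟩
      · simpa [neg_mul, integral_neg] using h1
      · unfold Fa_D Fa_M Fa_z
        simp
  have him : |∫ a, (X j (boost (Fa_inv v0) (a - c0))).im * ρ a| ≤ ε / 2 * ∫ a, ρ a := by
    refine Fin.cases ?_ (fun i => ?_) j
    · refine key (fun b => (X 0 b).im) ⟨(1, 0), 0, by simp, by simp, fun b => ?_⟩
      unfold Fa_D Fa_M Fa_z
      simp
    · refine key (fun b => (X i.succ b).im)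
        ⟨0, (0, EuclideanSpace.single i 1), by simp, by simp, fun b => ?_⟩
      unfold Fa_D Fa_M Fa_z
      simp
  have e1 : (∫ a, X j (boost (Fa_inv v0) (a - c0)) * (ρ a : ℂ)).re =
      ∫ a, (X j (boost (Fa_inv v0) (a - c0))).re * ρ a := by
    have := (integral_re hXi).symm
    simp only [RCLike.re_to_complex, Complex.re_mul_ofReal] at this
    exact this
  have e2 : (∫ a, X j (boost (Fa_inv v0) (a - c0)) * (ρ a : ℂ)).im =
      ∫ a, (X j (boost (Fa_inv v0) (a - c0))).im * ρ a := by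
    have := (integral_im hXi).symm
    simp only [RCLike.im_to_complex, Complex.im_mul_ofReal] at this
    exact this
  refine (Complex.norm_le_abs_re_add_abs_im _).trans ?_
  rw [e1, e2]
  linarith

end Pool.Agent.ConeG
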