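import Pool.Agent.Work.MP_b0b133_an.G.Prof
import Pool.Agent.Work.MP_b0b133_an.G.E
import Pool.Agent.Work.MP_b0b133_an.G.F1c

/-!
# From exponentials to polynomials: `Conf (muX d)`
-/

set_option autoImplicit false
set_option linter.unusedVariables false
open MeasureTheory Complex Filter
open scoped ENNReal ComplexConjugate Topology

namespace Pool.Agent.ConeG

variable {d : ℕ} [Fact (2 ≤ d)]

local instance : IsProbabilityMeasure (mM d) := mM_prob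

/-- the extension operator on `L²` -/
noncomputable def TT : Lp ℂ 2 (sig d) →L[ℂ] Lp ℂ (pE d) (volume : Measure (Rs d)) :=
  (exists_ext (stri d)).choose

theorem TT_ext (f : Lp ℂ 2 (sig d)) (hf : Integrable f (sig d)) : TT f =ᵐ[volume] coneExt f :=
  (exists_ext (stri d)).choose_spec.1 f hf

theorem TT_S (f : ExpSpan d) : TT (U_S f) =ᵐ[volume] coneExt f.1 := by
  have h1 : Integrable (U_S f) (sig d) := (U_exp_int f.1 f.2).1.congr (U_S_coe f).symm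
  refine (TT_ext _ h1).trans ?_
  rw [Z_coneExt_congr _ _ (U_S_coe f)]

theorem TT_Th (g : Lp ℂ 2 (sig d)) : toM (TT g) =ᵐ[mM d] Th g := by
  obtain ⟨f, hf⟩ := Th_seq g
  have h1 : Tendsto (fun n => TT (U_S (f n))) atTop (𝓝 (TT g)) :=
    ((TT (d := d)).continuous.tendsto g).comp hf
  obtain ⟨ns, hns, h2⟩ := (tendstoInMeasure_of_tendsto_Lp h1).exists_seq_tendsto_ae
  have h3 : Tendsto (fun n => U_F (f (ns n))) atTop (𝓝 (Th g)) := by
    have := (((Th (d := d)).continuous.tendsto g).comp hf).comp hns.tendsto_atTop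
    simpa only [Function.comp_def, Th_S] using this
  obtain ⟨ms, hms, h4⟩ := (tendstoInMeasure_of_tendsto_Lp h3).exists_seq_tendsto_ae
  have h5 : ∀ᵐ a ∂(mM d), ∀ n, TT (U_S (f n)) a = coneExt (f n).1 a :=
    ae_all_iff.2 fun n => U3_ac.ae_le (TT_S (f n))
  have h6 : ∀ᵐ a ∂(mM d), ∀ n, U_F (f n) a = toM (coneExt (f n).1) a :=
    ae_all_iff.2 fun n => U_F_coe (f n)
  filter_upwards [U3_ac.ae_le h2, h4, h5, h6] with a e2 e4 e5 e6
  have e7 : Tendsto (fun i => toM (coneExt (f (ns (ms i))).1) a) atTop (𝓝 (toM (TT g) a)) := by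
    unfold toM
    refine Tendsto.const_mul _ ?_
    have := e2.comp hms.tendsto_atTop
    refine this.congr fun i => ?_
    simp only [Function.comp]
    exact e5 _
  have e8 : Tendsto (fun i => toM (coneExt (f (ns (ms i))).1) a) atTop (𝓝 (Th g a)) := by
    refine e4.congr fun i => ?_
    exact e6 _
  exact tendsto_nhds_unique e7 e8

/-- `∫ |T g|^p` -/
noncomputable def II (g : Lp ℂ 2 (sig d)) : ℝ := ∫ a, ‖TT g a‖ ^ pe d

/-- the moments -/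
noncomputable def JJ (j : Fin (d + 1)) (g : Lp ℂ 2 (sig d)) : ℂ :=
  ∫ a, X j a * ((‖TT g a‖ ^ pe d : ℝ) : ℂ)

theorem pe_one_lt : 1 < pe d := by linarith [pe_gt d]

theorem JJ_cont (j : Fin (d + 1)) : Continuous (JJ (d := d) j) := by
  have : Fact ((1 : ℝ≥0∞) ≤ ENNReal.ofReal (pe d)) := fact_pE (d := d)
  have h := G_continuous (m := (volume : Measure (Rs d))) (pe d) pe_one_lt (X j)
    (C0_continuous_X j).aestronglyMeasurable (C0_norm_X_le j)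
  exact h.comp (TT (d := d)).continuous

theorem II_cont : Continuous (II (d := d)) := by
  have : Fact ((1 : ℝ≥0∞) ≤ ENNReal.ofReal (pe d)) := fact_pE (d := d)
  have h := G_continuous (m := (volume : Measure (Rs d))) (pe d) pe_one_lt (fun _ => (1 : ℂ))
    aestronglyMeasurable_const (fun _ => by simp)
  have h2 := Complex.continuous_re.comp (h.comp (TT (d := d)).continuous)
  refine h2.congr fun g => ?_
  simp only [Function.comp, one_mul]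
  rw [integral_complex_ofReal, Complex.ofReal_re]
  rfl

theorem II_norm (g : Lp ℂ 2 (sig d)) : II g = ‖TT g‖ ^ pe d := by
  have h := G_norm_eq (pe d) pe_pos (TT g) (Lp.memLp (TT g))
  have h2 : ‖TT g‖ = (∫ x, ‖TT g x‖ ^ pe d) ^ (1 / pe d) := by
    rw [Lp.norm_def]
    exact h
  have h0 : 0 ≤ ∫ x, ‖TT g x‖ ^ pe d := integral_nonneg fun x => by positivity
  rw [h2, ← Real.rpow_mul h0, one_div, inv_mul_cancel₀ (pe_pos (d := d)).ne', Real.rpow_one]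
  rfl

theorem II_S (f : ExpSpan d) : II (U_S f) = ∫ a, ‖coneExt f.1 a‖ ^ pe d := by
  refine integral_congr_ae ?_
  filter_upwards [TT_S f] with a ha
  rw [ha]

theorem JJ_S (j : Fin (d + 1)) (f : ExpSpan d) :
    JJ j (U_S f) = ∫ a, X j a * ((‖coneExt f.1 a‖ ^ pe d : ℝ) : ℂ) := by
  refine integral_congr_ae ?_
  filter_upwards [TT_S f] with a ha
  rw [ha]

theorem evX_Th {P : Poly d} {g : Lp ℂ 2 (sig d)} (hg : Th g = U_ev P) :
    toM (TT g) =ᵐ[mM d] evX P := by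
  refine (TT_Th g).trans ?_
  rw [hg]
  exact U_ev_coe P

theorem II_poly {P : Poly d} {g : Lp ℂ 2 (sig d)} (hg : Th g = U_ev P) :
    II g = (mM0 d Set.univ).toReal * Ip (muX d) P := by
  have h1 := integral_toM (TT g) (Lp.aestronglyMeasurable (TT g))
  have h2 : Ip (muX d) P = ∫ a, ‖toM (TT g) a‖ ^ pe d ∂(mM d) := by
    unfold Ip
    rw [LX_integral (fun x => ‖ev P x‖ ^ pe d)
      ((PE_cont_ev P).norm.rpow_const fun x => Or.inr pe_pos.le)]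
    refine integral_congr_ae ?_
    filter_upwards [evX_Th hg] with a ha
    rw [ha]
    rfl
  rw [h2]
  exact h1

theorem JJ_poly {P : Poly d} {g : Lp ℂ 2 (sig d)} (hg : Th g = U_ev P) (j : Fin (d + 1)) :
    JJ j g = ((mM0 d Set.univ).toReal : ℂ) *
      ∫ x, x j * ((‖ev P x‖ ^ pe d : ℝ) : ℂ) ∂(muX d) := by
  have h1 := integral_X_toM (TT g) (Lp.aestronglyMeasurable (TT g)) j
  have h2 : ∫ x, x j * ((‖ev P x‖ ^ pe d : ℝ) : ℂ) ∂(muX d) =
      ∫ a, X j a * ((‖toM (TT g) a‖ ^ pe d : ℝ) : ℂ) ∂(mM d) := by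
    have hc : Continuous fun x : CC d => x j * ((‖ev P x‖ ^ pe d : ℝ) : ℂ) :=
      (continuous_apply j).mul (Complex.continuous_ofReal.comp
        ((PE_cont_ev P).norm.rpow_const fun x => Or.inr pe_pos.le))
    rw [LX_integral _ hc]
    refine integral_congr_ae ?_
    filter_upwards [evX_Th hg] with a ha
    rw [ha]
    rfl
  rw [h2]
  exact h1

theorem P0_poly {P : Poly d} (h : P ∈ HP d) : ‖U_P 0 (U_ev P)‖ = ‖ev P 0‖ := by
  have h1 : ‖U_P 0 (U_ev P)‖ ^ 2 = ‖ev P 0‖ ^ 2 := by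
    rw [U_P_ev h, U_ev_normsq, MvPolynomial.homogeneousComponent_zero]
    have e : ∀ a : Rs d, evX (MvPolynomial.C (MvPolynomial.coeff 0 P)) a = ev P (0 : CC d) := fun a => by
      unfold evX ev
      rw [MvPolynomial.eval_C, MvPolynomial.eval_zero, MvPolynomial.constantCoeff_eq]
    simp only [e]
    rw [integral_const]
    simp
  exact (pow_left_inj₀ (norm_nonneg _) (norm_nonneg _) two_ne_zero).1 h1

theorem P1_poly {P : Poly d} (h : P ∈ HP d) :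
    ∫ x, ‖ev (MvPolynomial.homogeneousComponent 1 P) x‖ ^ 2 ∂(muX d) = ‖U_P 1 (U_ev P)‖ ^ 2 := by
  rw [U_P_ev h, U_ev_normsq, LX_integral (fun x =>
    ‖ev (MvPolynomial.homogeneousComponent 1 P) x‖ ^ 2) ((PE_cont_ev _).norm.pow 2)]
  rfl

/-- a dense subspace is dense in the sphere -/
theorem G_sphere {E : Type*} [NormedAddCommGroup E] [NormedSpace ℂ E] (D : Submodule ℂ E)
    (hD : Dense (D : Set E)) (g : E) (hg : g ≠ 0) (δ : ℝ) (hδ : 0 < δ) :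
    ∃ h ∈ D, ‖h‖ = ‖g‖ ∧ ‖h - g‖ < δ := by
  have hg0 : 0 < ‖g‖ := norm_pos_iff.2 hg
  obtain ⟨h, hhD, hh⟩ := Metric.mem_closure_iff.1 (hD g) (min (δ / 2) ‖g‖) (by positivity)
  have h1 : ‖h - g‖ < δ / 2 := by
    rw [← dist_eq_norm, dist_comm]; exact hh.trans_le (min_le_left _ _)
  have h2 : ‖h - g‖ < ‖g‖ := by
    rw [← dist_eq_norm, dist_comm]; exact hh.trans_le (min_le_right _ _)
  have h3 : 0 < ‖h‖ := by
    refine norm_pos_iff.2 fun h0 => ?_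
    rw [h0, zero_sub, norm_neg] at h2
    exact lt_irrefl _ h2
  refine ⟨((‖g‖ / ‖h‖ : ℝ) : ℂ) • h, D.smul_mem _ hhD, ?_, ?_⟩
  · rw [norm_smul, Complex.norm_real, Real.norm_of_nonneg (by positivity)]
    field_simp
  · have h4 : ‖((‖g‖ / ‖h‖ : ℝ) : ℂ) • h - h‖ = |‖g‖ - ‖h‖| := by
      have e : ((‖g‖ / ‖h‖ : ℝ) : ℂ) • h - h = ((‖g‖ / ‖h‖ - 1 : ℝ) : ℂ) • h := by
        push_cast
        rw [sub_smul, one_smul]
      rw [e, norm_smul, Complex.norm_real, Real.norm_eq_abs]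
      have e2 : ‖g‖ / ‖h‖ - 1 = (‖g‖ - ‖h‖) / ‖h‖ := by field_simp
      rw [e2, abs_div, abs_of_pos h3]
      field_simp
    have h5 : |‖g‖ - ‖h‖| ≤ ‖h - g‖ := by
      rw [abs_sub_comm]; exact abs_norm_sub_norm_le h g
    calc ‖((‖g‖ / ‖h‖ : ℝ) : ℂ) • h - g‖ = ‖(((‖g‖ / ‖h‖ : ℝ) : ℂ) • h - h) + (h - g)‖ := by
          congr 1; abel
      _ ≤ ‖((‖g‖ / ‖h‖ : ℝ) : ℂ) • h - h‖ + ‖h - g‖ := norm_add_le _ _
      _ < δ := by rw [h4]; linarith

/-- the near maximal overlap, for exponentials -/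
def NearOvl (d : ℕ) [Fact (2 ≤ d)] : Prop :=
  ∀ f : ExpSpan d, ∫ ξ, ‖f.1 ξ‖ ^ 2 ∂(sig d) ≠ 0 → ∀ ε > 0, ∃ f' : ExpSpan d,
    ∫ ξ, ‖f'.1 ξ‖ ^ 2 ∂(sig d) = ∫ ξ, ‖f.1 ξ‖ ^ 2 ∂(sig d) ∧
    ∫ a, ‖coneExt f'.1 a‖ ^ pe d = ∫ a, ‖coneExt f.1 a‖ ^ pe d ∧
    ‖U_P 0 (U_F f)‖ ≤ ‖U_P 0 (U_F f')‖ ∧ ‖U_P 1 (U_F f')‖ ≤ ε

/-- a continuous real function is within `ε` near a point -/
theorem G_near {E : Type*} [NormedAddCommGroup E] {F : Type*} [NormedAddCommGroup F] (φ : E → F)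
    (hφ : Continuous φ) (g : E) (ε : ℝ) (hε : 0 < ε) :
    ∃ δ > 0, ∀ h, ‖h - g‖ < δ → ‖φ h - φ g‖ < ε := by
  obtain ⟨δ, hδ, h⟩ := Metric.continuous_iff.1 hφ g ε hε
  exact ⟨δ, hδ, fun x hx => by
    have := h x (by rwa [dist_eq_norm])
    rwa [dist_eq_norm] at this⟩

/-- the approximation scheme -/
theorem G_scheme {P : Poly d} (hP : P ∈ HP d) (hE : En (muX d) P = 1) (ε : ℝ) (hε : 0 < ε)
    (F : Type*) [NormedAddCommGroup F] (Φ : Lp ℂ 2 (sig d) → F) (hΦ : Continuous Φ)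
    (R : ExpSpan d → ExpSpan d → Prop)
    (hR : ∀ f : ExpSpan d, U_S f ≠ 0 → ∃ f' : ExpSpan d, R f f' ∧ ‖U_S f'‖ = ‖U_S f‖) :
    ∃ g : Lp ℂ 2 (sig d), Th g = U_ev P ∧ ∃ f f' : ExpSpan d, R f f' ∧ ‖Φ (U_S f) - Φ g‖ < ε ∧
      ∃ Q ∈ HP d, En (muX d) Q = 1 ∧ ∃ h, Th h = U_ev Q ∧ ‖Φ h - Φ (U_S f')‖ < ε := by
  obtain ⟨g, hg⟩ := Th_surj hP
  have hk := kE_pos (d := d)
  have hgE := En_of_Th hP g hg
  rw [hE] at hgE
  have hg0 : g ≠ 0 := by
    rintro rfl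
    simp at hgE
  obtain ⟨δ, hδ, hδ'⟩ := G_near Φ hΦ g ε hε
  obtain ⟨h0, ⟨f, rfl⟩, h1, h2⟩ := G_sphere (LinearMap.range (U_S (d := d))) (by
    have := G_denseRange (d := d)
    exact this) g hg0 δ hδ
  have hf0 : U_S f ≠ 0 := by
    rw [← norm_pos_iff, h1]
    exact norm_pos_iff.2 hg0
  obtain ⟨f', hR1, hR2⟩ := hR f hf0
  have hf0' : U_S f' ≠ 0 := by
    rw [← norm_pos_iff, hR2, h1]
    exact norm_pos_iff.2 hg0
  obtain ⟨δ2, hδ2, hδ2'⟩ := G_near Φ hΦ (U_S f') ε hε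
  obtain ⟨h, hh, h3, h4⟩ := G_sphere (PProf d) PProf_dense (U_S f') hf0' δ2 hδ2
  obtain ⟨Q, hQ, hQe⟩ := mem_PProf.1 hh
  refine ⟨g, hg, f, f', hR1, hδ' _ h2, Q, hQ, ?_, h, hQe, hδ2' _ h4⟩
  rw [En_of_Th hQ h hQe, h3, hR2, h1, ← hgE]

theorem conf_fin : ∃ C : ℝ, ∀ P ∈ HP d, Ip (muX d) P ≤ C * En (muX d) P ^ (pe d / 2) := by
  have hM := U3_mass_pos (d := d)
  have hk := kE_pos (d := d)
  refine ⟨(mM0 d Set.univ).toReal⁻¹ * ‖(TT (d := d))‖ ^ pe d * (kE d)⁻¹ ^ (pe d / 2),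
    fun P hP => ?_⟩
  obtain ⟨g, hg⟩ := Th_surj hP
  have h1 := II_poly hg
  have h2 : Ip (muX d) P = (mM0 d Set.univ).toReal⁻¹ * II g := by
    rw [h1, ← mul_assoc, inv_mul_cancel₀ hM.ne', one_mul]
  have h3 : II g ≤ (‖(TT (d := d))‖ * ‖g‖) ^ pe d := by
    rw [II_norm]
    exact Real.rpow_le_rpow (norm_nonneg _) ((TT (d := d)).le_opNorm g) pe_pos.le
  rw [Real.mul_rpow (norm_nonneg _) (norm_nonneg _)] at h3
  have h4 : ‖g‖ ^ pe d = (kE d)⁻¹ ^ (pe d / 2) * En (muX d) P ^ (pe d / 2) := by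
    rw [En_of_Th hP g hg, ← Real.mul_rpow (by positivity) (by positivity), ← mul_assoc,
      inv_mul_cancel₀ hk.ne', one_mul, ← Real.rpow_natCast, ← Real.rpow_mul (norm_nonneg _)]
    congr 1
    push_cast
    ring
  rw [h4] at h3
  rw [h2]
  calc (mM0 d Set.univ).toReal⁻¹ * II g ≤ (mM0 d Set.univ).toReal⁻¹ *
        (‖(TT (d := d))‖ ^ pe d * ((kE d)⁻¹ ^ (pe d / 2) * En (muX d) P ^ (pe d / 2))) :=
        mul_le_mul_of_nonneg_left h3 (by positivity)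
    _ = _ := by ring

theorem US_ne {f : ExpSpan d} (hf : U_S f ≠ 0) : ∫ ξ, ‖f.1 ξ‖ ^ 2 ∂(sig d) ≠ 0 := by
  rw [← U_S_norm]
  exact pow_ne_zero 2 (norm_ne_zero_iff.2 hf)

theorem US_eq {f f' : ExpSpan d}
    (h : ∫ ξ, ‖f'.1 ξ‖ ^ 2 ∂(sig d) = ∫ ξ, ‖f.1 ξ‖ ^ 2 ∂(sig d)) : ‖U_S f'‖ = ‖U_S f‖ := by
  rw [← U_S_norm, ← U_S_norm] at h
  exact (pow_left_inj₀ (norm_nonneg _) (norm_nonneg _) two_ne_zero).1 h

theorem conf_cent (P : Poly d) (hP : P ∈ HP d) (hE : En (muX d) P = 1) (ε : ℝ) (hε : 0 < ε) :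
    ∃ Q ∈ HP d, En (muX d) Q = 1 ∧ Ip (muX d) P - ε ≤ Ip (muX d) Q ∧
    ∀ j, ‖∫ x, x j * ((‖ev Q x‖ ^ pe d : ℝ) : ℂ) ∂(muX d)‖ ≤ ε := by
  have hM := U3_mass_pos (d := d)
  set M := (mM0 d Set.univ).toReal with hMdef
  set ε0 : ℝ := M * ε / 4 with hε0
  have hε0p : 0 < ε0 := by positivity
  have hIp : 0 ≤ Ip (muX d) P := integral_nonneg fun x => by positivity
  set ε1 : ℝ := ε0 / (M * Ip (muX d) P + ε0 + 1) with hε1
  have hε1p : 0 < ε1 := by positivity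
  obtain ⟨g, hg, f, f', ⟨hR1, hR2⟩, h1, Q, hQ, hQE, h, hh, h2⟩ := G_scheme hP hE ε0 hε0p
    (ℝ × (Fin (d + 1) → ℂ)) (fun g => (II g, fun j => JJ j g))
    ((II_cont (d := d)).prodMk (continuous_pi fun j => JJ_cont j))
    (fun f f' => II (U_S f') = II (U_S f) ∧ ∀ j, ‖JJ j (U_S f')‖ ≤ ε1 * II (U_S f)) (by
      intro f hf
      obtain ⟨f', hf', e1, e2, e3⟩ := centering f.1 f.2 (US_ne hf) ε1 hε1p
      refine ⟨⟨f', hf'⟩, ⟨?_, fun j => ?_⟩, US_eq e1⟩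
      · rw [II_S, II_S]; exact e2
      · rw [II_S, JJ_S]; exact e3 j)
  have a1 : |II (U_S f) - II g| < ε0 := by
    have := (norm_fst_le ((II (U_S f), fun j => JJ j (U_S f)) - (II g, fun j => JJ j g))).trans_lt h1
    simpa [Real.norm_eq_abs] using this
  have a2 : |II h - II (U_S f')| < ε0 := by
    have := (norm_fst_le ((II h, fun j => JJ j h) - (II (U_S f'), fun j => JJ j (U_S f')))).trans_lt h2
    simpa [Real.norm_eq_abs] using this
  have a3 : ∀ j, ‖JJ j h - JJ j (U_S f')‖ < ε0 := fun j => by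
    have := (norm_snd_le ((II h, fun j => JJ j h) - (II (U_S f'), fun j => JJ j (U_S f')))).trans_lt h2
    exact (norm_le_pi_norm ((II h, fun j => JJ j h) - (II (U_S f'), fun j => JJ j (U_S f'))).2
      j).trans_lt this
  have a4 := II_poly hg
  have a5 := II_poly hh
  rw [hR1] at a2
  have b1 := abs_lt.1 a1
  have b2 := abs_lt.1 a2
  refine ⟨Q, hQ, hQE, ?_, fun j => ?_⟩
  · have c1 : M * (Ip (muX d) P - ε) ≤ M * Ip (muX d) Q := by
      rw [mul_sub, ← a4, ← a5]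
      linarith [b1.1, b2.1]
    exact le_of_mul_le_mul_left c1 hM
  · have c1 := JJ_poly hh j
    have c2 : ‖JJ j h‖ = M * ‖∫ x, x j * ((‖ev Q x‖ ^ pe d : ℝ) : ℂ) ∂(muX d)‖ := by
      rw [c1, norm_mul, Complex.norm_real, Real.norm_eq_abs, abs_of_pos hM]
    have c3 : ‖JJ j h‖ ≤ ‖JJ j (U_S f')‖ + ε0 := by
      have := norm_add_le (JJ j (U_S f')) (JJ j h - JJ j (U_S f'))
      rw [add_sub_cancel] at this
      linarith [a3 j]
    have c4 : ε1 * II (U_S f) ≤ ε0 := by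
      have e1 : II (U_S f) ≤ M * Ip (muX d) P + ε0 + 1 := by
        rw [← a4]
        linarith [b1.2]
      calc ε1 * II (U_S f) ≤ ε1 * (M * Ip (muX d) P + ε0 + 1) :=
            mul_le_mul_of_nonneg_left e1 hε1p.le
        _ = ε0 := by rw [hε1]; field_simp
    have c5 : M * ‖∫ x, x j * ((‖ev Q x‖ ^ pe d : ℝ) : ℂ) ∂(muX d)‖ ≤ M * ε := by
      rw [← c2]
      have := hR2 j
      linarith
    exact le_of_mul_le_mul_left c5 hM

theorem conf_ovl (hov : NearOvl d) (P : Poly d) (hP : P ∈ HP d) (hE : En (muX d) P = 1) (ε : ℝ)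
    (hε : 0 < ε) :
    ∃ Q ∈ HP d, En (muX d) Q = 1 ∧ Ip (muX d) P - ε ≤ Ip (muX d) Q ∧
    ‖ev P 0‖ - ε ≤ ‖ev Q 0‖ ∧
      ∫ x, ‖ev (MvPolynomial.homogeneousComponent 1 Q) x‖ ^ 2 ∂(muX d) ≤ ε := by
  have hM := U3_mass_pos (d := d)
  set M := (mM0 d Set.univ).toReal with hMdef
  have hsq : 0 < √ε := Real.sqrt_pos.2 hε
  set ε0 : ℝ := min (M * ε / 4) (min (ε / 4) (√ε / 4)) with hε0
  have hε0p : 0 < ε0 := by positivity
  have k1 : ε0 ≤ M * ε / 4 := min_le_left _ _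
  have k2 : ε0 ≤ ε / 4 := (min_le_right _ _).trans (min_le_left _ _)
  have k3 : ε0 ≤ √ε / 4 := (min_le_right _ _).trans (min_le_right _ _)
  obtain ⟨g, hg, f, f', ⟨hR1, hR2, hR3⟩, h1, Q, hQ, hQE, h, hh, h2⟩ := G_scheme hP hE ε0 hε0p
    (ℝ × Lp ℂ 2 (mM d) × Lp ℂ 2 (mM d)) (fun g => (II g, U_P 0 (Th g), U_P 1 (Th g)))
    ((II_cont (d := d)).prodMk (((U_P 0).continuous.comp (Th (d := d)).continuous).prodMk
      ((U_P 1).continuous.comp (Th (d := d)).continuous)))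
    (fun f f' => II (U_S f') = II (U_S f) ∧ ‖U_P 0 (Th (U_S f))‖ ≤ ‖U_P 0 (Th (U_S f'))‖ ∧
      ‖U_P 1 (Th (U_S f'))‖ ≤ ε0) (by
      intro f hf
      obtain ⟨f', e1, e2, e3, e4⟩ := hov f (US_ne hf) ε0 hε0p
      refine ⟨f', ⟨?_, ?_, ?_⟩, US_eq e1⟩
      · rw [II_S, II_S]; exact e2
      · rw [Th_S, Th_S]; exact e3
      · rw [Th_S]; exact e4)
  have a1 : |II (U_S f) - II g| < ε0 := by
    have := (norm_fst_le ((II (U_S f), U_P 0 (Th (U_S f)), U_P 1 (Th (U_S f))) -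
      (II g, U_P 0 (Th g), U_P 1 (Th g)))).trans_lt h1
    simpa [Real.norm_eq_abs] using this
  have a1' : ‖U_P 0 (Th (U_S f)) - U_P 0 (Th g)‖ < ε0 := by
    have := (norm_snd_le ((II (U_S f), U_P 0 (Th (U_S f)), U_P 1 (Th (U_S f))) -
      (II g, U_P 0 (Th g), U_P 1 (Th g)))).trans_lt h1
    exact (norm_fst_le _).trans_lt this
  have a2 : |II h - II (U_S f')| < ε0 := by
    have := (norm_fst_le ((II h, U_P 0 (Th h), U_P 1 (Th h)) -
      (II (U_S f'), U_P 0 (Th (U_S f')), U_P 1 (Th (U_S f'))))).trans_lt h2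
    simpa [Real.norm_eq_abs] using this
  have a2' := (norm_snd_le ((II h, U_P 0 (Th h), U_P 1 (Th h)) -
      (II (U_S f'), U_P 0 (Th (U_S f')), U_P 1 (Th (U_S f'))))).trans_lt h2
  have a3 : ‖U_P 0 (Th h) - U_P 0 (Th (U_S f'))‖ < ε0 := (norm_fst_le _).trans_lt a2'
  have a4 : ‖U_P 1 (Th h) - U_P 1 (Th (U_S f'))‖ < ε0 := (norm_snd_le _).trans_lt a2'
  have b1 := II_poly hg
  have b2 := II_poly hh
  rw [hR1] at a2
  have c1 := abs_lt.1 a1
  have c2 := abs_lt.1 a2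
  refine ⟨Q, hQ, hQE, ?_, ?_, ?_⟩
  · have e1 : M * (Ip (muX d) P - ε) ≤ M * Ip (muX d) Q := by
      rw [mul_sub, ← b1, ← b2]
      linarith [c1.1, c2.1]
    exact le_of_mul_le_mul_left e1 hM
  · rw [← P0_poly hP, ← P0_poly hQ, ← hg, ← hh]
    have e1 := norm_sub_norm_le (U_P 0 (Th g)) (U_P 0 (Th (U_S f)))
    rw [norm_sub_rev] at e1
    have e2 := norm_sub_norm_le (U_P 0 (Th (U_S f'))) (U_P 0 (Th h))
    rw [norm_sub_rev] at e2
    linarith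
  · rw [P1_poly hQ, ← hh]
    have e1 : ‖U_P 1 (Th h)‖ ≤ √ε := by
      have := norm_sub_norm_le (U_P 1 (Th h)) (U_P 1 (Th (U_S f')))
      linarith
    calc ‖U_P 1 (Th h)‖ ^ 2 ≤ √ε ^ 2 := pow_le_pow_left₀ (norm_nonneg _) e1 2
      _ = ε := Real.sq_sqrt hε.le

theorem conf_of_ovl (hov : NearOvl d) : Conf (muX d) where
  fin := conf_fin
  cent := conf_cent
  ovl := conf_ovl hov

/-- from polynomials back to exponentials -/
theorem sharp_of_poly (h : ∀ P ∈ HP d, Ip (muX d) P ≤ En (muX d) P ^ (pe d / 2)) : Sharp d := by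
  have hM := U3_mass_pos (d := d)
  have hk := kE_pos (d := d)
  have key : ∀ g : Lp ℂ 2 (sig d), II g ≤
      (mM0 d Set.univ).toReal * (kE d * ‖g‖ ^ 2) ^ (pe d / 2) := by
    intro g
    have hcl : IsClosed {g : Lp ℂ 2 (sig d) | II g ≤
        (mM0 d Set.univ).toReal * (kE d * ‖g‖ ^ 2) ^ (pe d / 2)} := by
      refine isClosed_le (II_cont (d := d)) (continuous_const.mul ?_)
      exact (continuous_const.mul (continuous_norm.pow 2)).rpow_const fun g =>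
        Or.inr (by linarith [pe_pos (d := d)])
    have hd : (Set.univ : Set (Lp ℂ 2 (sig d))) ⊆ {g : Lp ℂ 2 (sig d) | II g ≤
        (mM0 d Set.univ).toReal * (kE d * ‖g‖ ^ 2) ^ (pe d / 2)} := by
      rw [← (PProf_dense (d := d)).closure_eq]
      refine closure_minimal (fun g hg => ?_) hcl
      obtain ⟨P, hP, hgP⟩ := mem_PProf.1 hg
      show II g ≤ _
      rw [II_poly hgP, ← En_of_Th hP g hgP]
      exact mul_le_mul_of_nonneg_left (h P hP) hM.le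
    exact hd (Set.mem_univ g)
  refine sharp_of_pow fun f hf => ?_
  have h1 := key (U_S ⟨f, hf⟩)
  rw [II_S, U_S_norm] at h1
  exact h1

end Pool.Agent.ConeG
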