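import Pool.Agent.Work.MP_b0b133_an.G.OVL
import Pool.Agent.Work.MP_b0b133_an.G.Glue

set_option autoImplicit false

namespace Pool.Agent.ConeG

/-- the near maximal overlap, as a proposition of `Glue` -/
theorem nearOvl (d : ℕ) [Fact (2 ≤ d)] : NearOvl d := fun f hf ε hε => near_overlap f hf ε hε

end Pool.Agent.ConeG
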