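import Pool.Agent.Work.MP_b0b133_an.G.STAR

/-!
# The end game in dimension `d`, with a cost functional of the level law

* `el μ F l`: the energy of `F` at the level `l`; `Lev_el`, `sum_el`, `el_zero`.
* `FuncGF`: the functional inequality with a cost functional.
* `LawIneq`: the inequality for the level laws of near maximisers, STAR as a hypothesis.
* `sharp_of_law`: both imply `Sharp d`.
-/

set_option autoImplicit false
open MeasureTheory Complex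
open scoped ENNReal ComplexConjugate

namespace Pool.Agent.ConeG

variable {d : ℕ} {μ : Measure (CC d)}

/-- the energy at the level `l` -/
noncomputable def el (μ : Measure (CC d)) (F : Poly d) (l : ℕ) : ℝ :=
  (nu d)⁻¹ * ((l : ℝ) + nu d) * Alg.lv μ F l

namespace FINH

theorem el_nonneg (hν : 0 < nu d) (F : Poly d) (l : ℕ) : 0 ≤ el μ F l :=
  mul_nonneg (by positivity) (Alg.lv_nonneg F l)

theorem Lev_el (m : ℕ → ℝ) (F : Poly d) (n : ℕ) (hn : F.totalDegree < n) :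
    Lev μ m F = ∑ l ∈ Finset.range n, el μ F l * m l := by
  rw [FING.Lev_eq m F n hn]
  refine Finset.sum_congr rfl fun l _ => ?_
  unfold el
  ring

theorem sum_el (hμ : Law μ) (F : Poly d) (n : ℕ) (hn : F.totalDegree < n) :
    ∑ l ∈ Finset.range n, el μ F l = En μ F := by
  rw [← FING.Lev_one hμ, Lev_el _ F n hn]
  exact Finset.sum_congr rfl fun l _ => (mul_one _).symm

theorem el_zero (hν : 0 < nu d) (hμ : Law μ) (F : Poly d) : el μ F 0 = ‖ev F 0‖ ^ 2 := by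
  unfold el
  rw [Alg.lv_zero hμ, Nat.cast_zero, zero_add, inv_mul_cancel₀ hν.ne', one_mul]

end FINH

/-- the functional inequality with a cost functional -/
def FuncGF (μ : Measure (CC d)) (l1 l2 c a : ℝ) (Cst : Poly d → ℝ) : Prop :=
  ∀ S : ℝ, 1 ≤ S → Adm μ S → ∀ ψ ∈ HP d, En μ (AP ψ) = 1 →
    c * Ip μ (AP ψ) + a * Zq μ ψ ≤ DG μ l1 l2 ψ + S * Cst (AP ψ)

/-- the law inequality: `A` is the constant of STAR, `r1` the overlap bound, `η` the error of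
STAR -/
def LawIneq (μ : Measure (CC d)) (A r1 l1 l2 c a t B : ℝ) (Cst : Poly d → ℝ) : Prop :=
  ∀ F ∈ HP d, En μ F = 1 → ‖ev F 0‖ ≤ r1 → ∀ η : ℝ, 0 ≤ η →
    ‖ev F 0‖ ^ (2 - (pe d - 2)) - ‖ev F 0‖ ^ 2 ≤
      A * (Lev μ (xl d) F - ‖ev F 0‖ ^ 2) + η →
    t + (1 - (pe d - 2) + l1) + ((pe d - 2) - l1 + l2) * Lev μ (fun l => xl d l ^ 2) F + Cst F ≤
      c + a * Lev μ (xl d) F + B * η

namespace FINH

/-- a centred near maximiser is impossible if `S > 1` -/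
theorem no_gap_law [Fact (2 ≤ d)] (hd : 3 ≤ d) (hμ : Law μ) (hC : Conf μ) (hq1 : pe d - 2 ≤ 1)
    {κ : ℝ} (hκ : StarC (pe d - 2) κ) {r0 r1 : ℝ} (h0 : 0 < r0) (h01 : r0 < r1)
    (hφ : OvlC d κ r0) {S : ℝ} (hS : 1 < S) (hmax : Adm μ S)
    (hsup : ∀ ε > 0, ∃ P ∈ HP d, En μ P = 1 ∧ S - ε ≤ Ip μ P)
    {l1 l2 c a t B : ℝ} (hl1 : 0 ≤ l1) (hl2 : 0 ≤ l2) (hc : 0 ≤ c) (ht : 0 < t) (hB : 0 ≤ B)
    {Cst : Poly d → ℝ} (hG : FuncGF μ l1 l2 c a Cst)
    (hL : LawIneq μ ((2 * κ + (pe d - 2)) / 4) r1 l1 l2 c a t B Cst) : False := by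
  have hν := nu_pos d
  have hq0 : 0 < pe d - 2 := SV.qq_pos d
  set A := (2 * κ + (pe d - 2)) / 4 with hA
  obtain ⟨ε2, hε2, h2⟩ := STAR.overlap hd hμ hC hq1 hκ h0 h01 hφ hS hmax
  obtain ⟨C1, hC1, h3⟩ := FING.second_var_sum hd hμ hl1 hl2 S hS.le hmax
  obtain ⟨C2, hC2, h4⟩ := STAR.star hd hμ hq1 hκ hS.le hmax
  obtain ⟨C3, hC3, h5⟩ := FING.first_var_H hd hμ S hS.le hmax
  set p := min (pe d - 2) 1 / 4 with hp
  have hp0 : 0 < p := by
    rw [hp]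
    have := lt_min hq0 one_pos
    linarith
  have hp1 : p ≤ 1 / 2 := by
    rw [hp]
    have := min_le_right (pe d - 2) 1
    linarith
  have hS0 : 0 < S := by linarith
  -- the total error is at most `K ε ^ p`
  set K := c + |a| * C3 + C1 + S * (B * C2) + 1 with hK
  have hK0 : 0 < K := by positivity
  set s := (S * t / (2 * K)) ^ (1 / p) with hs
  have hs0 : 0 < s := Real.rpow_pos_of_pos (by positivity) _
  set ε := min ε2 (min 1 s) with hε
  have hε0 : 0 < ε := by positivity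
  have he2 : ε ≤ ε2 := min_le_left _ _
  have he3 : ε ≤ 1 := (min_le_right _ _).trans (min_le_left _ _)
  have he4 : ε ≤ s := (min_le_right _ _).trans (min_le_right _ _)
  have hεp : ε ^ p ≤ S * t / (2 * K) := by
    calc ε ^ p ≤ s ^ p := Real.rpow_le_rpow hε0.le he4 hp0.le
      _ = _ := by
        rw [hs, ← Real.rpow_mul (by positivity), one_div, inv_mul_cancel₀ hp0.ne', Real.rpow_one]
  have hεh : ε ^ (1 / 2 : ℝ) ≤ ε ^ p := Real.rpow_le_rpow_of_exponent_ge hε0 he3 hp1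
  have hε1 : ε ≤ ε ^ p := by
    have := Real.rpow_le_rpow_of_exponent_ge hε0 he3 (show p ≤ 1 by linarith)
    rwa [Real.rpow_one] at this
  have hεp0 : 0 ≤ ε ^ p := Real.rpow_nonneg hε0.le _
  have hKε : K * ε ^ p ≤ S * t / 2 := by
    have := mul_le_mul_of_nonneg_left hεp hK0.le
    have e : K * (S * t / (2 * K)) = S * t / 2 := by field_simp
    rwa [e] at this
  obtain ⟨P, hP, hPE, hPI⟩ := hsup (ε / 2) (by positivity)
  obtain ⟨F, hF, hFE, hFI, hFc⟩ := hC.cent P hP hPE (ε / 2) (by positivity)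
  have hFn : S - ε ≤ Ip μ F := by linarith
  obtain ⟨ψ, hψ, rfl⟩ := AP_surj hν F hF
  have a2 := h2 (AP ψ) hF hFE (by linarith)
  have a3 := h3 ψ hψ ε hε0 he3 hFE hFn fun j => (hFc j).trans (by linarith)
  have a4 := h4 (AP ψ) hF ε hε0 he3 hFE hFn
  have a5 := h5 ψ hψ ε hε0 he3 hFE hFn
  have a6 := hG S hS.le hmax ψ hψ hFE
  rw [← hA] at a4
  set r := ‖ev (AP ψ) 0‖ with hr
  have hr0 : 0 ≤ r := norm_nonneg _
  set X1 := Lev μ (xl d) (AP ψ) with hX1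
  have eX1 : ∫ x, ‖ev (AP ψ) x‖ ^ 2 ∂μ = X1 := (FING.Lev_x hν hμ (AP ψ)).symm
  rw [eX1] at a4
  rw [← FING.Lev_x2 hν hμ] at a3
  set X2' := Lev μ (fun l => xl d l ^ 2) (AP ψ) with hX2
  -- STAR
  set η := C2 * ε ^ (1 / 2 : ℝ) with hη
  have hη0 : 0 ≤ η := mul_nonneg hC2 (Real.rpow_nonneg hε0.le _)
  have c1 : r ^ (2 - (pe d - 2)) - r ^ 2 ≤ A * (X1 - r ^ 2) + η := by
    have : r ^ (2 - (pe d - 2)) ≤ S * r ^ (2 - (pe d - 2)) := by
      have := Real.rpow_nonneg hr0 (2 - (pe d - 2))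
      nlinarith
    linarith
  have c2 := hL (AP ψ) hF hFE a2 η hη0 c1
  -- the errors
  have d1 : c * ε ≤ c * ε ^ p := mul_le_mul_of_nonneg_left hε1 hc
  have d2 : |a * (Zq μ ψ - S * X1)| ≤ |a| * C3 * ε ^ p := by
    rw [abs_mul, mul_assoc]
    exact mul_le_mul_of_nonneg_left (a5.trans (mul_le_mul_of_nonneg_left hεh hC3)) (abs_nonneg _)
  have d3 : S * (B * η) ≤ S * (B * C2) * ε ^ p := by
    have : B * η ≤ B * C2 * ε ^ p := by
      rw [hη, mul_assoc]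
      exact mul_le_mul_of_nonneg_left (mul_le_mul_of_nonneg_left hεh hC2) hB
    calc S * (B * η) ≤ S * (B * C2 * ε ^ p) := mul_le_mul_of_nonneg_left this hS0.le
      _ = _ := by ring
  have d4 := (abs_le.1 d2).1
  have d5 : c * (S - ε) ≤ c * Ip μ (AP ψ) := mul_le_mul_of_nonneg_left hFn hc
  have d6 : K * ε ^ p = c * ε ^ p + |a| * C3 * ε ^ p + C1 * ε ^ p + S * (B * C2) * ε ^ p +
      ε ^ p := by rw [hK]; ring
  have d7 : S * (t + (1 - (pe d - 2) + l1) + ((pe d - 2) - l1 + l2) * X2' + Cst (AP ψ)) ≤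
      S * (c + a * X1 + B * η) := mul_le_mul_of_nonneg_left c2 hS0.le
  have d8 : 0 < S * t := by positivity
  linarith [d1, d3, d4, d5, d6, d7, d8, a3, a6, hKε, hεp0]

end FINH

/-- from the functional inequality with a cost functional and the law inequality to the sharp
inequality for harmonic polynomials -/
theorem poly_of_law [Fact (2 ≤ d)] (hd : 3 ≤ d) (hμ : Law μ) (hC : Conf μ)
    (hq1 : pe d - 2 ≤ 1) {κ : ℝ} (hκ : StarC (pe d - 2) κ) {r0 r1 : ℝ} (h0 : 0 < r0)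
    (h01 : r0 < r1) (hφ : OvlC d κ r0)
    {l1 l2 c a t B : ℝ} (hl1 : 0 ≤ l1) (hl2 : 0 ≤ l2) (hc : 0 ≤ c) (ht : 0 < t) (hB : 0 ≤ B)
    {Cst : Poly d → ℝ} (hG : FuncGF μ l1 l2 c a Cst)
    (hL : LawIneq μ ((2 * κ + (pe d - 2)) / 4) r1 l1 l2 c a t B Cst)
    (P : Poly d) (h : P ∈ HP d) : Ip μ P ≤ En μ P ^ (pe d / 2) := by
  have hp := hμ.prob
  have hν := nu_pos d
  obtain ⟨C, hCC⟩ := hC.fin
  set T : Set ℝ := {t | ∃ P ∈ HP d, En μ P = 1 ∧ Ip μ P = t} with hT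
  have h1T : (1 : ℝ) ∈ T := by
    refine ⟨1, FING.one_mem, (EB_one hν hμ 1).2, ?_⟩
    unfold Ip
    simp [FING.ev_one]
  have hbdd : BddAbove T := by
    refine ⟨C, ?_⟩
    rintro t ⟨P, hP, hE, rfl⟩
    have := hCC P hP
    rwa [hE, Real.one_rpow, mul_one] at this
  set S := sSup T with hS
  have hS1 : 1 ≤ S := le_csSup hbdd h1T
  have hle : ∀ P ∈ HP d, En μ P = 1 → Ip μ P ≤ S := fun P hP hE =>
    le_csSup hbdd ⟨P, hP, hE, rfl⟩
  have hmax : Adm μ S := fun P hP => FING.scale hμ ⟨C, hCC⟩ hle P hP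
  have hS1' : S ≤ 1 := by
    by_contra hcon
    push Not at hcon
    refine FINH.no_gap_law hd hμ hC hq1 hκ h0 h01 hφ hcon hmax (fun ε hε => ?_) hl1 hl2 hc ht hB
      hG hL
    obtain ⟨t, ⟨P, hP, hE, rfl⟩, ht⟩ := exists_lt_of_lt_csSup ⟨1, h1T⟩
      (show S - ε < sSup T by linarith)
    exact ⟨P, hP, hE, ht.le⟩
  have h2 := FING.scale hμ ⟨C, hCC⟩ (fun P hP hE => (hle P hP hE).trans hS1') P h
  rwa [one_mul] at h2

/-- from the functional inequality with a cost functional and the law inequality to `Sharp d` -/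
theorem sharp_of_law [Fact (2 ≤ d)] (hd : 3 ≤ d) (hq1 : pe d - 2 ≤ 1) {κ : ℝ}
    (hκ : StarC (pe d - 2) κ) {r0 r1 : ℝ} (h0 : 0 < r0) (h01 : r0 < r1) (hφ : OvlC d κ r0)
    {l1 l2 c a t B : ℝ} (hl1 : 0 ≤ l1) (hl2 : 0 ≤ l2) (hc : 0 ≤ c) (ht : 0 < t) (hB : 0 ≤ B)
    {Cst : Poly d → ℝ} (hG : FuncGF (muX d) l1 l2 c a Cst)
    (hL : LawIneq (muX d) ((2 * κ + (pe d - 2)) / 4) r1 l1 l2 c a t B Cst) : Sharp d :=
  sharp_of_poly fun P hP => poly_of_law hd law_muX (conf_of_ovl (nearOvl d)) hq1 hκ h0 h01 hφ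
    hl1 hl2 hc ht hB hG hL P hP

end Pool.Agent.ConeG
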