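import Pool.Agent.Work.MP_b0b133_an.G.FIh
import Pool.Agent.Work.MP_b0b133_an.G.FINh

/-!
# The depth inequality with law-wise costs

`nl d l = (l + ν)/ν` is the scaled depth exponent of the level `l`. `CstL μ κ A B α β s F` is the
cost functional of the level law `e_l = el μ F l`,
`A ∑ e_k e_l κ_l / (2 n_k + 2 n_l - α - s)² + B ∑ e_l κ_l / (2 n_l + β - s)²`.

`depth_law`: if the second depth derivative with the shift `s ν` of a density is bounded below by
minus a cost density, the integral of which is at most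
`ν² (S U^θ + δ^q) V`, `U = ∑ e_l e^{-2 n_l ν y}`, `V = ∑ e_l κ_l e^{-2 n_l ν y}`, and
`U^θ ≤ A e^{α ν y} U + B e^{-β ν y}`, then
`0 ≤ ∫ f0 + S CstL F + δ^q ∑ e_l κ_l / (2 n_l - s)²`.
-/

set_option autoImplicit false
open MeasureTheory Complex Filter Topology
open scoped ENNReal ComplexConjugate

namespace Pool.Agent.ConeG

variable {d : ℕ} {μ : Measure (CC d)}

/-- the scaled depth exponent -/
noncomputable def nl (d : ℕ) (l : ℕ) : ℝ := ((l : ℝ) + nu d) / nu d

/-- the cost functional of the level law -/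
noncomputable def CstL (μ : Measure (CC d)) (κ : ℕ → ℝ) (A B α β s : ℝ) (F : Poly d) : ℝ :=
  A * ∑ k ∈ Finset.range (F.totalDegree + 1), ∑ l ∈ Finset.range (F.totalDegree + 1),
    el μ F k * el μ F l * κ l / (2 * nl d k + 2 * nl d l - α - s) ^ 2 +
  B * ∑ l ∈ Finset.range (F.totalDegree + 1), el μ F l * κ l / (2 * nl d l + β - s) ^ 2

/-- the regularisation term -/
noncomputable def CstD (μ : Measure (CC d)) (κ : ℕ → ℝ) (s : ℝ) (F : Poly d) : ℝ :=
  ∑ l ∈ Finset.range (F.totalDegree + 1), el μ F l * κ l / (2 * nl d l - s) ^ 2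

namespace FI

theorem nl_ge_one (hν : 0 < nu d) (l : ℕ) : 1 ≤ nl d l := by
  unfold nl
  rw [le_div_iff₀ hν, one_mul]
  linarith [Nat.cast_nonneg (α := ℝ) l]

theorem nl_mul (hν : 0 < nu d) (l : ℕ) : nl d l * nu d = (l : ℝ) + nu d := by
  unfold nl
  exact div_mul_cancel₀ _ hν.ne'

theorem xl_eq_inv (l : ℕ) : xl d l = (nl d l)⁻¹ := by
  unfold xl nl
  rw [inv_div]

theorem depth_law [Fact (2 ≤ d)] {ι : Type} [Fintype ι] {P : ι → Poly d} (hμ : Law μ) {S : ℝ}
    (hS : 1 ≤ S) {F : Poly d} (D Ξ : Dens ι)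
    (hD : ∀ M : ℝ, ∃ C : ℝ, ∀ z : ι → ℂ, (∀ i, ‖z i‖ ≤ M) → |D.f0 z| ≤ C * ∑ i, ‖z i‖ ^ 2)
    (hΞ : ∀ M : ℝ, ∃ C : ℝ, ∀ z : ι → ℂ, (∀ i, ‖z i‖ ≤ M) → |Ξ.f0 z| ≤ C * ∑ i, ‖z i‖ ^ 2)
    (hΞ0 : ∀ z, 0 ≤ Ξ.f0 z) {κ : ℕ → ℝ} (hκ : ∀ l, 0 ≤ κ l) {δ : ℝ} {A B α β s : ℝ}
    (hs2 : s < 2) (hα : α + s < 4) (hβ : s < 2 + β)
    (hT : ∀ U y : ℝ, 0 ≤ U → 0 ≤ y → U ^ ((pe d - 2) / 2) ≤
      A * Real.exp (α * nu d * y) * U + B * Real.exp (-(β * nu d * y)))
    (h : ∀ y : ℝ, 0 ≤ y → ∃ Z R : CC d → ℝ, Zr μ Z ∧ Integrable R μ ∧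
      (∫ x, R x ∂μ ≤ nu d ^ 2 * ((S * Ey μ y F ^ ((pe d - 2) / 2) + δ ^ (pe d - 2)) *
        Lev μ (fun l => κ l * Real.exp (-(2 * ((l : ℝ) + nu d) * y))) F)) ∧
      ∀ᵐ x ∂μ, 0 ≤ D.f2 (jet P y x)
        (fun i => -(evz y x (AP (P i)))) (fun i => evz y x (AP (AP (P i)))) +
        2 * (s * nu d) * D.f1 (jet P y x) (fun i => -(evz y x (AP (P i)))) +
        (s * nu d) ^ 2 * D.f0 (jet P y x) +
        (Ξ.f1 (jet P y x) (fun i => -(evz y x (AP (P i)))) + (s * nu d) * Ξ.f0 (jet P y x)) +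
        Z x + R x) :
    0 ≤ ∫ x, D.f0 (fun i => ev (P i) x) ∂μ + S * CstL μ κ A B α β s F +
      δ ^ (pe d - 2) * CstD μ κ s F := by
  have hν := nu_pos d
  set N := F.totalDegree + 1 with hN
  set e : ℕ → ℝ := el μ F with he
  have he0 : ∀ l, 0 ≤ e l := fun l => FINH.el_nonneg hν F l
  -- the family of exponentials
  set κs : Finset ((ℕ × ℕ) ⊕ (ℕ ⊕ ℕ)) := (Finset.range N ×ˢ Finset.range N).disjSum
    ((Finset.range N).disjSum (Finset.range N)) with hκs
  set a : (ℕ × ℕ) ⊕ (ℕ ⊕ ℕ) → ℝ := Sum.elim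
    (fun p => S * (nu d ^ 2 * (A * (e p.1 * e p.2 * κ p.2))))
    (Sum.elim (fun l => S * (nu d ^ 2 * (B * (e l * κ l))))
      (fun l => δ ^ (pe d - 2) * (nu d ^ 2 * (e l * κ l)))) with ha
  set γ : (ℕ × ℕ) ⊕ (ℕ ⊕ ℕ) → ℝ := Sum.elim
    (fun p => (2 * nl d p.1 + 2 * nl d p.2 - α) * nu d)
    (Sum.elim (fun l => (2 * nl d l + β) * nu d) (fun l => 2 * nl d l * nu d)) with hγ
  have hγs : ∀ i ∈ κs, s * nu d < γ i := by
    rintro (p | l | l) -
    · simp only [hγ, Sum.elim_inl]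
      refine mul_lt_mul_of_pos_right ?_ hν
      linarith [nl_ge_one hν p.1, nl_ge_one hν p.2]
    · simp only [hγ, Sum.elim_inr, Sum.elim_inl]
      refine mul_lt_mul_of_pos_right ?_ hν
      linarith [nl_ge_one hν l]
    · simp only [hγ, Sum.elim_inr]
      refine mul_lt_mul_of_pos_right ?_ hν
      linarith [nl_ge_one hν l]
  have hsum : ∀ g : (ℕ × ℕ) ⊕ (ℕ ⊕ ℕ) → ℝ, ∑ i ∈ κs, g i =
      ∑ k ∈ Finset.range N, ∑ l ∈ Finset.range N, g (Sum.inl (k, l)) +
      (∑ l ∈ Finset.range N, g (Sum.inr (Sum.inl l)) +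
        ∑ l ∈ Finset.range N, g (Sum.inr (Sum.inr l))) := by
    intro g
    rw [hκs, Finset.sum_disjSum, Finset.sum_disjSum, Finset.sum_product]
  have key := depth_convex_shift (P := P) hμ hν D Ξ (σ := s * nu d)
    (mul_lt_mul_of_pos_right hs2 hν) hD hΞ hΞ0 κs a γ hγs (fun y hy => by
      obtain ⟨Z, R, hZ, hR, hRi, hp⟩ := h y hy
      refine ⟨Z, R, hZ, hR, hRi.trans ?_, hp⟩
      -- `U` and `V`
      have hexp : ∀ l : ℕ, Real.exp (-(2 * ((l : ℝ) + nu d) * y)) =
          Real.exp (-(2 * nl d l * nu d * y)) := fun l => by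
        rw [← nl_mul hν l]
        congr 1
        ring
      have eU : Ey μ y F = ∑ k ∈ Finset.range N, e k * Real.exp (-(2 * nl d k * nu d * y)) := by
        unfold Ey
        rw [FINH.Lev_el _ F N (by omega)]
        exact Finset.sum_congr rfl fun k _ => by rw [hexp k]
      have eV : Lev μ (fun l => κ l * Real.exp (-(2 * ((l : ℝ) + nu d) * y))) F =
          ∑ l ∈ Finset.range N, e l * κ l * Real.exp (-(2 * nl d l * nu d * y)) := by
        rw [FINH.Lev_el _ F N (by omega)]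
        exact Finset.sum_congr rfl fun l _ => by rw [hexp l, ← mul_assoc]
      have hV0 : 0 ≤ Lev μ (fun l => κ l * Real.exp (-(2 * ((l : ℝ) + nu d) * y))) F := by
        rw [eV]
        exact Finset.sum_nonneg fun l _ => mul_nonneg (mul_nonneg (he0 l) (hκ l))
          (Real.exp_pos _).le
      set U := Ey μ y F with hU
      set V := Lev μ (fun l => κ l * Real.exp (-(2 * ((l : ℝ) + nu d) * y))) F with hV
      have hU0 : 0 ≤ U := Ey_nonneg hν hμ y F
      have h1 := hT U y hU0 hy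
      have h2 : S * U ^ ((pe d - 2) / 2) * V ≤
          S * (A * Real.exp (α * nu d * y) * U + B * Real.exp (-(β * nu d * y))) * V :=
        mul_le_mul_of_nonneg_right (mul_le_mul_of_nonneg_left h1 (by linarith)) hV0
      have h3 : nu d ^ 2 * ((S * U ^ ((pe d - 2) / 2) + δ ^ (pe d - 2)) * V) ≤
          nu d ^ 2 * (S * (A * Real.exp (α * nu d * y) * U + B * Real.exp (-(β * nu d * y))) * V +
            δ ^ (pe d - 2) * V) := by
        refine mul_le_mul_of_nonneg_left ?_ (sq_nonneg _)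
        rw [add_mul]
        linarith
      refine h3.trans_eq ?_
      rw [hsum]
      -- the three families
      have f1 : ∑ k ∈ Finset.range N, ∑ l ∈ Finset.range N,
          a (Sum.inl (k, l)) * Real.exp (-(γ (Sum.inl (k, l)) * y)) =
          nu d ^ 2 * (S * (A * Real.exp (α * nu d * y) * U) * V) := by
        have eUV : nu d ^ 2 * (S * (A * Real.exp (α * nu d * y) * U) * V) =
            (nu d ^ 2 * S * A * Real.exp (α * nu d * y)) *
            ∑ k ∈ Finset.range N, ∑ l ∈ Finset.range N,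
              (e k * Real.exp (-(2 * nl d k * nu d * y))) *
                (e l * κ l * Real.exp (-(2 * nl d l * nu d * y))) := by
          rw [← Finset.sum_mul_sum, ← eU, ← eV]
          ring
        rw [eUV, Finset.mul_sum]
        refine Finset.sum_congr rfl fun k _ => ?_
        rw [Finset.mul_sum]
        refine Finset.sum_congr rfl fun l _ => ?_
        simp only [ha, hγ, Sum.elim_inl]
        rw [show -((2 * nl d k + 2 * nl d l - α) * nu d * y) = α * nu d * y +
          -(2 * nl d k * nu d * y) + -(2 * nl d l * nu d * y) by ring, Real.exp_add, Real.exp_add]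
        ring
      have f2 : ∑ l ∈ Finset.range N,
          a (Sum.inr (Sum.inl l)) * Real.exp (-(γ (Sum.inr (Sum.inl l)) * y)) =
          nu d ^ 2 * (S * (B * Real.exp (-(β * nu d * y))) * V) := by
        rw [eV, Finset.mul_sum, Finset.mul_sum]
        refine Finset.sum_congr rfl fun l _ => ?_
        simp only [ha, hγ, Sum.elim_inl, Sum.elim_inr]
        rw [show -((2 * nl d l + β) * nu d * y) = -(β * nu d * y) +
          -(2 * nl d l * nu d * y) by ring, Real.exp_add]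
        ring
      have f3 : ∑ l ∈ Finset.range N,
          a (Sum.inr (Sum.inr l)) * Real.exp (-(γ (Sum.inr (Sum.inr l)) * y)) =
          nu d ^ 2 * (δ ^ (pe d - 2) * V) := by
        rw [eV, Finset.mul_sum, Finset.mul_sum]
        refine Finset.sum_congr rfl fun l _ => ?_
        simp only [ha, hγ, Sum.elim_inr]
        ring
      rw [f1, f2, f3]
      ring)
  rw [hsum] at key
  have hν2 : nu d ≠ 0 := hν.ne'
  have g1 : ∑ k ∈ Finset.range N, ∑ l ∈ Finset.range N,
      a (Sum.inl (k, l)) / (γ (Sum.inl (k, l)) - s * nu d) ^ 2 =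
      S * (A * ∑ k ∈ Finset.range N, ∑ l ∈ Finset.range N,
        e k * e l * κ l / (2 * nl d k + 2 * nl d l - α - s) ^ 2) := by
    rw [Finset.mul_sum, Finset.mul_sum]
    refine Finset.sum_congr rfl fun k _ => ?_
    rw [Finset.mul_sum, Finset.mul_sum]
    refine Finset.sum_congr rfl fun l _ => ?_
    simp only [ha, hγ, Sum.elim_inl]
    rw [← sub_mul, mul_pow]
    have : (2 * nl d k + 2 * nl d l - α - s) ≠ 0 := by
      have h1 := nl_ge_one hν k
      have h2 := nl_ge_one hν l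
      have : 0 < 2 * nl d k + 2 * nl d l - α - s := by linarith
      exact this.ne'
    field_simp
  have g2 : ∑ l ∈ Finset.range N,
      a (Sum.inr (Sum.inl l)) / (γ (Sum.inr (Sum.inl l)) - s * nu d) ^ 2 =
      S * (B * ∑ l ∈ Finset.range N, e l * κ l / (2 * nl d l + β - s) ^ 2) := by
    rw [Finset.mul_sum, Finset.mul_sum]
    refine Finset.sum_congr rfl fun l _ => ?_
    simp only [ha, hγ, Sum.elim_inl, Sum.elim_inr]
    rw [← sub_mul, mul_pow]
    have : (2 * nl d l + β - s) ≠ 0 := by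
      have h2 := nl_ge_one hν l
      have : 0 < 2 * nl d l + β - s := by linarith
      exact this.ne'
    field_simp
  have g3 : ∑ l ∈ Finset.range N,
      a (Sum.inr (Sum.inr l)) / (γ (Sum.inr (Sum.inr l)) - s * nu d) ^ 2 =
      δ ^ (pe d - 2) * ∑ l ∈ Finset.range N, e l * κ l / (2 * nl d l - s) ^ 2 := by
    rw [Finset.mul_sum]
    refine Finset.sum_congr rfl fun l _ => ?_
    simp only [ha, hγ, Sum.elim_inr]
    rw [← sub_mul, mul_pow]
    have : (2 * nl d l - s) ≠ 0 := by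
      have h2 := nl_ge_one hν l
      have : 0 < 2 * nl d l - s := by linarith
      exact this.ne'
    field_simp
  rw [g1, g2, g3] at key
  unfold CstL CstD
  rw [← hN]
  linarith

end FI

end Pool.Agent.ConeG
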