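import Pool.Agent.Work.MP_b0b133_an.G.FIk
import Pool.Agent.Work.MP_b0b133_an.G.FIi

/-!
# The densities of the depth inequality

`Ix d` is the index type of the jet `(F, H, v_ij)`, `Pj ψ` the family `(A ψ, ν ψ, L_ij ψ)`.
`PhiD` is the regularised density of
`∫ |F|^q (|H|² - c |F|² - a Re (conj F H)) + 1/2 ∑ (α |F|^q |v|² + β |F|^(q-2) Re (conj F² v²))`,
`XiD` the one of `n ξ /2 ∑ |F|^(q-2) (Im conj F v)²`.
-/

set_option autoImplicit false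
open MeasureTheory Complex Filter Topology
open scoped ENNReal ComplexConjugate

namespace Pool.Agent.ConeG.FI

variable {d : ℕ} {μ : Measure (CC d)}

/-- the indices of the jet -/
abbrev Ix (d : ℕ) := Fin 2 ⊕ (Fin (d + 1) × Fin (d + 1))

/-- `F`, `H`, `v_ij` -/
noncomputable def Pj (ψ : Poly d) : Ix d → Poly d :=
  Sum.elim ![AP ψ, (nu d : ℂ) • ψ] (fun p => LP p.1 p.2 ψ)

/-- the density in `F`, `H` -/
noncomputable def PhiD0 (d : ℕ) (P : Prm) {δ : ℝ} (hδ : 0 < δ) : Dens (Ix d) :=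
  Dens.mul (Dens.fpwD hδ P.q (Sum.inl 0))
    (Dens.add (Dens.dotD (Sum.inl 1) (Sum.inl 1))
      (Dens.add (Dens.smul (-P.c) (Dens.dotD (Sum.inl 0) (Sum.inl 0)))
        (Dens.smul (-P.a) (Dens.dotD (Sum.inl 0) (Sum.inl 1)))))

/-- the density in `F`, `v_p` -/
noncomputable def PhiD1 (d : ℕ) (P : Prm) {δ : ℝ} (hδ : 0 < δ) (p : Fin (d + 1) × Fin (d + 1)) :
    Dens (Ix d) :=
  Dens.add
    (Dens.smul P.α (Dens.mul (Dens.fpwD hδ P.q (Sum.inl 0))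
      (Dens.dotD (Sum.inr p) (Sum.inr p))))
    (Dens.smul P.β (Dens.mul (Dens.fpwD hδ (P.q - 2) (Sum.inl 0))
      (Dens.add (Dens.mul (Dens.dotD (Sum.inl 0) (Sum.inr p)) (Dens.dotD (Sum.inl 0) (Sum.inr p)))
        (Dens.smul (-1)
          (Dens.mul (Dens.wedD (Sum.inl 0) (Sum.inr p)) (Dens.wedD (Sum.inl 0) (Sum.inr p)))))))

/-- the density -/
noncomputable def PhiD (d : ℕ) (P : Prm) {δ : ℝ} (hδ : 0 < δ) : Dens (Ix d) :=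
  Dens.add (PhiD0 d P hδ) (Dens.smul (1 / 2) (Dens.sum Finset.univ (PhiD1 d P hδ)))

/-- the density under one derivative -/
noncomputable def XiD1 (d : ℕ) (P : Prm) {δ : ℝ} (hδ : 0 < δ) (p : Fin (d + 1) × Fin (d + 1)) :
    Dens (Ix d) :=
  Dens.mul (Dens.fpwD hδ (P.q - 2) (Sum.inl 0))
    (Dens.mul (Dens.wedD (Sum.inl 0) (Sum.inr p)) (Dens.wedD (Sum.inl 0) (Sum.inr p)))

/-- the density under one derivative -/
noncomputable def XiD (d : ℕ) (P : Prm) {δ : ℝ} (hδ : 0 < δ) : Dens (Ix d) :=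
  Dens.smul (nu d * P.ξ / 2) (Dens.sum Finset.univ (XiD1 d P hδ))

theorem PhiD_f0 (P : Prm) {δ : ℝ} (hδ : 0 < δ) (z : Ix d → ℂ) :
    (PhiD d P hδ).f0 z = fpw δ P.q (z (Sum.inl 0)) * (dot (z (Sum.inl 1)) (z (Sum.inl 1)) +
      (-P.c * dot (z (Sum.inl 0)) (z (Sum.inl 0)) + -P.a * dot (z (Sum.inl 0)) (z (Sum.inl 1)))) +
      1 / 2 * ∑ p, (P.α * (fpw δ P.q (z (Sum.inl 0)) * dot (z (Sum.inr p)) (z (Sum.inr p))) +
        P.β * (fpw δ (P.q - 2) (z (Sum.inl 0)) *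
          (dot (z (Sum.inl 0)) (z (Sum.inr p)) * dot (z (Sum.inl 0)) (z (Sum.inr p)) +
          -1 * (wed (z (Sum.inl 0)) (z (Sum.inr p)) * wed (z (Sum.inl 0)) (z (Sum.inr p)))))) :=
  rfl

theorem XiD_f0 (P : Prm) {δ : ℝ} (hδ : 0 < δ) (z : Ix d → ℂ) :
    (XiD d P hδ).f0 z = nu d * P.ξ / 2 * ∑ p, fpw δ (P.q - 2) (z (Sum.inl 0)) *
      (wed (z (Sum.inl 0)) (z (Sum.inr p)) * wed (z (Sum.inl 0)) (z (Sum.inr p))) := rfl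

/-- the error density, all variables scaled: `|F|² + |H|² + |e|² + 1/2 ∑ (|v|² + |b|²)`,
`e = A F / ν`, `b = L_ij F / ν` -/
noncomputable def errD (ψ : Poly d) (y : ℝ) (x : CC d) : ℝ :=
  ‖evz (y : ℂ) x (AP ψ)‖ ^ 2 + ‖evz (y : ℂ) x ((nu d : ℂ) • ψ)‖ ^ 2 +
    ‖evz (y : ℂ) x (AP (AP ψ))‖ ^ 2 / nu d ^ 2 +
    1 / 2 * ∑ p : Fin (d + 1) × Fin (d + 1), (‖evz (y : ℂ) x (LP p.1 p.2 ψ)‖ ^ 2 +
      ‖evz (y : ℂ) x (LP p.1 p.2 (AP ψ))‖ ^ 2 / nu d ^ 2)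

/-- the costs `w0 |F - r0 H|² + w1 1/2 ∑ |b/ν - r1 v|²` with the weight `|F|^q` regularised -/
noncomputable def cstD (q w0 r0 w1 r1 δ : ℝ) (ψ : Poly d) (y : ℝ) (x : CC d) : ℝ :=
  fpw δ q (evz (y : ℂ) x (AP ψ)) *
    (w0 * ‖evz (y : ℂ) x (AP ψ) - (r0 : ℂ) * evz (y : ℂ) x ((nu d : ℂ) • ψ)‖ ^ 2 +
    w1 * (1 / 2 * ∑ p : Fin (d + 1) × Fin (d + 1),
      ‖evz (y : ℂ) x (LP p.1 p.2 (AP ψ)) / (nu d : ℂ) -
        (r1 : ℂ) * evz (y : ℂ) x (LP p.1 p.2 ψ)‖ ^ 2))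

end Pool.Agent.ConeG.FI
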