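import Pool.Agent.Work.MP_b0b133_an.G.FIj
import Pool.Agent.Work.MP_b0b133_an.G.FIl

/-!
# From the pointwise inequality to the functional inequality

* `depth_law2`: the depth inequality, with separate level multipliers of the costs and of the error.
* `cstD_int`, `errD_int`: the integrals of the cost density and of the error density.
* `PhiD_growth`, `XiD_growth`, `XiD_nonneg`: growth conditions of the densities.
* `PhiD_le`: the density at depth zero is at most the regularised target.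
* `funcGF_of_pointwise`: the functional inequality from the pointwise inequality.
-/

set_option autoImplicit false
open MeasureTheory Complex Filter Topology
open scoped ENNReal ComplexConjugate

namespace Pool.Agent.ConeG

variable {d : ℕ} {μ : Measure (CC d)}

namespace FI

/-- the depth inequality, costs with the multiplier `κ`, errors with the multiplier `κ'` -/
theorem depth_law2 [Fact (2 ≤ d)] {ι : Type} [Fintype ι] {P : ι → Poly d} (hμ : Law μ) {S : ℝ}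
    (hS : 1 ≤ S) {F : Poly d} (D Ξ : Dens ι)
    (hD : ∀ M : ℝ, ∃ C : ℝ, ∀ z : ι → ℂ, (∀ i, ‖z i‖ ≤ M) → |D.f0 z| ≤ C * ∑ i, ‖z i‖ ^ 2)
    (hΞ : ∀ M : ℝ, ∃ C : ℝ, ∀ z : ι → ℂ, (∀ i, ‖z i‖ ≤ M) → |Ξ.f0 z| ≤ C * ∑ i, ‖z i‖ ^ 2)
    (hΞ0 : ∀ z, 0 ≤ Ξ.f0 z) {κ κ' : ℕ → ℝ} (hκ : ∀ l, 0 ≤ κ l) {δ : ℝ} {A B α β s : ℝ}
    (hs2 : s < 2) (hα : α + s < 4) (hβ : s < 2 + β)
    (hT : ∀ U y : ℝ, 0 ≤ U → 0 ≤ y → U ^ ((pe d - 2) / 2) ≤
      A * Real.exp (α * nu d * y) * U + B * Real.exp (-(β * nu d * y)))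
    (h : ∀ y : ℝ, 0 ≤ y → ∃ Z R : CC d → ℝ, Zr μ Z ∧ Integrable R μ ∧
      (∫ x, R x ∂μ ≤ nu d ^ 2 * (S * Ey μ y F ^ ((pe d - 2) / 2) *
        Lev μ (fun l => κ l * Real.exp (-(2 * ((l : ℝ) + nu d) * y))) F + δ ^ (pe d - 2) *
        Lev μ (fun l => κ' l * Real.exp (-(2 * ((l : ℝ) + nu d) * y))) F)) ∧
      ∀ᵐ x ∂μ, 0 ≤ D.f2 (jet P y x)
        (fun i => -(evz y x (AP (P i)))) (fun i => evz y x (AP (AP (P i)))) +
        2 * (s * nu d) * D.f1 (jet P y x) (fun i => -(evz y x (AP (P i)))) +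
        (s * nu d) ^ 2 * D.f0 (jet P y x) +
        (Ξ.f1 (jet P y x) (fun i => -(evz y x (AP (P i)))) + (s * nu d) * Ξ.f0 (jet P y x)) +
        Z x + R x) :
    0 ≤ ∫ x, D.f0 (fun i => ev (P i) x) ∂μ + S * CstL μ κ A B α β s F +
      δ ^ (pe d - 2) * CstD μ κ' s F := by
  have hν := nu_pos d
  set N := F.totalDegree + 1 with hN
  set e : ℕ → ℝ := el μ F with he
  have he0 : ∀ l, 0 ≤ e l := fun l => FINH.el_nonneg hν F l
  -- the family of exponentials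
  set κs : Finset ((ℕ × ℕ) ⊕ (ℕ ⊕ ℕ)) := (Finset.range N ×ˢ Finset.range N).disjSum
    ((Finset.range N).disjSum (Finset.range N)) with hκs
  set a : (ℕ × ℕ) ⊕ (ℕ ⊕ ℕ) → ℝ := Sum.elim
    (fun p => S * (nu d ^ 2 * (A * (e p.1 * e p.2 * κ p.2))))
    (Sum.elim (fun l => S * (nu d ^ 2 * (B * (e l * κ l))))
      (fun l => δ ^ (pe d - 2) * (nu d ^ 2 * (e l * κ' l)))) with ha
  set γ : (ℕ × ℕ) ⊕ (ℕ ⊕ ℕ) → ℝ := Sum.elim
    (fun p => (2 * nl d p.1 + 2 * nl d p.2 - α) * nu d)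
    (Sum.elim (fun l => (2 * nl d l + β) * nu d) (fun l => 2 * nl d l * nu d)) with hγ
  have hγs : ∀ i ∈ κs, s * nu d < γ i := by
    rintro (p | l | l) -
    · simp only [hγ, Sum.elim_inl]
      refine mul_lt_mul_of_pos_right ?_ hν
      linarith [nl_ge_one hν p.1, nl_ge_one hν p.2]
    · simp only [hγ, Sum.elim_inr, Sum.elim_inl]
      refine mul_lt_mul_of_pos_right ?_ hν
      linarith [nl_ge_one hν l]
    · simp only [hγ, Sum.elim_inr]
      refine mul_lt_mul_of_pos_right ?_ hν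
      linarith [nl_ge_one hν l]
  have hsum : ∀ g : (ℕ × ℕ) ⊕ (ℕ ⊕ ℕ) → ℝ, ∑ i ∈ κs, g i =
      ∑ k ∈ Finset.range N, ∑ l ∈ Finset.range N, g (Sum.inl (k, l)) +
      (∑ l ∈ Finset.range N, g (Sum.inr (Sum.inl l)) +
        ∑ l ∈ Finset.range N, g (Sum.inr (Sum.inr l))) := by
    intro g
    rw [hκs, Finset.sum_disjSum, Finset.sum_disjSum, Finset.sum_product]
  have key := depth_convex_shift (P := P) hμ hν D Ξ (σ := s * nu d)
    (mul_lt_mul_of_pos_right hs2 hν) hD hΞ hΞ0 κs a γ hγs (fun y hy => by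
      obtain ⟨Z, R, hZ, hR, hRi, hp⟩ := h y hy
      refine ⟨Z, R, hZ, hR, hRi.trans ?_, hp⟩
      -- `U` and `V`
      have hexp : ∀ l : ℕ, Real.exp (-(2 * ((l : ℝ) + nu d) * y)) =
          Real.exp (-(2 * nl d l * nu d * y)) := fun l => by
        rw [← nl_mul hν l]
        congr 1
        ring
      have eU : Ey μ y F = ∑ k ∈ Finset.range N, e k * Real.exp (-(2 * nl d k * nu d * y)) := by
        unfold Ey
        rw [FINH.Lev_el _ F N (by omega)]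
        exact Finset.sum_congr rfl fun k _ => by rw [hexp k]
      have eV : Lev μ (fun l => κ l * Real.exp (-(2 * ((l : ℝ) + nu d) * y))) F =
          ∑ l ∈ Finset.range N, e l * κ l * Real.exp (-(2 * nl d l * nu d * y)) := by
        rw [FINH.Lev_el _ F N (by omega)]
        exact Finset.sum_congr rfl fun l _ => by rw [hexp l, ← mul_assoc]
      have eV' : Lev μ (fun l => κ' l * Real.exp (-(2 * ((l : ℝ) + nu d) * y))) F =
          ∑ l ∈ Finset.range N, e l * κ' l * Real.exp (-(2 * nl d l * nu d * y)) := by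
        rw [FINH.Lev_el _ F N (by omega)]
        exact Finset.sum_congr rfl fun l _ => by rw [hexp l, ← mul_assoc]
      have hV0 : 0 ≤ Lev μ (fun l => κ l * Real.exp (-(2 * ((l : ℝ) + nu d) * y))) F := by
        rw [eV]
        exact Finset.sum_nonneg fun l _ => mul_nonneg (mul_nonneg (he0 l) (hκ l))
          (Real.exp_pos _).le
      set U := Ey μ y F with hU
      set V := Lev μ (fun l => κ l * Real.exp (-(2 * ((l : ℝ) + nu d) * y))) F with hV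
      set V' := Lev μ (fun l => κ' l * Real.exp (-(2 * ((l : ℝ) + nu d) * y))) F with hV'
      have hU0 : 0 ≤ U := Ey_nonneg hν hμ y F
      have h1 := hT U y hU0 hy
      have h2 : S * U ^ ((pe d - 2) / 2) * V ≤
          S * (A * Real.exp (α * nu d * y) * U + B * Real.exp (-(β * nu d * y))) * V :=
        mul_le_mul_of_nonneg_right (mul_le_mul_of_nonneg_left h1 (by linarith)) hV0
      have h3 : nu d ^ 2 * (S * U ^ ((pe d - 2) / 2) * V + δ ^ (pe d - 2) * V') ≤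
          nu d ^ 2 * (S * (A * Real.exp (α * nu d * y) * U + B * Real.exp (-(β * nu d * y))) * V +
            δ ^ (pe d - 2) * V') := by
        refine mul_le_mul_of_nonneg_left ?_ (sq_nonneg _)
        linarith
      refine h3.trans_eq ?_
      rw [hsum]
      -- the three families
      have f1 : ∑ k ∈ Finset.range N, ∑ l ∈ Finset.range N,
          a (Sum.inl (k, l)) * Real.exp (-(γ (Sum.inl (k, l)) * y)) =
          nu d ^ 2 * (S * (A * Real.exp (α * nu d * y) * U) * V) := by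
        have eUV : nu d ^ 2 * (S * (A * Real.exp (α * nu d * y) * U) * V) =
            (nu d ^ 2 * S * A * Real.exp (α * nu d * y)) *
            ∑ k ∈ Finset.range N, ∑ l ∈ Finset.range N,
              (e k * Real.exp (-(2 * nl d k * nu d * y))) *
                (e l * κ l * Real.exp (-(2 * nl d l * nu d * y))) := by
          rw [← Finset.sum_mul_sum, ← eU, ← eV]
          ring
        rw [eUV, Finset.mul_sum]
        refine Finset.sum_congr rfl fun k _ => ?_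
        rw [Finset.mul_sum]
        refine Finset.sum_congr rfl fun l _ => ?_
        simp only [ha, hγ, Sum.elim_inl]
        rw [show -((2 * nl d k + 2 * nl d l - α) * nu d * y) = α * nu d * y +
          -(2 * nl d k * nu d * y) + -(2 * nl d l * nu d * y) by ring, Real.exp_add, Real.exp_add]
        ring
      have f2 : ∑ l ∈ Finset.range N,
          a (Sum.inr (Sum.inl l)) * Real.exp (-(γ (Sum.inr (Sum.inl l)) * y)) =
          nu d ^ 2 * (S * (B * Real.exp (-(β * nu d * y))) * V) := by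
        rw [eV, Finset.mul_sum, Finset.mul_sum]
        refine Finset.sum_congr rfl fun l _ => ?_
        simp only [ha, hγ, Sum.elim_inl, Sum.elim_inr]
        rw [show -((2 * nl d l + β) * nu d * y) = -(β * nu d * y) +
          -(2 * nl d l * nu d * y) by ring, Real.exp_add]
        ring
      have f3 : ∑ l ∈ Finset.range N,
          a (Sum.inr (Sum.inr l)) * Real.exp (-(γ (Sum.inr (Sum.inr l)) * y)) =
          nu d ^ 2 * (δ ^ (pe d - 2) * V') := by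
        rw [eV', Finset.mul_sum, Finset.mul_sum]
        refine Finset.sum_congr rfl fun l _ => ?_
        simp only [ha, hγ, Sum.elim_inr]
        ring
      rw [f1, f2, f3]
      ring)
  rw [hsum] at key
  have hν2 : nu d ≠ 0 := hν.ne'
  have g1 : ∑ k ∈ Finset.range N, ∑ l ∈ Finset.range N,
      a (Sum.inl (k, l)) / (γ (Sum.inl (k, l)) - s * nu d) ^ 2 =
      S * (A * ∑ k ∈ Finset.range N, ∑ l ∈ Finset.range N,
        e k * e l * κ l / (2 * nl d k + 2 * nl d l - α - s) ^ 2) := by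
    rw [Finset.mul_sum, Finset.mul_sum]
    refine Finset.sum_congr rfl fun k _ => ?_
    rw [Finset.mul_sum, Finset.mul_sum]
    refine Finset.sum_congr rfl fun l _ => ?_
    simp only [ha, hγ, Sum.elim_inl]
    rw [← sub_mul, mul_pow]
    have : (2 * nl d k + 2 * nl d l - α - s) ≠ 0 := by
      have h1 := nl_ge_one hν k
      have h2 := nl_ge_one hν l
      have : 0 < 2 * nl d k + 2 * nl d l - α - s := by linarith
      exact this.ne'
    field_simp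
  have g2 : ∑ l ∈ Finset.range N,
      a (Sum.inr (Sum.inl l)) / (γ (Sum.inr (Sum.inl l)) - s * nu d) ^ 2 =
      S * (B * ∑ l ∈ Finset.range N, e l * κ l / (2 * nl d l + β - s) ^ 2) := by
    rw [Finset.mul_sum, Finset.mul_sum]
    refine Finset.sum_congr rfl fun l _ => ?_
    simp only [ha, hγ, Sum.elim_inl, Sum.elim_inr]
    rw [← sub_mul, mul_pow]
    have : (2 * nl d l + β - s) ≠ 0 := by
      have h2 := nl_ge_one hν l
      have : 0 < 2 * nl d l + β - s := by linarith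
      exact this.ne'
    field_simp
  have g3 : ∑ l ∈ Finset.range N,
      a (Sum.inr (Sum.inr l)) / (γ (Sum.inr (Sum.inr l)) - s * nu d) ^ 2 =
      δ ^ (pe d - 2) * ∑ l ∈ Finset.range N, e l * κ' l / (2 * nl d l - s) ^ 2 := by
    rw [Finset.mul_sum]
    refine Finset.sum_congr rfl fun l _ => ?_
    simp only [ha, hγ, Sum.elim_inr]
    rw [← sub_mul, mul_pow]
    have : (2 * nl d l - s) ≠ 0 := by
      have h2 := nl_ge_one hν l
      have : 0 < 2 * nl d l - s := by linarith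
      exact this.ne'
    field_simp
  rw [g1, g2, g3] at key
  unfold CstL CstD
  rw [← hN]
  linarith


/-! ### The cost density and the error density -/

theorem Rden_eq (δ w0 r0 w1 r1 : ℝ) (ψ : Poly d) (y : ℝ) (x : CC d) :
    Rden δ w0 r0 w1 r1 ψ y x = nu d ^ 2 * cstD (pe d - 2) w0 r0 w1 r1 δ ψ y x := by
  unfold Rden cstD
  rw [evz_smul, Fintype.sum_prod_type]
  simp only [div_eq_inv_mul]

theorem cstD_cont {δ : ℝ} (hδ : 0 < δ) (q w0 r0 w1 r1 : ℝ) (ψ : Poly d) (y : ℝ) :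
    Continuous (cstD q w0 r0 w1 r1 δ ψ y) := by
  have c0 : ∀ P : Poly d, Continuous fun x : CC d => evz (y : ℂ) x P := fun P =>
    cont_evz continuous_const continuous_id _
  unfold cstD
  refine (c_fpw hδ _ (c0 _)).mul (Continuous.add ?_ ?_)
  · exact continuous_const.mul (((c0 _).sub (continuous_const.mul (c0 _))).norm.pow 2)
  · exact continuous_const.mul (continuous_const.mul (continuous_finsetSum _ fun p _ =>
      ((((c0 _).div_const _).sub (continuous_const.mul (c0 _))).norm.pow 2)))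

theorem errD_cont (ψ : Poly d) (y : ℝ) : Continuous (errD ψ y) := by
  have c0 : ∀ P : Poly d, Continuous fun x : CC d => evz (y : ℂ) x P := fun P =>
    cont_evz continuous_const continuous_id _
  unfold errD
  refine (((((c0 _).norm.pow 2).add ((c0 _).norm.pow 2)).add
    (((c0 _).norm.pow 2).div_const _)).add (continuous_const.mul
      (continuous_finsetSum _ fun p _ => ?_)))
  exact ((c0 _).norm.pow 2).add (((c0 _).norm.pow 2).div_const _)

/-- the integral of the cost density -/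
theorem cstD_int [Fact (2 ≤ d)] (hμ : Law μ) (hp : pe d - 2 ≤ 2) {S : ℝ} (hS : 1 ≤ S)
    (hmax : Adm μ S) {ψ : Poly d} (hψ : ψ ∈ HP d) {δ : ℝ} (hδ : 0 < δ) {w0 r0 w1 r1 : ℝ}
    (h0 : 0 ≤ w0) (h1 : 0 ≤ w1) (y : ℝ) :
    ∫ x, cstD (pe d - 2) w0 r0 w1 r1 δ ψ y x ∂μ ≤
      (S * Ey μ y (AP ψ) ^ ((pe d - 2) / 2) + δ ^ (pe d - 2)) *
        Lev μ (fun l => kapG d w0 r0 w1 r1 l * Real.exp (-(2 * ((l : ℝ) + nu d) * y))) (AP ψ) := by
  have hν := nu_pos d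
  have h := Rden_int hμ hp hS hmax hψ hδ (r0 := r0) (r1 := r1) h0 h1 y
  simp only [Rden_eq] at h
  rw [integral_const_mul] at h
  exact le_of_mul_le_mul_left h (by positivity)

/-- the level multiplier of the error density -/
noncomputable def kapE (d : ℕ) (l : ℕ) : ℝ :=
  1 + xl d l ^ 2 + nl d l ^ 2 + (nl d l ^ 2 - 1) * (xl d l ^ 2 + 1)

/-- the integral of the error density -/
theorem errD_int (hν : 0 < nu d) (hμ : Law μ) {ψ : Poly d} (hψ : ψ ∈ HP d) (y : ℝ) :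
    ∫ x, errD ψ y x ∂μ ≤
      Lev μ (fun l => kapE d l * Real.exp (-(2 * ((l : ℝ) + nu d) * y))) (AP ψ) := by
  have hF : AP ψ ∈ HP d := HP_AP_mem ψ hψ
  have c0 : ∀ P : Poly d, Continuous fun x : CC d => evz (y : ℂ) x P := fun P =>
    cont_evz continuous_const continuous_id _
  have ic : ∀ P : Poly d, Integrable (fun x : CC d => ‖evz (y : ℂ) x P‖ ^ 2) μ := fun P =>
    Alg.integrable hμ ((c0 P).norm.pow 2)
  have hle : ∀ P : Poly d, ∫ x, ‖evz (y : ℂ) x P‖ ^ 2 ∂μ ≤ Ey μ y P := fun P =>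
    int_sq_evz_le hν hμ y P
  have hN : (nu d) ≠ 0 := hν.ne'
  -- the five integrals
  have eH : (nu d : ℂ) • ψ = mlt (xl d) (AP ψ) := (mlt_xl hν ψ).symm
  have eψ : ψ = mlt (fun l => ((l : ℝ) + nu d)⁻¹) (AP ψ) := by
    rw [mlt_AP, mlt_mlt]
    conv_lhs => rw [← mlt_one ψ]
    refine mlt_congr (fun l => ?_) ψ
    have : ((l : ℝ) + nu d) ≠ 0 := by positivity
    field_simp
  have J1 : ∫ x, ‖evz (y : ℂ) x (AP ψ)‖ ^ 2 ∂μ ≤
      Lev μ (fun l => 1 * Real.exp (-(2 * ((l : ℝ) + nu d) * y))) (AP ψ) := by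
    refine (hle _).trans_eq ?_
    unfold Ey
    exact Lev_congr (fun l => (one_mul _).symm) _
  have J2 : ∫ x, ‖evz (y : ℂ) x ((nu d : ℂ) • ψ)‖ ^ 2 ∂μ ≤
      Lev μ (fun l => xl d l ^ 2 * Real.exp (-(2 * ((l : ℝ) + nu d) * y))) (AP ψ) := by
    refine (hle _).trans_eq ?_
    rw [eH, Ey_mlt]
  have J3 : ∫ x, ‖evz (y : ℂ) x (AP (AP ψ))‖ ^ 2 / nu d ^ 2 ∂μ ≤
      Lev μ (fun l => nl d l ^ 2 * Real.exp (-(2 * ((l : ℝ) + nu d) * y))) (AP ψ) := by
    rw [integral_div]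
    have h1 := hle (AP (AP ψ))
    rw [mlt_AP (AP ψ), Ey_mlt] at h1
    rw [mlt_AP (AP ψ)]
    rw [div_le_iff₀ (by positivity)]
    refine h1.trans_eq ?_
    rw [mul_comm, ← FING.Lev_smul]
    refine Lev_congr (fun l => ?_) _
    unfold nl
    field_simp
  have hsum : ∀ P : Poly d, P ∈ HP d → ∀ m : ℕ → ℝ,
      ∫ x, 1 / 2 * ∑ p : Fin (d + 1) × Fin (d + 1),
        ‖evz (y : ℂ) x (LP p.1 p.2 (mlt m P))‖ ^ 2 ∂μ ≤
      Lev μ (fun l => (((l : ℝ) + nu d) ^ 2 - nu d ^ 2) * m l ^ 2 *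
        Real.exp (-(2 * ((l : ℝ) + nu d) * y))) P := by
    intro P hP m
    rw [← Ey_LP hν hμ y m hP, integral_const_mul,
      integral_finsetSum _ fun p _ => ic (LP p.1 p.2 (mlt m P)), Fintype.sum_prod_type]
    refine mul_le_mul_of_nonneg_left ?_ (by norm_num)
    exact Finset.sum_le_sum fun i _ => Finset.sum_le_sum fun j _ => hle _
  have J4 : ∫ x, 1 / 2 * ∑ p : Fin (d + 1) × Fin (d + 1),
        ‖evz (y : ℂ) x (LP p.1 p.2 ψ)‖ ^ 2 ∂μ ≤
      Lev μ (fun l => (nl d l ^ 2 - 1) * xl d l ^ 2 * Real.exp (-(2 * ((l : ℝ) + nu d) * y)))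
        (AP ψ) := by
    have h1 := hsum (AP ψ) hF (fun l => ((l : ℝ) + nu d)⁻¹)
    rw [← eψ] at h1
    refine h1.trans_eq (Lev_congr (fun l => ?_) _)
    have : ((l : ℝ) + nu d) ≠ 0 := by positivity
    unfold nl xl
    field_simp
  have J5 : ∫ x, 1 / 2 * ∑ p : Fin (d + 1) × Fin (d + 1),
        ‖evz (y : ℂ) x (LP p.1 p.2 (AP ψ))‖ ^ 2 ∂μ ≤
      nu d ^ 2 * Lev μ (fun l => (nl d l ^ 2 - 1) * 1 *
        Real.exp (-(2 * ((l : ℝ) + nu d) * y))) (AP ψ) := by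
    have h1 := hsum (AP ψ) hF (fun _ => 1)
    rw [mlt_one] at h1
    refine h1.trans_eq ?_
    rw [← FING.Lev_smul]
    refine Lev_congr (fun l => ?_) _
    unfold nl
    field_simp
  have iS : ∀ P : Poly d, Integrable (fun x => 1 / 2 * ∑ p : Fin (d + 1) × Fin (d + 1),
        ‖evz (y : ℂ) x (LP p.1 p.2 P)‖ ^ 2) μ := fun P =>
    (integrable_finsetSum _ fun p _ => ic (LP p.1 p.2 P)).const_mul _
  have e1 : ∀ x, errD ψ y x = ‖evz (y : ℂ) x (AP ψ)‖ ^ 2 + ‖evz (y : ℂ) x ((nu d : ℂ) • ψ)‖ ^ 2 +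
      ‖evz (y : ℂ) x (AP (AP ψ))‖ ^ 2 / nu d ^ 2 +
      1 / 2 * ∑ p : Fin (d + 1) × Fin (d + 1), ‖evz (y : ℂ) x (LP p.1 p.2 ψ)‖ ^ 2 +
      (nu d ^ 2)⁻¹ * (1 / 2 * ∑ p : Fin (d + 1) × Fin (d + 1),
        ‖evz (y : ℂ) x (LP p.1 p.2 (AP ψ))‖ ^ 2) := by
    intro x
    unfold errD
    rw [Finset.sum_add_distrib, ← Finset.sum_div]
    ring
  simp only [e1]
  have a1 := ic (AP ψ)
  have a2 := ic ((nu d : ℂ) • ψ)
  have a3 := (ic (AP (AP ψ))).div_const (nu d ^ 2)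
  have a4 := iS ψ
  have a5 := (iS (AP ψ)).const_mul (nu d ^ 2)⁻¹
  have f1 := integral_add (μ := μ) (((a1.add a2).add a3).add a4) a5
  have f2 := integral_add (μ := μ) ((a1.add a2).add a3) a4
  have f3 := integral_add (μ := μ) (a1.add a2) a3
  have f4 := integral_add (μ := μ) a1 a2
  simp only [Pi.add_apply] at f1 f2 f3 f4
  rw [f1, f2, f3, f4, integral_const_mul (nu d ^ 2)⁻¹]
  have J5' : (nu d ^ 2)⁻¹ * ∫ x, 1 / 2 * ∑ p : Fin (d + 1) × Fin (d + 1),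
        ‖evz (y : ℂ) x (LP p.1 p.2 (AP ψ))‖ ^ 2 ∂μ ≤
      Lev μ (fun l => (nl d l ^ 2 - 1) * 1 *
        Real.exp (-(2 * ((l : ℝ) + nu d) * y))) (AP ψ) := by
    rw [inv_mul_le_iff₀ (by positivity)]
    exact J5
  have eT : Lev μ (fun l => kapE d l * Real.exp (-(2 * ((l : ℝ) + nu d) * y))) (AP ψ) =
      Lev μ (fun l => 1 * Real.exp (-(2 * ((l : ℝ) + nu d) * y))) (AP ψ) +
      Lev μ (fun l => xl d l ^ 2 * Real.exp (-(2 * ((l : ℝ) + nu d) * y))) (AP ψ) +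
      Lev μ (fun l => nl d l ^ 2 * Real.exp (-(2 * ((l : ℝ) + nu d) * y))) (AP ψ) +
      Lev μ (fun l => (nl d l ^ 2 - 1) * xl d l ^ 2 * Real.exp (-(2 * ((l : ℝ) + nu d) * y)))
        (AP ψ) +
      Lev μ (fun l => (nl d l ^ 2 - 1) * 1 * Real.exp (-(2 * ((l : ℝ) + nu d) * y))) (AP ψ) := by
    rw [← FING.Lev_add, ← FING.Lev_add, ← FING.Lev_add, ← FING.Lev_add]
    refine Lev_congr (fun l => ?_) _
    unfold kapE
    ring
  rw [eT]
  linarith

/-! ### Growth conditions -/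

theorem fpw_bdd {δ : ℝ} (hδ : 0 < δ) (s M : ℝ) : ∃ B : ℝ, 0 ≤ B ∧ ∀ F : ℂ, ‖F‖ ≤ M →
    fpw δ s F ≤ B := by
  obtain ⟨B, hB⟩ := (isCompact_closedBall (0 : ℂ) M).bddAbove_image
    (c_fpw (X := ℂ) hδ s continuous_id).continuousOn
  refine ⟨max B 0, le_max_right _ _, fun F hF => (hB ⟨F, ?_, rfl⟩).trans (le_max_left _ _)⟩
  simpa using hF

theorem dot_abs_le (a b : ℂ) : |dot a b| ≤ ‖a‖ * ‖b‖ := by
  have h : dot a b = (conj a * b).re := by
    unfold dot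
    simp [mul_re]
  rw [h]
  refine (abs_re_le_norm _).trans_eq ?_
  rw [norm_mul, norm_conj]

theorem wed_abs_le (a b : ℂ) : |wed a b| ≤ ‖a‖ * ‖b‖ := by
  have h : wed a b = (conj a * b).im := by
    unfold wed
    simp [mul_im]
    ring
  rw [h]
  refine (abs_im_le_norm _).trans_eq ?_
  rw [norm_mul, norm_conj]

theorem sum_Ix (z : Ix d → ℂ) : ∑ i, ‖z i‖ ^ 2 =
    ‖z (Sum.inl 0)‖ ^ 2 + ‖z (Sum.inl 1)‖ ^ 2 +
      ∑ p : Fin (d + 1) × Fin (d + 1), ‖z (Sum.inr p)‖ ^ 2 := by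
  rw [Fintype.sum_sum_type, Fin.sum_univ_two]

theorem PhiD_growth (P : Prm) {δ : ℝ} (hδ : 0 < δ) (M : ℝ) : ∃ C : ℝ, ∀ z : Ix d → ℂ,
    (∀ i, ‖z i‖ ≤ M) → |(PhiD d P hδ).f0 z| ≤ C * ∑ i, ‖z i‖ ^ 2 := by
  obtain ⟨B, hB0, hB⟩ := fpw_bdd hδ P.q M
  obtain ⟨B', hB0', hB'⟩ := fpw_bdd hδ (P.q - 2) M
  refine ⟨B * (1 + |P.c| + |P.a|) + (|P.α| * B + |P.β| * B' * 2 * M ^ 2), fun z hz => ?_⟩
  have hM : 0 ≤ M := (norm_nonneg _).trans (hz (Sum.inl 0))
  rw [PhiD_f0, sum_Ix]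
  set F := z (Sum.inl 0) with hF
  set H := z (Sum.inl 1) with hH
  have hw := hB F (hz _)
  have hw' := hB' F (hz _)
  have hw0 := (fpw_pos hδ P.q F).le
  have hw0' := (fpw_pos hδ (P.q - 2) F).le
  -- the first part
  have A1 : |fpw δ P.q F * (dot H H + (-P.c * dot F F + -P.a * dot F H))| ≤
      B * (1 + |P.c| + |P.a|) * (‖F‖ ^ 2 + ‖H‖ ^ 2) := by
    rw [abs_mul, abs_of_nonneg hw0, dot_self, dot_self]
    have g1 : |‖H‖ ^ 2 + (-P.c * ‖F‖ ^ 2 + -P.a * dot F H)| ≤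
        (1 + |P.c| + |P.a|) * (‖F‖ ^ 2 + ‖H‖ ^ 2) := by
      have g2 := dot_abs_le F H
      have g3 : ‖F‖ * ‖H‖ ≤ ‖F‖ ^ 2 + ‖H‖ ^ 2 := by
        nlinarith [sq_nonneg (‖F‖ - ‖H‖), sq_nonneg ‖F‖, sq_nonneg ‖H‖]
      have g4 : |‖H‖ ^ 2 + (-P.c * ‖F‖ ^ 2 + -P.a * dot F H)| ≤
          ‖H‖ ^ 2 + (|P.c| * ‖F‖ ^ 2 + |P.a| * |dot F H|) := by
        refine (abs_add_le _ _).trans (add_le_add ?_ ((abs_add_le _ _).trans (add_le_add ?_ ?_)))
        · rw [abs_of_nonneg (sq_nonneg _)]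
        · rw [abs_mul, abs_neg, abs_of_nonneg (sq_nonneg ‖F‖)]
        · rw [abs_mul, abs_neg]
      have g5 : |P.a| * |dot F H| ≤ |P.a| * (‖F‖ ^ 2 + ‖H‖ ^ 2) :=
        mul_le_mul_of_nonneg_left (g2.trans g3) (abs_nonneg _)
      have g6 : 0 ≤ |P.c| * ‖H‖ ^ 2 := by positivity
      nlinarith [sq_nonneg ‖F‖]
    calc fpw δ P.q F * |‖H‖ ^ 2 + (-P.c * ‖F‖ ^ 2 + -P.a * dot F H)| ≤
          B * ((1 + |P.c| + |P.a|) * (‖F‖ ^ 2 + ‖H‖ ^ 2)) :=
          mul_le_mul hw g1 (abs_nonneg _) hB0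
      _ = _ := by ring
  -- the second part
  have A2 : ∀ p : Fin (d + 1) × Fin (d + 1),
      |P.α * (fpw δ P.q F * dot (z (Sum.inr p)) (z (Sum.inr p))) +
        P.β * (fpw δ (P.q - 2) F *
          (dot F (z (Sum.inr p)) * dot F (z (Sum.inr p)) +
          -1 * (wed F (z (Sum.inr p)) * wed F (z (Sum.inr p)))))| ≤
      (|P.α| * B + |P.β| * B' * 2 * M ^ 2) * ‖z (Sum.inr p)‖ ^ 2 := by
    intro p
    set v := z (Sum.inr p) with hv
    have hFM : ‖F‖ ≤ M := hz _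
    have g1 : |P.α * (fpw δ P.q F * dot v v)| ≤ |P.α| * B * ‖v‖ ^ 2 := by
      rw [abs_mul, abs_mul, abs_of_nonneg hw0, dot_self, abs_of_nonneg (sq_nonneg ‖v‖), mul_assoc]
      exact mul_le_mul_of_nonneg_left (mul_le_mul_of_nonneg_right hw (sq_nonneg _)) (abs_nonneg _)
    have hsq : ‖F‖ ^ 2 ≤ M ^ 2 := pow_le_pow_left₀ (norm_nonneg _) hFM 2
    have g2 : |dot F v * dot F v + -1 * (wed F v * wed F v)| ≤ 2 * M ^ 2 * ‖v‖ ^ 2 := by
      have k1 : |dot F v * dot F v| ≤ M ^ 2 * ‖v‖ ^ 2 := by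
        rw [abs_mul]
        calc |dot F v| * |dot F v| ≤ (‖F‖ * ‖v‖) * (‖F‖ * ‖v‖) :=
              mul_le_mul (dot_abs_le _ _) (dot_abs_le _ _) (abs_nonneg _) (by positivity)
          _ = ‖F‖ ^ 2 * ‖v‖ ^ 2 := by ring
          _ ≤ _ := mul_le_mul_of_nonneg_right hsq (sq_nonneg _)
      have k2 : |wed F v * wed F v| ≤ M ^ 2 * ‖v‖ ^ 2 := by
        rw [abs_mul]
        calc |wed F v| * |wed F v| ≤ (‖F‖ * ‖v‖) * (‖F‖ * ‖v‖) :=
              mul_le_mul (wed_abs_le _ _) (wed_abs_le _ _) (abs_nonneg _) (by positivity)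
          _ = ‖F‖ ^ 2 * ‖v‖ ^ 2 := by ring
          _ ≤ _ := mul_le_mul_of_nonneg_right hsq (sq_nonneg _)
      refine (abs_add_le _ _).trans ?_
      rw [neg_one_mul, abs_neg]
      linarith
    have g3 : |P.β * (fpw δ (P.q - 2) F * (dot F v * dot F v + -1 * (wed F v * wed F v)))| ≤
        |P.β| * B' * 2 * M ^ 2 * ‖v‖ ^ 2 := by
      rw [abs_mul, abs_mul, abs_of_nonneg hw0']
      calc |P.β| * (fpw δ (P.q - 2) F * |dot F v * dot F v + -1 * (wed F v * wed F v)|) ≤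
            |P.β| * (B' * (2 * M ^ 2 * ‖v‖ ^ 2)) :=
            mul_le_mul_of_nonneg_left (mul_le_mul hw' g2 (abs_nonneg _) hB0') (abs_nonneg _)
        _ = _ := by ring
    refine (abs_add_le _ _).trans ?_
    rw [add_mul]
    exact add_le_add g1 g3
  set K2 := |P.α| * B + |P.β| * B' * 2 * M ^ 2 with hK2
  have hK2' : 0 ≤ K2 := by positivity
  set K1 := B * (1 + |P.c| + |P.a|) with hK1
  have hK1' : 0 ≤ K1 := by positivity
  have A3 : |1 / 2 * ∑ p, (P.α * (fpw δ P.q F * dot (z (Sum.inr p)) (z (Sum.inr p))) +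
        P.β * (fpw δ (P.q - 2) F *
          (dot F (z (Sum.inr p)) * dot F (z (Sum.inr p)) +
          -1 * (wed F (z (Sum.inr p)) * wed F (z (Sum.inr p))))))| ≤
      K2 * ∑ p, ‖z (Sum.inr p)‖ ^ 2 := by
    rw [abs_mul, abs_of_pos (by norm_num : (0 : ℝ) < 1 / 2), Finset.mul_sum]
    have k1 := (Finset.abs_sum_le_sum_abs (fun p => P.α * (fpw δ P.q F *
        dot (z (Sum.inr p)) (z (Sum.inr p))) +
        P.β * (fpw δ (P.q - 2) F *
          (dot F (z (Sum.inr p)) * dot F (z (Sum.inr p)) +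
          -1 * (wed F (z (Sum.inr p)) * wed F (z (Sum.inr p)))))) Finset.univ).trans
      (Finset.sum_le_sum fun p _ => A2 p)
    have k2 : 0 ≤ ∑ p : Fin (d + 1) × Fin (d + 1), K2 * ‖z (Sum.inr p)‖ ^ 2 :=
      Finset.sum_nonneg fun p _ => by positivity
    linarith
  refine (abs_add_le _ _).trans ((add_le_add A1 A3).trans ?_)
  have s1 : 0 ≤ ∑ p : Fin (d + 1) × Fin (d + 1), ‖z (Sum.inr p)‖ ^ 2 :=
    Finset.sum_nonneg fun p _ => by positivity
  have s2 : 0 ≤ ‖F‖ ^ 2 + ‖H‖ ^ 2 := by positivity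
  nlinarith [mul_nonneg hK1' s1, mul_nonneg hK2' s2]

theorem XiD_growth (P : Prm) {δ : ℝ} (hδ : 0 < δ) (M : ℝ) : ∃ C : ℝ, ∀ z : Ix d → ℂ,
    (∀ i, ‖z i‖ ≤ M) → |(XiD d P hδ).f0 z| ≤ C * ∑ i, ‖z i‖ ^ 2 := by
  obtain ⟨B', hB0', hB'⟩ := fpw_bdd hδ (P.q - 2) M
  refine ⟨|nu d * P.ξ / 2| * (B' * M ^ 2), fun z hz => ?_⟩
  have hM : 0 ≤ M := (norm_nonneg _).trans (hz (Sum.inl 0))
  rw [XiD_f0, sum_Ix, abs_mul]
  set F := z (Sum.inl 0) with hF
  have hw' := hB' F (hz _)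
  have hw0' := (fpw_pos hδ (P.q - 2) F).le
  have hFM : ‖F‖ ≤ M := hz _
  have hsq : ‖F‖ ^ 2 ≤ M ^ 2 := pow_le_pow_left₀ (norm_nonneg _) hFM 2
  have A2 : ∀ p : Fin (d + 1) × Fin (d + 1),
      |fpw δ (P.q - 2) F * (wed F (z (Sum.inr p)) * wed F (z (Sum.inr p)))| ≤
        (B' * M ^ 2) * ‖z (Sum.inr p)‖ ^ 2 := by
    intro p
    set v := z (Sum.inr p) with hv
    have k2 : |wed F v * wed F v| ≤ M ^ 2 * ‖v‖ ^ 2 := by
      rw [abs_mul]
      calc |wed F v| * |wed F v| ≤ (‖F‖ * ‖v‖) * (‖F‖ * ‖v‖) :=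
            mul_le_mul (wed_abs_le _ _) (wed_abs_le _ _) (abs_nonneg _) (by positivity)
        _ = ‖F‖ ^ 2 * ‖v‖ ^ 2 := by ring
        _ ≤ _ := mul_le_mul_of_nonneg_right hsq (sq_nonneg _)
    rw [abs_mul, abs_of_nonneg hw0']
    calc fpw δ (P.q - 2) F * |wed F v * wed F v| ≤ B' * (M ^ 2 * ‖v‖ ^ 2) :=
          mul_le_mul hw' k2 (abs_nonneg _) hB0'
      _ = _ := by ring
  have k1 := (Finset.abs_sum_le_sum_abs (fun p => fpw δ (P.q - 2) F *
      (wed F (z (Sum.inr p)) * wed F (z (Sum.inr p)))) Finset.univ).trans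
      (Finset.sum_le_sum fun p _ => A2 p)
  rw [mul_assoc]
  refine mul_le_mul_of_nonneg_left (k1.trans ?_) (abs_nonneg _)
  rw [← Finset.mul_sum]
  refine mul_le_mul_of_nonneg_left ?_ (by positivity)
  have s2 : 0 ≤ ‖F‖ ^ 2 + ‖z (Sum.inl 1)‖ ^ 2 := by positivity
  linarith

theorem XiD_nonneg (hν : 0 < nu d) (P : Prm) (hξ : 0 ≤ P.ξ) {δ : ℝ} (hδ : 0 < δ) (z : Ix d → ℂ) :
    0 ≤ (XiD d P hδ).f0 z := by
  rw [XiD_f0]
  have h : 0 ≤ ∑ p : Fin (d + 1) × Fin (d + 1), fpw δ (P.q - 2) (z (Sum.inl 0)) *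
      (wed (z (Sum.inl 0)) (z (Sum.inr p)) * wed (z (Sum.inl 0)) (z (Sum.inr p))) :=
    Finset.sum_nonneg fun p _ => mul_nonneg (fpw_pos hδ _ _).le (mul_self_nonneg _)
  positivity

/-- the density at depth zero is at most the regularised target -/
theorem PhiD_le (P : Prm) (hαβ : P.α + P.β = 1) (hβ : 0 ≤ P.β) {δ : ℝ} (hδ : 0 < δ) (ψ : Poly d)
    (x : CC d) : (PhiD d P hδ).f0 (fun i => ev (Pj ψ i) x) ≤
      fpw δ P.q (ev (AP ψ) x) * Tden P.c P.a ψ x := by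
  have e0 : ev (Pj ψ (Sum.inl 0)) x = ev (AP ψ) x := rfl
  have e1 : ev (Pj ψ (Sum.inl 1)) x = (nu d : ℂ) * ev ψ x := by
    change ev ((nu d : ℂ) • ψ) x = _
    rw [Alg.ev_smul]
  have e2 : ∀ p, ev (Pj ψ (Sum.inr p)) x = ev (LP p.1 p.2 ψ) x := fun p => rfl
  rw [PhiD_f0]
  simp only [e0, e1, e2]
  set F := ev (AP ψ) x with hF
  have hw := (fpw_pos hδ P.q F).le
  have hA : ∀ p : Fin (d + 1) × Fin (d + 1),
      P.α * (fpw δ P.q F * dot (ev (LP p.1 p.2 ψ) x) (ev (LP p.1 p.2 ψ) x)) +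
        P.β * (fpw δ (P.q - 2) F *
          (dot F (ev (LP p.1 p.2 ψ) x) * dot F (ev (LP p.1 p.2 ψ) x) +
          -1 * (wed F (ev (LP p.1 p.2 ψ) x) * wed F (ev (LP p.1 p.2 ψ) x)))) ≤
      fpw δ P.q F * ‖ev (LP p.1 p.2 ψ) x‖ ^ 2 := by
    intro p
    set v := ev (LP p.1 p.2 ψ) x with hv
    have k1 : dot F v * dot F v + -1 * (wed F v * wed F v) ≤ ‖F‖ ^ 2 * ‖v‖ ^ 2 := by
      have k2 : dot F v * dot F v ≤ ‖F‖ ^ 2 * ‖v‖ ^ 2 := by
        have := mul_le_mul (dot_abs_le F v) (dot_abs_le F v) (abs_nonneg _) (by positivity)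
        rw [← abs_mul, abs_mul_self] at this
        linarith [this, show ‖F‖ * ‖v‖ * (‖F‖ * ‖v‖) = ‖F‖ ^ 2 * ‖v‖ ^ 2 by ring]
      nlinarith [mul_self_nonneg (wed F v)]
    have k3 : fpw δ (P.q - 2) F * (‖F‖ ^ 2 * ‖v‖ ^ 2) ≤ fpw δ P.q F * ‖v‖ ^ 2 := by
      have k4 : fpw δ P.q F = fpw δ (P.q - 2) F * rs δ F := by
        rw [← fpw_two, ← fpw_add hδ]
        congr 1
        ring
      rw [k4, mul_assoc]
      refine mul_le_mul_of_nonneg_left ?_ (fpw_pos hδ _ _).le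
      refine mul_le_mul_of_nonneg_right ?_ (sq_nonneg _)
      unfold rs
      rw [dot_self]
      nlinarith [sq_nonneg δ]
    have k5 := mul_le_mul_of_nonneg_left k1 (fpw_pos hδ (P.q - 2) F).le
    have k6 := mul_le_mul_of_nonneg_left (k5.trans k3) hβ
    rw [dot_self]
    have k7 : P.α * (fpw δ P.q F * ‖v‖ ^ 2) + P.β * (fpw δ P.q F * ‖v‖ ^ 2) =
        fpw δ P.q F * ‖v‖ ^ 2 := by
      rw [← add_mul, hαβ, one_mul]
    linarith
  have hS := Finset.sum_le_sum fun p (_ : p ∈ (Finset.univ : Finset (Fin (d + 1) × Fin (d + 1)))) =>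
    hA p
  have e3 : fpw δ P.q F * Tden P.c P.a ψ x =
      fpw δ P.q F * (dot ((nu d : ℂ) * ev ψ x) ((nu d : ℂ) * ev ψ x) +
      (-P.c * dot F F + -P.a * dot F ((nu d : ℂ) * ev ψ x))) +
      1 / 2 * ∑ p : Fin (d + 1) × Fin (d + 1), fpw δ P.q F * ‖ev (LP p.1 p.2 ψ) x‖ ^ 2 := by
    unfold Tden
    rw [← Finset.mul_sum, Fintype.sum_prod_type, dot_self, dot_self]
    ring
  rw [e3]
  linarith

/-! ### The functional inequality from the pointwise inequality -/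

/-- The functional inequality. `P` are the parameters of the certificate, `s` the scaled shift,
`A`, `B`, `α`, `β` the constants of the tangent line. -/
theorem funcGF_of_pointwise [Fact (2 ≤ d)] (hμ : Law μ) (hp : pe d - 2 ≤ 2) (P : Prm)
    (hq : P.q = pe d - 2) (hαβ : P.α + P.β = 1) (hβ : 0 ≤ P.β) (hξ : 0 ≤ P.ξ)
    {w0 r0 w1 r1 : ℝ} (h0 : 0 ≤ w0) (h1 : 0 ≤ w1) {A B α β s : ℝ} (hs2 : s < 2) (hα : α + s < 4)
    (hβ' : s < 2 + β)
    (hT : ∀ U y : ℝ, 0 ≤ U → 0 ≤ y → U ^ ((pe d - 2) / 2) ≤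
      A * Real.exp (α * nu d * y) * U + B * Real.exp (-(β * nu d * y)))
    {C : ℝ} (hC : 0 ≤ C)
    (h : ∀ (δ : ℝ) (hδ : 0 < δ), δ ≤ 1 → ∀ y : ℝ, 0 ≤ y → ∀ ψ ∈ HP d,
      ∃ Z : CC d → ℝ, Zr μ Z ∧ ∀ᵐ x ∂μ, 0 ≤ (PhiD d P hδ).f2 (jet (Pj ψ) y x)
        (fun i => -(evz y x (AP (Pj ψ i)))) (fun i => evz y x (AP (AP (Pj ψ i)))) +
        2 * (s * nu d) * (PhiD d P hδ).f1 (jet (Pj ψ) y x) (fun i => -(evz y x (AP (Pj ψ i)))) +
        (s * nu d) ^ 2 * (PhiD d P hδ).f0 (jet (Pj ψ) y x) +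
        ((XiD d P hδ).f1 (jet (Pj ψ) y x) (fun i => -(evz y x (AP (Pj ψ i)))) +
          (s * nu d) * (XiD d P hδ).f0 (jet (Pj ψ) y x)) +
        Z x + nu d ^ 2 * (cstD (pe d - 2) w0 r0 w1 r1 δ ψ y x +
          C * δ ^ (pe d - 2) * errD ψ y x)) :
    FuncGF μ 0 0 P.c P.a (CstL μ (kapG d w0 r0 w1 r1) A B α β s) := by
  have hν := nu_pos d
  refine funcGF_of_reg hμ hp fun S hS hmax ψ hψ _ => ?_
  refine ⟨CstD μ (fun l => kapG d w0 r0 w1 r1 l + C * kapE d l) s (AP ψ), fun δ hδ hδ1 => ?_⟩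
  have hδq : 0 ≤ δ ^ (pe d - 2) := Real.rpow_nonneg hδ.le _
  have key := depth_law2 (P := Pj ψ) (F := AP ψ) (κ := kapG d w0 r0 w1 r1)
    (κ' := fun l => kapG d w0 r0 w1 r1 l + C * kapE d l) (δ := δ) (A := A) (B := B) (α := α)
    (β := β) (s := s) hμ hS (PhiD d P hδ) (XiD d P hδ) (PhiD_growth P hδ) (XiD_growth P hδ)
    (XiD_nonneg hν P hξ hδ) (kapG_nonneg hν h0 h1) hs2 hα hβ' hT (fun y hy => by
      obtain ⟨Z, hZ, hx⟩ := h δ hδ hδ1 y hy ψ hψ
      have i1 : Integrable (cstD (pe d - 2) w0 r0 w1 r1 δ ψ y) μ :=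
        Alg.integrable hμ (cstD_cont hδ _ _ _ _ _ ψ y)
      have i2 : Integrable (errD ψ y) μ := Alg.integrable hμ (errD_cont ψ y)
      refine ⟨Z, fun x => nu d ^ 2 * (cstD (pe d - 2) w0 r0 w1 r1 δ ψ y x +
          C * δ ^ (pe d - 2) * errD ψ y x), hZ, (i1.add (i2.const_mul _)).const_mul _, ?_, hx⟩
      rw [integral_const_mul]
      refine mul_le_mul_of_nonneg_left ?_ (sq_nonneg _)
      rw [integral_add i1 (i2.const_mul _), integral_const_mul]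
      have b1 := cstD_int hμ hp hS hmax hψ hδ (r0 := r0) (r1 := r1) h0 h1 y
      have b2 := mul_le_mul_of_nonneg_left (errD_int hν hμ hψ y)
        (show 0 ≤ C * δ ^ (pe d - 2) by positivity)
      have e1 : Lev μ (fun l => (kapG d w0 r0 w1 r1 l + C * kapE d l) *
          Real.exp (-(2 * ((l : ℝ) + nu d) * y))) (AP ψ) =
          Lev μ (fun l => kapG d w0 r0 w1 r1 l * Real.exp (-(2 * ((l : ℝ) + nu d) * y))) (AP ψ) +
          C * Lev μ (fun l => kapE d l * Real.exp (-(2 * ((l : ℝ) + nu d) * y))) (AP ψ) := by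
        rw [← FING.Lev_smul, ← FING.Lev_add]
        exact Lev_congr (fun l => by ring) _
      rw [e1]
      linarith)
  have hle : ∫ x, (PhiD d P hδ).f0 (fun i => ev (Pj ψ i) x) ∂μ ≤
      ∫ x, fpw δ (pe d - 2) (ev (AP ψ) x) * Tden P.c P.a ψ x ∂μ := by
    refine integral_mono ?_ ?_ fun x => ?_
    · exact Alg.integrable hμ ((PhiD d P hδ).c0.comp (continuous_pi fun i => continuous_ev _))
    · exact Alg.integrable hμ ((c_fpw hδ _ (continuous_ev _)).mul (Tden_cont _ _ ψ))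
    · change (PhiD d P hδ).f0 (fun i => ev (Pj ψ i) x) ≤
        fpw δ (pe d - 2) (ev (AP ψ) x) * Tden P.c P.a ψ x
      rw [← hq]
      exact PhiD_le P hαβ hβ hδ ψ x
  linarith

end FI

end Pool.Agent.ConeG
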