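import Mathlib

/-!
# The pointwise inequality of the certificate in dimension six

`q0_nonneg`, `q1_nonneg`: the two polynomials of the certificate are sums of squares.
-/

set_option autoImplicit false

namespace Pool.Agent.ConeG.Pt6

/-- the part without tangential derivatives -/
theorem q0_nonneg (hr hi er ei : ℝ) : 0 ≤
    (223 / 50) + (2233 / 5000) * ei ^ 2 + (-337 / 125) * er + (3033 / 5000) * er ^ 2 + (207 /
    1000) * hi * ei + (1604257 / 390625) * hi ^ 2 + (16 / 25) * hi ^ 2 * ei ^ 2 + (-8 / 5) * hi ^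
    2 * er + (16 / 25) * hi ^ 2 * er ^ 2 + (-106063 / 12500) * hr + (-658 / 625) * hr * ei ^ 2 +
    (4127 / 1000) * hr * er + (-658 / 625) * hr * er ^ 2 + (1604257 / 390625) * hr ^ 2 + (16 /
    25) * hr ^ 2 * ei ^ 2 + (-8 / 5) * hr ^ 2 * er + (16 / 25) * hr ^ 2 * er ^ 2 := by
  have h :
    (223 / 50) + (2233 / 5000) * ei ^ 2 + (-337 / 125) * er + (3033 / 5000) * er ^ 2 + (207 /
    1000) * hi * ei + (1604257 / 390625) * hi ^ 2 + (16 / 25) * hi ^ 2 * ei ^ 2 + (-8 / 5) * hi ^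
    2 * er + (16 / 25) * hi ^ 2 * er ^ 2 + (-106063 / 12500) * hr + (-658 / 625) * hr * ei ^ 2 +
    (4127 / 1000) * hr * er + (-658 / 625) * hr * er ^ 2 + (1604257 / 390625) * hr ^ 2 + (16 /
    25) * hr ^ 2 * ei ^ 2 + (-8 / 5) * hr ^ 2 * er + (16 / 25) * hr ^ 2 * er ^ 2 =
    (223 / 50) * (1 + (-337 / 1115) * (er) + (1483 / 8920) * (hr * er) + (61 / 1784) * (hi * ei)
    + (-106063 / 111500) * (hr)) ^ 2 + (222083 / 1115000) * ((er) + (-674101 / 444166) * (hr *
    er) + (-102375 / 444166) * (hi * ei) + (1107519 / 5552075) * (hr)) ^ 2 + (1029513583 /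
    17766640000) * ((hr * er) + (319308205 / 1029513583) * (hi * ei) + (-15260413558 /
    25737839575) * (hr)) ^ 2 + (63688811623 / 102951358300) * ((hi * ei) + (30396070209 /
    419005339625) * (hr)) ^ 2 + (207935512659181 / 5237566745312500) * ((hr)) ^ 2 + (2233 / 5000)
    * ((ei) + (-376 / 319) * (hr * ei) + (460 / 2233) * (hi * er) + (-35 / 319) * (hi)) ^ 2 +
    (3896 / 199375) * ((hr * ei) + (-7275 / 31168) * (hi * er) + (6205 / 1948) * (hi)) ^ 2 +
    (5410619 / 8727040) * ((hi * er) + (-33833744 / 27053095) * (hi)) ^ 2 + (49600725643789 /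
    16908184375000) * ((hi)) ^ 2 := by
    ring
  rw [h]
  positivity

/-- the part with the tangential derivatives -/
theorem q1_nonneg (er ei br bi vr vi : ℝ) : 0 ≤
    (442127 / 250000) * vi ^ 2 + (400877 / 250000) * vr ^ 2 + (-4267 / 2500) * bi * vi + (87 /
    200) * bi ^ 2 + (-4527 / 2500) * br * vr + (119 / 200) * br ^ 2 + (87 / 125) * ei * vr * vi +
    (52 / 125) * ei * bi * vr + (-323 / 250) * ei * br * vi + (2501 / 2500) * ei ^ 2 * vi ^ 2 +
    (11 / 100) * ei ^ 2 * vr ^ 2 + (-66 / 25) * er * vi ^ 2 + (-12 / 25) * er * vr ^ 2 + (323 /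
    250) * er * bi * vi + (52 / 125) * er * br * vr + (2501 / 2500) * er ^ 2 * vi ^ 2 + (11 /
    100) * er ^ 2 * vr ^ 2 := by
  have h :
    (442127 / 250000) * vi ^ 2 + (400877 / 250000) * vr ^ 2 + (-4267 / 2500) * bi * vi + (87 /
    200) * bi ^ 2 + (-4527 / 2500) * br * vr + (119 / 200) * br ^ 2 + (87 / 125) * ei * vr * vi +
    (52 / 125) * ei * bi * vr + (-323 / 250) * ei * br * vi + (2501 / 2500) * ei ^ 2 * vi ^ 2 +
    (11 / 100) * ei ^ 2 * vr ^ 2 + (-66 / 25) * er * vi ^ 2 + (-12 / 25) * er * vr ^ 2 + (323 /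
    250) * er * bi * vi + (52 / 125) * er * br * vr + (2501 / 2500) * er ^ 2 * vi ^ 2 + (11 /
    100) * er ^ 2 * vr ^ 2 =
    (119 / 200) * ((br) + (208 / 595) * (vr * er) + (-38 / 35) * (vi * ei) + (-4527 / 2975) *
    (vr)) ^ 2 + (11093 / 297500) * ((vr * er) + (-26826 / 11093) * (vi * ei) + (113808 / 55465) *
    (vr)) ^ 2 + (2245463 / 27732500) * ((vi * ei) + (-80636 / 204133) * (vr)) ^ 2 + (2865770491 /
    51033250000) * ((vr)) ^ 2 + (87 / 200) * ((bi) + (646 / 435) * (vi * er) + (208 / 435) * (vr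
    * ei) + (-4267 / 2175) * (vi)) ^ 2 + (8929 / 217500) * ((vi * er) + (1546 / 8929) * (vr * ei)
    + (-57259 / 44645) * (vi)) ^ 2 + (207863 / 22322500) * ((vr * ei) + (-91647 / 1039315) *
    (vi)) ^ 2 + (1386128351 / 51965750000) * ((vi)) ^ 2 := by
    ring
  rw [h]
  positivity

end Pool.Agent.ConeG.Pt6
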