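import Pool.Agent.Work.MP_b0b133_an.G.STAR

/-!
# The constants of STAR in dimension six
-/

set_option autoImplicit false

namespace Pool.Agent.ConeG

theorem pe_six : pe 6 - 2 = 4 / 5 := by
  unfold pe
  norm_num

theorem nu_six : nu 6 = 5 / 2 := by
  unfold nu
  norm_num

theorem xl_six (l : ℕ) : xl 6 l = 5 / (2 * (l : ℝ) + 5) := by
  unfold xl
  rw [nu_six]
  have : (2 * (l : ℝ) + 5) ≠ 0 := by positivity
  field_simp

theorem starC_six : StarC (pe 6 - 2) (201 / 250) where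
  le := by rw [pe_six]; norm_num
  pt := fun t ht => by
    rw [pe_six]
    have h := one_add_mul_self_le_rpow_one_add (s := 32 * t - 1) (by linarith)
      (p := (1 + 4 / 5 : ℝ)) (by norm_num)
    rw [add_sub_cancel, Real.mul_rpow (by norm_num) ht] at h
    have h2 : (32 : ℝ) ^ (1 + 4 / 5 : ℝ) = 512 := by
      rw [show (32 : ℝ) = 2 ^ (5 : ℝ) by norm_num, ← Real.rpow_mul (by norm_num)]
      norm_num
    rw [h2] at h
    nlinarith [sq_nonneg (t - 1 / 20)]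

theorem ovlC_six : OvlC 6 (201 / 250) (379 / 500) := by
  intro r hr hr1
  rw [pe_six, xl_six]
  have hr0 : 0 < r := by linarith
  -- `s = r ^ (2/5)`
  set s := r ^ (2 / 5 : ℝ) with hs
  have hs0 : 0 ≤ s := Real.rpow_nonneg hr0.le _
  have hs1 : s ≤ 1 := Real.rpow_le_one hr0.le hr1 (by norm_num)
  have e5 : s ^ 5 = r ^ 2 := by
    rw [hs, ← Real.rpow_natCast, ← Real.rpow_natCast, ← Real.rpow_mul hr0.le]
    norm_num
  have e3 : s ^ 3 = r ^ (2 - 4 / 5 : ℝ) := by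
    rw [hs, ← Real.rpow_natCast, ← Real.rpow_mul hr0.le]
    norm_num
  have h1 : (179 / 200 : ℝ) ≤ s := by
    by_contra hcon
    push Not at hcon
    have h2 : s ^ 5 < (179 / 200) ^ 5 := pow_lt_pow_left₀ hcon hs0 (by norm_num)
    rw [e5] at h2
    nlinarith
  rw [← e3, ← e5]
  have h3 : 0 ≤ (1 - s) * (s ^ 3 * (1 + s) - 301 / 900 * (1 + s + s ^ 2 + s ^ 3 + s ^ 4)) := by
    refine mul_nonneg (by linarith) ?_
    have h4 : (179 / 200 : ℝ) ^ 3 ≤ s ^ 3 := pow_le_pow_left₀ (by norm_num) h1 3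
    have h5 : (179 / 200 : ℝ) ^ 4 ≤ s ^ 4 := pow_le_pow_left₀ (by norm_num) h1 4
    -- `s³ + s⁴ - c (1 + s + s² + s³ + s⁴)` is increasing
    nlinarith [mul_nonneg (sub_nonneg.2 h1) hs0, mul_nonneg (sub_nonneg.2 h1) (pow_nonneg hs0 2),
      mul_nonneg (sub_nonneg.2 h1) (pow_nonneg hs0 3), sub_nonneg.2 h1]
  norm_num
  nlinarith [h3]

theorem r1_six : (759 / 1000 : ℝ) ^ (pe 6 - 2) ≤ 8021 / 10000 := by
  rw [pe_six]
  by_contra hcon
  push Not at hcon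
  have h1 : (8021 / 10000 : ℝ) ^ 5 < ((759 / 1000 : ℝ) ^ (4 / 5 : ℝ)) ^ 5 :=
    pow_lt_pow_left₀ hcon (by norm_num) (by norm_num)
  have h2 : ((759 / 1000 : ℝ) ^ (4 / 5 : ℝ)) ^ 5 = (759 / 1000) ^ 4 := by
    rw [← Real.rpow_natCast, ← Real.rpow_natCast, ← Real.rpow_mul (by norm_num)]
    norm_num
  rw [h2] at h1
  norm_num at h1

/-- `Sharp 6` from a functional inequality with costs: the deficit `α` at level zero is paid by the
weight `β` of `x_l` -/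
theorem sharp_six_of [Fact (2 ≤ 6)] {l1 l2 c a : ℝ} {k : ℕ → ℝ} (hl1 : 0 ≤ l1) (hl2 : 0 ≤ l2)
    (hc : 0 ≤ c) {α β δ : ℝ} (hα : 0 ≤ α) (hβ : 0 ≤ β) (hδ : 0 < δ)
    (hαβ : α ≤ 4098 / 10000 * β)
    (hm0 : 1 + l2 + k 0 ≤ c + a + α)
    (hm : ∀ l, 1 ≤ l → (1 / 5 + l1) + (4 / 5 - l1 + l2) * xl 6 l ^ 2 +
      β * xl 6 l + δ + k l ≤ c + a * xl 6 l)
    (hG : FuncGC (muX 6) l1 l2 c a k) : Sharp 6 := by
  refine sharp_of_star (by norm_num) (by rw [pe_six]; norm_num) starC_six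
    (r0 := 379 / 500) (r1 := 759 / 1000) (by norm_num) (by norm_num) (by norm_num) ovlC_six
    hl1 hl2 hc hα hβ hδ ?_ hm0 (fun l hl => ?_) hG
  · have h1 := r1_six
    have h0 : 0 ≤ (759 / 1000 : ℝ) ^ (pe 6 - 2) := by positivity
    set u := (759 / 1000 : ℝ) ^ (pe 6 - 2) with hu
    rw [pe_six]
    nlinarith [mul_le_mul_of_nonneg_left h1 hα, mul_le_mul_of_nonneg_left h1 hβ]
  · have := hm l hl
    rw [pe_six]
    linarith

end Pool.Agent.ConeG
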