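import Pool.Agent.Work.MP_b0b133_an.G.FIi
import Pool.Agent.Work.MP_b0b133_an.G.STAR6

/-!
# The constants of the law-wise costs in dimension six
-/

set_option autoImplicit false
open MeasureTheory Complex

namespace Pool.Agent.ConeG

/-- the multiplier of the costs `w0 |F - r0 H|² + w1 |b - r1 v|²` at a level, `x = x_l`,
`n = 1/x_l` -/
noncomputable def kap6 (l : ℕ) : ℝ :=
  387 / 100 * (1 - 112 / 125 * xl 6 l) ^ 2 +
    (nl 6 l ^ 2 - 1) * (157 / 100 * (1 - 31 / 50 * xl 6 l) ^ 2)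

theorem nl_six (l : ℕ) : nl 6 l = 1 + 2 / 5 * l := by
  unfold nl
  rw [nu_six]
  ring

theorem kap6_nonneg (l : ℕ) : 0 ≤ kap6 l := by
  have h : 0 ≤ nl 6 l ^ 2 - 1 := by
    rw [nl_six]
    have := Nat.cast_nonneg (α := ℝ) l
    nlinarith
  unfold kap6
  positivity

/-- the tangent line of `U ^ (2/5)` -/
theorem tangent_six (U y : ℝ) (hU : 0 ≤ U) (_hy : 0 ≤ y) : U ^ ((pe 6 - 2) / 2) ≤
    13 / 25 * Real.exp (1 * nu 6 * y) * U + 63 / 125 * Real.exp (-(2 / 3 * nu 6 * y)) := by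
  rw [pe_six, nu_six]
  have e1 : (4 / 5 / 2 : ℝ) = 2 / 5 := by norm_num
  rw [e1]
  set E := Real.exp (1 * (5 / 2) * y) with hE
  have hE0 : 0 < E := Real.exp_pos _
  have hE2 : Real.exp (-(2 / 3 * (5 / 2) * y)) = E ^ (-(2 / 3) : ℝ) := by
    rw [hE, ← Real.exp_mul]
    congr 1
    ring
  rw [hE2]
  have h := Real.geom_mean_le_arith_mean2_weighted (w₁ := 2 / 5) (w₂ := 3 / 5)
    (p₁ := 13 / 10 * (E * U)) (p₂ := 21 / 25 * E ^ (-(2 / 3) : ℝ)) (by norm_num) (by norm_num)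
    (by positivity) (by positivity) (by norm_num)
  have e2 : (13 / 10 * (E * U)) ^ (2 / 5 : ℝ) * (21 / 25 * E ^ (-(2 / 3) : ℝ)) ^ (3 / 5 : ℝ) =
      ((13 / 10 : ℝ) ^ (2 / 5 : ℝ) * (21 / 25 : ℝ) ^ (3 / 5 : ℝ)) * U ^ (2 / 5 : ℝ) := by
    rw [Real.mul_rpow (by norm_num) (by positivity), Real.mul_rpow hE0.le hU,
      Real.mul_rpow (by norm_num) (by positivity), ← Real.rpow_mul hE0.le]
    have e3 : E ^ (2 / 5 : ℝ) * E ^ (-(2 / 3) * (3 / 5) : ℝ) = 1 := by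
      rw [← Real.rpow_add hE0]
      norm_num
    calc (13 / 10 : ℝ) ^ (2 / 5 : ℝ) * (E ^ (2 / 5 : ℝ) * U ^ (2 / 5 : ℝ)) *
          ((21 / 25 : ℝ) ^ (3 / 5 : ℝ) * E ^ (-(2 / 3) * (3 / 5) : ℝ))
        = ((13 / 10 : ℝ) ^ (2 / 5 : ℝ) * (21 / 25 : ℝ) ^ (3 / 5 : ℝ)) * U ^ (2 / 5 : ℝ) *
          (E ^ (2 / 5 : ℝ) * E ^ (-(2 / 3) * (3 / 5) : ℝ)) := by ring
      _ = _ := by rw [e3, mul_one]
  rw [e2] at h
  have e4 : 1 ≤ (13 / 10 : ℝ) ^ (2 / 5 : ℝ) * (21 / 25 : ℝ) ^ (3 / 5 : ℝ) := by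
    by_contra hcon
    push Not at hcon
    have h0 : 0 ≤ (13 / 10 : ℝ) ^ (2 / 5 : ℝ) * (21 / 25 : ℝ) ^ (3 / 5 : ℝ) := by positivity
    have h1 : ((13 / 10 : ℝ) ^ (2 / 5 : ℝ) * (21 / 25 : ℝ) ^ (3 / 5 : ℝ)) ^ 5 < 1 :=
      pow_lt_one₀ h0 hcon (by norm_num)
    rw [mul_pow, ← Real.rpow_natCast, ← Real.rpow_natCast, ← Real.rpow_mul (by norm_num),
      ← Real.rpow_mul (by norm_num)] at h1
    norm_num at h1
  have h5 : U ^ (2 / 5 : ℝ) ≤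
      (13 / 10 : ℝ) ^ (2 / 5 : ℝ) * (21 / 25 : ℝ) ^ (3 / 5 : ℝ) * U ^ (2 / 5 : ℝ) := by
    have := Real.rpow_nonneg hU (2 / 5)
    nlinarith
  linarith

/-- the cost functional of dimension six -/
noncomputable def Cst6 (μ : Measure (CC 6)) (F : Poly 6) : ℝ :=
  CstL μ kap6 (13 / 25) (63 / 125) 1 (2 / 3) 1 F

theorem Cst6_eq (μ : Measure (CC 6)) (F : Poly 6) (N : ℕ) (hN : F.totalDegree + 1 = N) :
    Cst6 μ F = 13 / 25 * ∑ k ∈ Finset.range N, ∑ l ∈ Finset.range N,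
      el μ F k * el μ F l * kap6 l / (4 * (nl 6 k + nl 6 l - 1) ^ 2) +
      63 / 125 * ∑ l ∈ Finset.range N, el μ F l * kap6 l / (4 * (nl 6 l - 1 / 6) ^ 2) := by
  unfold Cst6 CstL
  rw [hN]
  congr 1
  · congr 1
    refine Finset.sum_congr rfl fun k _ => Finset.sum_congr rfl fun l _ => ?_
    congr 1
    ring
  · congr 1
    refine Finset.sum_congr rfl fun l _ => ?_
    congr 1
    ring

end Pool.Agent.ConeG
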