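import Pool.Agent.Work.MP_b0b133_an.G.Alg3

/-!
# The ladder identity and the level inequalities, dimension `d`
-/

set_option autoImplicit false
open MeasureTheory Complex MvPolynomial
open scoped ENNReal ComplexConjugate

namespace Pool.Agent.ConeG

open Alg

variable {d : ℕ} {μ : Measure (CC d)}

theorem HP_AP_mem (P : Poly d) (h : P ∈ HP d) : AP P ∈ HP d := AP_mem_HP h

theorem HP_pderiv_mem (j : Fin (d + 1)) (P : Poly d) (h : P ∈ HP d) :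
    MvPolynomial.pderiv j P ∈ HP d :=
  pderiv_mem_HP j h

theorem HP_RP_mem (j : Fin (d + 1)) (P : Poly d) (h : P ∈ HP d) : RP j P ∈ HP d := RP_mem_HP j h

theorem HP_LP_mem (i j : Fin (d + 1)) (P : Poly d) (h : P ∈ HP d) : LP i j P ∈ HP d := by
  have h1 : LA (pderiv j P) = 0 := pderiv_mem_HP j h
  have h2 : LA (pderiv i P) = 0 := pderiv_mem_HP i h
  have h3 : LP i j P = MvPolynomial.X i * pderiv j P
      + (-1 : ℂ) • (MvPolynomial.X j * pderiv i P) := by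
    rw [LP, neg_one_smul, sub_eq_add_neg]
  rw [mem_HP, h3, LA_add, LA_smul, LA_X_mul, LA_X_mul, h1, h2, mul_zero, mul_zero, add_zero,
    add_zero, pderiv_pderiv_comm i j, smul_smul, ← add_smul]
  norm_num

/-- `N + c` is onto on harmonic polynomials, for `c > 0` -/
theorem Alg.NP_add_surj (c : ℝ) (hc0 : 0 < c) (P : Poly d) (h : P ∈ HP d) :
    ∃ ψ ∈ HP d, NP ψ + (c : ℂ) • ψ = P := by
  refine ⟨∑ l ∈ Finset.range (P.totalDegree + 1), ((l : ℂ) + c)⁻¹ • Alg.hc l P,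
    (HP d).sum_mem fun l _ => (HP d).smul_mem _ (hc_mem_HP l h), ?_⟩
  rw [NP_sum, Finset.smul_sum, ← Finset.sum_add_distrib]
  conv_rhs => rw [← Alg.sum_hc P (P.totalDegree + 1) (Nat.lt_succ_self _)]
  refine Finset.sum_congr rfl fun l _ => ?_
  have h1 : NP (Alg.hc l P) = (l : ℂ) • Alg.hc l P := NP_hc l P
  have h2 : ((l : ℂ) + c) ≠ 0 := by
    have : (l : ℝ) + c ≠ 0 := by positivity
    exact_mod_cast this
  rw [NP_smul, h1, smul_smul, smul_smul, ← add_smul]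
  have h3 : ((l : ℂ) + c)⁻¹ * l + c * ((l : ℂ) + c)⁻¹ = 1 := by
    field_simp
  rw [h3, one_smul]

theorem AP_surj (hd : 0 < nu d) (P : Poly d) (h : P ∈ HP d) : ∃ ψ ∈ HP d, AP ψ = P :=
  Alg.NP_add_surj (nu d) hd P h

theorem EB_eq (P Q : Poly d) : EB μ P Q = (nu d)⁻¹ * (ip μ P (AP Q)).re := rfl

theorem EB_comm (hμ : Law μ) (P Q : Poly d) : EB μ P Q = EB μ Q P := by
  rw [EB_eq, EB_eq, ip_AP hμ, ip_re_comm]

/-- the mass of the level `l` -/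
noncomputable def Alg.lv (μ : Measure (CC d)) (P : Poly d) (l : ℕ) : ℝ :=
  ∫ x, ‖ev (Alg.hc l P) x‖ ^ 2 ∂μ

theorem Alg.lv_nonneg (P : Poly d) (l : ℕ) : 0 ≤ Alg.lv μ P l :=
  integral_nonneg fun _ => sq_nonneg _

theorem Alg.lv_zero (hμ : Law μ) (P : Poly d) : Alg.lv μ P 0 = ‖ev P 0‖ ^ 2 := by
  have := hμ.prob
  unfold Alg.lv
  simp only [ev_hc_zero]
  simp

theorem Alg.int_norm_sq (hμ : Law μ) (P : Poly d) (n : ℕ) (hn : P.totalDegree < n) :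
    ∫ x, ‖ev P x‖ ^ 2 ∂μ = ∑ l ∈ Finset.range n, Alg.lv μ P l := by
  have h1 := ip_decomp hμ P P n hn hn
  rw [ip_self, Finset.sum_congr rfl fun l _ => ip_self (hc l P), ← ofReal_sum] at h1
  exact_mod_cast h1

theorem Alg.En_eq (hμ : Law μ) (P : Poly d) (n : ℕ) (hn : P.totalDegree < n)
    (hn' : (AP P).totalDegree < n) :
    En μ P = ∑ l ∈ Finset.range n, (nu d)⁻¹ * ((l : ℝ) + nu d) * Alg.lv μ P l := by
  rw [En, EB_eq, ip_decomp hμ P (AP P) n hn hn', re_sum, Finset.mul_sum]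
  refine Finset.sum_congr rfl fun l _ => ?_
  have e1 : hc l (AP P) = ((l : ℂ) + (nu d : ℂ)) • hc l P := hc_AP l P
  have e2 : ((l : ℂ) + (nu d : ℂ)) = (((l : ℝ) + nu d : ℝ) : ℂ) := by push_cast; rfl
  rw [e1, ip_smul_right, ip_self, e2, ← ofReal_mul, ofReal_re]
  unfold Alg.lv
  ring

theorem En_nonneg (hd : 0 ≤ nu d) (hμ : Law μ) (P : Poly d) : 0 ≤ En μ P := by
  rw [Alg.En_eq hμ P (P.totalDegree + (AP P).totalDegree + 1) (by omega) (by omega)]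
  exact Finset.sum_nonneg fun l _ => mul_nonneg (by positivity) (Alg.lv_nonneg P l)

theorem Alg.int_ev (hμ : Law μ) (P : Poly d) : ∫ x, ev P x ∂μ = ev P 0 := by
  have := hμ.prob
  have h1 : ∫ x, ev P x ∂μ = ip μ 1 P := by
    unfold ip
    refine integral_congr_ae (Filter.Eventually.of_forall fun x => ?_)
    change ev P x = conj (ev 1 x) * ev P x
    rw [ev_one, map_one, one_mul]
  have h2 : ∀ l : ℕ, l ≠ 0 → ip μ 1 (hc l P) = 0 := fun l hl =>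
    ip_hom hμ (Ne.symm hl) (isHomogeneous_one _ _) (homogeneousComponent_isHomogeneous l P)
  rw [h1]
  conv_lhs => rw [← sum_hc P (P.totalDegree + 1) (Nat.lt_succ_self _)]
  rw [ip_sum_right hμ, Finset.sum_eq_single 0 (fun l _ hl => h2 l hl)
    (fun h => absurd (Finset.mem_range.2 (Nat.succ_pos _)) h)]
  unfold ip
  simp only [ev_hc_zero, ev_one]
  simp

theorem int_sq (hμ : Law μ) (P : Poly d) : ∫ x, ev P x ^ 2 ∂μ = ev P 0 ^ 2 := by
  have h1 : ∀ x, ev P x ^ 2 = ev (P * P) x := fun x => by rw [ev_mul, pow_two]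
  simp only [h1]
  exact Alg.int_ev hμ _

theorem EB_one (hd : 0 < nu d) (hμ : Law μ) (P : Poly d) :
    EB μ P 1 = (ev P 0).re ∧ En μ (1 : Poly d) = 1 := by
  have := hμ.prob
  have h0 : AP (1 : Poly d) = (nu d : ℂ) • 1 := by
    rw [AP, NP_of_hom (isHomogeneous_one _ _)]
    simp
  have h1 : ∀ P : Poly d, EB μ P 1 = (ev P 0).re := fun P => by
    rw [EB_eq, h0, ip_smul_right]
    have h2 : ip μ P 1 = conj (ev P 0) := by
      rw [← Alg.int_ev hμ P, ← integral_conj]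
      unfold ip
      refine integral_congr_ae (Filter.Eventually.of_forall fun x => ?_)
      change conj (ev P x) * ev 1 x = conj (ev P x)
      rw [ev_one, mul_one]
    rw [h2, re_ofReal_mul, conj_re, ← mul_assoc, inv_mul_cancel₀ hd.ne', one_mul]
  refine ⟨h1 P, ?_⟩
  rw [En, h1, ev_one, one_re]

theorem Alg.lv_AP (ψ : Poly d) (l : ℕ) :
    Alg.lv μ (AP ψ) l = ((l : ℝ) + nu d) ^ 2 * Alg.lv μ ψ l := by
  have e1 : hc l (AP ψ) = ((l : ℂ) + (nu d : ℂ)) • hc l ψ := hc_AP l ψ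
  have e2 : ((l : ℂ) + (nu d : ℂ)) = (((l : ℝ) + nu d : ℝ) : ℂ) := by push_cast; rfl
  unfold Alg.lv
  rw [← integral_const_mul]
  refine integral_congr_ae (Filter.Eventually.of_forall fun x => ?_)
  change ‖ev (hc l (AP ψ)) x‖ ^ 2 = ((l : ℝ) + nu d) ^ 2 * ‖ev (hc l ψ) x‖ ^ 2
  rw [e1, ev_smul, norm_mul, mul_pow, e2, norm_real, Real.norm_eq_abs, sq_abs]

/-- `E[x²]` level by level -/
theorem Alg.X2_eq (hd : 0 < nu d) (hμ : Law μ) (ψ : Poly d) (n : ℕ) (hn : ψ.totalDegree < n)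
    (hn' : (AP ψ).totalDegree < n) :
    X2 μ ψ = ∑ l ∈ Finset.range n, nu d / ((l : ℝ) + nu d) * Alg.lv μ (AP ψ) l := by
  have h1 : X2 μ ψ = nu d * (ip μ (AP ψ) ψ).re := by
    rw [X2, ← re_ofReal_mul, ← ip_smul_right]
    unfold ip
    refine congrArg _ (integral_congr_ae (Filter.Eventually.of_forall fun x => ?_))
    change conj (ev (AP ψ) x) * ((nu d : ℂ) * ev ψ x)
      = conj (ev (AP ψ) x) * ev ((nu d : ℂ) • ψ) x
    rw [ev_smul]
  rw [h1, ip_decomp hμ _ _ n hn' hn, re_sum, Finset.mul_sum]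
  refine Finset.sum_congr rfl fun l _ => ?_
  have e1 : hc l (AP ψ) = ((l : ℂ) + (nu d : ℂ)) • hc l ψ := hc_AP l ψ
  have e2 : ((l : ℂ) + (nu d : ℂ)) = (((l : ℝ) + nu d : ℝ) : ℂ) := by push_cast; rfl
  rw [Alg.lv_AP, e1, ip_smul_left, ip_self, e2, conj_ofReal, ← ofReal_mul, ofReal_re]
  have : ((l : ℝ) + nu d) ≠ 0 := by positivity
  unfold Alg.lv
  field_simp

/-- `E[x] = ‖F‖²` level by level is `Alg.int_norm_sq`; the inequality `E[x²] ≤ E` -/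
theorem X2_le (hd : 0 < nu d) (hμ : Law μ) (ψ : Poly d) : X2 μ ψ ≤ En μ (AP ψ) := by
  set n := ψ.totalDegree + (AP ψ).totalDegree + (AP (AP ψ)).totalDegree + 1 with hn
  rw [Alg.X2_eq hd hμ ψ n (by omega) (by omega), Alg.En_eq hμ (AP ψ) n (by omega) (by omega)]
  refine Finset.sum_le_sum fun l _ => mul_le_mul_of_nonneg_right ?_ (Alg.lv_nonneg _ _)
  have h1 : (0 : ℝ) < (l : ℝ) + nu d := by positivity
  rw [div_le_iff₀ h1, inv_mul_eq_div, div_mul_eq_mul_div, le_div_iff₀ hd]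
  nlinarith [Nat.cast_nonneg (α := ℝ) l]

/-- `E[x²] ≤ r² + x₁ y₁` -/
theorem lev_x2 (hd : 0 < nu d) (hμ : Law μ) (ψ : Poly d) :
    X2 μ ψ ≤ ‖ev (AP ψ) 0‖ ^ 2 +
      nu d / (nu d + 1) * (∫ x, ‖ev (AP ψ) x‖ ^ 2 ∂μ - ‖ev (AP ψ) 0‖ ^ 2) := by
  set n := ψ.totalDegree + (AP ψ).totalDegree with hn
  rw [Alg.X2_eq hd hμ ψ (n + 1) (by omega) (by omega),
    Alg.int_norm_sq hμ (AP ψ) (n + 1) (by omega), ← Alg.lv_zero hμ (AP ψ),
    Finset.sum_range_succ', Finset.sum_range_succ', add_sub_cancel_right, Finset.mul_sum]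
  have h1 : ∀ l ∈ Finset.range n, nu d / (((l + 1 : ℕ) : ℝ) + nu d) * Alg.lv μ (AP ψ) (l + 1)
      ≤ nu d / (nu d + 1) * Alg.lv μ (AP ψ) (l + 1) := fun l _ => by
    refine mul_le_mul_of_nonneg_right ?_ (Alg.lv_nonneg _ _)
    refine div_le_div_of_nonneg_left hd.le (by positivity) ?_
    push_cast
    linarith [Nat.cast_nonneg (α := ℝ) l]
  have h2 := Finset.sum_le_sum h1
  have h3 : nu d / (((0 : ℕ) : ℝ) + nu d) * Alg.lv μ (AP ψ) 0 = Alg.lv μ (AP ψ) 0 := by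
    rw [Nat.cast_zero, zero_add, div_self hd.ne', one_mul]
  rw [h3]
  linarith

/-- `∫|F|² = E[x] ≤ E` -/
theorem int_norm_sq_le (hd : 0 < nu d) (hμ : Law μ) (P : Poly d) :
    ∫ x, ‖ev P x‖ ^ 2 ∂μ ≤ En μ P := by
  set n := P.totalDegree + (AP P).totalDegree + 1 with hn
  rw [Alg.int_norm_sq hμ P n (by omega), Alg.En_eq hμ P n (by omega) (by omega)]
  refine Finset.sum_le_sum fun l _ => ?_
  have h1 : 1 ≤ (nu d)⁻¹ * ((l : ℝ) + nu d) := by
    rw [inv_mul_eq_div, le_div_iff₀ hd]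
    linarith [Nat.cast_nonneg (α := ℝ) l]
  nlinarith [Alg.lv_nonneg (μ := μ) P l]

/-- `y₁ ≤ (1/(1+q)) (E - r²)` up to the level one: `x_l ≤ ν/(ν+2)` for `l ≥ 2` -/
theorem lev_y1 (hd : 0 < nu d) (hμ : Law μ) (P : Poly d) :
    ∫ x, ‖ev P x‖ ^ 2 ∂μ - ‖ev P 0‖ ^ 2 ≤ nu d / (nu d + 2) * (En μ P - ‖ev P 0‖ ^ 2) +
      (nu d + 2)⁻¹ * ∫ x, ‖ev (MvPolynomial.homogeneousComponent 1 P) x‖ ^ 2 ∂μ := by
  set n := P.totalDegree + (AP P).totalDegree with hn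
  rw [Alg.int_norm_sq hμ P (n + 2) (by omega), Alg.En_eq hμ P (n + 2) (by omega) (by omega),
    ← Alg.lv_zero hμ P]
  change _ ≤ _ + (nu d + 2)⁻¹ * Alg.lv μ P 1
  simp only [Finset.sum_range_succ' _ (n + 1), Finset.sum_range_succ' _ n]
  have h1 : ∀ l ∈ Finset.range n, Alg.lv μ P (l + 1 + 1)
      ≤ nu d / (nu d + 2) *
        ((nu d)⁻¹ * (((l + 1 + 1 : ℕ) : ℝ) + nu d) * Alg.lv μ P (l + 1 + 1)) := fun l _ => by
    have h2 := Alg.lv_nonneg (μ := μ) P (l + 1 + 1)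
    have h3 : (1 : ℝ) ≤ nu d / (nu d + 2) * ((nu d)⁻¹ * (((l + 1 + 1 : ℕ) : ℝ) + nu d)) := by
      have : nu d / (nu d + 2) * ((nu d)⁻¹ * (((l + 1 + 1 : ℕ) : ℝ) + nu d))
          = (((l + 1 + 1 : ℕ) : ℝ) + nu d) / (nu d + 2) := by
        field_simp
      rw [this, le_div_iff₀ (by positivity)]
      push_cast
      linarith [Nat.cast_nonneg (α := ℝ) l]
    nlinarith
  have h2 := Finset.sum_le_sum h1
  rw [← Finset.mul_sum] at h2
  have h4 : (nu d)⁻¹ * (((0 : ℕ) : ℝ) + nu d) * Alg.lv μ P 0 = Alg.lv μ P 0 := by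
    rw [Nat.cast_zero, zero_add, inv_mul_cancel₀ hd.ne', one_mul]
  have h5 : nu d / (nu d + 2) * ((nu d)⁻¹ * (((0 + 1 : ℕ) : ℝ) + nu d) * Alg.lv μ P (0 + 1))
      + (nu d + 2)⁻¹ * Alg.lv μ P 1 = Alg.lv μ P 1 := by
    push_cast
    field_simp
    ring
  rw [h4]
  have h6 : Alg.lv μ P (0 + 1) = Alg.lv μ P 1 := rfl
  rw [h6]
  rw [h6] at h5
  nlinarith [h2, h5]

/-! ### The ladder identity -/

theorem Alg.NP_sub (P Q : Poly d) : NP (P - Q) = NP P - NP Q := by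
  have h1 : ∀ R : Poly d, -R = (-1 : ℂ) • R := fun R => by rw [neg_one_smul]
  rw [sub_eq_add_neg, sub_eq_add_neg, h1 Q, h1 (NP Q), NP_add, NP_smul]

theorem Alg.NP_TP (j : Fin (d + 1)) (P : Poly d) : NP (TP j P) =
    (2 : ℂ) • (MvPolynomial.X j * (NP (NP P) + ((nu d : ℂ) + 2) • NP P + ((nu d : ℂ) + 1) • P))
      - sqP * (pderiv j (NP P) + pderiv j P) := by
  rw [TP, Alg.NP_sub, NP_smul, NP_mul, NP_X, NP_add, NP_smul, NP_mul, NP_sqP, NP_pderiv]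
  simp only [smul_eq_C_mul, C_two, C_add, C_1]
  ring

theorem Alg.pderiv_TP (j : Fin (d + 1)) (P : Poly d) : pderiv j (TP j P) =
    (2 : ℂ) • (NP P + ((nu d : ℂ) + 1) • P
      + MvPolynomial.X j * (pderiv j (NP P) + (nu d : ℂ) • pderiv j P))
      - sqP * pderiv j (pderiv j P) := by
  rw [TP, map_sub, Derivation.map_smul, Derivation.leibniz, Derivation.leibniz, smul_eq_mul,
      smul_eq_mul, smul_eq_mul, smul_eq_mul, pderiv_sqP, pderiv_X_self, map_add,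
      Derivation.map_smul]
  simp only [smul_eq_C_mul, C_two, C_add, C_1]
  ring

/-- `∑ T_j T_j = 4 (∑ X²) (N + ν + 1)` on harmonic polynomials -/
theorem Alg.sum_TP_TP {P : Poly d} (h : P ∈ HP d) :
    ∑ j, TP j (TP j P) = (4 : ℂ) • (sqP * (NP P + ((nu d : ℂ) + 1) • P)) := by
  have h0 : ∑ j, pderiv j (pderiv j P) = 0 := h
  have h1 : ∀ j : Fin (d + 1), TP j (TP j P) =
      MvPolynomial.X j ^ 2 * (4 * (NP (NP P) + C (2 * (nu d : ℂ) + 3) * NP P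
          + C (((nu d : ℂ) + 1) * ((nu d : ℂ) + 2)) * P))
        - MvPolynomial.X j * pderiv j (NP P) * (4 * sqP)
        - MvPolynomial.X j * pderiv j P * (C (4 * ((nu d : ℂ) + 1)) * sqP)
        - (2 : ℂ) • (sqP * (NP P + ((nu d : ℂ) + 1) • P)) + pderiv j (pderiv j P) * sqP ^ 2 := by
    intro j
    have e1 : TP j (TP j P)
      = (2 : ℂ) • (MvPolynomial.X j * (NP (TP j P) + ((nu d : ℂ) + 1) • TP j P))
      - sqP * pderiv j (TP j P) := rfl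
    rw [e1, Alg.NP_TP, Alg.pderiv_TP, TP]
    simp only [smul_eq_C_mul, C_two, C_add, C_mul, C_1, C_four, C_three]
    ring
  have h2 : ∑ j, MvPolynomial.X j * pderiv j (NP P) = NP (NP P) := rfl
  have h3 : ∑ j, MvPolynomial.X j * pderiv j P = NP P := rfl
  have h4 : ∑ j : Fin (d + 1), (MvPolynomial.X j : Poly d) ^ 2 = sqP := rfl
  have h5 : ∑ j, pderiv j (pderiv j P) * sqP ^ 2 = 0 := by rw [← Finset.sum_mul, h0, zero_mul]
  rw [Finset.sum_congr rfl fun j _ => h1 j, Finset.sum_add_distrib, Finset.sum_sub_distrib,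
    Finset.sum_sub_distrib, Finset.sum_sub_distrib, ← Finset.sum_mul, ← Finset.sum_mul,
    ← Finset.sum_mul, h5, h2, h3, h4, Finset.sum_const, Finset.card_univ,
    Fintype.card_fin, ← Nat.cast_smul_eq_nsmul ℂ, cast_dim]
  simp only [smul_eq_C_mul, C_two, C_add, C_mul, C_1, C_four, C_three]
  ring

/-- `(∑ X²) HP` is orthogonal to `HP` -/
theorem Alg.orth (hd : 0 ≤ nu d) (hμ : Law μ) {G Q : Poly d} (hG : G ∈ HP d) (hQ : Q ∈ HP d) :
    ip μ (sqP * G) Q = 0 := by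
  obtain ⟨P, hP, h1⟩ := Alg.NP_add_surj (nu d + 1) (by positivity) G hG
  have h0 : ∑ j, pderiv j (pderiv j Q) = 0 := hQ
  have h2 : ip μ P (∑ j, pderiv j (pderiv j Q)) = ip μ (∑ j, TP j (TP j P)) Q := by
    rw [ip_sum_right hμ, ip_sum_left hμ]
    refine Finset.sum_congr rfl fun j _ => ?_
    rw [adj hμ, adj hμ]
  have h3 : NP P + ((nu d : ℂ) + 1) • P = G := by
    rw [← h1]
    push_cast
    rfl
  rw [h0, ip_zero_right, Alg.sum_TP_TP hP, h3, ip_smul_left] at h2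
  have h4 : conj (4 : ℂ) ≠ 0 := by
    rw [map_ofNat]
    norm_num
  exact (mul_eq_zero.1 h2.symm).resolve_left h4

theorem Alg.EB_RP (hd : 0 ≤ nu d) (hμ : Law μ) (j : Fin (d + 1)) {P Q : Poly d} (hP : P ∈ HP d)
    (hQ : Q ∈ HP d) : EB μ (RP j P) Q = EB μ P (pderiv j Q) := by
  have h1 : TP j (AP P) = AP (RP j P) + sqP * pderiv j P := by
    have e1 : AP (RP j P) = NP (RP j P) + (nu d : ℂ) • RP j P := rfl
    rw [e1, TP, RP, Alg.NP_sub, NP_smul, NP_mul, NP_X, NP_mul, NP_sqP, NP_pderiv]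
    simp only [AP, NP_add, NP_smul, map_add, Derivation.map_smul]
    simp only [smul_eq_C_mul, C_two, C_add, C_1]
    ring
  rw [EB_eq, EB_eq, ip_AP hμ, ip_AP hμ, adj hμ, h1, ip_add_left hμ,
    Alg.orth hd hμ (HP_pderiv_mem j P hP) hQ, add_zero]

theorem Alg.EB_add_right' (hμ : Law μ) (P Q R : Poly d) :
    EB μ P (Q + R) = EB μ P Q + EB μ P R := by
  rw [EB_eq, EB_eq, EB_eq, AP_add, ip_add_right hμ, add_re]
  ring

theorem Alg.EB_sum_right' (hμ : Law μ) {ι : Type*} (s : Finset ι) (P : Poly d) (Q : ι → Poly d) :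
    EB μ P (∑ i ∈ s, Q i) = ∑ i ∈ s, EB μ P (Q i) := by
  rw [EB_eq, AP_sum, ip_sum_right hμ, re_sum, Finset.mul_sum]
  rfl

theorem ladder (hd : 0 < nu d) (hμ : Law μ) (ψ : Poly d) (h : ψ ∈ HP d) :
    ∑ j, (En μ (MvPolynomial.pderiv j ψ) + En μ (RP j ψ)) =
      4 * En μ (AP ψ) + 4 / nu d * X2 μ ψ := by
  have h1 : ∀ j, En μ (pderiv j ψ) + En μ (RP j ψ)
      = EB μ ψ (RP j (pderiv j ψ)) + EB μ ψ (pderiv j (RP j ψ)) := by
    intro j
    have e1 : En μ (pderiv j ψ) = EB μ ψ (RP j (pderiv j ψ)) := by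
      rw [EB_comm hμ ψ, Alg.EB_RP hd.le hμ j (HP_pderiv_mem j ψ h) h]
      rfl
    have e2 : En μ (RP j ψ) = EB μ ψ (pderiv j (RP j ψ)) := by
      rw [← Alg.EB_RP hd.le hμ j h (HP_RP_mem j ψ h)]
      rfl
    rw [e1, e2]
  rw [Finset.sum_congr rfl fun j _ => h1 j, Finset.sum_add_distrib, ← Alg.EB_sum_right' hμ,
    ← Alg.EB_sum_right' hμ, ← Alg.EB_add_right' hμ, sum_RP_pderiv h, sum_pderiv_RP h]
  have h2 : (2 : ℂ) • (NP (NP ψ) + ((nu d : ℂ) - 1) • NP ψ) + (2 : ℂ) • (NP (NP ψ)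
      + (3 * (nu d : ℂ) + 1) • NP ψ + (2 * (nu d : ℂ) * ((nu d : ℂ) + 1)) • ψ)
      = (4 : ℂ) • AP (AP ψ) + (4 * (nu d : ℂ)) • ψ := by
    simp only [AP, NP_add, NP_smul]
    simp only [smul_eq_C_mul, C_two, C_four, C_three, C_add, C_sub, C_mul, C_1]
    ring
  have h3 : X2 μ ψ = nu d * (ip μ (AP ψ) ψ).re := by
    rw [X2, ← re_ofReal_mul, ← ip_smul_right]
    unfold ip
    refine congrArg _ (integral_congr_ae (Filter.Eventually.of_forall fun x => ?_))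
    change conj (ev (AP ψ) x) * ((nu d : ℂ) * ev ψ x)
      = conj (ev (AP ψ) x) * ev ((nu d : ℂ) • ψ) x
    rw [ev_smul]
  rw [h2, h3, En, EB_eq, EB_eq, AP_add, AP_smul, AP_smul, ip_add_right hμ, ip_smul_right,
    ip_smul_right, ip_AP hμ ψ (AP (AP ψ)), ip_AP hμ ψ ψ]
  have e4 : (4 : ℂ) = ((4 : ℝ) : ℂ) := by norm_num
  rw [add_re, e4, ← ofReal_mul, re_ofReal_mul, re_ofReal_mul]
  field_simp

end Pool.Agent.ConeG
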