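import Pool.Agent.Work.MP_b0b133_an.G.ALG

/-!
# The rotation fields: orthogonality and the Casimir identity
-/

set_option autoImplicit false
open MeasureTheory Complex MvPolynomial
open scoped ENNReal ComplexConjugate

namespace Pool.Agent.ConeG

open Alg

variable {d : ℕ} {μ : Measure (CC d)}

theorem Alg.LP_sub (i j : Fin (d + 1)) (P Q : Poly d) : LP i j (P - Q) = LP i j P - LP i j Q := by
  simp only [LP, map_sub]
  ring

theorem Alg.LP_smul (i j : Fin (d + 1)) (c : ℂ) (P : Poly d) : LP i j (c • P) = c • LP i j P := by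
  simp only [LP, Derivation.map_smul, mul_smul_comm, smul_sub]

theorem Alg.LP_swap (i j : Fin (d + 1)) (P : Poly d) : LP j i P = -LP i j P := by
  simp only [LP]
  ring

theorem Alg.NP_LP (i j : Fin (d + 1)) (P : Poly d) : NP (LP i j P) = LP i j (NP P) := by
  have h1 : NP (LP i j P) = NP (MvPolynomial.X i * pderiv j P) - NP (MvPolynomial.X j * pderiv i P) :=
    Alg.NP_sub _ _
  rw [h1, NP_mul, NP_mul, NP_X, NP_X, NP_pderiv, NP_pderiv]
  simp only [LP]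
  ring

theorem Alg.AP_LP (i j : Fin (d + 1)) (P : Poly d) : AP (LP i j P) = LP i j (AP P) := by
  simp only [AP, Alg.NP_LP, LP_add, Alg.LP_smul]

theorem Alg.ip_LP_self (hμ : Law μ) (i j : Fin (d + 1)) (P : Poly d) :
    (ip μ P (LP i j P)).re = 0 := by
  have h1 := congrArg Complex.re (ip_LP hμ i j P P)
  rw [neg_re, ip_re_comm (LP i j P) P] at h1
  linarith

theorem EB_AP_LP (hμ : Law μ) (i j : Fin (d + 1)) (ψ : Poly d) :
    EB μ (AP ψ) (LP i j ψ) = 0 := by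
  rw [EB_eq, Alg.AP_LP, Alg.ip_LP_self hμ, mul_zero]

/-- the Casimir identity -/
theorem Alg.sum_LP_LP {P : Poly d} (h : P ∈ HP d) :
    ∑ i, ∑ j, LP i j (LP i j P) = (-2 : ℂ) • (NP (NP P) + (2 * (nu d : ℂ)) • NP P) := by
  have h0 : ∑ j, pderiv j (pderiv j P) = 0 := h
  have h1 : ∀ i j : Fin (d + 1), LP i j (LP i j P)
      = LP i j (MvPolynomial.X i * pderiv j P) + LP j i (MvPolynomial.X j * pderiv i P) := by
    intro i j
    rw [Alg.LP_swap i j (MvPolynomial.X j * pderiv i P), ← sub_eq_add_neg, ← Alg.LP_sub]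
    rfl
  have h2 : ∑ j : Fin (d + 1), ∑ i, LP i j (MvPolynomial.X i * pderiv j P)
      = -(NP (NP P) + (2 * (nu d : ℂ)) • NP P) := by
    have h3 : ∀ j : Fin (d + 1), ∑ i, LP i j (MvPolynomial.X i * pderiv j P)
        = sqP * pderiv j (pderiv j P) - MvPolynomial.X j * pderiv j (NP P)
          - (2 * (nu d : ℂ)) • (MvPolynomial.X j * pderiv j P) := by
      intro j
      rw [sum_LP_X_mul, NP_pderiv]
      simp only [smul_eq_C_mul, C_add, C_1]
      ring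
    rw [Finset.sum_congr rfl fun j _ => h3 j, Finset.sum_sub_distrib, Finset.sum_sub_distrib,
      ← Finset.mul_sum, h0, mul_zero, ← Finset.smul_sum]
    change 0 - NP (NP P) - (2 * (nu d : ℂ)) • NP P = _
    rw [zero_sub, neg_add, sub_eq_add_neg]
  simp only [h1, Finset.sum_add_distrib]
  rw [Finset.sum_comm, h2, neg_smul, two_smul ℂ (NP (NP P) + (2 * (nu d : ℂ)) • NP P),
    ← neg_add]

theorem En_LP_sum (hd : 0 < nu d) (hμ : Law μ) (ψ : Poly d) (h : ψ ∈ HP d) :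
    1 / 2 * ∑ i, ∑ j, En μ (LP i j ψ) = En μ (AP ψ) - X2 μ ψ := by
  have h1 : ∀ i j : Fin (d + 1), En μ (LP i j ψ)
      = (nu d)⁻¹ * (-(ip μ (LP i j (LP i j ψ)) (AP ψ)).re) := by
    intro i j
    rw [En, EB_eq, Alg.AP_LP, ip_LP hμ, neg_re]
  have h2 : ∑ i, ∑ j, (ip μ (LP i j (LP i j ψ)) (AP ψ)).re
      = (ip μ (∑ i, ∑ j, LP i j (LP i j ψ)) (AP ψ)).re := by
    rw [ip_sum_left hμ, re_sum]
    refine Finset.sum_congr rfl fun i _ => ?_
    rw [ip_sum_left hμ, re_sum]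
  have h3 : ∑ i, ∑ j, En μ (LP i j ψ)
      = (nu d)⁻¹ * (-(ip μ (∑ i, ∑ j, LP i j (LP i j ψ)) (AP ψ)).re) := by
    rw [← h2]
    simp only [h1, ← Finset.mul_sum, Finset.sum_neg_distrib]
  have h4 : NP (NP ψ) + (2 * (nu d : ℂ)) • NP ψ = AP (AP ψ) + (-((nu d : ℂ) * nu d)) • ψ := by
    have e0 : NP ((nu d : ℂ) • ψ) = (nu d : ℂ) • NP ψ := NP_smul _ _
    simp only [AP, NP_add]
    rw [e0]
    simp only [smul_add, smul_eq_C_mul, C_mul, C_two, C_neg]
    ring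
  have h5 : ip μ (∑ i, ∑ j, LP i j (LP i j ψ)) (AP ψ)
      = -2 * (ip μ (AP ψ) (AP (AP ψ)) - ((nu d : ℂ) * nu d) * ip μ ψ (AP ψ)) := by
    rw [Alg.sum_LP_LP h, h4, ip_smul_left, ip_add_left hμ, ip_smul_left, ← ip_AP hμ (AP ψ) (AP ψ)]
    simp only [map_neg, map_mul, conj_ofReal, conj_two]
    ring
  have h6 : X2 μ ψ = nu d * (ip μ (AP ψ) ψ).re := by
    rw [X2, ← re_ofReal_mul, ← ip_smul_right]
    unfold ip
    simp only [ev_smul]
  rw [h3, h5, h6, En, EB_eq, ip_re_comm (AP ψ) ψ]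
  have e1 : ((nu d : ℂ) * nu d * ip μ ψ (AP ψ)) = ((nu d * nu d : ℝ) : ℂ) * ip μ ψ (AP ψ) := by
    push_cast; ring
  have e2 : (-2 * (ip μ (AP ψ) (AP (AP ψ)) - ((nu d : ℂ) * nu d) * ip μ ψ (AP ψ))).re
      = -2 * ((ip μ (AP ψ) (AP (AP ψ))).re - nu d * nu d * (ip μ ψ (AP ψ)).re) := by
    rw [e1]
    have : (-2 : ℂ) = ((-2 : ℝ) : ℂ) := by push_cast; ring
    rw [this, re_ofReal_mul, sub_re, re_ofReal_mul]
  rw [e2]
  field_simp

end Pool.Agent.ConeG
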