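import Pool.Agent.Work.MP_b0b133_an.G.Alg1

/-!
# The measure side: phases, rotations and the adjoints of the derivatives
-/

set_option autoImplicit false
open MeasureTheory Complex MvPolynomial
open scoped ENNReal ComplexConjugate

namespace Pool.Agent.ConeG.Alg

variable {d : ℕ} {μ : Measure (CC d)}

/-! ### Values -/

theorem ev_add (P Q : Poly d) (x : CC d) : ev (P + Q) x = ev P x + ev Q x := map_add _ _ _

theorem ev_sub (P Q : Poly d) (x : CC d) : ev (P - Q) x = ev P x - ev Q x := map_sub _ _ _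

theorem ev_mul (P Q : Poly d) (x : CC d) : ev (P * Q) x = ev P x * ev Q x := map_mul _ _ _

theorem ev_smul (c : ℂ) (P : Poly d) (x : CC d) : ev (c • P) x = c * ev P x := smul_eval _ _ _

theorem ev_sum {ι : Type*} (s : Finset ι) (P : ι → Poly d) (x : CC d) :
    ev (∑ i ∈ s, P i) x = ∑ i ∈ s, ev (P i) x := map_sum _ _ _

theorem ev_X (j : Fin (d + 1)) (x : CC d) : ev (MvPolynomial.X j) x = x j := eval_X _

theorem ev_one (x : CC d) : ev 1 x = 1 := map_one _

theorem ev_zero (x : CC d) : ev 0 x = 0 := map_zero _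

theorem ev_sqP (x : CC d) : ev sqP x = ∑ k, x k ^ 2 := by simp [ev, sqP]

theorem ev_continuous (P : Poly d) : Continuous (ev P) := continuous_eval P

theorem norm_le_one {x : CC d} (hx : ∑ j, ‖x j‖ ^ 2 = 1) : ‖x‖ ≤ 1 := by
  rw [pi_norm_le_iff_of_nonneg zero_le_one]
  intro j
  have h1 : ‖x j‖ ^ 2 ≤ ∑ i, ‖x i‖ ^ 2 :=
    Finset.single_le_sum (f := fun i => ‖x i‖ ^ 2) (fun i _ => sq_nonneg _) (Finset.mem_univ j)
  rw [hx] at h1
  nlinarith [norm_nonneg (x j)]

theorem integrable (hμ : Law μ) {E : Type*} [NormedAddCommGroup E] {f : CC d → E}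
    (hf : Continuous f) : Integrable f μ := by
  have := hμ.prob
  obtain ⟨C, hC⟩ := (isCompact_closedBall (0 : CC d) 1).exists_bound_of_continuousOn hf.continuousOn
  refine Integrable.of_bound hf.aestronglyMeasurable C ?_
  filter_upwards [hμ.supp] with x hx
  exact hC x (mem_closedBall_zero_iff.2 (norm_le_one hx.1))

/-! ### The inner product of `L²(μ)` -/

/-- the inner product of `L²(μ)` on polynomials -/
noncomputable def ip (μ : Measure (CC d)) (P Q : Poly d) : ℂ := ∫ x, conj (ev P x) * ev Q x ∂μ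

theorem cont_ip (P Q : Poly d) : Continuous fun x => conj (ev P x) * ev Q x :=
  (continuous_conj.comp (ev_continuous P)).mul (ev_continuous Q)

theorem ip_integrable (hμ : Law μ) (P Q : Poly d) :
    Integrable (fun x => conj (ev P x) * ev Q x) μ := integrable hμ (cont_ip P Q)

theorem ip_add_right (hμ : Law μ) (P Q R : Poly d) : ip μ P (Q + R) = ip μ P Q + ip μ P R := by
  unfold ip
  rw [← integral_add (ip_integrable hμ P Q) (ip_integrable hμ P R)]
  refine integral_congr_ae (Filter.Eventually.of_forall fun x => ?_)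
  change conj (ev P x) * ev (Q + R) x = conj (ev P x) * ev Q x + conj (ev P x) * ev R x
  rw [ev_add, mul_add]

theorem ip_add_left (hμ : Law μ) (P Q R : Poly d) : ip μ (P + Q) R = ip μ P R + ip μ Q R := by
  unfold ip
  rw [← integral_add (ip_integrable hμ P R) (ip_integrable hμ Q R)]
  refine integral_congr_ae (Filter.Eventually.of_forall fun x => ?_)
  change conj (ev (P + Q) x) * ev R x = conj (ev P x) * ev R x + conj (ev Q x) * ev R x
  rw [ev_add, map_add, add_mul]

theorem ip_smul_right (c : ℂ) (P Q : Poly d) : ip μ P (c • Q) = c * ip μ P Q := by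
  unfold ip
  rw [← integral_const_mul]
  refine integral_congr_ae (Filter.Eventually.of_forall fun x => ?_)
  change conj (ev P x) * ev (c • Q) x = c * (conj (ev P x) * ev Q x)
  rw [ev_smul]
  ring

theorem ip_smul_left (c : ℂ) (P Q : Poly d) : ip μ (c • P) Q = conj c * ip μ P Q := by
  unfold ip
  rw [← integral_const_mul]
  refine integral_congr_ae (Filter.Eventually.of_forall fun x => ?_)
  change conj (ev (c • P) x) * ev Q x = conj c * (conj (ev P x) * ev Q x)
  rw [ev_smul, map_mul]
  ring

theorem ip_zero_right (P : Poly d) : ip μ P 0 = 0 := by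
  simp [ip, ev_zero]

theorem ip_zero_left (P : Poly d) : ip μ 0 P = 0 := by
  simp [ip, ev_zero]

theorem ip_sub_left (hμ : Law μ) (P Q R : Poly d) : ip μ (P - Q) R = ip μ P R - ip μ Q R := by
  have : P - Q = P + (-1 : ℂ) • Q := by rw [neg_one_smul, sub_eq_add_neg]
  rw [this, ip_add_left hμ, ip_smul_left, map_neg, map_one]
  ring

theorem ip_sum_right (hμ : Law μ) {ι : Type*} (s : Finset ι) (P : Poly d) (Q : ι → Poly d) :
    ip μ P (∑ i ∈ s, Q i) = ∑ i ∈ s, ip μ P (Q i) := by
  classical
  induction s using Finset.induction_on with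
  | empty => simp [ip_zero_right]
  | insert a s ha ih => rw [Finset.sum_insert ha, Finset.sum_insert ha, ip_add_right hμ, ih]

theorem ip_sum_left (hμ : Law μ) {ι : Type*} (s : Finset ι) (P : ι → Poly d) (Q : Poly d) :
    ip μ (∑ i ∈ s, P i) Q = ∑ i ∈ s, ip μ (P i) Q := by
  classical
  induction s using Finset.induction_on with
  | empty => simp [ip_zero_left]
  | insert a s ha ih => rw [Finset.sum_insert ha, Finset.sum_insert ha, ip_add_left hμ, ih]

theorem conj_two : conj (2 : ℂ) = 2 := map_ofNat _ 2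

theorem ip_conj (P Q : Poly d) : conj (ip μ P Q) = ip μ Q P := by
  unfold ip
  rw [← integral_conj]
  refine integral_congr_ae (Filter.Eventually.of_forall fun x => ?_)
  change conj (conj (ev P x) * ev Q x) = conj (ev Q x) * ev P x
  rw [map_mul, conj_conj, mul_comm]

theorem ip_re_comm (P Q : Poly d) : (ip μ P Q).re = (ip μ Q P).re := by
  rw [← ip_conj P Q, conj_re]

theorem ip_self (P : Poly d) : ip μ P P = ((∫ x, ‖ev P x‖ ^ 2 ∂μ : ℝ) : ℂ) := by
  unfold ip
  rw [← integral_complex_ofReal]
  refine integral_congr_ae (Filter.Eventually.of_forall fun x => ?_)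
  change conj (ev P x) * ev P x = ((‖ev P x‖ ^ 2 : ℝ) : ℂ)
  rw [conj_mul']
  push_cast
  rfl

/-! ### Phases -/

theorem phase_continuous (θ : ℝ) : Continuous (phase θ : CC d → CC d) := by
  refine continuous_pi fun k => ?_
  unfold phase
  fun_prop

theorem int_phase (hμ : Law μ) (f : CC d → ℂ) (hf : Continuous f) (θ : ℝ) :
    ∫ x, f (phase θ x) ∂μ = ∫ x, f x ∂μ := by
  conv_rhs => rw [← hμ.phase θ]
  rw [integral_map (phase_continuous θ).aemeasurable hf.aestronglyMeasurable]

theorem ev_phase {l : ℕ} {P : Poly d} (hP : P.IsHomogeneous l) (θ : ℝ) (x : CC d) :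
    ev P (phase θ x) = cexp (θ * I) ^ l * ev P x := by
  unfold ev phase
  rw [MvPolynomial.eval_eq', MvPolynomial.eval_eq', Finset.mul_sum]
  refine Finset.sum_congr rfl fun d hd => ?_
  have h1 : ∑ i, d i = l := by
    have := hP (MvPolynomial.mem_support_iff.1 hd)
    rw [← this]
    simp [Finsupp.weight_apply, Finsupp.sum_fintype]
  simp only [mul_pow, Finset.prod_mul_distrib, Finset.prod_pow_eq_pow_sum]
  rw [h1]
  ring

theorem ip_hom (hμ : Law μ) {k l : ℕ} (hkl : k ≠ l) {P Q : Poly d} (hP : P.IsHomogeneous k)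
    (hQ : Q.IsHomogeneous l) : ip μ P Q = 0 := by
  have hn : ((l : ℂ) - (k : ℂ)) ≠ 0 := by
    rw [sub_ne_zero]
    exact_mod_cast hkl.symm
  set θ : ℝ := Real.pi / ((l : ℝ) - (k : ℝ)) with hθ
  have h1 := int_phase hμ _ (cont_ip P Q) θ
  have h2 : ∀ x, conj (ev P (phase θ x)) * ev Q (phase θ x) = -(conj (ev P x) * ev Q x) := by
    intro x
    rw [ev_phase hP, ev_phase hQ, map_mul, map_pow, ← exp_conj, map_mul, conj_I, conj_ofReal,
      ← exp_nat_mul, ← exp_nat_mul]
    have h3 : cexp (k * (θ * -I)) * cexp (l * (θ * I)) = -1 := by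
      rw [← exp_add]
      have : (k : ℂ) * (θ * -I) + l * (θ * I) = Real.pi * I := by
        rw [hθ]
        push_cast
        field_simp
        ring
      rw [this, exp_pi_mul_I]
    linear_combination (conj (ev P x) * ev Q x) * h3
  simp only [h2] at h1
  rw [integral_neg] at h1
  change -(ip μ P Q) = ip μ P Q at h1
  have h4 : (2 : ℂ) * ip μ P Q = 0 := by linear_combination -h1
  simpa using h4

/-- the homogeneous component -/
noncomputable abbrev hc (l : ℕ) (P : Poly d) : Poly d := homogeneousComponent l P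

theorem sum_hc (P : Poly d) (n : ℕ) (hn : P.totalDegree < n) : ∑ l ∈ Finset.range n, hc l P = P := by
  conv_rhs => rw [← sum_homogeneousComponent P]
  symm
  refine Finset.sum_subset (fun l hl => ?_) fun l _ hl => ?_
  · rw [Finset.mem_range] at *
    omega
  · rw [Finset.mem_range] at hl
    exact homogeneousComponent_eq_zero _ _ (by omega)

theorem ip_decomp (hμ : Law μ) (P Q : Poly d) (n : ℕ) (hP : P.totalDegree < n)
    (hQ : Q.totalDegree < n) :
    ip μ P Q = ∑ l ∈ Finset.range n, ip μ (hc l P) (hc l Q) := by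
  conv_lhs => rw [← sum_hc P n hP, ← sum_hc Q n hQ, ip_sum_left hμ]
  refine Finset.sum_congr rfl fun l hl => ?_
  rw [ip_sum_right hμ, Finset.sum_eq_single l]
  · intro k _ hk
    exact ip_hom hμ hk.symm (homogeneousComponent_isHomogeneous l P)
      (homogeneousComponent_isHomogeneous k Q)
  · intro h
    exact absurd hl h

theorem ip_NP (hμ : Law μ) (P Q : Poly d) : ip μ P (NP Q) = ip μ (NP P) Q := by
  set n := P.totalDegree + Q.totalDegree + (NP P).totalDegree + (NP Q).totalDegree + 1 with hn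
  rw [ip_decomp hμ P (NP Q) n (by omega) (by omega), ip_decomp hμ (NP P) Q n (by omega) (by omega)]
  refine Finset.sum_congr rfl fun l _ => ?_
  have e1 : hc l (NP Q) = (l : ℂ) • hc l Q := hc_NP l Q
  have e2 : hc l (NP P) = (l : ℂ) • hc l P := hc_NP l P
  rw [e1, e2, ip_smul_right, ip_smul_left, conj_natCast]

theorem ip_AP (hμ : Law μ) (P Q : Poly d) : ip μ P (AP Q) = ip μ (AP P) Q := by
  unfold AP
  rw [ip_add_right hμ, ip_add_left hμ, ip_NP hμ, ip_smul_right, ip_smul_left, conj_ofReal]

theorem ev_hc_zero (P : Poly d) (x : CC d) : ev (hc 0 P) x = ev P 0 := by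
  unfold ev hc
  rw [homogeneousComponent_zero, eval_C, ← constantCoeff_eq]
  simp

end Pool.Agent.ConeG.Alg
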