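import Pool.Agent.Work.MP_b0b133_an.G.Defs

/-!
# Polar coordinates and the radial factor
-/

set_option autoImplicit false
open MeasureTheory Complex Set
open scoped ENNReal ComplexConjugate

namespace Pool.Agent.ConeG

/-- Polar coordinates, in the form of a product measure. -/
theorem B_polar {E F : Type*} [NormedAddCommGroup E] [NormedSpace ℝ E] [MeasurableSpace E]
    [BorelSpace E] [FiniteDimensional ℝ E] [Nontrivial E] (μ : Measure E) [μ.IsAddHaarMeasure]
    [NormedAddCommGroup F] [NormedSpace ℝ F] (f : E → F) :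
    ∫ x, f x ∂μ = ∫ p : Metric.sphere (0 : E) 1 × Ioi (0 : ℝ), f ((p.2 : ℝ) • (p.1 : E))
      ∂(μ.toSphere.prod (Measure.volumeIoiPow (Module.finrank ℝ E - 1))) :=
  calc
    ∫ x, f x ∂μ = ∫ x : ({(0)}ᶜ : Set E), f x.1 ∂(μ.comap (↑)) := by
      rw [integral_subtype_comap (measurableSet_singleton _).compl fun x ↦ f x,
        restrict_compl_singleton]
    _ = _ := by
      rw [← μ.measurePreserving_homeomorphUnitSphereProd.integral_comp
        (Homeomorph.measurableEmbedding _)]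
      congr 1
      ext x
      simp only [homeomorphUnitSphereProd_apply_fst_coe, homeomorphUnitSphereProd_apply_snd_coe]
      congr 1
      have hx : ‖(x : E)‖ ≠ 0 := norm_ne_zero_iff.2 x.2
      rw [smul_smul, mul_inv_cancel₀ hx, one_smul]

/-- The radial factor is positive. -/
theorem B_rad_pos (m n : ℕ) : 0 < ∫ r : Ioi (0 : ℝ), (r : ℝ) ^ m * Real.exp (-(r : ℝ) ^ 2 / 2)
      ∂(Measure.volumeIoiPow n) := by
  simp only [Measure.volumeIoiPow, ENNReal.ofReal]
  rw [integral_withDensity_eq_integral_smul (by fun_prop)]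
  rw [integral_subtype_comap measurableSet_Ioi fun a : ℝ ↦ Real.toNNReal (a ^ n) •
    (a ^ m * Real.exp (-a ^ 2 / 2))]
  have h : ∀ x ∈ Ioi (0 : ℝ), Real.toNNReal (x ^ n) • (x ^ m * Real.exp (-x ^ 2 / 2)) =
      x ^ ((n + m : ℕ) : ℝ) * Real.exp (-(1 / 2) * x ^ (2 : ℝ)) := by
    intro x hx
    rw [NNReal.smul_def, Real.coe_toNNReal _ (pow_nonneg (le_of_lt hx) _), smul_eq_mul,
      Real.rpow_natCast, pow_add, ← mul_assoc]
    congr 2
    rw [Real.rpow_two]
    ring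
  have hc : (0 : ℝ) ≤ ((n + m : ℕ) : ℝ) := Nat.cast_nonneg _
  rw [setIntegral_congr_fun measurableSet_Ioi h,
    _root_.integral_rpow_mul_exp_neg_mul_rpow (p := 2) (q := ((n + m : ℕ) : ℝ)) (b := 1 / 2)
      (by norm_num) (by linarith) (by norm_num)]
  have : 0 < Real.Gamma ((((n + m : ℕ) : ℝ) + 1) / 2) := Real.Gamma_pos_of_pos (by positivity)
  positivity

/-- The radial factor as a complex number. -/
theorem B_rad_ne (m n : ℕ) : ∫ r : Ioi (0 : ℝ), ((r : ℝ) : ℂ) ^ m *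
      (Real.exp (-(r : ℝ) ^ 2 / 2) : ℂ) ∂(Measure.volumeIoiPow n) ≠ 0 := by
  have h : ∫ r : Ioi (0 : ℝ), ((r : ℝ) : ℂ) ^ m * (Real.exp (-(r : ℝ) ^ 2 / 2) : ℂ)
      ∂(Measure.volumeIoiPow n) = ((∫ r : Ioi (0 : ℝ), (r : ℝ) ^ m * Real.exp (-(r : ℝ) ^ 2 / 2)
      ∂(Measure.volumeIoiPow n) : ℝ) : ℂ) := by
    rw [← integral_complex_ofReal]
    congr 1
    ext r
    push_cast
    rfl
  rw [h]
  exact_mod_cast (B_rad_pos m n).ne'

end Pool.Agent.ConeG
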