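import Pool.Agent.Work.MP_b0b133_an.G.B0

/-!
# Orthogonality of harmonic polynomials of different degrees on the sphere
-/

set_option autoImplicit false
open MeasureTheory Complex Set
open scoped ENNReal ComplexConjugate

namespace Pool.Agent.ConeG

variable {d : ℕ}

/-- evaluation at a real point -/
noncomputable def B_pe (P : MvPolynomial (Fin (d + 1)) ℂ) (x : (Rd (d + 1))) : ℂ :=
  MvPolynomial.eval (fun j => ((x j : ℝ) : ℂ)) P

theorem B_pe_add (P Q : MvPolynomial (Fin (d + 1)) ℂ) (x : (Rd (d + 1))) :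
    B_pe (P + Q) x = B_pe P x + B_pe Q x := by simp [B_pe]

theorem B_pe_mul (P Q : MvPolynomial (Fin (d + 1)) ℂ) (x : (Rd (d + 1))) :
    B_pe (P * Q) x = B_pe P x * B_pe Q x := by simp [B_pe]

theorem B_pe_X (j : Fin (d + 1)) (x : (Rd (d + 1))) : B_pe (MvPolynomial.X j) x = ((x j : ℝ) : ℂ) := by
  simp [B_pe]

theorem B_pe_C (c : ℂ) (x : (Rd (d + 1))) : B_pe (MvPolynomial.C c) x = c := by simp [B_pe]

theorem B_pe_smul {l : ℕ} {P : MvPolynomial (Fin (d + 1)) ℂ} (hP : P.IsHomogeneous l) (r : ℝ)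
    (x : (Rd (d + 1))) : B_pe P (r • x) = (r : ℂ) ^ l * B_pe P x := by
  unfold B_pe
  rw [MvPolynomial.eval_eq', MvPolynomial.eval_eq', Finset.mul_sum]
  refine Finset.sum_congr rfl fun e hd => ?_
  have h1 : ∑ i, e i = l := by
    have := hP.degree_eq_sum_deg_support hd
    rw [this]
    exact (Finset.sum_subset (Finset.subset_univ _) fun i _ hi => by
      simpa using hi).symm
  have h2 : ∏ i, (((r • x) i : ℝ) : ℂ) ^ e i = (r : ℂ) ^ l * ∏ i, ((x i : ℝ) : ℂ) ^ e i := by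
    rw [← h1, ← Finset.prod_pow_eq_pow_sum, ← Finset.prod_mul_distrib]
    refine Finset.prod_congr rfl fun i _ => ?_
    rw [← mul_pow]
    congr 1
    simp
  rw [h2]
  ring

theorem B_pe_cont (P : MvPolynomial (Fin (d + 1)) ℂ) : Continuous (B_pe P) := by
  unfold B_pe
  refine (MvPolynomial.continuous_eval P).comp ?_
  fun_prop

theorem B_pe_bound (P : MvPolynomial (Fin (d + 1)) ℂ) : ∃ (C : ℝ) (N : ℕ), 0 ≤ C ∧
    ∀ x, ‖B_pe P x‖ ≤ C * (1 + ‖x‖) ^ N := by
  induction P using MvPolynomial.induction_on with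
  | C c =>
    refine ⟨‖c‖, 0, norm_nonneg _, fun x => ?_⟩
    rw [B_pe_C, pow_zero, mul_one]
  | add P Q hP hQ =>
    obtain ⟨C, N, hC, h1⟩ := hP
    obtain ⟨D, M, hD, h2⟩ := hQ
    refine ⟨C + D, N + M, by positivity, fun x => ?_⟩
    rw [B_pe_add]
    have h0 : (1 : ℝ) ≤ 1 + ‖x‖ := by linarith [norm_nonneg x]
    have e1 : (1 + ‖x‖) ^ N ≤ (1 + ‖x‖) ^ (N + M) := pow_le_pow_right₀ h0 (by omega)
    have e2 : (1 + ‖x‖) ^ M ≤ (1 + ‖x‖) ^ (N + M) := pow_le_pow_right₀ h0 (by omega)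
    calc ‖B_pe P x + B_pe Q x‖ ≤ ‖B_pe P x‖ + ‖B_pe Q x‖ := norm_add_le _ _
      _ ≤ C * (1 + ‖x‖) ^ N + D * (1 + ‖x‖) ^ M := add_le_add (h1 x) (h2 x)
      _ ≤ C * (1 + ‖x‖) ^ (N + M) + D * (1 + ‖x‖) ^ (N + M) := by gcongr
      _ = _ := by ring
  | mul_X P j hP =>
    obtain ⟨C, N, hC, h1⟩ := hP
    refine ⟨C, N + 1, hC, fun x => ?_⟩
    rw [B_pe_mul, B_pe_X, norm_mul]
    have h2 : ‖((x j : ℝ) : ℂ)‖ ≤ 1 + ‖x‖ := by
      rw [Complex.norm_real]
      have h3 := PiLp.norm_apply_le x j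
      linarith
    calc ‖B_pe P x‖ * ‖((x j : ℝ) : ℂ)‖ ≤ (C * (1 + ‖x‖) ^ N) * (1 + ‖x‖) := by
          gcongr
          exact h1 x
      _ = _ := by ring

/-- the direction `e_j` -/
noncomputable def B_e (j : Fin (d + 1)) : (Rd (d + 1)) := EuclideanSpace.single j 1

theorem B_pe_deriv (P : MvPolynomial (Fin (d + 1)) ℂ) (j : Fin (d + 1)) (x : (Rd (d + 1))) :
    HasLineDerivAt ℝ (B_pe P) (B_pe (MvPolynomial.pderiv j P) x) x (B_e j) := by
  unfold HasLineDerivAt
  induction P using MvPolynomial.induction_on with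
  | C c =>
    simp only [B_pe_C, MvPolynomial.pderiv_C]
    have : B_pe 0 x = 0 := by simp [B_pe]
    rw [this]
    exact hasDerivAt_const _ _
  | add P Q hP hQ =>
    simp only [B_pe_add, map_add]
    exact hP.add hQ
  | mul_X P k hP =>
    have hX : HasDerivAt (fun t : ℝ => B_pe (MvPolynomial.X k) (x + t • B_e j))
        (B_pe (MvPolynomial.pderiv j (MvPolynomial.X k)) x) 0 := by
      simp only [B_pe_X]
      have e : (fun t : ℝ => (((x + t • B_e j) k : ℝ) : ℂ)) =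
          fun t : ℝ => ((x k + t * (if k = j then 1 else 0) : ℝ) : ℂ) := by
        ext t
        simp [B_e]
      rw [e]
      have e2 : B_pe (MvPolynomial.pderiv j (MvPolynomial.X k)) x =
          (((if k = j then 1 else 0 : ℝ)) : ℂ) := by
        rw [MvPolynomial.pderiv_X]
        by_cases h : k = j
        · subst h; simp [B_pe]
        · simp [B_pe, h]
      rw [e2]
      have h0 : HasDerivAt (fun t : ℝ => x k + t * (if k = j then 1 else 0 : ℝ))
          (if k = j then 1 else 0 : ℝ) 0 := by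
        simpa using ((hasDerivAt_id (0 : ℝ)).mul_const (if k = j then 1 else 0 : ℝ)).const_add (x k)
      exact h0.ofReal_comp
    have h := hP.mul hX
    simp only [zero_smul, add_zero] at h
    have e : B_pe (MvPolynomial.pderiv j (P * MvPolynomial.X k)) x =
        B_pe (MvPolynomial.pderiv j P) x * B_pe (MvPolynomial.X k) x +
        B_pe P x * B_pe (MvPolynomial.pderiv j (MvPolynomial.X k)) x := by
      rw [Derivation.leibniz, smul_eq_mul, smul_eq_mul, B_pe_add, B_pe_mul, B_pe_mul]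
      ring
    rw [e]
    simp only [B_pe_mul]
    exact h

/-- the Gaussian weight -/
noncomputable def B_g (x : (Rd (d + 1))) : ℂ := (Real.exp (-‖x‖ ^ 2 / 2) : ℂ)

theorem B_g_deriv (j : Fin (d + 1)) (x : (Rd (d + 1))) :
    HasLineDerivAt ℝ B_g (-(((x j : ℝ) : ℂ) * B_g x)) x (B_e j) := by
  unfold HasLineDerivAt B_g
  have e : (fun t : ℝ => ((Real.exp (-‖x + t • B_e j‖ ^ 2 / 2) : ℝ) : ℂ)) =
      fun t : ℝ => ((Real.exp (-(‖x‖ ^ 2 + 2 * (t * x j) + t ^ 2) / 2) : ℝ) : ℂ) := by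
    ext t
    have h1 : ‖x + t • B_e j‖ ^ 2 = ‖x‖ ^ 2 + 2 * (t * x j) + t ^ 2 := by
      rw [norm_add_sq_real, real_inner_smul_right, norm_smul]
      have h2 : inner ℝ x (B_e j) = x j := by
        simp [B_e, EuclideanSpace.inner_single_right]
      have h3 : ‖B_e j‖ = 1 := by simp [B_e]
      rw [h2, h3, mul_one, Real.norm_eq_abs, sq_abs]
    rw [h1]
  rw [e]
  have h0 : HasDerivAt (fun t : ℝ => -(‖x‖ ^ 2 + 2 * (t * x j) + t ^ 2) / 2) (-(x j)) 0 := by
    have h1 : HasDerivAt (fun t : ℝ => 2 * (t * x j)) (2 * (1 * x j)) 0 :=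
      ((hasDerivAt_id (0 : ℝ)).mul_const (x j)).const_mul 2
    have h2 : HasDerivAt (fun t : ℝ => t ^ 2) (2 * (0 : ℝ) ^ 1 * 1) 0 := by
      simpa using hasDerivAt_pow 2 (0 : ℝ)
    have h3 := (((hasDerivAt_const (0 : ℝ) (‖x‖ ^ 2)).add h1).add h2).neg.div_const 2
    convert! h3 using 1
    ring
  have h1 := h0.exp.ofReal_comp
  convert! h1 using 1
  push_cast
  simp
  ring

/-- integrability -/
theorem B_int (A B : MvPolynomial (Fin (d + 1)) ℂ) :
    Integrable (fun x : (Rd (d + 1)) => B_pe A x * conj (B_pe B x) * B_g x) := by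
  obtain ⟨C, N, hC, h1⟩ := B_pe_bound A
  obtain ⟨D, M, hD, h2⟩ := B_pe_bound B
  have key : Integrable (fun x : (Rd (d + 1)) => (fun y : ℝ => C * D * ((1 + y) ^ (N + M) *
      Real.exp (-(1 / 2) * y ^ 2))) ‖x‖) := by
    refine (integrable_fun_norm_addHaar (volume : Measure (Rd (d + 1))) (f := fun y : ℝ =>
      C * D * ((1 + y) ^ (N + M) * Real.exp (-(1 / 2) * y ^ 2)))).2 ?_
    have e : (fun y : ℝ => y ^ (Module.finrank ℝ (Rd (d + 1)) - 1) • (C * D * ((1 + y) ^ (N + M) *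
        Real.exp (-(1 / 2) * y ^ 2)))) = fun y : ℝ => ∑ i ∈ Finset.range (N + M + 1),
        (C * D * ((N + M).choose i)) *
          (y ^ (Module.finrank ℝ (Rd (d + 1)) - 1 + (N + M - i)) * Real.exp (-(1 / 2) * y ^ 2)) := by
      ext y
      rw [add_pow, smul_eq_mul, Finset.sum_mul, Finset.mul_sum, Finset.mul_sum]
      refine Finset.sum_congr rfl fun i _ => ?_
      rw [pow_add, one_pow]
      ring
    rw [e]
    refine MeasureTheory.integrable_finsetSum _ fun i _ => ?_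
    refine Integrable.const_mul ?_ _
    have := integrable_rpow_mul_exp_neg_mul_sq (b := 1 / 2) (by norm_num)
      (s := ((Module.finrank ℝ (Rd (d + 1)) - 1 + (N + M - i) : ℕ) : ℝ))
      (by have := Nat.cast_nonneg (α := ℝ) (Module.finrank ℝ (Rd (d + 1)) - 1 + (N + M - i)); linarith)
    simp only [Real.rpow_natCast] at this
    exact this.integrableOn
  refine key.mono' ?_ (Filter.Eventually.of_forall fun x => ?_)
  · refine Continuous.aestronglyMeasurable ?_
    have := B_pe_cont A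
    have := B_pe_cont B
    unfold B_g
    fun_prop
  · rw [norm_mul, norm_mul, RCLike.norm_conj]
    have h3 : ‖B_g x‖ = Real.exp (-(1 / 2) * ‖x‖ ^ 2) := by
      unfold B_g
      rw [Complex.norm_real, Real.norm_eq_abs, abs_of_pos (Real.exp_pos _)]
      congr 1
      ring
    rw [h3]
    have h4 := h1 x
    have h5 := h2 x
    have h6 := norm_nonneg x
    calc ‖B_pe A x‖ * ‖B_pe B x‖ * Real.exp (-(1 / 2) * ‖x‖ ^ 2)
        ≤ (C * (1 + ‖x‖) ^ N) * (D * (1 + ‖x‖) ^ M) * Real.exp (-(1 / 2) * ‖x‖ ^ 2) := by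
          gcongr
      _ = C * D * ((1 + ‖x‖) ^ (N + M) * Real.exp (-(1 / 2) * ‖x‖ ^ 2)) := by
          rw [pow_add]; ring

/-- the Gaussian pairing -/
noncomputable def B_J (A B : MvPolynomial (Fin (d + 1)) ℂ) : ℂ :=
  ∫ x : (Rd (d + 1)), B_pe A x * conj (B_pe B x) * B_g x

theorem B_J_conj (A B : MvPolynomial (Fin (d + 1)) ℂ) : conj (B_J A B) = B_J B A := by
  unfold B_J
  rw [← integral_conj]
  congr 1
  ext x
  have : conj (B_g x) = B_g x := by unfold B_g; exact Complex.conj_ofReal _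
  rw [map_mul, map_mul, this, Complex.conj_conj]
  ring

theorem B_J_sum {ι : Type*} (s : Finset ι) (A : ι → MvPolynomial (Fin (d + 1)) ℂ)
    (B : MvPolynomial (Fin (d + 1)) ℂ) : B_J (∑ i ∈ s, A i) B = ∑ i ∈ s, B_J (A i) B := by
  unfold B_J
  rw [← integral_finsetSum _ fun i _ => B_int (A i) B]
  congr 1
  ext x
  have : B_pe (∑ i ∈ s, A i) x = ∑ i ∈ s, B_pe (A i) x := by simp [B_pe]
  rw [this, Finset.sum_mul, Finset.sum_mul]

theorem B_J_nsmul (n : ℕ) (A B : MvPolynomial (Fin (d + 1)) ℂ) : B_J (n • A) B = n * B_J A B := by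
  unfold B_J
  rw [← integral_const_mul]
  congr 1
  ext x
  have : B_pe (n • A) x = n * B_pe A x := by simp [B_pe]
  rw [this]
  ring

theorem B_ibp (A B : MvPolynomial (Fin (d + 1)) ℂ) (j : Fin (d + 1)) :
    B_J (MvPolynomial.X j * A) B =
      B_J (MvPolynomial.pderiv j A) B + B_J A (MvPolynomial.pderiv j B) := by
  have h := integral_bilinear_hasLineDerivAt_right_eq_neg_left_of_integrable
    (μ := (volume : Measure (Rd (d + 1)))) (B := ContinuousLinearMap.mul ℝ ℂ)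
    (f := fun x => B_pe A x * conj (B_pe B x))
    (f' := fun x => B_pe (MvPolynomial.pderiv j A) x * conj (B_pe B x) +
      B_pe A x * conj (B_pe (MvPolynomial.pderiv j B) x))
    (g := B_g) (g' := fun x => -(((x j : ℝ) : ℂ) * B_g x)) (v := B_e j)
    (by
      simp only [ContinuousLinearMap.mul_apply', add_mul]
      exact (B_int _ _).add (B_int _ _))
    (by
      simp only [ContinuousLinearMap.mul_apply']
      have := (B_int (MvPolynomial.X j * A) B).neg
      refine this.congr (Filter.Eventually.of_forall fun x => ?_)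
      simp only [Pi.neg_apply, B_pe_mul, B_pe_X]
      ring)
    (by
      simp only [ContinuousLinearMap.mul_apply']
      exact B_int _ _)
    (fun x _ => by
      have h1 := B_pe_deriv A j x
      have h2 := B_pe_deriv B j x
      unfold HasLineDerivAt at *
      have h3 := h1.mul h2.star
      simp only [zero_smul, add_zero] at h3
      exact h3)
    (fun x _ => B_g_deriv j x)
  simp only [ContinuousLinearMap.mul_apply'] at h
  have e1 : B_J (MvPolynomial.X j * A) B = -∫ x : (Rd (d + 1)), B_pe A x * conj (B_pe B x) *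
      -(((x j : ℝ) : ℂ) * B_g x) := by
    unfold B_J
    rw [← integral_neg]
    congr 1
    ext x
    rw [B_pe_mul, B_pe_X]
    ring
  rw [e1, h, neg_neg]
  unfold B_J
  rw [← integral_add (B_int _ _) (B_int _ _)]
  congr 1
  ext x
  ring

theorem B_J_pderiv (l : ℕ) (P Q : MvPolynomial (Fin (d + 1)) ℂ) (hP : P ∈ Harm d l) :
    (l : ℂ) * B_J P Q = ∑ j, B_J (MvPolynomial.pderiv j P) (MvPolynomial.pderiv j Q) := by
  rw [← B_J_nsmul, ← hP.1.sum_X_mul_pderiv, B_J_sum]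
  have h : ∀ j : Fin (d + 1), B_J (MvPolynomial.X j * MvPolynomial.pderiv j P) Q =
      B_J (MvPolynomial.pderiv j (MvPolynomial.pderiv j P)) Q +
      B_J (MvPolynomial.pderiv j P) (MvPolynomial.pderiv j Q) := fun j => B_ibp _ _ j
  rw [Finset.sum_congr rfl fun j _ => h j, Finset.sum_add_distrib, ← B_J_sum, hP.2]
  have : B_J 0 Q = 0 := by simp [B_J, B_pe]
  rw [this, zero_add]

theorem B_J_zero (l k : ℕ) (hlk : l ≠ k) (P Q : MvPolynomial (Fin (d + 1)) ℂ) (hP : P ∈ Harm d l)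
    (hQ : Q ∈ Harm d k) : B_J P Q = 0 := by
  have h1 := B_J_pderiv l P Q hP
  have h2 := congrArg conj (B_J_pderiv k Q P hQ)
  rw [map_mul, map_sum, B_J_conj] at h2
  simp only [B_J_conj] at h2
  rw [← h1] at h2
  have h3 : conj ((k : ℕ) : ℂ) = (k : ℂ) := by simp
  rw [h3] at h2
  have h4 : ((k : ℂ) - l) * B_J P Q = 0 := by rw [sub_mul, h2, sub_self]
  rcases mul_eq_zero.1 h4 with h | h
  · exact absurd (by exact_mod_cast (sub_eq_zero.1 h).symm) hlk
  · exact h

theorem B_J_polar {l k : ℕ} {P Q : MvPolynomial (Fin (d + 1)) ℂ} (hP : P.IsHomogeneous l)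
    (hQ : Q.IsHomogeneous k) : B_J P Q = (∫ ω : (Sph (d + 1)), B_pe P ω * conj (B_pe Q ω)
      ∂(volume : Measure (Rd (d + 1))).toSphere) * ∫ r : Ioi (0 : ℝ), ((r : ℝ) : ℂ) ^ (l + k) *
      (Real.exp (-(r : ℝ) ^ 2 / 2) : ℂ) ∂(Measure.volumeIoiPow (Module.finrank ℝ (Rd (d + 1)) - 1)) := by
  unfold B_J
  rw [B_polar, ← integral_prod_mul]
  congr 1
  ext p
  rw [B_pe_smul hP, B_pe_smul hQ]
  have h1 : B_g ((p.2 : ℝ) • (p.1 : (Rd (d + 1)))) = (Real.exp (-(p.2 : ℝ) ^ 2 / 2) : ℂ) := by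
    unfold B_g
    rw [norm_smul, norm_eq_of_mem_sphere p.1, mul_one, Real.norm_eq_abs, sq_abs]
  rw [h1, map_mul, map_pow, Complex.conj_ofReal, pow_add]
  ring

/-- B1 -/
theorem sphere_orth (l k : ℕ) (hlk : l ≠ k) (P Q : MvPolynomial (Fin (d + 1)) ℂ) (hP : P ∈ Harm d l)
    (hQ : Q ∈ Harm d k) :
    ∫ ω : (Sph (d + 1)), MvPolynomial.eval (fun j => (((ω : Rd (d + 1)) j : ℝ) : ℂ)) P *
      conj (MvPolynomial.eval (fun j => (((ω : Rd (d + 1)) j : ℝ) : ℂ)) Q) ∂(sphM (d + 1))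
      = 0 := by
  have h1 := B_J_polar hP.1 hQ.1
  rw [B_J_zero l k hlk P Q hP hQ] at h1
  have h2 := (mul_eq_zero.1 h1.symm).resolve_right (B_rad_ne _ _)
  unfold sphM
  rw [integral_smul_measure]
  have h3 : ∫ ω : (Sph (d + 1)), MvPolynomial.eval
      (fun j => (((ω : Rd (d + 1)) j : ℝ) : ℂ)) P *
      conj (MvPolynomial.eval (fun j => (((ω : Rd (d + 1)) j : ℝ) : ℂ)) Q)
      ∂(volume : Measure (Rd (d + 1))).toSphere = 0 := h2
  rw [h3, smul_zero]

end Pool.Agent.ConeG
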