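import Pool.Agent.Work.MP_b0b133_an.G.Defs

/-!
# Boosts

`boost v` is a linear conformal map of space-time with factor `√(lor v)`, for `v` in the open
forward cone.
-/

set_option autoImplicit false
open MeasureTheory Complex
open scoped ENNReal ComplexConjugate

namespace Pool.Agent.ConeG

variable {d : ℕ}

theorem BO_pos {v : Rs d} (hv : v ∈ Fwd) : 0 < v.1 := lt_of_le_of_lt (norm_nonneg _) hv

theorem BO_lor_pos {v : Rs d} (hv : v ∈ Fwd) : 0 < lor v := by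
  have h1 : ‖v.2‖ < v.1 := hv
  have h2 := norm_nonneg v.2
  unfold lor
  nlinarith

theorem BO_add_sqrt_pos {v : Rs d} (hv : v ∈ Fwd) : 0 < v.1 + √(lor v) :=
  add_pos_of_pos_of_nonneg (BO_pos hv) (Real.sqrt_nonneg _)

theorem BO_sqrt_sq {v : Rs d} (hv : v ∈ Fwd) : √(lor v) ^ 2 = v.1 ^ 2 - ‖v.2‖ ^ 2 := by
  rw [Real.sq_sqrt (BO_lor_pos hv).le, lor]

/-- BO1 -/
theorem boost_e (v : Rs d) : boost v (1, 0) = v := by
  unfold boost
  simp

theorem boost_fst (v a : Rs d) : (boost v a).1 = v.1 * a.1 + inner ℝ v.2 a.2 := rfl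

theorem boost_snd (v a : Rs d) : (boost v a).2 =
    a.1 • v.2 + √(lor v) • a.2 + (inner ℝ v.2 a.2 / (v.1 + √(lor v))) • v.2 := rfl

/-- the Lorentz form of two boosted vectors -/
theorem BO_form (v : Rs d) (hv : v ∈ Fwd) (a b : Rs d) :
    (boost v a).1 * (boost v b).1 - inner ℝ (boost v a).2 (boost v b).2 =
      lor v * (a.1 * b.1 - inner ℝ a.2 b.2) := by
  have hD := BO_add_sqrt_pos hv
  have hs := BO_sqrt_sq hv
  rw [boost_fst, boost_fst, boost_snd, boost_snd]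
  simp only [inner_add_left, inner_add_right, real_inner_smul_left, real_inner_smul_right,
    real_inner_self_eq_norm_sq]
  rw [real_inner_comm a.2 v.2]
  have hn : ‖v.2‖ ^ 2 = (v.1 - √(lor v)) * (v.1 + √(lor v)) := by nlinarith
  have hl : lor v = √(lor v) ^ 2 := by rw [hs]; rfl
  rw [hn]
  generalize hS : √(lor v) = s at *
  rw [hl]
  generalize (inner ℝ v.2 a.2 : ℝ) = p
  generalize (inner ℝ v.2 b.2 : ℝ) = q
  generalize (inner ℝ a.2 b.2 : ℝ) = r
  field_simp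
  ring

/-- BO2 -/
theorem qf_boost (v : Rs d) (hv : v ∈ Fwd) (u x : Rs d) :
    qf (boost v u) (boost v x) = (lor v : ℂ) * qf u x := by
  have h1 := BO_form v hv u u
  have h2 := BO_form v hv x x
  have h3 := BO_form v hv u x
  simp only [real_inner_self_eq_norm_sq] at h1 h2
  unfold qf
  rw [h3]
  have h4 : ‖(boost v u).2‖ ^ 2 - ‖(boost v x).2‖ ^ 2 - (boost v u).1 ^ 2 + (boost v x).1 ^ 2 =
      lor v * (‖u.2‖ ^ 2 - ‖x.2‖ ^ 2 - u.1 ^ 2 + x.1 ^ 2) := by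
    linear_combination h2 - h1
  rw [h4]
  push_cast
  ring

theorem lor_boost (v : Rs d) (hv : v ∈ Fwd) (a : Rs d) : lor (boost v a) = lor v * lor a := by
  have h1 := BO_form v hv a a
  simp only [real_inner_self_eq_norm_sq] at h1
  unfold lor at h1 ⊢
  linear_combination h1

/-- BO3 -/
theorem boost_mem_Fwd (v : Rs d) (hv : v ∈ Fwd) (x : Rs d) (hx : x ∈ Fwd) : boost v x ∈ Fwd := by
  have h1 : 0 < (boost v x).1 := by
    rw [boost_fst]
    have h2 : -(‖v.2‖ * ‖x.2‖) ≤ inner ℝ v.2 x.2 := by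
      have := abs_real_inner_le_norm v.2 x.2
      rw [abs_le] at this
      exact this.1
    have h3 : ‖v.2‖ < v.1 := hv
    have h4 : ‖x.2‖ < x.1 := hx
    have h5 : ‖v.2‖ * ‖x.2‖ < v.1 * x.1 :=
      mul_lt_mul'' h3 h4 (norm_nonneg _) (norm_nonneg _)
    linarith
  have h2 : 0 < lor (boost v x) := by
    rw [lor_boost v hv]
    exact mul_pos (BO_lor_pos hv) (BO_lor_pos hx)
  unfold lor at h2
  exact lt_of_pow_lt_pow_left₀ 2 h1.le (by linarith)

/-- BO4 : symmetric for the Euclidean pairing -/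
theorem boost_symm (v a b : Rs d) : (boost v a).1 * b.1 + inner ℝ (boost v a).2 b.2 =
    a.1 * (boost v b).1 + inner ℝ a.2 (boost v b).2 := by
  rw [boost_fst, boost_fst, boost_snd, boost_snd]
  simp only [inner_add_left, inner_add_right, real_inner_smul_left, real_inner_smul_right]
  rw [real_inner_comm a.2 v.2]
  ring

theorem BO_lor_neg (v : Rs d) : lor (v.1, -v.2) = lor v := by
  unfold lor
  simp

/-- BO5 : the inverse -/
theorem BO_inv (v : Rs d) (hv : v ∈ Fwd) (a : Rs d) :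
    boost v (boost (v.1, -v.2) a) = lor v • a := by
  have hD := BO_add_sqrt_pos hv
  have hs := BO_sqrt_sq hv
  have hn : ‖v.2‖ ^ 2 = (v.1 - √(lor v)) * (v.1 + √(lor v)) := by nlinarith
  have hl : lor v = √(lor v) ^ 2 := by rw [hs]; rfl
  have e1 : (boost (v.1, -v.2) a).1 = v.1 * a.1 - inner ℝ v.2 a.2 := by
    rw [boost_fst]
    simp only [inner_neg_left]
    ring
  have e2 : (boost (v.1, -v.2) a).2 =
      (-a.1 + inner ℝ v.2 a.2 / (v.1 + √(lor v))) • v.2 + √(lor v) • a.2 := by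
    rw [boost_snd, BO_lor_neg]
    simp only [inner_neg_left]
    module
  have e3 : inner ℝ v.2 (boost (v.1, -v.2) a).2 =
      (-a.1 + inner ℝ v.2 a.2 / (v.1 + √(lor v))) * ‖v.2‖ ^ 2 + √(lor v) * inner ℝ v.2 a.2 := by
    rw [e2]
    simp only [inner_add_right, real_inner_smul_right, real_inner_self_eq_norm_sq]
  refine Prod.ext ?_ ?_
  · rw [boost_fst, e1, e3, Prod.smul_fst, smul_eq_mul, hn]
    generalize hS : √(lor v) = s at *
    rw [hl]
    generalize (inner ℝ v.2 a.2 : ℝ) = p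
    field_simp
    ring
  · rw [boost_snd, e1, e3, e2, Prod.smul_snd, hn]
    generalize hS : √(lor v) = s at *
    rw [hl]
    generalize (inner ℝ v.2 a.2 : ℝ) = p
    have e4 : (v.1 * a.1 - p) + s * (-a.1 + p / (v.1 + s)) +
        ((-a.1 + p / (v.1 + s)) * ((v.1 - s) * (v.1 + s)) + s * p) / (v.1 + s) = 0 := by
      field_simp
      ring
    have e5 : (v.1 * a.1 - p) • v.2 + s • ((-a.1 + p / (v.1 + s)) • v.2 + s • a.2) +
        (((-a.1 + p / (v.1 + s)) * ((v.1 - s) * (v.1 + s)) + s * p) / (v.1 + s)) • v.2 =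
        ((v.1 * a.1 - p) + s * (-a.1 + p / (v.1 + s)) +
        ((-a.1 + p / (v.1 + s)) * ((v.1 - s) * (v.1 + s)) + s * p) / (v.1 + s)) • v.2 +
        s ^ 2 • a.2 := by module
    rw [e5, e4, zero_smul, zero_add]

theorem BO_neg_mem {v : Rs d} (hv : v ∈ Fwd) : ((v.1, -v.2) : Rs d) ∈ Fwd := by
  show ‖-v.2‖ < v.1
  rw [norm_neg]
  exact hv

theorem boost_inv (v : Rs d) (hv : v ∈ Fwd) (a : Rs d) :
    boost v (boost (v.1, -v.2) a) = lor v • a ∧ boost (v.1, -v.2) (boost v a) = lor v • a := by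
  refine ⟨BO_inv v hv a, ?_⟩
  have h := BO_inv (v.1, -v.2) (BO_neg_mem hv) a
  simp only [neg_neg, BO_lor_neg] at h
  exact h

/-! ### The linear map -/

/-- `boost v` as a linear map -/
noncomputable def boostL (v : Rs d) : Rs d →ₗ[ℝ] (Rs d) where
  toFun := boost v
  map_add' a b := by
    refine Prod.ext ?_ ?_
    · simp only [boost_fst, Prod.fst_add, Prod.snd_add, inner_add_right]
      ring
    · simp only [boost_snd, Prod.fst_add, Prod.snd_add, inner_add_right]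
      rw [add_div]
      module
  map_smul' r a := by
    refine Prod.ext ?_ ?_
    · simp only [boost_fst, Prod.smul_fst, Prod.smul_snd, real_inner_smul_right, smul_eq_mul,
        RingHom.id_apply]
      ring
    · simp only [boost_snd, Prod.smul_fst, Prod.smul_snd, real_inner_smul_right, smul_eq_mul,
        RingHom.id_apply]
      rw [mul_div_assoc]
      module

@[simp] theorem boostL_apply (v a : Rs d) : boostL v a = boost v a := rfl

theorem boost_add (v a b : Rs d) : boost v (a + b) = boost v a + boost v b :=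
  (boostL v).map_add a b

theorem boost_sub (v a b : Rs d) : boost v (a - b) = boost v a - boost v b :=
  (boostL v).map_sub a b

theorem boost_smul (v : Rs d) (r : ℝ) (a : Rs d) : boost v (r • a) = r • boost v a :=
  (boostL v).map_smul r a

theorem boost_zero (v : Rs d) : boost v 0 = 0 := (boostL v).map_zero

theorem continuous_boost (v : Rs d) : Continuous (boost v) :=
  (boostL v).continuous_of_finiteDimensional

/-- the reflection of space -/
noncomputable def BO_refl : Rs d ≃ₗ[ℝ] (Rs d) :=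
  LinearEquiv.prodCongr (LinearEquiv.refl ℝ ℝ) (LinearEquiv.neg ℝ)

theorem BO_refl_apply (a : Rs d) : BO_refl a = (a.1, -a.2) := rfl

theorem BO_refl_symm_apply (a : Rs d) : BO_refl.symm a = (a.1, -a.2) := by
  rw [LinearEquiv.symm_apply_eq, BO_refl_apply, neg_neg]

theorem BO_det (v : Rs d) (hv : v ∈ Fwd) : LinearMap.det (boostL v) ^ 2 = lor v ^ (d + 1) := by
  have h1 : boostL (v.1, -v.2) =
      ((BO_refl : Rs d ≃ₗ[ℝ] Rs d) : Rs d →ₗ[ℝ] (Rs d)) ∘ₗ boostL v ∘ₗ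
        ((BO_refl : Rs d ≃ₗ[ℝ] Rs d).symm : Rs d →ₗ[ℝ] (Rs d)) := by
    refine LinearMap.ext fun a => ?_
    simp only [LinearMap.comp_apply, LinearEquiv.coe_coe, boostL_apply, BO_refl_symm_apply,
      BO_refl_apply]
    refine Prod.ext ?_ ?_
    · simp only [boost_fst, inner_neg_left, inner_neg_right]
    · simp only [boost_snd, inner_neg_left, inner_neg_right, BO_lor_neg]
      module
  have h2 : LinearMap.det (boostL (v.1, -v.2)) = LinearMap.det (boostL v) := by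
    rw [h1]
    exact LinearMap.det_conj (boostL v) BO_refl
  have h3 : boostL v ∘ₗ boostL (v.1, -v.2) = lor v • LinearMap.id := by
    refine LinearMap.ext fun a => ?_
    simp only [LinearMap.comp_apply, boostL_apply, LinearMap.smul_apply, LinearMap.id_apply]
    exact BO_inv v hv a
  have h4 := congrArg LinearMap.det h3
  rw [LinearMap.det_comp, h2, LinearMap.det_smul, LinearMap.det_id, mul_one] at h4
  have h5 : Module.finrank ℝ (Rs d) = d + 1 := by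
    rw [Module.finrank_prod, Module.finrank_self, finrank_euclideanSpace, Fintype.card_fin,
      add_comm]
  rw [h5] at h4
  rw [sq, h4]

theorem BO_abs_det (v : Rs d) (hv : v ∈ Fwd) :
    |LinearMap.det (boostL v)| = lor v ^ (((d : ℝ) + 1) / 2) := by
  have h1 := BO_det v hv
  have h2 := BO_lor_pos hv
  have h3 : |LinearMap.det (boostL v)| = √(lor v ^ (d + 1)) := by
    rw [← h1, Real.sqrt_sq_eq_abs]
  rw [h3, Real.sqrt_eq_rpow, ← Real.rpow_natCast, ← Real.rpow_mul h2.le]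
  congr 1
  push_cast
  ring

theorem BO_det_ne (v : Rs d) (hv : v ∈ Fwd) : LinearMap.det (boostL v) ≠ 0 := by
  intro h
  have h1 := BO_det v hv
  rw [h] at h1
  have h2 := pow_pos (BO_lor_pos hv) (d + 1)
  rw [← h1] at h2
  norm_num at h2

instance haar_R5 : (volume : Measure (Rs d)).IsAddHaarMeasure := by
  rw [Measure.volume_eq_prod]
  exact Measure.prod.instIsAddHaarMeasure _ _

theorem BO_inj (v : Rs d) (hv : v ∈ Fwd) : Function.Injective (boost v) := by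
  intro a b hab
  have h1 := (boost_inv v hv a).2
  have h2 := (boost_inv v hv b).2
  rw [hab, h2] at h1
  exact (smul_right_injective (Rs d) (BO_lor_pos hv).ne') h1.symm

theorem BO_emb (v : Rs d) (hv : v ∈ Fwd) : MeasurableEmbedding (boost v) := by
  have h : (boostL v).ker = ⊥ := LinearMap.ker_eq_bot.2 (BO_inj v hv)
  exact (LinearMap.isClosedEmbedding_of_injective h).measurableEmbedding

/-- BO6 : change of variables -/
theorem integral_boost (v : Rs d) (hv : v ∈ Fwd) (h : Rs d → ℂ) :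
    ∫ a, h (boost v a) = ((lor v ^ (-(((d : ℝ) + 1) / 2)) : ℝ) : ℂ) * ∫ a, h a := by
  have hmap := Measure.map_linearMap_addHaar_eq_smul_addHaar (volume : Measure (Rs d))
    (BO_det_ne v hv)
  have h1 := (BO_emb v hv).integral_map (μ := (volume : Measure (Rs d))) h
  rw [← h1]
  have h2 : Measure.map (boost v) volume =
      ENNReal.ofReal |(LinearMap.det (boostL v))⁻¹| • (volume : Measure (Rs d)) := hmap
  rw [h2, integral_smul_measure, ENNReal.toReal_ofReal (abs_nonneg _), abs_inv, BO_abs_det v hv,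
    ← Real.rpow_neg (BO_lor_pos hv).le, Complex.real_smul]

/-! ### The conformal weight -/

theorem BO_norm_sq_w (a : Rs d) : ‖w a‖ ^ 2 = 1 + lor a ^ 2 + 2 * (a.1 ^ 2 + ‖a.2‖ ^ 2) := by
  have h : w a = ((‖a.2‖ ^ 2 - a.1 ^ 2 + 1 : ℝ) : ℂ) + ((2 * a.1 : ℝ) : ℂ) * I := by
    unfold w qf
    simp only [norm_zero, inner_zero_right]
    push_cast
    ring
  rw [h, ← Complex.normSq_eq_norm_sq, Complex.normSq_add_mul_I]
  unfold lor
  ring

theorem BO_one_le_norm_w (a : Rs d) : 1 ≤ ‖w a‖ := by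
  have h := BO_norm_sq_w a
  have h1 : (1 : ℝ) ≤ ‖w a‖ ^ 2 := by
    rw [h]
    nlinarith [sq_nonneg (lor a), sq_nonneg a.1, sq_nonneg ‖a.2‖]
  nlinarith [norm_nonneg (w a)]

theorem BO_w_ne_zero (a : Rs d) : w a ≠ 0 := by
  intro h
  have := BO_one_le_norm_w a
  rw [h, norm_zero] at this
  norm_num at this

/-- the Euclidean norm of a boosted vector -/
theorem BO_eucl (v : Rs d) : ∃ K : ℝ, 0 ≤ K ∧ ∀ a : Rs d,
    (boost v a).1 ^ 2 + ‖(boost v a).2‖ ^ 2 ≤ K * (a.1 ^ 2 + ‖a.2‖ ^ 2) := by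
  set L : Rs d →L[ℝ] (Rs d) := LinearMap.toContinuousLinearMap (boostL v) with hL
  refine ⟨2 * ‖L‖ ^ 2, by positivity, fun a => ?_⟩
  have h1 : ‖boost v a‖ ≤ ‖L‖ * ‖a‖ := L.le_opNorm a
  have h2 : ‖(boost v a).1‖ ≤ ‖boost v a‖ := norm_fst_le _
  have h3 : ‖(boost v a).2‖ ≤ ‖boost v a‖ := norm_snd_le _
  have h4 : ‖a‖ ^ 2 ≤ a.1 ^ 2 + ‖a.2‖ ^ 2 := by
    rcases max_choice ‖a.1‖ ‖a.2‖ with h | h
    · rw [Prod.norm_def, h, Real.norm_eq_abs, sq_abs]
      nlinarith [sq_nonneg ‖a.2‖]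
    · rw [Prod.norm_def, h]
      nlinarith [sq_nonneg a.1]
  have h5 : (boost v a).1 ^ 2 ≤ (‖L‖ * ‖a‖) ^ 2 := by
    rw [← sq_abs, ← Real.norm_eq_abs]
    exact pow_le_pow_left₀ (norm_nonneg _) (h2.trans h1) 2
  have h6 : ‖(boost v a).2‖ ^ 2 ≤ (‖L‖ * ‖a‖) ^ 2 :=
    pow_le_pow_left₀ (norm_nonneg _) (h3.trans h1) 2
  have h7 : ‖L‖ ^ 2 * ‖a‖ ^ 2 ≤ ‖L‖ ^ 2 * (a.1 ^ 2 + ‖a.2‖ ^ 2) :=
    mul_le_mul_of_nonneg_left h4 (sq_nonneg _)
  nlinarith

theorem BO_shift (c : Rs d) : ∃ K : ℝ, 0 ≤ K ∧ ∀ b : Rs d, ‖w (b + c)‖ ^ 2 ≤ K * ‖w b‖ ^ 2 := by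
  set E : ℝ := c.1 ^ 2 + ‖c.2‖ ^ 2 with hE
  have hE0 : 0 ≤ E := by positivity
  refine ⟨3 + 12 * E + 3 * lor c ^ 2 + 4 + 4 * E + 1, by positivity, fun b => ?_⟩
  rw [BO_norm_sq_w, BO_norm_sq_w]
  have h1 : lor (b + c) = lor b + 2 * (b.1 * c.1 - inner ℝ b.2 c.2) + lor c := by
    unfold lor
    rw [Prod.fst_add, Prod.snd_add, norm_add_sq_real]
    ring
  have h2 : ‖(b + c).2‖ ^ 2 ≤ 2 * ‖b.2‖ ^ 2 + 2 * ‖c.2‖ ^ 2 := by
    have := norm_add_le b.2 c.2
    have h3 := pow_le_pow_left₀ (norm_nonneg _) this 2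
    rw [Prod.snd_add]
    nlinarith [sq_nonneg (‖b.2‖ - ‖c.2‖)]
  have h3 : (b + c).1 ^ 2 ≤ 2 * b.1 ^ 2 + 2 * c.1 ^ 2 := by
    rw [Prod.fst_add]
    nlinarith [sq_nonneg (b.1 - c.1)]
  have h4 : (b.1 * c.1 - inner ℝ b.2 c.2) ^ 2 ≤ (b.1 ^ 2 + ‖b.2‖ ^ 2) * E := by
    have h5 := abs_real_inner_le_norm b.2 c.2
    have h6 : (inner ℝ b.2 c.2 : ℝ) ^ 2 ≤ (‖b.2‖ * ‖c.2‖) ^ 2 := by
      rw [← sq_abs (inner ℝ b.2 c.2 : ℝ)]
      exact pow_le_pow_left₀ (abs_nonneg _) h5 2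
    have h7 : |b.1 * c.1 * inner ℝ b.2 c.2| ≤ |b.1 * c.1| * (‖b.2‖ * ‖c.2‖) := by
      rw [abs_mul]
      exact mul_le_mul_of_nonneg_left h5 (abs_nonneg _)
    have h8 := neg_abs_le (b.1 * c.1 * inner ℝ b.2 c.2)
    have h9 : 2 * (|b.1 * c.1| * (‖b.2‖ * ‖c.2‖)) ≤
        b.1 ^ 2 * ‖c.2‖ ^ 2 + ‖b.2‖ ^ 2 * c.1 ^ 2 := by
      rw [abs_mul]
      have := sq_nonneg (|b.1| * ‖c.2‖ - ‖b.2‖ * |c.1|)
      have e1 := sq_abs b.1
      have e2 := sq_abs c.1
      nlinarith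
    rw [hE]
    nlinarith
  have h5 : lor (b + c) ^ 2 ≤ 3 * lor b ^ 2 + 12 * (b.1 * c.1 - inner ℝ b.2 c.2) ^ 2 +
      3 * lor c ^ 2 := by
    rw [h1]
    nlinarith [sq_nonneg (lor b - 2 * (b.1 * c.1 - inner ℝ b.2 c.2)),
      sq_nonneg (lor b - lor c), sq_nonneg (2 * (b.1 * c.1 - inner ℝ b.2 c.2) - lor c)]
  have h6 : 0 ≤ b.1 ^ 2 + ‖b.2‖ ^ 2 := by positivity
  have h7 : 0 ≤ lor b ^ 2 := sq_nonneg _
  have h8 : 0 ≤ lor c ^ 2 := sq_nonneg _
  nlinarith [mul_nonneg hE0 h6, mul_nonneg hE0 h7, mul_nonneg h8 h7, mul_nonneg h8 h6]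

/-- BO7 -/
theorem norm_w_boost (v c : Rs d) (hv : v ∈ Fwd) : ∃ C : ℝ, ∀ a : Rs d,
    ‖w (boost v a + c)‖ ≤ C * ‖w a‖ := by
  obtain ⟨K, hK, h1⟩ := BO_eucl v
  obtain ⟨K', hK', h2⟩ := BO_shift c
  refine ⟨√(K' * (1 + lor v ^ 2 + K)), fun a => ?_⟩
  have h3 : ‖w (boost v a)‖ ^ 2 ≤ (1 + lor v ^ 2 + K) * ‖w a‖ ^ 2 := by
    rw [BO_norm_sq_w, BO_norm_sq_w, lor_boost v hv]
    have h4 := h1 a
    have h6 : 0 ≤ a.1 ^ 2 + ‖a.2‖ ^ 2 := by positivity
    have h7 : 0 ≤ lor a ^ 2 := sq_nonneg _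
    have h8 : 0 ≤ lor v ^ 2 := sq_nonneg _
    nlinarith [mul_nonneg hK h7, mul_nonneg h8 h6, mul_nonneg h8 h7]
  have h5 : ‖w (boost v a + c)‖ ^ 2 ≤ K' * (1 + lor v ^ 2 + K) * ‖w a‖ ^ 2 := by
    calc ‖w (boost v a + c)‖ ^ 2 ≤ K' * ‖w (boost v a)‖ ^ 2 := h2 _
      _ ≤ K' * ((1 + lor v ^ 2 + K) * ‖w a‖ ^ 2) := mul_le_mul_of_nonneg_left h3 hK'
      _ = _ := by ring
  have h6 : ‖w (boost v a + c)‖ = √(‖w (boost v a + c)‖ ^ 2) :=
    (Real.sqrt_sq (norm_nonneg _)).symm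
  rw [h6]
  calc √(‖w (boost v a + c)‖ ^ 2) ≤ √(K' * (1 + lor v ^ 2 + K) * ‖w a‖ ^ 2) :=
        Real.sqrt_le_sqrt h5
    _ = √(K' * (1 + lor v ^ 2 + K)) * ‖w a‖ := by
        rw [Real.sqrt_mul' _ (sq_nonneg _), Real.sqrt_sq (norm_nonneg _)]

end Pool.Agent.ConeG
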