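import Pool.Agent.Work.MP_b0b133_an.G.C0
import Pool.Agent.Work.MP_b0b133_an.G.C1a
import Pool.Agent.Work.MP_b0b133_an.G.B3

/-!
# The Penrose change of variables
-/

set_option autoImplicit false
set_option linter.unusedSectionVars false
open MeasureTheory Complex
open scoped ENNReal ComplexConjugate Pointwise

namespace Pool.Agent.ConeG

variable {d : ℕ} [Fact (2 ≤ d)]


instance C1_nontrivial : Nontrivial (Rd d) := by
  have : Nonempty (Fin d) := ⟨⟨0, lt_of_lt_of_le two_pos (two_le d)⟩⟩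
  infer_instance

/-! ## Integrals with respect to `mM` -/

theorem C1_integral_mM0 {E : Type*} [NormedAddCommGroup E] [NormedSpace ℝ E] (g : Rs d → E) :
    ∫ a, g a ∂(mM0 d) = ∫ a, (‖w a‖ ^ (-((d : ℝ) + 1))) • g a := by
  have h : mM0 d = (volume : Measure (Rs d)).withDensity C0_dens := rfl
  rw [h, integral_withDensity_eq_integral_toReal_smul C0_measurable_dens
      (Filter.Eventually.of_forall fun a => ENNReal.ofReal_lt_top)]
  refine integral_congr_ae (Filter.Eventually.of_forall fun a => ?_)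
  simp only [C0_dens]
  rw [ENNReal.toReal_ofReal (Real.rpow_nonneg (norm_nonneg _) _)]

theorem C1_integral_mM {E : Type*} [NormedAddCommGroup E] [NormedSpace ℝ E] (g : Rs d → E) :
    ∫ a, g a ∂(mM d) =
      (((mM0 d) Set.univ).toReal)⁻¹ • ∫ a, (‖w a‖ ^ (-((d : ℝ) + 1))) • g a := by
  rw [← C1_integral_mM0, mM, integral_smul_measure, ENNReal.toReal_inv]

/-- the constant in `sphM_polar` -/
noncomputable def C1_k (d : ℕ) : ℝ := (∫ θ in (0 : ℝ)..Real.pi, Real.sin θ ^ (d - 1))⁻¹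

/-! ## Polar coordinates in `ℝ⁴`, in `ℝ × ℝ⁴` -/

theorem C1_measurable_smul : Measurable fun z : Sph d × Set.Ioi (0 : ℝ) =>
    ((z.2 : ℝ) • (z.1 : Rd d)) := by
  have : Continuous fun z : Sph d × Set.Ioi (0 : ℝ) => ((z.2 : ℝ) • (z.1 : Rd d)) := by fun_prop
  exact this.measurable

theorem C1_polar4 (g : Rd d → ℝ≥0∞) (hg : Measurable g) :
    ∫⁻ x, g x = ∫⁻ r in Set.Ioi (0 : ℝ), ENNReal.ofReal (r ^ (d - 1)) *
      ∫⁻ η : Sph d, g (r • (η : Rd d)) ∂(volume : Measure (Rd d)).toSphere := by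
  have hgm : Measurable fun z : Sph d × Set.Ioi (0 : ℝ) => g ((z.2 : ℝ) • (z.1 : Rd d)) :=
    hg.comp C1_measurable_smul
  have hmp := (volume : Measure (Rd d)).measurePreserving_homeomorphUnitSphereProd
  have h1 : ∫⁻ x, g x = ∫⁻ x : ({(0 : Rd d)}ᶜ : Set (Rd d)), g x ∂((volume : Measure (Rd d)).comap (↑)) := by
    rw [lintegral_subtype_comap (measurableSet_singleton _).compl, restrict_compl_singleton]
  have h2 : ∫⁻ x : ({(0 : Rd d)}ᶜ : Set (Rd d)), g x ∂((volume : Measure (Rd d)).comap (↑)) =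
      ∫⁻ z : Sph d × Set.Ioi (0 : ℝ), g ((z.2 : ℝ) • (z.1 : Rd d)) ∂
        ((volume : Measure (Rd d)).toSphere.prod
          (Measure.volumeIoiPow (Module.finrank ℝ (Rd d) - 1))) := by
    rw [← hmp.lintegral_comp hgm]
    refine lintegral_congr fun x => ?_
    congr 1
    have hx : ‖(x : Rd d)‖ ≠ 0 := norm_ne_zero_iff.2 x.2
    simp only [homeomorphUnitSphereProd_apply_snd_coe, homeomorphUnitSphereProd_apply_fst_coe]
    rw [smul_smul, mul_inv_cancel₀ hx, one_smul]
  have hd : Module.finrank ℝ (Rd d) - 1 = d - 1 := by simp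
  rw [h1, h2, hd, lintegral_prod_symm _ hgm.aemeasurable,
    Measure.volumeIoiPow, lintegral_withDensity_eq_lintegral_mul₀]
  · rw [← lintegral_subtype_comap measurableSet_Ioi fun r : ℝ => ENNReal.ofReal (r ^ (d - 1)) *
      ∫⁻ η : Sph d, g (r • (η : Rd d)) ∂(volume : Measure (Rd d)).toSphere]
    rfl
  · exact ((measurable_subtype_coe.pow_const (d - 1)).ennreal_ofReal).aemeasurable
  · exact (hgm.lintegral_prod_left').aemeasurable

/-- the half plane `{r > 0}` -/
def C1_H : Set (ℝ × ℝ) := {p | 0 < p.2}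

theorem C1_H_eq : C1_H = Set.univ ×ˢ Set.Ioi (0 : ℝ) := by
  ext p
  simp [C1_H]

theorem C1_meas_H : MeasurableSet C1_H := by
  rw [C1_H_eq]
  exact MeasurableSet.univ.prod measurableSet_Ioi

/-- polar coordinates on space-time -/
noncomputable def C1_psi (z : (ℝ × ℝ) × Sph d) : Rs d := (z.1.1, z.1.2 • (z.2 : Rd d))

theorem C1_continuous_psi : Continuous (C1_psi : (ℝ × ℝ) × Sph d → Rs d) := by
  unfold C1_psi
  fun_prop

theorem C1_polar5 (F : Rs d → ℝ≥0∞) (hF : Measurable F) :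
    ∫⁻ a, F a = ∫⁻ p in C1_H, ENNReal.ofReal (p.2 ^ (d - 1)) *
      ∫⁻ η : Sph d, F (C1_psi (p, η)) ∂(volume : Measure (Rd d)).toSphere := by
  have hFpsi : Measurable fun z : (ℝ × ℝ) × Sph d => F (C1_psi z) :=
    hF.comp C1_continuous_psi.measurable
  have hm : Measurable fun p : ℝ × ℝ => ENNReal.ofReal (p.2 ^ (d - 1)) *
      ∫⁻ η : Sph d, F (C1_psi (p, η)) ∂(volume : Measure (Rd d)).toSphere :=
    ((measurable_snd.pow_const (d - 1)).ennreal_ofReal).mul hFpsi.lintegral_prod_right'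
  rw [Measure.volume_eq_prod, lintegral_prod _ hF.aemeasurable, C1_H_eq,
    Measure.volume_eq_prod, ← Measure.prod_restrict, Measure.restrict_univ,
    lintegral_prod _ hm.aemeasurable]
  refine lintegral_congr fun t => ?_
  rw [C1_polar4 (fun x => F (t, x)) (hF.comp measurable_prodMk_left)]
  rfl

/-- the measure `r³ dt dr` on the half plane -/
noncomputable def C1_mu (d : ℕ) : Measure (ℝ × ℝ) :=
  ((volume : Measure (ℝ × ℝ)).restrict C1_H).withDensity fun p => ENNReal.ofReal (p.2 ^ (d - 1))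

instance C1_sfinite : SFinite (C1_mu d) := by
  unfold C1_mu
  infer_instance

theorem C1_mp : MeasurePreserving (C1_psi : (ℝ × ℝ) × Sph d → Rs d)
    ((C1_mu d).prod (volume : Measure (Rd d)).toSphere) (volume : Measure (Rs d)) := by
  refine ⟨C1_continuous_psi.measurable, ?_⟩
  refine Measure.ext_of_lintegral _ fun F hF => ?_
  have hFpsi : Measurable fun z : (ℝ × ℝ) × Sph d => F (C1_psi z) :=
    hF.comp C1_continuous_psi.measurable
  rw [lintegral_map hF C1_continuous_psi.measurable, C1_polar5 F hF,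
    lintegral_prod _ hFpsi.aemeasurable, C1_mu, lintegral_withDensity_eq_lintegral_mul₀]
  · rfl
  · exact ((measurable_snd.pow_const (d - 1)).ennreal_ofReal).aemeasurable
  · exact hFpsi.lintegral_prod_right'.aemeasurable

theorem C1_integral5 (F : Rs d → ℂ) (hF : Integrable F volume) :
    ∫ a, F a = ∫ p in C1_H, (p.2 ^ (d - 1)) •
      ∫ η : Sph d, F (C1_psi (p, η)) ∂(volume : Measure (Rd d)).toSphere := by
  have h1 : ∫ a, F a = ∫ z, F (C1_psi z) ∂((C1_mu d).prod (volume : Measure (Rd d)).toSphere) := by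
    rw [← integral_map C1_continuous_psi.measurable.aemeasurable, C1_mp.map_eq]
    rw [C1_mp.map_eq]
    exact hF.1
  have h2 : Integrable (fun z => F (C1_psi z)) ((C1_mu d).prod (volume : Measure (Rd d)).toSphere) :=
    (C1_mp.integrable_comp hF.1).2 hF
  rw [h1, integral_prod _ h2, C1_mu, integral_withDensity_eq_integral_toReal_smul]
  · refine setIntegral_congr_fun C1_meas_H fun p hp => ?_
    rw [ENNReal.toReal_ofReal (pow_nonneg (le_of_lt hp) (d - 1))]
  · exact (measurable_snd.pow_const (d - 1)).ennreal_ofReal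
  · exact Filter.Eventually.of_forall fun p => ENNReal.ofReal_lt_top

/-! ## The coordinates `X j` in the variables `(T, θ, η)` -/

theorem C1_cos_pos (q : ℝ × ℝ) (hq : q ∈ C1_A) :
    0 < Real.cos ((q.1 - q.2) / 2) ∧ 0 < Real.cos ((q.1 + q.2) / 2) := by
  obtain ⟨h1, h2⟩ := hq
  have h3 := le_abs_self q.1
  have h4 := neg_abs_le q.1
  constructor
  · exact Real.cos_pos_of_mem_Ioo ⟨by linarith, by linarith⟩
  · exact Real.cos_pos_of_mem_Ioo ⟨by linarith, by linarith⟩

theorem C1_psi_norm (p : ℝ × ℝ) (η : Sph d) : ‖(C1_psi (p, η)).2‖ ^ 2 = p.2 ^ 2 := by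
  have h : ‖(η : Rd d)‖ = 1 := norm_eq_of_mem_sphere η
  show ‖p.2 • (η : Rd d)‖ ^ 2 = p.2 ^ 2
  rw [norm_smul, h, mul_one, Real.norm_eq_abs, sq_abs]

/-- `Fin.cases (cos θ) (sin θ η)` -/
noncomputable def C1_pt (θ : ℝ) (η : Sph d) (j : Fin (d + 1)) : ℝ :=
  Fin.cases (Real.cos θ) (fun i : Fin d => Real.sin θ * (η : Rd d) i) j

theorem C1_w (q : ℝ × ℝ) (hq : q ∈ C1_A) (η : Sph d) : w (C1_psi (C1_phi q, η)) =
    cexp (q.1 * I) / ((Real.cos ((q.1 - q.2) / 2) * Real.cos ((q.1 + q.2) / 2) : ℝ) : ℂ) := by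
  obtain ⟨hA, hB⟩ := C1_cos_pos q hq
  have h1 : Real.cos q.1 = Real.cos ((q.1 - q.2) / 2) * Real.cos ((q.1 + q.2) / 2) -
      Real.sin ((q.1 - q.2) / 2) * Real.sin ((q.1 + q.2) / 2) := by
    rw [← Real.cos_add]
    congr 1
    ring
  have h2 : Real.sin q.1 = Real.sin ((q.1 - q.2) / 2) * Real.cos ((q.1 + q.2) / 2) +
      Real.cos ((q.1 - q.2) / 2) * Real.sin ((q.1 + q.2) / 2) := by
    rw [← Real.sin_add]
    congr 1
    ring
  rw [C0_w_eq, C1_psi_norm]
  have h3 : (C1_psi (C1_phi q, η)).1 =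
    (Real.tan ((q.1 + q.2) / 2) + Real.tan ((q.1 - q.2) / 2)) / 2 := rfl
  have h4 : (C1_phi q).2 =
    (Real.tan ((q.1 + q.2) / 2) - Real.tan ((q.1 - q.2) / 2)) / 2 := rfl
  rw [h3, h4, Complex.exp_mul_I, ← Complex.ofReal_cos, ← Complex.ofReal_sin, h1, h2]
  rw [Real.tan_eq_sin_div_cos, Real.tan_eq_sin_div_cos]
  set cA := Real.cos ((q.1 - q.2) / 2)
  set cB := Real.cos ((q.1 + q.2) / 2)
  set sA := Real.sin ((q.1 - q.2) / 2)
  set sB := Real.sin ((q.1 + q.2) / 2)
  have e1 : 1 + ((sB / cB - sA / cA) / 2) ^ 2 - ((sB / cB + sA / cA) / 2) ^ 2 =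
      (cA * cB - sA * sB) / (cA * cB) := by
    field_simp
    ring
  have e2 : 2 * ((sB / cB + sA / cA) / 2) = (sA * cB + cA * sB) / (cA * cB) := by
    field_simp
    ring
  rw [e1, e2]
  push_cast
  ring

theorem C1_num (q : ℝ × ℝ) (hq : q ∈ C1_A) (η : Sph d) (j : Fin (d + 1)) :
    C0_num j (C1_psi (C1_phi q, η)) =
      C1_pt q.2 η j / (Real.cos ((q.1 - q.2) / 2) * Real.cos ((q.1 + q.2) / 2)) := by
  obtain ⟨hA, hB⟩ := C1_cos_pos q hq
  have h1 : Real.cos q.2 = Real.cos ((q.1 + q.2) / 2) * Real.cos ((q.1 - q.2) / 2) +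
      Real.sin ((q.1 + q.2) / 2) * Real.sin ((q.1 - q.2) / 2) := by
    rw [← Real.cos_sub]
    congr 1
    ring
  have h2 : Real.sin q.2 = Real.sin ((q.1 + q.2) / 2) * Real.cos ((q.1 - q.2) / 2) -
      Real.cos ((q.1 + q.2) / 2) * Real.sin ((q.1 - q.2) / 2) := by
    rw [← Real.sin_sub]
    congr 1
    ring
  have h3 : (C1_psi (C1_phi q, η)).1 =
    (Real.tan ((q.1 + q.2) / 2) + Real.tan ((q.1 - q.2) / 2)) / 2 := rfl
  have h4 : (C1_phi q).2 =
    (Real.tan ((q.1 + q.2) / 2) - Real.tan ((q.1 - q.2) / 2)) / 2 := rfl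
  refine Fin.cases ?_ (fun i => ?_) j
  · show 1 - ‖(C1_psi (C1_phi q, η)).2‖ ^ 2 + (C1_psi (C1_phi q, η)).1 ^ 2 = Real.cos q.2 / _
    rw [C1_psi_norm, h3, h4, h1, Real.tan_eq_sin_div_cos, Real.tan_eq_sin_div_cos]
    set cA := Real.cos ((q.1 - q.2) / 2)
    set cB := Real.cos ((q.1 + q.2) / 2)
    set sA := Real.sin ((q.1 - q.2) / 2)
    set sB := Real.sin ((q.1 + q.2) / 2)
    field_simp
    ring
  · show 2 * ((C1_phi q).2 * (η : Rd d) i) = Real.sin q.2 * (η : Rd d) i / _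
    rw [h4, h2, Real.tan_eq_sin_div_cos, Real.tan_eq_sin_div_cos]
    set cA := Real.cos ((q.1 - q.2) / 2)
    set cB := Real.cos ((q.1 + q.2) / 2)
    set sA := Real.sin ((q.1 - q.2) / 2)
    set sB := Real.sin ((q.1 + q.2) / 2)
    field_simp

theorem C1_X (q : ℝ × ℝ) (hq : q ∈ C1_A) (η : Sph d) (j : Fin (d + 1)) :
    X j (C1_psi (C1_phi q, η)) = cexp (-(q.1 * I)) * (C1_pt q.2 η j : ℂ) := by
  obtain ⟨hA, hB⟩ := C1_cos_pos q hq
  have hne : ((Real.cos ((q.1 - q.2) / 2) * Real.cos ((q.1 + q.2) / 2) : ℝ) : ℂ) ≠ 0 :=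
    Complex.ofReal_ne_zero.2 (mul_pos hA hB).ne'
  rw [C0_X_eq, C1_w q hq η, C1_num q hq η, Complex.ofReal_div, Complex.exp_neg]
  have he := Complex.exp_ne_zero (q.1 * I)
  field_simp

/-! ## The sphere `S³` -/

theorem C1_sig3_ne : (volume : Measure (Rd d)).toSphere Set.univ ≠ 0 :=
  (Measure.measure_univ_ne_zero).2 (Measure.toSphere_ne_zero _)

theorem C1_sig3_top : (volume : Measure (Rd d)).toSphere Set.univ ≠ ⊤ := measure_ne_top _ _

instance C1_prob3 : IsProbabilityMeasure (sphM d) := by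
  refine ⟨?_⟩
  rw [sphM, Measure.smul_apply, smul_eq_mul]
  exact ENNReal.inv_mul_cancel C1_sig3_ne C1_sig3_top

instance C1_prob4 : IsProbabilityMeasure (sphM (d + 1)) := by
  refine ⟨?_⟩
  rw [sphM, Measure.smul_apply, smul_eq_mul]
  refine ENNReal.inv_mul_cancel ?_ (measure_ne_top _ _)
  exact (Measure.measure_univ_ne_zero).2 (Measure.toSphere_ne_zero _)

theorem C1_sig3_eq : (volume : Measure (Rd d)).toSphere =
    (volume : Measure (Rd d)).toSphere Set.univ • (sphM d) := by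
  rw [sphM, smul_smul, ENNReal.mul_inv_cancel C1_sig3_ne C1_sig3_top, one_smul]

theorem C1_int_sig3 {E : Type*} [NormedAddCommGroup E] [NormedSpace ℝ E] (g : Sph d → E) :
    ∫ η, g η ∂(volume : Measure (Rd d)).toSphere =
      ((volume : Measure (Rd d)).toSphere Set.univ).toReal • ∫ η, g η ∂(sphM d) := by
  conv_lhs => rw [C1_sig3_eq]
  rw [integral_smul_measure]

theorem C1_neg_mp : MeasurePreserving (fun η : Sph d => -η) (sphM d) (sphM d) := by
  have hm : Measurable fun η : Sph d => -η := continuous_neg.measurable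
  refine ⟨hm, ?_⟩
  rw [sphM, Measure.map_smul]
  congr 1
  refine Measure.ext fun s hs => ?_
  rw [Measure.map_apply hm hs, Measure.toSphere_apply' _ (hm hs), Measure.toSphere_apply' _ hs]
  congr 1
  have h : Set.Ioo (0 : ℝ) 1 • ((↑) '' ((fun η : Sph d => -η) ⁻¹' s) : Set (Rd d)) =
      Neg.neg ⁻¹' (Set.Ioo (0 : ℝ) 1 • ((↑) '' s : Set (Rd d))) := by
    ext x
    simp only [Set.mem_smul, Set.mem_image, Set.mem_preimage]
    constructor
    · rintro ⟨r, hr, y, ⟨η, hη, rfl⟩, rfl⟩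
      exact ⟨r, hr, -(η : Rd d), ⟨-η, hη, rfl⟩, by simp⟩
    · rintro ⟨r, hr, y, ⟨η, hη, rfl⟩, hx⟩
      refine ⟨r, hr, -(η : Rd d), ⟨-η, by simpa using hη, rfl⟩, ?_⟩
      rw [smul_neg, hx, neg_neg]
  rw [h, Measure.measure_preimage_neg]

/-- the spherical mean -/
noncomputable def C1_G (h : (Fin (d + 1) → ℂ) → ℂ) (T θ : ℝ) : ℂ :=
  ∫ η : Sph d, h (fun j => cexp (-(T * I)) * (C1_pt θ η j : ℂ)) ∂(sphM d)

theorem C1_G_symm (h : (Fin (d + 1) → ℂ) → ℂ) (T θ : ℝ) :
    C1_G h (T + Real.pi) (Real.pi - θ) = C1_G h T θ := by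
  unfold C1_G
  rw [← C1_neg_mp.integral_comp (Homeomorph.neg (Sph d)).measurableEmbedding]
  refine integral_congr_ae (Filter.Eventually.of_forall fun η => ?_)
  simp only
  congr 1
  funext j
  have h1 : cexp (-(((T + Real.pi : ℝ) : ℂ) * I)) = -cexp (-(T * I)) := by
    push_cast
    rw [add_mul, neg_add, Complex.exp_add, Complex.exp_neg (Real.pi * I), Complex.exp_pi_mul_I]
    norm_num
  rw [h1]
  have h2 : C1_pt (Real.pi - θ) (-η) j = -C1_pt θ η j := by
    refine Fin.cases ?_ (fun i => ?_) j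
    · show Real.cos (Real.pi - θ) = -Real.cos θ
      exact Real.cos_pi_sub θ
    · show Real.sin (Real.pi - θ) * ((-η : Sph d) : Rd d) i = -(Real.sin θ * (η : Rd d) i)
      rw [Real.sin_pi_sub]
      simp
  rw [h2]
  push_cast
  ring

theorem C1_G_periodic (h : (Fin (d + 1) → ℂ) → ℂ) (T θ : ℝ) :
    C1_G h (T + 2 * Real.pi) θ = C1_G h T θ := by
  have h1 := C1_G_symm h (T + Real.pi) (Real.pi - θ)
  rw [C1_G_symm h T θ] at h1
  have h2 : T + Real.pi + Real.pi = T + 2 * Real.pi := by ring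
  rw [h2, sub_sub_cancel] at h1
  exact h1

theorem C1_continuous_G (h : (Fin (d + 1) → ℂ) → ℂ) (hc : Continuous h) :
    Continuous fun q : ℝ × ℝ => C1_G h q.1 q.2 := by
  unfold C1_G
  have hcont : Continuous (Function.uncurry fun (q : ℝ × ℝ) (η : Sph d) =>
      h (fun j => cexp (-(q.1 * I)) * (C1_pt q.2 η j : ℂ))) := by
    refine hc.comp (continuous_pi fun j => ?_)
    have hpt : Continuous fun z : (ℝ × ℝ) × Sph d => C1_pt z.1.2 z.2 j := by
      refine Fin.cases ?_ (fun i => ?_) j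
      · show Continuous fun z : (ℝ × ℝ) × Sph d => Real.cos z.1.2
        fun_prop
      · show Continuous fun z : (ℝ × ℝ) × Sph d => Real.sin z.1.2 * (z.2 : Rd d) i
        fun_prop
    show Continuous fun z : (ℝ × ℝ) × Sph d => cexp (-((z.1.1 : ℂ) * I)) * (C1_pt z.1.2 z.2 j : ℂ)
    fun_prop
  have h := continuous_parametric_integral_of_continuous (μ := (sphM d)) hcont isCompact_univ
  simpa using h

/-! ## The two halves of `S¹ × S⁴` -/

theorem C1_isOpen_A : IsOpen C1_A := by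
  have h1 : IsOpen {q : ℝ × ℝ | 0 < q.2} := isOpen_lt continuous_const continuous_snd
  have h2 : IsOpen {q : ℝ × ℝ | |q.1| + q.2 < Real.pi} := isOpen_lt (by fun_prop) continuous_const
  exact h1.inter h2

/-- the integral over one slice of `C1_A` -/
noncomputable def C1_a (K : ℝ → ℝ → ℂ) (T : ℝ) : ℂ := ∫ θ in (0 : ℝ)..(Real.pi - |T|), K T θ

theorem C1_continuous_a (K : ℝ → ℝ → ℂ) (hK : Continuous fun q : ℝ × ℝ => K q.1 q.2) :
    Continuous (C1_a K) := by
  unfold C1_a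
  exact intervalIntegral.continuous_parametric_intervalIntegral_of_continuous
    (f := K) hK (by fun_prop)

theorem C1_int_A (K : ℝ → ℝ → ℂ) (hK : Continuous fun q : ℝ × ℝ => K q.1 q.2) :
    ∫ q in C1_A, K q.1 q.2 = ∫ T in (-Real.pi)..Real.pi, C1_a K T := by
  have hpi := Real.pi_pos
  have hA : MeasurableSet C1_A := C1_isOpen_A.measurableSet
  have hint : IntegrableOn (fun q : ℝ × ℝ => K q.1 q.2) C1_A := by
    have hcomp : IsCompact (Set.Icc (-Real.pi) Real.pi ×ˢ Set.Icc 0 Real.pi) :=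
      isCompact_Icc.prod isCompact_Icc
    refine (hK.continuousOn.integrableOn_compact hcomp).mono_set ?_
    rintro ⟨T, θ⟩ ⟨h1, h2⟩
    simp only at h1 h2
    have h3 := le_abs_self T
    have h4 := neg_abs_le T
    exact ⟨⟨by linarith, by linarith⟩, ⟨h1.le, by linarith [abs_nonneg T]⟩⟩
  rw [← integral_indicator hA, Measure.volume_eq_prod, integral_prod]
  · have h : (fun T : ℝ => ∫ θ : ℝ, C1_A.indicator (fun q : ℝ × ℝ => K q.1 q.2) (T, θ)) =
        (Set.Ioo (-Real.pi) Real.pi).indicator (C1_a K) := by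
      funext T
      by_cases hT : T ∈ Set.Ioo (-Real.pi) Real.pi
      · rw [Set.indicator_of_mem hT, C1_a]
        have hT' : |T| < Real.pi := abs_lt.2 hT
        rw [intervalIntegral.integral_of_le (by linarith), integral_Ioc_eq_integral_Ioo,
          ← integral_indicator measurableSet_Ioo]
        congr 1
        funext θ
        by_cases hθ : θ ∈ Set.Ioo 0 (Real.pi - |T|)
        · rw [Set.indicator_of_mem hθ, Set.indicator_of_mem]
          exact ⟨hθ.1, by simp only; linarith [hθ.2]⟩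
        · rw [Set.indicator_of_notMem hθ, Set.indicator_of_notMem]
          rintro ⟨h1, h2⟩
          exact hθ ⟨h1, by simp only at h2; linarith⟩
      · rw [Set.indicator_of_notMem hT]
        have hz : ∀ θ : ℝ, C1_A.indicator (fun q : ℝ × ℝ => K q.1 q.2) (T, θ) = 0 := fun θ => by
          refine Set.indicator_of_notMem ?_ _
          rintro ⟨h1, h2⟩
          simp only at h1 h2
          exact hT (abs_lt.1 (by linarith))
        simp [hz]
    rw [h, integral_indicator measurableSet_Ioo, intervalIntegral.integral_of_le (by linarith),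
      integral_Ioc_eq_integral_Ioo]
  · rw [← Measure.volume_eq_prod]
    exact (integrable_indicator_iff hA).2 hint

theorem C1_double (K : ℝ → ℝ → ℂ) (hK : Continuous fun q : ℝ × ℝ => K q.1 q.2)
    (hs : ∀ T θ, K (T + Real.pi) (Real.pi - θ) = K T θ) :
    ∫ T in (-Real.pi)..Real.pi, ∫ θ in (0 : ℝ)..Real.pi, K T θ = 2 * ∫ q in C1_A, K q.1 q.2 := by
  have hpi := Real.pi_pos
  have hca := C1_continuous_a K hK
  have hKT : ∀ T, Continuous (K T) := fun T => hK.comp (by fun_prop : Continuous fun θ => (T, θ))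
  have h1 : ∀ T ∈ Set.Icc 0 Real.pi, ∫ θ in (0 : ℝ)..Real.pi, K T θ =
      C1_a K T + C1_a K (T - Real.pi) := by
    intro T hT
    have e1 : ∫ θ in (0 : ℝ)..Real.pi, K T θ = (∫ θ in (0 : ℝ)..(Real.pi - T), K T θ) +
        ∫ θ in (Real.pi - T)..Real.pi, K T θ :=
      (intervalIntegral.integral_add_adjacent_intervals
        ((hKT T).intervalIntegrable _ _) ((hKT T).intervalIntegrable _ _)).symm
    have e2 : ∫ θ in (Real.pi - T)..Real.pi, K T θ = ∫ θ in (0 : ℝ)..T, K T (Real.pi - θ) := by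
      rw [intervalIntegral.integral_comp_sub_left (fun θ => K T θ), sub_zero]
    have e3 : ∀ θ, K T (Real.pi - θ) = K (T - Real.pi) θ := fun θ => by
      have := hs (T - Real.pi) θ
      rwa [sub_add_cancel] at this
    rw [e1, e2]
    simp only [e3, C1_a]
    rw [abs_of_nonneg hT.1, abs_of_nonpos (by linarith [hT.2] : T - Real.pi ≤ 0)]
    have e4 : Real.pi - -(T - Real.pi) = T := by ring
    rw [e4]
  have h2 : ∀ T ∈ Set.Icc (-Real.pi) 0, ∫ θ in (0 : ℝ)..Real.pi, K T θ =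
      C1_a K T + C1_a K (T + Real.pi) := by
    intro T hT
    have e1 : ∫ θ in (0 : ℝ)..Real.pi, K T θ = (∫ θ in (0 : ℝ)..(Real.pi - -T), K T θ) +
        ∫ θ in (Real.pi - -T)..Real.pi, K T θ :=
      (intervalIntegral.integral_add_adjacent_intervals
        ((hKT T).intervalIntegrable _ _) ((hKT T).intervalIntegrable _ _)).symm
    have e2 : ∫ θ in (Real.pi - -T)..Real.pi, K T θ = ∫ θ in (0 : ℝ)..-T, K T (Real.pi - θ) := by
      rw [intervalIntegral.integral_comp_sub_left (fun θ => K T θ), sub_zero]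
    have e3 : ∀ θ, K T (Real.pi - θ) = K (T + Real.pi) θ := fun θ => by
      have := hs T (Real.pi - θ)
      rw [sub_sub_cancel] at this
      exact this.symm
    rw [e1, e2]
    simp only [e3, C1_a]
    rw [abs_of_nonpos hT.2, abs_of_nonneg (by linarith [hT.1] : 0 ≤ T + Real.pi)]
    have e4 : Real.pi - (T + Real.pi) = -T := by ring
    rw [e4]
  have hcm : Continuous fun T => C1_a K (T - Real.pi) := hca.comp (by fun_prop)
  have hcp : Continuous fun T => C1_a K (T + Real.pi) := hca.comp (by fun_prop)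
  have hcK : Continuous fun T => ∫ θ in (0 : ℝ)..Real.pi, K T θ :=
    intervalIntegral.continuous_parametric_intervalIntegral_of_continuous
      (f := K) hK continuous_const
  have h3 : ∫ T in (0 : ℝ)..Real.pi, ∫ θ in (0 : ℝ)..Real.pi, K T θ =
      (∫ T in (0 : ℝ)..Real.pi, C1_a K T) + ∫ T in (-Real.pi)..0, C1_a K T := by
    rw [intervalIntegral.integral_congr (g := fun T => C1_a K T + C1_a K (T - Real.pi))
      (fun T hT => h1 T (by rwa [Set.uIcc_of_le hpi.le] at hT)),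
      intervalIntegral.integral_add (hca.intervalIntegrable _ _)
        (hcm.intervalIntegrable _ _),
      intervalIntegral.integral_comp_sub_right (fun T => C1_a K T)]
    simp
  have h4 : ∫ T in (-Real.pi)..0, ∫ θ in (0 : ℝ)..Real.pi, K T θ =
      (∫ T in (-Real.pi)..0, C1_a K T) + ∫ T in (0 : ℝ)..Real.pi, C1_a K T := by
    rw [intervalIntegral.integral_congr (g := fun T => C1_a K T + C1_a K (T + Real.pi))
      (fun T hT => h2 T (by rwa [Set.uIcc_of_le (by linarith)] at hT)),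
      intervalIntegral.integral_add (hca.intervalIntegrable _ _)
        (hcp.intervalIntegrable _ _),
      intervalIntegral.integral_comp_add_right (fun T => C1_a K T)]
    simp
  rw [C1_int_A K hK, ← intervalIntegral.integral_add_adjacent_intervals
    (hcK.intervalIntegrable (-Real.pi) 0) (hcK.intervalIntegrable 0 Real.pi), h3, h4,
    ← intervalIntegral.integral_add_adjacent_intervals
    (hca.intervalIntegrable (-Real.pi) 0) (hca.intervalIntegrable 0 Real.pi)]
  ring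

/-! ## Assembly -/

theorem C1_integrable_w : Integrable (fun a : Rs d => ‖w a‖ ^ (-((d : ℝ) + 1))) := by
  refine ⟨C0_continuous_dens.aestronglyMeasurable, ?_⟩
  rw [hasFiniteIntegral_iff_ofReal
    (Filter.Eventually.of_forall fun a => Real.rpow_nonneg (norm_nonneg _) _)]
  have h : (mM0 d) Set.univ = ∫⁻ a : Rs d, ENNReal.ofReal (‖w a‖ ^ (-((d : ℝ) + 1))) := by
    rw [mM0, withDensity_apply _ MeasurableSet.univ, Measure.restrict_univ]
  rw [← h]
  exact lt_top_iff_ne_top.2 mM0_univ.2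

theorem C1_continuous_hX (h : (Fin (d + 1) → ℂ) → ℂ) (hc : Continuous h) :
    Continuous fun a : Rs d => h (fun j => X j a) :=
  hc.comp (continuous_pi fun j => C0_continuous_X j)

theorem C1_bdd (h : (Fin (d + 1) → ℂ) → ℂ) (hc : Continuous h) :
    ∃ C : ℝ, ∀ a : Rs d, ‖h (fun j => X j a)‖ ≤ C := by
  obtain ⟨C, hC⟩ := (isCompact_closedBall (0 : Fin (d + 1) → ℂ) 1).exists_bound_of_continuousOn
    hc.continuousOn
  refine ⟨C, fun a => hC _ ?_⟩
  rw [mem_closedBall_zero_iff, pi_norm_le_iff_of_nonneg zero_le_one]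
  exact fun j => C0_norm_X_le j a

theorem C1_integrable_F (h : (Fin (d + 1) → ℂ) → ℂ) (hc : Continuous h) :
    Integrable (fun a : Rs d => (‖w a‖ ^ (-((d : ℝ) + 1))) • h (fun j => X j a)) := by
  obtain ⟨C, hC⟩ := C1_bdd h hc
  refine (C1_integrable_w.mul_const C).mono' ?_ ?_
  · exact (C0_continuous_dens.smul (C1_continuous_hX h hc)).aestronglyMeasurable
  · refine Filter.Eventually.of_forall fun a => ?_
    rw [norm_smul, Real.norm_eq_abs, abs_of_nonneg (Real.rpow_nonneg (norm_nonneg _) _)]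
    exact mul_le_mul_of_nonneg_left (hC a) (Real.rpow_nonneg (norm_nonneg _) _)

theorem C1_w_psi (p : ℝ × ℝ) (hp : p ∈ C1_H) (η : Sph d) :
    ‖w (C1_psi (p, η))‖ ^ (-((d : ℝ) + 1)) =
      ((1 + (p.1 - p.2) ^ 2) * (1 + (p.1 + p.2) ^ 2)) ^ (-((d : ℝ) + 1) / 2) := by
  have h0 : ‖(C1_psi (p, η)).2‖ = p.2 := by
    have h := C1_psi_norm p η
    have hp' : 0 < p.2 := hp
    nlinarith [norm_nonneg (C1_psi (p, η)).2]
  have h1 : ‖w (C1_psi (p, η))‖ ^ (-((d : ℝ) + 1)) = (‖w (C1_psi (p, η))‖ ^ 2) ^ (-((d : ℝ) + 1) / 2) := by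
    rw [← Real.rpow_natCast, ← Real.rpow_mul (norm_nonneg _)]
    congr 1
    push_cast
    ring
  rw [h1, norm_sq_w, h0]
  rfl

theorem C1_lhs (h : (Fin (d + 1) → ℂ) → ℂ) (hc : Continuous h) :
    ∫ a, h (fun j => X j a) ∂(mM d) =
      ((((mM0 d) Set.univ).toReal)⁻¹ * ((volume : Measure (Rd d)).toSphere Set.univ).toReal / 2 ^ (d + 1)) •
        ∫ q in C1_A, (Real.sin q.2 ^ (d - 1)) • C1_G h q.1 q.2 := by
  have hA : MeasurableSet C1_A := C1_isOpen_A.measurableSet
  rw [C1_integral_mM, C1_integral5 _ (C1_integrable_F h hc)]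
  have h1 : ∫ p in C1_H, (p.2 ^ (d - 1)) • ∫ η : Sph d, (‖w (C1_psi (p, η))‖ ^ (-((d : ℝ) + 1))) •
      h (fun j => X j (C1_psi (p, η))) ∂(volume : Measure (Rd d)).toSphere =
      ∫ p in {p : ℝ × ℝ | 0 < p.2},
        (p.2 ^ (d - 1) * ((1 + (p.1 - p.2) ^ 2) * (1 + (p.1 + p.2) ^ 2)) ^ (-((d : ℝ) + 1) / 2)) •
        ∫ η : Sph d, h (fun j => X j (C1_psi (p, η))) ∂(volume : Measure (Rd d)).toSphere := by
    refine setIntegral_congr_fun C1_meas_H fun p hp => ?_
    simp only [C1_w_psi p hp]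
    rw [integral_smul, smul_smul]
  rw [h1, C1a]
  have h2 : ∫ q in C1_A, (Real.sin q.2 ^ (d - 1) / 2 ^ (d + 1)) •
      ∫ η : Sph d, h (fun j => X j (C1_psi (C1_phi q, η))) ∂(volume : Measure (Rd d)).toSphere =
      (((volume : Measure (Rd d)).toSphere Set.univ).toReal / 2 ^ (d + 1)) •
        ∫ q in C1_A, (Real.sin q.2 ^ (d - 1)) • C1_G h q.1 q.2 := by
    rw [← integral_smul]
    refine setIntegral_congr_fun hA fun q hq => ?_
    simp only [C1_X q hq]
    rw [C1_int_sig3, C1_G, smul_smul, smul_smul]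
    congr 1
    ring
  rw [h2, smul_smul]
  congr 1
  ring

theorem C1_rhs (h : (Fin (d + 1) → ℂ) → ℂ) (hc : Continuous h) :
    ∫ T in (-Real.pi)..Real.pi, ∫ ω : Sph (d + 1),
      h (fun j => cexp (-(T * I)) * (((ω : Rd (d + 1)) j : ℝ) : ℂ)) ∂(sphM (d + 1)) =
      (2 * C1_k d) • ∫ q in C1_A, (Real.sin q.2 ^ (d - 1)) • C1_G h q.1 q.2 := by
  have h1 : ∀ T : ℝ, ∫ ω : Sph (d + 1),
      h (fun j => cexp (-(T * I)) * (((ω : Rd (d + 1)) j : ℝ) : ℂ)) ∂(sphM (d + 1)) =
      (C1_k d) • ∫ θ in (0 : ℝ)..Real.pi, (Real.sin θ ^ (d - 1)) • C1_G h T θ := fun T => by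
    have hcT : Continuous fun y : Fin (d + 1) → ℝ => h (fun j => cexp (-(T * I)) * ((y j : ℝ) : ℂ)) :=
      hc.comp (by fun_prop)
    exact sphM_polar (fun y => h (fun j => cexp (-(T * I)) * ((y j : ℝ) : ℂ))) hcT
  have hK : Continuous fun q : ℝ × ℝ => (Real.sin q.2 ^ (d - 1)) • C1_G h q.1 q.2 :=
    (by fun_prop : Continuous fun q : ℝ × ℝ => Real.sin q.2 ^ (d - 1)).smul (C1_continuous_G h hc)
  simp only [h1]
  rw [intervalIntegral.integral_smul, C1_double (fun T θ => (Real.sin θ ^ (d - 1)) • C1_G h T θ) hK]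
  · rw [Complex.real_smul, Complex.real_smul]
    push_cast
    ring
  · intro T θ
    rw [C1_G_symm, Real.sin_pi_sub]

/-- C1 -/
theorem integral_comp_X (h : (Fin (d + 1) → ℂ) → ℂ) (hc : Continuous h) :
    ∫ a, h (fun j => X j a) ∂(mM d) = ((2 * Real.pi)⁻¹ : ℝ) • ∫ T in (-Real.pi)..Real.pi,
      ∫ ω : Sph (d + 1), h (fun j => cexp (-(T * I)) * (((ω : Rd (d + 1)) j : ℝ) : ℂ)) ∂(sphM (d + 1)) := by
  have hprob := mM_prob (d := d)
  have hpi := Real.pi_pos
  have h1 := C1_lhs (d := d) (fun _ => (1 : ℂ)) continuous_const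
  have h2 := C1_rhs (d := d) (fun _ => (1 : ℂ)) continuous_const
  rw [C1_lhs h hc, C1_rhs h hc, smul_smul]
  congr 1
  set c := (((mM0 d) Set.univ).toReal)⁻¹ * ((volume : Measure (Rd d)).toSphere Set.univ).toReal / 2 ^ (d + 1)
  set J := ∫ q in C1_A, (Real.sin q.2 ^ (d - 1)) • C1_G (d := d) (fun _ => (1 : ℂ)) q.1 q.2
  have e1 : c • J = 1 := by
    rw [← h1]
    simp
  have e2 : (2 * C1_k d) • J = 2 * Real.pi := by
    rw [← h2]
    simp
    ring
  have hJ : J ≠ 0 := by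
    intro h0
    rw [h0, smul_zero] at e1
    exact zero_ne_one e1
  have e3 : (c : ℂ) * J = 1 := by
    rw [← Complex.real_smul]
    exact e1
  have e4 : ((2 * C1_k d : ℝ) : ℂ) * J = 2 * Real.pi := by
    rw [← Complex.real_smul]
    exact e2
  have hpic : (Real.pi : ℂ) ≠ 0 := Complex.ofReal_ne_zero.2 hpi.ne'
  have e5 : (c : ℂ) = (((2 * Real.pi)⁻¹ * (2 * C1_k d) : ℝ) : ℂ) := by
    apply mul_right_cancel₀ hJ
    rw [e3]
    push_cast at e4 ⊢
    rw [mul_assoc, e4]
    field_simp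
  exact Complex.ofReal_injective e5

end Pool.Agent.ConeG
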