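import Mathlib

/-!
# Definitions for the sharp extension inequality on the half-cone in dimension `d`

`Rs d = ℝ × ℝᵈ` is space-time, `a = (t, x)`; the half-cone is parametrised by `ξ ∈ ℝᵈ`, its Lorentz
invariant measure is `dξ / |ξ|`.
-/

set_option autoImplicit false
open MeasureTheory Complex
open scoped ENNReal ComplexConjugate

namespace Pool.Agent.ConeG

abbrev Rd (d : ℕ) := EuclideanSpace ℝ (Fin d)

/-- space-time, points `(t, x)` -/
abbrev Rs (d : ℕ) := ℝ × Rd d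

/-- `ν = (d - 1) / 2` -/
noncomputable def nu (d : ℕ) : ℝ := ((d : ℝ) - 1) / 2

/-- the exponent `p = 2 (d + 1) / (d - 1)` -/
noncomputable def pe (d : ℕ) : ℝ := 2 * ((d : ℝ) + 1) / ((d : ℝ) - 1)

/-- the dual exponent `p' = 2 (d + 1) / (d + 3)` -/
noncomputable def qe (d : ℕ) : ℝ := 2 * ((d : ℝ) + 1) / ((d : ℝ) + 3)

/-- the constant of the extension of exponentials: `(4 π)^ν Γ(ν)` -/
noncomputable def kap (d : ℕ) : ℝ := (4 * Real.pi) ^ nu d * Real.Gamma (nu d)

theorem two_le (d : ℕ) [h : Fact (2 ≤ d)] : 2 ≤ d := h.out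

theorem two_le_real (d : ℕ) [h : Fact (2 ≤ d)] : (2 : ℝ) ≤ d := by exact_mod_cast h.out

theorem nu_pos (d : ℕ) [Fact (2 ≤ d)] : 0 < nu d := by
  have := two_le_real d
  unfold nu
  linarith

theorem nu_ge (d : ℕ) [Fact (2 ≤ d)] : 1 / 2 ≤ nu d := by
  have := two_le_real d
  unfold nu
  linarith

theorem kap_pos (d : ℕ) [Fact (2 ≤ d)] : 0 < kap d :=
  mul_pos (Real.rpow_pos_of_pos (by positivity) _) (Real.Gamma_pos_of_pos (nu_pos d))

theorem pe_gt (d : ℕ) [Fact (2 ≤ d)] : 2 < pe d := by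
  have := two_le_real d
  unfold pe
  rw [lt_div_iff₀ (by linarith)]
  linarith

theorem qe_gt (d : ℕ) : 1 / 2 < qe d := by
  have : (0 : ℝ) ≤ d := Nat.cast_nonneg d
  unfold qe
  rw [lt_div_iff₀ (by linarith)]
  linarith

theorem qe_ge (d : ℕ) [Fact (2 ≤ d)] : 1 ≤ qe d := by
  have := two_le_real d
  unfold qe
  rw [le_div_iff₀ (by linarith)]
  linarith

theorem qe_lt (d : ℕ) : qe d < 2 := by
  have : (0 : ℝ) ≤ d := Nat.cast_nonneg d
  unfold qe
  rw [div_lt_iff₀ (by linarith)]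
  linarith

/-- `1/p + 1/p' = 1` -/
theorem pe_qe (d : ℕ) [Fact (2 ≤ d)] : (pe d)⁻¹ + (qe d)⁻¹ = 1 := by
  have := two_le_real d
  unfold qe pe
  have h1 : (d : ℝ) - 1 ≠ 0 := by linarith
  have h2 : (d : ℝ) + 1 ≠ 0 := by linarith
  have h3 : (d : ℝ) + 3 ≠ 0 := by linarith
  rw [inv_div, inv_div]
  field_simp
  ring

/-- the measure `dξ / |ξ|` -/
noncomputable def sig (d : ℕ) : Measure (Rd d) :=
  volume.withDensity fun ξ => ENNReal.ofReal (‖ξ‖⁻¹)

variable {d : ℕ}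

/-- `k ↦ a · k` for `k = (|ξ|, ξ)` on the half-cone (Euclidean pairing `t |ξ| + x · ξ`) -/
noncomputable def pair (a : Rs d) (ξ : Rd d) : ℝ := a.1 * ‖ξ‖ + inner ℝ a.2 ξ

/-- the extension operator -/
noncomputable def coneExt (f : Rd d → ℂ) (a : Rs d) : ℂ :=
  ∫ ξ, cexp (-(I * (pair a ξ : ℂ))) * f ξ ∂(sig d)

/-- exponentials `exp (i c · k - v · k)`, to be used for `v` in the open forward cone -/
noncomputable def expo (c v : Rs d) (ξ : Rd d) : ℂ :=
  cexp (I * (pair c ξ : ℂ) - (pair v ξ : ℂ))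

/-- the open forward cone -/
def Fwd : Set (Rs d) := {v | ‖v.2‖ < v.1}

/-- finite linear combinations of exponentials -/
noncomputable def ExpSpan (d : ℕ) : Submodule ℂ (Rd d → ℂ) :=
  Submodule.span ℂ {f | ∃ c v : Rs d, v ∈ Fwd ∧ f = expo c v}

/-- `∑ (u_j - i v_j)² - (u_0 - i v_0)²` -/
noncomputable def qf (u v : Rs d) : ℂ :=
  ((‖u.2‖ ^ 2 - ‖v.2‖ ^ 2 - u.1 ^ 2 + v.1 ^ 2 : ℝ) : ℂ)
    + 2 * I * ((u.1 * v.1 - inner ℝ u.2 v.2 : ℝ) : ℂ)

/-- `w (t, x) = (1 + i t)² + |x|²` -/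
noncomputable def w (a : Rs d) : ℂ := qf a (1, 0)

/-- the coordinates of the conformal compactification: `X = e^{-iT} ω`, `ω ∈ Sᵈ` -/
noncomputable def X (j : Fin (d + 1)) (a : Rs d) : ℂ :=
  Fin.cases ((1 - ‖a.2‖ ^ 2 + a.1 ^ 2 : ℝ) / w a) (fun i : Fin d => 2 * (a.2 i : ℂ) / w a) j

/-- the measure `|w|^{-(d+1)} dt dx`, not normalised -/
noncomputable def mM0 (d : ℕ) : Measure (Rs d) :=
  volume.withDensity fun a => ENNReal.ofReal (‖w a‖ ^ (-((d : ℝ) + 1)))

/-- the invariant probability measure of the compactification, in the Minkowski chart -/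
noncomputable def mM (d : ℕ) : Measure (Rs d) := (mM0 d Set.univ)⁻¹ • mM0 d

/-- the transplant of a function on space-time to the compactification -/
noncomputable def toM (u : Rs d → ℂ) (a : Rs d) : ℂ := (w a) ^ (nu d : ℂ) * u a

/-- `c_l = ν / (l + ν)`, `ν = (d - 1) / 2` -/
noncomputable def cw (d l : ℕ) : ℝ := nu d / (l + nu d)

/-- homogeneous harmonic polynomials of degree `l` in `d + 1` variables, complex coefficients -/
noncomputable def Harm (d l : ℕ) : Submodule ℂ (MvPolynomial (Fin (d + 1)) ℂ) where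
  carrier := {P | P.IsHomogeneous l ∧ ∑ j, MvPolynomial.pderiv j (MvPolynomial.pderiv j P) = 0}
  add_mem' := by
    rintro P Q ⟨h1, h2⟩ ⟨h3, h4⟩
    refine ⟨h1.add h3, ?_⟩
    simp only [map_add, Finset.sum_add_distrib, h2, h4, add_zero]
  zero_mem' := ⟨MvPolynomial.isHomogeneous_zero _ _ _, by simp⟩
  smul_mem' := by
    rintro c P ⟨h1, h2⟩
    refine ⟨?_, ?_⟩
    · rw [MvPolynomial.smul_eq_C_mul]
      exact h1.C_mul c
    · have : ∀ j : Fin (d + 1), MvPolynomial.pderiv j (MvPolynomial.pderiv j (c • P)) =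
          c • MvPolynomial.pderiv j (MvPolynomial.pderiv j P) := fun j => by
        rw [Derivation.map_smul, Derivation.map_smul]
      rw [Finset.sum_congr rfl fun j _ => this j, ← Finset.smul_sum, h2, smul_zero]

/-- evaluation of a polynomial at the point `X a` -/
noncomputable def evX (P : MvPolynomial (Fin (d + 1)) ℂ) (a : Rs d) : ℂ :=
  MvPolynomial.eval (fun j => X j a) P

/-- the unit sphere of `ℝⁿ` -/
abbrev Sph (n : ℕ) := Metric.sphere (0 : Rd n) 1

/-- the rotation invariant probability measure on the sphere -/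
noncomputable def sphM (n : ℕ) : Measure (Sph n) :=
  ((volume : Measure (Rd n)).toSphere Set.univ)⁻¹ • (volume : Measure (Rd n)).toSphere

/-- `t² - |x|²` -/
noncomputable def lor (v : Rs d) : ℝ := v.1 ^ 2 - ‖v.2‖ ^ 2

/-- the boost with dilation that sends `e = (1, 0)` to `v` -/
noncomputable def boost (v a : Rs d) : Rs d :=
  (v.1 * a.1 + inner ℝ v.2 a.2,
    a.1 • v.2 + √(lor v) • a.2 + (inner ℝ v.2 a.2 / (v.1 + √(lor v))) • v.2)

/-- `e^{-|ξ|}` -/
noncomputable def fstar : Rd d → ℂ := fun ξ => cexp (-(‖ξ‖ : ℂ))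

end Pool.Agent.ConeG
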