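import Mathlib
import Pool.Agent.Work.MP_b0b133_an.G.Defs

set_option autoImplicit false
open MeasureTheory Complex Set
open scoped ENNReal ComplexConjugate

namespace Pool.Agent.ConeG

variable {d : ℕ}

/-- `κ = (d + 1) / 2` -/
noncomputable def kd (d : ℕ) : ℝ := ((d : ℝ) + 1) / 2

theorem kd_ge (d : ℕ) [Fact (2 ≤ d)] : 3 / 2 ≤ kd d := by
  have := two_le_real d
  unfold kd
  linarith

theorem kd_pos (d : ℕ) : 0 < kd d := by
  have : (0 : ℝ) ≤ d := Nat.cast_nonneg d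
  unfold kd
  linarith

theorem nu_kd (d : ℕ) : nu d = kd d - 1 := by
  unfold nu kd
  ring

theorem qe_kd (d : ℕ) : qe d = 2 * kd d / (kd d + 1) := by
  have : (0 : ℝ) ≤ d := Nat.cast_nonneg d
  unfold qe kd
  rw [div_eq_div_iff (by linarith) (by linarith)]
  ring

/-! ### Holomorphic dependence -/

/-- a complex number in the disc of radius `r` which makes `exp` of the product large -/
theorem EK_dir (l : ℂ) (r : ℝ) (hr : 0 < r) : ∃ d : ℂ, ‖d‖ ≤ r ∧ (d * l).re = r * ‖l‖ := by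
  by_cases hl : l = 0
  · exact ⟨0, by simpa using hr.le, by simp [hl]⟩
  · have hn : ‖l‖ ≠ 0 := norm_ne_zero_iff.2 hl
    refine ⟨(r / ‖l‖ : ℝ) * conj l, ?_, ?_⟩
    · rw [norm_mul, RCLike.norm_conj, Complex.norm_real, Real.norm_of_nonneg (by positivity),
        div_mul_cancel₀ _ hn]
    · rw [mul_assoc, Complex.conj_mul', ← Complex.ofReal_pow, ← Complex.ofReal_mul,
        Complex.ofReal_re]
      field_simp

theorem EK_param {β : Type*} [MeasurableSpace β] (ν : Measure β) (g l : β → ℂ) (bd : β → ℝ)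
    (z0 : ℂ) (r : ℝ) (hr : 0 < r) (hg : AEStronglyMeasurable g ν)
    (hl : AEStronglyMeasurable l ν) (hbd : Integrable bd ν)
    (h : ∀ᵐ a ∂ν, ∀ z : ℂ, ‖z - z0‖ < 2 * r → ‖g a * cexp (z * l a)‖ ≤ bd a) :
    DifferentiableAt ℂ (fun z => ∫ a, g a * cexp (z * l a) ∂ν) z0 := by
  have hmeas : ∀ z : ℂ, AEStronglyMeasurable (fun a => g a * cexp (z * l a)) ν := fun z =>
    hg.mul (Complex.continuous_exp.comp_aestronglyMeasurable (hl.const_mul z))
  have hint : Integrable (fun a => g a * cexp (z0 * l a)) ν := by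
    refine hbd.mono' (hmeas z0) ?_
    filter_upwards [h] with a ha
    exact ha z0 (by simpa using hr)
  have := (hasDerivAt_integral_of_dominated_loc_of_deriv_le (μ := ν)
    (F := fun z a => g a * cexp (z * l a)) (F' := fun z a => g a * (l a * cexp (z * l a)))
    (x₀ := z0) (s := Metric.ball z0 r) (bound := fun a => bd a / r)
    (Metric.ball_mem_nhds z0 hr) (Filter.Eventually.of_forall hmeas) hint
    (hg.mul (hl.mul (Complex.continuous_exp.comp_aestronglyMeasurable (hl.const_mul z0))))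
    ?_ (hbd.div_const r) ?_).2
  · exact this.differentiableAt
  · filter_upwards [h] with a ha z hz
    rw [Metric.mem_ball, dist_eq_norm] at hz
    obtain ⟨d, hd, hd2⟩ := EK_dir (l a) r hr
    have h1 := ha (z + d) (by
      calc ‖z + d - z0‖ = ‖(z - z0) + d‖ := by ring_nf
        _ ≤ ‖z - z0‖ + ‖d‖ := norm_add_le _ _
        _ < 2 * r := by linarith)
    have h2 : ‖cexp ((z + d) * l a)‖ = ‖cexp (z * l a)‖ * Real.exp (r * ‖l a‖) := by
      rw [add_mul, Complex.exp_add, norm_mul, Complex.norm_exp (d * l a), hd2]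
    rw [norm_mul, h2] at h1
    have h3 : r * ‖l a‖ ≤ Real.exp (r * ‖l a‖) := by
      have := Real.add_one_le_exp (r * ‖l a‖)
      linarith
    rw [le_div_iff₀ hr, norm_mul, norm_mul]
    calc ‖g a‖ * (‖l a‖ * ‖cexp (z * l a)‖) * r = ‖g a‖ * (‖cexp (z * l a)‖ * (r * ‖l a‖)) := by
          ring
      _ ≤ ‖g a‖ * (‖cexp (z * l a)‖ * Real.exp (r * ‖l a‖)) := by gcongr
      _ ≤ bd a := h1
  · filter_upwards with a z hz
    have h1 : HasDerivAt (fun z : ℂ => z * l a) (l a) z := by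
      simpa using (hasDerivAt_id z).mul_const (l a)
    have h2 := (h1.cexp).const_mul (g a)
    rw [mul_comm (cexp (z * l a)) (l a)] at h2
    exact h2


/-! ### The kernel -/

/-- the kernel variable -/
noncomputable def E_w (ε : ℝ) (p : Rs d × Rs d) : ℂ := qf (p.1 - p.2) (ε, 0)

theorem E_qf_eq (u : Rs d) (ε : ℝ) : qf u (ε, 0) =
    ((‖u.2‖ ^ 2 - u.1 ^ 2 + ε ^ 2 : ℝ) : ℂ) + ((2 * u.1 * ε : ℝ) : ℂ) * I := by
  unfold qf
  simp only [norm_zero, inner_zero_right]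
  push_cast
  ring

theorem E_qf_re (u : Rs d) (ε : ℝ) : (qf u (ε, 0)).re = ‖u.2‖ ^ 2 - u.1 ^ 2 + ε ^ 2 := by
  rw [E_qf_eq, Complex.add_re, Complex.ofReal_re, Complex.re_ofReal_mul, Complex.I_re, mul_zero,
    add_zero]

theorem E_qf_im (u : Rs d) (ε : ℝ) : (qf u (ε, 0)).im = 2 * u.1 * ε := by
  rw [E_qf_eq, Complex.add_im, Complex.ofReal_im, Complex.im_ofReal_mul, Complex.I_im, mul_one,
    zero_add]

theorem E_qf_lower (u : Rs d) (ε : ℝ) : ε ^ 2 ≤ ‖qf u (ε, 0)‖ := by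
  have h : (ε ^ 2) ^ 2 ≤ ‖qf u (ε, 0)‖ ^ 2 := by
    rw [← Complex.normSq_eq_norm_sq, Complex.normSq_apply, E_qf_re, E_qf_im]
    nlinarith [sq_nonneg (‖u.2‖ ^ 2 - u.1 ^ 2), sq_nonneg (ε * u.1), sq_nonneg (ε * ‖u.2‖)]
  exact le_of_sq_le_sq h (norm_nonneg _)

theorem E_qf_upper (u : Rs d) (ε : ℝ) : ‖qf u (ε, 0)‖ ≤ ‖u.2‖ ^ 2 + u.1 ^ 2 + ε ^ 2 +
    2 * |u.1| * |ε| := by
  rw [E_qf_eq]
  refine (norm_add_le _ _).trans ?_
  rw [norm_mul, Complex.norm_I, mul_one, Complex.norm_real, Complex.norm_real, Real.norm_eq_abs,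
    Real.norm_eq_abs, abs_mul, abs_mul, abs_two]
  have : |‖u.2‖ ^ 2 - u.1 ^ 2 + ε ^ 2| ≤ ‖u.2‖ ^ 2 + u.1 ^ 2 + ε ^ 2 := by
    rw [abs_le]
    constructor <;> nlinarith [sq_nonneg (‖u.2‖), sq_nonneg u.1, sq_nonneg ε]
  linarith

theorem E_qf_meas (ε : ℝ) : Measurable fun u : Rs d => qf u (ε, 0) := by
  simp only [E_qf_eq]
  refine Measurable.add ?_ (Measurable.mul_const ?_ _)
  · exact Complex.measurable_ofReal.comp
      (((measurable_snd.norm.pow_const 2).sub (measurable_fst.pow_const 2)).add_const _)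
  · exact Complex.measurable_ofReal.comp ((measurable_fst.const_mul 2).mul_const ε)

theorem E_w_meas (ε : ℝ) : Measurable (E_w ε : Rs d × Rs d → ℂ) :=
  (E_qf_meas ε).comp (measurable_fst.sub measurable_snd)

theorem E_w_ne (ε : ℝ) (hε : 0 < ε) (p : Rs d × Rs d) : E_w ε p ≠ 0 := by
  have := E_qf_lower (p.1 - p.2) ε
  intro h
  unfold E_w at h
  rw [h, norm_zero] at this
  nlinarith

theorem E_norm_cpow_le (w : ℂ) (hw : w ≠ 0) (W : ℝ) (hW : 1 ≤ W) (h1 : ‖w‖ ≤ W)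
    (h2 : W⁻¹ ≤ ‖w‖) (z : ℂ) (B : ℝ) (hz : |z.re| ≤ B) :
    ‖w ^ (-z)‖ ≤ W ^ B * Real.exp (Real.pi * |z.im|) := by
  have hw0 : 0 < ‖w‖ := norm_pos_iff.2 hw
  rw [Complex.norm_cpow_of_ne_zero hw]
  have e1 : Real.exp (Complex.arg w * (-z).im) ≥ Real.exp (-(Real.pi * |z.im|)) := by
    apply Real.exp_le_exp.2
    have h3 : |Complex.arg w * (-z).im| ≤ Real.pi * |z.im| := by
      rw [abs_mul, Complex.neg_im, abs_neg]
      exact mul_le_mul_of_nonneg_right (Complex.abs_arg_le_pi w) (abs_nonneg _)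
    have := neg_abs_le (Complex.arg w * (-z).im)
    linarith
  have e2 : ‖w‖ ^ (-z).re ≤ W ^ B := by
    have hW0 : 0 < W := by linarith
    have hlog : |Real.log ‖w‖| ≤ Real.log W := by
      rw [abs_le]
      constructor
      · have := Real.log_le_log (by positivity) h2
        rw [Real.log_inv] at this
        exact this
      · exact Real.log_le_log hw0 h1
    rw [Real.rpow_def_of_pos hw0, Real.rpow_def_of_pos hW0]
    apply Real.exp_le_exp.2
    have h4 : |Real.log ‖w‖ * (-z).re| ≤ Real.log W * B := by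
      rw [abs_mul, Complex.neg_re, abs_neg]
      exact mul_le_mul hlog hz (abs_nonneg _) (Real.log_nonneg hW)
    exact (le_abs_self _).trans h4
  rw [div_le_iff₀ (Real.exp_pos _)]
  calc ‖w‖ ^ (-z).re ≤ W ^ B := e2
    _ = W ^ B * Real.exp (Real.pi * |z.im|) * Real.exp (-(Real.pi * |z.im|)) := by
      rw [mul_assoc, ← Real.exp_add]; simp
    _ ≤ _ := by gcongr

/-! ### The analytic family -/

/-- the slope of the exponent -/
noncomputable def sl (d : ℕ) : ℝ := (kd d + 1)⁻¹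

theorem sl_pos (d : ℕ) : 0 < sl d := by
  have := kd_pos d
  unfold sl
  positivity

theorem sl_nu (d : ℕ) : qe d - sl d * nu d = 1 := by
  have := kd_pos d
  rw [qe_kd, nu_kd, sl]
  field_simp
  ring

theorem sl_kd (d : ℕ) : qe d - sl d * kd d = qe d / 2 := by
  have := kd_pos d
  rw [qe_kd, sl]
  field_simp
  ring

theorem sl_qe (d : ℕ) : qe d + sl d * 2 = 2 := by
  have := kd_pos d
  rw [qe_kd, sl]
  field_simp

/-- `|G|^{qe - z / (κ + 1)} sgn G` -/
noncomputable def E_G (G : Rs d → ℂ) (z : ℂ) (b : Rs d) : ℂ :=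
  cexp (((qe d : ℂ) - (sl d : ℂ) * z) * (Real.log ‖G b‖ : ℂ)) * (G b / (‖G b‖ : ℂ))

theorem E_G_norm (G : Rs d → ℂ) (z : ℂ) (b : Rs d) (hz : 0 < qe d - sl d * z.re) :
    ‖E_G G z b‖ = ‖G b‖ ^ (qe d - sl d * z.re) := by
  unfold E_G
  by_cases h : G b = 0
  · rw [h]
    simp only [norm_zero, Complex.ofReal_zero, div_zero, mul_zero]
    rw [Real.zero_rpow hz.ne']
  · have hn : 0 < ‖G b‖ := norm_pos_iff.2 h
    rw [norm_mul, norm_div, Complex.norm_real, norm_norm, div_self hn.ne', mul_one,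
      Complex.norm_exp, Complex.re_mul_ofReal, Real.rpow_def_of_pos hn]
    congr 1
    simp
    ring

theorem E_G_one (G : Rs d → ℂ) (b : Rs d) : E_G G (nu d : ℂ) b = G b := by
  unfold E_G
  by_cases h : G b = 0
  · rw [h]; simp
  · have hn : 0 < ‖G b‖ := norm_pos_iff.2 h
    have hn' : (‖G b‖ : ℂ) ≠ 0 := by exact_mod_cast hn.ne'
    have : ((qe d : ℂ) - (sl d : ℂ) * (nu d : ℂ)) = 1 := by exact_mod_cast sl_nu d
    rw [this, one_mul, ← Complex.ofReal_exp, Real.exp_log hn, mul_div_cancel₀ _ hn']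

theorem E_G_meas (G : Rs d → ℂ) (hG : Measurable G) (z : ℂ) : Measurable (E_G G z) := by
  unfold E_G
  refine Measurable.mul ?_ (hG.div (Complex.measurable_ofReal.comp hG.norm))
  exact ((Complex.measurable_ofReal.comp (Real.measurable_log.comp hG.norm)).const_mul _).cexp

theorem E_G_zero (G : Rs d → ℂ) (z : ℂ) (b : Rs d) (h : G b = 0) : E_G G z b = 0 := by
  unfold E_G; rw [h]; simp

/-- the base function of the family -/
noncomputable def E_gg (G H : Rs d → ℂ) (p : Rs d × Rs d) : ℂ :=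
  cexp ((qe d : ℂ) * ((Real.log ‖G p.2‖ + Real.log ‖H p.1‖ : ℝ) : ℂ)) *
    ((G p.2 / (‖G p.2‖ : ℂ)) * (H p.1 / (‖H p.1‖ : ℂ)))

/-- the exponent of the family -/
noncomputable def E_lam (ε : ℝ) (G H : Rs d → ℂ) (p : Rs d × Rs d) : ℂ :=
  -(sl d : ℂ) * ((Real.log ‖G p.2‖ + Real.log ‖H p.1‖ : ℝ) : ℂ) - Complex.log (E_w ε p)

theorem E_family (ε : ℝ) (hε : 0 < ε) (G H : Rs d → ℂ) (z : ℂ) (p : Rs d × Rs d) :
    E_gg G H p * cexp (z * E_lam ε G H p) = E_w ε p ^ (-z) * E_G G z p.2 * E_G H z p.1 := by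
  unfold E_gg E_lam E_G
  rw [cpow_def_of_ne_zero (E_w_ne ε hε p)]
  have : cexp (Complex.log (E_w ε p) * -z) *
      (cexp (((qe d : ℂ) - (sl d : ℂ) * z) * (Real.log ‖G p.2‖ : ℂ)) * (G p.2 / (‖G p.2‖ : ℂ))) *
      (cexp (((qe d : ℂ) - (sl d : ℂ) * z) * (Real.log ‖H p.1‖ : ℂ)) * (H p.1 / (‖H p.1‖ : ℂ))) =
      (cexp (Complex.log (E_w ε p) * -z) * cexp (((qe d : ℂ) - (sl d : ℂ) * z) * (Real.log ‖G p.2‖ : ℂ)) *
      cexp (((qe d : ℂ) - (sl d : ℂ) * z) * (Real.log ‖H p.1‖ : ℂ))) *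
      ((G p.2 / (‖G p.2‖ : ℂ)) * (H p.1 / (‖H p.1‖ : ℂ))) := by ring
  rw [this, ← Complex.exp_add, ← Complex.exp_add, mul_right_comm, ← Complex.exp_add]
  congr 2
  push_cast
  ring

end Pool.Agent.ConeG
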