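import Mathlib
import Pool.Agent.Work.MP_b0b133_an.G.EDual

set_option autoImplicit false
open MeasureTheory Complex Set
open scoped ENNReal ComplexConjugate

namespace Pool.Agent.ConeG

variable {d : ℕ}

/-- the interpolated bilinear estimate, as a statement about a constant -/
def E_Bil (d : ℕ) (C : ℝ) : Prop := ∀ (ε : ℝ) (_ : 0 < ε) (G : Rs d → ℂ), Measurable G →
    (∃ M : ℝ, ∀ a, ‖G a‖ ≤ M ∧ (M < ‖a‖ → G a = 0)) →
    ‖∫ a, ∫ b, (qf (a - b) (ε, 0)) ^ (-(nu d : ℂ) : ℂ) * G b * conj (G a)‖ ≤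
      C * (∫ a, ‖G a‖ ^ (qe d)) ^ (((d : ℝ) + 3) / ((d : ℝ) + 1))

theorem E_nice_int (G : Rs d → ℂ) (hG : Measurable G) (M : ℝ)
    (hM : ∀ a, ‖G a‖ ≤ M ∧ (M < ‖a‖ → G a = 0)) : Integrable G := by
  have hb : Integrable ((Metric.closedBall (0 : Rs d) M).indicator fun _ => M) := by
    rw [integrable_indicator_iff measurableSet_closedBall]
    exact integrableOn_const measure_closedBall_lt_top.ne
  refine hb.mono' hG.aestronglyMeasurable (Filter.Eventually.of_forall fun a => ?_)
  by_cases ha : a ∈ Metric.closedBall (0 : Rs d) M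
  · rw [indicator_of_mem ha]; exact (hM a).1
  · rw [indicator_of_notMem ha, (hM a).2 (by simpa using ha), norm_zero]

/-- the tested inequality -/
theorem E_test [Fact (2 ≤ d)] {Cd : ℝ} (hD : E_D d Cd) (C : ℝ) (hB : E_Bil d C) (G : Rs d → ℂ) (hG : Measurable G) (M : ℝ)
    (hM : ∀ a, ‖G a‖ ≤ M ∧ (M < ‖a‖ → G a = 0)) (f : Rd d → ℂ) (hf : Integrable f (sig d))
    (hf2 : MemLp f 2 (sig d)) :
    ‖∫ ξ, f ξ * conj (E_Ts G ξ) ∂(sig d)‖ ≤ √(∫ ξ, ‖f ξ‖ ^ 2 ∂(sig d)) *
      √(Cd * (C * (∫ a, ‖G a‖ ^ (qe d)) ^ (((d : ℝ) + 3) / ((d : ℝ) + 1)))) := by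
  have hGi := E_nice_int G hG M hM
  have hTm := (E_Ts_meas G hG)
  set B := ∫ a, ‖G a‖ with hBdef
  have hstep : ∀ ε : ℝ, 0 < ε → ‖∫ ξ, f ξ * conj (E_Ts G ξ) *
      (Real.exp (-(ε * ‖ξ‖)) : ℂ) ∂(sig d)‖ ≤ √(∫ ξ, ‖f ξ‖ ^ 2 ∂(sig d)) *
      √(Cd * (C * (∫ a, ‖G a‖ ^ (qe d)) ^ (((d : ℝ) + 3) / ((d : ℝ) + 1)))) := by
    intro ε hε
    set g : Rd d → ℂ := fun ξ => conj (E_Ts G ξ) * (Real.exp (-(ε * ‖ξ‖)) : ℂ) with hg
    have hgn : ∀ ξ, ‖g ξ‖ ^ 2 = ‖E_Ts G ξ‖ ^ 2 * Real.exp (-((2 * ε) * ‖ξ‖)) := by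
      intro ξ
      simp only [hg, norm_mul, RCLike.norm_conj, Complex.norm_real, Real.norm_eq_abs,
        Real.abs_exp, mul_pow]
      rw [← Real.exp_nat_mul]
      congr 2
      push_cast
      ring
    have hexpm : Measurable fun ξ : Rd d => (Real.exp (-(ε * ‖ξ‖)) : ℂ) :=
      Complex.measurable_ofReal.comp ((measurable_norm.const_mul ε).neg.exp)
    have hgm : AEStronglyMeasurable g (sig d) :=
      ((Complex.continuous_conj.comp_stronglyMeasurable hTm).mul
        hexpm.stronglyMeasurable).aestronglyMeasurable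
    have hw : Integrable (fun ξ : Rd d => (Real.exp (-((2 * ε) * ‖ξ‖)))) (sig d) := by
      have h1 : Integrable (fun ξ : Rd d => (Real.exp (-((2 * ε) * ‖ξ‖)) : ℂ)) (sig d) :=
        (hD.int (2 * ε) (by positivity)).congr
          (Filter.Eventually.of_forall fun ξ => E_expo0 (2 * ε) ξ)
      refine h1.norm.congr (Filter.Eventually.of_forall fun ξ => ?_)
      simp only [Complex.norm_real, Real.norm_eq_abs, Real.abs_exp]
    have hg2 : MemLp g 2 (sig d) := by
      rw [memLp_two_iff_integrable_sq_norm hgm]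
      simp only [hgn]
      refine hw.bdd_mul (c := B ^ 2) (hTm.norm.pow 2).aestronglyMeasurable
        (Filter.Eventually.of_forall fun ξ => ?_)
      rw [Real.norm_of_nonneg (by positivity)]
      exact pow_le_pow_left₀ (norm_nonneg _) (E_Ts_bound G ξ) 2
    have h1 := integral_mul_norm_le_Lp_mul_Lq (μ := sig d) (f := f) (g := g)
      (Real.HolderConjugate.two_two) (by simpa using hf2) (by simpa using hg2)
    have h2 : ‖∫ ξ, f ξ * conj (E_Ts G ξ) * (Real.exp (-(ε * ‖ξ‖)) : ℂ) ∂(sig d)‖ ≤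
        ∫ ξ, ‖f ξ‖ * ‖g ξ‖ ∂(sig d) := by
      refine (norm_integral_le_integral_norm _).trans (le_of_eq ?_)
      refine integral_congr_ae (Filter.Eventually.of_forall fun ξ => ?_)
      simp only [hg, norm_mul]
      ring
    refine h2.trans (h1.trans ?_)
    have h3 : ∀ (h : Rd d → ℂ), (∫ ξ, ‖h ξ‖ ^ (2 : ℝ) ∂(sig d)) ^ (1 / 2 : ℝ) =
        √(∫ ξ, ‖h ξ‖ ^ 2 ∂(sig d)) := by
      intro h
      rw [← Real.sqrt_eq_rpow]
      congr 2
      funext ξ
      exact_mod_cast Real.rpow_natCast ‖h ξ‖ 2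
    rw [h3, h3]
    refine mul_le_mul_of_nonneg_left ?_ (Real.sqrt_nonneg _)
    apply Real.sqrt_le_sqrt
    simp only [hgn]
    rw [E_quadform hD (2 * ε) (by positivity) G hGi]
    refine mul_le_mul_of_nonneg_left ?_ hD.nonneg
    exact (Complex.re_le_norm _).trans (hB (2 * ε) (by positivity) G hG ⟨M, hM⟩)
  have hlim : Filter.Tendsto (fun n : ℕ => ∫ ξ, f ξ * conj (E_Ts G ξ) *
      (Real.exp (-((1 / ((n : ℝ) + 1)) * ‖ξ‖)) : ℂ) ∂(sig d)) Filter.atTop
      (nhds (∫ ξ, f ξ * conj (E_Ts G ξ) ∂(sig d))) := by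
    refine tendsto_integral_of_dominated_convergence (fun ξ => ‖f ξ‖ * B) ?_ ?_ ?_ ?_
    · intro n
      refine (hf.aestronglyMeasurable.mul
        (Complex.continuous_conj.comp_stronglyMeasurable hTm).aestronglyMeasurable).mul ?_
      exact (Complex.measurable_ofReal.comp
        ((measurable_norm.const_mul _).neg.exp)).aestronglyMeasurable
    · exact hf.norm.mul_const B
    · intro n
      refine Filter.Eventually.of_forall fun ξ => ?_
      rw [norm_mul, norm_mul, RCLike.norm_conj, Complex.norm_real, Real.norm_eq_abs,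
        Real.abs_exp]
      have h1 : Real.exp (-((1 / ((n : ℝ) + 1)) * ‖ξ‖)) ≤ 1 := by
        apply Real.exp_le_one_iff.2
        have : 0 ≤ (1 / ((n : ℝ) + 1)) * ‖ξ‖ := by positivity
        linarith
      calc ‖f ξ‖ * ‖E_Ts G ξ‖ * Real.exp (-((1 / ((n : ℝ) + 1)) * ‖ξ‖)) ≤
          ‖f ξ‖ * ‖E_Ts G ξ‖ * 1 := by gcongr
        _ ≤ ‖f ξ‖ * B := by
          rw [mul_one]
          gcongr
          exact E_Ts_bound G ξ
    · refine Filter.Eventually.of_forall fun ξ => ?_
      have h1 : Filter.Tendsto (fun n : ℕ => -((1 / ((n : ℝ) + 1)) * ‖ξ‖)) Filter.atTop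
          (nhds (-(0 * ‖ξ‖))) :=
        (tendsto_one_div_add_atTop_nhds_zero_nat.mul_const _).neg
      have h2 := (Complex.continuous_ofReal.tendsto _).comp
        ((Real.continuous_exp.tendsto _).comp h1)
      have h3 := h2.const_mul (f ξ * conj (E_Ts G ξ))
      simpa using h3
  exact le_of_tendsto hlim.norm (Filter.Eventually.of_forall fun n => hstep _ (by positivity))

/-- the algebra of the duality argument -/
theorem E_pe2 (d : ℕ) [Fact (2 ≤ d)] : ((d : ℝ) - 1) / ((d : ℝ) + 1) = 2 / pe d := by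
  have hd := two_le_real d
  have h1 : (d : ℝ) - 1 ≠ 0 := by linarith
  have h2 : (d : ℝ) + 1 ≠ 0 := by linarith
  unfold pe
  field_simp

theorem E_qe2 (d : ℕ) [Fact (2 ≤ d)] : (pe d - 1) * qe d = pe d := by
  have hd := two_le_real d
  have h1 : (d : ℝ) - 1 ≠ 0 := by linarith
  have h2 : (d : ℝ) + 3 ≠ 0 := by linarith
  unfold pe qe
  field_simp
  ring

theorem E_alg [Fact (2 ≤ d)] (J S K : ℝ) (hJ : 0 ≤ J) (hS : 0 ≤ S) (hK : 0 ≤ K)
    (h : J ≤ √S * √(K * J ^ (((d : ℝ) + 3) / ((d : ℝ) + 1)))) :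
    J ^ (((d : ℝ) - 1) / ((d : ℝ) + 1)) ≤ K * S := by
  have hd := two_le_real d
  have hd1 : (0 : ℝ) < ((d : ℝ) - 1) / ((d : ℝ) + 1) := div_pos (by linarith) (by linarith)
  rcases hJ.eq_or_lt with h0 | h0
  · rw [← h0, Real.zero_rpow hd1.ne']
    positivity
  · have h1 : J ^ 2 ≤ S * (K * J ^ (((d : ℝ) + 3) / ((d : ℝ) + 1))) := by
      have h2 := pow_le_pow_left₀ hJ h 2
      rwa [mul_pow, Real.sq_sqrt hS, Real.sq_sqrt (by positivity)] at h2
    have h3 : J ^ 2 = J ^ (((d : ℝ) - 1) / ((d : ℝ) + 1)) * J ^ (((d : ℝ) + 3) / ((d : ℝ) + 1)) := by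
      rw [← Real.rpow_add h0, ← Real.rpow_natCast]
      congr 1
      have : (d : ℝ) + 1 ≠ 0 := by linarith
      push_cast
      field_simp
      ring
    rw [h3] at h1
    have h4 : 0 < J ^ (((d : ℝ) + 3) / ((d : ℝ) + 1)) := Real.rpow_pos_of_pos h0 _
    nlinarith

theorem E_strichartz [Fact (2 ≤ d)] {Cd : ℝ} (hD : E_D d Cd) (hB : ∃ C : ℝ, E_Bil d C) : ∃ C : ℝ, ∀ f : Rd d → ℂ,
    Integrable f (sig d) → MemLp f 2 (sig d) → MemLp (coneExt f) (ENNReal.ofReal (pe d)) volume ∧
    (∫ a, ‖coneExt f a‖ ^ (pe d)) ^ (((d : ℝ) - 1) / ((d : ℝ) + 1)) ≤ C * ∫ ξ, ‖f ξ‖ ^ 2 ∂(sig d) := by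
  obtain ⟨C₀, hC₀⟩ := hB
  set C := max C₀ 0 with hC
  have hC0 : 0 ≤ C := le_max_right _ _
  have hB' : E_Bil d C := by
    intro ε hε G hG hM
    refine (hC₀ ε hε G hG hM).trans ?_
    gcongr
    · exact le_max_left _ _
  set K := Cd * C with hK
  have hCd := hD.nonneg
  have hK0 : 0 ≤ K := by positivity
  have hpe := pe_gt d
  have hqe := qe_ge d
  have hpe2 := E_pe2 d
  refine ⟨K, fun f hf hf2 => ?_⟩
  set S := ∫ ξ, ‖f ξ‖ ^ 2 ∂(sig d) with hS
  have hS0 : 0 ≤ S := integral_nonneg fun ξ => by positivity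
  set F := coneExt f with hF
  have hFm : StronglyMeasurable F := E_ext_meas f hf.aestronglyMeasurable
  set B := ∫ ξ, ‖f ξ‖ ∂(sig d) with hBd
  have hB0 : 0 ≤ B := integral_nonneg fun ξ => norm_nonneg _
  have hFB : ∀ a, ‖F a‖ ≤ B := E_ext_bound f
  -- the truncated integrals
  have hJ : ∀ M : ℝ, IntegrableOn (fun a => ‖F a‖ ^ (pe d)) (Metric.closedBall 0 M) ∧
      (∫ a in Metric.closedBall (0 : Rs d) M, ‖F a‖ ^ (pe d)) ^ (((d : ℝ) - 1) / ((d : ℝ) + 1)) ≤ K * S := by
    intro M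
    set G : Rs d → ℂ := (Metric.closedBall (0 : Rs d) M).indicator
      (fun a => ((‖F a‖ ^ (pe d - 2) : ℝ) : ℂ) * F a) with hG
    have hGm : Measurable G := by
      refine Measurable.indicator (Measurable.mul ?_ hFm.measurable) measurableSet_closedBall
      exact Complex.measurable_ofReal.comp (hFm.measurable.norm.pow_const _)
    have hGn : ∀ a, ‖G a‖ = (Metric.closedBall (0 : Rs d) M).indicator
        (fun a => ‖F a‖ ^ (pe d - 1)) a := by
      intro a
      by_cases ha : a ∈ Metric.closedBall (0 : Rs d) M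
      · rw [hG, indicator_of_mem ha, indicator_of_mem ha, norm_mul, Complex.norm_real,
          Real.norm_of_nonneg (by positivity)]
        by_cases h0 : ‖F a‖ = 0
        · rw [h0]
          rw [Real.zero_rpow (by linarith : (pe d - 1) ≠ 0)]
          ring
        · have : 0 < ‖F a‖ := lt_of_le_of_ne (norm_nonneg _) (Ne.symm h0)
          nth_rewrite 2 [← Real.rpow_one ‖F a‖]
          rw [← Real.rpow_add this]
          congr 1
          ring
      · rw [hG, indicator_of_notMem ha, indicator_of_notMem ha, norm_zero]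
    have hGb : ∀ a, ‖G a‖ ≤ max M (B ^ (pe d - 1)) ∧
        (max M (B ^ (pe d - 1)) < ‖a‖ → G a = 0) := by
      intro a
      constructor
      · rw [hGn]
        refine le_trans ?_ (le_max_right _ _)
        by_cases ha : a ∈ Metric.closedBall (0 : Rs d) M
        · rw [indicator_of_mem ha]
          exact Real.rpow_le_rpow (norm_nonneg _) (hFB a) (by linarith)
        · rw [indicator_of_notMem ha]
          positivity
      · intro h
        have : a ∉ Metric.closedBall (0 : Rs d) M := by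
          rw [mem_closedBall_zero_iff]
          have := (le_max_left M (B ^ (pe d - 1))).trans_lt h
          exact not_le.2 this
        rw [hG, indicator_of_notMem this]
    have htest := E_test hD C hB' G hGm _ hGb f hf hf2
    have hint : IntegrableOn (fun a => ‖F a‖ ^ (pe d)) (Metric.closedBall 0 M) := by
      refine Measure.integrableOn_of_bounded (M := B ^ (pe d))
        measure_closedBall_lt_top.ne (hFm.measurable.norm.pow_const _).aestronglyMeasurable ?_
      refine Filter.Eventually.of_forall fun a => ?_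
      rw [Real.norm_of_nonneg (by positivity)]
      exact Real.rpow_le_rpow (norm_nonneg _) (hFB a) (by linarith)
    refine ⟨hint, ?_⟩
    set J := ∫ a in Metric.closedBall (0 : Rs d) M, ‖F a‖ ^ (pe d) with hJdef
    have hJ0 : 0 ≤ J := integral_nonneg fun a => by positivity
    have e1 : ∫ a, ‖G a‖ ^ (qe d) = J := by
      rw [hJdef, ← integral_indicator measurableSet_closedBall]
      refine integral_congr_ae (Filter.Eventually.of_forall fun a => ?_)
      simp only [hGn]
      by_cases ha : a ∈ Metric.closedBall (0 : Rs d) M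
      · rw [indicator_of_mem ha, indicator_of_mem ha, ← Real.rpow_mul (norm_nonneg _), E_qe2]
      · rw [indicator_of_notMem ha, indicator_of_notMem ha, Real.zero_rpow (by linarith)]
    have e2 : ∫ ξ, f ξ * conj (E_Ts G ξ) ∂(sig d) = (J : ℂ) := by
      rw [← E_dual f hf G (E_nice_int G hGm _ hGb), hJdef,
        ← integral_indicator measurableSet_closedBall, ← integral_complex_ofReal]
      refine integral_congr_ae (Filter.Eventually.of_forall fun a => ?_)
      simp only
      by_cases ha : a ∈ Metric.closedBall (0 : Rs d) M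
      · rw [indicator_of_mem ha, hG, indicator_of_mem ha, map_mul, Complex.conj_ofReal]
        have h1 : F a * conj (F a) = ((‖F a‖ ^ 2 : ℝ) : ℂ) := by
          rw [Complex.mul_conj']; push_cast; rfl
        have h2 : ‖F a‖ ^ (pe d) = ‖F a‖ ^ (pe d - 2) * ‖F a‖ ^ 2 := by
          by_cases h0 : ‖F a‖ = 0
          · rw [h0, Real.zero_rpow (by linarith)]
            ring
          · have : 0 < ‖F a‖ := lt_of_le_of_ne (norm_nonneg _) (Ne.symm h0)
            rw [← Real.rpow_natCast, ← Real.rpow_add this]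
            congr 1
            push_cast
            ring
        rw [h2]
        push_cast at h1 ⊢
        rw [← h1]
        ring
      · rw [indicator_of_notMem ha, hG, indicator_of_notMem ha]
        simp
    rw [e1, e2, Complex.norm_real, Real.norm_of_nonneg hJ0] at htest
    refine E_alg J S K hJ0 hS0 hK0 ?_
    rw [hK]
    refine htest.trans (le_of_eq ?_)
    congr 2
    ring
  have hcov := aecover_closedBall (μ := (volume : Measure (Rs d))) (x := (0 : Rs d))
    (r := fun n : ℕ => (n : ℝ)) tendsto_natCast_atTop_atTop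
  have hbd : ∀ M : ℝ, ∫ a in Metric.closedBall (0 : Rs d) M, ‖F a‖ ^ (pe d) ≤
      (K * S) ^ (pe d / 2) := by
    intro M
    have h0 : 0 ≤ ∫ a in Metric.closedBall (0 : Rs d) M, ‖F a‖ ^ (pe d) :=
      integral_nonneg fun a => by positivity
    have h1 := Real.rpow_le_rpow (by positivity) (hJ M).2 (by linarith : (0 : ℝ) ≤ pe d / 2)
    rw [← Real.rpow_mul h0, hpe2, show 2 / pe d * (pe d / 2) = 1 by field_simp, Real.rpow_one] at h1
    exact h1
  have hintF : Integrable (fun a => ‖F a‖ ^ (pe d)) :=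
    hcov.integrable_of_integral_bounded_of_nonneg_ae ((K * S) ^ (pe d / 2))
      (fun n => (hJ n).1) (Filter.Eventually.of_forall fun a => by positivity)
      (Filter.Eventually.of_forall fun n => hbd n)
  constructor
  · have h0 : ENNReal.ofReal (pe d) ≠ 0 := by
      rw [Ne, ENNReal.ofReal_eq_zero]
      linarith
    rw [← integrable_norm_rpow_iff hFm.aestronglyMeasurable h0 ENNReal.ofReal_ne_top,
      ENNReal.toReal_ofReal (by linarith)]
    exact hintF
  · have hlim := hcov.integral_tendsto_of_countably_generated hintF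
    have h0 : 0 ≤ ∫ a, ‖F a‖ ^ (pe d) := integral_nonneg fun a => by positivity
    have h1 : ∫ a, ‖F a‖ ^ (pe d) ≤ (K * S) ^ (pe d / 2) :=
      le_of_tendsto hlim (Filter.Eventually.of_forall fun n => hbd n)
    have h2 := Real.rpow_le_rpow h0 h1 (by positivity : (0 : ℝ) ≤ 2 / pe d)
    rw [← Real.rpow_mul (by positivity), show pe d / 2 * (2 / pe d) = 1 by field_simp,
      Real.rpow_one] at h2
    rw [hpe2]
    exact h2

end Pool.Agent.ConeG
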