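import Pool.Agent.Work.MP_b0b133_an.G.FINGa
import Pool.Agent.Work.MP_b0b133_an.G.OVLp

/-!
# The end game in dimension `d`

* `no_gap`: abstract form. A lower bound `S E[m(x)] - o(1)` of `DG` at centred near maximisers
  contradicts the second variations if `m` is large enough on the levels `l ≥ 1`.
* `sharp_of_near`: the same, from the functional form for near maximisers to `Sharp d`.
* `sharp_of_GC`: from a functional inequality with multipliers `c`, `a` and costs `k`.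
* `sharp_of_G`: from the functional inequality (G).
-/

set_option autoImplicit false
open MeasureTheory Complex
open scoped ENNReal ComplexConjugate

namespace Pool.Agent.ConeG

variable {d : ℕ} {μ : Measure (CC d)}

/-- `S` is an admissible constant -/
def Adm (μ : Measure (CC d)) (S : ℝ) : Prop := ∀ P ∈ HP d, Ip μ P ≤ S * En μ P ^ (pe d / 2)

/-- a lower bound of `DG` at near maximisers -/
def NearLB (μ : Measure (CC d)) (S l1 l2 : ℝ) (m : ℕ → ℝ) : Prop :=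
  ∀ τ > 0, ∃ ε₀ > 0, ∀ ψ ∈ HP d, En μ (AP ψ) = 1 → S - ε₀ ≤ Ip μ (AP ψ) →
    S * Lev μ m (AP ψ) - τ ≤ DG μ l1 l2 ψ

/-- the functional inequality (G) -/
def FuncG (μ : Measure (CC d)) (l1 l2 c : ℝ) : Prop :=
  ∀ ψ ∈ HP d, c * Ip μ (AP ψ) + (1 + l2 - c) * Zq μ ψ ≤ DG μ l1 l2 ψ

/-- the functional inequality with costs -/
def FuncGC (μ : Measure (CC d)) (l1 l2 c a : ℝ) (k : ℕ → ℝ) : Prop :=
  ∀ S : ℝ, 1 ≤ S → Adm μ S → ∀ ψ ∈ HP d, En μ (AP ψ) = 1 →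
    c * Ip μ (AP ψ) + a * Zq μ ψ ≤ DG μ l1 l2 ψ + S * Lev μ k (AP ψ)

namespace FING

/-- a centred near maximiser is impossible if `S > 1` -/
theorem no_gap [Fact (2 ≤ d)] (hd : 3 ≤ d) (hμ : Law μ)
    (hcent : ∀ P ∈ HP d, En μ P = 1 → ∀ ε > 0, ∃ Q ∈ HP d, En μ Q = 1 ∧ Ip μ P - ε ≤ Ip μ Q ∧
      ∀ j, ‖∫ x, x j * ((‖ev Q x‖ ^ pe d : ℝ) : ℂ) ∂μ‖ ≤ ε)
    {S : ℝ} (hS : 1 < S) (hmax : Adm μ S)
    (hsup : ∀ ε > 0, ∃ P ∈ HP d, En μ P = 1 ∧ S - ε ≤ Ip μ P)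
    {l1 l2 : ℝ} (hl1 : 0 ≤ l1) (hl2 : 0 ≤ l2) {m : ℕ → ℝ} {α β ρ : ℝ} (hαβ : 0 ≤ α + β)
    (hm0 : 1 + l2 - α ≤ m 0)
    (hm : ∀ l, 1 ≤ l → (1 - (pe d - 2) + l1) + ((pe d - 2) - l1 + l2) * xl d l ^ 2 + β ≤ m l)
    (hgap : (α + β) * ρ < β)
    (hr : ∃ ε₀ > 0, ∀ F ∈ HP d, En μ F = 1 → S - ε₀ ≤ Ip μ F → ‖ev F 0‖ ^ 2 ≤ ρ)
    (hLB : NearLB μ S l1 l2 m) : False := by
  have hν := nu_pos d
  have hq0 : 0 < pe d - 2 := SV.qq_pos d
  set τ := (β - (α + β) * ρ) / 4 with hτ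
  have hτ0 : 0 < τ := by rw [hτ]; linarith
  obtain ⟨ε1, hε1, h1⟩ := hLB τ hτ0
  obtain ⟨ε2, hε2, h2⟩ := hr
  obtain ⟨C, hC0, h3⟩ := second_var_sum hd hμ hl1 hl2 S hS.le hmax
  set κ := min (pe d - 2) 1 / 4 with hκ
  have hκ0 : 0 < κ := by
    rw [hκ]
    have := lt_min hq0 one_pos
    linarith
  -- the scale
  set s := (τ / (C + 1)) ^ (1 / κ) with hs
  have hs0 : 0 < s := Real.rpow_pos_of_pos (by positivity) _
  set ε := min (min ε1 ε2) (min 1 s) with hε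
  have hε0 : 0 < ε := by positivity
  have he1 : ε ≤ ε1 := (min_le_left _ _).trans (min_le_left _ _)
  have he2 : ε ≤ ε2 := (min_le_left _ _).trans (min_le_right _ _)
  have he3 : ε ≤ 1 := (min_le_right _ _).trans (min_le_left _ _)
  have he4 : ε ≤ s := (min_le_right _ _).trans (min_le_right _ _)
  have hCε : C * ε ^ κ ≤ τ := by
    have g1 : ε ^ κ ≤ τ / (C + 1) := by
      calc ε ^ κ ≤ s ^ κ := Real.rpow_le_rpow hε0.le he4 hκ0.le
        _ = τ / (C + 1) := by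
          rw [hs, ← Real.rpow_mul (by positivity), one_div, inv_mul_cancel₀ hκ0.ne', Real.rpow_one]
    have g2 : C * (τ / (C + 1)) ≤ τ := by
      rw [mul_div_assoc', div_le_iff₀ (by positivity)]
      nlinarith
    exact (mul_le_mul_of_nonneg_left g1 hC0).trans g2
  obtain ⟨P, hP, hPE, hPI⟩ := hsup (ε / 2) (by positivity)
  obtain ⟨F, hF, hFE, hFI, hFc⟩ := hcent P hP hPE (ε / 2) (by positivity)
  have hFn : S - ε ≤ Ip μ F := by linarith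
  obtain ⟨ψ, hψ, rfl⟩ := AP_surj hν F hF
  have a1 := h1 ψ hψ hFE (by linarith)
  have a2 := h2 (AP ψ) hF hFE (by linarith)
  have a3 := h3 ψ hψ ε hε0 he3 hFE hFn fun j => (hFc j).trans (by linarith)
  -- the levels
  set A := 1 - (pe d - 2) + l1 with hA
  set B := (pe d - 2) - l1 + l2 with hB
  have hAB : A + B = 1 + l2 := by rw [hA, hB]; ring
  have b1 := Lev_split hν hμ (m := fun l => m l - (A + B * xl d l ^ 2)) (α := α) (β := β)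
    (by
      simp only [xl_zero hν]
      linarith) (fun l hl => by
      have := hm l hl
      linarith) (AP ψ)
  have b2 : Lev μ (fun l => m l - (A + B * xl d l ^ 2)) (AP ψ)
      = Lev μ m (AP ψ) - (A + B * X2 μ ψ) := by
    have e1 : Lev μ m (AP ψ) = Lev μ (fun l => m l - (A + B * xl d l ^ 2)) (AP ψ) +
        (A * Lev μ (fun _ => 1) (AP ψ) + B * Lev μ (fun l => xl d l ^ 2) (AP ψ)) := by
      rw [← Lev_smul, ← Lev_smul, ← Lev_add, ← Lev_add]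
      congr 1
      funext l
      ring
    rw [Lev_one hμ, Lev_x2 hν hμ, hFE] at e1
    linarith
  rw [b2, hFE] at b1
  have b3 : β - (α + β) * ρ ≤ Lev μ m (AP ψ) - (A + B * X2 μ ψ) := by
    have : (α + β) * ‖ev (AP ψ) 0‖ ^ 2 ≤ (α + β) * ρ := mul_le_mul_of_nonneg_left a2 hαβ
    linarith
  have b4 : 4 * τ ≤ Lev μ m (AP ψ) - (A + B * X2 μ ψ) := by
    rw [hτ]
    linarith
  have b5 : 4 * τ ≤ S * (Lev μ m (AP ψ) - (A + B * X2 μ ψ)) := by nlinarith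
  linarith

/-- first variation in the direction `H` -/
theorem first_var_H [Fact (2 ≤ d)] (hd : 3 ≤ d) (hμ : Law μ) (S : ℝ) (hS : 1 ≤ S)
    (hmax : Adm μ S) :
    ∃ C : ℝ, 0 ≤ C ∧ ∀ ψ ∈ HP d, ∀ ε : ℝ, 0 < ε → ε ≤ 1 → En μ (AP ψ) = 1 →
      S - ε ≤ Ip μ (AP ψ) → |Zq μ ψ - S * Lev μ (xl d) (AP ψ)| ≤ C * ε ^ (1 / 2 : ℝ) := by
  have hν := nu_pos d
  obtain ⟨C, hC, h⟩ := first_var hd hμ S hS hmax 1
  refine ⟨C, hC, fun ψ hψ ε he0 he1 hE hn => ?_⟩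
  have h1 := h (AP ψ) (HP_AP_mem ψ hψ) ((nu d : ℂ) • ψ) ((HP d).smul_mem _ hψ) ε he0 he1 hE
    (by rw [SV.En_smul_nu ψ hν.ne', ← hE]; exact X2_le hν hμ ψ) hn
  have e1 : EB μ (AP ψ) ((nu d : ℂ) • ψ) = Lev μ (xl d) (AP ψ) := by
    rw [Lev_x hν hμ, EB_eq, SV.AP_smul, Alg.ip_smul_right, Alg.ip_self, ← ofReal_mul, ofReal_re,
      ← mul_assoc, inv_mul_cancel₀ hν.ne', one_mul]
  have e2 : (∫ x, ((‖ev (AP ψ) x‖ ^ (pe d - 2) : ℝ) : ℂ) *
      (conj (ev (AP ψ) x) * ev ((nu d : ℂ) • ψ) x) ∂μ).re = Zq μ ψ := by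
    unfold Zq
    simp only [SV.ev_smul]
  rwa [e1, e2] at h1

/-- from the functional inequality with costs to near maximisers -/
theorem nearLB_of_GC [Fact (2 ≤ d)] (hd : 3 ≤ d) (hμ : Law μ) {S : ℝ} (hS : 1 ≤ S)
    (hmax : Adm μ S) {l1 l2 c a : ℝ} {k : ℕ → ℝ} (hc : 0 ≤ c) (hG : FuncGC μ l1 l2 c a k) :
    NearLB μ S l1 l2 (fun l => c + a * xl d l - k l) := by
  have hν := nu_pos d
  intro τ hτ
  obtain ⟨C, hC, h⟩ := first_var_H hd hμ S hS hmax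
  set T := τ / (c + |a| * C + 1) with hT
  have hT0 : 0 < T := by positivity
  set ε := min 1 (min T (T ^ 2)) with hε
  have hε0 : 0 < ε := by positivity
  have he1 : ε ≤ 1 := min_le_left _ _
  have he2 : ε ≤ T := (min_le_right _ _).trans (min_le_left _ _)
  have he3 : ε ≤ T ^ 2 := (min_le_right _ _).trans (min_le_right _ _)
  refine ⟨ε, hε0, fun ψ hψ hE hn => ?_⟩
  have h1 := h ψ hψ ε hε0 he1 hE hn
  have h2 : ε ^ (1 / 2 : ℝ) ≤ T := by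
    rw [← Real.sqrt_eq_rpow]
    exact Real.sqrt_le_iff.2 ⟨hT0.le, he3⟩
  have h3 := hG S hS hmax ψ hψ hE
  have h4 : Lev μ (fun l => c + a * xl d l - k l) (AP ψ)
      = c + a * Lev μ (xl d) (AP ψ) - Lev μ k (AP ψ) := by
    have e1 : Lev μ (fun l => c + a * xl d l - k l) (AP ψ) + Lev μ k (AP ψ) =
        c * Lev μ (fun _ => 1) (AP ψ) + a * Lev μ (xl d) (AP ψ) := by
      rw [← Lev_smul, ← Lev_smul, ← Lev_add, ← Lev_add]
      congr 1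
      funext l
      ring
    rw [Lev_one hμ, hE] at e1
    linarith
  have h5 : |a * (Zq μ ψ - S * Lev μ (xl d) (AP ψ))| ≤ |a| * (C * T) := by
    rw [abs_mul]
    exact mul_le_mul_of_nonneg_left (h1.trans (mul_le_mul_of_nonneg_left h2 hC)) (abs_nonneg _)
  have h6 := (abs_le.1 h5).1
  have h7 : c * (S - ε) ≤ c * Ip μ (AP ψ) := mul_le_mul_of_nonneg_left hn hc
  have h8 : c * ε ≤ c * T := mul_le_mul_of_nonneg_left he2 hc
  have h9 : c * T + |a| * (C * T) ≤ τ := by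
    have : c * T + |a| * (C * T) = (c + |a| * C) * T := by ring
    rw [this, hT, mul_div_assoc', div_le_iff₀ (by positivity)]
    nlinarith
  rw [h4]
  have h10 : S * (c + a * Lev μ (xl d) (AP ψ) - Lev μ k (AP ψ)) =
      c * S + a * (S * Lev μ (xl d) (AP ψ)) - S * Lev μ k (AP ψ) := by ring
  rw [h10]
  linarith [mul_sub a (Zq μ ψ) (S * Lev μ (xl d) (AP ψ)), mul_sub c S ε]

/-- from (G) to the form with costs -/
theorem GC_of_G [Fact (2 ≤ d)] {l1 l2 c : ℝ} (hG : FuncG μ l1 l2 c) :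
    FuncGC μ l1 l2 c (1 + l2 - c) (fun _ => 0) := by
  intro S _ _ ψ hψ _
  have h1 := hG ψ hψ
  have h2 : Lev μ (fun _ => 0) (AP ψ) = 0 := by
    unfold Lev
    simp
  rw [h2]
  linarith

end FING

/-- the sharp inequality for harmonic polynomials from a lower bound at near maximisers, in the
form used in dimension five: `ρ` bounds the squared overlap of near maximisers with the constants -/
theorem poly_of_near' [Fact (2 ≤ d)] (hd : 3 ≤ d) (hμ : Law μ)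
    (hfin : ∃ C : ℝ, ∀ P ∈ HP d, Ip μ P ≤ C * En μ P ^ (pe d / 2))
    (hcent : ∀ P ∈ HP d, En μ P = 1 → ∀ ε > 0, ∃ Q ∈ HP d, En μ Q = 1 ∧ Ip μ P - ε ≤ Ip μ Q ∧
      ∀ j, ‖∫ x, x j * ((‖ev Q x‖ ^ pe d : ℝ) : ℂ) ∂μ‖ ≤ ε)
    {l1 l2 : ℝ} (hl1 : 0 ≤ l1) (hl2 : 0 ≤ l2) {m : ℕ → ℝ} {α β : ℝ} (hαβ : 0 ≤ α + β)
    (hm0 : 1 + l2 - α ≤ m 0)
    (hm : ∀ l, 1 ≤ l → (1 - (pe d - 2) + l1) + ((pe d - 2) - l1 + l2) * xl d l ^ 2 + β ≤ m l)
    (hr : ∀ S : ℝ, 1 < S → Adm μ S → ∃ ρ : ℝ, (α + β) * ρ < β ∧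
      ∃ ε₀ > 0, ∀ F ∈ HP d, En μ F = 1 → S - ε₀ ≤ Ip μ F → ‖ev F 0‖ ^ 2 ≤ ρ)
    (hLB : ∀ S : ℝ, 1 < S → Adm μ S → NearLB μ S l1 l2 m)
    (P : Poly d) (h : P ∈ HP d) : Ip μ P ≤ En μ P ^ (pe d / 2) := by
  have hp := hμ.prob
  have hν := nu_pos d
  obtain ⟨C, hCC⟩ := hfin
  set T : Set ℝ := {t | ∃ P ∈ HP d, En μ P = 1 ∧ Ip μ P = t} with hT
  have h1T : (1 : ℝ) ∈ T := by
    refine ⟨1, FING.one_mem, (EB_one hν hμ 1).2, ?_⟩
    unfold Ip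
    simp [FING.ev_one]
  have hbdd : BddAbove T := by
    refine ⟨C, ?_⟩
    rintro t ⟨P, hP, hE, rfl⟩
    have := hCC P hP
    rwa [hE, Real.one_rpow, mul_one] at this
  set S := sSup T with hS
  have hS1 : 1 ≤ S := le_csSup hbdd h1T
  have hle : ∀ P ∈ HP d, En μ P = 1 → Ip μ P ≤ S := fun P hP hE =>
    le_csSup hbdd ⟨P, hP, hE, rfl⟩
  have hmax : Adm μ S := fun P hP => FING.scale hμ ⟨C, hCC⟩ hle P hP
  have hS1' : S ≤ 1 := by
    by_contra hcon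
    push Not at hcon
    obtain ⟨ρ, hρ, hr'⟩ := hr S hcon hmax
    refine FING.no_gap hd hμ hcent hcon hmax (fun ε hε => ?_) hl1 hl2 hαβ hm0 hm hρ hr'
      (hLB S hcon hmax)
    obtain ⟨t, ⟨P, hP, hE, rfl⟩, ht⟩ := exists_lt_of_lt_csSup ⟨1, h1T⟩
      (show S - ε < sSup T by linarith)
    exact ⟨P, hP, hE, ht.le⟩
  have h2 := FING.scale hμ ⟨C, hCC⟩ (fun P hP hE => (hle P hP hE).trans hS1') P h
  rwa [one_mul] at h2

/-- the sharp inequality for harmonic polynomials from a lower bound at near maximisers, no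
restriction of the frame -/
theorem poly_of_near [Fact (2 ≤ d)] (hd : 3 ≤ d) (hμ : Law μ)
    (hfin : ∃ C : ℝ, ∀ P ∈ HP d, Ip μ P ≤ C * En μ P ^ (pe d / 2))
    (hcent : ∀ P ∈ HP d, En μ P = 1 → ∀ ε > 0, ∃ Q ∈ HP d, En μ Q = 1 ∧ Ip μ P - ε ≤ Ip μ Q ∧
      ∀ j, ‖∫ x, x j * ((‖ev Q x‖ ^ pe d : ℝ) : ℂ) ∂μ‖ ≤ ε)
    {l1 l2 : ℝ} (hl1 : 0 ≤ l1) (hl2 : 0 ≤ l2) {m : ℕ → ℝ} {δ : ℝ} (hδ : 0 < δ)
    (hm : ∀ l, (1 - (pe d - 2) + l1) + ((pe d - 2) - l1 + l2) * xl d l ^ 2 +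
      δ * (1 - xl d l) ≤ m l)
    (hLB : ∀ S : ℝ, 1 < S → Adm μ S → NearLB μ S l1 l2 m)
    (P : Poly d) (h : P ∈ HP d) : Ip μ P ≤ En μ P ^ (pe d / 2) := by
  have hν := nu_pos d
  have hβ : 0 < δ * (nu d + 1)⁻¹ := by positivity
  refine poly_of_near' hd hμ hfin hcent hl1 hl2 (α := 0) (β := δ * (nu d + 1)⁻¹)
    (by linarith) ?_ (fun l hl => ?_) (fun S hS hmax => ?_) hLB P h
  · have := hm 0
    rw [FING.xl_zero hν] at this
    linarith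
  · have h1 := hm l
    have h2 : δ * (nu d + 1)⁻¹ ≤ δ * (1 - xl d l) :=
      mul_le_mul_of_nonneg_left (FING.xl_le hν hl) hδ.le
    linarith
  · obtain ⟨η, hη, δ', hδ', h3⟩ := FING.near_one hμ hS hmax
    refine ⟨(1 - min η 1) ^ 2, ?_, δ', hδ', fun F hF hE hn => ?_⟩
    · have h4 : 0 < min η 1 := lt_min hη one_pos
      have h5 : min η 1 ≤ 1 := min_le_right _ _
      have h6 : (1 - min η 1) ^ 2 < 1 := by nlinarith
      rw [zero_add]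
      nlinarith
    · have h4 := h3 F hF hE hn
      have h6 : ‖ev F 0‖ ≤ 1 - min η 1 := by
        rcases le_total η 1 with h | h
        · rw [min_eq_left h]; exact h4
        · rw [min_eq_right h]; linarith
      exact pow_le_pow_left₀ (norm_nonneg _) h6 2

/-- from near maximisers to `Sharp d` -/
theorem sharp_of_near [Fact (2 ≤ d)] (hd : 3 ≤ d) {l1 l2 : ℝ} (hl1 : 0 ≤ l1) (hl2 : 0 ≤ l2)
    {m : ℕ → ℝ} {δ : ℝ} (hδ : 0 < δ)
    (hm : ∀ l, (1 - (pe d - 2) + l1) + ((pe d - 2) - l1 + l2) * xl d l ^ 2 +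
      δ * (1 - xl d l) ≤ m l)
    (hLB : ∀ S : ℝ, 1 < S → Adm (muX d) S → NearLB (muX d) S l1 l2 m) : Sharp d :=
  sharp_of_poly fun P hP => poly_of_near hd law_muX conf_fin conf_cent hl1 hl2 hδ hm hLB P hP

/-- from the functional inequality with costs to `Sharp d` -/
theorem sharp_of_GC [Fact (2 ≤ d)] (hd : 3 ≤ d) {l1 l2 c a : ℝ} {k : ℕ → ℝ} (hl1 : 0 ≤ l1)
    (hl2 : 0 ≤ l2) (hc : 0 ≤ c) {δ : ℝ} (hδ : 0 < δ)
    (hm : ∀ l, (1 - (pe d - 2) + l1) + ((pe d - 2) - l1 + l2) * xl d l ^ 2 +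
      δ * (1 - xl d l) + k l ≤ c + a * xl d l)
    (hG : FuncGC (muX d) l1 l2 c a k) : Sharp d := by
  refine sharp_of_near hd hl1 hl2 hδ (m := fun l => c + a * xl d l - k l) (fun l => ?_)
    fun S hS hmax => FING.nearLB_of_GC hd law_muX hS.le hmax hc hG
  have := hm l
  linarith

/-- from the functional inequality (G) to `Sharp d` -/
theorem sharp_of_G [Fact (2 ≤ d)] (hd : 3 ≤ d) {l1 l2 c : ℝ} (hl1 : 0 ≤ l1) (hl2 : 0 ≤ l2)
    (hc : 0 ≤ c) (hB : l1 ≤ (pe d - 2) + l2) (hcl : 1 - (pe d - 2) + l1 < c)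
    (hG : FuncG (muX d) l1 l2 c) : Sharp d := by
  have hν := nu_pos d
  refine sharp_of_GC hd hl1 hl2 hc (k := fun _ => 0) (a := 1 + l2 - c)
    (δ := c - (1 - (pe d - 2) + l1)) (by linarith) (fun l => ?_) (FING.GC_of_G hG)
  have h0 := FING.xl_pos hν l
  have h1 := FING.xl_le_one hν l
  have h2 : ((pe d - 2) - l1 + l2) * xl d l ^ 2 ≤ ((pe d - 2) - l1 + l2) * xl d l :=
    mul_le_mul_of_nonneg_left (by nlinarith) (by linarith)
  nlinarith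

end Pool.Agent.ConeG
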