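import Pool.Agent.Work.MP_b0b133_an.G.SV
import Pool.Agent.Work.MP_b0b133_an.G.Glue

/-!
# The end game in dimension `d`, abstract form

Near maximisers of a constant `S > 1` do not exist, if the second variation `(I) + l1 (I_rot) +
l2 (I_ph)` is contradicted by a lower bound which is an energy average over the levels.
-/

set_option autoImplicit false
open MeasureTheory Complex
open scoped ENNReal ComplexConjugate

namespace Pool.Agent.ConeG

variable {d : ℕ} {μ : Measure (CC d)}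

/-- `∫ |F|^q |v|²` -/
noncomputable def Vq (μ : Measure (CC d)) (ψ : Poly d) : ℝ :=
  ∫ x, ‖ev (AP ψ) x‖ ^ (pe d - 2) * (1 / 2 * ∑ i, ∑ j, ‖ev (LP i j ψ) x‖ ^ 2) ∂μ

/-- `∫ |F|^q |v_r|²`, `v_r` the component parallel to `F` -/
noncomputable def Vr (μ : Measure (CC d)) (ψ : Poly d) : ℝ :=
  ∫ x, ‖ev (AP ψ) x‖ ^ (pe d - 2 - 2) *
    (1 / 2 * ∑ i, ∑ j, ((conj (ev (AP ψ) x) * ev (LP i j ψ) x).re) ^ 2) ∂μ

/-- `∫ |F|^q |H|²` -/
noncomputable def Hq (μ : Measure (CC d)) (ψ : Poly d) : ℝ :=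
  ∫ x, ‖ev (AP ψ) x‖ ^ (pe d - 2) * ‖(nu d : ℂ) * ev ψ x‖ ^ 2 ∂μ

/-- `∫ |F|^q |H_i|²`, `H_i` the component orthogonal to `F` -/
noncomputable def Hi (μ : Measure (CC d)) (ψ : Poly d) : ℝ :=
  ∫ x, ‖ev (AP ψ) x‖ ^ (pe d - 2 - 2) *
    ((conj (ev (AP ψ) x) * ((nu d : ℂ) * ev ψ x)).im) ^ 2 ∂μ

/-- `(1 + l1) ∫ |F|^q |v|² + l1 q ∫ |F|^q v_r² + (1 + l2) ∫ |F|^q |H|² + l2 q ∫ |F|^q H_i²` -/
noncomputable def DG (μ : Measure (CC d)) (l1 l2 : ℝ) (ψ : Poly d) : ℝ :=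
  (1 + l1) * Vq μ ψ + l1 * (pe d - 2) * Vr μ ψ + (1 + l2) * Hq μ ψ + l2 * (pe d - 2) * Hi μ ψ

/-- `Re ∫ |F|^q conj F H` -/
noncomputable def Zq (μ : Measure (CC d)) (ψ : Poly d) : ℝ :=
  (∫ x, ((‖ev (AP ψ) x‖ ^ (pe d - 2) : ℝ) : ℂ) *
    (conj (ev (AP ψ) x) * ((nu d : ℂ) * ev ψ x)) ∂μ).re

/-- the energy average of a function `m` of the level -/
noncomputable def Lev (μ : Measure (CC d)) (m : ℕ → ℝ) (P : Poly d) : ℝ :=
  ∑ l ∈ Finset.range (P.totalDegree + 1), (nu d)⁻¹ * ((l : ℝ) + nu d) * m l * Alg.lv μ P l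

/-- `x_l = ν / (l + ν)` -/
noncomputable def xl (d : ℕ) (l : ℕ) : ℝ := nu d / ((l : ℝ) + nu d)

namespace FING

/-! ### Levels -/

theorem lv_eq_zero (P : Poly d) {l : ℕ} (hl : P.totalDegree < l) : Alg.lv μ P l = 0 := by
  unfold Alg.lv
  have : Alg.hc l P = 0 := MvPolynomial.homogeneousComponent_eq_zero l P hl
  rw [this]
  simp [ev]

theorem Lev_eq (m : ℕ → ℝ) (P : Poly d) (n : ℕ) (hn : P.totalDegree < n) :
    Lev μ m P = ∑ l ∈ Finset.range n, (nu d)⁻¹ * ((l : ℝ) + nu d) * m l * Alg.lv μ P l := by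
  unfold Lev
  refine Finset.sum_subset (Finset.range_mono (by omega)) fun l _ hl => ?_
  rw [Finset.mem_range, not_lt] at hl
  rw [lv_eq_zero P (by omega), mul_zero]

theorem Lev_mono (hd : 0 < nu d) {m m' : ℕ → ℝ} (h : ∀ l, m l ≤ m' l) (P : Poly d) :
    Lev μ m P ≤ Lev μ m' P := by
  refine Finset.sum_le_sum fun l _ => mul_le_mul_of_nonneg_right ?_ (Alg.lv_nonneg _ _)
  exact mul_le_mul_of_nonneg_left (h l) (by positivity)

theorem Lev_add (m m' : ℕ → ℝ) (P : Poly d) :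
    Lev μ (fun l => m l + m' l) P = Lev μ m P + Lev μ m' P := by
  unfold Lev
  rw [← Finset.sum_add_distrib]
  exact Finset.sum_congr rfl fun l _ => by ring

theorem Lev_smul (c : ℝ) (m : ℕ → ℝ) (P : Poly d) :
    Lev μ (fun l => c * m l) P = c * Lev μ m P := by
  unfold Lev
  rw [Finset.mul_sum]
  exact Finset.sum_congr rfl fun l _ => by ring

theorem Lev_one (hμ : Law μ) (P : Poly d) : Lev μ (fun _ => 1) P = En μ P := by
  rw [Alg.En_eq hμ P (P.totalDegree + (AP P).totalDegree + 1) (by omega) (by omega),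
    Lev_eq _ P (P.totalDegree + (AP P).totalDegree + 1) (by omega)]
  exact Finset.sum_congr rfl fun l _ => by ring

theorem Lev_x (hd : 0 < nu d) (hμ : Law μ) (P : Poly d) :
    Lev μ (xl d) P = ∫ x, ‖ev P x‖ ^ 2 ∂μ := by
  rw [Alg.int_norm_sq hμ P (P.totalDegree + 1) (by omega), Lev]
  refine Finset.sum_congr rfl fun l _ => ?_
  have h1 : (l : ℝ) + nu d ≠ 0 := by positivity
  unfold xl
  field_simp

theorem Lev_x2 (hd : 0 < nu d) (hμ : Law μ) (ψ : Poly d) :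
    Lev μ (fun l => xl d l ^ 2) (AP ψ) = X2 μ ψ := by
  set n := ψ.totalDegree + (AP ψ).totalDegree + 1 with hn
  rw [Alg.X2_eq hd hμ ψ n (by omega) (by omega), Lev_eq _ _ n (by omega)]
  refine Finset.sum_congr rfl fun l _ => ?_
  have h1 : (l : ℝ) + nu d ≠ 0 := by positivity
  unfold xl
  field_simp

/-- level zero against the rest -/
theorem Lev_split (hd : 0 < nu d) (hμ : Law μ) {m : ℕ → ℝ} {α β : ℝ} (h0 : -α ≤ m 0)
    (h1 : ∀ l, 1 ≤ l → β ≤ m l) (P : Poly d) :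
    -α * ‖ev P 0‖ ^ 2 + β * (En μ P - ‖ev P 0‖ ^ 2) ≤ Lev μ m P := by
  rw [← Lev_one hμ P, ← Alg.lv_zero hμ P]
  unfold Lev
  rw [Finset.sum_range_succ', Finset.sum_range_succ']
  have e0 : (nu d)⁻¹ * (((0 : ℕ) : ℝ) + nu d) = 1 := by
    rw [Nat.cast_zero, zero_add, inv_mul_cancel₀ hd.ne']
  rw [e0, one_mul, one_mul, one_mul, add_sub_cancel_right, Finset.mul_sum, add_comm (_ * _)]
  refine add_le_add (Finset.sum_le_sum fun l _ => ?_)
    (mul_le_mul_of_nonneg_right h0 (Alg.lv_nonneg _ _))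
  rw [mul_one, ← mul_assoc]
  refine mul_le_mul_of_nonneg_right ?_ (Alg.lv_nonneg _ _)
  rw [mul_comm β]
  exact mul_le_mul_of_nonneg_left (h1 _ (by omega)) (by positivity)

theorem xl_zero (hd : 0 < nu d) : xl d 0 = 1 := by
  unfold xl
  rw [Nat.cast_zero, zero_add, div_self hd.ne']

theorem xl_pos (hd : 0 < nu d) (l : ℕ) : 0 < xl d l := by
  unfold xl
  positivity

theorem xl_le_one (hd : 0 < nu d) (l : ℕ) : xl d l ≤ 1 := by
  unfold xl
  rw [div_le_one (by positivity)]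
  linarith [Nat.cast_nonneg (α := ℝ) l]

theorem xl_le (hd : 0 < nu d) {l : ℕ} (hl : 1 ≤ l) : (nu d + 1)⁻¹ ≤ 1 - xl d l := by
  have h1 : (1 : ℝ) ≤ l := by exact_mod_cast hl
  unfold xl
  have h2 : 1 - nu d / ((l : ℝ) + nu d) = l / ((l : ℝ) + nu d) := by field_simp; ring
  rw [h2, inv_eq_one_div, div_le_div_iff₀ (by positivity) (by positivity)]
  nlinarith

/-! ### Homogeneity -/

theorem Ip_smul [Fact (2 ≤ d)] (c : ℂ) (P : Poly d) : Ip μ (c • P) = ‖c‖ ^ pe d * Ip μ P := by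
  unfold Ip
  rw [← integral_const_mul]
  refine integral_congr_ae (Filter.Eventually.of_forall fun x => ?_)
  change ‖ev (c • P) x‖ ^ pe d = ‖c‖ ^ pe d * ‖ev P x‖ ^ pe d
  rw [SV.ev_smul, norm_mul, Real.mul_rpow (norm_nonneg _) (norm_nonneg _)]

theorem En_smul (c : ℂ) (P : Poly d) : En μ (c • P) = ‖c‖ ^ 2 * En μ P := by
  rw [En, En, EB_eq, EB_eq, SV.AP_smul, Alg.ip_smul_right, Alg.ip_smul_left, ← mul_assoc,
    mul_conj', ← ofReal_pow, re_ofReal_mul]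
  ring

theorem one_mem : (1 : Poly d) ∈ HP d := by
  change ∑ j, MvPolynomial.pderiv j (MvPolynomial.pderiv j (1 : Poly d)) = 0
  simp

theorem ev_one (x : CC d) : ev (1 : Poly d) x = 1 := by simp [ev]

theorem EB_const [Fact (2 ≤ d)] (hμ : Law μ) (P : Poly d) (c : ℂ) :
    EB μ P (c • 1) = (conj (ev P 0) * c).re := by
  have e1 : AP (1 : Poly d) = (nu d : ℂ) • 1 := by
    rw [AP, Alg.NP_of_hom (MvPolynomial.isHomogeneous_one _ _)]
    simp
  have e2 : Alg.ip μ P 1 = conj (ev P 0) := by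
    rw [← Alg.int_ev hμ P, ← integral_conj]
    unfold Alg.ip
    refine integral_congr_ae (Filter.Eventually.of_forall fun x => ?_)
    change conj (ev P x) * ev 1 x = conj (ev P x)
    rw [ev_one, mul_one]
  rw [EB_eq, SV.AP_smul, Alg.ip_smul_right, e1, Alg.ip_smul_right, e2, mul_left_comm,
    re_ofReal_mul, ← mul_assoc, inv_mul_cancel₀ (nu_pos d).ne', one_mul, mul_comm]

theorem En_const [Fact (2 ≤ d)] (hμ : Law μ) (c : ℂ) : En μ (c • (1 : Poly d)) = ‖c‖ ^ 2 := by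
  rw [En_smul, (EB_one (nu_pos d) hμ 1).2, mul_one]

theorem En_add (hμ : Law μ) (P Q : Poly d) :
    En μ (P + Q) = En μ P + 2 * EB μ P Q + En μ Q := by
  rw [En, SV.EB_add_right hμ, SV.EB_add_left hμ, SV.EB_add_left hμ, EB_comm hμ Q P, En, En]
  ring

/-- `r² ≤ E` -/
theorem r_le (hd : 0 < nu d) (hμ : Law μ) (P : Poly d) : ‖ev P 0‖ ^ 2 ≤ En μ P := by
  have h := Lev_split hd hμ (m := fun _ => 1) (α := -1) (β := 0) (by norm_num)
    (fun _ _ => by norm_num) P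
  rw [Lev_one hμ] at h
  linarith

theorem pow_split {p : ℝ} (hp : 1 ≤ p) {a b t : ℝ} (ha : 0 ≤ a) (hb : 0 ≤ b) (h0 : 0 < t)
    (h1 : t < 1) : (a + b) ^ p ≤ t ^ (1 - p) * a ^ p + (1 - t) ^ (1 - p) * b ^ p := by
  have h2 : 0 < 1 - t := by linarith
  have h := (convexOn_rpow hp).2 (x := a / t) (Set.mem_Ici.2 (by positivity)) (y := b / (1 - t))
    (Set.mem_Ici.2 (by positivity)) h0.le h2.le (by ring)
  simp only [smul_eq_mul] at h
  have e1 : t * (a / t) + (1 - t) * (b / (1 - t)) = a + b := by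
    field_simp
  have e2 : ∀ s c : ℝ, 0 < s → 0 ≤ c → s * (c / s) ^ p = s ^ (1 - p) * c ^ p := by
    intro s c hs hc
    rw [Real.div_rpow hc hs.le, Real.rpow_sub hs, Real.rpow_one]
    ring
  rw [e1, e2 t a h0 ha, e2 (1 - t) b h2 hb] at h
  exact h

theorem integrable_rpow_ev [Fact (2 ≤ d)] (hμ : Law μ) (P : Poly d) :
    Integrable (fun x => ‖ev P x‖ ^ pe d) μ :=
  Alg.integrable hμ ((SV.continuous_ev P).norm.rpow_const fun _ => Or.inr pe_pos.le)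

/-- a near maximiser of a constant `S > 1` is not close to the constants -/
theorem near_one [Fact (2 ≤ d)] (hμ : Law μ) {S : ℝ} (hS : 1 < S)
    (hmax : ∀ P ∈ HP d, Ip μ P ≤ S * En μ P ^ (pe d / 2)) :
    ∃ η > 0, ∃ δ > 0, ∀ Q ∈ HP d, En μ Q = 1 → S - δ ≤ Ip μ Q → ‖ev Q 0‖ ≤ 1 - η := by
  have hp := hμ.prob
  have hd := nu_pos d
  have hpe := pe_gt d
  have hS2 : 1 < (1 + S) / 2 := by linarith
  set t := ((1 + S) / 2) ^ (-(1 / (pe d - 1)) : ℝ) with ht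
  have ht0 : 0 < t := Real.rpow_pos_of_pos (by linarith) _
  have ht1 : t < 1 := by
    refine Real.rpow_lt_one_of_one_lt_of_neg hS2 ?_
    rw [neg_lt_zero]
    apply div_pos one_pos
    linarith
  have ht2 : t ^ (1 - pe d) = (1 + S) / 2 := by
    rw [ht, ← Real.rpow_mul (by linarith)]
    have : -(1 / (pe d - 1)) * (1 - pe d) = 1 := by
      have : pe d - 1 ≠ 0 := by linarith
      field_simp
      ring
    rw [this, Real.rpow_one]
  set L := (1 - t) ^ (1 - pe d) with hL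
  have h1t : 0 < 1 - t := by linarith
  have hL0 : 0 < L := Real.rpow_pos_of_pos h1t _
  set K := L * S with hK
  have hK0 : 0 < K := by positivity
  refine ⟨min (1 / 2) ((S - 1) / (8 * K)), lt_min (by norm_num) (by
    apply div_pos <;> linarith), (S - 1) / 8, by linarith, ?_⟩
  intro Q hQ hE hI
  set η := min (1 / 2) ((S - 1) / (8 * K)) with hη
  have hη0 : 0 < η := lt_min (by norm_num) (div_pos (by linarith) (by linarith))
  have hη1 : η ≤ 1 / 2 := min_le_left _ _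
  have hη2 : K * (2 * η) ≤ (S - 1) / 4 := by
    have : η ≤ (S - 1) / (8 * K) := min_le_right _ _
    calc K * (2 * η) ≤ K * (2 * ((S - 1) / (8 * K))) := by gcongr
      _ = (S - 1) / 4 := by field_simp; ring
  by_contra hcon
  push Not at hcon
  set c := ev Q 0 with hc
  have hc1 : ‖c‖ ^ 2 ≤ 1 := (r_le hd hμ Q).trans hE.le
  have hcn : 0 ≤ ‖c‖ := norm_nonneg c
  have hc2 : ‖c‖ ≤ 1 := by nlinarith
  have hc3 : 1 - ‖c‖ ^ 2 ≤ 2 * η := by nlinarith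
  have hc4 : 0 ≤ 1 - ‖c‖ ^ 2 := by linarith
  -- the remainder
  set g := Q + (-c) • (1 : Poly d) with hg
  have hgm : g ∈ HP d := (HP d).add_mem hQ ((HP d).smul_mem _ one_mem)
  have hgE : En μ g = 1 - ‖c‖ ^ 2 := by
    rw [hg, En_add hμ, EB_const hμ, En_const hμ, hE, norm_neg, ← hc, mul_neg, neg_re,
      mul_comm (conj c) c, mul_conj', ← ofReal_pow, ofReal_re]
    ring
  have hgI : Ip μ g ≤ S * (2 * η) := by
    refine (hmax g hgm).trans ?_
    rw [hgE]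
    have h3 : (1 - ‖c‖ ^ 2) ^ (pe d / 2) ≤ 1 - ‖c‖ ^ 2 := by
      rcases hc4.eq_or_lt with h | h
      · rw [← h, Real.zero_rpow (by linarith)]
      · calc (1 - ‖c‖ ^ 2) ^ (pe d / 2) ≤ (1 - ‖c‖ ^ 2) ^ (1 : ℝ) :=
            Real.rpow_le_rpow_of_exponent_ge h (by linarith [sq_nonneg ‖c‖]) (by linarith)
          _ = _ := Real.rpow_one _
    exact mul_le_mul_of_nonneg_left (h3.trans hc3) (by linarith)
  have hI2 : Ip μ Q ≤ (1 + S) / 2 + L * Ip μ g := by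
    have h5 : ∀ x, ‖ev Q x‖ ^ pe d ≤ (1 + S) / 2 + L * ‖ev g x‖ ^ pe d := by
      intro x
      have e1 : ev Q x = c + ev g x := by
        rw [hg, SV.ev_add, SV.ev_smul, ev_one]
        ring
      have h6 : ‖ev Q x‖ ≤ ‖c‖ + ‖ev g x‖ := by
        rw [e1]
        exact norm_add_le _ _
      have h7 := pow_split (p := pe d) (by linarith) hcn (norm_nonneg (ev g x)) ht0 ht1
      have h8 : ‖ev Q x‖ ^ pe d ≤ (‖c‖ + ‖ev g x‖) ^ pe d :=
        Real.rpow_le_rpow (norm_nonneg _) h6 (by linarith)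
      rw [ht2] at h7
      have h9 : (1 + S) / 2 * ‖c‖ ^ pe d ≤ (1 + S) / 2 := by
        have : ‖c‖ ^ pe d ≤ 1 := Real.rpow_le_one hcn hc2 (by linarith)
        nlinarith
      linarith
    have hi := integrable_rpow_ev hμ g
    calc Ip μ Q ≤ ∫ x, ((1 + S) / 2 + L * ‖ev g x‖ ^ pe d) ∂μ :=
          integral_mono (integrable_rpow_ev hμ Q) ((integrable_const _).add (hi.const_mul _)) h5
      _ = (1 + S) / 2 + L * Ip μ g := by
          rw [integral_add (integrable_const _) (hi.const_mul _), integral_const_mul]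
          simp [Ip]
  have h10 : L * Ip μ g ≤ (S - 1) / 4 := by
    calc L * Ip μ g ≤ L * (S * (2 * η)) := mul_le_mul_of_nonneg_left hgI hL0.le
      _ = K * (2 * η) := by rw [hK]; ring
      _ ≤ _ := hη2
  linarith

/-- scaling: an inequality on the unit sphere of the energy holds everywhere -/
theorem scale [Fact (2 ≤ d)] (hμ : Law μ)
    (hfin : ∃ C : ℝ, ∀ P ∈ HP d, Ip μ P ≤ C * En μ P ^ (pe d / 2)) {S : ℝ}
    (h1 : ∀ P ∈ HP d, En μ P = 1 → Ip μ P ≤ S) (P : Poly d) (hP : P ∈ HP d) :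
    Ip μ P ≤ S * En μ P ^ (pe d / 2) := by
  have hpe := pe_gt d
  have h0 := En_nonneg (nu_pos d).le hμ P
  rcases h0.eq_or_lt with h | h
  · obtain ⟨C, hCC⟩ := hfin
    have := hCC P hP
    rw [← h, Real.zero_rpow (by linarith), mul_zero] at this ⊢
    exact this
  · set e := Real.sqrt (En μ P) with he
    have he0 : 0 < e := Real.sqrt_pos.2 h
    have he2 : e ^ 2 = En μ P := Real.sq_sqrt h0
    have h2 := h1 (((e⁻¹ : ℝ) : ℂ) • P) ((HP d).smul_mem _ hP) (by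
      rw [En_smul, norm_real, Real.norm_eq_abs, sq_abs, ← he2]
      field_simp)
    rw [Ip_smul, norm_real, Real.norm_eq_abs, abs_of_pos (inv_pos.2 he0)] at h2
    have h3 : En μ P ^ (pe d / 2) = e ^ pe d := by
      rw [← he2, ← Real.rpow_natCast, ← Real.rpow_mul he0.le]
      congr 1
      push_cast
      ring
    have h4 : (0 : ℝ) < e ^ pe d := Real.rpow_pos_of_pos he0 _
    rw [Real.inv_rpow he0.le] at h2
    rw [h3, mul_comm]
    rwa [inv_mul_le_iff₀ h4] at h2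

/-! ### The second variations, summed -/

theorem int_split [Fact (2 ≤ d)] (hd : 3 ≤ d) (hμ : Law μ) (F K : Poly d) :
    Integrable (fun x => ‖ev F x‖ ^ (pe d - 2) * ‖ev K x‖ ^ 2) μ ∧
    Integrable (fun x => ‖ev F x‖ ^ (pe d - 2 - 2) * ((conj (ev F x) * ev K x).re) ^ 2) μ := by
  have := hμ.prob
  have hq0 : 0 < pe d - 2 := SV.qq_pos d
  have hq2 : pe d - 2 ≤ 2 := SV.qq_le d hd
  obtain ⟨A, _, hA⟩ := SV.law_bdd hμ F
  obtain ⟨B, _, hB⟩ := SV.law_bdd hμ K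
  have i0 := SV.integrable_qp hq0 hq2 (SV.aem_ev F) (SV.aem_ev K) hA hB
  have i1 : Integrable (fun x => ‖ev F x‖ ^ (pe d - 2) * ‖ev K x‖ ^ 2) μ :=
    Alg.integrable hμ (((SV.continuous_ev F).norm.rpow_const fun _ => Or.inr hq0.le).mul
      ((SV.continuous_ev K).norm.pow 2))
  refine ⟨i1, ?_⟩
  have i2 := (i0.sub i1).const_mul (pe d - 2)⁻¹
  refine i2.congr (Filter.Eventually.of_forall fun x => ?_)
  simp only [SV.qp, Pi.sub_apply, add_sub_cancel_left]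
  rw [← mul_assoc, inv_mul_cancel₀ hq0.ne', one_mul]

/-- `(I) + l1 (I_rot) + l2 (I_ph)` -/
theorem second_var_sum [Fact (2 ≤ d)] (hd : 3 ≤ d) (hμ : Law μ) {l1 l2 : ℝ} (hl1 : 0 ≤ l1)
    (hl2 : 0 ≤ l2) (S : ℝ) (hS : 1 ≤ S)
    (hmax : ∀ P ∈ HP d, Ip μ P ≤ S * En μ P ^ (pe d / 2)) :
    ∃ C : ℝ, 0 ≤ C ∧ ∀ ψ ∈ HP d, ∀ ε : ℝ, 0 < ε → ε ≤ 1 → En μ (AP ψ) = 1 →
      S - ε ≤ Ip μ (AP ψ) →
      (∀ j, ‖∫ x, x j * ((‖ev (AP ψ) x‖ ^ pe d : ℝ) : ℂ) ∂μ‖ ≤ ε) →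
      DG μ l1 l2 ψ ≤ S * ((1 - (pe d - 2) + l1) + ((pe d - 2) - l1 + l2) * X2 μ ψ) +
        C * ε ^ (min (pe d - 2) 1 / 4) := by
  obtain ⟨C0, hC0, h0⟩ := second_var hd hμ S hS hmax
  obtain ⟨C1, hC1, h1⟩ := second_var_rot hd hμ S hS hmax
  obtain ⟨C2, hC2, h2⟩ := second_var_phase hd hμ S hS hmax
  refine ⟨C0 + l1 * C1 + l2 * C2, by positivity, fun ψ hψ ε he0 he1 hE hn hc => ?_⟩
  have g0 := h0 ψ hψ ε he0 he1 hE hn hc
  have g1 := h1 ψ hψ ε he0 he1 hE hn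
  have g2 := h2 ψ hψ ε he0 he1 hE hn
  set T := ε ^ (min (pe d - 2) 1 / 4) with hT
  have iv : ∀ i j, Integrable (fun x => ‖ev (AP ψ) x‖ ^ (pe d - 2) * ‖ev (LP i j ψ) x‖ ^ 2) μ :=
    fun i j => (int_split hd hμ (AP ψ) (LP i j ψ)).1
  have ir : ∀ i j, Integrable (fun x => ‖ev (AP ψ) x‖ ^ (pe d - 2 - 2) *
      ((conj (ev (AP ψ) x) * ev (LP i j ψ) x).re) ^ 2) μ :=
    fun i j => (int_split hd hμ (AP ψ) (LP i j ψ)).2
  have iV : Integrable (fun x => ‖ev (AP ψ) x‖ ^ (pe d - 2) *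
      (1 / 2 * ∑ i, ∑ j, ‖ev (LP i j ψ) x‖ ^ 2)) μ := by
    refine ((integrable_finsetSum Finset.univ fun i _ => integrable_finsetSum Finset.univ
      fun j _ => iv i j).const_mul (1 / 2)).congr (Filter.Eventually.of_forall fun x => ?_)
    simp only [← Finset.mul_sum]
    ring
  have iR : Integrable (fun x => ‖ev (AP ψ) x‖ ^ (pe d - 2 - 2) *
      (1 / 2 * ∑ i, ∑ j, ((conj (ev (AP ψ) x) * ev (LP i j ψ) x).re) ^ 2)) μ := by
    refine ((integrable_finsetSum Finset.univ fun i _ => integrable_finsetSum Finset.univ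
      fun j _ => ir i j).const_mul (1 / 2)).congr (Filter.Eventually.of_forall fun x => ?_)
    simp only [← Finset.mul_sum]
    ring
  have eH : ∀ x, ev ((nu d : ℂ) • ψ) x = (nu d : ℂ) * ev ψ x := fun x => SV.ev_smul _ _ _
  have eI : ∀ x, ev ((I : ℂ) • ((nu d : ℂ) • ψ)) x = I * ((nu d : ℂ) * ev ψ x) := fun x => by
    rw [SV.ev_smul, SV.ev_smul]
  have iH : Integrable (fun x => ‖ev (AP ψ) x‖ ^ (pe d - 2) * ‖(nu d : ℂ) * ev ψ x‖ ^ 2) μ := by
    have := (int_split hd hμ (AP ψ) ((nu d : ℂ) • ψ)).1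
    simpa only [eH] using this
  have iP : Integrable (fun x => ‖ev (AP ψ) x‖ ^ (pe d - 2 - 2) *
      ((conj (ev (AP ψ) x) * ((nu d : ℂ) * ev ψ x)).im) ^ 2) μ := by
    have := (int_split hd hμ (AP ψ) ((I : ℂ) • ((nu d : ℂ) • ψ))).2
    refine this.congr (Filter.Eventually.of_forall fun x => ?_)
    simp only [eI]
    rw [show conj (ev (AP ψ) x) * (I * ((nu d : ℂ) * ev ψ x))
      = I * (conj (ev (AP ψ) x) * ((nu d : ℂ) * ev ψ x)) by ring, Complex.I_mul_re, neg_sq]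
  have e0 : ∫ x, ‖ev (AP ψ) x‖ ^ (pe d - 2) * G2 ψ x ∂μ = Hq μ ψ + Vq μ ψ := by
    unfold Hq Vq
    rw [← integral_add iH iV]
    refine integral_congr_ae (Filter.Eventually.of_forall fun x => ?_)
    simp only [G2]
    ring
  have e1 : ∫ x, (‖ev (AP ψ) x‖ ^ (pe d - 2) * (1 / 2 * ∑ i, ∑ j, ‖ev (LP i j ψ) x‖ ^ 2) +
        (pe d - 2) * (‖ev (AP ψ) x‖ ^ (pe d - 2 - 2) *
          (1 / 2 * ∑ i, ∑ j, ((conj (ev (AP ψ) x) * ev (LP i j ψ) x).re) ^ 2))) ∂μ =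
      Vq μ ψ + (pe d - 2) * Vr μ ψ := by
    unfold Vr Vq
    rw [← integral_const_mul, ← integral_add iV (iR.const_mul _)]
  have e2 : ∫ x, (‖ev (AP ψ) x‖ ^ (pe d - 2) * ‖(nu d : ℂ) * ev ψ x‖ ^ 2 +
        (pe d - 2) * (‖ev (AP ψ) x‖ ^ (pe d - 2 - 2) *
          ((conj (ev (AP ψ) x) * ((nu d : ℂ) * ev ψ x)).im) ^ 2)) ∂μ =
      Hq μ ψ + (pe d - 2) * Hi μ ψ := by
    unfold Hi Hq
    rw [← integral_const_mul, ← integral_add iH (iP.const_mul _)]
  rw [e0] at g0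
  rw [e1] at g1
  rw [e2] at g2
  have g1' := mul_le_mul_of_nonneg_left g1 hl1
  have g2' := mul_le_mul_of_nonneg_left g2 hl2
  unfold DG
  nlinarith [g0, g1', g2']

end FING

end Pool.Agent.ConeG
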