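import Pool.Agent.Work.MP_b0b133_an.G.Alg2

/-!
# Flows on the polynomial world
-/

set_option autoImplicit false
open MeasureTheory Complex
open scoped ENNReal ComplexConjugate

namespace Pool.Agent.ConeG.FI

open MvPolynomial (pderiv)
open Alg (NP_add NP_smul NP_mul NP_X pderiv_NP pderiv_X' pderiv_pderiv_comm C_two C_four ev_add
  ev_smul cast_dim)

variable {d : ℕ}

/-! ### Algebra of the rotation fields -/

theorem LP_AP (i j : Fin (d + 1)) (P : Poly d) : LP i j (AP P) = AP (LP i j P) := by
  unfold LP AP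
  simp only [map_add, Derivation.map_smul, pderiv_NP]
  have h : NP (MvPolynomial.X i * pderiv j P - MvPolynomial.X j * pderiv i P) =
      MvPolynomial.X i * pderiv j P + MvPolynomial.X i * NP (pderiv j P)
        - (MvPolynomial.X j * pderiv i P + MvPolynomial.X j * NP (pderiv i P)) := by
    have e : MvPolynomial.X i * pderiv j P - MvPolynomial.X j * pderiv i P =
        MvPolynomial.X i * pderiv j P + (-1 : ℂ) • (MvPolynomial.X j * pderiv i P) := by
      rw [neg_smul, one_smul]; ring
    rw [e, NP_add, NP_smul, NP_mul, NP_mul, NP_X, NP_X, neg_smul, one_smul]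
    ring
  rw [h]
  simp only [mul_add, mul_smul_comm, smul_sub]
  ring

theorem LP_LP_aux (i j : Fin (d + 1)) (P : Poly d) : MvPolynomial.X i * pderiv j (LP i j P) =
    (if i = j then MvPolynomial.X i * pderiv j P else 0)
      + MvPolynomial.X i ^ 2 * pderiv j (pderiv j P) - MvPolynomial.X i * pderiv i P
      - MvPolynomial.X i * (MvPolynomial.X j * pderiv j (pderiv i P)) := by
  unfold LP
  rw [map_sub, Derivation.leibniz, Derivation.leibniz, pderiv_X', pderiv_X', if_pos rfl]
  simp only [smul_eq_mul]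
  rcases eq_or_ne i j with rfl | h
  · simp only [if_true]; ring
  · rw [if_neg h, if_neg h.symm]; ring

theorem NP_NP (P : Poly d) : NP (NP P) = NP P +
    ∑ i, ∑ j, MvPolynomial.X i * (MvPolynomial.X j * pderiv j (pderiv i P)) := by
  have h0 : ∀ Q : Poly d, NP Q = ∑ j, MvPolynomial.X j * pderiv j Q := fun Q => rfl
  have h1 : ∀ j : Fin (d + 1), MvPolynomial.X j * pderiv j (NP P) =
      MvPolynomial.X j * pderiv j P
        + ∑ i, MvPolynomial.X i * (MvPolynomial.X j * pderiv j (pderiv i P)) := fun j => by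
    rw [pderiv_NP, mul_add, add_comm (MvPolynomial.X j * NP (pderiv j P)), h0 (pderiv j P),
      Finset.mul_sum]
    refine congrArg₂ (· + ·) rfl (Finset.sum_congr rfl fun i _ => ?_)
    rw [pderiv_pderiv_comm i j]
    exact mul_left_comm _ _ _
  calc NP (NP P) = ∑ j, MvPolynomial.X j * pderiv j (NP P) := h0 _
    _ = ∑ j, (MvPolynomial.X j * pderiv j P
        + ∑ i, MvPolynomial.X i * (MvPolynomial.X j * pderiv j (pderiv i P))) :=
          Finset.sum_congr rfl fun j _ => h1 j
    _ = NP P + ∑ j, ∑ i, MvPolynomial.X i * (MvPolynomial.X j * pderiv j (pderiv i P)) := by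
          rw [Finset.sum_add_distrib, ← h0]
    _ = _ := congrArg (fun Q => NP P + Q) Finset.sum_comm

theorem sum_LP_LP {P : Poly d} (h : P ∈ HP d) :
    ∑ i, ∑ j, LP i j (LP i j P) = (2 : ℂ) • ((nu d : ℂ) ^ 2 • P - AP (AP P)) := by
  have hanti : ∀ i j : Fin (d + 1), ∀ Q : Poly d, LP j i Q = - LP i j Q := fun i j Q => by
    unfold LP; ring
  have h1 : ∀ i j : Fin (d + 1), LP i j (LP i j P) = MvPolynomial.X i * pderiv j (LP i j P)
      + MvPolynomial.X j * pderiv i (LP j i P) := fun i j => by
    rw [hanti i j P, map_neg]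
    conv_lhs => rw [LP]
    ring
  have h2 : ∑ i : Fin (d + 1), ∑ j, LP i j (LP i j P) =
      (2 : ℂ) • ∑ i : Fin (d + 1), ∑ j, MvPolynomial.X i * pderiv j (LP i j P) := by
    have hs : ∑ i : Fin (d + 1), ∑ j : Fin (d + 1), MvPolynomial.X j * pderiv i (LP j i P) =
      ∑ i : Fin (d + 1), ∑ j : Fin (d + 1), MvPolynomial.X i * pderiv j (LP i j P) := Finset.sum_comm
    simp only [h1, Finset.sum_add_distrib]
    rw [hs, two_smul]
  rw [h2]
  congr 1
  have h3 : ∀ i j : Fin (d + 1), MvPolynomial.X i * pderiv j (LP i j P) =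
    (if i = j then MvPolynomial.X i * pderiv j P else 0)
      + MvPolynomial.X i ^ 2 * pderiv j (pderiv j P) - MvPolynomial.X i * pderiv i P
      - MvPolynomial.X i * (MvPolynomial.X j * pderiv j (pderiv i P)) := fun i j => LP_LP_aux i j P
  simp only [h3, Finset.sum_add_distrib, Finset.sum_sub_distrib]
  have h4 : ∑ i : Fin (d + 1), ∑ j : Fin (d + 1), (MvPolynomial.X i : Poly d) ^ 2 *
      pderiv j (pderiv j P) = 0 := by
    have : ∀ i : Fin (d + 1), ∑ j : Fin (d + 1), (MvPolynomial.X i : Poly d) ^ 2 *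
        pderiv j (pderiv j P) = 0 :=
      fun i => by
        rw [← Finset.mul_sum]
        have h5 : ∑ j : Fin (d + 1), pderiv j (pderiv j P) = 0 := h
        rw [h5, mul_zero]
    simp [this]
  have h5 : ∑ i : Fin (d + 1), ∑ j : Fin (d + 1), (if i = j then MvPolynomial.X i * pderiv j P else 0) =
      NP P := by
    unfold NP
    refine Finset.sum_congr rfl fun i _ => ?_
    simp
  have h6 : ∑ i : Fin (d + 1), ∑ _j : Fin (d + 1), (MvPolynomial.X i * pderiv i P : Poly d) =
      ((d + 1 : ℕ) : Poly d) * NP P := by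
    unfold NP
    rw [Finset.mul_sum]
    refine Finset.sum_congr rfl fun i _ => ?_
    rw [Finset.sum_const, Finset.card_univ, Fintype.card_fin, nsmul_eq_mul]
  have h9 : ((d + 1 : ℕ) : Poly d) = 2 * MvPolynomial.C (nu d : ℂ) + 2 := by
    have e : ((d + 1 : ℕ) : Poly d) = MvPolynomial.C (((d + 1 : ℕ) : ℂ)) :=
      (map_natCast MvPolynomial.C (d + 1)).symm
    rw [e, cast_dim, map_add, map_mul, C_two]
  have h7 := NP_NP P
  have h8 : ∑ i : Fin (d + 1), ∑ j : Fin (d + 1),
      MvPolynomial.X i * (MvPolynomial.X j * pderiv j (pderiv i P)) = NP (NP P) - NP P := by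
    rw [h7]; ring
  rw [h4, h5, h6, h8, h9]
  unfold AP
  rw [NP_add, NP_smul]
  simp only [MvPolynomial.smul_eq_C_mul, smul_add, map_pow]
  ring

/-! ### Flows -/

theorem ev_deriv {c : ℝ → CC d} {c' : CC d} {t : ℝ} (hc : ∀ k, HasDerivAt (fun s => c s k) (c' k) t)
    (P : Poly d) : HasDerivAt (fun s => ev P (c s)) (∑ k, c' k * ev (pderiv k P) (c t)) t := by
  unfold ev
  induction P using MvPolynomial.induction_on with
  | C a =>
    simp only [MvPolynomial.eval_C, MvPolynomial.pderiv_C, map_zero, mul_zero,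
      Finset.sum_const_zero]
    exact hasDerivAt_const t a
  | add p q hp hq =>
    simp only [map_add, mul_add, Finset.sum_add_distrib]
    exact hp.add hq
  | mul_X p i hp =>
    have h1 : ∀ k, c' k * MvPolynomial.eval (c t) (pderiv k (p * MvPolynomial.X i)) =
        (c' k * MvPolynomial.eval (c t) (pderiv k p)) * c t i
          + (if k = i then MvPolynomial.eval (c t) p * c' k else 0) := fun k => by
      rw [Derivation.leibniz, pderiv_X']
      simp only [smul_eq_mul, map_add, map_mul, MvPolynomial.eval_X]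
      split_ifs <;> simp <;> ring
    simp only [h1, Finset.sum_add_distrib, ← Finset.sum_mul]
    simp only [Finset.sum_ite_eq', Finset.mem_univ, if_true, map_mul, MvPolynomial.eval_X]
    exact hp.mul (hc i)

/-- the value at `e^{-z} x`, with the factor `e^{-νz}` -/
noncomputable def evz (z : ℂ) (x : CC d) (P : Poly d) : ℂ :=
  cexp (-((nu d : ℂ) * z)) * ev P (fun k => cexp (-z) * x k)

theorem ev_NP (P : Poly d) (x : CC d) : ev (NP P) x = ∑ k, x k * ev (pderiv k P) x := by
  simp [ev, NP]

theorem ev_LP (i j : Fin (d + 1)) (P : Poly d) (x : CC d) :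
    ev (LP i j P) x = x i * ev (pderiv j P) x - x j * ev (pderiv i P) x := by
  simp [ev, LP]

theorem evz_zero (x : CC d) (P : Poly d) : evz 0 x P = ev P x := by
  simp [evz]

theorem evz_deriv (z₀ κ : ℂ) (x : CC d) (P : Poly d) (t : ℝ) :
    HasDerivAt (fun s : ℝ => evz (z₀ + s * κ) x P) (-(κ * evz (z₀ + t * κ) x (AP P))) t := by
  have h0 : HasDerivAt (fun s : ℝ => z₀ + s * κ) κ t := by
    have := ((Complex.ofRealCLM.hasDerivAt (x := t)).mul_const κ).const_add z₀
    simpa using this
  have h1 : ∀ k, HasDerivAt (fun s : ℝ => cexp (-(z₀ + s * κ)) * x k)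
      (-(κ * (cexp (-(z₀ + t * κ)) * x k))) t := fun k => by
    have := (h0.neg.cexp).mul_const (x k)
    refine HasDerivAt.congr_deriv this ?_
    simp only [Pi.neg_apply]
    ring
  have h2 := ev_deriv h1 P
  have h3 : HasDerivAt (fun s : ℝ => cexp (-((nu d : ℂ) * (z₀ + s * κ))))
      (-((nu d : ℂ) * κ * cexp (-((nu d : ℂ) * (z₀ + t * κ))))) t := by
    have := ((h0.const_mul (nu d : ℂ)).neg.cexp)
    refine HasDerivAt.congr_deriv this ?_
    simp only [Pi.neg_apply]
    ring
  refine HasDerivAt.congr_deriv (h3.mul h2) ?_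
  unfold evz AP
  rw [ev_add, ev_smul, ev_NP]
  have h4 : ∑ k, -(κ * (cexp (-(z₀ + t * κ)) * x k)) *
      ev (pderiv k P) (fun k => cexp (-(z₀ + t * κ)) * x k) =
      -(κ * ∑ k, cexp (-(z₀ + t * κ)) * x k *
        ev (pderiv k P) (fun k => cexp (-(z₀ + t * κ)) * x k)) := by
    rw [Finset.mul_sum, ← Finset.sum_neg_distrib]
    refine Finset.sum_congr rfl fun k _ => ?_
    ring
  rw [h4]
  ring

theorem evz_rot {i j : Fin (d + 1)} (hij : i ≠ j) (z : ℂ) (x : CC d) (P : Poly d) (t : ℝ) :
    HasDerivAt (fun s : ℝ => evz z (rotm i j s x) P) (evz z (rotm i j t x) (LP i j P)) t := by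
  have hcos : HasDerivAt (fun s : ℝ => (Real.cos s : ℂ)) (-(Real.sin t : ℂ)) t := by
    have := (Real.hasDerivAt_cos t).ofReal_comp
    simpa using this
  have hsin : HasDerivAt (fun s : ℝ => (Real.sin s : ℂ)) (Real.cos t : ℂ) t :=
    (Real.hasDerivAt_sin t).ofReal_comp
  have h1 : ∀ k, HasDerivAt (fun s : ℝ => cexp (-z) * rotm i j s x k)
      (if k = i then -(cexp (-z) * rotm i j t x j) else if k = j then
        cexp (-z) * rotm i j t x i else 0) t := fun k => by
    unfold rotm
    rcases eq_or_ne k i with rfl | hk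
    · simp only [if_true, if_neg hij.symm]
      refine HasDerivAt.congr_deriv (((hcos.mul_const _).sub (hsin.mul_const _)).const_mul _) ?_
      ring
    · rcases eq_or_ne k j with rfl | hk2
      · simp only [if_neg hk, if_true]
        refine HasDerivAt.congr_deriv (((hsin.mul_const _).add (hcos.mul_const _)).const_mul _) ?_
        ring
      · simp only [if_neg hk, if_neg hk2]
        exact hasDerivAt_const _ _
  have h2 := (ev_deriv h1 P).const_mul (cexp (-((nu d : ℂ) * z)))
  refine HasDerivAt.congr_deriv h2 ?_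
  unfold evz
  rw [ev_LP]
  congr 1
  rw [← Finset.add_sum_erase _ _ (Finset.mem_univ i), ← Finset.add_sum_erase _ _
    (Finset.mem_erase.2 ⟨hij.symm, Finset.mem_univ j⟩), Finset.sum_eq_zero]
  · simp only [if_true, if_neg hij.symm]
    ring
  · intro k hk
    simp only [Finset.mem_erase, Finset.mem_univ, and_true] at hk
    rw [if_neg hk.2, if_neg hk.1, zero_mul]

theorem evz_phase (y θ : ℝ) (x : CC d) (P : Poly d) :
    evz ((y : ℂ) + θ * I) x P = cexp (-((nu d : ℂ) * (θ * I))) * evz y (phase (-θ) x) P := by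
  unfold evz phase
  rw [← mul_assoc, ← Complex.exp_add]
  congr 2
  · ring
  · funext k
    rw [← mul_assoc, ← Complex.exp_add]
    congr 2
    push_cast
    ring

theorem continuous_ev (P : Poly d) : Continuous (ev P) := MvPolynomial.continuous_eval P

theorem cont_evz {X : Type*} [TopologicalSpace X] {z : X → ℂ} {x : X → CC d} (hz : Continuous z)
    (hx : Continuous x) (P : Poly d) : Continuous (fun p => evz (z p) (x p) P) := by
  unfold evz
  refine Continuous.mul (by fun_prop) ((continuous_ev P).comp ?_)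
  exact continuous_pi fun k => Continuous.mul (by fun_prop) ((continuous_apply k).comp hx)

theorem cont_rotm {X : Type*} [TopologicalSpace X] (i j : Fin (d + 1)) {t : X → ℝ} {x : X → CC d}
    (ht : Continuous t) (hx : Continuous x) : Continuous (fun p => rotm i j (t p) (x p)) := by
  refine continuous_pi fun k => ?_
  unfold rotm
  have h : ∀ l, Continuous fun p => x p l := fun l => (continuous_apply l).comp hx
  split_ifs
  · exact ((continuous_ofReal.comp (Real.continuous_cos.comp ht)).mul (h i)).sub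
      ((continuous_ofReal.comp (Real.continuous_sin.comp ht)).mul (h j))
  · exact ((continuous_ofReal.comp (Real.continuous_sin.comp ht)).mul (h i)).add
      ((continuous_ofReal.comp (Real.continuous_cos.comp ht)).mul (h j))
  · exact h k

theorem cont_phase (θ : ℝ) : Continuous (phase θ : CC d → CC d) := by
  refine continuous_pi fun k => ?_
  unfold phase
  exact continuous_const.mul (continuous_apply k)

end Pool.Agent.ConeG.FI
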