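import Pool.Agent.Work.MP_b0b133_an.G.FIc

/-!
# Integrals of densities on the polynomial world, dimension `d`

`Dens ι` is the algebra of real functions of finitely many complex variables together with their
first and second derivatives along curves. `jet P z x` is the family of the values
`e^{-νz} P_i (e^{-z} x)`. The theorems `phase1`, `phase2`, `rot1`, `rot2` are the integrations by
parts, `depth1`, `depth2` the derivatives in the depth, `depth_lim` the limit of infinite depth and
`depth_convex` the conclusion.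
-/

set_option autoImplicit false
open MeasureTheory Complex Filter Topology
open scoped ENNReal ComplexConjugate

namespace Pool.Agent.ConeG.FI

open Alg (integrable norm_le_one ev_smul)

variable {d : ℕ} {μ : Measure (CC d)}

/-! ### Parametric integrals -/

theorem ae_ball (hμ : Law μ) : ∀ᵐ x ∂μ, x ∈ Metric.closedBall (0 : CC d) 1 := by
  filter_upwards [hμ.supp] with x hx
  rw [mem_closedBall_zero_iff]
  exact norm_le_one hx.1

theorem restrict_ball (hμ : Law μ) : μ.restrict (Metric.closedBall (0 : CC d) 1) = μ :=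
  Measure.restrict_eq_self_of_ae_mem (ae_ball hμ)

theorem cont_int (hμ : Law μ) {X : Type*} [TopologicalSpace X] [FirstCountableTopology X]
    [LocallyCompactSpace X] {G : X → CC d → ℝ} (hG : Continuous (fun p : X × CC d => G p.1 p.2)) :
    Continuous (fun s => ∫ x, G s x ∂μ) := by
  have := hμ.prob
  have h := continuous_parametric_integral_of_continuous (μ := μ) (f := G) hG
    (isCompact_closedBall (0 : CC d) 1)
  rwa [restrict_ball hμ] at h

theorem hasDerivAt_int (hμ : Law μ) {G G' : ℝ → CC d → ℝ}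
    (hG : Continuous (fun p : ℝ × CC d => G p.1 p.2))
    (hG' : Continuous (fun p : ℝ × CC d => G' p.1 p.2))
    (hd : ∀ s x, HasDerivAt (fun r => G r x) (G' s x) s) (t : ℝ) :
    HasDerivAt (fun s => ∫ x, G s x ∂μ) (∫ x, G' t x ∂μ) t := by
  have := hμ.prob
  have hcp : IsCompact (Metric.closedBall t 1 ×ˢ Metric.closedBall (0 : CC d) 1) :=
    (isCompact_closedBall t 1).prod (isCompact_closedBall (0 : CC d) 1)
  obtain ⟨M, hM⟩ := (hcp.bddAbove_image hG'.norm.continuousOn)
  have hc : ∀ s, Continuous (G s) := fun s => hG.comp (by fun_prop : Continuous fun x => (s, x))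
  have hc' : ∀ s, Continuous (G' s) := fun s => hG'.comp (by fun_prop : Continuous fun x => (s, x))
  refine (hasDerivAt_integral_of_dominated_loc_of_deriv_le (μ := μ) (F := G) (F' := G')
    (x₀ := t) (bound := fun _ => M) (Metric.closedBall_mem_nhds t one_pos)
    (Eventually.of_forall fun s => (hc s).aestronglyMeasurable) (integrable hμ (hc t))
    (hc' t).aestronglyMeasurable ?_ (integrable_const M) ?_).2
  · filter_upwards [ae_ball hμ] with x hx s hs
    exact hM ⟨(s, x), ⟨hs, hx⟩, rfl⟩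
  · exact Eventually.of_forall fun x s _ => hd s x

theorem int_zero (hμ : Law μ) {G G' : ℝ → CC d → ℝ}
    (hG : Continuous (fun p : ℝ × CC d => G p.1 p.2))
    (hG' : Continuous (fun p : ℝ × CC d => G' p.1 p.2))
    (hd : ∀ s x, HasDerivAt (fun r => G r x) (G' s x) s) {c : ℝ}
    (hc : ∀ s, ∫ x, G s x ∂μ = c) (t : ℝ) : ∫ x, G' t x ∂μ = 0 := by
  have h := hasDerivAt_int hμ hG hG' hd t
  have h2 : HasDerivAt (fun s => ∫ x, G s x ∂μ) 0 t := by
    simp only [hc]
    exact hasDerivAt_const t c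
  exact h.unique h2

theorem int_phase (hμ : Law μ) {h : CC d → ℝ} (hc : Continuous h) (θ : ℝ) :
    ∫ x, h (phase θ x) ∂μ = ∫ x, h x ∂μ := by
  conv_rhs => rw [← hμ.phase θ]
  rw [integral_map (cont_phase θ).measurable.aemeasurable hc.aestronglyMeasurable]

theorem int_rotm (hμ : Law μ) {i j : Fin (d + 1)} (hij : i ≠ j) {h : CC d → ℝ}
    (hc : Continuous h) (t : ℝ) : ∫ x, h (rotm i j t x) ∂μ = ∫ x, h x ∂μ := by
  have hm : Continuous (rotm i j t : CC d → CC d) :=
    cont_rotm (X := CC d) i j (t := fun _ => t) (x := fun x => x) continuous_const continuous_id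
  conv_rhs => rw [← hμ.rot i j hij t]
  rw [integral_map hm.measurable.aemeasurable hc.aestronglyMeasurable]

/-! ### Densities -/

/-- a real function of finitely many complex variables with its first and second derivatives along
curves -/
structure Dens (ι : Type) where
  f0 : (ι → ℂ) → ℝ
  f1 : (ι → ℂ) → (ι → ℂ) → ℝ
  f2 : (ι → ℂ) → (ι → ℂ) → (ι → ℂ) → ℝ
  c0 : Continuous f0
  c1 : Continuous fun p : (ι → ℂ) × (ι → ℂ) => f1 p.1 p.2
  c2 : Continuous fun p : (ι → ℂ) × (ι → ℂ) × (ι → ℂ) => f2 p.1 p.2.1 p.2.2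
  d1 : ∀ (z : ℝ → ι → ℂ) (z' : ι → ℂ) (t : ℝ), (∀ i, HasDerivAt (fun s => z s i) (z' i) t) →
    HasDerivAt (fun s => f0 (z s)) (f1 (z t) z') t
  d2 : ∀ (z z' : ℝ → ι → ℂ) (z'' : ι → ℂ) (t : ℝ),
    (∀ i, HasDerivAt (fun s => z s i) (z' t i) t) →
    (∀ i, HasDerivAt (fun s => z' s i) (z'' i) t) →
    HasDerivAt (fun s => f1 (z s) (z' s)) (f2 (z t) (z' t) z'') t

namespace Dens

variable {ι : Type}

/-- constants -/
def const (c : ℝ) : Dens ι where
  f0 _ := c
  f1 _ _ := 0
  f2 _ _ _ := 0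
  c0 := continuous_const
  c1 := continuous_const
  c2 := continuous_const
  d1 _ _ _ _ := hasDerivAt_const _ _
  d2 _ _ _ _ _ _ := hasDerivAt_const _ _

/-- sums -/
def add (F G : Dens ι) : Dens ι where
  f0 z := F.f0 z + G.f0 z
  f1 z z' := F.f1 z z' + G.f1 z z'
  f2 z z' z'' := F.f2 z z' z'' + G.f2 z z' z''
  c0 := F.c0.add G.c0
  c1 := F.c1.add G.c1
  c2 := F.c2.add G.c2
  d1 z z' t h := (F.d1 z z' t h).add (G.d1 z z' t h)
  d2 z z' z'' t h h' := (F.d2 z z' z'' t h h').add (G.d2 z z' z'' t h h')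

/-- scalar multiples -/
def smul (c : ℝ) (F : Dens ι) : Dens ι where
  f0 z := c * F.f0 z
  f1 z z' := c * F.f1 z z'
  f2 z z' z'' := c * F.f2 z z' z''
  c0 := continuous_const.mul F.c0
  c1 := continuous_const.mul F.c1
  c2 := continuous_const.mul F.c2
  d1 z z' t h := (F.d1 z z' t h).const_mul c
  d2 z z' z'' t h h' := (F.d2 z z' z'' t h h').const_mul c

/-- products -/
def mul (F G : Dens ι) : Dens ι where
  f0 z := F.f0 z * G.f0 z
  f1 z z' := F.f1 z z' * G.f0 z + F.f0 z * G.f1 z z'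
  f2 z z' z'' := F.f2 z z' z'' * G.f0 z + 2 * (F.f1 z z' * G.f1 z z') + F.f0 z * G.f2 z z' z''
  c0 := F.c0.mul G.c0
  c1 := (F.c1.mul (G.c0.comp continuous_fst)).add ((F.c0.comp continuous_fst).mul G.c1)
  c2 := by
    have a0 : Continuous fun p : (ι → ℂ) × (ι → ℂ) × (ι → ℂ) => F.f0 p.1 :=
      F.c0.comp continuous_fst
    have b0 : Continuous fun p : (ι → ℂ) × (ι → ℂ) × (ι → ℂ) => G.f0 p.1 :=
      G.c0.comp continuous_fst
    have a1 : Continuous fun p : (ι → ℂ) × (ι → ℂ) × (ι → ℂ) => F.f1 p.1 p.2.1 :=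
      F.c1.comp (continuous_fst.prodMk (continuous_fst.comp continuous_snd))
    have b1 : Continuous fun p : (ι → ℂ) × (ι → ℂ) × (ι → ℂ) => G.f1 p.1 p.2.1 :=
      G.c1.comp (continuous_fst.prodMk (continuous_fst.comp continuous_snd))
    exact ((F.c2.mul b0).add (continuous_const.mul (a1.mul b1))).add (a0.mul G.c2)
  d1 z z' t h := (F.d1 z z' t h).mul (G.d1 z z' t h)
  d2 z z' z'' t h h' := by
    refine HasDerivAt.congr_deriv (((F.d2 z z' z'' t h h').mul (G.d1 z (z' t) t h)).add
      ((F.d1 z (z' t) t h).mul (G.d2 z z' z'' t h h'))) ?_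
    ring

/-- finite sums -/
def sum {κ : Type} (s : Finset κ) (F : κ → Dens ι) : Dens ι where
  f0 z := ∑ k ∈ s, (F k).f0 z
  f1 z z' := ∑ k ∈ s, (F k).f1 z z'
  f2 z z' z'' := ∑ k ∈ s, (F k).f2 z z' z''
  c0 := continuous_finsetSum _ fun k _ => (F k).c0
  c1 := continuous_finsetSum _ fun k _ => (F k).c1
  c2 := continuous_finsetSum _ fun k _ => (F k).c2
  d1 z z' t h := HasDerivAt.fun_sum fun k _ => (F k).d1 z z' t h
  d2 z z' z'' t h h' := HasDerivAt.fun_sum fun k _ => (F k).d2 z z' z'' t h h'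

end Dens

end Pool.Agent.ConeG.FI
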