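import Pool.Agent.Work.MP_b0b133_an.G.FId

/-!
# Basic densities, jets and the integrations by parts
-/

set_option autoImplicit false
open MeasureTheory Complex Filter Topology
open scoped ENNReal ComplexConjugate

namespace Pool.Agent.ConeG.FI

open Alg (integrable norm_le_one ev_smul)

variable {d : ℕ} {μ : Measure (CC d)}

/-- `Re (conj a * b)` -/
def dot (a b : ℂ) : ℝ := a.re * b.re + a.im * b.im

/-- `Im (conj a * b)` -/
def wed (a b : ℂ) : ℝ := a.re * b.im - a.im * b.re

theorem dot_self_nonneg (F : ℂ) : 0 ≤ dot F F := by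
  unfold dot
  nlinarith [sq_nonneg F.re, sq_nonneg F.im]

theorem dot_self (a : ℂ) : dot a a = ‖a‖ ^ 2 := by
  rw [← normSq_eq_norm_sq, normSq_apply]
  rfl

theorem dot_mul (u a b : ℂ) : dot (u * a) (u * b) = normSq u * dot a b := by
  unfold dot
  simp only [mul_re, mul_im, normSq_apply]
  ring

theorem wed_mul (u a b : ℂ) : wed (u * a) (u * b) = normSq u * wed a b := by
  unfold wed
  simp only [mul_re, mul_im, normSq_apply]
  ring

@[fun_prop] theorem c_dot {X : Type*} [TopologicalSpace X] {A B : X → ℂ} (hA : Continuous A)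
    (hB : Continuous B) : Continuous (fun x => dot (A x) (B x)) := by
  unfold dot
  fun_prop

@[fun_prop] theorem c_wed {X : Type*} [TopologicalSpace X] {A B : X → ℂ} (hA : Continuous A)
    (hB : Continuous B) : Continuous (fun x => wed (A x) (B x)) := by
  unfold wed
  fun_prop

section curves

variable {F G : ℝ → ℂ} {F' G' : ℂ} {t δ : ℝ}

theorem h_re (h : HasDerivAt F F' t) : HasDerivAt (fun s => (F s).re) F'.re t :=
  (Complex.reCLM.hasFDerivAt.comp_hasDerivAt t h)

theorem h_im (h : HasDerivAt F F' t) : HasDerivAt (fun s => (F s).im) F'.im t :=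
  (Complex.imCLM.hasFDerivAt.comp_hasDerivAt t h)

theorem h_dot (hF : HasDerivAt F F' t) (hG : HasDerivAt G G' t) :
    HasDerivAt (fun s => dot (F s) (G s)) (dot F' (G t) + dot (F t) G') t := by
  have h1 := ((h_re hF).mul (h_re hG)).add ((h_im hF).mul (h_im hG))
  refine HasDerivAt.congr_deriv h1 ?_
  unfold dot
  ring

theorem h_wed (hF : HasDerivAt F F' t) (hG : HasDerivAt G G' t) :
    HasDerivAt (fun s => wed (F s) (G s)) (wed F' (G t) + wed (F t) G') t := by
  have h1 := ((h_re hF).mul (h_im hG)).sub ((h_im hF).mul (h_re hG))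
  refine HasDerivAt.congr_deriv h1 ?_
  unfold wed
  ring

end curves

/-- `|F|² + δ²` -/
def rs (δ : ℝ) (F : ℂ) : ℝ := dot F F + δ ^ 2

theorem rs_pos {δ : ℝ} (hδ : 0 < δ) (F : ℂ) : 0 < rs δ F := by
  have := dot_self_nonneg F
  unfold rs
  positivity

/-- the regularised power `(|F|² + δ²)^(s/2)` -/
noncomputable def fpw (δ s : ℝ) (F : ℂ) : ℝ := rs δ F ^ (s / 2)

theorem fpw_pos {δ : ℝ} (hδ : 0 < δ) (s : ℝ) (F : ℂ) : 0 < fpw δ s F :=
  Real.rpow_pos_of_pos (rs_pos hδ F) _

theorem fpw_add {δ : ℝ} (hδ : 0 < δ) (s t : ℝ) (F : ℂ) :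
    fpw δ (s + t) F = fpw δ s F * fpw δ t F := by
  unfold fpw
  rw [← Real.rpow_add (rs_pos hδ F)]
  congr 1
  ring

theorem fpw_two {δ : ℝ} (F : ℂ) : fpw δ 2 F = rs δ F := by
  unfold fpw
  norm_num

theorem fpw_zero {δ : ℝ} (F : ℂ) : fpw δ 0 F = 1 := by
  unfold fpw
  norm_num

theorem h_rs {F : ℝ → ℂ} {F' : ℂ} {t δ : ℝ} (hF : HasDerivAt F F' t) :
    HasDerivAt (fun s => rs δ (F s)) (2 * dot (F t) F') t := by
  refine HasDerivAt.congr_deriv ((h_dot hF hF).add_const (δ ^ 2)) ?_
  unfold dot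
  ring

theorem h_fpw {F : ℝ → ℂ} {F' : ℂ} {t δ : ℝ} (hδ : 0 < δ) (s : ℝ) (hF : HasDerivAt F F' t) :
    HasDerivAt (fun r => fpw δ s (F r)) (s * fpw δ (s - 2) (F t) * dot (F t) F') t := by
  have h1 := (h_rs (δ := δ) hF).rpow_const (p := s / 2) (Or.inl (rs_pos hδ (F t)).ne')
  refine HasDerivAt.congr_deriv h1 ?_
  have e : s / 2 - 1 = (s - 2) / 2 := by ring
  unfold fpw
  rw [e]
  ring

theorem c_fpw {X : Type*} [TopologicalSpace X] {δ : ℝ} (hδ : 0 < δ) (s : ℝ) {A : X → ℂ}
    (hA : Continuous A) : Continuous fun x => fpw δ s (A x) := by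
  unfold fpw rs
  refine Continuous.rpow_const (by fun_prop) fun x => Or.inl ?_
  have := rs_pos hδ (A x)
  unfold rs at this
  exact this.ne'

namespace Dens

variable {ι : Type}

/-- `Re (conj z_i z_j)` -/
def dotD (i j : ι) : Dens ι where
  f0 z := dot (z i) (z j)
  f1 z z' := dot (z' i) (z j) + dot (z i) (z' j)
  f2 z z' z'' := dot (z'' i) (z j) + 2 * dot (z' i) (z' j) + dot (z i) (z'' j)
  c0 := by fun_prop
  c1 := by fun_prop
  c2 := by fun_prop
  d1 z z' t h := h_dot (h i) (h j)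
  d2 z z' z'' t h h' := by
    refine HasDerivAt.congr_deriv ((h_dot (h' i) (h j)).add (h_dot (h i) (h' j))) ?_
    ring

/-- `Im (conj z_i z_j)` -/
def wedD (i j : ι) : Dens ι where
  f0 z := wed (z i) (z j)
  f1 z z' := wed (z' i) (z j) + wed (z i) (z' j)
  f2 z z' z'' := wed (z'' i) (z j) + 2 * wed (z' i) (z' j) + wed (z i) (z'' j)
  c0 := by fun_prop
  c1 := by fun_prop
  c2 := by fun_prop
  d1 z z' t h := h_wed (h i) (h j)
  d2 z z' z'' t h h' := by
    refine HasDerivAt.congr_deriv ((h_wed (h' i) (h j)).add (h_wed (h i) (h' j))) ?_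
    ring

/-- the regularised power of `|z_i|` -/
noncomputable def fpwD {δ : ℝ} (hδ : 0 < δ) (s : ℝ) (i : ι) : Dens ι where
  f0 z := fpw δ s (z i)
  f1 z z' := s * fpw δ (s - 2) (z i) * dot (z i) (z' i)
  f2 z z' z'' := s * (s - 2) * fpw δ (s - 2 - 2) (z i) * dot (z i) (z' i) ^ 2
    + s * fpw δ (s - 2) (z i) * (dot (z' i) (z' i) + dot (z i) (z'' i))
  c0 := c_fpw hδ s (continuous_apply i)
  c1 := by
    have h := c_fpw hδ (s - 2) (X := (ι → ℂ) × (ι → ℂ)) (A := fun p => p.1 i)
      ((continuous_apply i).comp continuous_fst)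
    fun_prop
  c2 := by
    have h := c_fpw hδ (s - 2) (X := (ι → ℂ) × (ι → ℂ) × (ι → ℂ)) (A := fun p => p.1 i)
      ((continuous_apply i).comp continuous_fst)
    have h' := c_fpw hδ (s - 2 - 2) (X := (ι → ℂ) × (ι → ℂ) × (ι → ℂ)) (A := fun p => p.1 i)
      ((continuous_apply i).comp continuous_fst)
    fun_prop
  d1 z z' t h := h_fpw hδ s (h i)
  d2 z z' z'' t h h' := by
    refine HasDerivAt.congr_deriv (((h_fpw hδ (s - 2) (h i)).const_mul s).mul
      (h_dot (h i) (h' i))) ?_
    ring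

/-- invariance under phases -/
def Inv (F : Dens ι) : Prop := ∀ (u : ℂ), normSq u = 1 → ∀ z : ι → ℂ,
  F.f0 (fun i => u * z i) = F.f0 z

theorem Inv.const (c : ℝ) : (Dens.const c : Dens ι).Inv := fun _ _ _ => rfl

theorem Inv.add {F G : Dens ι} (hF : F.Inv) (hG : G.Inv) : (F.add G).Inv := fun u hu z =>
  congrArg₂ (· + ·) (hF u hu z) (hG u hu z)

theorem Inv.mul {F G : Dens ι} (hF : F.Inv) (hG : G.Inv) : (F.mul G).Inv := fun u hu z =>
  congrArg₂ (· * ·) (hF u hu z) (hG u hu z)

theorem Inv.smul (c : ℝ) {F : Dens ι} (hF : F.Inv) : (F.smul c).Inv := fun u hu z =>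
  congrArg (fun r => c * r) (hF u hu z)

theorem Inv.sum {κ : Type} (s : Finset κ) {F : κ → Dens ι} (hF : ∀ k, (F k).Inv) :
    (Dens.sum s F).Inv := fun u hu z => Finset.sum_congr rfl fun k _ => hF k u hu z

theorem Inv.dotD (i j : ι) : (Dens.dotD i j).Inv := fun u hu z => by
  change dot _ _ = dot _ _
  rw [dot_mul, hu, one_mul]

theorem Inv.wedD (i j : ι) : (Dens.wedD i j).Inv := fun u hu z => by
  change wed _ _ = wed _ _
  rw [wed_mul, hu, one_mul]

theorem Inv.fpwD {δ : ℝ} (hδ : 0 < δ) (s : ℝ) (i : ι) : (Dens.fpwD hδ s i).Inv := fun u hu z => by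
  change fpw _ _ _ = fpw _ _ _
  unfold fpw rs
  rw [dot_mul, hu, one_mul]

end Dens

/-! ### Jets -/

section jets

variable {ι : Type} (P : ι → Poly d)

/-- the values at depth `z` -/
noncomputable def jet (P : ι → Poly d) (z : ℂ) (x : CC d) : ι → ℂ := fun i => evz z x (P i)

theorem evz_real (x : CC d) (P : Poly d) (t : ℝ) :
    HasDerivAt (fun s : ℝ => evz (s : ℂ) x P) (-(evz (t : ℂ) x (AP P))) t := by
  have h := evz_deriv 0 1 x P t
  simpa using h

theorem evz_I (y : ℝ) (x : CC d) (P : Poly d) (t : ℝ) :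
    HasDerivAt (fun s : ℝ => evz ((y : ℂ) + s * I) x P)
      (-(I * evz ((y : ℂ) + t * I) x (AP P))) t := evz_deriv y I x P t

theorem evz_neg_real (x : CC d) (P : Poly d) (t : ℝ) :
    HasDerivAt (fun s : ℝ => -(evz (s : ℂ) x P)) (evz (t : ℂ) x (AP P)) t := by
  refine HasDerivAt.congr_deriv (evz_real x P t).neg ?_
  ring

theorem evz_I2 (y : ℝ) (x : CC d) (P : Poly d) (t : ℝ) :
    HasDerivAt (fun s : ℝ => -(I * evz ((y : ℂ) + s * I) x P))
      (-(evz ((y : ℂ) + t * I) x (AP P))) t := by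
  refine HasDerivAt.congr_deriv ((evz_I y x P t).const_mul I).neg ?_
  linear_combination (evz ((y : ℂ) + t * I) x (AP P)) * I_sq

theorem c_jet {X : Type*} [TopologicalSpace X] {z : X → ℂ} {x : X → CC d} (hz : Continuous z)
    (hx : Continuous x) : Continuous (fun p => jet P (z p) (x p)) :=
  continuous_pi fun i => cont_evz hz hx (P i)

theorem normSq_unit (θ : ℝ) : normSq (cexp (-((nu d : ℂ) * (θ * I)))) = 1 := by
  rw [normSq_eq_norm_sq]
  have : -((nu d : ℂ) * ((θ : ℂ) * I)) = ((-(nu d * θ) : ℝ) : ℂ) * I := by push_cast; ring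
  rw [this, norm_exp_ofReal_mul_I]
  norm_num

variable {P}

theorem c_f0 (F : Dens ι) {X : Type*} [TopologicalSpace X] {a : X → ι → ℂ} (ha : Continuous a) :
    Continuous fun p => F.f0 (a p) := F.c0.comp ha

theorem c_f1 (F : Dens ι) {X : Type*} [TopologicalSpace X] {a b : X → ι → ℂ} (ha : Continuous a)
    (hb : Continuous b) : Continuous fun p => F.f1 (a p) (b p) := F.c1.comp (ha.prodMk hb)

theorem c_f2 (F : Dens ι) {X : Type*} [TopologicalSpace X] {a b c : X → ι → ℂ}
    (ha : Continuous a) (hb : Continuous b) (hc : Continuous c) :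
    Continuous fun p => F.f2 (a p) (b p) (c p) := F.c2.comp (ha.prodMk (hb.prodMk hc))

theorem int_f0_phase (hμ : Law μ) {F : Dens ι} (hF : F.Inv) (y s : ℝ) :
    ∫ x, F.f0 (jet P ((y : ℂ) + s * I) x) ∂μ = ∫ x, F.f0 (jet P y x) ∂μ := by
  have h1 : ∀ x, F.f0 (jet P ((y : ℂ) + s * I) x) = F.f0 (jet P y (phase (-s) x)) := fun x => by
    have : jet P ((y : ℂ) + s * I) x =
        fun i => cexp (-((nu d : ℂ) * (s * I))) * jet P y (phase (-s) x) i := by
      funext i
      exact evz_phase y s x (P i)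
    rw [this]
    exact hF _ (normSq_unit s) _
  simp only [h1]
  exact int_phase hμ (h := fun x => F.f0 (jet P y x))
    (c_f0 F (c_jet P continuous_const continuous_id)) (-s)

theorem phase1_all (hμ : Law μ) {F : Dens ι} (hF : F.Inv) (y t : ℝ) :
    ∫ x, F.f1 (jet P ((y : ℂ) + t * I) x)
      (fun i => -(I * evz ((y : ℂ) + t * I) x (AP (P i)))) ∂μ = 0 := by
  have cz : Continuous fun p : ℝ × CC d => ((y : ℂ) + p.1 * I) := by fun_prop
  have ca := c_jet P cz (x := fun p : ℝ × CC d => p.2) continuous_snd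
  have cb : Continuous fun p : ℝ × CC d => fun i => -(I * evz ((y : ℂ) + p.1 * I) p.2 (AP (P i))) :=
    continuous_pi fun i => (continuous_const.mul (cont_evz cz continuous_snd _)).neg
  exact int_zero hμ (G := fun s x => F.f0 (jet P ((y : ℂ) + s * I) x))
    (G' := fun s x => F.f1 (jet P ((y : ℂ) + s * I) x)
      (fun i => -(I * evz ((y : ℂ) + s * I) x (AP (P i)))))
    (c_f0 F ca) (c_f1 F ca cb)
    (fun s x => F.d1 _ _ s fun i => evz_I y x (P i) s)
    (fun s => int_f0_phase hμ hF y s) t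

/-- first phase derivative -/
theorem phase1 (hμ : Law μ) {F : Dens ι} (hF : F.Inv) (y : ℝ) :
    ∫ x, F.f1 (jet P y x) (fun i => -(I * evz y x (AP (P i)))) ∂μ = 0 := by
  simpa using phase1_all (P := P) hμ hF y 0

/-- second phase derivative -/
theorem phase2 (hμ : Law μ) {F : Dens ι} (hF : F.Inv) (y : ℝ) :
    ∫ x, F.f2 (jet P y x) (fun i => -(I * evz y x (AP (P i))))
      (fun i => -(evz y x (AP (AP (P i))))) ∂μ = 0 := by
  have cz : Continuous fun p : ℝ × CC d => ((y : ℂ) + p.1 * I) := by fun_prop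
  have ca := c_jet P cz (x := fun p : ℝ × CC d => p.2) continuous_snd
  have cb : Continuous fun p : ℝ × CC d => fun i => -(I * evz ((y : ℂ) + p.1 * I) p.2 (AP (P i))) :=
    continuous_pi fun i => (continuous_const.mul (cont_evz cz continuous_snd _)).neg
  have cc : Continuous fun p : ℝ × CC d => fun i => -(evz ((y : ℂ) + p.1 * I) p.2 (AP (AP (P i)))) :=
    continuous_pi fun i => (cont_evz cz continuous_snd _).neg
  have h := int_zero hμ (G := fun s x => F.f1 (jet P ((y : ℂ) + s * I) x)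
      (fun i => -(I * evz ((y : ℂ) + s * I) x (AP (P i)))))
    (G' := fun s x => F.f2 (jet P ((y : ℂ) + s * I) x)
      (fun i => -(I * evz ((y : ℂ) + s * I) x (AP (P i))))
      (fun i => -(evz ((y : ℂ) + s * I) x (AP (AP (P i))))))
    (c_f1 F ca cb) (c_f2 F ca cb cc)
    (fun s x => F.d2 (fun s => jet P ((y : ℂ) + s * I) x)
      (fun s i => -(I * evz ((y : ℂ) + s * I) x (AP (P i)))) _ s
      (fun i => evz_I y x (P i) s) (fun i => evz_I2 y x (AP (P i)) s))
    (fun s => phase1_all hμ hF y s) 0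
  simpa using h

theorem rotm_zero (i j : Fin (d + 1)) (x : CC d) : rotm i j 0 x = x := by
  funext k
  unfold rotm
  split_ifs with h1 h2
  · subst h1; simp
  · subst h2; simp
  · rfl

theorem LP_self (i : Fin (d + 1)) (P : Poly d) : LP i i P = 0 := by
  unfold LP
  ring

theorem rot1_all (hμ : Law μ) (F : Dens ι) (z : ℂ) {i j : Fin (d + 1)} (hij : i ≠ j) (t : ℝ) :
    ∫ x, F.f1 (jet P z (rotm i j t x)) (fun k => evz z (rotm i j t x) (LP i j (P k))) ∂μ = 0 := by
  have cx : Continuous fun p : ℝ × CC d => rotm i j p.1 p.2 :=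
    cont_rotm i j continuous_fst continuous_snd
  have ca := c_jet P (z := fun _ : ℝ × CC d => z) continuous_const cx
  have cb : Continuous fun p : ℝ × CC d => fun k => evz z (rotm i j p.1 p.2) (LP i j (P k)) :=
    continuous_pi fun k => cont_evz continuous_const cx _
  exact int_zero hμ (G := fun s x => F.f0 (jet P z (rotm i j s x)))
    (G' := fun s x => F.f1 (jet P z (rotm i j s x)) (fun k => evz z (rotm i j s x) (LP i j (P k))))
    (c_f0 F ca) (c_f1 F ca cb)
    (fun s x => F.d1 (fun s => jet P z (rotm i j s x)) _ s fun k => evz_rot hij z x (P k) s)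
    (c := ∫ x, F.f0 (jet P z x) ∂μ)
    (fun s => int_rotm hμ hij (h := fun x => F.f0 (jet P z x))
      (c_f0 F (c_jet P continuous_const continuous_id)) s) t

/-- first derivative along a rotation field -/
theorem rot1 (hμ : Law μ) (F : Dens ι) (z : ℂ) {i j : Fin (d + 1)} (hij : i ≠ j) :
    ∫ x, F.f1 (jet P z x) (fun k => evz z x (LP i j (P k))) ∂μ = 0 := by
  simpa only [rotm_zero] using rot1_all (P := P) hμ F z hij 0

/-- second derivative along a rotation field -/
theorem rot2 (hμ : Law μ) (F : Dens ι) (z : ℂ) {i j : Fin (d + 1)} (hij : i ≠ j) :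
    ∫ x, F.f2 (jet P z x) (fun k => evz z x (LP i j (P k)))
      (fun k => evz z x (LP i j (LP i j (P k)))) ∂μ = 0 := by
  have cx : Continuous fun p : ℝ × CC d => rotm i j p.1 p.2 :=
    cont_rotm i j continuous_fst continuous_snd
  have ca := c_jet P (z := fun _ : ℝ × CC d => z) continuous_const cx
  have cb : Continuous fun p : ℝ × CC d => fun k => evz z (rotm i j p.1 p.2) (LP i j (P k)) :=
    continuous_pi fun k => cont_evz continuous_const cx _
  have cc : Continuous fun p : ℝ × CC d =>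
      fun k => evz z (rotm i j p.1 p.2) (LP i j (LP i j (P k))) :=
    continuous_pi fun k => cont_evz continuous_const cx _
  have h := int_zero hμ (G := fun s x => F.f1 (jet P z (rotm i j s x))
      (fun k => evz z (rotm i j s x) (LP i j (P k))))
    (G' := fun s x => F.f2 (jet P z (rotm i j s x)) (fun k => evz z (rotm i j s x) (LP i j (P k)))
      (fun k => evz z (rotm i j s x) (LP i j (LP i j (P k)))))
    (c_f1 F ca cb) (c_f2 F ca cb cc)
    (fun s x => F.d2 (fun s => jet P z (rotm i j s x))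
      (fun s k => evz z (rotm i j s x) (LP i j (P k))) _ s
      (fun k => evz_rot hij z x (P k) s) (fun k => evz_rot hij z x (LP i j (P k)) s))
    (fun s => rot1_all hμ F z hij s) 0
  simpa only [rotm_zero] using h

/-- first derivative in the depth -/
theorem depth1 (hμ : Law μ) (F : Dens ι) (y : ℝ) :
    HasDerivAt (fun s : ℝ => ∫ x, F.f0 (jet P s x) ∂μ)
      (∫ x, F.f1 (jet P y x) (fun i => -(evz y x (AP (P i)))) ∂μ) y := by
  have cz : Continuous fun p : ℝ × CC d => (p.1 : ℂ) := by fun_prop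
  have ca := c_jet P cz (x := fun p : ℝ × CC d => p.2) continuous_snd
  have cb : Continuous fun p : ℝ × CC d => fun i => -(evz (p.1 : ℂ) p.2 (AP (P i))) :=
    continuous_pi fun i => (cont_evz cz continuous_snd _).neg
  exact hasDerivAt_int hμ (G := fun s x => F.f0 (jet P s x))
    (G' := fun s x => F.f1 (jet P s x) (fun i => -(evz s x (AP (P i)))))
    (c_f0 F ca) (c_f1 F ca cb)
    (fun s x => F.d1 (fun s : ℝ => jet P s x) _ s fun i => evz_real x (P i) s) y

/-- second derivative in the depth -/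
theorem depth2 (hμ : Law μ) (F : Dens ι) (y : ℝ) :
    HasDerivAt (fun s : ℝ => ∫ x, F.f1 (jet P s x) (fun i => -(evz s x (AP (P i)))) ∂μ)
      (∫ x, F.f2 (jet P y x) (fun i => -(evz y x (AP (P i))))
        (fun i => evz y x (AP (AP (P i)))) ∂μ) y := by
  have cz : Continuous fun p : ℝ × CC d => (p.1 : ℂ) := by fun_prop
  have ca := c_jet P cz (x := fun p : ℝ × CC d => p.2) continuous_snd
  have cb : Continuous fun p : ℝ × CC d => fun i => -(evz (p.1 : ℂ) p.2 (AP (P i))) :=
    continuous_pi fun i => (cont_evz cz continuous_snd _).neg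
  have cc : Continuous fun p : ℝ × CC d => fun i => evz (p.1 : ℂ) p.2 (AP (AP (P i))) :=
    continuous_pi fun i => cont_evz cz continuous_snd _
  exact hasDerivAt_int hμ
    (G := fun s x => F.f1 (jet P s x) (fun i => -(evz s x (AP (P i)))))
    (G' := fun s x => F.f2 (jet P s x) (fun i => -(evz s x (AP (P i))))
        (fun i => evz s x (AP (AP (P i)))))
    (c_f1 F ca cb) (c_f2 F ca cb cc)
    (fun s x => F.d2 (fun s : ℝ => jet P s x) (fun (s : ℝ) i => -(evz s x (AP (P i)))) _ s
      (fun i => evz_real x (P i) s) (fun i => evz_neg_real x (AP (P i)) s)) y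

end jets

end Pool.Agent.ConeG.FI
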