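import Pool.Agent.Work.MP_b0b133_an.G.FIe

/-!
# Convexity in the depth
-/

set_option autoImplicit false
open MeasureTheory Complex Filter Topology
open scoped ENNReal ComplexConjugate

namespace Pool.Agent.ConeG.FI

open Alg (integrable norm_le_one ev_smul ev_sub ev_sum AP_smul)

variable {d : ℕ} {μ : Measure (CC d)}

/-! ### Functions with vanishing integral -/

/-- continuous with integral zero -/
def Zr (μ : Measure (CC d)) (f : CC d → ℝ) : Prop := Continuous f ∧ ∫ x, f x ∂μ = 0

theorem Zr.zero : Zr μ (fun _ => 0) := ⟨continuous_const, by simp⟩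

theorem Zr.add (hμ : Law μ) {f g : CC d → ℝ} (hf : Zr μ f) (hg : Zr μ g) :
    Zr μ (fun x => f x + g x) :=
  ⟨hf.1.add hg.1, by
    rw [integral_add (integrable hμ hf.1) (integrable hμ hg.1), hf.2, hg.2, add_zero]⟩

theorem Zr.mul {f : CC d → ℝ} (c : ℝ) (hf : Zr μ f) : Zr μ (fun x => c * f x) :=
  ⟨continuous_const.mul hf.1, by rw [integral_const_mul, hf.2, mul_zero]⟩

theorem Zr.neg {f : CC d → ℝ} (hf : Zr μ f) : Zr μ (fun x => -(f x)) :=
  ⟨hf.1.neg, by rw [integral_neg, hf.2, neg_zero]⟩

theorem Zr.sub (hμ : Law μ) {f g : CC d → ℝ} (hf : Zr μ f) (hg : Zr μ g) :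
    Zr μ (fun x => f x - g x) :=
  ⟨hf.1.sub hg.1, by
    rw [integral_sub (integrable hμ hf.1) (integrable hμ hg.1), hf.2, hg.2, sub_zero]⟩

theorem Zr.sum (hμ : Law μ) {κ : Type*} {s : Finset κ} {f : κ → CC d → ℝ}
    (hf : ∀ i, Zr μ (f i)) : Zr μ (fun x => ∑ i ∈ s, f i x) :=
  ⟨continuous_finsetSum _ fun i _ => (hf i).1, by
    rw [integral_finsetSum _ fun i _ => integrable hμ (hf i).1]
    exact Finset.sum_eq_zero fun i _ => (hf i).2⟩

section zr

variable {ι : Type} {P : ι → Poly d}

theorem zr_phase1 (hμ : Law μ) {F : Dens ι} (hF : F.Inv) (y : ℝ) :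
    Zr μ fun x => F.f1 (jet P y x) (fun i => -(I * evz y x (AP (P i)))) :=
  ⟨c_f1 F (c_jet P continuous_const continuous_id)
    (continuous_pi fun _ => (continuous_const.mul (cont_evz continuous_const continuous_id _)).neg),
    phase1 hμ hF y⟩

theorem zr_phase2 (hμ : Law μ) {F : Dens ι} (hF : F.Inv) (y : ℝ) :
    Zr μ fun x => F.f2 (jet P y x) (fun i => -(I * evz y x (AP (P i))))
      (fun i => -(evz y x (AP (AP (P i))))) :=
  ⟨c_f2 F (c_jet P continuous_const continuous_id)
    (continuous_pi fun _ => (continuous_const.mul (cont_evz continuous_const continuous_id _)).neg)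
    (continuous_pi fun _ => (cont_evz continuous_const continuous_id _).neg),
    phase2 hμ hF y⟩

theorem zr_rot1 (hμ : Law μ) (F : Dens ι) (z : ℂ) {i j : Fin (d + 1)} (hij : i ≠ j) :
    Zr μ fun x => F.f1 (jet P z x) (fun k => evz z x (LP i j (P k))) :=
  ⟨c_f1 F (c_jet P continuous_const continuous_id)
    (continuous_pi fun _ => cont_evz continuous_const continuous_id _), rot1 hμ F z hij⟩

theorem zr_rot2 (hμ : Law μ) (F : Dens ι) (z : ℂ) {i j : Fin (d + 1)} (hij : i ≠ j) :
    Zr μ fun x => F.f2 (jet P z x) (fun k => evz z x (LP i j (P k)))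
      (fun k => evz z x (LP i j (LP i j (P k)))) :=
  ⟨c_f2 F (c_jet P continuous_const continuous_id)
    (continuous_pi fun _ => cont_evz continuous_const continuous_id _)
    (continuous_pi fun _ => cont_evz continuous_const continuous_id _), rot2 hμ F z hij⟩

end zr

/-! ### Linear combinations of values -/

theorem evz_smul (z : ℂ) (x : CC d) (c : ℂ) (P : Poly d) :
    evz z x (c • P) = c * evz z x P := by
  unfold evz
  rw [ev_smul]
  ring

theorem evz_sub (z : ℂ) (x : CC d) (P Q : Poly d) :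
    evz z x (P - Q) = evz z x P - evz z x Q := by
  unfold evz
  rw [ev_sub]
  ring

theorem evz_sum2 (z : ℂ) (x : CC d) (P : Fin (d + 1) → Fin (d + 1) → Poly d) :
    evz z x (∑ i, ∑ j, P i j) = ∑ i, ∑ j, evz z x (P i j) := by
  unfold evz
  rw [ev_sum, Finset.mul_sum]
  refine Finset.sum_congr rfl fun i _ => ?_
  rw [ev_sum, Finset.mul_sum]

/-- `∑_{ij} L_ij L_ij P = 2 (ν² P - A A P)` for harmonic `P` -/
theorem evz_sum_LL (z : ℂ) (x : CC d) {P : Poly d} (hP : P ∈ HP d) :
    ∑ i, ∑ j, evz z x (LP i j (LP i j P)) =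
      2 * ((nu d : ℂ) ^ 2 * evz z x P - evz z x (AP (AP P))) := by
  rw [← evz_sum2, sum_LP_LP hP, evz_smul, evz_sub, evz_smul]

/-! ### The limit of infinite depth -/

section lim

variable {ι : Type} {P : ι → Poly d}

/-- the value at `s x`, with the factor `s^ν` -/
noncomputable def evs (s : ℝ) (x : CC d) (P : Poly d) : ℂ :=
  ((s ^ nu d : ℝ) : ℂ) * ev P (fun k => (s : ℂ) * x k)

theorem evz_evs (y : ℝ) (x : CC d) (P : Poly d) : evz y x P = evs (Real.exp (-y)) x P := by
  have h1 : cexp (-(y : ℂ)) = ((Real.exp (-y) : ℝ) : ℂ) := by push_cast; rfl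
  have h2 : cexp (-((nu d : ℂ) * (y : ℂ))) = ((Real.exp (-y) ^ nu d : ℝ) : ℂ) := by
    rw [← Real.exp_mul]
    push_cast
    congr 1
    ring
  unfold evz evs
  rw [h1, h2]

theorem c_evs (hν : 0 < nu d) (P : Poly d) :
    Continuous (fun p : ℝ × CC d => evs p.1 p.2 P) := by
  unfold evs
  refine Continuous.mul ?_ ((continuous_ev P).comp ?_)
  · exact continuous_ofReal.comp ((Real.continuous_rpow_const hν.le).comp continuous_fst)
  · exact continuous_pi fun k => Continuous.mul (by fun_prop)
      ((continuous_apply k).comp (by fun_prop))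

theorem evs_zero (hν : 0 < nu d) (x : CC d) (P : Poly d) : evs 0 x P = 0 := by
  simp [evs, Real.zero_rpow hν.ne']

theorem depth_lim (hμ : Law μ) (hν : 0 < nu d) (F : Dens ι) :
    Tendsto (fun y : ℝ => ∫ x, F.f0 (jet P y x) ∂μ) atTop (𝓝 (F.f0 0)) := by
  have := hμ.prob
  have hc : Continuous fun p : ℝ × CC d => F.f0 (fun i => evs p.1 p.2 (P i)) :=
    c_f0 F (continuous_pi fun i => c_evs hν (P i))
  have h1 := (cont_int hμ (G := fun s x => F.f0 (fun i => evs s x (P i))) hc).tendsto 0
  have h3 := h1.comp Real.tendsto_exp_neg_atTop_nhds_zero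
  have e : ∫ x, F.f0 (fun i => evs 0 x (P i)) ∂μ = F.f0 0 := by
    have : ∀ x : CC d, (fun i => evs 0 x (P i)) = (0 : ι → ℂ) := fun x => by
      funext i
      exact evs_zero hν x (P i)
    simp only [this]
    simp
  rw [← e]
  refine h3.congr fun y => ?_
  simp only [Function.comp]
  refine integral_congr_ae (Eventually.of_forall fun x => ?_)
  refine congrArg F.f0 (funext fun i => ?_)
  exact (evz_evs y x (P i)).symm

end lim

/-! ### An abstract convexity lemma -/

theorem le_of_convex {Φ Φ' Φ'' : ℝ → ℝ} (h1 : ∀ y, HasDerivAt Φ (Φ' y) y)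
    (h2 : ∀ y, HasDerivAt Φ' (Φ'' y) y) (h3 : ∀ y, 0 ≤ Φ'' y) {L : ℝ}
    (hL : Tendsto Φ atTop (𝓝 L)) : L ≤ Φ 0 := by
  have hmono : Monotone Φ' :=
    monotone_of_deriv_nonneg (fun y => (h2 y).differentiableAt) fun y => by
      rw [(h2 y).deriv]; exact h3 y
  have hneg : ∀ y, Φ' y ≤ 0 := by
    intro y₀
    by_contra hc
    push Not at hc
    have h4 : ∀ y, y₀ ≤ y → Φ y₀ + Φ' y₀ * (y - y₀) ≤ Φ y := by
      intro y hy
      have hm : MonotoneOn (fun y => Φ y - Φ' y₀ * y) (Set.Ici y₀) := by
        apply monotoneOn_of_deriv_nonneg (convex_Ici y₀)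
        · exact fun y _ => (((h1 y).continuousAt).sub (by fun_prop)).continuousWithinAt
        · exact fun y _ => (((h1 y).differentiableAt).sub (by fun_prop)).differentiableWithinAt
        · intro y hy
          rw [interior_Ici] at hy
          have h5 : HasDerivAt (fun y => Φ y - Φ' y₀ * y) (Φ' y - Φ' y₀) y := by
            refine HasDerivAt.congr_deriv ((h1 y).sub ((hasDerivAt_id y).const_mul (Φ' y₀))) ?_
            ring
          rw [h5.deriv]
          have := hmono hy.le
          linarith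
      have := hm (Set.self_mem_Ici) hy hy
      simp only at this
      linarith
    have h5 : Tendsto (fun y => Φ y₀ + Φ' y₀ * (y - y₀)) atTop atTop := by
      apply tendsto_atTop_add_const_left
      apply Tendsto.const_mul_atTop hc
      exact tendsto_atTop_add_const_right _ _ tendsto_id
    have h6 : Tendsto Φ atTop atTop :=
      tendsto_atTop_mono' _ ((eventually_ge_atTop y₀).mono h4) h5
    exact not_tendsto_nhds_of_tendsto_atTop h6 L hL
  have hanti : Antitone Φ :=
    antitone_of_deriv_nonpos (fun y => (h1 y).differentiableAt) fun y => by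
      rw [(h1 y).deriv]; exact hneg y
  exact le_of_tendsto hL ((eventually_ge_atTop 0).mono fun y hy => hanti hy)

/-- the conclusion: a density whose second depth derivative is nonnegative up to functions with
vanishing integral -/
theorem depth_convex {ι : Type} {P : ι → Poly d} (hμ : Law μ) (hν : 0 < nu d) (F : Dens ι)
    (h : ∀ y : ℝ, ∃ Z : CC d → ℝ, Zr μ Z ∧ ∀ x, 0 ≤ F.f2 (jet P y x)
      (fun i => -(evz y x (AP (P i)))) (fun i => evz y x (AP (AP (P i)))) + Z x) :
    F.f0 0 ≤ ∫ x, F.f0 (fun i => ev (P i) x) ∂μ := by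
  have h2 : ∀ y : ℝ, 0 ≤ ∫ x, F.f2 (jet P y x)
      (fun i => -(evz y x (AP (P i)))) (fun i => evz y x (AP (AP (P i)))) ∂μ := by
    intro y
    obtain ⟨Z, hZ, hp⟩ := h y
    have hc : Continuous fun x : CC d => F.f2 (jet P y x)
        (fun i => -(evz y x (AP (P i)))) (fun i => evz y x (AP (AP (P i)))) :=
      c_f2 F (c_jet P continuous_const continuous_id)
        (continuous_pi fun _ => (cont_evz continuous_const continuous_id _).neg)
        (continuous_pi fun _ => cont_evz continuous_const continuous_id _)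
    have e := integral_add (μ := μ) (integrable hμ hc) (integrable hμ hZ.1)
    rw [hZ.2, add_zero] at e
    rw [← e]
    exact integral_nonneg hp
  have h3 := le_of_convex (fun y => depth1 (P := P) hμ F y) (fun y => depth2 (P := P) hμ F y) h2
    (depth_lim hμ hν F)
  have e : ∀ x : CC d, jet P ((0 : ℝ) : ℂ) x = fun i => ev (P i) x := fun x => by
    funext i
    simp [jet, evz]
  simpa only [e] using h3

end Pool.Agent.ConeG.FI
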