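import Pool.Agent.Work.MP_b0b133_an.G.FIf
import Pool.Agent.Work.MP_b0b133_an.G.FING

/-!
# Convexity in the depth with costs

* `depth_convex_cost`: the second depth derivative may be negative, if the deficit is bounded by a
  finite sum of exponentials in the depth.
* `dilP y P`: the polynomial with values `e^{-νy} P (e^{-y} x)`, its levels and its energy.
* `holder_cost`: `∫ |F|^{p-2} |K|² ≤ S E(F)^{(p-2)/2} E(K)` for an admissible constant `S ≥ 1`.
* `cost_scalar`, `cost_vector`: the costs of a scalar and of a vector combination, by levels.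
-/

set_option autoImplicit false
open MeasureTheory Complex Filter Topology
open scoped ENNReal ComplexConjugate

namespace Pool.Agent.ConeG.FI

open Alg (integrable norm_le_one ev_smul ev_sub ev_sum AP_smul)

variable {d : ℕ} {μ : Measure (CC d)}

/-! ### Convexity -/

theorem le_of_convex_Ici {Φ Φ' Φ'' : ℝ → ℝ} (h1 : ∀ y, HasDerivAt Φ (Φ' y) y)
    (h2 : ∀ y, HasDerivAt Φ' (Φ'' y) y) (h3 : ∀ y, 0 ≤ y → 0 ≤ Φ'' y) {L : ℝ}
    (hL : Tendsto Φ atTop (𝓝 L)) : L ≤ Φ 0 := by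
  have hmono : MonotoneOn Φ' (Set.Ici 0) := by
    apply monotoneOn_of_deriv_nonneg (convex_Ici 0)
    · exact fun y _ => (h2 y).continuousAt.continuousWithinAt
    · exact fun y _ => (h2 y).differentiableAt.differentiableWithinAt
    · intro y hy
      rw [interior_Ici] at hy
      rw [(h2 y).deriv]
      exact h3 y (Set.mem_Ioi.1 hy).le
  have hneg : ∀ y, 0 ≤ y → Φ' y ≤ 0 := by
    intro y₀ hy0
    by_contra hc
    push Not at hc
    have h4 : ∀ y, y₀ ≤ y → Φ y₀ + Φ' y₀ * (y - y₀) ≤ Φ y := by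
      intro y hy
      have hm : MonotoneOn (fun y => Φ y - Φ' y₀ * y) (Set.Ici y₀) := by
        apply monotoneOn_of_deriv_nonneg (convex_Ici y₀)
        · exact fun y _ => (((h1 y).continuousAt).sub (by fun_prop)).continuousWithinAt
        · exact fun y _ => (((h1 y).differentiableAt).sub (by fun_prop)).differentiableWithinAt
        · intro y hy
          rw [interior_Ici] at hy
          have h5 : HasDerivAt (fun y => Φ y - Φ' y₀ * y) (Φ' y - Φ' y₀) y := by
            refine HasDerivAt.congr_deriv ((h1 y).sub ((hasDerivAt_id y).const_mul (Φ' y₀))) ?_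
            ring
          rw [h5.deriv]
          have hy' : y₀ < y := hy
          have := hmono (Set.mem_Ici.2 hy0) (Set.mem_Ici.2 (hy0.trans hy'.le)) hy'.le
          linarith
      have := hm (Set.self_mem_Ici) hy hy
      simp only at this
      linarith
    have h5 : Tendsto (fun y => Φ y₀ + Φ' y₀ * (y - y₀)) atTop atTop := by
      apply tendsto_atTop_add_const_left
      apply Tendsto.const_mul_atTop hc
      exact tendsto_atTop_add_const_right _ _ tendsto_id
    have h6 : Tendsto Φ atTop atTop :=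
      tendsto_atTop_mono' _ ((eventually_ge_atTop y₀).mono h4) h5
    exact not_tendsto_nhds_of_tendsto_atTop h6 L hL
  have hanti : AntitoneOn Φ (Set.Ici 0) := by
    apply antitoneOn_of_deriv_nonpos (convex_Ici 0)
    · exact fun y _ => (h1 y).continuousAt.continuousWithinAt
    · exact fun y _ => (h1 y).differentiableAt.differentiableWithinAt
    · intro y hy
      rw [interior_Ici] at hy
      rw [(h1 y).deriv]
      exact hneg y (Set.mem_Ioi.1 hy).le
  exact le_of_tendsto hL ((eventually_ge_atTop 0).mono fun y hy =>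
    hanti Set.self_mem_Ici (Set.mem_Ici.2 hy) hy)

/-- the deficit of the convexity is bounded by a finite sum of exponentials -/
theorem le_of_convex_cost {Φ Φ' Φ'' : ℝ → ℝ} (h1 : ∀ y, HasDerivAt Φ (Φ' y) y)
    (h2 : ∀ y, HasDerivAt Φ' (Φ'' y) y) {κ : Type*} (s : Finset κ) (a γ : κ → ℝ)
    (hγ : ∀ i ∈ s, 0 < γ i)
    (h3 : ∀ y, 0 ≤ y → 0 ≤ Φ'' y + ∑ i ∈ s, a i * Real.exp (-(γ i * y))) {L : ℝ}
    (hL : Tendsto Φ atTop (𝓝 L)) : L ≤ Φ 0 + ∑ i ∈ s, a i / γ i ^ 2 := by
  have e1 : ∀ (c : ℝ) (y : ℝ), HasDerivAt (fun y : ℝ => Real.exp (-(c * y)))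
      (-(c * Real.exp (-(c * y)))) y := by
    intro c y
    have h := ((hasDerivAt_id y).const_mul c).neg.exp
    refine HasDerivAt.congr_deriv h ?_
    simp only [id, Pi.neg_apply]
    ring
  have g1 : ∀ y, HasDerivAt (fun y => Φ y + ∑ i ∈ s, a i / γ i ^ 2 * Real.exp (-(γ i * y)))
      (Φ' y + ∑ i ∈ s, -(a i / γ i * Real.exp (-(γ i * y)))) y := by
    intro y
    refine (h1 y).add (HasDerivAt.fun_sum fun i hi => ?_)
    refine HasDerivAt.congr_deriv ((e1 (γ i) y).const_mul (a i / γ i ^ 2)) ?_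
    have := (hγ i hi).ne'
    field_simp
  have g2 : ∀ y, HasDerivAt (fun y => Φ' y + ∑ i ∈ s, -(a i / γ i * Real.exp (-(γ i * y))))
      (Φ'' y + ∑ i ∈ s, a i * Real.exp (-(γ i * y))) y := by
    intro y
    refine (h2 y).add (HasDerivAt.fun_sum fun i hi => ?_)
    refine HasDerivAt.congr_deriv ((e1 (γ i) y).const_mul (a i / γ i)).neg ?_
    have := (hγ i hi).ne'
    field_simp
  have g3 : Tendsto (fun y => Φ y + ∑ i ∈ s, a i / γ i ^ 2 * Real.exp (-(γ i * y))) atTop
      (𝓝 (L + ∑ i ∈ s, a i / γ i ^ 2 * 0)) := by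
    refine hL.add (tendsto_finsetSum _ fun i hi => Tendsto.const_mul _ ?_)
    refine Real.tendsto_exp_atBot.comp ?_
    refine tendsto_neg_atTop_atBot.comp ?_
    exact tendsto_id.const_mul_atTop (hγ i hi)
  have h := le_of_convex_Ici g1 g2 h3 g3
  simpa using h

/-- `depth_convex` with costs: the density `R` may be large where its integral is small -/
theorem depth_convex_cost {ι : Type} {P : ι → Poly d} (hμ : Law μ) (hν : 0 < nu d) (F : Dens ι)
    {κ : Type*} (s : Finset κ) (a γ : κ → ℝ) (hγ : ∀ i ∈ s, 0 < γ i)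
    (h : ∀ y : ℝ, 0 ≤ y → ∃ Z R : CC d → ℝ, Zr μ Z ∧ Integrable R μ ∧
      (∫ x, R x ∂μ ≤ ∑ i ∈ s, a i * Real.exp (-(γ i * y))) ∧ ∀ᵐ x ∂μ, 0 ≤ F.f2 (jet P y x)
        (fun i => -(evz y x (AP (P i)))) (fun i => evz y x (AP (AP (P i)))) + Z x + R x) :
    F.f0 0 ≤ ∫ x, F.f0 (fun i => ev (P i) x) ∂μ + ∑ i ∈ s, a i / γ i ^ 2 := by
  have h2 : ∀ y : ℝ, 0 ≤ y → 0 ≤ ∫ x, F.f2 (jet P y x)
      (fun i => -(evz y x (AP (P i)))) (fun i => evz y x (AP (AP (P i)))) ∂μ +
      ∑ i ∈ s, a i * Real.exp (-(γ i * y)) := by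
    intro y hy
    obtain ⟨Z, R, hZ, hR, hRi, hp⟩ := h y hy
    have hc : Continuous fun x : CC d => F.f2 (jet P y x)
        (fun i => -(evz y x (AP (P i)))) (fun i => evz y x (AP (AP (P i)))) :=
      c_f2 F (c_jet P continuous_const continuous_id)
        (continuous_pi fun _ => (cont_evz continuous_const continuous_id _).neg)
        (continuous_pi fun _ => cont_evz continuous_const continuous_id _)
    have i1 := integrable hμ hc
    have i2 := integrable hμ hZ.1
    have e := integral_add (μ := μ) (i1.add i2) hR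
    have e' := integral_add (μ := μ) i1 i2
    simp only [Pi.add_apply] at e
    have h4 : 0 ≤ ∫ x, (F.f2 (jet P y x) (fun i => -(evz y x (AP (P i))))
        (fun i => evz y x (AP (AP (P i)))) + Z x + R x) ∂μ := integral_nonneg_of_ae hp
    rw [e, e', hZ.2, add_zero] at h4
    linarith
  have h3 := le_of_convex_cost (fun y => depth1 (P := P) hμ F y)
    (fun y => depth2 (P := P) hμ F y) s a γ hγ h2 (depth_lim hμ hν F)
  have e : ∀ x : CC d, jet P ((0 : ℝ) : ℂ) x = fun i => ev (P i) x := fun x => by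
    funext i
    simp [jet, evz]
  simpa only [e] using h3

/-! ### Shifted kernels -/

/-- `(d + σ)² Φ + (d + σ) Ξ ≥ - ∑ a e^{-γ y}` with `Ξ ≥ 0` -/
theorem le_of_shift_cost {Φ Φ' Φ'' Ξ Ξ' : ℝ → ℝ} {σ : ℝ} (h1 : ∀ y, HasDerivAt Φ (Φ' y) y)
    (h2 : ∀ y, HasDerivAt Φ' (Φ'' y) y) (hΞ : ∀ y, HasDerivAt Ξ (Ξ' y) y)
    (hΞ0 : ∀ y, 0 ≤ y → 0 ≤ Ξ y) {κ : Type*} (s : Finset κ) (a γ : κ → ℝ)
    (hγ : ∀ i ∈ s, σ < γ i)
    (h3 : ∀ y, 0 ≤ y → 0 ≤ Φ'' y + 2 * σ * Φ' y + σ ^ 2 * Φ y + (Ξ' y + σ * Ξ y) +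
      ∑ i ∈ s, a i * Real.exp (-(γ i * y)))
    (hL : Tendsto (fun y => Real.exp (σ * y) * Φ y) atTop (𝓝 0))
    (hL2 : Tendsto (fun y => Real.exp (σ * y) * Ξ y) atTop (𝓝 0)) :
    0 ≤ Φ 0 + ∑ i ∈ s, a i / (γ i - σ) ^ 2 := by
  have e1 : ∀ (c : ℝ) (y : ℝ), HasDerivAt (fun y : ℝ => Real.exp (c * y))
      (c * Real.exp (c * y)) y := by
    intro c y
    have h := ((hasDerivAt_id y).const_mul c).exp
    refine HasDerivAt.congr_deriv h ?_
    simp only [id]
    ring
  -- `K = e^{σ y} Φ + G`, `K' = N - e^{σ y} Ξ`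
  set K : ℝ → ℝ := fun y => Real.exp (σ * y) * Φ y +
    ∑ i ∈ s, a i / (γ i - σ) ^ 2 * Real.exp (-(γ i - σ) * y) with hK
  set N : ℝ → ℝ := fun y => Real.exp (σ * y) * (Φ' y + σ * Φ y + Ξ y) -
    ∑ i ∈ s, a i / (γ i - σ) * Real.exp (-(γ i - σ) * y) with hN
  have g1 : ∀ y, HasDerivAt K (N y - Real.exp (σ * y) * Ξ y) y := by
    intro y
    have t1 := (e1 σ y).mul (h1 y)
    have t2 : HasDerivAt (fun y => ∑ i ∈ s, a i / (γ i - σ) ^ 2 * Real.exp (-(γ i - σ) * y))
        (∑ i ∈ s, -(a i / (γ i - σ) * Real.exp (-(γ i - σ) * y))) y := by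
      refine HasDerivAt.fun_sum fun i hi => ?_
      refine HasDerivAt.congr_deriv ((e1 (-(γ i - σ)) y).const_mul (a i / (γ i - σ) ^ 2)) ?_
      have : γ i - σ ≠ 0 := (sub_pos.2 (hγ i hi)).ne'
      field_simp
    refine HasDerivAt.congr_deriv (t1.add t2) ?_
    simp only [hN, Finset.sum_neg_distrib]
    ring
  have g2 : ∀ y, HasDerivAt N (Real.exp (σ * y) * (Φ'' y + 2 * σ * Φ' y + σ ^ 2 * Φ y +
      (Ξ' y + σ * Ξ y) + ∑ i ∈ s, a i * Real.exp (-(γ i * y)))) y := by
    intro y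
    have t1 := (e1 σ y).mul (((h2 y).add ((h1 y).const_mul σ)).add (hΞ y))
    have t2 : HasDerivAt (fun y => ∑ i ∈ s, a i / (γ i - σ) * Real.exp (-(γ i - σ) * y))
        (∑ i ∈ s, -(a i * Real.exp (-(γ i - σ) * y))) y := by
      refine HasDerivAt.fun_sum fun i hi => ?_
      refine HasDerivAt.congr_deriv ((e1 (-(γ i - σ)) y).const_mul (a i / (γ i - σ))) ?_
      have : γ i - σ ≠ 0 := (sub_pos.2 (hγ i hi)).ne'
      field_simp
    have e2 : ∑ i ∈ s, a i * Real.exp (-(γ i - σ) * y) =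
        Real.exp (σ * y) * ∑ i ∈ s, a i * Real.exp (-(γ i * y)) := by
      rw [Finset.mul_sum]
      refine Finset.sum_congr rfl fun i _ => ?_
      rw [show -(γ i - σ) * y = σ * y + -(γ i * y) by ring, Real.exp_add]
      ring
    refine HasDerivAt.congr_deriv (t1.sub t2) ?_
    simp only [Finset.sum_neg_distrib, e2, Pi.add_apply]
    ring
  have g3 : ∀ y, 0 ≤ y → 0 ≤ Real.exp (σ * y) * (Φ'' y + 2 * σ * Φ' y + σ ^ 2 * Φ y +
      (Ξ' y + σ * Ξ y) + ∑ i ∈ s, a i * Real.exp (-(γ i * y))) := fun y hy =>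
    mul_nonneg (Real.exp_pos _).le (h3 y hy)
  have g4 : Tendsto K atTop (𝓝 0) := by
    have : Tendsto K atTop (𝓝 (0 + ∑ i ∈ s, a i / (γ i - σ) ^ 2 * 0)) := by
      refine hL.add (tendsto_finsetSum _ fun i hi => Tendsto.const_mul _ ?_)
      refine Real.tendsto_exp_atBot.comp ?_
      exact tendsto_id.const_mul_atTop_of_neg (by linarith [hγ i hi])
    simpa using this
  have hmono : MonotoneOn N (Set.Ici 0) := by
    apply monotoneOn_of_deriv_nonneg (convex_Ici 0)
    · exact fun y _ => (g2 y).continuousAt.continuousWithinAt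
    · exact fun y _ => (g2 y).differentiableAt.differentiableWithinAt
    · intro y hy
      rw [interior_Ici] at hy
      rw [(g2 y).deriv]
      exact g3 y (Set.mem_Ioi.1 hy).le
  have hneg : ∀ y, 0 ≤ y → N y ≤ 0 := by
    intro y₀ hy0
    by_contra hc
    push Not at hc
    -- eventually the derivative of `K` is at least `N y₀ / 2`
    have q1 : ∀ᶠ y in atTop, Real.exp (σ * y) * Ξ y < N y₀ / 2 :=
      hL2.eventually (gt_mem_nhds (by linarith))
    obtain ⟨y₁, hy1⟩ := (q1.and (eventually_ge_atTop y₀)).exists_forall_of_atTop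
    have h4 : ∀ y, y₁ ≤ y → K y₁ + N y₀ / 2 * (y - y₁) ≤ K y := by
      intro y hy
      have hm : MonotoneOn (fun y => K y - N y₀ / 2 * y) (Set.Ici y₁) := by
        apply monotoneOn_of_deriv_nonneg (convex_Ici y₁)
        · exact fun y _ => (((g1 y).continuousAt).sub (by fun_prop)).continuousWithinAt
        · exact fun y _ => (((g1 y).differentiableAt).sub (by fun_prop)).differentiableWithinAt
        · intro y hy
          rw [interior_Ici] at hy
          have h5 : HasDerivAt (fun y => K y - N y₀ / 2 * y)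
              (N y - Real.exp (σ * y) * Ξ y - N y₀ / 2) y := by
            refine HasDerivAt.congr_deriv ((g1 y).sub ((hasDerivAt_id y).const_mul (N y₀ / 2))) ?_
            ring
          rw [h5.deriv]
          have hy' : y₁ < y := hy
          obtain ⟨w1, w2⟩ := hy1 y hy'.le
          have := hmono (Set.mem_Ici.2 hy0) (Set.mem_Ici.2 (hy0.trans w2)) w2
          linarith
      have := hm (Set.self_mem_Ici) hy hy
      simp only at this
      linarith
    have h5 : Tendsto (fun y => K y₁ + N y₀ / 2 * (y - y₁)) atTop atTop := by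
      apply tendsto_atTop_add_const_left
      apply Tendsto.const_mul_atTop (by linarith : 0 < N y₀ / 2)
      exact tendsto_atTop_add_const_right _ _ tendsto_id
    have h6 : Tendsto K atTop atTop :=
      tendsto_atTop_mono' _ ((eventually_ge_atTop y₁).mono h4) h5
    exact not_tendsto_nhds_of_tendsto_atTop h6 0 g4
  have hanti : AntitoneOn K (Set.Ici 0) := by
    apply antitoneOn_of_deriv_nonpos (convex_Ici 0)
    · exact fun y _ => (g1 y).continuousAt.continuousWithinAt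
    · exact fun y _ => (g1 y).differentiableAt.differentiableWithinAt
    · intro y hy
      rw [interior_Ici] at hy
      have hy' : 0 ≤ y := (Set.mem_Ioi.1 hy).le
      rw [(g1 y).deriv]
      have := mul_nonneg (Real.exp_pos (σ * y)).le (hΞ0 y hy')
      linarith [hneg y hy']
  have h := le_of_tendsto g4 ((eventually_ge_atTop 0).mono fun y hy =>
    hanti Set.self_mem_Ici (Set.mem_Ici.2 hy) hy)
  simpa [hK] using h

/-- densities of quadratic growth at the origin decay like `e^{-2νy}` in the depth -/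
theorem shift_lim {ι : Type} [Fintype ι] {P : ι → Poly d} (hμ : Law μ) (hν : 0 < nu d)
    (F : Dens ι) {σ : ℝ} (hσ : σ < 2 * nu d)
    (hF : ∀ M : ℝ, ∃ C : ℝ, ∀ z : ι → ℂ, (∀ i, ‖z i‖ ≤ M) → |F.f0 z| ≤ C * ∑ i, ‖z i‖ ^ 2) :
    Tendsto (fun y : ℝ => Real.exp (σ * y) * ∫ x, F.f0 (jet P y x) ∂μ) atTop (𝓝 0) := by
  have := hμ.prob
  -- a bound for the values on the ball
  have hB : ∃ B : ℝ, 0 ≤ B ∧ ∀ i, ∀ x ∈ Metric.closedBall (0 : CC d) 1, ‖ev (P i) x‖ ≤ B := by
    have h1 : ∀ i, ∃ B : ℝ, ∀ x ∈ Metric.closedBall (0 : CC d) 1, ‖ev (P i) x‖ ≤ B := fun i => by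
      obtain ⟨B, hB⟩ := (isCompact_closedBall (0 : CC d) 1).bddAbove_image
        ((continuous_ev (P i)).norm.continuousOn)
      exact ⟨B, fun x hx => hB ⟨x, hx, rfl⟩⟩
    choose B hB using h1
    refine ⟨∑ i, |B i|, Finset.sum_nonneg fun i _ => abs_nonneg _, fun i x hx => ?_⟩
    exact (hB i x hx).trans ((le_abs_self _).trans
      (Finset.single_le_sum (f := fun i => |B i|) (fun i _ => abs_nonneg _) (Finset.mem_univ i)))
  obtain ⟨B, hB0, hB⟩ := hB
  have hz : ∀ y : ℝ, 0 ≤ y → ∀ i, ∀ x ∈ Metric.closedBall (0 : CC d) 1,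
      ‖evz (y : ℂ) x (P i)‖ ≤ Real.exp (-(nu d * y)) * B := by
    intro y hy i x hx
    unfold evz
    rw [norm_mul]
    have e1 : ‖cexp (-((nu d : ℂ) * (y : ℂ)))‖ = Real.exp (-(nu d * y)) := by
      rw [Complex.norm_exp]
      congr 1
      simp
    rw [e1]
    refine mul_le_mul_of_nonneg_left (hB i _ ?_) (Real.exp_pos _).le
    rw [mem_closedBall_zero_iff] at hx ⊢
    have e2 : (fun k => cexp (-(y : ℂ)) * x k) = (cexp (-(y : ℂ))) • x := rfl
    rw [e2, norm_smul]
    have e3 : ‖cexp (-(y : ℂ))‖ = Real.exp (-y) := by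
      rw [Complex.norm_exp]
      congr 1
    rw [e3]
    have e4 : Real.exp (-y) ≤ 1 := Real.exp_le_one_iff.2 (by linarith)
    calc Real.exp (-y) * ‖x‖ ≤ 1 * 1 :=
          mul_le_mul e4 hx (norm_nonneg _) zero_le_one
      _ = 1 := one_mul 1
  obtain ⟨C, hC⟩ := hF B
  set A : ℝ := |C| * ∑ _i : ι, B ^ 2 with hA
  have hb : ∀ y : ℝ, 0 ≤ y → |∫ x, F.f0 (jet P y x) ∂μ| ≤ A * Real.exp (-(2 * nu d * y)) := by
    intro y hy
    have h1 : ∀ᵐ x ∂μ, ‖F.f0 (jet P y x)‖ ≤ A * Real.exp (-(2 * nu d * y)) := by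
      filter_upwards [ae_ball hμ] with x hx
      have h2 : ∀ i, ‖jet P y x i‖ ≤ Real.exp (-(nu d * y)) * B := fun i => hz y hy i x hx
      have h3 : ∀ i, ‖jet P y x i‖ ≤ B := fun i => (h2 i).trans (by
        have : Real.exp (-(nu d * y)) ≤ 1 := Real.exp_le_one_iff.2 (by
          have := mul_nonneg hν.le hy
          linarith)
        nlinarith)
      have h4 := hC (jet P y x) h3
      rw [Real.norm_eq_abs]
      refine h4.trans ?_
      have h5 : ∑ i, ‖jet P y x i‖ ^ 2 ≤ ∑ _i : ι, Real.exp (-(2 * nu d * y)) * B ^ 2 := by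
        refine Finset.sum_le_sum fun i _ => ?_
        have h6 := pow_le_pow_left₀ (norm_nonneg _) (h2 i) 2
        refine h6.trans_eq ?_
        rw [mul_pow, ← Real.exp_nat_mul]
        congr 2
        push_cast
        ring
      have h7 : 0 ≤ ∑ i, ‖jet P y x i‖ ^ 2 := Finset.sum_nonneg fun i _ => by positivity
      calc C * ∑ i, ‖jet P y x i‖ ^ 2 ≤ |C| * ∑ i, ‖jet P y x i‖ ^ 2 :=
            mul_le_mul_of_nonneg_right (le_abs_self _) h7
        _ ≤ |C| * ∑ _i : ι, Real.exp (-(2 * nu d * y)) * B ^ 2 :=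
            mul_le_mul_of_nonneg_left h5 (abs_nonneg _)
        _ = A * Real.exp (-(2 * nu d * y)) := by
            rw [hA, ← Finset.mul_sum]
            ring
    have h2 := norm_integral_le_of_norm_le_const h1
    simpa using h2
  have hlim : Tendsto (fun y : ℝ => A * Real.exp (-(2 * nu d - σ) * y)) atTop (𝓝 0) := by
    have : Tendsto (fun y : ℝ => A * Real.exp (-(2 * nu d - σ) * y)) atTop (𝓝 (A * 0)) := by
      refine Tendsto.const_mul _ (Real.tendsto_exp_atBot.comp ?_)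
      exact tendsto_id.const_mul_atTop_of_neg (by linarith)
    simpa using this
  refine squeeze_zero_norm' ?_ hlim
  filter_upwards [eventually_ge_atTop 0] with y hy
  rw [norm_mul, Real.norm_eq_abs, Real.norm_eq_abs, abs_of_pos (Real.exp_pos _)]
  calc Real.exp (σ * y) * |∫ x, F.f0 (jet P y x) ∂μ| ≤
        Real.exp (σ * y) * (A * Real.exp (-(2 * nu d * y))) :=
        mul_le_mul_of_nonneg_left (hb y hy) (Real.exp_pos _).le
    _ = A * Real.exp (-(2 * nu d - σ) * y) := by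
        rw [show -(2 * nu d - σ) * y = σ * y + -(2 * nu d * y) by ring, Real.exp_add]
        ring

/-- `depth_convex` with a shift `σ`, a nonnegative density under one derivative, and costs -/
theorem depth_convex_shift {ι : Type} [Fintype ι] {P : ι → Poly d} (hμ : Law μ) (hν : 0 < nu d)
    (F Ξ : Dens ι) {σ : ℝ} (hσ : σ < 2 * nu d)
    (hF : ∀ M : ℝ, ∃ C : ℝ, ∀ z : ι → ℂ, (∀ i, ‖z i‖ ≤ M) → |F.f0 z| ≤ C * ∑ i, ‖z i‖ ^ 2)
    (hΞ : ∀ M : ℝ, ∃ C : ℝ, ∀ z : ι → ℂ, (∀ i, ‖z i‖ ≤ M) → |Ξ.f0 z| ≤ C * ∑ i, ‖z i‖ ^ 2)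
    (hΞ0 : ∀ z, 0 ≤ Ξ.f0 z) {κ : Type*} (s : Finset κ) (a γ : κ → ℝ) (hγ : ∀ i ∈ s, σ < γ i)
    (h : ∀ y : ℝ, 0 ≤ y → ∃ Z R : CC d → ℝ, Zr μ Z ∧ Integrable R μ ∧
      (∫ x, R x ∂μ ≤ ∑ i ∈ s, a i * Real.exp (-(γ i * y))) ∧ ∀ᵐ x ∂μ, 0 ≤ F.f2 (jet P y x)
        (fun i => -(evz y x (AP (P i)))) (fun i => evz y x (AP (AP (P i)))) +
        2 * σ * F.f1 (jet P y x) (fun i => -(evz y x (AP (P i)))) + σ ^ 2 * F.f0 (jet P y x) +
        (Ξ.f1 (jet P y x) (fun i => -(evz y x (AP (P i)))) + σ * Ξ.f0 (jet P y x)) + Z x + R x) :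
    0 ≤ ∫ x, F.f0 (fun i => ev (P i) x) ∂μ + ∑ i ∈ s, a i / (γ i - σ) ^ 2 := by
  have h2 : ∀ y : ℝ, 0 ≤ y → 0 ≤ ∫ x, F.f2 (jet P y x)
      (fun i => -(evz y x (AP (P i)))) (fun i => evz y x (AP (AP (P i)))) ∂μ +
      2 * σ * ∫ x, F.f1 (jet P y x) (fun i => -(evz y x (AP (P i)))) ∂μ +
      σ ^ 2 * ∫ x, F.f0 (jet P y x) ∂μ +
      (∫ x, Ξ.f1 (jet P y x) (fun i => -(evz y x (AP (P i)))) ∂μ +
        σ * ∫ x, Ξ.f0 (jet P y x) ∂μ) +
      ∑ i ∈ s, a i * Real.exp (-(γ i * y)) := by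
    intro y hy
    obtain ⟨Z, R, hZ, hR, hRi, hp⟩ := h y hy
    have cj := c_jet P (X := CC d) (z := fun _ => (y : ℂ)) (x := fun x => x)
      continuous_const continuous_id
    have c1 : Continuous fun x : CC d => (fun i => -(evz (y : ℂ) x (AP (P i)))) :=
      continuous_pi fun _ => (cont_evz continuous_const continuous_id _).neg
    have c2 : Continuous fun x : CC d => (fun i => evz (y : ℂ) x (AP (AP (P i)))) :=
      continuous_pi fun _ => cont_evz continuous_const continuous_id _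
    have i1 := integrable hμ (c_f2 F cj c1 c2)
    have i2 := (integrable hμ (c_f1 F cj c1)).const_mul (2 * σ)
    have i3 := (integrable hμ (c_f0 F cj)).const_mul (σ ^ 2)
    have i4 := integrable hμ (c_f1 Ξ cj c1)
    have i5 := (integrable hμ (c_f0 Ξ cj)).const_mul σ
    have i6 := integrable hμ hZ.1
    have h4 : 0 ≤ ∫ x, (F.f2 (jet P y x)
        (fun i => -(evz y x (AP (P i)))) (fun i => evz y x (AP (AP (P i)))) +
        2 * σ * F.f1 (jet P y x) (fun i => -(evz y x (AP (P i)))) + σ ^ 2 * F.f0 (jet P y x) +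
        (Ξ.f1 (jet P y x) (fun i => -(evz y x (AP (P i)))) + σ * Ξ.f0 (jet P y x)) + Z x +
        R x) ∂μ := integral_nonneg_of_ae hp
    have e1 := integral_add (μ := μ) ((((i1.add i2).add i3).add (i4.add i5)).add i6) hR
    have e2 := integral_add (μ := μ) (((i1.add i2).add i3).add (i4.add i5)) i6
    have e3 := integral_add (μ := μ) ((i1.add i2).add i3) (i4.add i5)
    have e4 := integral_add (μ := μ) (i1.add i2) i3
    have e5 := integral_add (μ := μ) i1 i2
    have e6 := integral_add (μ := μ) i4 i5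
    simp only [Pi.add_apply] at e1 e2 e3 e4 e5 e6
    rw [e1, e2, e3, e4, e5, e6, hZ.2, add_zero, integral_const_mul, integral_const_mul,
      integral_const_mul] at h4
    linarith
  have h3 := le_of_shift_cost (σ := σ) (fun y => depth1 (P := P) hμ F y)
    (fun y => depth2 (P := P) hμ F y) (fun y => depth1 (P := P) hμ Ξ y)
    (fun y _ => integral_nonneg fun x => hΞ0 _) s a γ hγ h2 (shift_lim hμ hν F hσ hF)
    (shift_lim hμ hν Ξ hσ hΞ)
  have e : ∀ x : CC d, jet P ((0 : ℝ) : ℂ) x = fun i => ev (P i) x := fun x => by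
    funext i
    simp [jet, evz]
  simpa only [e] using h3

end Pool.Agent.ConeG.FI
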