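import Pool.Agent.Work.MP_b0b133_an.G.FIg

/-!
# Level multipliers and the costs

* `mlt m P`: the polynomial `∑_l m(l) P_l`, `P_l` the homogeneous components of `P`; its levels and
  its energy (`lv_mlt`, `En_mlt`), `mlt_AP`, `mlt_LP`, `mlt_mem`.
* `evz_eq_ev_mlt`: the values at depth `y` are the values of `mlt (e^{-(l+ν)y}) P`.
* `holder`: `∫ |F|^{p-2} |K|² ≤ S E(F)^{(p-2)/2} E(K)` for an admissible constant `S ≥ 1`.
* `cost_scalar`, `cost_vector`: the costs of the values at depth `y`, also for the regularised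
  weight `fpw δ (p-2)`.
-/

set_option autoImplicit false
open MeasureTheory Complex Filter Topology
open scoped ENNReal ComplexConjugate

namespace Pool.Agent.ConeG.FI

variable {d : ℕ} {μ : Measure (CC d)}

/-! ### Level multipliers -/

/-- `∑_l m(l) P_l` -/
noncomputable def mlt (m : ℕ → ℝ) (P : Poly d) : Poly d :=
  ∑ l ∈ Finset.range (P.totalDegree + 1), ((m l : ℝ) : ℂ) • Alg.hc l P

theorem hc_hc (l k : ℕ) (P : Poly d) :
    Alg.hc l (Alg.hc k P) = if l = k then Alg.hc k P else 0 :=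
  MvPolynomial.homogeneousComponent_of_mem (MvPolynomial.homogeneousComponent_mem k P)

theorem hc_zero_of_lt {P : Poly d} {l : ℕ} (hl : P.totalDegree < l) : Alg.hc l P = 0 :=
  MvPolynomial.homogeneousComponent_eq_zero l P hl

theorem hc_add (l : ℕ) (P Q : Poly d) : Alg.hc l (P + Q) = Alg.hc l P + Alg.hc l Q :=
  map_add _ _ _

theorem hc_smul (l : ℕ) (c : ℂ) (P : Poly d) : Alg.hc l (c • P) = c • Alg.hc l P :=
  map_smul _ _ _

theorem mlt_eq (m : ℕ → ℝ) (P : Poly d) (n : ℕ) (hn : P.totalDegree < n) :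
    mlt m P = ∑ l ∈ Finset.range n, ((m l : ℝ) : ℂ) • Alg.hc l P := by
  unfold mlt
  refine Finset.sum_subset (Finset.range_mono (by omega)) fun l _ hl => ?_
  rw [Finset.mem_range, not_lt] at hl
  rw [hc_zero_of_lt (by omega), smul_zero]

theorem hc_mlt (m : ℕ → ℝ) (P : Poly d) (l : ℕ) :
    Alg.hc l (mlt m P) = ((m l : ℝ) : ℂ) • Alg.hc l P := by
  rw [mlt_eq m P (P.totalDegree + l + 1) (by omega)]
  have h1 : Alg.hc l (∑ k ∈ Finset.range (P.totalDegree + l + 1), ((m k : ℝ) : ℂ) • Alg.hc k P) =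
      ∑ k ∈ Finset.range (P.totalDegree + l + 1), ((m k : ℝ) : ℂ) • Alg.hc l (Alg.hc k P) := by
    rw [Alg.hc, map_sum]
    exact Finset.sum_congr rfl fun k _ => map_smul _ _ _
  rw [h1, Finset.sum_eq_single l]
  · rw [hc_hc, if_pos rfl]
  · intro k _ hk
    rw [hc_hc, if_neg (Ne.symm hk), smul_zero]
  · intro h
    exact absurd (Finset.mem_range.2 (by omega)) h

/-- polynomials with the same homogeneous components are equal -/
theorem ext_hc {P Q : Poly d} (h : ∀ l, Alg.hc l P = Alg.hc l Q) : P = Q := by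
  have h1 := Alg.sum_hc P (P.totalDegree + Q.totalDegree + 1) (by omega)
  have h2 := Alg.sum_hc Q (P.totalDegree + Q.totalDegree + 1) (by omega)
  rw [← h1]
  exact (Finset.sum_congr rfl fun l _ => h l).trans h2

theorem mlt_mem (m : ℕ → ℝ) {P : Poly d} (h : P ∈ HP d) : mlt m P ∈ HP d :=
  (HP d).sum_mem fun l _ => (HP d).smul_mem _ (Alg.hc_mem_HP l h)

theorem mlt_congr {m m' : ℕ → ℝ} (h : ∀ l, m l = m' l) (P : Poly d) : mlt m P = mlt m' P := by
  unfold mlt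
  exact Finset.sum_congr rfl fun l _ => by rw [h l]

theorem mlt_one (P : Poly d) : mlt (fun _ => 1) P = P :=
  ext_hc fun l => by rw [hc_mlt]; simp

theorem mlt_add (m m' : ℕ → ℝ) (P : Poly d) :
    mlt (fun l => m l + m' l) P = mlt m P + mlt m' P :=
  ext_hc fun l => by
    rw [hc_add, hc_mlt, hc_mlt, hc_mlt, ← add_smul]
    push_cast
    rfl

theorem mlt_const_mul (c : ℝ) (m : ℕ → ℝ) (P : Poly d) :
    mlt (fun l => c * m l) P = (c : ℂ) • mlt m P :=
  ext_hc fun l => by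
    rw [hc_smul, hc_mlt, hc_mlt, smul_smul]
    push_cast
    rfl

theorem mlt_const (c : ℝ) (P : Poly d) : mlt (fun _ => c) P = (c : ℂ) • P := by
  have := mlt_const_mul c (fun _ => 1) P
  simpa only [mul_one, mlt_one] using this

theorem mlt_mlt (m m' : ℕ → ℝ) (P : Poly d) : mlt m (mlt m' P) = mlt (fun l => m l * m' l) P :=
  ext_hc fun l => by
    rw [hc_mlt, hc_mlt, hc_mlt, smul_smul]
    push_cast
    rfl

theorem mlt_AP (P : Poly d) : AP P = mlt (fun l => (l : ℝ) + nu d) P :=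
  ext_hc fun l => by
    rw [hc_mlt]
    have e1 : Alg.hc l (AP P) = ((l : ℂ) + (nu d : ℂ)) • Alg.hc l P := Alg.hc_AP l P
    rw [e1]
    push_cast
    rfl

theorem AP_mlt (m : ℕ → ℝ) (P : Poly d) : AP (mlt m P) = mlt m (AP P) := by
  rw [mlt_AP, mlt_AP, mlt_mlt, mlt_mlt]
  exact mlt_congr (fun l => mul_comm _ _) P

theorem LP_mlt (i j : Fin (d + 1)) (m : ℕ → ℝ) (P : Poly d) :
    LP i j (mlt m P) = mlt m (LP i j P) := by
  -- `L_ij` preserves the homogeneous components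
  have h1 : ∀ (l : ℕ) (Q : Poly d), Alg.hc l (LP i j Q) = LP i j (Alg.hc l Q) := by
    intro l Q
    have key : ∀ (a b : Fin (d + 1)) (Q : Poly d) (l : ℕ),
        Alg.hc l (MvPolynomial.X a * MvPolynomial.pderiv b Q) =
          MvPolynomial.X a * MvPolynomial.pderiv b (Alg.hc l Q) := by
      intro a b Q l
      conv_lhs => rw [← Alg.sum_hc Q (Q.totalDegree + l + 1) (by omega), map_sum, Finset.mul_sum]
      rw [Alg.hc, map_sum, Finset.sum_eq_single l]
      · have hh : (MvPolynomial.X a * MvPolynomial.pderiv b (Alg.hc l Q) : Poly d).IsHomogeneous l := by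
          rcases l with _ | l
          · rw [Alg.pderiv_hc_zero, mul_zero]
            exact MvPolynomial.isHomogeneous_zero _ _ _
          · have := (MvPolynomial.isHomogeneous_X ℂ a).mul
              ((MvPolynomial.homogeneousComponent_isHomogeneous (l + 1) Q).pderiv (i := b))
            simpa [add_comm] using this
        have := MvPolynomial.homogeneousComponent_of_mem (m := l) (n := l)
          ((MvPolynomial.mem_homogeneousSubmodule l _).2 hh)
        simpa using this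
      · intro k _ hk
        have hh : (MvPolynomial.X a * MvPolynomial.pderiv b (Alg.hc k Q) : Poly d).IsHomogeneous k := by
          rcases k with _ | k
          · rw [Alg.pderiv_hc_zero, mul_zero]
            exact MvPolynomial.isHomogeneous_zero _ _ _
          · have := (MvPolynomial.isHomogeneous_X ℂ a).mul
              ((MvPolynomial.homogeneousComponent_isHomogeneous (k + 1) Q).pderiv (i := b))
            simpa [add_comm] using this
        have := MvPolynomial.homogeneousComponent_of_mem (m := l) (n := k)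
          ((MvPolynomial.mem_homogeneousSubmodule k _).2 hh)
        rw [this, if_neg (Ne.symm hk)]
      · intro h
        exact absurd (Finset.mem_range.2 (by omega)) h
    unfold LP
    rw [Alg.hc, map_sub]
    exact congrArg₂ (· - ·) (key i j Q l) (key j i Q l)
  refine ext_hc fun l => ?_
  rw [h1, hc_mlt, hc_mlt, h1, Alg.LP_smul]

theorem lv_mlt (m : ℕ → ℝ) (P : Poly d) (l : ℕ) :
    Alg.lv μ (mlt m P) l = m l ^ 2 * Alg.lv μ P l := by
  unfold Alg.lv
  rw [hc_mlt, ← integral_const_mul]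
  refine integral_congr_ae (Eventually.of_forall fun x => ?_)
  change ‖ev (((m l : ℝ) : ℂ) • Alg.hc l P) x‖ ^ 2 = m l ^ 2 * ‖ev (Alg.hc l P) x‖ ^ 2
  rw [Alg.ev_smul, norm_mul, mul_pow, norm_real, Real.norm_eq_abs, sq_abs]

/-- the energy of a multiple -/
theorem En_mlt (hμ : Law μ) (m : ℕ → ℝ) (P : Poly d) :
    En μ (mlt m P) = Lev μ (fun l => m l ^ 2) P := by
  set n := (mlt m P).totalDegree + (AP (mlt m P)).totalDegree + P.totalDegree + 1 with hn
  rw [Alg.En_eq hμ (mlt m P) n (by omega) (by omega), FING.Lev_eq _ P n (by omega)]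
  refine Finset.sum_congr rfl fun l _ => ?_
  rw [lv_mlt]
  ring

/-- `Lev` of a multiple -/
theorem Lev_mlt (k m : ℕ → ℝ) (P : Poly d) :
    Lev μ k (mlt m P) = Lev μ (fun l => k l * m l ^ 2) P := by
  set n := (mlt m P).totalDegree + P.totalDegree + 1 with hn
  rw [FING.Lev_eq _ (mlt m P) n (by omega), FING.Lev_eq _ P n (by omega)]
  refine Finset.sum_congr rfl fun l _ => ?_
  rw [lv_mlt]
  ring

theorem Lev_congr {m m' : ℕ → ℝ} (h : ∀ l, m l = m' l) (P : Poly d) : Lev μ m P = Lev μ m' P := by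
  unfold Lev
  exact Finset.sum_congr rfl fun l _ => by rw [h l]

/-- the energy of the rotated family -/
theorem En_LP_mlt (hd : 0 < nu d) (hμ : Law μ) (m : ℕ → ℝ) {P : Poly d} (h : P ∈ HP d) :
    1 / 2 * ∑ i, ∑ j, En μ (LP i j (mlt m P)) =
      Lev μ (fun l => (((l : ℝ) + nu d) ^ 2 - nu d ^ 2) * m l ^ 2) P := by
  rw [En_LP_sum hd hμ _ (mlt_mem m h), ← FING.Lev_x2 hd hμ, AP_mlt, mlt_AP P, mlt_mlt, En_mlt hμ,
    Lev_mlt]
  have e1 : Lev μ (fun l => (m l * ((l : ℝ) + nu d)) ^ 2) P =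
      Lev μ (fun l => (((l : ℝ) + nu d) ^ 2 - nu d ^ 2) * m l ^ 2) P +
        Lev μ (fun l => xl d l ^ 2 * (m l * ((l : ℝ) + nu d)) ^ 2) P := by
    rw [← FING.Lev_add]
    refine Lev_congr (fun l => ?_) P
    have : ((l : ℝ) + nu d) ≠ 0 := by positivity
    unfold xl
    field_simp
    ring
  rw [e1]
  ring

/-! ### Values in the depth -/

theorem ev_hom_smul {Q : Poly d} {l : ℕ} (h : Q.IsHomogeneous l) (c : ℂ) (x : CC d) :
    ev Q (fun k => c * x k) = c ^ l * ev Q x := by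
  unfold ev
  rw [MvPolynomial.eval_eq', MvPolynomial.eval_eq', Finset.mul_sum]
  refine Finset.sum_congr rfl fun s hs => ?_
  have h1 := h (MvPolynomial.mem_support_iff.1 hs)
  have h2 : ∑ i, s i = l := by
    rw [← h1, Finsupp.weight_apply, Finsupp.sum_fintype _ _ (fun _ => by simp)]
    simp
  simp only [mul_pow, Finset.prod_mul_distrib, Finset.prod_pow_eq_pow_sum, h2]
  ring

theorem ev_sum' {κ : Type*} (s : Finset κ) (P : κ → Poly d) (x : CC d) :
    ev (∑ l ∈ s, P l) x = ∑ l ∈ s, ev (P l) x := by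
  unfold ev
  exact map_sum _ _ _

/-- the values at depth `y` -/
theorem evz_eq_ev_mlt (y : ℝ) (x : CC d) (P : Poly d) :
    evz (y : ℂ) x P = ev (mlt (fun l => Real.exp (-(((l : ℝ) + nu d) * y))) P) x := by
  unfold evz mlt
  conv_lhs => rw [← Alg.sum_hc P (P.totalDegree + 1) (by omega)]
  rw [ev_sum', ev_sum', Finset.mul_sum]
  refine Finset.sum_congr rfl fun l _ => ?_
  rw [ev_hom_smul (MvPolynomial.homogeneousComponent_isHomogeneous l P), Alg.ev_smul, ← mul_assoc,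
    ← Complex.exp_nat_mul, ← Complex.exp_add]
  congr 1
  push_cast
  congr 1
  ring

theorem cont_ev_mlt (m : ℕ → ℝ) (P : Poly d) : Continuous (ev (mlt m P)) := continuous_ev _

/-- the energy of the values at depth `y` -/
noncomputable def Ey (μ : Measure (CC d)) (y : ℝ) (P : Poly d) : ℝ :=
  Lev μ (fun l => Real.exp (-(2 * ((l : ℝ) + nu d) * y))) P

theorem Ey_eq (hμ : Law μ) (y : ℝ) (P : Poly d) :
    Ey μ y P = En μ (mlt (fun l => Real.exp (-(((l : ℝ) + nu d) * y))) P) := by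
  rw [En_mlt hμ]
  refine Lev_congr (fun l => ?_) P
  rw [← Real.exp_nat_mul]
  congr 1
  push_cast
  ring

theorem Ey_nonneg (hν : 0 < nu d) (hμ : Law μ) (y : ℝ) (P : Poly d) : 0 ≤ Ey μ y P := by
  rw [Ey_eq hμ]
  exact En_nonneg hν.le hμ _

theorem Ey_le (hν : 0 < nu d) (hμ : Law μ) {y : ℝ} (hy : 0 ≤ y) (P : Poly d) :
    Ey μ y P ≤ Real.exp (-(2 * nu d * y)) * En μ P := by
  rw [← FING.Lev_one hμ, ← FING.Lev_smul]
  refine FING.Lev_mono hν (fun l => ?_) P
  rw [mul_one]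
  refine Real.exp_le_exp.2 ?_
  have := mul_nonneg (Nat.cast_nonneg (α := ℝ) l) hy
  nlinarith

theorem Ey_mlt (y : ℝ) (m : ℕ → ℝ) (P : Poly d) :
    Ey μ y (mlt m P) = Lev μ (fun l => m l ^ 2 * Real.exp (-(2 * ((l : ℝ) + nu d) * y))) P := by
  unfold Ey
  rw [Lev_mlt]
  exact Lev_congr (fun l => mul_comm _ _) P

/-- the energy of the rotated family at depth `y` -/
theorem Ey_LP (hν : 0 < nu d) (hμ : Law μ) (y : ℝ) (m : ℕ → ℝ) {P : Poly d} (h : P ∈ HP d) :
    1 / 2 * ∑ i, ∑ j, Ey μ y (LP i j (mlt m P)) =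
      Lev μ (fun l => (((l : ℝ) + nu d) ^ 2 - nu d ^ 2) * m l ^ 2 *
        Real.exp (-(2 * ((l : ℝ) + nu d) * y))) P := by
  have e1 : ∀ i j : Fin (d + 1), Ey μ y (LP i j (mlt m P)) =
      En μ (LP i j (mlt (fun l => Real.exp (-(((l : ℝ) + nu d) * y)) * m l) P)) := fun i j => by
    rw [Ey_eq hμ, ← LP_mlt, mlt_mlt]
  simp only [e1]
  rw [En_LP_mlt hν hμ _ h]
  refine Lev_congr (fun l => ?_) P
  rw [mul_pow, ← Real.exp_nat_mul]
  have : ((2 : ℕ) : ℝ) * -(((l : ℝ) + nu d) * y) = -(2 * ((l : ℝ) + nu d) * y) := by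
    push_cast
    ring
  rw [this]
  ring

/-! ### Hoelder's inequality -/

theorem memLp_cont (hμ : Law μ) {f : CC d → ℝ} (hf : Continuous f) (p : ℝ≥0∞) : MemLp f p μ := by
  have := hμ.prob
  obtain ⟨M, hM⟩ := (isCompact_closedBall (0 : CC d) 1).bddAbove_image hf.norm.continuousOn
  refine MemLp.of_bound hf.aestronglyMeasurable M ?_
  filter_upwards [ae_ball hμ] with x hx
  exact hM ⟨x, hx, rfl⟩

/-- `∫ |F|^{p-2} |K|² ≤ S E(F)^{(p-2)/2} E(K)` -/
theorem holder [Fact (2 ≤ d)] (hμ : Law μ) {S : ℝ} (hS : 1 ≤ S) (hmax : Adm μ S) {F K : Poly d}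
    (hF : F ∈ HP d) (hK : K ∈ HP d) :
    ∫ x, ‖ev F x‖ ^ (pe d - 2) * ‖ev K x‖ ^ 2 ∂μ ≤
      S * En μ F ^ ((pe d - 2) / 2) * En μ K := by
  have hν := nu_pos d
  have hp2 := pe_gt d
  have hp0 : (0 : ℝ) < pe d := by linarith
  have hq0 : 0 < pe d - 2 := by linarith
  have hS0 : 0 < S := by linarith
  set p := pe d with hp
  have hc : (p / (p - 2)).HolderConjugate (p / 2) := by
    rw [Real.holderConjugate_iff]
    refine ⟨?_, ?_⟩
    · rw [one_lt_div hq0]; linarith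
    · field_simp
      ring
  have cF : Continuous fun x => ‖ev F x‖ ^ (p - 2) :=
    (continuous_ev F).norm.rpow_const fun _ => Or.inr hq0.le
  have cK : Continuous fun x => ‖ev K x‖ ^ 2 := (continuous_ev K).norm.pow 2
  have h := integral_mul_le_Lp_mul_Lq_of_nonneg (μ := μ) hc
    (f := fun x => ‖ev F x‖ ^ (p - 2)) (g := fun x => ‖ev K x‖ ^ 2)
    (Eventually.of_forall fun x => by positivity)
    (Eventually.of_forall fun x => by positivity)
    (memLp_cont hμ cF _) (memLp_cont hμ cK _)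
  have e1 : ∀ x, (‖ev F x‖ ^ (p - 2)) ^ (p / (p - 2)) = ‖ev F x‖ ^ p := fun x => by
    rw [← Real.rpow_mul (norm_nonneg _)]
    congr 1
    field_simp
  have e2 : ∀ x, (‖ev K x‖ ^ 2) ^ (p / 2) = ‖ev K x‖ ^ p := fun x => by
    rw [← Real.rpow_natCast, ← Real.rpow_mul (norm_nonneg _)]
    congr 1
    push_cast
    field_simp
  simp only [e1, e2, one_div_div] at h
  refine h.trans ?_
  have iF : 0 ≤ ∫ x, ‖ev F x‖ ^ p ∂μ := integral_nonneg fun x => by positivity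
  have iK : 0 ≤ ∫ x, ‖ev K x‖ ^ p ∂μ := integral_nonneg fun x => by positivity
  have eF : 0 ≤ En μ F := En_nonneg hν.le hμ F
  have eK : 0 ≤ En μ K := En_nonneg hν.le hμ K
  have a1 : (∫ x, ‖ev F x‖ ^ p ∂μ) ^ ((p - 2) / p) ≤
      S ^ ((p - 2) / p) * En μ F ^ ((p - 2) / 2) := by
    have := Real.rpow_le_rpow iF (hmax F hF) (show 0 ≤ (p - 2) / p by positivity)
    refine this.trans_eq ?_
    rw [Real.mul_rpow hS0.le (by positivity), ← Real.rpow_mul eF, ← hp]
    congr 2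
    field_simp
  have a2 : (∫ x, ‖ev K x‖ ^ p ∂μ) ^ (2 / p) ≤ S ^ (2 / p) * En μ K := by
    have := Real.rpow_le_rpow iK (hmax K hK) (show 0 ≤ 2 / p by positivity)
    refine this.trans_eq ?_
    rw [Real.mul_rpow hS0.le (by positivity), ← Real.rpow_mul eK]
    rw [show p / 2 * (2 / p) = 1 by field_simp, Real.rpow_one]
  have a3 := mul_le_mul a1 a2 (Real.rpow_nonneg iK _) (by positivity)
  refine a3.trans_eq ?_
  have e3 : S ^ ((p - 2) / p) * S ^ (2 / p) = S := by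
    rw [← Real.rpow_add hS0, show (p - 2) / p + 2 / p = 1 by field_simp; ring, Real.rpow_one]
  calc S ^ ((p - 2) / p) * En μ F ^ ((p - 2) / 2) * (S ^ (2 / p) * En μ K)
      = (S ^ ((p - 2) / p) * S ^ (2 / p)) * En μ F ^ ((p - 2) / 2) * En μ K := by ring
    _ = _ := by rw [e3]

/-- Hoelder's inequality at depth `y` -/
theorem holder_y [Fact (2 ≤ d)] (hμ : Law μ) {S : ℝ} (hS : 1 ≤ S) (hmax : Adm μ S) {F K : Poly d}
    (hF : F ∈ HP d) (hK : K ∈ HP d) (y : ℝ) :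
    ∫ x, ‖evz (y : ℂ) x F‖ ^ (pe d - 2) * ‖evz (y : ℂ) x K‖ ^ 2 ∂μ ≤
      S * Ey μ y F ^ ((pe d - 2) / 2) * Ey μ y K := by
  rw [Ey_eq hμ, Ey_eq hμ]
  simp only [evz_eq_ev_mlt]
  exact holder hμ hS hmax (mlt_mem _ hF) (mlt_mem _ hK)

theorem fpw_le {δ s : ℝ} (hδ : 0 ≤ δ) (hs0 : 0 ≤ s) (hs : s ≤ 2) (F : ℂ) :
    fpw δ s F ≤ ‖F‖ ^ s + δ ^ s := by
  unfold fpw rs
  rw [dot_self]
  have h := Real.rpow_add_le_add_rpow (p := s / 2) (sq_nonneg ‖F‖) (sq_nonneg δ) (by linarith)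
    (by linarith)
  refine h.trans_eq ?_
  rw [← Real.rpow_natCast, ← Real.rpow_natCast, ← Real.rpow_mul (norm_nonneg _),
    ← Real.rpow_mul hδ]
  push_cast
  rw [mul_div_cancel₀ s two_ne_zero]

/-- the `L²` norm at depth `y` is at most the energy -/
theorem int_sq_evz_le (hν : 0 < nu d) (hμ : Law μ) (y : ℝ) (K : Poly d) :
    ∫ x, ‖evz (y : ℂ) x K‖ ^ 2 ∂μ ≤ Ey μ y K := by
  rw [Ey_eq hμ]
  simp only [evz_eq_ev_mlt]
  rw [← FING.Lev_x hν hμ, ← FING.Lev_one hμ]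
  exact FING.Lev_mono hν (fun l => FING.xl_le_one hν l) _

/-- the cost of `K` at depth `y`, regularised weight -/
theorem cost_reg [Fact (2 ≤ d)] (hμ : Law μ) (hp : pe d - 2 ≤ 2) {S : ℝ} (hS : 1 ≤ S)
    (hmax : Adm μ S) {F K : Poly d} (hF : F ∈ HP d) (hK : K ∈ HP d) {δ : ℝ} (hδ : 0 < δ) (y : ℝ) :
    ∫ x, fpw δ (pe d - 2) (evz (y : ℂ) x F) * ‖evz (y : ℂ) x K‖ ^ 2 ∂μ ≤
      (S * Ey μ y F ^ ((pe d - 2) / 2) + δ ^ (pe d - 2)) * Ey μ y K := by
  have hν := nu_pos d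
  have hq0 : 0 < pe d - 2 := by linarith [pe_gt d]
  have cF : Continuous fun x : CC d => evz (y : ℂ) x F := cont_evz continuous_const continuous_id _
  have cK : Continuous fun x : CC d => evz (y : ℂ) x K := cont_evz continuous_const continuous_id _
  have i1 : Integrable (fun x => ‖evz (y : ℂ) x F‖ ^ (pe d - 2) * ‖evz (y : ℂ) x K‖ ^ 2) μ :=
    Alg.integrable hμ ((cF.norm.rpow_const fun _ => Or.inr hq0.le).mul (cK.norm.pow 2))
  have i2 : Integrable (fun x => δ ^ (pe d - 2) * ‖evz (y : ℂ) x K‖ ^ 2) μ :=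
    Alg.integrable hμ (continuous_const.mul (cK.norm.pow 2))
  have i3 : Integrable (fun x => fpw δ (pe d - 2) (evz (y : ℂ) x F) * ‖evz (y : ℂ) x K‖ ^ 2) μ :=
    Alg.integrable hμ ((c_fpw hδ _ cF).mul (cK.norm.pow 2))
  calc ∫ x, fpw δ (pe d - 2) (evz (y : ℂ) x F) * ‖evz (y : ℂ) x K‖ ^ 2 ∂μ
      ≤ ∫ x, (‖evz (y : ℂ) x F‖ ^ (pe d - 2) * ‖evz (y : ℂ) x K‖ ^ 2 +
          δ ^ (pe d - 2) * ‖evz (y : ℂ) x K‖ ^ 2) ∂μ := by
        refine integral_mono i3 (i1.add i2) fun x => ?_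
        change _ ≤ ‖evz (y : ℂ) x F‖ ^ (pe d - 2) * ‖evz (y : ℂ) x K‖ ^ 2 +
          δ ^ (pe d - 2) * ‖evz (y : ℂ) x K‖ ^ 2
        rw [← add_mul]
        exact mul_le_mul_of_nonneg_right (fpw_le hδ.le hq0.le hp _) (sq_nonneg _)
    _ = ∫ x, ‖evz (y : ℂ) x F‖ ^ (pe d - 2) * ‖evz (y : ℂ) x K‖ ^ 2 ∂μ +
          δ ^ (pe d - 2) * ∫ x, ‖evz (y : ℂ) x K‖ ^ 2 ∂μ := by
        rw [integral_add i1 i2, integral_const_mul]
    _ ≤ S * Ey μ y F ^ ((pe d - 2) / 2) * Ey μ y K + δ ^ (pe d - 2) * Ey μ y K :=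
        add_le_add (holder_y hμ hS hmax hF hK y)
          (mul_le_mul_of_nonneg_left (int_sq_evz_le hν hμ y K) (by positivity))
    _ = _ := by ring

/-- the cost of the rotated family of `mlt m P` at depth `y`, regularised weight -/
theorem cost_reg_LP [Fact (2 ≤ d)] (hμ : Law μ) (hp : pe d - 2 ≤ 2) {S : ℝ} (hS : 1 ≤ S)
    (hmax : Adm μ S) {F P : Poly d} (hF : F ∈ HP d) (hP : P ∈ HP d) (m : ℕ → ℝ) {δ : ℝ}
    (hδ : 0 < δ) (y : ℝ) :
    ∫ x, fpw δ (pe d - 2) (evz (y : ℂ) x F) *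
        (1 / 2 * ∑ i, ∑ j, ‖evz (y : ℂ) x (LP i j (mlt m P))‖ ^ 2) ∂μ ≤
      (S * Ey μ y F ^ ((pe d - 2) / 2) + δ ^ (pe d - 2)) *
        Lev μ (fun l => (((l : ℝ) + nu d) ^ 2 - nu d ^ 2) * m l ^ 2 *
          Real.exp (-(2 * ((l : ℝ) + nu d) * y))) P := by
  have hν := nu_pos d
  have cF : Continuous fun x : CC d => evz (y : ℂ) x F := cont_evz continuous_const continuous_id _
  have i0 : ∀ i j, Integrable (fun x => fpw δ (pe d - 2) (evz (y : ℂ) x F) *
      ‖evz (y : ℂ) x (LP i j (mlt m P))‖ ^ 2) μ := fun i j =>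
    Alg.integrable hμ ((c_fpw hδ _ cF).mul
      ((cont_evz continuous_const continuous_id _).norm.pow 2))
  have e1 : ∀ x : CC d, fpw δ (pe d - 2) (evz (y : ℂ) x F) *
      (1 / 2 * ∑ i, ∑ j, ‖evz (y : ℂ) x (LP i j (mlt m P))‖ ^ 2) =
      1 / 2 * ∑ i, ∑ j, fpw δ (pe d - 2) (evz (y : ℂ) x F) *
        ‖evz (y : ℂ) x (LP i j (mlt m P))‖ ^ 2 := fun x => by
    simp only [← Finset.mul_sum]
    ring
  simp only [e1]
  rw [integral_const_mul, integral_finsetSum _ fun i _ => integrable_finsetSum _ fun j _ => i0 i j]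
  have e2 : ∀ i, ∫ x, ∑ j, fpw δ (pe d - 2) (evz (y : ℂ) x F) *
      ‖evz (y : ℂ) x (LP i j (mlt m P))‖ ^ 2 ∂μ = ∑ j, ∫ x, fpw δ (pe d - 2) (evz (y : ℂ) x F) *
      ‖evz (y : ℂ) x (LP i j (mlt m P))‖ ^ 2 ∂μ := fun i => integral_finsetSum _ fun j _ => i0 i j
  simp only [e2]
  rw [← Ey_LP hν hμ y m hP]
  calc 1 / 2 * ∑ i, ∑ j, ∫ x, fpw δ (pe d - 2) (evz (y : ℂ) x F) *
          ‖evz (y : ℂ) x (LP i j (mlt m P))‖ ^ 2 ∂μ
      ≤ 1 / 2 * ∑ i, ∑ j, (S * Ey μ y F ^ ((pe d - 2) / 2) + δ ^ (pe d - 2)) *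
          Ey μ y (LP i j (mlt m P)) := by
        refine mul_le_mul_of_nonneg_left (Finset.sum_le_sum fun i _ => Finset.sum_le_sum fun j _ =>
          ?_) (by norm_num)
        refine cost_reg hμ hp hS hmax hF ?_ hδ y
        rw [LP_mlt]
        exact mlt_mem _ (HP_LP_mem i j P hP)
    _ = _ := by
        simp only [← Finset.mul_sum]
        ring

end Pool.Agent.ConeG.FI
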