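import Pool.Agent.Work.MP_b0b133_an.G.FIi

/-!
# The cost density and the limit of the regularisation

* `kapG w0 r0 w1 r1`: the level multiplier of the costs `w0 |F - r0 H|² + w1 |b - r1 v|²`.
* `Rden`: the cost density, `Rden_cont`, `Rden_int`.
* `target_le`: the regularised target integral is at most the target integral plus `C δ^q`.
* `le_of_reg`: removing the regularisation.
-/

set_option autoImplicit false
open MeasureTheory Complex Filter Topology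
open scoped ENNReal ComplexConjugate

namespace Pool.Agent.ConeG

variable {d : ℕ} {μ : Measure (CC d)}

/-- the multiplier of the costs `w0 |F - r0 H|² + w1 |b - r1 v|²` at a level -/
noncomputable def kapG (d : ℕ) (w0 r0 w1 r1 : ℝ) (l : ℕ) : ℝ :=
  w0 * (1 - r0 * xl d l) ^ 2 + (nl d l ^ 2 - 1) * (w1 * (1 - r1 * xl d l) ^ 2)

namespace FI

theorem kapG_nonneg (hν : 0 < nu d) {w0 r0 w1 r1 : ℝ} (h0 : 0 ≤ w0) (h1 : 0 ≤ w1) (l : ℕ) :
    0 ≤ kapG d w0 r0 w1 r1 l := by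
  have h : 0 ≤ nl d l ^ 2 - 1 := by
    have := nl_ge_one hν l
    nlinarith
  unfold kapG
  positivity

/-- the cost density at depth `y`; `F = AP ψ`, `H = ν ψ`, `b = ν⁻¹ L F`, `v = L ψ` -/
noncomputable def Rden (δ w0 r0 w1 r1 : ℝ) (ψ : Poly d) (y : ℝ) (x : CC d) : ℝ :=
  nu d ^ 2 * (fpw δ (pe d - 2) (evz (y : ℂ) x (AP ψ)) *
    (w0 * ‖evz (y : ℂ) x (AP ψ) - (r0 : ℂ) * ((nu d : ℂ) * evz (y : ℂ) x ψ)‖ ^ 2 +
      w1 * (1 / 2 * ∑ i, ∑ j, ‖((nu d : ℂ)⁻¹) * evz (y : ℂ) x (LP i j (AP ψ)) -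
        (r1 : ℂ) * evz (y : ℂ) x (LP i j ψ)‖ ^ 2)))

theorem Rden_cont {δ : ℝ} (hδ : 0 < δ) (w0 r0 w1 r1 : ℝ) (ψ : Poly d) (y : ℝ) :
    Continuous (Rden δ w0 r0 w1 r1 ψ y) := by
  have c0 : ∀ P : Poly d, Continuous fun x : CC d => evz (y : ℂ) x P := fun P =>
    cont_evz continuous_const continuous_id _
  unfold Rden
  refine continuous_const.mul ((c_fpw hδ _ (c0 _)).mul ?_)
  refine (continuous_const.mul (((c0 _).sub (continuous_const.mul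
    (continuous_const.mul (c0 _)))).norm.pow 2)).add (continuous_const.mul (continuous_const.mul ?_))
  exact continuous_finsetSum _ fun i _ => continuous_finsetSum _ fun j _ =>
    (((continuous_const.mul (c0 _)).sub (continuous_const.mul (c0 _))).norm.pow 2)

theorem mlt_xl (hν : 0 < nu d) (ψ : Poly d) : mlt (xl d) (AP ψ) = (nu d : ℂ) • ψ := by
  rw [mlt_AP, mlt_mlt, ← mlt_const]
  refine mlt_congr (fun l => ?_) ψ
  have : ((l : ℝ) + nu d) ≠ 0 := by positivity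
  unfold xl
  field_simp

theorem mlt_sub' (m m' : ℕ → ℝ) (P : Poly d) :
    mlt (fun l => m l - m' l) P = mlt m P - mlt m' P := by
  have h := mlt_add m (fun l => (-1) * m' l) P
  rw [mlt_const_mul] at h
  have e : mlt (fun l => m l - m' l) P = mlt (fun l => m l + (-1) * m' l) P :=
    mlt_congr (fun l => by ring) P
  rw [e, h]
  push_cast
  rw [neg_smul, one_smul, sub_eq_add_neg]

/-- the bound of the integral of the cost density -/
theorem Rden_int [Fact (2 ≤ d)] (hμ : Law μ) (hp : pe d - 2 ≤ 2) {S : ℝ} (hS : 1 ≤ S)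
    (hmax : Adm μ S) {ψ : Poly d} (hψ : ψ ∈ HP d) {δ : ℝ} (hδ : 0 < δ) {w0 r0 w1 r1 : ℝ}
    (h0 : 0 ≤ w0) (h1 : 0 ≤ w1) (y : ℝ) :
    ∫ x, Rden δ w0 r0 w1 r1 ψ y x ∂μ ≤
      nu d ^ 2 * ((S * Ey μ y (AP ψ) ^ ((pe d - 2) / 2) + δ ^ (pe d - 2)) *
        Lev μ (fun l => kapG d w0 r0 w1 r1 l * Real.exp (-(2 * ((l : ℝ) + nu d) * y))) (AP ψ)) := by
  have hν := nu_pos d
  have hF : AP ψ ∈ HP d := HP_AP_mem ψ hψ
  have c0 : ∀ P : Poly d, Continuous fun x : CC d => evz (y : ℂ) x P := fun P =>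
    cont_evz continuous_const continuous_id _
  -- the polynomials of the two combinations
  set K0 : Poly d := mlt (fun l => 1 - r0 * xl d l) (AP ψ) with hK0
  set K1 : Poly d := mlt (fun l => (nu d)⁻¹ * (1 - r1 * xl d l)) (AP ψ) with hK1
  have eK0 : ∀ x, evz (y : ℂ) x K0 =
      evz (y : ℂ) x (AP ψ) - (r0 : ℂ) * ((nu d : ℂ) * evz (y : ℂ) x ψ) := by
    intro x
    rw [hK0, mlt_sub' (fun _ => 1) (fun l => r0 * xl d l), mlt_one, mlt_const_mul, mlt_xl hν,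
      evz_sub, evz_smul, evz_smul]
  have eK1 : ∀ (i j : Fin (d + 1)) (x : CC d), evz (y : ℂ) x (LP i j K1) =
      ((nu d : ℂ)⁻¹) * evz (y : ℂ) x (LP i j (AP ψ)) - (r1 : ℂ) * evz (y : ℂ) x (LP i j ψ) := by
    intro i j x
    have e1 : K1 = ((nu d : ℂ)⁻¹) • AP ψ - (r1 : ℂ) • ψ := by
      rw [hK1, mlt_const_mul, mlt_sub' (fun _ => 1) (fun l => r1 * xl d l), mlt_one,
        mlt_const_mul, mlt_xl hν, smul_sub]
      congr 1
      · push_cast; rfl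
      · rw [smul_smul, smul_smul]
        congr 1
        push_cast
        have : (nu d : ℂ) ≠ 0 := by exact_mod_cast hν.ne'
        field_simp
    rw [e1, Alg.LP_sub, Alg.LP_smul, Alg.LP_smul, evz_sub, evz_smul, evz_smul]
  have b0 := cost_reg hμ hp hS hmax hF (mlt_mem (fun l => 1 - r0 * xl d l) hF) hδ y
  have b1 := cost_reg_LP hμ hp hS hmax hF hF (fun l => (nu d)⁻¹ * (1 - r1 * xl d l)) hδ y
  rw [← hK0] at b0
  rw [← hK1] at b1
  set W := S * Ey μ y (AP ψ) ^ ((pe d - 2) / 2) + δ ^ (pe d - 2) with hW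
  have i0 : Integrable (fun x => fpw δ (pe d - 2) (evz (y : ℂ) x (AP ψ)) *
      ‖evz (y : ℂ) x K0‖ ^ 2) μ :=
    Alg.integrable hμ ((c_fpw hδ _ (c0 _)).mul ((c0 _).norm.pow 2))
  have i1 : Integrable (fun x => fpw δ (pe d - 2) (evz (y : ℂ) x (AP ψ)) *
      (1 / 2 * ∑ i, ∑ j, ‖evz (y : ℂ) x (LP i j K1)‖ ^ 2)) μ :=
    Alg.integrable hμ ((c_fpw hδ _ (c0 _)).mul (continuous_const.mul
      (continuous_finsetSum _ fun i _ => continuous_finsetSum _ fun j _ => (c0 _).norm.pow 2)))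
  have e2 : ∀ x, Rden δ w0 r0 w1 r1 ψ y x = nu d ^ 2 *
      (w0 * (fpw δ (pe d - 2) (evz (y : ℂ) x (AP ψ)) * ‖evz (y : ℂ) x K0‖ ^ 2) +
       w1 * (fpw δ (pe d - 2) (evz (y : ℂ) x (AP ψ)) *
        (1 / 2 * ∑ i, ∑ j, ‖evz (y : ℂ) x (LP i j K1)‖ ^ 2))) := by
    intro x
    simp only [Rden, eK0, eK1]
    ring
  simp only [e2]
  rw [integral_const_mul, integral_add (i0.const_mul _) (i1.const_mul _), integral_const_mul,
    integral_const_mul]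
  refine mul_le_mul_of_nonneg_left ?_ (sq_nonneg _)
  have e3 : Lev μ (fun l => kapG d w0 r0 w1 r1 l * Real.exp (-(2 * ((l : ℝ) + nu d) * y))) (AP ψ) =
      w0 * Ey μ y K0 + w1 * Lev μ (fun l => (((l : ℝ) + nu d) ^ 2 - nu d ^ 2) *
        ((nu d)⁻¹ * (1 - r1 * xl d l)) ^ 2 * Real.exp (-(2 * ((l : ℝ) + nu d) * y))) (AP ψ) := by
    rw [hK0, Ey_mlt, ← FING.Lev_smul, ← FING.Lev_smul, ← FING.Lev_add]
    refine Lev_congr (fun l => ?_) _
    unfold kapG nl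
    field_simp
  rw [e3]
  calc w0 * ∫ x, fpw δ (pe d - 2) (evz (y : ℂ) x (AP ψ)) * ‖evz (y : ℂ) x K0‖ ^ 2 ∂μ +
        w1 * ∫ x, fpw δ (pe d - 2) (evz (y : ℂ) x (AP ψ)) *
          (1 / 2 * ∑ i, ∑ j, ‖evz (y : ℂ) x (LP i j K1)‖ ^ 2) ∂μ
      ≤ w0 * (W * Ey μ y K0) + w1 * (W * Lev μ (fun l => (((l : ℝ) + nu d) ^ 2 - nu d ^ 2) *
        ((nu d)⁻¹ * (1 - r1 * xl d l)) ^ 2 * Real.exp (-(2 * ((l : ℝ) + nu d) * y))) (AP ψ)) :=
        add_le_add (mul_le_mul_of_nonneg_left b0 h0) (mul_le_mul_of_nonneg_left b1 h1)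
    _ = _ := by ring

/-! ### The limit -/

theorem le_fpw {δ s : ℝ} (hs0 : 0 ≤ s) (F : ℂ) : ‖F‖ ^ s ≤ fpw δ s F := by
  unfold fpw rs
  rw [dot_self]
  have e : ‖F‖ ^ s = (‖F‖ ^ 2) ^ (s / 2) := by
    rw [← Real.rpow_natCast, ← Real.rpow_mul (norm_nonneg _)]
    congr 1
    push_cast
    ring
  rw [e]
  exact Real.rpow_le_rpow (sq_nonneg _) (by linarith [sq_nonneg δ]) (by linarith)

/-- the integrand of the target without the power of `|F|` -/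
noncomputable def Tden (c a : ℝ) (ψ : Poly d) (x : CC d) : ℝ :=
  ‖(nu d : ℂ) * ev ψ x‖ ^ 2 + 1 / 2 * ∑ i, ∑ j, ‖ev (LP i j ψ) x‖ ^ 2 -
    c * ‖ev (AP ψ) x‖ ^ 2 - a * dot (ev (AP ψ) x) ((nu d : ℂ) * ev ψ x)

theorem Tden_cont (c a : ℝ) (ψ : Poly d) : Continuous (Tden c a ψ) := by
  have c0 : ∀ P : Poly d, Continuous (ev P) := fun P => continuous_ev P
  unfold Tden
  refine (((((continuous_const.mul (c0 ψ)).norm.pow 2)).add (continuous_const.mul ?_)).sub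
    (continuous_const.mul ((c0 _).norm.pow 2))).sub (continuous_const.mul (c_dot (c0 _)
      (continuous_const.mul (c0 _))))
  exact continuous_finsetSum _ fun i _ => continuous_finsetSum _ fun j _ => (c0 _).norm.pow 2

theorem int_target [Fact (2 ≤ d)] (hμ : Law μ) (c a : ℝ) (ψ : Poly d) :
    ∫ x, ‖ev (AP ψ) x‖ ^ (pe d - 2) * Tden c a ψ x ∂μ =
      DG μ 0 0 ψ - c * Ip μ (AP ψ) - a * Zq μ ψ := by
  have hq0 : 0 < pe d - 2 := by linarith [pe_gt d]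
  have c0 : ∀ P : Poly d, Continuous (ev P) := fun P => continuous_ev P
  have cq : Continuous fun x => ‖ev (AP ψ) x‖ ^ (pe d - 2) :=
    (c0 _).norm.rpow_const fun _ => Or.inr hq0.le
  have cs : Continuous fun x : CC d => 1 / 2 * ∑ i, ∑ j, ‖ev (LP i j ψ) x‖ ^ 2 :=
    continuous_const.mul (continuous_finsetSum _ fun i _ => continuous_finsetSum _ fun j _ =>
      (c0 _).norm.pow 2)
  have i1 : Integrable (fun x => ‖ev (AP ψ) x‖ ^ (pe d - 2) * ‖(nu d : ℂ) * ev ψ x‖ ^ 2) μ :=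
    Alg.integrable hμ (cq.mul ((continuous_const.mul (c0 ψ)).norm.pow 2))
  have i2 : Integrable (fun x => ‖ev (AP ψ) x‖ ^ (pe d - 2) *
      (1 / 2 * ∑ i, ∑ j, ‖ev (LP i j ψ) x‖ ^ 2)) μ := Alg.integrable hμ (cq.mul cs)
  have i3 : Integrable (fun x => c * ‖ev (AP ψ) x‖ ^ pe d) μ :=
    (FING.integrable_rpow_ev hμ _).const_mul c
  have cz : Continuous fun x => ‖ev (AP ψ) x‖ ^ (pe d - 2) *
      dot (ev (AP ψ) x) ((nu d : ℂ) * ev ψ x) :=
    cq.mul (c_dot (c0 _) (continuous_const.mul (c0 _)))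
  have i4 : Integrable (fun x => a * (‖ev (AP ψ) x‖ ^ (pe d - 2) *
      dot (ev (AP ψ) x) ((nu d : ℂ) * ev ψ x))) μ := (Alg.integrable hμ cz).const_mul a
  have e1 : ∀ x, ‖ev (AP ψ) x‖ ^ (pe d - 2) * Tden c a ψ x =
      ‖ev (AP ψ) x‖ ^ (pe d - 2) * ‖(nu d : ℂ) * ev ψ x‖ ^ 2 +
      ‖ev (AP ψ) x‖ ^ (pe d - 2) * (1 / 2 * ∑ i, ∑ j, ‖ev (LP i j ψ) x‖ ^ 2) -
      c * ‖ev (AP ψ) x‖ ^ pe d - a * (‖ev (AP ψ) x‖ ^ (pe d - 2) *
        dot (ev (AP ψ) x) ((nu d : ℂ) * ev ψ x)) := by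
    intro x
    have e2 : ‖ev (AP ψ) x‖ ^ pe d = ‖ev (AP ψ) x‖ ^ (pe d - 2) * ‖ev (AP ψ) x‖ ^ 2 := by
      rw [← Real.rpow_natCast ‖ev (AP ψ) x‖ 2, ← Real.rpow_add' (norm_nonneg _)]
      · congr 1
        push_cast
        ring
      · push_cast
        linarith
    rw [e2, Tden]
    ring
  simp only [e1]
  have f1 := integral_sub (μ := μ) ((i1.add i2).sub i3) i4
  have f2 := integral_sub (μ := μ) (i1.add i2) i3
  have f3 := integral_add (μ := μ) i1 i2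
  simp only [Pi.add_apply, Pi.sub_apply] at f1 f2 f3
  rw [f1, f2, f3, integral_const_mul, integral_const_mul]
  have eZ : ∫ x, ‖ev (AP ψ) x‖ ^ (pe d - 2) * dot (ev (AP ψ) x) ((nu d : ℂ) * ev ψ x) ∂μ =
      Zq μ ψ := by
    unfold Zq
    have cc : Continuous fun x => ((‖ev (AP ψ) x‖ ^ (pe d - 2) : ℝ) : ℂ) *
        (conj (ev (AP ψ) x) * ((nu d : ℂ) * ev ψ x)) :=
      (continuous_ofReal.comp cq).mul ((continuous_conj.comp (c0 _)).mul
        (continuous_const.mul (c0 _)))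
    have ic : Integrable (fun x => ((‖ev (AP ψ) x‖ ^ (pe d - 2) : ℝ) : ℂ) *
        (conj (ev (AP ψ) x) * ((nu d : ℂ) * ev ψ x))) μ := by
      have := hμ.prob
      obtain ⟨M, hM⟩ := (isCompact_closedBall (0 : CC d) 1).bddAbove_image cc.norm.continuousOn
      refine Integrable.of_bound cc.aestronglyMeasurable M ?_
      filter_upwards [ae_ball hμ] with x hx
      exact hM ⟨x, hx, rfl⟩
    have := integral_re ic
    rw [show (∫ x, ((‖ev (AP ψ) x‖ ^ (pe d - 2) : ℝ) : ℂ) *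
        (conj (ev (AP ψ) x) * ((nu d : ℂ) * ev ψ x)) ∂μ).re =
        RCLike.re (∫ x, ((‖ev (AP ψ) x‖ ^ (pe d - 2) : ℝ) : ℂ) *
        (conj (ev (AP ψ) x) * ((nu d : ℂ) * ev ψ x)) ∂μ) from rfl, ← this]
    refine integral_congr_ae (Eventually.of_forall fun x => ?_)
    change _ = (((‖ev (AP ψ) x‖ ^ (pe d - 2) : ℝ) : ℂ) *
        (conj (ev (AP ψ) x) * ((nu d : ℂ) * ev ψ x))).re
    rw [re_ofReal_mul]
    unfold dot
    simp only [mul_re, conj_re, conj_im]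
    ring
  rw [eZ]
  unfold DG Hq Vq Ip
  ring

/-- the regularised target -/
theorem target_le [Fact (2 ≤ d)] (hμ : Law μ) (hp : pe d - 2 ≤ 2) (c a : ℝ) (ψ : Poly d) :
    ∃ C : ℝ, 0 ≤ C ∧ ∀ δ : ℝ, 0 < δ →
      ∫ x, fpw δ (pe d - 2) (ev (AP ψ) x) * Tden c a ψ x ∂μ ≤
        DG μ 0 0 ψ - c * Ip μ (AP ψ) - a * Zq μ ψ + C * δ ^ (pe d - 2) := by
  have hq0 : 0 < pe d - 2 := by linarith [pe_gt d]
  have cT := Tden_cont c a ψ
  have cq : Continuous fun x => ‖ev (AP ψ) x‖ ^ (pe d - 2) :=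
    (continuous_ev _).norm.rpow_const fun _ => Or.inr hq0.le
  refine ⟨∫ x, |Tden c a ψ x| ∂μ, integral_nonneg fun x => abs_nonneg _, fun δ hδ => ?_⟩
  have i1 : Integrable (fun x => ‖ev (AP ψ) x‖ ^ (pe d - 2) * Tden c a ψ x) μ :=
    Alg.integrable hμ (cq.mul cT)
  have i2 : Integrable (fun x => |Tden c a ψ x| * δ ^ (pe d - 2)) μ :=
    Alg.integrable hμ (cT.abs.mul continuous_const)
  have i3 : Integrable (fun x => fpw δ (pe d - 2) (ev (AP ψ) x) * Tden c a ψ x) μ :=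
    Alg.integrable hμ ((c_fpw hδ _ (continuous_ev _)).mul cT)
  rw [← int_target hμ c a ψ, ← integral_mul_const, ← integral_add i1 i2]
  refine integral_mono i3 (i1.add i2) fun x => ?_
  change fpw δ (pe d - 2) (ev (AP ψ) x) * Tden c a ψ x ≤
    ‖ev (AP ψ) x‖ ^ (pe d - 2) * Tden c a ψ x + |Tden c a ψ x| * δ ^ (pe d - 2)
  have h1 := fpw_le (δ := δ) hδ.le hq0.le hp (ev (AP ψ) x)
  have h2 := le_fpw (δ := δ) hq0.le (ev (AP ψ) x)
  have h3 : (fpw δ (pe d - 2) (ev (AP ψ) x) - ‖ev (AP ψ) x‖ ^ (pe d - 2)) * Tden c a ψ x ≤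
      δ ^ (pe d - 2) * |Tden c a ψ x| := by
    calc (fpw δ (pe d - 2) (ev (AP ψ) x) - ‖ev (AP ψ) x‖ ^ (pe d - 2)) * Tden c a ψ x ≤
          (fpw δ (pe d - 2) (ev (AP ψ) x) - ‖ev (AP ψ) x‖ ^ (pe d - 2)) * |Tden c a ψ x| :=
          mul_le_mul_of_nonneg_left (le_abs_self _) (by linarith)
      _ ≤ _ := mul_le_mul_of_nonneg_right (by linarith) (abs_nonneg _)
  linarith

/-- removing the regularisation -/
theorem le_of_reg {q A B C : ℝ} (hq : 0 < q) (h : ∀ δ : ℝ, 0 < δ → δ ≤ 1 → A ≤ B + C * δ ^ q) :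
    A ≤ B := by
  have h1 : Tendsto (fun δ : ℝ => B + C * δ ^ q) (𝓝[>] 0) (𝓝 (B + C * 0 ^ q)) := by
    refine Tendsto.mono_left ?_ nhdsWithin_le_nhds
    exact (tendsto_const_nhds.add ((Real.continuousAt_rpow_const 0 q (Or.inr hq.le)).tendsto.const_mul
      C))
  rw [Real.zero_rpow hq.ne', mul_zero, add_zero] at h1
  refine ge_of_tendsto h1 ?_
  have : Set.Ioc (0 : ℝ) 1 ∈ 𝓝[>] (0 : ℝ) := Ioc_mem_nhdsGT one_pos
  filter_upwards [this] with δ hδ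
  exact h δ hδ.1 hδ.2

/-- the functional inequality from the regularised depth inequalities: for every `δ` a number
`X δ` (the integral of the regularised density) with `0 ≤ X δ + S Cst + C δ^q` and
`X δ ≤ ∫ f_δ^q T` -/
theorem funcGF_of_reg [Fact (2 ≤ d)] (hμ : Law μ) (hp : pe d - 2 ≤ 2) {c a : ℝ}
    {Cst : Poly d → ℝ}
    (h : ∀ S : ℝ, 1 ≤ S → Adm μ S → ∀ ψ ∈ HP d, En μ (AP ψ) = 1 → ∃ C : ℝ, ∀ δ : ℝ, 0 < δ → δ ≤ 1 →
      0 ≤ ∫ x, fpw δ (pe d - 2) (ev (AP ψ) x) * Tden c a ψ x ∂μ + S * Cst (AP ψ) +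
        C * δ ^ (pe d - 2)) :
    FuncGF μ 0 0 c a Cst := by
  intro S hS hmax ψ hψ hE
  have hq0 : 0 < pe d - 2 := by linarith [pe_gt d]
  obtain ⟨C, hC⟩ := h S hS hmax ψ hψ hE
  obtain ⟨C', -, hC'⟩ := target_le hμ hp c a ψ
  have := le_of_reg (A := 0) (B := DG μ 0 0 ψ - c * Ip μ (AP ψ) - a * Zq μ ψ + S * Cst (AP ψ))
    (C := C + C') hq0 fun δ h0 h1 => by
      have h2 := hC δ h0 h1
      have h3 := hC' δ h0
      linarith
  linarith

end FI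

end Pool.Agent.ConeG
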