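import Mathlib

/-!
# Certificates with constant coefficients, and their regularisation

* `Prm`: the parameters of a certificate; `Prm.q0`, `Prm.q1`: the two real forms. The variable `r` is
  `|F| / (|F|² + δ²)^(1/2)`, so that `r = 1` is the case without regularisation.
* `Prm.reg0`, `Prm.reg1`: if the forms are nonnegative for `r = 1`, then for `0 ≤ r ≤ 1` they are
  at least `-C (1 - r²)` times a quadratic form.
-/

set_option autoImplicit false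

namespace Pool.Agent.ConeG.FI

/-! ### Functions which are Lipschitz in the parameter -/

section lip

variable {X : Type*} {M : X → ℝ} {T U : ℝ → X → ℝ}

/-- Lipschitz in the parameter at `1`, with weight `M` -/
def Lip (M : X → ℝ) (T : ℝ → X → ℝ) : Prop :=
  ∃ K : ℝ, 0 ≤ K ∧ ∀ r : ℝ, 0 ≤ r → r ≤ 1 → ∀ x, |T r x - T 1 x| ≤ K * (1 - r) * M x

theorem Lip.add (h : Lip M T) (h' : Lip M U) : Lip M fun r x => T r x + U r x := by
  obtain ⟨K, hK, h⟩ := h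
  obtain ⟨K', hK', h'⟩ := h'
  refine ⟨K + K', by positivity, fun r h0 h1 x => ?_⟩
  have e : T r x + U r x - (T 1 x + U 1 x) = (T r x - T 1 x) + (U r x - U 1 x) := by ring
  rw [e]
  refine (abs_add_le _ _).trans ((add_le_add (h r h0 h1 x) (h' r h0 h1 x)).trans_eq ?_)
  ring

theorem Lip.cmul (c : ℝ) (h : Lip M T) : Lip M fun r x => c * T r x := by
  obtain ⟨K, hK, h⟩ := h
  refine ⟨|c| * K, by positivity, fun r h0 h1 x => ?_⟩
  rw [← mul_sub, abs_mul]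
  refine (mul_le_mul_of_nonneg_left (h r h0 h1 x) (abs_nonneg c)).trans_eq ?_
  ring

theorem one_sub_pow_le' {r : ℝ} (h0 : 0 ≤ r) (h1 : r ≤ 1) (k : ℕ) : 1 - r ^ k ≤ k * (1 - r) := by
  induction k with
  | zero => simp
  | succ k ih =>
    have h2 : 0 ≤ r ^ k := pow_nonneg h0 k
    have h3 : r ^ k ≤ 1 := pow_le_one₀ h0 h1
    rw [pow_succ]
    push_cast
    nlinarith

theorem Lip.mon (k : ℕ) (K : ℝ) (hK : 0 ≤ K) {m : X → ℝ} (hm : ∀ x, |m x| ≤ K * M x) :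
    Lip M fun r x => r ^ k * m x := by
  refine ⟨k * K, by positivity, fun r h0 h1 x => ?_⟩
  have e : r ^ k * m x - 1 ^ k * m x = -((1 - r ^ k) * m x) := by rw [one_pow]; ring
  have h2 : r ^ k ≤ 1 := pow_le_one₀ h0 h1
  rw [e, abs_neg, abs_mul, abs_of_nonneg (by linarith)]
  have h3 := one_sub_pow_le' h0 h1 k
  calc (1 - r ^ k) * |m x| ≤ (k * (1 - r)) * (K * M x) :=
        mul_le_mul h3 (hm x) (abs_nonneg _) (by
          have : 0 ≤ 1 - r := by linarith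
          positivity)
    _ = k * K * (1 - r) * M x := by ring

theorem Lip.congr (h : Lip M T) (e : ∀ r x, T r x = U r x) : Lip M U := by
  have : T = U := funext fun r => funext fun x => e r x
  rwa [← this]

/-- bounded with weight `N`, for parameters in `[0, 1]` -/
def Bdd (N : ℝ → X → ℝ) (T : ℝ → X → ℝ) : Prop :=
  ∃ K : ℝ, 0 ≤ K ∧ ∀ r : ℝ, 0 ≤ r → r ≤ 1 → ∀ x, |T r x| ≤ K * N r x

variable {N : ℝ → X → ℝ}

theorem Bdd.add (h : Bdd N T) (h' : Bdd N U) : Bdd N fun r x => T r x + U r x := by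
  obtain ⟨K, hK, h⟩ := h
  obtain ⟨K', hK', h'⟩ := h'
  refine ⟨K + K', by positivity, fun r h0 h1 x => ?_⟩
  refine (abs_add_le _ _).trans ((add_le_add (h r h0 h1 x) (h' r h0 h1 x)).trans_eq ?_)
  ring

theorem Bdd.cmul (c : ℝ) (h : Bdd N T) : Bdd N fun r x => c * T r x := by
  obtain ⟨K, hK, h⟩ := h
  refine ⟨|c| * K, by positivity, fun r h0 h1 x => ?_⟩
  rw [abs_mul]
  refine (mul_le_mul_of_nonneg_left (h r h0 h1 x) (abs_nonneg c)).trans_eq ?_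
  ring

/-- `r^(k+j) m`, where `r^j m` is bounded -/
theorem Bdd.mon (k : ℕ) (K : ℝ) (hK : 0 ≤ K) {m : ℝ → X → ℝ}
    (hm : ∀ r x, |m r x| ≤ K * N r x) : Bdd N fun r x => r ^ k * m r x := by
  refine ⟨K, hK, fun r h0 h1 x => ?_⟩
  rw [abs_mul, abs_of_nonneg (pow_nonneg h0 k)]
  have h2 : r ^ k ≤ 1 := pow_le_one₀ h0 h1
  calc r ^ k * |m r x| ≤ 1 * |m r x| := mul_le_mul_of_nonneg_right h2 (abs_nonneg _)
    _ ≤ K * N r x := by rw [one_mul]; exact hm r x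

theorem Bdd.congr (h : Bdd N T) (e : ∀ r x, T r x = U r x) : Bdd N U := by
  have : T = U := funext fun r => funext fun x => e r x
  rwa [← this]

end lip

/-! ### Bounds of monomials -/

theorem b2 (x y : ℝ) : -(x ^ 2 + y ^ 2) ≤ x * y ∧ x * y ≤ x ^ 2 + y ^ 2 := by
  constructor <;> nlinarith [sq_nonneg (x + y), sq_nonneg (x - y)]

theorem b3 {x y z P Q S : ℝ} (hx : |x| ≤ P) (hy : |y| ≤ Q) (hz : |z| ≤ S) :
    -(P * Q * S) ≤ x * y * z ∧ x * y * z ≤ P * Q * S := by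
  have h : |x * y * z| ≤ P * Q * S := by
    rw [abs_mul, abs_mul]
    have hP : 0 ≤ P := (abs_nonneg x).trans hx
    have hQ : 0 ≤ Q := (abs_nonneg y).trans hy
    exact mul_le_mul (mul_le_mul hx hy (abs_nonneg y) hP) hz (abs_nonneg z) (by positivity)
  exact abs_le.1 h

/-- the parameters: the exponent `q = p - 2`, the multipliers of the functional, the depth shift `σ`,
the multipliers of the integrations by parts, the coefficients of the costs -/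
structure Prm where
  q : ℝ
  σ : ℝ
  c : ℝ
  a : ℝ
  α : ℝ
  β : ℝ
  ξ : ℝ
  c6 : ℝ
  m1 : ℝ
  m2 : ℝ
  n4 : ℝ
  n5 : ℝ
  C11 : ℝ
  C1h : ℝ
  Chh : ℝ
  Ce1 : ℝ
  Ceh : ℝ
  Cee : ℝ
  Cbb : ℝ
  Cbv : ℝ
  Cvv : ℝ

namespace Prm

variable (P : Prm)

/-- the form in `e`, `h` -/
def q0 (r er ei hr hi : ℝ) : ℝ :=
  ((er ^ 2 + ei ^ 2) * (hr ^ 2 + hi ^ 2) * (2 * P.q - P.q * (2 - P.q) * r ^ 2)
    + 4 * P.q * r ^ 2 * (er * hr - ei * hi) + 4 * r ^ 2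
    + P.σ * (-2 * P.q * r * er * (hr ^ 2 + hi ^ 2) - 4 * r * hr)
    + P.σ ^ 2 * (hr ^ 2 + hi ^ 2))
  - P.c * ((er ^ 2 + ei ^ 2) * (4 + 4 * P.q * r ^ 2 + 2 * P.q * r ^ 2
      - P.q * (2 - P.q) * r ^ 4) - 2 * P.σ * er * (P.q * r ^ 3 + 2 * r) + P.σ ^ 2 * r ^ 2)
  - P.a * (r * hr * (er ^ 2 + ei ^ 2) * (2 * P.q - P.q * (2 - P.q) * r ^ 2)
      + 2 * P.q * r * (hr * (er ^ 2 + ei ^ 2) + r ^ 2 * er) + 4 * r * er
      + 2 * P.σ * (-P.q * r ^ 2 * er * hr - (er * hr + ei * hi) - r ^ 2) + P.σ ^ 2 * r * hr)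
  + P.c6 * (P.q * r ^ 2 * ei * hi + er * hr + ei * hi - r ^ 2)
  + P.m1 * (er * hr + ei * hi - (er ^ 2 + ei ^ 2))
  + P.m2 * r ^ 2 * (er * hr - ei * hi - er ^ 2 + ei ^ 2)
  + P.n4 * r * (hr - er)
  + (P.C11 * r ^ 2 + 2 * P.C1h * r * hr + P.Chh * (hr ^ 2 + hi ^ 2) + P.Cee * (er ^ 2 + ei ^ 2)
    + 2 * P.Ce1 * r * er + 2 * P.Ceh * (er * hr + ei * hi))

/-- the form in `v`, `b` -/
def q1 (r er ei vr vi br bi : ℝ) : ℝ :=
  P.α * ((er ^ 2 + ei ^ 2) * (vr ^ 2 + vi ^ 2) * (2 * P.q - P.q * (2 - P.q) * r ^ 2)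
    + 4 * P.q * r * (er * (vr * br + vi * bi) - ei * (vi * br - vr * bi))
    + 4 * (br ^ 2 + bi ^ 2)
    + 2 * P.σ * (-P.q * r * er * (vr ^ 2 + vi ^ 2) - 2 * (br * vr + bi * vi))
    + P.σ ^ 2 * (vr ^ 2 + vi ^ 2))
  + P.β * ((P.q - 2) * r ^ 2 * (er ^ 2 + ei ^ 2) * (vr ^ 2 - vi ^ 2) * (6 + (P.q - 4) * r ^ 2)
    + (4 * (P.q - 2) * r ^ 3 + 16 * r) * (er * (vr * br - vi * bi) + ei * (vr * bi + vi * br))
    + 2 * P.σ * (-(P.q - 2) * r ^ 3 * er * (vr ^ 2 - vi ^ 2)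
      - 2 * r * (er * (vr ^ 2 - vi ^ 2) + 2 * ei * vr * vi) - 2 * r ^ 2 * (vr * br - vi * bi))
    + P.σ ^ 2 * r ^ 2 * (vr ^ 2 - vi ^ 2))
  + P.ξ * (-(P.q - 2) * r ^ 3 * er * vi ^ 2 + 2 * r * vi * (-er * vi + ei * vr - r * bi)
    + P.σ * r ^ 2 * vi ^ 2)
  + P.m1 * (P.q * r * (br * (er * vr + ei * vi) + ei * (vr * bi - vi * br)) + br ^ 2 + bi ^ 2)
  + P.m2 * ((P.q - 2) * r ^ 3 * (br * (er * vr - ei * vi) + ei * (vr * bi + vi * br))
    + 4 * r * vr * (er * br + ei * bi) - r ^ 2 * (br ^ 2 - bi ^ 2))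
  + P.n4 * (P.q * r ^ 2 * br * vr + br * vr + bi * vi)
  + P.n5 * (2 * (P.q - 2) * r ^ 3 * ei * vr * vi
    + 2 * r * (er * (vr ^ 2 - vi ^ 2) + 2 * ei * vr * vi) - 2 * r ^ 2 * (vr * br - vi * bi))
  + (P.Cbb * (br ^ 2 + bi ^ 2) + 2 * P.Cbv * (br * vr + bi * vi) + P.Cvv * (vr ^ 2 + vi ^ 2))

variable {P}

/-- the cubic weight of the form in `v`, `b` -/
def T1 (x : Fin 6 → ℝ) : ℝ :=
  (|x 0| + |x 1|) * (|x 2| + |x 3|) * (|x 2| + |x 3| + |x 4| + |x 5|)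

/-- the weight of the form in `v`, `b` -/
def M1 (x : Fin 6 → ℝ) : ℝ := (x 2 ^ 2 + x 3 ^ 2 + x 4 ^ 2 + x 5 ^ 2) + T1 x

/-- the part of `q1` without the quartic terms -/
def t1 (P : Prm) (r : ℝ) (x : Fin 6 → ℝ) : ℝ :=
  P.q1 r (x 0) (x 1) (x 2) (x 3) (x 4) (x 5)
    - (P.α * ((x 0 ^ 2 + x 1 ^ 2) * (x 2 ^ 2 + x 3 ^ 2) * (2 * P.q - P.q * (2 - P.q) * r ^ 2))
      + P.β * ((P.q - 2) * r ^ 2 * (x 0 ^ 2 + x 1 ^ 2) * (x 2 ^ 2 - x 3 ^ 2) *
        (6 + (P.q - 4) * r ^ 2)))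

theorem T1_nonneg (x : Fin 6 → ℝ) : 0 ≤ T1 x := by
  unfold T1
  positivity

theorem T1_bd (x : Fin 6 → ℝ) (i j k : Fin 6) (h : (i = 0 ∨ i = 1) ∧ (j = 2 ∨ j = 3) ∧
    (k = 2 ∨ k = 3 ∨ k = 4 ∨ k = 5)) : |x i * x j * x k| ≤ T1 x := by
  unfold T1
  obtain ⟨h1, h2, h3⟩ := h
  have a0 := abs_nonneg (x 0)
  have a1 := abs_nonneg (x 1)
  have a2 := abs_nonneg (x 2)
  have a3 := abs_nonneg (x 3)
  have a4 := abs_nonneg (x 4)
  have a5 := abs_nonneg (x 5)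
  refine abs_le.2 (b3 ?_ ?_ ?_)
  · rcases h1 with rfl | rfl <;> linarith
  · rcases h2 with rfl | rfl <;> linarith
  · rcases h3 with rfl | rfl | rfl | rfl <;> linarith

/-- the functions bounded by a multiple of the weight -/
def W1 (m : (Fin 6 → ℝ) → ℝ) : Prop := ∃ K : ℝ, 0 ≤ K ∧ ∀ x, |m x| ≤ K * M1 x

theorem W1.add {m m' : (Fin 6 → ℝ) → ℝ} (h : W1 m) (h' : W1 m') : W1 fun x => m x + m' x := by
  obtain ⟨K, hK, h⟩ := h
  obtain ⟨K', hK', h'⟩ := h'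
  exact ⟨K + K', by positivity, fun x => (abs_add_le _ _).trans
    ((add_le_add (h x) (h' x)).trans_eq (by ring))⟩

theorem W1.sub {m m' : (Fin 6 → ℝ) → ℝ} (h : W1 m) (h' : W1 m') : W1 fun x => m x - m' x := by
  obtain ⟨K, hK, h⟩ := h
  obtain ⟨K', hK', h'⟩ := h'
  exact ⟨K + K', by positivity, fun x => (abs_sub _ _).trans
    ((add_le_add (h x) (h' x)).trans_eq (by ring))⟩

theorem W1.cub (i j k : Fin 6) (h : (i = 0 ∨ i = 1) ∧ (j = 2 ∨ j = 3) ∧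
    (k = 2 ∨ k = 3 ∨ k = 4 ∨ k = 5)) : W1 fun x => x i * x j * x k :=
  ⟨1, zero_le_one, fun x => (T1_bd x i j k h).trans (by
    unfold M1
    nlinarith [sq_nonneg (x 2), sq_nonneg (x 3), sq_nonneg (x 4), sq_nonneg (x 5)])⟩

theorem W1.quad (i j : Fin 6) (h : (i = 2 ∨ i = 3 ∨ i = 4 ∨ i = 5) ∧
    (j = 2 ∨ j = 3 ∨ j = 4 ∨ j = 5)) : W1 fun x => x i * x j := by
  refine ⟨2, by norm_num, fun x => ?_⟩
  have h1 := T1_nonneg x
  have h2 := b2 (x i) (x j)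
  have hi : x i ^ 2 ≤ M1 x := by
    unfold M1
    rcases h.1 with rfl | rfl | rfl | rfl <;>
      nlinarith [sq_nonneg (x 2), sq_nonneg (x 3), sq_nonneg (x 4), sq_nonneg (x 5)]
  have hj : x j ^ 2 ≤ M1 x := by
    unfold M1
    rcases h.2 with rfl | rfl | rfl | rfl <;>
      nlinarith [sq_nonneg (x 2), sq_nonneg (x 3), sq_nonneg (x 4), sq_nonneg (x 5)]
  rw [abs_le]
  constructor <;> linarith

theorem W1.lip {m : (Fin 6 → ℝ) → ℝ} (h : W1 m) (k : ℕ) : Lip M1 fun r x => r ^ k * m x := by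
  obtain ⟨K, hK, h⟩ := h
  exact Lip.mon k K hK h

theorem lip_t1 (P : Prm) : Lip M1 (t1 P) := by
  have c := fun i j k (h : (i = 0 ∨ i = 1) ∧ (j = 2 ∨ j = 3) ∧
    (k = 2 ∨ k = 3 ∨ k = 4 ∨ k = 5)) => W1.cub i j k h
  have q := fun i j (h : (i = 2 ∨ i = 3 ∨ i = 4 ∨ i = 5) ∧
    (j = 2 ∨ j = 3 ∨ j = 4 ∨ j = 5)) => W1.quad i j h
  -- er vr br, er vi bi, ei vi br, ei vr bi, ...
  have e024 := c 0 2 4 (by decide)
  have e035 := c 0 3 5 (by decide)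
  have e134 := c 1 3 4 (by decide)
  have e125 := c 1 2 5 (by decide)
  have e022 := c 0 2 2 (by decide)
  have e033 := c 0 3 3 (by decide)
  have e123 := c 1 2 3 (by decide)
  have q22 := q 2 2 (by decide)
  have q33 := q 3 3 (by decide)
  have q44 := q 4 4 (by decide)
  have q55 := q 5 5 (by decide)
  have q42 := q 4 2 (by decide)
  have q53 := q 5 3 (by decide)
  have h1 := (((e024.add e035).sub (e134.sub e125)).lip 1).cmul (4 * P.q * P.α)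
  have h2 := ((q44.add q55).lip 0).cmul (4 * P.α + P.m1 + P.Cbb)
  have h3 := ((e022.add e033).lip 1).cmul (-(2 * P.σ * P.q * P.α))
  have h4 := ((q42.add q53).lip 0).cmul (-(4 * P.σ * P.α) + 2 * P.Cbv + P.n4)
  have h5 := ((q22.add q33).lip 0).cmul (P.σ ^ 2 * P.α + P.Cvv)
  have h6 := (((e024.sub e035).add (e125.add e134)).lip 3).cmul (4 * (P.q - 2) * P.β)
  have h7 := (((e024.sub e035).add (e125.add e134)).lip 1).cmul (16 * P.β)
  have h8 := ((e022.sub e033).lip 3).cmul (-(2 * P.σ * (P.q - 2) * P.β))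
  have h9 := (((e022.sub e033).add (e123.add e123)).lip 1).cmul (-(4 * P.σ * P.β) + 2 * P.n5)
  have h10 := ((q42.sub q53).lip 2).cmul (-(4 * P.σ * P.β) - 2 * P.n5)
  have h11 := ((q22.sub q33).lip 2).cmul (P.σ ^ 2 * P.β)
  have h12 := (e033.lip 3).cmul (-(P.q - 2) * P.ξ)
  have h13 := ((e123.sub e033).lip 1).cmul (2 * P.ξ)
  have h14 := (q53.lip 2).cmul (-(2 * P.ξ))
  have h15 := (q33.lip 2).cmul (P.σ * P.ξ)
  have h16 := ((e024.add e125).lip 1).cmul (P.m1 * P.q)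
  have h17 := ((e024.add e125).lip 3).cmul (P.m2 * (P.q - 2))
  have h18 := ((e024.add e125).lip 1).cmul (4 * P.m2)
  have h19 := ((q44.sub q55).lip 2).cmul (-P.m2)
  have h20 := (q42.lip 2).cmul (P.n4 * P.q)
  have h21 := (e123.lip 3).cmul (2 * (P.q - 2) * P.n5)
  refine Lip.congr ((((((((((((((((((((h1.add h2).add h3).add h4).add h5).add h6).add h7).add
    h8).add h9).add h10).add h11).add h12).add h13).add h14).add h15).add h16).add h17).add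
    h18).add h19).add h20).add h21) fun r x => ?_
  unfold t1 q1
  ring

/-- the regularised form in `v`, `b` -/
theorem reg1 {P : Prm} (hq0 : 0 < P.q) (hq2 : P.q < 2)
    (hβ : |P.β| * (2 + P.q) < P.α * P.q)
    (h : ∀ er ei vr vi br bi : ℝ, 0 ≤ P.q1 1 er ei vr vi br bi) :
    ∃ C : ℝ, 0 ≤ C ∧ ∀ r er ei vr vi br bi : ℝ, 0 ≤ r → r ≤ 1 →
      -(C * (1 - r ^ 2) * (vr ^ 2 + vi ^ 2 + br ^ 2 + bi ^ 2)) ≤ P.q1 r er ei vr vi br bi := by
  obtain ⟨K, hK, hL⟩ := lip_t1 P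
  set μ := (2 - P.q) * (P.α * P.q - |P.β| * (2 + P.q)) with hμ
  have hμ0 : 0 < μ := by
    rw [hμ]
    exact mul_pos (by linarith) (by linarith)
  refine ⟨K + 4 * K ^ 2 / μ, by positivity, fun r er ei vr vi br bi h0 h1 => ?_⟩
  have hr2 : r ^ 2 ≤ 1 := pow_le_one₀ h0 h1
  set s := 1 - r ^ 2 with hs
  have hs0 : 0 ≤ s := by linarith
  have hs1 : 1 - r ≤ s := by rw [hs]; nlinarith
  have hs2 : s ≤ 1 := by rw [hs]; nlinarith [sq_nonneg r]
  -- the difference of the non-quartic parts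
  have hx := (abs_le.1 (hL r h0 h1 ![er, ei, vr, vi, br, bi])).1
  -- the quartic parts
  set E := er ^ 2 + ei ^ 2 with hE
  have hE0 : 0 ≤ E := by positivity
  set V := vr ^ 2 + vi ^ 2 with hV
  have hV0 : 0 ≤ V := by positivity
  set D := vr ^ 2 - vi ^ 2 with hD
  have hDV : |D| ≤ V := by
    rw [abs_le, hD, hV]
    constructor <;> nlinarith [sq_nonneg vr, sq_nonneg vi]
  have hquart : P.α * (E * V * (2 * P.q - P.q * (2 - P.q) * r ^ 2))
      + P.β * ((P.q - 2) * r ^ 2 * E * D * (6 + (P.q - 4) * r ^ 2)) -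
      (P.α * (E * V * (2 * P.q - P.q * (2 - P.q) * 1 ^ 2))
      + P.β * ((P.q - 2) * 1 ^ 2 * E * D * (6 + (P.q - 4) * 1 ^ 2))) =
      s * E * (2 - P.q) * (P.α * P.q * V - P.β * D * (2 - 2 * P.q - (4 - P.q) * s)) := by
    rw [hs]
    ring
  have hb : P.β * D * (2 - 2 * P.q - (4 - P.q) * s) ≤ |P.β| * V * (2 + P.q) := by
    have g1 : |2 - 2 * P.q - (4 - P.q) * s| ≤ 2 + P.q := by
      rw [abs_le]
      constructor
      · nlinarith [mul_nonneg (by linarith : 0 ≤ 4 - P.q) (sub_nonneg.2 hs2)]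
      · nlinarith [mul_nonneg (by linarith : 0 ≤ 4 - P.q) hs0]
    refine (le_abs_self _).trans ?_
    rw [abs_mul, abs_mul]
    exact mul_le_mul (mul_le_mul_of_nonneg_left hDV (abs_nonneg _)) g1 (abs_nonneg _)
      (by positivity)
  have hquart2 : s * μ * (E * V) ≤
      s * E * (2 - P.q) * (P.α * P.q * V - P.β * D * (2 - 2 * P.q - (4 - P.q) * s)) := by
    have g2 : 0 ≤ s * E * (2 - P.q) := mul_nonneg (mul_nonneg hs0 hE0) (by linarith)
    have g3 := mul_le_mul_of_nonneg_left hb g2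
    rw [hμ]
    nlinarith [g3]
  -- Young's inequality
  set p := (|er| + |ei|) * (|vr| + |vi|) with hp
  set S := |vr| + |vi| + |br| + |bi| with hS
  have hp0 : 0 ≤ p := by positivity
  have hp2 : p ^ 2 ≤ 4 * (E * V) := by
    have g1 : (|er| + |ei|) ^ 2 ≤ 2 * E := by
      rw [hE, ← sq_abs er, ← sq_abs ei]
      nlinarith [sq_nonneg (|er| - |ei|)]
    have g2 : (|vr| + |vi|) ^ 2 ≤ 2 * V := by
      rw [hV, ← sq_abs vr, ← sq_abs vi]
      nlinarith [sq_nonneg (|vr| - |vi|)]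
    rw [hp, mul_pow]
    calc (|er| + |ei|) ^ 2 * (|vr| + |vi|) ^ 2 ≤ (2 * E) * (2 * V) :=
          mul_le_mul g1 g2 (sq_nonneg _) (by positivity)
      _ = 4 * (E * V) := by ring
  set N := vr ^ 2 + vi ^ 2 + br ^ 2 + bi ^ 2 with hN
  have hN0 : 0 ≤ N := by positivity
  have hS2 : S ^ 2 ≤ 4 * N := by
    rw [hS, hN, ← sq_abs vr, ← sq_abs vi, ← sq_abs br, ← sq_abs bi]
    nlinarith [sq_nonneg (|vr| - |vi|), sq_nonneg (|vr| - |br|), sq_nonneg (|vr| - |bi|),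
      sq_nonneg (|vi| - |br|), sq_nonneg (|vi| - |bi|), sq_nonneg (|br| - |bi|)]
  have hY : K * (p * S) ≤ μ * (E * V) + 4 * K ^ 2 / μ * N := by
    have g1 : K * (p * S) ≤ μ / 4 * p ^ 2 + K ^ 2 / μ * S ^ 2 := by
      have g2 : 0 ≤ (μ / 2 * p - K * S) ^ 2 / μ := by positivity
      have g3 : (μ / 2 * p - K * S) ^ 2 / μ = μ / 4 * p ^ 2 + K ^ 2 / μ * S ^ 2 - K * (p * S) := by
        field_simp
        ring
      linarith
    have g4 : μ / 4 * p ^ 2 ≤ μ / 4 * (4 * (E * V)) := mul_le_mul_of_nonneg_left hp2 (by positivity)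
    have g5 : K ^ 2 / μ * S ^ 2 ≤ K ^ 2 / μ * (4 * N) := mul_le_mul_of_nonneg_left hS2 (by positivity)
    have g6 : K ^ 2 / μ * (4 * N) = 4 * K ^ 2 / μ * N := by ring
    linarith
  have hM : M1 ![er, ei, vr, vi, br, bi] = N + p * S := by
    unfold M1 T1
    simp [hN, hp, hS]
  rw [hM] at hx
  have ht : ∀ r : ℝ, t1 P r ![er, ei, vr, vi, br, bi] = P.q1 r er ei vr vi br bi
      - (P.α * (E * V * (2 * P.q - P.q * (2 - P.q) * r ^ 2))
        + P.β * ((P.q - 2) * r ^ 2 * E * D * (6 + (P.q - 4) * r ^ 2))) := fun r => by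
    unfold t1
    simp [hE, hV, hD]
  rw [ht, ht] at hx
  have h5 := h er ei vr vi br bi
  have h6 : K * (1 - r) * (N + p * S) ≤ K * s * (N + p * S) := by
    have : 0 ≤ N + p * S := by positivity
    have := mul_le_mul_of_nonneg_left hs1 hK
    exact mul_le_mul_of_nonneg_right this ‹0 ≤ N + p * S›
  have h7 := mul_le_mul_of_nonneg_left hY hs0
  have e1 : (K + 4 * K ^ 2 / μ) * s * N = K * s * N + s * (4 * K ^ 2 / μ * N) := by ring
  have e2 : K * s * (N + p * S) = K * s * N + s * (K * (p * S)) := by ring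
  have e3 : s * (μ * (E * V) + 4 * K ^ 2 / μ * N) = s * μ * (E * V) + s * (4 * K ^ 2 / μ * N) := by
    ring
  rw [e1]
  rw [e2] at h6
  rw [e3] at h7
  linarith

end Prm

end Pool.Agent.ConeG.FI
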