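import Pool.Agent.Work.MP_b0b133_an.G.FIk

/-!
# The regularised form in `e`, `h`
-/

set_option autoImplicit false

namespace Pool.Agent.ConeG.FI

namespace Prm

/-- the cubic weight of the form in `e`, `h` -/
def T0 (x : Fin 4 → ℝ) : ℝ :=
  (|x 0| + |x 1|) * (|x 2| + |x 3|) * (|x 0| + |x 1| + |x 2| + |x 3|)

/-- the weight of the form in `e`, `h` -/
def M0 (x : Fin 4 → ℝ) : ℝ := (x 0 ^ 2 + x 1 ^ 2 + x 2 ^ 2 + x 3 ^ 2) + T0 x

/-- the constant coefficient -/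
def k0 (P : Prm) : ℝ := 4 - P.c * P.σ ^ 2 + 2 * P.a * P.σ - P.c6 + P.C11

/-- the coefficient of `er` -/
def k1 (P : Prm) : ℝ := 4 * P.c * P.σ - 4 * P.a - P.n4 + 2 * P.Ce1

/-- the coefficient of `r² er` -/
def k3 (P : Prm) : ℝ := 2 * P.c * P.σ * P.q - 2 * P.a * P.q

/-- the coefficient of `hr` -/
def k2 (P : Prm) : ℝ := -(4 * P.σ) - P.a * P.σ ^ 2 + P.n4 + 2 * P.C1h

/-- the part of `q0` of degrees two and three -/
def t0 (P : Prm) (r : ℝ) (x : Fin 4 → ℝ) : ℝ :=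
  P.q0 r (x 0) (x 1) (x 2) (x 3)
    - (x 0 ^ 2 + x 1 ^ 2) * (x 2 ^ 2 + x 3 ^ 2) * (2 * P.q - P.q * (2 - P.q) * r ^ 2)
    - (P.k0 * r ^ 2 + P.k1 * r * x 0 + P.k3 * r ^ 3 * x 0 + P.k2 * r * x 2)

theorem T0_nonneg (x : Fin 4 → ℝ) : 0 ≤ T0 x := by
  unfold T0
  positivity

theorem T0_bd (x : Fin 4 → ℝ) (i j k : Fin 4) (h : (i = 0 ∨ i = 1) ∧ (j = 2 ∨ j = 3)) :
    |x i * x j * x k| ≤ T0 x := by
  unfold T0
  obtain ⟨h1, h2⟩ := h
  have a0 := abs_nonneg (x 0)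
  have a1 := abs_nonneg (x 1)
  have a2 := abs_nonneg (x 2)
  have a3 := abs_nonneg (x 3)
  have h3 : k = 0 ∨ k = 1 ∨ k = 2 ∨ k = 3 := by
    revert k
    decide
  refine abs_le.2 (b3 ?_ ?_ ?_)
  · rcases h1 with rfl | rfl <;> linarith
  · rcases h2 with rfl | rfl <;> linarith
  · rcases h3 with rfl | rfl | rfl | rfl <;> linarith

/-- the functions bounded by a multiple of the weight -/
def W0 (m : (Fin 4 → ℝ) → ℝ) : Prop := ∃ K : ℝ, 0 ≤ K ∧ ∀ x, |m x| ≤ K * M0 x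

theorem W0.add {m m' : (Fin 4 → ℝ) → ℝ} (h : W0 m) (h' : W0 m') : W0 fun x => m x + m' x := by
  obtain ⟨K, hK, h⟩ := h
  obtain ⟨K', hK', h'⟩ := h'
  exact ⟨K + K', by positivity, fun x => (abs_add_le _ _).trans
    ((add_le_add (h x) (h' x)).trans_eq (by ring))⟩

theorem W0.sub {m m' : (Fin 4 → ℝ) → ℝ} (h : W0 m) (h' : W0 m') : W0 fun x => m x - m' x := by
  obtain ⟨K, hK, h⟩ := h
  obtain ⟨K', hK', h'⟩ := h'
  exact ⟨K + K', by positivity, fun x => (abs_sub _ _).trans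
    ((add_le_add (h x) (h' x)).trans_eq (by ring))⟩

theorem W0.cub (i j k : Fin 4) (h : (i = 0 ∨ i = 1) ∧ (j = 2 ∨ j = 3)) :
    W0 fun x => x i * x j * x k :=
  ⟨1, zero_le_one, fun x => (T0_bd x i j k h).trans (by
    unfold M0
    nlinarith [sq_nonneg (x 0), sq_nonneg (x 1), sq_nonneg (x 2), sq_nonneg (x 3)])⟩

theorem W0.quad (i j : Fin 4) : W0 fun x => x i * x j := by
  refine ⟨2, by norm_num, fun x => ?_⟩
  have h2 := b2 (x i) (x j)
  have hi : ∀ i : Fin 4, x i ^ 2 ≤ M0 x := fun i => by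
    have h1 := T0_nonneg x
    have h3 : i = 0 ∨ i = 1 ∨ i = 2 ∨ i = 3 := by
      revert i
      decide
    unfold M0
    rcases h3 with rfl | rfl | rfl | rfl <;>
      nlinarith [sq_nonneg (x 0), sq_nonneg (x 1), sq_nonneg (x 2), sq_nonneg (x 3)]
  have h3 := hi i
  have h4 := hi j
  rw [abs_le]
  constructor <;> linarith

/-- Lipschitz and bounded -/
def LB (T : ℝ → (Fin 4 → ℝ) → ℝ) : Prop := Lip M0 T ∧ Bdd (fun _ => M0) T

theorem LB.add {T U : ℝ → (Fin 4 → ℝ) → ℝ} (h : LB T) (h' : LB U) :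
    LB fun r x => T r x + U r x := ⟨h.1.add h'.1, h.2.add h'.2⟩

theorem LB.cmul (c : ℝ) {T : ℝ → (Fin 4 → ℝ) → ℝ} (h : LB T) : LB fun r x => c * T r x :=
  ⟨h.1.cmul c, h.2.cmul c⟩

theorem W0.lb {m : (Fin 4 → ℝ) → ℝ} (h : W0 m) (k : ℕ) : LB fun r x => r ^ k * m x := by
  obtain ⟨K, hK, h⟩ := h
  exact ⟨Lip.mon k K hK h, Bdd.mon k K hK fun _ x => h x⟩

theorem lb_t0 (P : Prm) : LB (t0 P) := by
  have c := fun i j k (h : (i = 0 ∨ i = 1) ∧ (j = 2 ∨ j = 3)) => W0.cub i j k h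
  have er_hr := W0.quad 0 2
  have ei_hi := W0.quad 1 3
  have hh := (W0.quad 2 2).add (W0.quad 3 3)
  have ee := (W0.quad 0 0).add (W0.quad 1 1)
  have ehh := (c 0 2 2 (by decide)).add (c 0 3 3 (by decide))
  have hee := (c 0 2 0 (by decide)).add (c 1 2 1 (by decide))
  have h1 := ((er_hr.sub ei_hi).lb 2).cmul (4 * P.q + P.m2)
  have h2 := (ehh.lb 1).cmul (-(2 * P.q * P.σ))
  have h3 := (hh.lb 0).cmul (P.σ ^ 2 + P.Chh)
  have h4 := (ee.lb 0).cmul (-(4 * P.c) - P.m1 + P.Cee)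
  have h5 := (ee.lb 2).cmul (-(6 * P.c * P.q))
  have h6 := (ee.lb 4).cmul (P.c * P.q * (2 - P.q))
  have h7 := (hee.lb 1).cmul (-(4 * P.a * P.q))
  have h8 := (hee.lb 3).cmul (P.a * P.q * (2 - P.q))
  have h9 := (er_hr.lb 2).cmul (2 * P.a * P.σ * P.q)
  have h10 := ((er_hr.add ei_hi).lb 0).cmul (2 * P.a * P.σ + P.c6 + P.m1 + 2 * P.Ceh)
  have h11 := (ei_hi.lb 2).cmul (P.c6 * P.q)
  have h12 := (((W0.quad 1 1).sub (W0.quad 0 0)).lb 2).cmul P.m2
  have hh := (((((((((((h1.add h2).add h3).add h4).add h5).add h6).add h7).add h8).add h9).add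
    h10).add h11).add h12)
  refine ⟨Lip.congr hh.1 fun r x => ?_, Bdd.congr hh.2 fun r x => ?_⟩ <;>
  · unfold t0 q0 k0 k1 k2 k3
    ring

theorem young {K μ p S : ℝ} (hμ : 0 < μ) {A B : ℝ} (hp : p ^ 2 ≤ 4 * A)
    (hS : S ^ 2 ≤ 4 * B) : K * (p * S) ≤ μ * A + 4 * K ^ 2 / μ * B := by
  have g1 : K * (p * S) ≤ μ / 4 * p ^ 2 + K ^ 2 / μ * S ^ 2 := by
    have g2 : 0 ≤ (μ / 2 * p - K * S) ^ 2 / μ := by positivity
    have g3 : (μ / 2 * p - K * S) ^ 2 / μ = μ / 4 * p ^ 2 + K ^ 2 / μ * S ^ 2 - K * (p * S) := by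
      field_simp
      ring
    linarith
  have g4 : μ / 4 * p ^ 2 ≤ μ / 4 * (4 * A) := mul_le_mul_of_nonneg_left hp (by positivity)
  have g5 : K ^ 2 / μ * S ^ 2 ≤ K ^ 2 / μ * (4 * B) := mul_le_mul_of_nonneg_left hS (by positivity)
  have g6 : K ^ 2 / μ * (4 * B) = 4 * K ^ 2 / μ * B := by ring
  linarith

theorem abs_le_one_add (x y : ℝ) : |x| ≤ 1 + (x ^ 2 + y ^ 2) := by
  have h1 := sq_nonneg (|x| - 1)
  have h2 := sq_abs x
  have h3 := sq_nonneg y
  nlinarith [abs_nonneg x]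

theorem sq_sum_two (x y : ℝ) : (|x| + |y|) ^ 2 ≤ 2 * (x ^ 2 + y ^ 2) := by
  rw [← sq_abs x, ← sq_abs y]
  nlinarith [sq_nonneg (|x| - |y|)]

/-- the regularised form in `e`, `h` -/
theorem reg0 {P : Prm} (hq0 : 0 < P.q) (hq2 : P.q < 2)
    (h : ∀ er ei hr hi : ℝ, 0 ≤ P.q0 1 er ei hr hi) :
    ∃ C : ℝ, 0 ≤ C ∧ ∀ r er ei hr hi : ℝ, 0 ≤ r → r ≤ 1 →
      -(C * (1 - r ^ 2) * (r ^ 2 + er ^ 2 + ei ^ 2 + hr ^ 2 + hi ^ 2)) ≤ P.q0 r er ei hr hi := by
  obtain ⟨⟨K, hK, hL⟩, ⟨K', hK', hB⟩⟩ := lb_t0 P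
  set μ := P.q * (2 - P.q) with hμ
  have hμ0 : 0 < μ := mul_pos hq0 (by linarith)
  set μ' := P.q ^ 2 with hμ'
  have hμ'0 : 0 < μ' := by positivity
  set k := |P.k0| + |P.k1| + 3 * |P.k3| + |P.k2| with hk
  have hk0 : 0 ≤ k := by positivity
  set C1 := 2 * k + K + 4 * K ^ 2 / μ with hC1
  have hC10 : 0 ≤ C1 := by positivity
  set C2 := 2 * k + K' + 4 * K' ^ 2 / μ' with hC2
  have hC20 : 0 ≤ C2 := by positivity
  refine ⟨2 * C1 + 2 * C2, by positivity, fun r er ei hr hi h0 h1 => ?_⟩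
  have hr2 : r ^ 2 ≤ 1 := pow_le_one₀ h0 h1
  have hr20 : 0 ≤ r ^ 2 := sq_nonneg r
  set s := 1 - r ^ 2 with hs
  have hs0 : 0 ≤ s := by linarith
  have hs1 : 1 - r ≤ s := by rw [hs]; nlinarith
  set E := er ^ 2 + ei ^ 2 with hE
  have hE0 : 0 ≤ E := by positivity
  set H := hr ^ 2 + hi ^ 2 with hH
  have hH0 : 0 ≤ H := by positivity
  set p := (|er| + |ei|) * (|hr| + |hi|) with hp
  set S := |er| + |ei| + |hr| + |hi| with hS
  have hp0 : 0 ≤ p := by positivity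
  have hS0 : 0 ≤ S := by positivity
  have hp2 : p ^ 2 ≤ 4 * (E * H) := by
    have g1 : (|er| + |ei|) ^ 2 ≤ 2 * E := sq_sum_two er ei
    have g2 : (|hr| + |hi|) ^ 2 ≤ 2 * H := sq_sum_two hr hi
    rw [hp, mul_pow]
    calc (|er| + |ei|) ^ 2 * (|hr| + |hi|) ^ 2 ≤ (2 * E) * (2 * H) :=
          mul_le_mul g1 g2 (sq_nonneg _) (by positivity)
      _ = 4 * (E * H) := by ring
  have hS2 : S ^ 2 ≤ 4 * (E + H) := by
    rw [hS, hE, hH, ← sq_abs er, ← sq_abs ei, ← sq_abs hr, ← sq_abs hi]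
    nlinarith [sq_nonneg (|er| - |ei|), sq_nonneg (|er| - |hr|), sq_nonneg (|er| - |hi|),
      sq_nonneg (|ei| - |hr|), sq_nonneg (|ei| - |hi|), sq_nonneg (|hr| - |hi|)]
  have hM : M0 ![er, ei, hr, hi] = E + H + p * S := by
    unfold M0 T0
    simp only [Matrix.cons_val_zero, Matrix.cons_val_one, Matrix.cons_val, hE, hH, hp, hS]
    ring
  have ht : ∀ r : ℝ, t0 P r ![er, ei, hr, hi] = P.q0 r er ei hr hi
      - E * H * (2 * P.q - P.q * (2 - P.q) * r ^ 2)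
      - (P.k0 * r ^ 2 + P.k1 * r * er + P.k3 * r ^ 3 * er + P.k2 * r * hr) := fun r => by
    unfold t0
    simp [hE, hH]
  have her : |er| ≤ 1 + E := abs_le_one_add er ei
  have hhr : |hr| ≤ 1 + H := abs_le_one_add hr hi
  set N := r ^ 2 + er ^ 2 + ei ^ 2 + hr ^ 2 + hi ^ 2 with hN
  have hNe : N = r ^ 2 + E + H := by rw [hN, hE, hH]; ring
  have hN0 : 0 ≤ N := by positivity
  have hEN : E ≤ N := by rw [hNe]; linarith
  have hHN : H ≤ N := by rw [hNe]; linarith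
  have hEHN : E + H ≤ N := by rw [hNe]; linarith
  rcases le_total (1 / 2) (r ^ 2) with hc | hc
  · -- the comparison with `r = 1`
    have hx := (abs_le.1 (hL r h0 h1 ![er, ei, hr, hi])).1
    rw [hM, ht, ht] at hx
    have h5 := h er ei hr hi
    have hN1 : 1 + E + H ≤ 2 * N := by rw [hNe]; linarith
    have hu0 : 0 ≤ 1 - r := by linarith
    have a0 : -(|P.k0| * s) ≤ P.k0 * (r ^ 2 - 1) := by
      have := mul_le_mul_of_nonneg_right (le_abs_self P.k0) hs0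
      rw [hs] at this ⊢
      linarith
    have au : ∀ k x B : ℝ, |x| ≤ B → -(|k| * s * B) ≤ k * (r - 1) * x := fun k x B hB => by
      have hB0 : 0 ≤ B := (abs_nonneg x).trans hB
      have e1 : |k * (r - 1) * x| ≤ |k| * s * B := by
        rw [abs_mul, abs_mul, abs_sub_comm, abs_of_nonneg hu0]
        exact mul_le_mul (mul_le_mul_of_nonneg_left hs1 (abs_nonneg k)) hB (abs_nonneg x)
          (by positivity)
      exact (abs_le.1 e1).1
    have a1 := au P.k1 er _ her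
    have a2 := au P.k2 hr _ hhr
    have a3 : -(3 * |P.k3| * s * (1 + E)) ≤ P.k3 * (r ^ 3 - 1) * er := by
      have e0 : r ^ 3 - 1 = (r - 1) * (1 + r + r ^ 2) := by ring
      have e1 : |P.k3 * (r ^ 3 - 1) * er| ≤ 3 * |P.k3| * s * (1 + E) := by
        rw [e0, abs_mul, abs_mul, abs_mul, abs_sub_comm, abs_of_nonneg hu0,
          abs_of_nonneg (by positivity : 0 ≤ 1 + r + r ^ 2)]
        have e2 : (1 - r) * (1 + r + r ^ 2) ≤ s * 3 :=
          mul_le_mul hs1 (by linarith) (by positivity) hs0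
        calc |P.k3| * ((1 - r) * (1 + r + r ^ 2)) * |er| ≤ |P.k3| * (s * 3) * (1 + E) :=
              mul_le_mul (mul_le_mul_of_nonneg_left e2 (abs_nonneg _)) her (abs_nonneg _)
                (by positivity)
          _ = _ := by ring
      exact (abs_le.1 e1).1
    have hbr : -(2 * k * s * N) ≤ P.k0 * (r ^ 2 - 1) + P.k1 * (r - 1) * er +
        P.k3 * (r ^ 3 - 1) * er + P.k2 * (r - 1) * hr := by
      have g1 : k * s * (1 + E + H) ≤ k * s * (2 * N) :=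
        mul_le_mul_of_nonneg_left hN1 (by positivity)
      have g2 : |P.k0| * s + |P.k1| * s * (1 + E) + 3 * |P.k3| * s * (1 + E) +
          |P.k2| * s * (1 + H) ≤ k * s * (1 + E + H) := by
        have g3 : 0 ≤ |P.k0| * s * (E + H) + |P.k1| * s * H + 3 * |P.k3| * s * H +
            |P.k2| * s * E := by positivity
        rw [hk]
        linarith
      linarith
    have hY := mul_le_mul_of_nonneg_left (young (K := K) hμ0 hp2 hS2) hs0
    have h6 : K * (1 - r) * (E + H + p * S) ≤ K * s * (E + H + p * S) :=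
      mul_le_mul_of_nonneg_right (mul_le_mul_of_nonneg_left hs1 hK) (by positivity)
    have e1 : K * s * (E + H + p * S) = K * s * (E + H) + s * (K * (p * S)) := by ring
    have e2 : s * (μ * (E * H) + 4 * K ^ 2 / μ * (E + H)) =
        s * μ * (E * H) + 4 * K ^ 2 / μ * s * (E + H) := by ring
    have g7 : K * s * (E + H) ≤ K * s * N := mul_le_mul_of_nonneg_left hEHN (by positivity)
    have g8 : 4 * K ^ 2 / μ * s * (E + H) ≤ 4 * K ^ 2 / μ * s * N :=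
      mul_le_mul_of_nonneg_left hEHN (by positivity)
    have g9 : 0 ≤ 2 * C2 * s * N + C1 * s * N := by positivity
    have e3 : (2 * C1 + 2 * C2) * s * N = 2 * k * s * N + K * s * N + 4 * K ^ 2 / μ * s * N +
        (2 * C2 * s * N + C1 * s * N) := by
      rw [hC1]
      ring
    have e4 : E * H * (2 * P.q - μ * r ^ 2) - E * H * (2 * P.q - μ * 1 ^ 2) =
        s * μ * (E * H) := by
      rw [hs]
      ring
    have e5 : (P.k0 * r ^ 2 + P.k1 * r * er + P.k3 * r ^ 3 * er + P.k2 * r * hr) -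
        (P.k0 * 1 ^ 2 + P.k1 * 1 * er + P.k3 * 1 ^ 3 * er + P.k2 * 1 * hr) =
        P.k0 * (r ^ 2 - 1) + P.k1 * (r - 1) * er +
        P.k3 * (r ^ 3 - 1) * er + P.k2 * (r - 1) * hr := by ring
    rw [e1] at h6
    rw [e2] at hY
    rw [e3]
    linarith
  · -- the direct bound
    have hx : -(K' * M0 ![er, ei, hr, hi]) ≤ t0 P r ![er, ei, hr, hi] :=
      (abs_le.1 (hB r h0 h1 ![er, ei, hr, hi])).1
    rw [hM, ht] at hx
    have hs2 : 1 / 2 ≤ s := by linarith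
    have q1 : μ' * (E * H) ≤ E * H * (2 * P.q - μ * r ^ 2) := by
      have e1 : E * H * (2 * P.q - μ * r ^ 2) - μ' * (E * H) = E * H * μ * (1 - r ^ 2) := by
        rw [hμ', hμ]
        ring
      have e2 : 0 ≤ E * H * μ * (1 - r ^ 2) := by positivity
      linarith
    have au : ∀ k x : ℝ, |x| ≤ N → -(|k| * N) ≤ k * x := fun k x hB => by
      have e1 : |k * x| ≤ |k| * N := by
        rw [abs_mul]
        exact mul_le_mul_of_nonneg_left hB (abs_nonneg k)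
      exact (abs_le.1 e1).1
    have b1 : |r * er| ≤ N := by
      have g := FI.b2 r er
      rw [abs_le, hN]
      constructor <;> linarith [sq_nonneg ei, sq_nonneg hr, sq_nonneg hi]
    have b2 : |r * hr| ≤ N := by
      have g := FI.b2 r hr
      rw [abs_le, hN]
      constructor <;> linarith [sq_nonneg ei, sq_nonneg er, sq_nonneg hi]
    have b3 : |r ^ 2 * (r * er)| ≤ N := by
      rw [abs_mul, abs_of_nonneg hr20]
      calc r ^ 2 * |r * er| ≤ 1 * |r * er| := mul_le_mul_of_nonneg_right hr2 (abs_nonneg _)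
        _ ≤ N := by rw [one_mul]; exact b1
    have b0 : |r ^ 2| ≤ N := by
      rw [abs_of_nonneg hr20, hNe]
      linarith
    have c0 := au P.k0 _ b0
    have c1 := au P.k1 _ b1
    have c2 := au P.k2 _ b2
    have c3 := au P.k3 _ b3
    have hY := young (K := K') hμ'0 hp2 hS2
    have g7 : K' * (E + H) ≤ K' * N := mul_le_mul_of_nonneg_left hEHN hK'
    have g8 : 4 * K' ^ 2 / μ' * (E + H) ≤ 4 * K' ^ 2 / μ' * N :=
      mul_le_mul_of_nonneg_left hEHN (by positivity)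
    have g9 : C2 * N ≤ 2 * C2 * s * N := by
      have := mul_le_mul_of_nonneg_left hs2 (by positivity : 0 ≤ 2 * C2 * N)
      linarith
    have g10 : 0 ≤ 2 * C1 * s * N := by positivity
    have g11 : 0 ≤ k * N + 2 * |P.k3| * N := by positivity
    have e3 : (2 * C1 + 2 * C2) * s * N = 2 * C1 * s * N + 2 * C2 * s * N := by ring
    have e4 : C2 * N = k * N + K' * N + 4 * K' ^ 2 / μ' * N + k * N := by
      rw [hC2]
      ring
    have e5 : k * N = |P.k0| * N + |P.k1| * N + 3 * |P.k3| * N + |P.k2| * N := by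
      rw [hk]
      ring
    have e6 : P.k3 * (r ^ 2 * (r * er)) = P.k3 * r ^ 3 * er := by ring
    rw [e3]
    rw [e6] at c3
    linarith

end Prm

end Pool.Agent.ConeG.FI
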