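import Pool.Agent.Work.MP_b0b133_an.G.FIl
import Pool.Agent.Work.MP_b0b133_an.G.FIk0

/-!
# The pointwise identity
-/

set_option autoImplicit false
open MeasureTheory Complex Filter Topology
open scoped ENNReal ComplexConjugate

namespace Pool.Agent.ConeG.FI

variable {d : ℕ} {μ : Measure (CC d)}

/-! ### Invariance of the derivatives -/

theorem Dens.Inv.f1' {ι : Type} {F : Dens ι} (hF : F.Inv) {u : ℂ} (hu : normSq u = 1)
    (z z' : ι → ℂ) : F.f1 (fun i => u * z i) (fun i => u * z' i) = F.f1 z z' := by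
  have h0 : ∀ i, HasDerivAt (fun s : ℝ => z i + (s : ℂ) * z' i) (z' i) 0 := fun i => by
    have := ((Complex.ofRealCLM.hasDerivAt (x := (0 : ℝ))).mul_const (z' i)).const_add (z i)
    simpa using this
  have h1 := F.d1 (fun s i => z i + (s : ℂ) * z' i) z' 0 h0
  have h2 := F.d1 (fun s i => u * (z i + (s : ℂ) * z' i)) (fun i => u * z' i) 0
    fun i => (h0 i).const_mul u
  simp only [hF u hu] at h2
  have h3 := h2.unique h1
  simpa using h3

theorem Dens.Inv.f2' {ι : Type} {F : Dens ι} (hF : F.Inv) {u : ℂ} (hu : normSq u = 1)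
    (z z' z'' : ι → ℂ) :
    F.f2 (fun i => u * z i) (fun i => u * z' i) (fun i => u * z'' i) = F.f2 z z' z'' := by
  have h0 : ∀ (a b : ι → ℂ) (i : ι), HasDerivAt (fun s : ℝ => a i + (s : ℂ) * b i) (b i) 0 :=
    fun a b i => by
      have := ((Complex.ofRealCLM.hasDerivAt (x := (0 : ℝ))).mul_const (b i)).const_add (a i)
      simpa using this
  have h1 := F.d2 (fun s i => z i + (s : ℂ) * z' i) (fun s i => z' i + (s : ℂ) * z'' i) z'' 0
    (fun i => by simpa using h0 z z' i) (fun i => h0 z' z'' i)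
  have h2 := F.d2 (fun s i => u * (z i + (s : ℂ) * z' i)) (fun s i => u * (z' i + (s : ℂ) * z'' i))
    (fun i => u * z'' i) 0
    (fun i => by simpa using (h0 z z' i).const_mul u) (fun i => (h0 z' z'' i).const_mul u)
  simp only [hF.f1' hu] at h2
  have h3 := h2.unique h1
  simpa using h3

theorem Dens.f1_zero {ι : Type} (F : Dens ι) (z : ι → ℂ) : F.f1 z (fun _ => 0) = 0 := by
  have h1 := F.d1 (fun _ => z) (fun _ => 0) 0 fun i => hasDerivAt_const _ _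
  exact h1.unique (hasDerivAt_const _ _)

/-- the first rotation derivative, also for `i = j` -/
theorem zr_rot1' {ι : Type} {P : ι → Poly d} (hμ : Law μ) (F : Dens ι) (z : ℂ)
    (i j : Fin (d + 1)) :
    Zr μ fun x => F.f1 (jet P z x) (fun k => evz z x (LP i j (P k))) := by
  rcases eq_or_ne i j with rfl | hij
  · have e : (fun x : CC d => F.f1 (jet P z x) (fun k => evz z x (LP i i (P k)))) = fun _ => 0 := by
      funext x
      have : (fun k => evz z x (LP i i (P k))) = fun _ => 0 := by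
        funext k
        rw [LP_self]
        simp [evz, ev]
      rw [this]
      exact F.f1_zero _
    rw [e]
    exact Zr.zero
  · exact zr_rot1 hμ F z hij

/-! ### The integrations by parts -/

variable (P : Prm) {δ : ℝ} (hδ : 0 < δ) (n : ℝ)

/-- the density of the rotation derivatives, in `F, e, v, b` -/
noncomputable def RD : Dens (Fin 4) :=
  Dens.add (Dens.smul P.m1 (Dens.mul (Dens.fpwD hδ P.q 0) (Dens.dotD 1 2)))
    (Dens.add (Dens.smul P.m2 (Dens.mul (Dens.fpwD hδ (P.q - 2) 0)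
      (Dens.add (Dens.mul (Dens.dotD 0 1) (Dens.dotD 0 2))
        (Dens.smul (-1) (Dens.mul (Dens.wedD 0 1) (Dens.wedD 0 2))))))
      (Dens.smul (n * P.n4) (Dens.mul (Dens.fpwD hδ P.q 0) (Dens.dotD 0 2))))

/-- the density of the phase derivatives, in `F, e, v, b` -/
noncomputable def PD : Dens (Fin 4) :=
  Dens.add (Dens.smul P.m1 (Dens.mul (Dens.fpwD hδ P.q 0) (Dens.wedD 2 3)))
    (Dens.add (Dens.smul P.m2 (Dens.mul (Dens.fpwD hδ (P.q - 2) 0)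
      (Dens.add (Dens.mul (Dens.dotD 0 2) (Dens.wedD 0 3))
        (Dens.mul (Dens.wedD 0 2) (Dens.dotD 0 3)))))
      (Dens.smul (n * P.n5) (Dens.mul (Dens.fpwD hδ (P.q - 2) 0)
        (Dens.smul 2 (Dens.mul (Dens.dotD 0 2) (Dens.wedD 0 2))))))

/-- the density of the phase derivative in `F, H` -/
noncomputable def ND : Dens (Fin 2) :=
  Dens.smul (n * P.c6) (Dens.mul (Dens.fpwD hδ P.q 0) (Dens.wedD 0 1))

theorem RD_inv : (RD P hδ n).Inv :=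
  (((Dens.Inv.fpwD hδ _ _).mul (Dens.Inv.dotD _ _)).smul _).add
    ((((Dens.Inv.fpwD hδ _ _).mul (((Dens.Inv.dotD _ _).mul (Dens.Inv.dotD _ _)).add
      (((Dens.Inv.wedD _ _).mul (Dens.Inv.wedD _ _)).smul _))).smul _).add
      (((Dens.Inv.fpwD hδ _ _).mul (Dens.Inv.dotD _ _)).smul _))

theorem PD_inv : (PD P hδ n).Inv :=
  (((Dens.Inv.fpwD hδ _ _).mul (Dens.Inv.wedD _ _)).smul _).add
    ((((Dens.Inv.fpwD hδ _ _).mul (((Dens.Inv.dotD _ _).mul (Dens.Inv.wedD _ _)).add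
      ((Dens.Inv.wedD _ _).mul (Dens.Inv.dotD _ _)))).smul _).add
      (((Dens.Inv.fpwD hδ _ _).mul (((Dens.Inv.dotD _ _).mul (Dens.Inv.wedD _ _)).smul _)).smul _))

theorem ND_inv : (ND P hδ n).Inv := ((Dens.Inv.fpwD hδ _ _).mul (Dens.Inv.wedD _ _)).smul _

theorem PhiD0_inv : (PhiD0 d P hδ).Inv :=
  (Dens.Inv.fpwD hδ _ _).mul ((Dens.Inv.dotD _ _).add (((Dens.Inv.dotD _ _).smul _).add
    ((Dens.Inv.dotD _ _).smul _)))

theorem PhiD1_inv (p : Fin (d + 1) × Fin (d + 1)) : (PhiD1 d P hδ p).Inv :=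
  (((Dens.Inv.fpwD hδ _ _).mul (Dens.Inv.dotD _ _)).smul _).add
    (((Dens.Inv.fpwD hδ _ _).mul (((Dens.Inv.dotD _ _).mul (Dens.Inv.dotD _ _)).add
      (((Dens.Inv.wedD _ _).mul (Dens.Inv.wedD _ _)).smul _))).smul _)

theorem XiD1_inv (p : Fin (d + 1) × Fin (d + 1)) : (XiD1 d P hδ p).Inv :=
  (Dens.Inv.fpwD hδ _ _).mul ((Dens.Inv.wedD _ _).mul (Dens.Inv.wedD _ _))

theorem PhiD_inv : (PhiD d P hδ).Inv :=
  (PhiD0_inv P hδ).add ((Dens.Inv.sum _ fun p => PhiD1_inv P hδ p).smul _)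

/-- the linear terms in `∑ L L ψ` -/
noncomputable def lin (F e z : ℂ) : ℝ :=
  P.m1 * (fpw δ P.q F * dot e z) +
    P.m2 * (fpw δ (P.q - 2) F * (dot F e * dot F z - wed F e * wed F z)) +
    n * P.n4 * (fpw δ P.q F * dot F z)

/-- the part of the index `p` of the second derivative with the shift, the integrations by parts and
the costs -/
noncomputable def lhs1 (p : Fin (d + 1) × Fin (d + 1)) (z z1 z2 : Ix d → ℂ)
    (j jr jp : Fin 4 → ℂ) : ℝ :=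
  (PhiD1 d P hδ p).f2 z (fun i => -(z1 i)) z2 +
    (PhiD1 d P hδ p).f2 z (fun i => -(I * z1 i)) (fun i => -(z2 i)) +
    2 * (P.σ * n) * (PhiD1 d P hδ p).f1 z (fun i => -(z1 i)) +
    (P.σ * n) ^ 2 * (PhiD1 d P hδ p).f0 z +
    n * P.ξ * ((XiD1 d P hδ p).f1 z (fun i => -(z1 i)) + P.σ * n * (XiD1 d P hδ p).f0 z) +
    (RD P hδ n).f1 j jr + (PD P hδ n).f1 j jp +
    fpw δ P.q (z (Sum.inl 0)) * (P.Cbb * dot (z1 (Sum.inr p)) (z1 (Sum.inr p)) +
      2 * n * P.Cbv * dot (z1 (Sum.inr p)) (z (Sum.inr p)) +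
      n ^ 2 * P.Cvv * dot (z (Sum.inr p)) (z (Sum.inr p)))

/-- the part without index -/
noncomputable def lhs0 (z z1 z2 : Ix d → ℂ) (k kp : Fin 2 → ℂ) : ℝ :=
  (PhiD0 d P hδ).f2 z (fun i => -(z1 i)) z2 +
    (PhiD0 d P hδ).f2 z (fun i => -(I * z1 i)) (fun i => -(z2 i)) +
    2 * (P.σ * n) * (PhiD0 d P hδ).f1 z (fun i => -(z1 i)) +
    (P.σ * n) ^ 2 * (PhiD0 d P hδ).f0 z +
    (ND P hδ n).f1 k kp +
    fpw δ P.q (z (Sum.inl 0)) * (n ^ 2 * P.C11 * dot (z (Sum.inl 0)) (z (Sum.inl 0)) +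
      2 * n ^ 2 * P.C1h * dot (z (Sum.inl 0)) (z (Sum.inl 1)) +
      n ^ 2 * P.Chh * dot (z (Sum.inl 1)) (z (Sum.inl 1)) +
      P.Cee * dot (z1 (Sum.inl 0)) (z1 (Sum.inl 0)) +
      2 * n * P.Ce1 * dot (z (Sum.inl 0)) (z1 (Sum.inl 0)) +
      2 * n * P.Ceh * dot (z1 (Sum.inl 0)) (z (Sum.inl 1)))

theorem eq1 (p : Fin (d + 1) × Fin (d + 1)) {z z1 z2 : Ix d → ℂ} {j jr jp : Fin 4 → ℂ}
    {w zz : ℂ} {f G ρ er ei vr vi br bi : ℝ}
    (hF : z (Sum.inl 0) = ⟨ρ * f, 0⟩) (he : z1 (Sum.inl 0) = ⟨n * f * er, n * f * ei⟩)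
    (hv : z (Sum.inr p) = ⟨f * vr, f * vi⟩) (hb : z1 (Sum.inr p) = ⟨n * f * br, n * f * bi⟩)
    (h0 : fpw δ P.q (z (Sum.inl 0)) = G * f ^ 6)
    (h2 : fpw δ (P.q - 2) (z (Sum.inl 0)) = G * f ^ 4)
    (h4 : fpw δ (P.q - 2 - 2) (z (Sum.inl 0)) = G * f ^ 2)
    (h6 : fpw δ (P.q - 2 - 2 - 2) (z (Sum.inl 0)) = G)
    (j0 : j 0 = z (Sum.inl 0)) (j1 : j 1 = z1 (Sum.inl 0)) (j2 : j 2 = z (Sum.inr p))
    (j3 : j 3 = z1 (Sum.inr p)) (r0 : jr 0 = z1 (Sum.inr p)) (r1 : jr 1 = w) (r2 : jr 2 = zz)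
    (p0 : jp 0 = -(I * z1 (Sum.inl 0))) (p2 : jp 2 = -(I * z1 (Sum.inr p)))
    (p3 : jp 3 = -(I * w)) :
    lhs1 P hδ n p z z1 z2 j jr jp =
      n ^ 2 * (G * f ^ 8) * P.q1 ρ er ei vr vi br bi +
        lin P (δ := δ) n (z (Sum.inl 0)) (z1 (Sum.inl 0)) zz := by
  unfold lhs1 lin Prm.q1
  simp only [PhiD1, XiD1, RD, PD, Dens.add, Dens.smul, Dens.mul, Dens.fpwD, Dens.dotD, Dens.wedD,
    j0, j1, j2, j3, r0, r1, r2, p0, p2, p3]
  rw [h0, h2, h4, h6]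
  simp only [hF, he, hv, hb, dot, wed, neg_re, neg_im, mul_re, mul_im, I_re, I_im]
  ring

theorem eq0 {z z1 z2 : Ix d → ℂ} {k kp : Fin 2 → ℂ}
    {f G ρ er ei hr hi : ℝ}
    (hF : z (Sum.inl 0) = ⟨ρ * f, 0⟩) (he : z1 (Sum.inl 0) = ⟨n * f * er, n * f * ei⟩)
    (hH : z (Sum.inl 1) = ⟨f * hr, f * hi⟩) (hH1 : z1 (Sum.inl 1) = (n : ℂ) * z (Sum.inl 0))
    (h0 : fpw δ P.q (z (Sum.inl 0)) = G * f ^ 6)
    (h2 : fpw δ (P.q - 2) (z (Sum.inl 0)) = G * f ^ 4)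
    (h4 : fpw δ (P.q - 2 - 2) (z (Sum.inl 0)) = G * f ^ 2)
    (k0 : k 0 = z (Sum.inl 0)) (k1 : k 1 = z (Sum.inl 1))
    (p0 : kp 0 = -(I * z1 (Sum.inl 0))) (p1 : kp 1 = -(I * z1 (Sum.inl 1))) :
    lhs0 P hδ n z z1 z2 k kp +
      lin P (δ := δ) n (z (Sum.inl 0)) (z1 (Sum.inl 0))
        ((n : ℂ) * z (Sum.inl 1) - z1 (Sum.inl 0)) =
      n ^ 2 * (G * f ^ 8) * P.q0 ρ er ei hr hi := by
  unfold lhs0 lin Prm.q0
  simp only [PhiD0, ND, Dens.add, Dens.smul, Dens.mul, Dens.fpwD, Dens.dotD, Dens.wedD,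
    k0, k1, p0, p1]
  rw [h0, h2, h4]
  simp only [hH1]
  simp only [hF, he, hH, dot, wed, neg_re, neg_im, mul_re, mul_im, I_re, I_im, sub_re, sub_im,
    ofReal_re, ofReal_im]
  ring

/-! ### Inequalities -/

/-- rotate so that `F` is real -/
theorem exists_unit (F : ℂ) : ∃ u : ℂ, normSq u = 1 ∧ (u * F).im = 0 ∧ 0 ≤ (u * F).re := by
  rcases eq_or_ne F 0 with h | h
  · exact ⟨1, by simp, by simp [h], by simp [h]⟩
  · have h1 : ‖F‖ ≠ 0 := norm_ne_zero_iff.2 h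
    have h2 : (‖F‖ : ℂ) ≠ 0 := by exact_mod_cast h1
    have e1 : (‖F‖ : ℂ)⁻¹ * conj F * F = ‖F‖ := by
      have : conj F * F = ((‖F‖ ^ 2 : ℝ) : ℂ) := by
        rw [← normSq_eq_conj_mul_self, normSq_eq_norm_sq]
      rw [mul_assoc, this]
      push_cast
      field_simp
    refine ⟨(‖F‖ : ℂ)⁻¹ * conj F, ?_, ?_, ?_⟩
    · rw [map_mul, map_inv₀, normSq_conj, normSq_ofReal, normSq_eq_norm_sq]
      field_simp
    · rw [e1]; simp
    · rw [e1]; simp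

theorem fpw_rot {u : ℂ} (hu : normSq u = 1) (δ s : ℝ) (F : ℂ) : fpw δ s (u * F) = fpw δ s F := by
  unfold fpw rs
  rw [dot_mul, hu, one_mul]

theorem dot_rot {u : ℂ} (hu : normSq u = 1) (a b : ℂ) : dot (u * a) (u * b) = dot a b := by
  rw [dot_mul, hu, one_mul]

theorem wed_rot {u : ℂ} (hu : normSq u = 1) (a b : ℂ) : wed (u * a) (u * b) = wed a b := by
  rw [wed_mul, hu, one_mul]

theorem lin_rot {u : ℂ} (hu : normSq u = 1) (F e z : ℂ) :
    lin P (δ := δ) n (u * F) (u * e) (u * z) = lin P (δ := δ) n F e z := by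
  unfold lin
  simp only [fpw_rot hu, dot_rot hu, wed_rot hu]

theorem lhs1_rot {u : ℂ} (hu : normSq u = 1) (p : Fin (d + 1) × Fin (d + 1))
    (z z1 z2 : Ix d → ℂ) (j jr jp : Fin 4 → ℂ) :
    lhs1 P hδ n p (fun i => u * z i) (fun i => u * z1 i) (fun i => u * z2 i)
      (fun i => u * j i) (fun i => u * jr i) (fun i => u * jp i) =
    lhs1 P hδ n p z z1 z2 j jr jp := by
  have a1 := (PhiD1_inv P hδ p).f2' hu z (fun i => -(z1 i)) z2
  have a2 := (PhiD1_inv P hδ p).f2' hu z (fun i => -(I * z1 i)) (fun i => -(z2 i))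
  have a3 := (PhiD1_inv P hδ p).f1' hu z (fun i => -(z1 i))
  have a4 := PhiD1_inv P hδ p u hu z
  have a5 := (XiD1_inv P hδ p).f1' hu z (fun i => -(z1 i))
  have a6 := XiD1_inv P hδ p u hu z
  have a7 := (RD_inv P hδ n).f1' hu j jr
  have a8 := (PD_inv P hδ n).f1' hu j jp
  have c1 : (fun i => -(u * z1 i)) = fun i => u * -(z1 i) := funext fun i => by ring
  have c2 : (fun i => -(I * (u * z1 i))) = fun i => u * -(I * z1 i) := funext fun i => by ring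
  have c3 : (fun i => -(u * z2 i)) = fun i => u * -(z2 i) := funext fun i => by ring
  unfold lhs1
  rw [c1, c2, c3, a1, a2, a3, a4, a5, a6, a7, a8]
  simp only [fpw_rot hu, dot_rot hu]

theorem lhs0_rot {u : ℂ} (hu : normSq u = 1) (z z1 z2 : Ix d → ℂ) (k kp : Fin 2 → ℂ) :
    lhs0 P hδ n (fun i => u * z i) (fun i => u * z1 i) (fun i => u * z2 i)
      (fun i => u * k i) (fun i => u * kp i) = lhs0 P hδ n z z1 z2 k kp := by
  have a1 := (PhiD0_inv (d := d) P hδ).f2' hu z (fun i => -(z1 i)) z2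
  have a2 := (PhiD0_inv (d := d) P hδ).f2' hu z (fun i => -(I * z1 i)) (fun i => -(z2 i))
  have a3 := (PhiD0_inv (d := d) P hδ).f1' hu z (fun i => -(z1 i))
  have a4 := PhiD0_inv (d := d) P hδ u hu z
  have a7 := (ND_inv P hδ n).f1' hu k kp
  have c1 : (fun i => -(u * z1 i)) = fun i => u * -(z1 i) := funext fun i => by ring
  have c2 : (fun i => -(I * (u * z1 i))) = fun i => u * -(I * z1 i) := funext fun i => by ring
  have c3 : (fun i => -(u * z2 i)) = fun i => u * -(z2 i) := funext fun i => by ring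
  unfold lhs0
  rw [c1, c2, c3, a1, a2, a3, a4, a7]
  simp only [fpw_rot hu, dot_rot hu]

theorem fpw_sub_le {δ s : ℝ} (hδ : 0 < δ) (hs : s ≤ 2) (F : ℂ) :
    fpw δ (s - 2) F * δ ^ 2 ≤ δ ^ s := by
  have h1 : fpw δ (s - 2) F ≤ δ ^ (s - 2) := by
    unfold fpw
    have h2 : δ ^ 2 ≤ rs δ F := by
      unfold rs
      linarith [dot_self_nonneg F]
    have h3 : δ ^ (s - 2) = (δ ^ 2) ^ ((s - 2) / 2) := by
      rw [← Real.rpow_natCast, ← Real.rpow_mul hδ.le]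
      congr 1
      push_cast
      ring
    rw [h3]
    exact Real.rpow_le_rpow_of_nonpos (by positivity) h2 (by linarith)
  have h4 : δ ^ s = δ ^ (s - 2) * δ ^ 2 := by
    rw [← Real.rpow_natCast, ← Real.rpow_add hδ]
    congr 1
    push_cast
    ring
  rw [h4]
  exact mul_le_mul_of_nonneg_right h1 (by positivity)

/-- the scale: `f² = |F|² + δ²`, and the powers -/
theorem scale {δ : ℝ} (hδ : 0 < δ) (q : ℝ) {F : ℂ} (him : F.im = 0) (hre : 0 ≤ F.re) :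
    ∃ f G ρ : ℝ, 0 < f ∧ 0 < G ∧ 0 ≤ ρ ∧ ρ ≤ 1 ∧ F = ⟨ρ * f, 0⟩ ∧
      (1 - ρ ^ 2) * f ^ 2 = δ ^ 2 ∧ fpw δ q F = G * f ^ 6 ∧ fpw δ (q - 2) F = G * f ^ 4 ∧
      fpw δ (q - 2 - 2) F = G * f ^ 2 ∧ fpw δ (q - 2 - 2 - 2) F = G := by
  have hr := rs_pos hδ F
  set f := √(rs δ F) with hf
  have hf0 : 0 < f := Real.sqrt_pos.2 hr
  have hf2 : f ^ 2 = rs δ F := Real.sq_sqrt hr.le
  have hrs : rs δ F = F.re ^ 2 + δ ^ 2 := by
    unfold rs dot
    rw [him]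
    ring
  have hle : F.re ≤ f := by
    rw [hf]
    refine Real.le_sqrt_of_sq_le ?_
    rw [hrs]
    nlinarith [sq_nonneg δ]
  have e : ∀ s : ℝ, fpw δ s F = fpw δ (s - 2) F * f ^ 2 := fun s => by
    have := fpw_add hδ (s - 2) 2 F
    rw [sub_add_cancel, fpw_two] at this
    rw [this, hf2]
  refine ⟨f, fpw δ (q - 2 - 2 - 2) F, F.re / f, hf0, fpw_pos hδ _ _, by positivity,
    (div_le_one hf0).2 hle, ?_, ?_, ?_, ?_, ?_, rfl⟩
  · rw [div_mul_cancel₀ _ hf0.ne']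
    exact Complex.ext rfl him
  · have : (1 - (F.re / f) ^ 2) * f ^ 2 = f ^ 2 - F.re ^ 2 := by
      field_simp
    rw [this, hf2, hrs]
    ring
  · rw [e q, e (q - 2), e (q - 2 - 2)]
    ring
  · rw [e (q - 2), e (q - 2 - 2)]
    ring
  · rw [e (q - 2 - 2)]

end Pool.Agent.ConeG.FI
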