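import Pool.Agent.Work.MP_b0b133_an.G.FIp

/-!
# The pointwise inequality
-/

set_option autoImplicit false
open MeasureTheory Complex Filter Topology
open scoped ENNReal ComplexConjugate

namespace Pool.Agent.ConeG.FI

variable {d : ℕ} {μ : Measure (CC d)} (P : Prm) {δ : ℝ} (hδ : 0 < δ) {n : ℝ}

theorem lhs1_ge (hn : 0 < n) (hq2 : P.q ≤ 2) {C : ℝ} (hC0 : 0 ≤ C)
    (hC : ∀ r er ei vr vi br bi : ℝ, 0 ≤ r → r ≤ 1 →
      -(C * (1 - r ^ 2) * (vr ^ 2 + vi ^ 2 + br ^ 2 + bi ^ 2)) ≤ P.q1 r er ei vr vi br bi)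
    (p : Fin (d + 1) × Fin (d + 1)) (z z1 z2 : Ix d → ℂ) {j jr jp : Fin 4 → ℂ} {w zz : ℂ}
    (j0 : j 0 = z (Sum.inl 0)) (j1 : j 1 = z1 (Sum.inl 0)) (j2 : j 2 = z (Sum.inr p))
    (j3 : j 3 = z1 (Sum.inr p)) (r0 : jr 0 = z1 (Sum.inr p)) (r1 : jr 1 = w) (r2 : jr 2 = zz)
    (p0 : jp 0 = -(I * z1 (Sum.inl 0))) (p2 : jp 2 = -(I * z1 (Sum.inr p)))
    (p3 : jp 3 = -(I * w)) :
    lin P (δ := δ) n (z (Sum.inl 0)) (z1 (Sum.inl 0)) zz -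
      n ^ 2 * (C * δ ^ P.q) * (dot (z (Sum.inr p)) (z (Sum.inr p)) +
        dot (z1 (Sum.inr p)) (z1 (Sum.inr p)) / n ^ 2) ≤ lhs1 P hδ n p z z1 z2 j jr jp := by
  obtain ⟨u, hu, him, hre⟩ := exists_unit (z (Sum.inl 0))
  obtain ⟨f, G, ρ, hf, hG, hρ0, hρ1, hF, hs, g0, g2, g4, g6⟩ := scale hδ P.q him hre
  have hnf : n * f ≠ 0 := (mul_pos hn hf).ne'
  have e1 := eq1 P hδ n p (z := fun i => u * z i) (z1 := fun i => u * z1 i)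
    (z2 := fun i => u * z2 i) (j := fun i => u * j i) (jr := fun i => u * jr i)
    (jp := fun i => u * jp i) (w := u * w) (zz := u * zz) (f := f) (G := G) (ρ := ρ)
    (er := (u * z1 (Sum.inl 0)).re / (n * f)) (ei := (u * z1 (Sum.inl 0)).im / (n * f))
    (vr := (u * z (Sum.inr p)).re / f) (vi := (u * z (Sum.inr p)).im / f)
    (br := (u * z1 (Sum.inr p)).re / (n * f)) (bi := (u * z1 (Sum.inr p)).im / (n * f))
    hF (by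
      rw [mul_div_cancel₀ _ hnf, mul_div_cancel₀ _ hnf])
    (by rw [mul_div_cancel₀ _ hf.ne', mul_div_cancel₀ _ hf.ne'])
    (by rw [mul_div_cancel₀ _ hnf, mul_div_cancel₀ _ hnf]) g0 g2 g4 g6
    (by rw [j0]) (by rw [j1]) (by rw [j2]) (by rw [j3]) (by rw [r0]) (by rw [r1]) (by rw [r2])
    (by rw [p0]; ring) (by rw [p2]; ring) (by rw [p3]; ring)
  rw [lhs1_rot P hδ n hu, lin_rot P n hu] at e1
  rw [e1, ← dot_rot hu (z (Sum.inr p)) (z (Sum.inr p)),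
    ← dot_rot hu (z1 (Sum.inr p)) (z1 (Sum.inr p))]
  have h1 := hC ρ ((u * z1 (Sum.inl 0)).re / (n * f)) ((u * z1 (Sum.inl 0)).im / (n * f))
    ((u * z (Sum.inr p)).re / f) ((u * z (Sum.inr p)).im / f)
    ((u * z1 (Sum.inr p)).re / (n * f)) ((u * z1 (Sum.inr p)).im / (n * f)) hρ0 hρ1
  have h2 : 0 ≤ n ^ 2 * (G * f ^ 8) := by positivity
  have h3 := mul_le_mul_of_nonneg_left h1 h2
  set A := dot (u * z (Sum.inr p)) (u * z (Sum.inr p)) +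
    dot (u * z1 (Sum.inr p)) (u * z1 (Sum.inr p)) / n ^ 2 with hA
  have hA0 : 0 ≤ A := by
    have a1 := dot_self_nonneg (u * z (Sum.inr p))
    have a2 := dot_self_nonneg (u * z1 (Sum.inr p))
    positivity
  have h4 : n ^ 2 * (G * f ^ 8) * -(C * (1 - ρ ^ 2) * (((u * z (Sum.inr p)).re / f) ^ 2 +
      ((u * z (Sum.inr p)).im / f) ^ 2 + ((u * z1 (Sum.inr p)).re / (n * f)) ^ 2 +
      ((u * z1 (Sum.inr p)).im / (n * f)) ^ 2)) =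
      -(n ^ 2 * C * (G * f ^ 4 * ((1 - ρ ^ 2) * f ^ 2)) * A) := by
    rw [hA]
    unfold dot
    field_simp
    ring
  rw [h4, hs, ← g2] at h3
  have h5 := fpw_sub_le hδ hq2 (u * z (Sum.inl 0))
  have h6 : n ^ 2 * C * (fpw δ (P.q - 2) (u * z (Sum.inl 0)) * δ ^ 2) * A ≤
      n ^ 2 * C * δ ^ P.q * A :=
    mul_le_mul_of_nonneg_right (mul_le_mul_of_nonneg_left h5 (by positivity)) hA0
  have h7 : n ^ 2 * (C * δ ^ P.q) * A = n ^ 2 * C * δ ^ P.q * A := by ring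
  rw [h7]
  linarith

theorem lhs0_ge (hn : 0 < n) (hq2 : P.q ≤ 2) {C : ℝ} (hC0 : 0 ≤ C)
    (hC : ∀ r er ei hr hi : ℝ, 0 ≤ r → r ≤ 1 →
      -(C * (1 - r ^ 2) * (r ^ 2 + er ^ 2 + ei ^ 2 + hr ^ 2 + hi ^ 2)) ≤ P.q0 r er ei hr hi)
    (z z1 z2 : Ix d → ℂ) {k kp : Fin 2 → ℂ}
    (hH1 : z1 (Sum.inl 1) = (n : ℂ) * z (Sum.inl 0))
    (k0 : k 0 = z (Sum.inl 0)) (k1 : k 1 = z (Sum.inl 1))
    (p0 : kp 0 = -(I * z1 (Sum.inl 0))) (p1 : kp 1 = -(I * z1 (Sum.inl 1))) :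
    -(n ^ 2 * (C * δ ^ P.q) * (dot (z (Sum.inl 0)) (z (Sum.inl 0)) +
        dot (z (Sum.inl 1)) (z (Sum.inl 1)) + dot (z1 (Sum.inl 0)) (z1 (Sum.inl 0)) / n ^ 2)) ≤
      lhs0 P hδ n z z1 z2 k kp + lin P (δ := δ) n (z (Sum.inl 0)) (z1 (Sum.inl 0))
        ((n : ℂ) * z (Sum.inl 1) - z1 (Sum.inl 0)) := by
  obtain ⟨u, hu, him, hre⟩ := exists_unit (z (Sum.inl 0))
  obtain ⟨f, G, ρ, hf, hG, hρ0, hρ1, hF, hs, g0, g2, g4, g6⟩ := scale hδ P.q him hre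
  have hnf : n * f ≠ 0 := (mul_pos hn hf).ne'
  have e1 := eq0 P hδ n (z := fun i => u * z i) (z1 := fun i => u * z1 i)
    (z2 := fun i => u * z2 i) (k := fun i => u * k i) (kp := fun i => u * kp i)
    (f := f) (G := G) (ρ := ρ)
    (er := (u * z1 (Sum.inl 0)).re / (n * f)) (ei := (u * z1 (Sum.inl 0)).im / (n * f))
    (hr := (u * z (Sum.inl 1)).re / f) (hi := (u * z (Sum.inl 1)).im / f)
    hF (by
      rw [mul_div_cancel₀ _ hnf, mul_div_cancel₀ _ hnf])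
    (by rw [mul_div_cancel₀ _ hf.ne', mul_div_cancel₀ _ hf.ne'])
    (by rw [hH1]; ring) g0 g2 g4 (by rw [k0]) (by rw [k1]) (by rw [p0]; ring) (by rw [p1]; ring)
  have e2 : (n : ℂ) * (u * z (Sum.inl 1)) - u * z1 (Sum.inl 0) =
      u * ((n : ℂ) * z (Sum.inl 1) - z1 (Sum.inl 0)) := by ring
  rw [lhs0_rot P hδ n hu, e2, lin_rot P n hu] at e1
  rw [e1, ← dot_rot hu (z (Sum.inl 0)) (z (Sum.inl 0)),
    ← dot_rot hu (z (Sum.inl 1)) (z (Sum.inl 1)),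
    ← dot_rot hu (z1 (Sum.inl 0)) (z1 (Sum.inl 0))]
  have h1 := hC ρ ((u * z1 (Sum.inl 0)).re / (n * f)) ((u * z1 (Sum.inl 0)).im / (n * f))
    ((u * z (Sum.inl 1)).re / f) ((u * z (Sum.inl 1)).im / f) hρ0 hρ1
  have h2 : 0 ≤ n ^ 2 * (G * f ^ 8) := by positivity
  have h3 := mul_le_mul_of_nonneg_left h1 h2
  set A := dot (u * z (Sum.inl 0)) (u * z (Sum.inl 0)) +
    dot (u * z (Sum.inl 1)) (u * z (Sum.inl 1)) +
    dot (u * z1 (Sum.inl 0)) (u * z1 (Sum.inl 0)) / n ^ 2 with hA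
  have hA0 : 0 ≤ A := by
    have a1 := dot_self_nonneg (u * z (Sum.inl 0))
    have a2 := dot_self_nonneg (u * z (Sum.inl 1))
    have a3 := dot_self_nonneg (u * z1 (Sum.inl 0))
    positivity
  have hFr : u * z (Sum.inl 0) = ⟨ρ * f, 0⟩ := hF
  have h4 : n ^ 2 * (G * f ^ 8) * -(C * (1 - ρ ^ 2) * (ρ ^ 2 +
      ((u * z1 (Sum.inl 0)).re / (n * f)) ^ 2 + ((u * z1 (Sum.inl 0)).im / (n * f)) ^ 2 +
      ((u * z (Sum.inl 1)).re / f) ^ 2 + ((u * z (Sum.inl 1)).im / f) ^ 2)) =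
      -(n ^ 2 * C * (G * f ^ 4 * ((1 - ρ ^ 2) * f ^ 2)) * A) := by
    rw [hA]
    unfold dot
    rw [hFr]
    field_simp
    ring
  rw [h4, hs, ← g2] at h3
  have h5 := fpw_sub_le hδ hq2 (u * z (Sum.inl 0))
  have h6 : n ^ 2 * C * (fpw δ (P.q - 2) (u * z (Sum.inl 0)) * δ ^ 2) * A ≤
      n ^ 2 * C * δ ^ P.q * A :=
    mul_le_mul_of_nonneg_right (mul_le_mul_of_nonneg_left h5 (by positivity)) hA0
  have h7 : n ^ 2 * (C * δ ^ P.q) * A = n ^ 2 * C * δ ^ P.q * A := by ring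
  rw [h7]
  linarith

end Pool.Agent.ConeG.FI
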