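import Pool.Agent.Work.MP_b0b133_an.G.FIq

/-!
# The pointwise inequality for the jets of a harmonic polynomial
-/

set_option autoImplicit false
open MeasureTheory Complex Filter Topology
open scoped ENNReal ComplexConjugate

namespace Pool.Agent.ConeG.FI

variable {d : ℕ} {μ : Measure (CC d)}

/-- the costs -/
noncomputable def cstP (P : Prm) (δ : ℝ) (ψ : Poly d) (y : ℝ) (x : CC d) : ℝ :=
  fpw δ P.q (evz (y : ℂ) x (AP ψ)) * (
    (nu d ^ 2 * P.C11 * dot (evz (y : ℂ) x (AP ψ)) (evz (y : ℂ) x (AP ψ)) +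
      2 * nu d ^ 2 * P.C1h * dot (evz (y : ℂ) x (AP ψ)) (evz (y : ℂ) x ((nu d : ℂ) • ψ)) +
      nu d ^ 2 * P.Chh * dot (evz (y : ℂ) x ((nu d : ℂ) • ψ)) (evz (y : ℂ) x ((nu d : ℂ) • ψ)) +
      P.Cee * dot (evz (y : ℂ) x (AP (AP ψ))) (evz (y : ℂ) x (AP (AP ψ))) +
      2 * nu d * P.Ce1 * dot (evz (y : ℂ) x (AP ψ)) (evz (y : ℂ) x (AP (AP ψ))) +
      2 * nu d * P.Ceh * dot (evz (y : ℂ) x (AP (AP ψ))) (evz (y : ℂ) x ((nu d : ℂ) • ψ))) +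
    1 / 2 * ∑ p : Fin (d + 1) × Fin (d + 1),
      (P.Cbb * dot (evz (y : ℂ) x (LP p.1 p.2 (AP ψ))) (evz (y : ℂ) x (LP p.1 p.2 (AP ψ))) +
      2 * nu d * P.Cbv * dot (evz (y : ℂ) x (LP p.1 p.2 (AP ψ))) (evz (y : ℂ) x (LP p.1 p.2 ψ)) +
      nu d ^ 2 * P.Cvv * dot (evz (y : ℂ) x (LP p.1 p.2 ψ)) (evz (y : ℂ) x (LP p.1 p.2 ψ))))

theorem dot_add_right (a b c : ℂ) : dot a (b + c) = dot a b + dot a c := by
  unfold dot
  simp only [add_re, add_im]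
  ring

theorem dot_sum_right {κ : Type*} (s : Finset κ) (a : ℂ) (b : κ → ℂ) :
    dot a (∑ k ∈ s, b k) = ∑ k ∈ s, dot a (b k) := by
  unfold dot
  rw [re_sum, im_sum, Finset.mul_sum, Finset.mul_sum, ← Finset.sum_add_distrib]

theorem wed_sum_right {κ : Type*} (s : Finset κ) (a : ℂ) (b : κ → ℂ) :
    wed a (∑ k ∈ s, b k) = ∑ k ∈ s, wed a (b k) := by
  unfold wed
  rw [re_sum, im_sum, Finset.mul_sum, Finset.mul_sum, ← Finset.sum_sub_distrib]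

theorem lin_sum (P : Prm) {δ : ℝ} (n : ℝ) {κ : Type*} (s : Finset κ) (F e : ℂ) (b : κ → ℂ) :
    lin P (δ := δ) n F e (∑ k ∈ s, b k) = ∑ k ∈ s, lin P (δ := δ) n F e (b k) := by
  unfold lin
  rw [dot_sum_right, dot_sum_right, wed_sum_right]
  simp only [Finset.sum_add_distrib, Finset.mul_sum, Finset.sum_sub_distrib, mul_sub]

theorem lin_smul (P : Prm) {δ : ℝ} (n : ℝ) (F e b : ℂ) (c : ℝ) :
    lin P (δ := δ) n F e ((c : ℂ) * b) = c * lin P (δ := δ) n F e b := by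
  unfold lin dot wed
  simp only [mul_re, mul_im, ofReal_re, ofReal_im]
  ring

/-- the family of the phase derivative -/
noncomputable def Q2 (ψ : Poly d) : Fin 2 → Poly d := ![AP ψ, (nu d : ℂ) • ψ]

/-- the family of the rotation derivatives -/
noncomputable def Q4 (ψ : Poly d) (p : Fin (d + 1) × Fin (d + 1)) : Fin 4 → Poly d :=
  ![AP ψ, AP (AP ψ), LP p.1 p.2 ψ, LP p.1 p.2 (AP ψ)]

/-- the sum of the functions with vanishing integral -/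
noncomputable def Zt (P : Prm) {δ : ℝ} (hδ : 0 < δ) (ψ : Poly d) (y : ℝ) (x : CC d) : ℝ :=
  ((PhiD d P hδ).f2 (jet (Pj ψ) y x) (fun i => -(I * evz y x (AP (Pj ψ i))))
      (fun i => -(evz y x (AP (AP (Pj ψ i))))) +
    (ND P hδ (nu d)).f1 (jet (Q2 ψ) y x) (fun i => -(I * evz y x (AP (Q2 ψ i))))) +
  1 / 2 * ∑ p : Fin (d + 1) × Fin (d + 1),
    ((RD P hδ (nu d)).f1 (jet (Q4 ψ p) y x) (fun k => evz y x (LP p.1 p.2 (Q4 ψ p k))) +
    (PD P hδ (nu d)).f1 (jet (Q4 ψ p) y x) (fun i => -(I * evz y x (AP (Q4 ψ p i)))))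

theorem Zt_zr (hμ : Law μ) (P : Prm) {δ : ℝ} (hδ : 0 < δ) (ψ : Poly d) (y : ℝ) :
    Zr μ (Zt P hδ ψ y) := by
  unfold Zt
  refine Zr.add hμ (Zr.add hμ (zr_phase2 hμ (PhiD_inv P hδ) y) (zr_phase1 hμ (ND_inv P hδ _) y))
    (Zr.mul _ (Zr.sum hμ fun p => Zr.add hμ (zr_rot1' hμ _ _ _ _) (zr_phase1 hμ (PD_inv P hδ _) y)))

/-- the pointwise inequality -/
theorem pointwise (hν : 0 < nu d) (P : Prm) (hq0 : 0 < P.q) (hq2 : P.q < 2)
    (hβ : |P.β| * (2 + P.q) < P.α * P.q)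
    (h0 : ∀ er ei hr hi : ℝ, 0 ≤ P.q0 1 er ei hr hi)
    (h1 : ∀ er ei vr vi br bi : ℝ, 0 ≤ P.q1 1 er ei vr vi br bi) :
    ∃ C : ℝ, 0 ≤ C ∧ ∀ (δ : ℝ) (hδ : 0 < δ), ∀ ψ ∈ HP d, ∀ (y : ℝ) (x : CC d),
      0 ≤ (PhiD d P hδ).f2 (jet (Pj ψ) y x) (fun i => -(evz y x (AP (Pj ψ i))))
          (fun i => evz y x (AP (AP (Pj ψ i)))) +
        2 * (P.σ * nu d) * (PhiD d P hδ).f1 (jet (Pj ψ) y x) (fun i => -(evz y x (AP (Pj ψ i)))) +
        (P.σ * nu d) ^ 2 * (PhiD d P hδ).f0 (jet (Pj ψ) y x) +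
        ((XiD d P hδ).f1 (jet (Pj ψ) y x) (fun i => -(evz y x (AP (Pj ψ i)))) +
          (P.σ * nu d) * (XiD d P hδ).f0 (jet (Pj ψ) y x)) +
        Zt P hδ ψ y x + (cstP P δ ψ y x + nu d ^ 2 * (C * δ ^ P.q) * errD ψ y x) := by
  obtain ⟨C0, hC0, g0⟩ := Prm.reg0 hq0 hq2 h0
  obtain ⟨C1, hC1, g1⟩ := Prm.reg1 hq0 hq2 hβ h1
  refine ⟨C0 + C1, by positivity, fun δ hδ ψ hψ y x => ?_⟩
  set z : Ix d → ℂ := jet (Pj ψ) y x with hz
  set z1 : Ix d → ℂ := fun i => evz y x (AP (Pj ψ i)) with hz1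
  set z2 : Ix d → ℂ := fun i => evz y x (AP (AP (Pj ψ i))) with hz2
  set F := evz (y : ℂ) x (AP ψ) with hF
  set H := evz (y : ℂ) x ((nu d : ℂ) • ψ) with hH
  set e := evz (y : ℂ) x (AP (AP ψ)) with he
  set v : Fin (d + 1) × Fin (d + 1) → ℂ := fun p => evz (y : ℂ) x (LP p.1 p.2 ψ) with hv
  set b : Fin (d + 1) × Fin (d + 1) → ℂ := fun p => evz (y : ℂ) x (LP p.1 p.2 (AP ψ)) with hb
  have zF : z (Sum.inl 0) = F := rfl
  have zH : z (Sum.inl 1) = H := rfl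
  have zv : ∀ p, z (Sum.inr p) = v p := fun p => rfl
  have z1e : z1 (Sum.inl 0) = e := rfl
  have z1H : z1 (Sum.inl 1) = (nu d : ℂ) * F := by
    change evz (y : ℂ) x (AP ((nu d : ℂ) • ψ)) = _
    rw [Alg.AP_smul, evz_smul]
  have z1b : ∀ p, z1 (Sum.inr p) = b p := fun p => by
    change evz (y : ℂ) x (AP (LP p.1 p.2 ψ)) = _
    rw [← LP_AP]
  -- the part without index
  have a0 := lhs0_ge P hδ hν hq2.le hC0 g0 z z1 z2
    (k := jet (Q2 ψ) y x) (kp := fun i => -(I * evz y x (AP (Q2 ψ i))))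
    (by rw [z1H, zF]) rfl rfl rfl rfl
  -- the parts with index
  have a1 : ∀ p, _ := fun p => lhs1_ge P hδ hν hq2.le hC1 g1 p z z1 z2
    (j := jet (Q4 ψ p) y x) (jr := fun k => evz y x (LP p.1 p.2 (Q4 ψ p k)))
    (jp := fun i => -(I * evz y x (AP (Q4 ψ p i))))
    (w := evz y x (LP p.1 p.2 (AP (AP ψ)))) (zz := evz y x (LP p.1 p.2 (LP p.1 p.2 ψ)))
    rfl rfl rfl (by rw [z1b]; rfl) (by rw [z1b]; rfl) rfl rfl rfl rfl (by
      change -(I * evz (y : ℂ) x (AP (LP p.1 p.2 (AP ψ)))) = _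
      rw [← LP_AP])
  -- the sum of the linear terms
  have hsum : ∑ p : Fin (d + 1) × Fin (d + 1),
      lin P (δ := δ) (nu d) F e (evz y x (LP p.1 p.2 (LP p.1 p.2 ψ))) =
      2 * lin P (δ := δ) (nu d) F e ((nu d : ℂ) * H - e) := by
    rw [← lin_sum, Fintype.sum_prod_type, evz_sum_LL _ _ hψ, hH, evz_smul]
    have e1 : (2 : ℂ) * ((nu d : ℂ) ^ 2 * evz (y : ℂ) x ψ - evz (y : ℂ) x (AP (AP ψ))) =
        ((2 : ℝ) : ℂ) * ((nu d : ℂ) * ((nu d : ℂ) * evz (y : ℂ) x ψ) - e) := by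
      rw [he]
      push_cast
      ring
    rw [e1, lin_smul]
  have a2 := Finset.sum_le_sum fun p (_ : p ∈ (Finset.univ : Finset (Fin (d + 1) × Fin (d + 1)))) =>
    a1 p
  simp only [zF, z1e, Finset.sum_sub_distrib] at a2
  rw [hsum] at a2
  simp only [zF, zH, z1e] at a0
  -- the decomposition
  have key : (PhiD d P hδ).f2 z (fun i => -(z1 i)) z2 +
        2 * (P.σ * nu d) * (PhiD d P hδ).f1 z (fun i => -(z1 i)) +
        (P.σ * nu d) ^ 2 * (PhiD d P hδ).f0 z +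
        ((XiD d P hδ).f1 z (fun i => -(z1 i)) + (P.σ * nu d) * (XiD d P hδ).f0 z) +
        Zt P hδ ψ y x + cstP P δ ψ y x =
      lhs0 P hδ (nu d) z z1 z2 (jet (Q2 ψ) y x) (fun i => -(I * evz y x (AP (Q2 ψ i)))) +
      1 / 2 * ∑ p, lhs1 P hδ (nu d) p z z1 z2 (jet (Q4 ψ p) y x)
        (fun k => evz y x (LP p.1 p.2 (Q4 ψ p k))) (fun i => -(I * evz y x (AP (Q4 ψ p i)))) := by
    have f2 : ∀ a b : Ix d → ℂ, (PhiD d P hδ).f2 z a b =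
        (PhiD0 d P hδ).f2 z a b + 1 / 2 * ∑ p, (PhiD1 d P hδ p).f2 z a b := fun a b => rfl
    have f1 : ∀ a : Ix d → ℂ, (PhiD d P hδ).f1 z a =
        (PhiD0 d P hδ).f1 z a + 1 / 2 * ∑ p, (PhiD1 d P hδ p).f1 z a := fun a => rfl
    have f0 : (PhiD d P hδ).f0 z =
        (PhiD0 d P hδ).f0 z + 1 / 2 * ∑ p, (PhiD1 d P hδ p).f0 z := rfl
    have x1 : ∀ a : Ix d → ℂ, (XiD d P hδ).f1 z a =
        nu d * P.ξ / 2 * ∑ p, (XiD1 d P hδ p).f1 z a := fun a => rfl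
    have x0 : (XiD d P hδ).f0 z = nu d * P.ξ / 2 * ∑ p, (XiD1 d P hδ p).f0 z := rfl
    have zt : Zt P hδ ψ y x = ((PhiD d P hδ).f2 z (fun i => -(I * z1 i)) (fun i => -(z2 i)) +
        (ND P hδ (nu d)).f1 (jet (Q2 ψ) y x) (fun i => -(I * evz y x (AP (Q2 ψ i))))) +
      1 / 2 * ∑ p : Fin (d + 1) × Fin (d + 1),
        ((RD P hδ (nu d)).f1 (jet (Q4 ψ p) y x) (fun k => evz y x (LP p.1 p.2 (Q4 ψ p k))) +
        (PD P hδ (nu d)).f1 (jet (Q4 ψ p) y x) (fun i => -(I * evz y x (AP (Q4 ψ p i))))) := rfl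
    have ct : cstP P δ ψ y x = fpw δ P.q F * (
        (nu d ^ 2 * P.C11 * dot F F + 2 * nu d ^ 2 * P.C1h * dot F H +
          nu d ^ 2 * P.Chh * dot H H + P.Cee * dot e e + 2 * nu d * P.Ce1 * dot F e +
          2 * nu d * P.Ceh * dot e H) +
        1 / 2 * ∑ p : Fin (d + 1) × Fin (d + 1), (P.Cbb * dot (b p) (b p) +
          2 * nu d * P.Cbv * dot (b p) (v p) + nu d ^ 2 * P.Cvv * dot (v p) (v p))) := rfl
    rw [zt, ct, f2, f2, f1, f0, x1, x0]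
    unfold lhs0 lhs1
    simp only [zF, zH, z1e, zv, z1b, Finset.sum_add_distrib, ← Finset.mul_sum, mul_add]
    ring
  have herr : errD ψ y x = dot F F + dot H H + dot e e / nu d ^ 2 +
      1 / 2 * ∑ p : Fin (d + 1) × Fin (d + 1), (dot (v p) (v p) + dot (b p) (b p) / nu d ^ 2) := by
    unfold errD
    simp only [dot_self, hv, hb]
    rfl
  have hδq : 0 ≤ δ ^ P.q := Real.rpow_nonneg hδ.le _
  have e0 : 0 ≤ dot F F + dot H H + dot e e / nu d ^ 2 :=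
    add_nonneg (add_nonneg (dot_self_nonneg F) (dot_self_nonneg H))
      (div_nonneg (dot_self_nonneg e) (sq_nonneg _))
  have e1 : 0 ≤ ∑ p : Fin (d + 1) × Fin (d + 1), (dot (v p) (v p) +
      dot (b p) (b p) / nu d ^ 2) := Finset.sum_nonneg fun p _ =>
    add_nonneg (dot_self_nonneg (v p)) (div_nonneg (dot_self_nonneg (b p)) (sq_nonneg _))
  have s1 : ∑ p : Fin (d + 1) × Fin (d + 1), nu d ^ 2 * (C1 * δ ^ P.q) *
      (dot (z (Sum.inr p)) (z (Sum.inr p)) + dot (z1 (Sum.inr p)) (z1 (Sum.inr p)) / nu d ^ 2) =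
      nu d ^ 2 * (C1 * δ ^ P.q) * ∑ p : Fin (d + 1) × Fin (d + 1), (dot (v p) (v p) +
      dot (b p) (b p) / nu d ^ 2) := by
    rw [Finset.mul_sum]
    exact Finset.sum_congr rfl fun p _ => by rw [zv, z1b]
  rw [s1] at a2
  rw [← add_assoc, key, herr]
  generalize lhs0 P hδ (nu d) z z1 z2 (jet (Q2 ψ) y x)
    (fun i => -(I * evz y x (AP (Q2 ψ i)))) = X0 at a0 ⊢
  generalize (∑ p, lhs1 P hδ (nu d) p z z1 z2 (jet (Q4 ψ p) y x)
    (fun k => evz y x (LP p.1 p.2 (Q4 ψ p k)))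
    (fun i => -(I * evz y x (AP (Q4 ψ p i))))) = X1 at a2 ⊢
  generalize lin P (δ := δ) (nu d) F e ((nu d : ℂ) * H - e) = L at a0 a2
  generalize dot F F + dot H H + dot e e / nu d ^ 2 = A at a0 e0 ⊢
  generalize (∑ p : Fin (d + 1) × Fin (d + 1), (dot (v p) (v p) + dot (b p) (b p) / nu d ^ 2)) =
    B at a2 e1 ⊢
  generalize δ ^ P.q = D at a0 a2 hδq ⊢
  have m0 : 0 ≤ nu d ^ 2 * (C1 * D) * A := by positivity
  have m1 : 0 ≤ nu d ^ 2 * (C0 * D) * B := by positivity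
  have e2 : nu d ^ 2 * ((C0 + C1) * D) * (A + 1 / 2 * B) =
      nu d ^ 2 * (C0 * D) * A + nu d ^ 2 * (C1 * D) * A +
      1 / 2 * (nu d ^ 2 * (C0 * D) * B) + 1 / 2 * (nu d ^ 2 * (C1 * D) * B) := by ring
  rw [e2]
  linarith

end Pool.Agent.ConeG.FI
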