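import Pool.Agent.Work.MP_b0b133_an.G.BO
import Pool.Agent.Work.MP_b0b133_an.G.D
import Pool.Agent.Work.MP_b0b133_an.G.D3

/-!
# The action of boosts and translations on combinations of exponentials
-/

set_option autoImplicit false
open MeasureTheory Complex
open scoped ENNReal ComplexConjugate

namespace Pool.Agent.ConeG

variable {d : ℕ}

theorem Fb_pair_sub (a b : Rs d) (ξ : Rd d) : pair (a - b) ξ = pair a ξ - pair b ξ := by
  unfold pair
  rw [Prod.fst_sub, Prod.snd_sub, inner_sub_left]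
  ring

theorem Fb_pair_add (a b : Rs d) (ξ : Rd d) : pair (a + b) ξ = pair a ξ + pair b ξ := by
  unfold pair
  rw [Prod.fst_add, Prod.snd_add, inner_add_left]
  ring

theorem Fb_expo_shift (a c v : Rs d) (ξ : Rd d) :
    cexp (-(I * (pair a ξ : ℂ))) * expo c v ξ = expo (c - a) v ξ := by
  unfold expo
  rw [← Complex.exp_add, Fb_pair_sub]
  congr 1
  push_cast
  ring

theorem Fb_expo_mul_conj (c v c' v' : Rs d) (ξ : Rd d) :
    expo c v ξ * conj (expo c' v' ξ) = expo (c - c') (v + v') ξ := by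
  unfold expo
  rw [← Complex.exp_conj, ← Complex.exp_add, Fb_pair_sub, Fb_pair_add]
  congr 1
  simp only [map_sub, map_mul, Complex.conj_I, Complex.conj_ofReal]
  push_cast
  ring

theorem Fb_add_mem (v v' : Rs d) (hv : v ∈ Fwd) (hv' : v' ∈ Fwd) : v + v' ∈ Fwd := by
  have h1 : ‖v.2‖ < v.1 := hv
  have h2 : ‖v'.2‖ < v'.1 := hv'
  show ‖(v + v').2‖ < (v + v').1
  rw [Prod.fst_add, Prod.snd_add]
  exact lt_of_le_of_lt (norm_add_le _ _) (add_lt_add h1 h2)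

/-- elements of `ExpSpan d` as finite sums -/
theorem Fb_form (f : Rd d → ℂ) (hf : f ∈ ExpSpan d) : ∃ (ι : Type) (_ : Fintype ι) (α : ι → ℂ)
    (c v : ι → Rs d), (∀ i, v i ∈ Fwd) ∧ f = fun ξ => ∑ i, α i * expo (c i) (v i) ξ := by
  refine Submodule.span_induction (p := fun f _ => ∃ (ι : Type) (_ : Fintype ι) (α : ι → ℂ)
    (c v : ι → Rs d), (∀ i, v i ∈ Fwd) ∧ f = fun ξ => ∑ i, α i * expo (c i) (v i) ξ) ?_ ?_ ?_ ?_ hf
  · rintro f ⟨c, v, hv, rfl⟩
    exact ⟨Unit, inferInstance, fun _ => 1, fun _ => c, fun _ => v, fun _ => hv, by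
      funext ξ; simp⟩
  · exact ⟨Empty, inferInstance, fun _ => 0, fun _ => 0, fun _ => 0, fun i => i.elim, by
      funext ξ; simp⟩
  · rintro f g _ _ ⟨ι, hι, α, c, v, hv, rfl⟩ ⟨κ, hκ, β, e, u, hu, rfl⟩
    refine ⟨ι ⊕ κ, inferInstance, Sum.elim α β, Sum.elim c e, Sum.elim v u, ?_, ?_⟩
    · rintro (i | i)
      · exact hv i
      · exact hu i
    · funext ξ
      simp [Fintype.sum_sum_type]
  · rintro r f _ ⟨ι, hι, α, c, v, hv, rfl⟩
    refine ⟨ι, hι, fun i => r * α i, c, v, hv, ?_⟩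
    funext ξ
    simp [Finset.mul_sum, mul_assoc]

theorem Fb_sum_mem {ι : Type} [Fintype ι] (α : ι → ℂ) (c v : ι → Rs d) (hv : ∀ i, v i ∈ Fwd) :
    (fun ξ => ∑ i, α i * expo (c i) (v i) ξ) ∈ ExpSpan d := by
  have h : (fun ξ => ∑ i, α i * expo (c i) (v i) ξ) = ∑ i, α i • expo (c i) (v i) := by
    funext ξ
    rw [Finset.sum_apply]
    rfl
  rw [h]
  exact Submodule.sum_mem _ fun i _ => Submodule.smul_mem _ _
    (Submodule.subset_span ⟨c i, v i, hv i, rfl⟩)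

theorem Fb_ext_sum [Fact (2 ≤ d)] {ι : Type} [Fintype ι] (α : ι → ℂ) (c v : ι → Rs d) (hv : ∀ i, v i ∈ Fwd)
    (a : Rs d) : coneExt (fun ξ => ∑ i, α i * expo (c i) (v i) ξ) a =
      ∑ i, α i * ((kap d : ℂ) * (qf (a - c i) (v i)) ^ (-(nu d : ℂ))) := by
  unfold coneExt
  have h : ∀ ξ, cexp (-(I * (pair a ξ : ℂ))) * ∑ i, α i * expo (c i) (v i) ξ =
      ∑ i, α i * expo (c i - a) (v i) ξ := fun ξ => by
    rw [Finset.mul_sum]
    refine Finset.sum_congr rfl fun i _ => ?_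
    rw [← Fb_expo_shift]
    ring
  simp only [h]
  rw [integral_finsetSum _ fun i _ => ((expo_integrable _ _ (hv i)).1.const_mul _)]
  refine Finset.sum_congr rfl fun i _ => ?_
  rw [integral_const_mul]
  congr 1
  have h1 := coneExt_expo (c i) (v i) (hv i) a
  unfold coneExt at h1
  simp only [Fb_expo_shift] at h1
  exact h1

theorem Fb_norm_sum [Fact (2 ≤ d)] {ι : Type} [Fintype ι] (α : ι → ℂ) (c v : ι → Rs d) (hv : ∀ i, v i ∈ Fwd) :
    ((∫ ξ, ‖∑ i, α i * expo (c i) (v i) ξ‖ ^ 2 ∂(sig d) : ℝ) : ℂ) =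
      ∑ i, ∑ k, α i * conj (α k) * ((kap d : ℂ) *
        (qf (c k - c i) (v i + v k)) ^ (-(nu d : ℂ))) := by
  rw [← integral_complex_ofReal]
  have h : ∀ ξ, (((‖∑ i, α i * expo (c i) (v i) ξ‖ ^ 2 : ℝ)) : ℂ) =
      ∑ i, ∑ k, α i * conj (α k) * (expo (c i) (v i) ξ * conj (expo (c k) (v k) ξ)) := fun ξ => by
    rw [Complex.ofReal_pow, ← Complex.mul_conj', map_sum, Finset.sum_mul_sum]
    refine Finset.sum_congr rfl fun i _ => Finset.sum_congr rfl fun k _ => ?_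
    rw [map_mul]
    ring
  simp only [h]
  have hint : ∀ i k, Integrable (fun ξ => α i * conj (α k) *
      (expo (c i) (v i) ξ * conj (expo (c k) (v k) ξ))) (sig d) := fun i k => by
    refine Integrable.const_mul ?_ _
    simp only [Fb_expo_mul_conj]
    exact (expo_integrable _ _ (Fb_add_mem _ _ (hv i) (hv k))).1
  rw [integral_finsetSum _ fun i _ => integrable_finsetSum _ fun k _ => hint i k]
  refine Finset.sum_congr rfl fun i _ => ?_
  rw [integral_finsetSum _ fun k _ => hint i k]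
  refine Finset.sum_congr rfl fun k _ => ?_
  rw [integral_const_mul, inner_expo _ _ _ _ (hv i) (hv k)]

theorem Fb_cpow (r : ℝ) (hr : 0 < r) (z s : ℂ) (hz : z ≠ 0) :
    ((r : ℂ) * z) ^ s = (r : ℂ) ^ s * z ^ s := by
  have hr' : (r : ℂ) ≠ 0 := Complex.ofReal_ne_zero.2 hr.ne'
  rw [Complex.cpow_def_of_ne_zero (mul_ne_zero hr' hz), Complex.cpow_def_of_ne_zero hr',
    Complex.cpow_def_of_ne_zero hz, Complex.log_ofReal_mul hr hz, ← Complex.exp_add,
    Complex.ofReal_log hr.le]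
  congr 1
  ring

theorem Fb_qf_cpow (v : Rs d) (hv : v ∈ Fwd) (u x : Rs d) (hx : x ∈ Fwd) :
    (qf (boost v u) (boost v x)) ^ (-(nu d : ℂ)) =
      ((lor v ^ (-(nu d)) : ℝ) : ℂ) * (qf u x) ^ (-(nu d : ℂ)) := by
  rw [qf_boost v hv, Fb_cpow _ (BO_lor_pos hv) _ _ (slitPlane_ne_zero (qf_mem_slitPlane u x hx)),
    Complex.ofReal_cpow (BO_lor_pos hv).le]
  norm_num

/-- Fb : the group acts -/
theorem group_act [Fact (2 ≤ d)] (f : Rd d → ℂ) (hf : f ∈ ExpSpan d) (v c : Rs d) (hv : v ∈ Fwd) :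
    ∃ f' ∈ ExpSpan d, ∫ ξ, ‖f' ξ‖ ^ 2 ∂(sig d) = ∫ ξ, ‖f ξ‖ ^ 2 ∂(sig d) ∧
    ∀ a, coneExt f' (boost v (a - c)) = ((lor v ^ (-(nu d / 2)) : ℝ) : ℂ) * coneExt f a := by
  obtain ⟨ι, hι, α, b, u, hu, rfl⟩ := Fb_form f hf
  have hl := BO_lor_pos hv
  set r : ℝ := lor v ^ (nu d / 2) with hr
  have hr1 : r * r * lor v ^ (-(nu d)) = 1 := by
    rw [hr, ← Real.rpow_add hl, ← Real.rpow_add hl,
      show nu d / 2 + nu d / 2 + -(nu d) = 0 by ring, Real.rpow_zero]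
  have hr2 : r * lor v ^ (-(nu d)) = lor v ^ (-(nu d / 2)) := by
    rw [hr, ← Real.rpow_add hl]
    congr 1
    ring
  have hu' : ∀ i, boost v (u i) ∈ Fwd := fun i => boost_mem_Fwd v hv _ (hu i)
  refine ⟨fun ξ => ∑ i, (α i * r) * expo (boost v (b i - c)) (boost v (u i)) ξ,
    Fb_sum_mem _ _ _ hu', ?_, fun a => ?_⟩
  · have h1 := Fb_norm_sum (fun i => α i * (r : ℂ)) (fun i => boost v (b i - c))
      (fun i => boost v (u i)) hu'
    have h2 := Fb_norm_sum α b u hu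
    rw [← Complex.ofReal_inj, h1, h2]
    refine Finset.sum_congr rfl fun i _ => Finset.sum_congr rfl fun k _ => ?_
    have h3 : boost v (b k - c) - boost v (b i - c) = boost v (b k - b i) := by
      rw [← boost_sub]
      congr 1
      abel
    rw [h3, ← boost_add, Fb_qf_cpow v hv _ _ (Fb_add_mem _ _ (hu i) (hu k)), map_mul,
      Complex.conj_ofReal]
    have h4 : (r : ℂ) * r * ((lor v ^ (-(nu d)) : ℝ) : ℂ) = 1 := by exact_mod_cast hr1
    linear_combination (α i * conj (α k) * ((kap d : ℂ) *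
        (qf (b k - b i) (u i + u k)) ^ (-(nu d : ℂ)))) * h4
  · rw [Fb_ext_sum _ _ _ hu', Fb_ext_sum _ _ _ hu, Finset.mul_sum]
    refine Finset.sum_congr rfl fun i _ => ?_
    have h3 : boost v (a - c) - boost v (b i - c) = boost v (a - b i) := by
      rw [← boost_sub]
      congr 1
      abel
    rw [h3, Fb_qf_cpow v hv _ _ (hu i)]
    have h4 : (r : ℂ) * ((lor v ^ (-(nu d)) : ℝ) : ℂ) =
        ((lor v ^ (-(nu d / 2)) : ℝ) : ℂ) := by exact_mod_cast hr2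
    linear_combination (α i * ((kap d : ℂ) *
        (qf (a - b i) (u i)) ^ (-(nu d : ℂ)))) * h4

/-! ### Continuity and size -/

theorem Fb_continuous_qf (c v : Rs d) : Continuous fun a : Rs d => qf (a - c) v := by
  unfold qf
  fun_prop

theorem continuous_coneExt [Fact (2 ≤ d)] (f : Rd d → ℂ) (hf : f ∈ ExpSpan d) : Continuous (coneExt f) := by
  obtain ⟨ι, hι, α, b, u, hu, rfl⟩ := Fb_form f hf
  have h : coneExt (fun ξ => ∑ i, α i * expo (b i) (u i) ξ) = fun a =>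
      ∑ i, α i * ((kap d : ℂ) * (qf (a - b i) (u i)) ^ (-(nu d : ℂ))) :=
    funext fun a => Fb_ext_sum α b u hu a
  rw [h]
  refine continuous_finsetSum _ fun i _ => continuous_const.mul (continuous_const.mul ?_)
  exact (Fb_continuous_qf (b i) (u i)).cpow continuous_const
    fun a => qf_mem_slitPlane _ _ (hu i)

/-- the quadratic form is at least a multiple of the weight -/
theorem Fb_qf_lower (c v : Rs d) (hv : v ∈ Fwd) : ∃ δ : ℝ, 0 < δ ∧ ∀ a : Rs d,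
    δ * ‖w a‖ ≤ ‖qf (a - c) v‖ := by
  obtain ⟨C, hC⟩ := norm_w_boost v c hv
  have hl := BO_lor_pos hv
  have hC0 : 0 < C := by
    have h1 := hC 0
    have h2 := BO_one_le_norm_w (boost v 0 + c)
    have h3 := BO_one_le_norm_w (0 : Rs d)
    by_contra h
    have h4 : C * ‖w (0 : Rs d)‖ ≤ 0 := mul_nonpos_of_nonpos_of_nonneg (not_lt.1 h) (norm_nonneg _)
    linarith
  refine ⟨lor v / C, div_pos hl hC0, fun a => ?_⟩
  set b : Rs d := (lor v)⁻¹ • boost (v.1, -v.2) (a - c) with hb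
  have h1 : boost v b = a - c := by
    rw [hb, boost_smul, (boost_inv v hv _).1, smul_smul, inv_mul_cancel₀ hl.ne', one_smul]
  have h2 : qf (a - c) v = (lor v : ℂ) * w b := by
    have := qf_boost v hv b (1, 0)
    rw [h1, boost_e] at this
    exact this
  have h3 : ‖w a‖ ≤ C * ‖w b‖ := by
    have := hC b
    rw [h1, sub_add_cancel] at this
    exact this
  rw [h2, norm_mul, Complex.norm_real, Real.norm_eq_abs, abs_of_pos hl, div_mul_eq_mul_div,
    div_le_iff₀ hC0]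
  calc lor v * ‖w a‖ ≤ lor v * (C * ‖w b‖) := mul_le_mul_of_nonneg_left h3 hl.le
    _ = lor v * ‖w b‖ * C := by ring

theorem Fb_norm_cpow (z : ℂ) (hz : z ≠ 0) : ‖z ^ (-(nu d : ℂ))‖ = ‖z‖ ^ (-(nu d)) := by
  rw [Complex.norm_cpow_of_ne_zero hz]
  have h1 : (-(nu d : ℂ)).re = -(nu d) := by rw [Complex.neg_re, Complex.ofReal_re]
  have h2 : (-(nu d : ℂ)).im = 0 := by rw [Complex.neg_im, Complex.ofReal_im, neg_zero]
  rw [h1, h2, mul_zero, Real.exp_zero, div_one]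

/-- the size of the extension of a combination of exponentials -/
theorem coneExt_bound [Fact (2 ≤ d)] (f : Rd d → ℂ) (hf : f ∈ ExpSpan d) : ∃ C : ℝ, 0 ≤ C ∧ ∀ a,
    ‖coneExt f a‖ ≤ C * ‖w a‖ ^ (-(nu d)) := by
  obtain ⟨ι, hι, α, b, u, hu, rfl⟩ := Fb_form f hf
  choose δ hδ hδ' using fun i => Fb_qf_lower (b i) (u i) (hu i)
  refine ⟨∑ i, ‖α i‖ * (kap d * δ i ^ (-(nu d))), ?_, fun a => ?_⟩
  · exact Finset.sum_nonneg fun i _ => mul_nonneg (norm_nonneg _)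
      (mul_nonneg (kap_pos d).le (Real.rpow_nonneg (hδ i).le _))
  rw [Fb_ext_sum _ _ _ hu, Finset.sum_mul]
  refine (norm_sum_le _ _).trans (Finset.sum_le_sum fun i _ => ?_)
  have hw : 0 < ‖w a‖ := lt_of_lt_of_le one_pos (BO_one_le_norm_w a)
  have key : ‖qf (a - b i) (u i)‖ ^ (-(nu d)) ≤
      δ i ^ (-(nu d)) * ‖w a‖ ^ (-(nu d)) := by
    rw [← Real.mul_rpow (hδ i).le hw.le]
    exact Real.rpow_le_rpow_of_nonpos (mul_pos (hδ i) hw) (hδ' i a) (neg_nonpos.2 (nu_pos d).le)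
  rw [norm_mul, norm_mul,
    Fb_norm_cpow _ (slitPlane_ne_zero (qf_mem_slitPlane (a - b i) (u i) (hu i))),
    Complex.norm_real, Real.norm_eq_abs, abs_of_pos (kap_pos d)]
  calc ‖α i‖ * (kap d * ‖qf (a - b i) (u i)‖ ^ (-(nu d))) ≤
      ‖α i‖ * (kap d * (δ i ^ (-(nu d)) * ‖w a‖ ^ (-(nu d)))) :=
        mul_le_mul_of_nonneg_left (mul_le_mul_of_nonneg_left key (kap_pos d).le) (norm_nonneg _)
    _ = ‖α i‖ * (kap d * δ i ^ (-(nu d))) * ‖w a‖ ^ (-(nu d)) := by ring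

end Pool.Agent.ConeG
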