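import Mathlib

/-!
# Continuity of the functionals `u ↦ ∫ φ |u|^p` on `L^p`
-/

set_option autoImplicit false
open MeasureTheory Complex Filter
open scoped ENNReal Topology

namespace Pool.Agent.ConeG

theorem G_pow_sub_aux (p : ℝ) (hp : 1 ≤ p) (x y : ℝ) (hy : 0 ≤ y) (hyx : y ≤ x) :
    x ^ p - y ^ p ≤ p * (x - y) * (x + y) ^ (p - 1) := by
  rcases eq_or_lt_of_le (hy.trans hyx) with hx | hx
  · have hy0 : y = 0 := le_antisymm (hx ▸ hyx) hy
    rw [← hx, hy0]
    simp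
  · have h1 := one_add_mul_self_le_rpow_one_add (s := y / x - 1) (by
      have : 0 ≤ y / x := by positivity
      linarith) hp
    have h2 : 1 + (y / x - 1) = y / x := by ring
    rw [h2, Real.div_rpow hy hx.le] at h1
    have hxp : 0 < x ^ p := Real.rpow_pos_of_pos hx p
    have h3 : (1 + p * (y / x - 1)) * x ^ p ≤ y ^ p := by
      rwa [le_div_iff₀ hxp] at h1
    have h4 : x ^ p = x ^ (p - 1) * x := by
      rw [← Real.rpow_add_one hx.ne']
      congr 1
      ring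
    have h5 : x ^ (p - 1) ≤ (x + y) ^ (p - 1) :=
      Real.rpow_le_rpow hx.le (by linarith) (by linarith)
    have h6 : (1 + p * (y / x - 1)) * x ^ p = x ^ p - p * (x - y) * x ^ (p - 1) := by
      rw [h4]
      field_simp
      ring
    rw [h6] at h3
    have h7 : p * (x - y) * x ^ (p - 1) ≤ p * (x - y) * (x + y) ^ (p - 1) :=
      mul_le_mul_of_nonneg_left h5 (mul_nonneg (by linarith) (by linarith))
    linarith

theorem G_pow_sub (p : ℝ) (hp : 1 ≤ p) (x y : ℝ) (hx : 0 ≤ x) (hy : 0 ≤ y) :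
    |x ^ p - y ^ p| ≤ p * |x - y| * (x + y) ^ (p - 1) := by
  rcases le_total y x with h | h
  · have h1 : y ^ p ≤ x ^ p := Real.rpow_le_rpow hy h (by linarith)
    rw [abs_of_nonneg (by linarith), abs_of_nonneg (by linarith)]
    exact G_pow_sub_aux p hp x y hy h
  · have h1 : x ^ p ≤ y ^ p := Real.rpow_le_rpow hx h (by linarith)
    rw [abs_sub_comm, abs_of_nonneg (by linarith), abs_sub_comm x y, abs_of_nonneg (by linarith),
      add_comm x y]
    exact G_pow_sub_aux p hp y x hx h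

variable {Ω : Type*} [MeasurableSpace Ω] {m : Measure Ω}

theorem G_integrable_pow (p : ℝ) (hp : 0 < p) (u : Ω → ℂ)
    (hu : MemLp u (ENNReal.ofReal p) m) : Integrable (fun x => ‖u x‖ ^ p) m := by
  have h := hu.integrable_norm_rpow (by simpa using hp) ENNReal.ofReal_ne_top
  simpa only [ENNReal.toReal_ofReal hp.le] using h

theorem G_norm_eq (p : ℝ) (hp : 0 < p) (u : Ω → ℂ) (hu : MemLp u (ENNReal.ofReal p) m) :
    (eLpNorm u (ENNReal.ofReal p) m).toReal = (∫ x, ‖u x‖ ^ p ∂m) ^ (1 / p) := by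
  have h := hu.eLpNorm_eq_integral_rpow_norm (by simpa using hp) ENNReal.ofReal_ne_top
  rw [h, ENNReal.toReal_ofReal (by positivity), ENNReal.toReal_ofReal hp.le, one_div]

/-- the functional `|u|^p` is locally Lipschitz from `L^p` to `L^1` -/
theorem G_lip (p : ℝ) (hp : 1 < p) [Fact ((1 : ℝ≥0∞) ≤ ENNReal.ofReal p)]
    (u v : Lp ℂ (ENNReal.ofReal p) m) :
    ∫ x, |‖u x‖ ^ p - ‖v x‖ ^ p| ∂m ≤ p * ‖u - v‖ * (‖u‖ + ‖v‖) ^ (p - 1) := by
  have hp0 : 0 < p := by linarith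
  have hpq : p.HolderConjugate (p / (p - 1)) := Real.HolderConjugate.conjExponent hp
  set q := p / (p - 1) with hq
  have hq0 : 0 < q := hpq.symm.pos
  have hu := Lp.memLp u
  have hv := Lp.memLp v
  have huv := Lp.memLp (u - v)
  have hs : MemLp (fun x => ((‖u x‖ + ‖v x‖ : ℝ) : ℂ)) (ENNReal.ofReal p) m :=
    (hu.norm.add hv.norm).ofReal
  have hsi := G_integrable_pow p hp0 _ hs
  have hsn : ∀ x, ‖((‖u x‖ + ‖v x‖ : ℝ) : ℂ)‖ = ‖u x‖ + ‖v x‖ := fun x => by
    rw [Complex.norm_real, Real.norm_eq_abs, abs_of_nonneg (by positivity)]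
  simp only [hsn] at hsi
  have hg : MemLp (fun x => (‖u x‖ + ‖v x‖) ^ (p - 1)) (ENNReal.ofReal q) m := by
    have hm : AEStronglyMeasurable (fun x => (‖u x‖ + ‖v x‖) ^ (p - 1)) m :=
      ((hu.1.norm.add hv.1.norm).aemeasurable.pow_const _).aestronglyMeasurable
    rw [← integrable_norm_rpow_iff hm (by simpa using hq0) ENNReal.ofReal_ne_top]
    refine hsi.congr (Eventually.of_forall fun x => ?_)
    simp only
    rw [ENNReal.toReal_ofReal hq0.le, Real.norm_of_nonneg (by positivity),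
      ← Real.rpow_mul (by positivity), hq]
    congr 1
    field_simp [(by linarith : p - 1 ≠ 0)]
  have hf : MemLp (fun x => ‖(u - v) x‖) (ENNReal.ofReal p) m := huv.norm
  have h1 : ∫ x, |‖u x‖ ^ p - ‖v x‖ ^ p| ∂m ≤
      ∫ x, p * (‖(u - v) x‖ * (‖u x‖ + ‖v x‖) ^ (p - 1)) ∂m := by
    refine integral_mono_ae ?_ ?_ ?_
    · exact ((G_integrable_pow p hp0 _ hu).sub (G_integrable_pow p hp0 _ hv)).abs
    · have := hpq.ennrealOfReal
      have h2 := hf.integrable_mul hg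
      exact h2.const_mul p
    · filter_upwards [Lp.coeFn_sub u v] with x hx
      rw [hx, Pi.sub_apply]
      refine (G_pow_sub p hp.le _ _ (norm_nonneg _) (norm_nonneg _)).trans ?_
      rw [mul_assoc]
      exact mul_le_mul_of_nonneg_left (mul_le_mul_of_nonneg_right (abs_norm_sub_norm_le _ _)
        (by positivity)) hp0.le
  rw [integral_const_mul] at h1
  have h3 := integral_mul_le_Lp_mul_Lq_of_nonneg hpq
    (Eventually.of_forall fun x => norm_nonneg ((u - v) x))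
    (Eventually.of_forall fun x => by positivity) hf hg
  have h4 : (∫ x, ‖(u - v) x‖ ^ p ∂m) ^ (1 / p) = ‖u - v‖ := by
    rw [Lp.norm_def, G_norm_eq p hp0 _ huv]
  have h5 : (∫ x, ((‖u x‖ + ‖v x‖) ^ (p - 1)) ^ q ∂m) ^ (1 / q) ≤ (‖u‖ + ‖v‖) ^ (p - 1) := by
    have e1 : ∀ x, ((‖u x‖ + ‖v x‖) ^ (p - 1)) ^ q = (‖u x‖ + ‖v x‖) ^ p := fun x => by
      rw [← Real.rpow_mul (by positivity), hq]
      congr 1
      field_simp [(by linarith : p - 1 ≠ 0)]
    simp only [e1]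
    have e2 := G_norm_eq p hp0 _ hs
    simp only [hsn] at e2
    have e3 : (eLpNorm (fun x => ((‖u x‖ + ‖v x‖ : ℝ) : ℂ)) (ENNReal.ofReal p) m).toReal ≤
        ‖u‖ + ‖v‖ := by
      rw [Lp.norm_def, Lp.norm_def, ← ENNReal.toReal_add hu.2.ne hv.2.ne]
      refine ENNReal.toReal_mono (ENNReal.add_ne_top.2 ⟨hu.2.ne, hv.2.ne⟩) ?_
      have e4 : eLpNorm (fun x => ((‖u x‖ + ‖v x‖ : ℝ) : ℂ)) (ENNReal.ofReal p) m =
          eLpNorm ((fun x => ‖u x‖) + fun x => ‖v x‖) (ENNReal.ofReal p) m := by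
        refine eLpNorm_congr_norm_ae (Eventually.of_forall fun x => ?_)
        rw [Complex.norm_real]
        rfl
      rw [e4]
      refine (eLpNorm_add_le hu.1.norm hv.1.norm Fact.out).trans ?_
      rw [eLpNorm_norm, eLpNorm_norm]
    have e5 : 0 ≤ ∫ x, (‖u x‖ + ‖v x‖) ^ p ∂m := integral_nonneg fun x => by positivity
    rw [e2] at e3
    have e6 : (∫ x, (‖u x‖ + ‖v x‖) ^ p ∂m) ^ (1 / q) =
        ((∫ x, (‖u x‖ + ‖v x‖) ^ p ∂m) ^ (1 / p)) ^ (p - 1) := by
      rw [← Real.rpow_mul e5, hq]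
      congr 1
      field_simp
    rw [e6]
    exact Real.rpow_le_rpow (by positivity) e3 (by linarith)
  rw [h4] at h3
  calc ∫ x, |‖u x‖ ^ p - ‖v x‖ ^ p| ∂m
      ≤ p * ∫ x, ‖(u - v) x‖ * (‖u x‖ + ‖v x‖) ^ (p - 1) ∂m := h1
    _ ≤ p * (‖u - v‖ * (‖u‖ + ‖v‖) ^ (p - 1)) := by
        refine mul_le_mul_of_nonneg_left (h3.trans ?_) hp0.le
        exact mul_le_mul_of_nonneg_left h5 (norm_nonneg _)
    _ = _ := by ring

/-- the weighted functionals are continuous on `L^p` -/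
theorem G_continuous (p : ℝ) (hp : 1 < p) [Fact ((1 : ℝ≥0∞) ≤ ENNReal.ofReal p)]
    (φ : Ω → ℂ) (hφ : AEStronglyMeasurable φ m) (hφ1 : ∀ x, ‖φ x‖ ≤ 1) :
    Continuous fun u : Lp ℂ (ENNReal.ofReal p) m => ∫ x, φ x * ((‖u x‖ ^ p : ℝ) : ℂ) ∂m := by
  have hp0 : 0 < p := by linarith
  have hint : ∀ u : Lp ℂ (ENNReal.ofReal p) m,
      Integrable (fun x => φ x * ((‖u x‖ ^ p : ℝ) : ℂ)) m := fun u => by
    refine ((G_integrable_pow p hp0 _ (Lp.memLp u)).ofReal (𝕜 := ℂ)).bdd_mul (c := 1) hφ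
      (Eventually.of_forall hφ1)
  refine continuous_iff_continuousAt.2 fun v => ?_
  rw [ContinuousAt, tendsto_iff_norm_sub_tendsto_zero]
  have h1 : ∀ u : Lp ℂ (ENNReal.ofReal p) m, ‖∫ x, φ x * ((‖u x‖ ^ p : ℝ) : ℂ) ∂m -
      ∫ x, φ x * ((‖v x‖ ^ p : ℝ) : ℂ) ∂m‖ ≤ p * ‖u - v‖ * (‖u‖ + ‖v‖) ^ (p - 1) := by
    intro u
    rw [← integral_sub (hint u) (hint v)]
    refine (norm_integral_le_integral_norm _).trans (le_trans ?_ (G_lip p hp u v))
    refine integral_mono_of_nonneg (Eventually.of_forall fun x => norm_nonneg _) ?_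
      (Eventually.of_forall fun x => ?_)
    · exact ((G_integrable_pow p hp0 _ (Lp.memLp u)).sub
        (G_integrable_pow p hp0 _ (Lp.memLp v))).abs
    · simp only
      rw [← mul_sub, ← Complex.ofReal_sub, norm_mul, Complex.norm_real, Real.norm_eq_abs]
      exact mul_le_of_le_one_left (abs_nonneg _) (hφ1 x)
  refine squeeze_zero (fun u => norm_nonneg _) h1 ?_
  have h2 : Continuous fun u : Lp ℂ (ENNReal.ofReal p) m =>
      p * ‖u - v‖ * (‖u‖ + ‖v‖) ^ (p - 1) := by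
    refine (continuous_const.mul (continuous_id.sub continuous_const).norm).mul ?_
    exact (continuous_norm.add continuous_const).rpow_const fun u => Or.inr (by linarith)
  have h3 := h2.tendsto v
  simpa using h3

end Pool.Agent.ConeG
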