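import Pool.Agent.Work.MP_b0b133_an.G.Defs

/-!
# The polynomial world, dimension `d`

`μ` is the law of the point `X = e^{-iT} ω` of the compactification on `ℂ^{d+1}`; waves are harmonic
polynomials evaluated at `X`. `A = N + ν`, `N` the Euler operator.
-/

set_option autoImplicit false
open MeasureTheory Complex
open scoped ENNReal ComplexConjugate

namespace Pool.Agent.ConeG

abbrev Poly (d : ℕ) := MvPolynomial (Fin (d + 1)) ℂ

abbrev CC (d : ℕ) := Fin (d + 1) → ℂ

variable {d : ℕ}

/-- the value of a polynomial -/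
noncomputable def ev (P : Poly d) (x : CC d) : ℂ := MvPolynomial.eval x P

/-- harmonic polynomials, not necessarily homogeneous -/
noncomputable def HP (d : ℕ) : Submodule ℂ (Poly d) where
  carrier := {P | ∑ j, MvPolynomial.pderiv j (MvPolynomial.pderiv j P) = 0}
  add_mem' := by
    rintro P Q h2 h4
    change _ = _ at h2 h4; change _ = _
    simp only [map_add, Finset.sum_add_distrib, h2, h4, add_zero]
  zero_mem' := by simp
  smul_mem' := by
    rintro c P h2
    change _ = _ at h2; change _ = _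
    have : ∀ j : Fin (d + 1), MvPolynomial.pderiv j (MvPolynomial.pderiv j (c • P)) =
        c • MvPolynomial.pderiv j (MvPolynomial.pderiv j P) := fun j => by
      rw [Derivation.map_smul, Derivation.map_smul]
    rw [Finset.sum_congr rfl fun j _ => this j, ← Finset.smul_sum, h2, smul_zero]

/-- the Euler operator -/
noncomputable def NP (P : Poly d) : Poly d := ∑ j, MvPolynomial.X j * MvPolynomial.pderiv j P

/-- `A = N + ν` -/
noncomputable def AP (P : Poly d) : Poly d := NP P + (nu d : ℂ) • P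

/-- the rotation by the angle `t` in the plane of the coordinates `i`, `j` -/
noncomputable def rotm (i j : Fin (d + 1)) (t : ℝ) (x : CC d) : CC d := fun k =>
  if k = i then (Real.cos t : ℂ) * x i - (Real.sin t : ℂ) * x j
  else if k = j then (Real.sin t : ℂ) * x i + (Real.cos t : ℂ) * x j
  else x k

/-- the multiplication by the phase `e^{iθ}` -/
noncomputable def phase (θ : ℝ) (x : CC d) : CC d := fun k => cexp (θ * I) * x k

/-- what is used about the law of `X` -/
structure Law (μ : Measure (CC d)) : Prop where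
  prob : IsProbabilityMeasure μ
  supp : ∀ᵐ x ∂μ, ∑ j, ‖x j‖ ^ 2 = 1 ∧ ∀ j, (∑ k, x k ^ 2) * conj (x j) = x j
  phase : ∀ θ : ℝ, Measure.map (phase θ) μ = μ
  rot : ∀ i j : Fin (d + 1), i ≠ j → ∀ t : ℝ, Measure.map (rotm i j t) μ = μ

/-- the inner product of the energy, `(1/ν) Re ⟨P, A Q⟩` -/
noncomputable def EB (μ : Measure (CC d)) (P Q : Poly d) : ℝ :=
  (nu d)⁻¹ * (∫ x, conj (ev P x) * ev (AP Q) x ∂μ).re

/-- the energy -/
noncomputable def En (μ : Measure (CC d)) (P : Poly d) : ℝ := EB μ P P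

/-- `∫ |F|^p` -/
noncomputable def Ip (μ : Measure (CC d)) (P : Poly d) : ℝ := ∫ x, ‖ev P x‖ ^ pe d ∂μ

/-- what is used about the conformal group: finiteness of the constant, centred near maximisers,
near maximisers in a frame of almost maximal overlap with the constants -/
structure Conf (μ : Measure (CC d)) : Prop where
  fin : ∃ C : ℝ, ∀ P ∈ HP d, Ip μ P ≤ C * En μ P ^ (pe d / 2)
  cent : ∀ P ∈ HP d, En μ P = 1 → ∀ ε > 0, ∃ Q ∈ HP d, En μ Q = 1 ∧ Ip μ P - ε ≤ Ip μ Q ∧
    ∀ j, ‖∫ x, x j * ((‖ev Q x‖ ^ pe d : ℝ) : ℂ) ∂μ‖ ≤ ε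
  ovl : ∀ P ∈ HP d, En μ P = 1 → ∀ ε > 0, ∃ Q ∈ HP d, En μ Q = 1 ∧ Ip μ P - ε ≤ Ip μ Q ∧
    ‖ev P 0‖ - ε ≤ ‖ev Q 0‖ ∧ ∫ x, ‖ev (MvPolynomial.homogeneousComponent 1 Q) x‖ ^ 2 ∂μ ≤ ε

/-- the law of `X` -/
noncomputable def muX (d : ℕ) : Measure (CC d) := Measure.map (fun a j => X j a) (mM d)

end Pool.Agent.ConeG
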