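import Pool.Agent.Work.MP_b0b133_an.G.C1
import Pool.Agent.Work.MP_b0b133_an.G.P0

/-!
# The law of `X`: support, invariance under phases and rotations
-/

set_option autoImplicit false
set_option linter.unusedVariables false
open MeasureTheory Complex Set
open scoped ENNReal ComplexConjugate

namespace Pool.Agent.ConeG

variable {d : ℕ}

/-! ### Plane rotations of the real space -/

/-- the plane rotation, real version -/
noncomputable def rotR (i j : Fin (d + 1)) (t : ℝ) (x : Fin (d + 1) → ℝ) : Fin (d + 1) → ℝ := fun k =>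
  if k = i then Real.cos t * x i - Real.sin t * x j
  else if k = j then Real.sin t * x i + Real.cos t * x j
  else x k

theorem rotR_sq (i j : Fin (d + 1)) (hij : i ≠ j) (t : ℝ) (x : Fin (d + 1) → ℝ) :
    ∑ k, rotR i j t x k ^ 2 = ∑ k, x k ^ 2 := by
  rw [← sub_eq_zero, ← Finset.sum_sub_distrib, Fintype.sum_eq_add i j hij]
  · simp only [rotR, if_true]
    rw [if_neg hij.symm]
    have h := Real.sin_sq_add_cos_sq t
    linear_combination (x i ^ 2 + x j ^ 2) * h
  · rintro k ⟨h1, h2⟩
    simp [rotR, h1, h2]

theorem rotR_cont (i j : Fin (d + 1)) (t : ℝ) : Continuous (rotR i j t) := by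
  refine continuous_pi fun k => ?_
  unfold rotR
  split_ifs <;> fun_prop

/-- the plane rotation as a linear map of the Euclidean space -/
noncomputable def rotL (i j : Fin (d + 1)) (t : ℝ) : Rd (d + 1) →ₗ[ℝ] Rd (d + 1) where
  toFun x := WithLp.toLp 2 (rotR i j t fun k => x k)
  map_add' x y := by
    ext k
    simp only [PiLp.add_apply, rotR]
    split_ifs <;> ring
  map_smul' c x := by
    ext k
    simp only [PiLp.smul_apply, smul_eq_mul, RingHom.id_apply, rotR]
    split_ifs <;> ring

theorem rotL_apply (i j : Fin (d + 1)) (t : ℝ) (x : Rd (d + 1)) (k : Fin (d + 1)) :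
    rotL i j t x k = rotR i j t (fun k => x k) k := rfl

theorem rotL_norm (i j : Fin (d + 1)) (hij : i ≠ j) (t : ℝ) (x : Rd (d + 1)) :
    ‖rotL i j t x‖ = ‖x‖ := by
  have h : ‖rotL i j t x‖ ^ 2 = ‖x‖ ^ 2 := by
    rw [EuclideanSpace.real_norm_sq_eq, EuclideanSpace.real_norm_sq_eq]
    exact rotR_sq i j hij t fun k => x k
  exact (pow_left_inj₀ (norm_nonneg _) (norm_nonneg _) two_ne_zero).1 h

/-- the plane rotation as an isometry -/
noncomputable def rotI (i j : Fin (d + 1)) (hij : i ≠ j) (t : ℝ) :
    Rd (d + 1) ≃ₗᵢ[ℝ] Rd (d + 1) :=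
  LinearIsometry.toLinearIsometryEquiv ⟨rotL i j t, rotL_norm i j hij t⟩ rfl

theorem rotI_apply (i j : Fin (d + 1)) (hij : i ≠ j) (t : ℝ) (x : Rd (d + 1)) :
    rotI i j hij t x = rotL i j t x := rfl

theorem B_H_rot (i j : Fin (d + 1)) (hij : i ≠ j) (t : ℝ) (h : (Fin (d + 1) → ℝ) → ℂ)
    (x : Rd (d + 1)) : B_H (fun y => h (rotR i j t y)) x = B_H h (rotI i j hij t x) := by
  unfold B_H
  rw [rotI_apply, rotL_norm i j hij]
  have e : rotR i j t (fun k => ‖x‖⁻¹ * x k) = fun k => ‖x‖⁻¹ * (rotL i j t) x k := by
    funext k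
    rw [rotL_apply]
    simp only [rotR]
    split_ifs <;> ring
  simp only [e]

/-- rotation invariance of the measure on the sphere -/
theorem sphM_rot (i j : Fin (d + 1)) (hij : i ≠ j) (t : ℝ) (h : (Fin (d + 1) → ℝ) → ℂ) :
    ∫ ω : Sph (d + 1), h (rotR i j t fun k => (ω : Rd (d + 1)) k) ∂(sphM (d + 1)) =
      ∫ ω : Sph (d + 1), h (fun k => (ω : Rd (d + 1)) k) ∂(sphM (d + 1)) := by
  have h1 : ∫ x, B_H (fun y => h (rotR i j t y)) x = ∫ x, B_H h x := by
    simp only [B_H_rot i j hij t h]
    exact (rotI i j hij t).measurePreserving.integral_comp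
      (rotI i j hij t).toHomeomorph.measurableEmbedding _
  rw [B_lhs, B_lhs] at h1
  have h2 := mul_right_cancel₀ (B_c_ne d) h1
  unfold sphM
  rw [integral_smul_measure, integral_smul_measure]
  congr 1

/-! ### The law -/

theorem LX_cont : Continuous fun (a : Rs d) j => X j a := continuous_pi fun j => C0_continuous_X j

instance LX_prob [Fact (2 ≤ d)] : IsProbabilityMeasure (muX d) := by
  have := mM_prob (d := d)
  exact Measure.isProbabilityMeasure_map LX_cont.measurable.aemeasurable

theorem LX_integral {E : Type*} [NormedAddCommGroup E] [NormedSpace ℝ E] (h : CC d → E)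
    (hc : Continuous h) [SecondCountableTopology E] : ∫ x, h x ∂(muX d) = ∫ a, h (fun j => X j a) ∂(mM d) := by
  unfold muX
  rw [integral_map LX_cont.measurable.aemeasurable hc.aestronglyMeasurable]

/-- two finite measures with the same integrals of continuous complex functions -/
theorem LX_ext (μ ν : Measure (CC d)) [IsFiniteMeasure μ] [IsFiniteMeasure ν]
    (h : ∀ f : CC d → ℂ, Continuous f → ∫ x, f x ∂μ = ∫ x, f x ∂ν) : μ = ν := by
  refine ext_of_forall_integral_eq_of_IsFiniteMeasure fun f => ?_
  have h1 := h (fun x => (f x : ℂ)) (by fun_prop)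
  rw [integral_complex_ofReal, integral_complex_ofReal] at h1
  exact Complex.ofReal_injective h1

theorem phase_cont (θ : ℝ) : Continuous (phase (d := d) θ) := by
  unfold phase
  fun_prop

theorem rotm_cont (i j : Fin (d + 1)) (t : ℝ) : Continuous (rotm (d := d) i j t) := by
  refine continuous_pi fun k => ?_
  unfold rotm
  split_ifs <;> fun_prop

theorem LX_phase [Fact (2 ≤ d)] (θ : ℝ) : Measure.map (phase θ) (muX d) = muX d := by
  have hp : IsProbabilityMeasure (Measure.map (phase θ) (muX d)) :=
    Measure.isProbabilityMeasure_map (phase_cont θ).measurable.aemeasurable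
  refine LX_ext _ _ fun f hf => ?_
  rw [integral_map (phase_cont θ).measurable.aemeasurable hf.aestronglyMeasurable,
    LX_integral (fun x => f (phase θ x)) (hf.comp (phase_cont θ)), LX_integral f hf]
  have h1 := integral_comp_X (fun x : CC d => f (phase θ x)) (hf.comp (phase_cont θ))
  have h2 := integral_comp_X f hf
  rw [h2]
  refine h1.trans ?_
  congr 1
  set G : ℝ → ℂ := fun T => ∫ ω : Sph (d + 1),
    f (fun j => cexp (-(T * I)) * (((ω : Rd (d + 1)) j : ℝ) : ℂ)) ∂(sphM (d + 1)) with hG
  have h3 : ∀ T : ℝ, ∫ ω : Sph (d + 1), f (phase θ fun j =>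
      cexp (-(T * I)) * (((ω : Rd (d + 1)) j : ℝ) : ℂ)) ∂(sphM (d + 1)) = G (T - θ) := by
    intro T
    rw [hG]
    refine integral_congr_ae (Filter.Eventually.of_forall fun ω => ?_)
    simp only
    congr 1
    funext j
    unfold phase
    rw [← mul_assoc, ← Complex.exp_add]
    congr 2
    push_cast
    ring
  have hper : Function.Periodic G (2 * Real.pi) := by
    intro T
    rw [hG]
    simp only
    congr 1
    funext ω
    congr 1
    funext j
    congr 1
    rw [Complex.exp_eq_exp_iff_exists_int]
    refine ⟨-1, ?_⟩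
    push_cast
    ring
  have h4 : ∫ T in (-Real.pi)..Real.pi, G (T - θ) = ∫ T in (-Real.pi)..Real.pi, G T := by
    rw [intervalIntegral.integral_comp_sub_right G θ]
    have h5 := hper.intervalIntegral_add_eq (-Real.pi - θ) (-Real.pi)
    have e1 : -Real.pi - θ + 2 * Real.pi = Real.pi - θ := by ring
    have e2 : -Real.pi + 2 * Real.pi = Real.pi := by ring
    rw [e1, e2] at h5
    exact h5
  rw [← h4]
  exact intervalIntegral.integral_congr fun T _ => h3 T

theorem LX_rot [Fact (2 ≤ d)] (i j : Fin (d + 1)) (hij : i ≠ j) (t : ℝ) :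
    Measure.map (rotm i j t) (muX d) = muX d := by
  have hp : IsProbabilityMeasure (Measure.map (rotm i j t) (muX d)) :=
    Measure.isProbabilityMeasure_map (rotm_cont i j t).measurable.aemeasurable
  refine LX_ext _ _ fun f hf => ?_
  rw [integral_map (rotm_cont i j t).measurable.aemeasurable hf.aestronglyMeasurable,
    LX_integral (fun x => f (rotm i j t x)) (hf.comp (rotm_cont i j t)), LX_integral f hf]
  have h1 := integral_comp_X (fun x : CC d => f (rotm i j t x)) (hf.comp (rotm_cont i j t))
  have h2 := integral_comp_X f hf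
  rw [h2]
  refine h1.trans ?_
  congr 1
  refine intervalIntegral.integral_congr fun T _ => ?_
  simp only
  rw [← sphM_rot i j hij t fun y => f fun k => cexp (-(T * I)) * ((y k : ℝ) : ℂ)]
  refine integral_congr_ae (Filter.Eventually.of_forall fun ω => ?_)
  simp only
  congr 1
  funext k
  unfold rotm rotR
  split_ifs <;> push_cast <;> ring

theorem law_muX [Fact (2 ≤ d)] : Law (muX d) where
  prob := inferInstance
  supp := by
    unfold muX
    rw [ae_map_iff LX_cont.measurable.aemeasurable]
    · exact Filter.Eventually.of_forall fun a => ⟨sum_norm_X a, fun j => sumsq_mul_conj_X a j⟩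
    · have e1 : IsClosed {x : CC d | ∑ j, ‖x j‖ ^ 2 = 1} :=
        isClosed_eq (by fun_prop) continuous_const
      have e2 : IsClosed {x : CC d | ∀ j, (∑ k, x k ^ 2) * conj (x j) = x j} := by
        simp only [Set.ofPred_forall]
        exact isClosed_iInter fun j => isClosed_eq (by fun_prop) (by fun_prop)
      exact (e1.inter e2).measurableSet
  phase := LX_phase
  rot := fun i j hij t => LX_rot i j hij t

end Pool.Agent.ConeG
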