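import Pool.Agent.Work.MP_b0b133_an.G.OVLa
import Pool.Agent.Work.MP_b0b133_an.G.Fa
import Pool.Agent.Work.MP_b0b133_an.G.Fb

/-!
# Near maximal overlap with the constants
-/

set_option autoImplicit false
open MeasureTheory Complex Filter
open scoped ENNReal ComplexConjugate Topology

namespace Pool.Agent.ConeG

variable {d : ℕ} [Fact (2 ≤ d)]

local instance : IsProbabilityMeasure (mM d) := mM_prob

/-- pairing of a sum of exponentials with an exponential -/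
theorem O_inner_sum {ι : Type} [Fintype ι] (α : ι → ℂ) (c v : ι → Rs d) (hv : ∀ i, v i ∈ Fwd)
    (c' v' : Rs d) (hv' : v' ∈ Fwd) :
    ∫ ξ, (∑ i, α i * expo (c i) (v i) ξ) * conj (expo c' v' ξ) ∂(sig d) =
      ∑ i, α i * ((kap d : ℂ) * (qf (c' - c i) (v i + v')) ^ (-(nu d : ℂ))) := by
  have h : ∀ ξ, (∑ i, α i * expo (c i) (v i) ξ) * conj (expo c' v' ξ) =
      ∑ i, α i * (expo (c i) (v i) ξ * conj (expo c' v' ξ)) := fun ξ => by
    rw [Finset.sum_mul]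
    exact Finset.sum_congr rfl fun i _ => by ring
  simp only [h]
  have hint : ∀ i, Integrable (fun ξ => α i * (expo (c i) (v i) ξ * conj (expo c' v' ξ)))
      (sig d) := fun i => by
    refine Integrable.const_mul ?_ _
    have h1 := (expo_integrable (c i) (v i) (hv i)).2
    have h2 := (expo_integrable c' v' hv').2
    exact MemLp.integrable_mul h1 h2.star
  rw [integral_finsetSum _ fun i _ => hint i]
  refine Finset.sum_congr rfl fun i _ => ?_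
  rw [integral_const_mul, inner_expo _ _ _ _ (hv i) hv']

/-- the group acts: norms, extensions, pairings with the exponentials -/
theorem O_group (f : Rd d → ℂ) (hf : f ∈ ExpSpan d) (v c : Rs d) (hv : v ∈ Fwd) :
    ∃ f' ∈ ExpSpan d, ∫ ξ, ‖f' ξ‖ ^ 2 ∂(sig d) = ∫ ξ, ‖f ξ‖ ^ 2 ∂(sig d) ∧
    (∀ a, coneExt f' (boost v (a - c)) =
      ((lor v ^ (-(nu d / 2)) : ℝ) : ℂ) * coneExt f a) ∧
    ∀ c' v' : Rs d, v' ∈ Fwd →
      ∫ ξ, f' ξ * conj (expo (boost v (c' - c)) (boost v v') ξ) ∂(sig d) =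
        ((lor v ^ (-(nu d / 2)) : ℝ) : ℂ) * ∫ ξ, f ξ * conj (expo c' v' ξ) ∂(sig d) := by
  obtain ⟨ι, hι, α, b, u, hu, rfl⟩ := Fb_form f hf
  have hl := BO_lor_pos hv
  set r : ℝ := lor v ^ (nu d / 2) with hr
  have hr1 : r * r * lor v ^ (-(nu d)) = 1 := by
    rw [hr, ← Real.rpow_add hl, ← Real.rpow_add hl]
    ring_nf
    exact Real.rpow_zero _
  have hr2 : r * lor v ^ (-(nu d)) = lor v ^ (-(nu d / 2)) := by
    rw [hr, ← Real.rpow_add hl]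
    ring_nf
  have hu' : ∀ i, boost v (u i) ∈ Fwd := fun i => boost_mem_Fwd v hv _ (hu i)
  refine ⟨fun ξ => ∑ i, (α i * r) * expo (boost v (b i - c)) (boost v (u i)) ξ,
    Fb_sum_mem _ _ _ hu', ?_, fun a => ?_, fun c' v' hv' => ?_⟩
  · have h1 := Fb_norm_sum (fun i => α i * (r : ℂ)) (fun i => boost v (b i - c))
      (fun i => boost v (u i)) hu'
    have h2 := Fb_norm_sum α b u hu
    rw [← Complex.ofReal_inj, h1, h2]
    refine Finset.sum_congr rfl fun i _ => Finset.sum_congr rfl fun k _ => ?_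
    have h3 : boost v (b k - c) - boost v (b i - c) = boost v (b k - b i) := by
      rw [← boost_sub]
      congr 1
      abel
    rw [h3, ← boost_add, Fb_qf_cpow v hv _ _ (Fb_add_mem _ _ (hu i) (hu k)), map_mul,
      Complex.conj_ofReal]
    have h4 : (r : ℂ) * r * ((lor v ^ (-(nu d)) : ℝ) : ℂ) = 1 := by exact_mod_cast hr1
    linear_combination (α i * conj (α k) * ((kap d : ℂ) *
        (qf (b k - b i) (u i + u k)) ^ (-(nu d : ℂ)))) * h4
  · rw [Fb_ext_sum _ _ _ hu', Fb_ext_sum _ _ _ hu, Finset.mul_sum]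
    refine Finset.sum_congr rfl fun i _ => ?_
    have h3 : boost v (a - c) - boost v (b i - c) = boost v (a - b i) := by
      rw [← boost_sub]
      congr 1
      abel
    rw [h3, Fb_qf_cpow v hv _ _ (hu i)]
    have h4 : (r : ℂ) * ((lor v ^ (-(nu d)) : ℝ) : ℂ) =
        ((lor v ^ (-(nu d / 2)) : ℝ) : ℂ) := by exact_mod_cast hr2
    linear_combination (α i * ((kap d : ℂ) *
        (qf (a - b i) (u i)) ^ (-(nu d : ℂ)))) * h4
  · rw [O_inner_sum _ _ _ hu' _ _ (boost_mem_Fwd v hv _ hv'), O_inner_sum _ _ _ hu _ _ hv',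
      Finset.mul_sum]
    refine Finset.sum_congr rfl fun i _ => ?_
    have h3 : boost v (c' - c) - boost v (b i - c) = boost v (c' - b i) := by
      rw [← boost_sub]
      congr 1
      abel
    rw [h3, ← boost_add, Fb_qf_cpow v hv _ _ (Fb_add_mem _ _ (hu i) hv')]
    have h4 : (r : ℂ) * ((lor v ^ (-(nu d)) : ℝ) : ℂ) =
        ((lor v ^ (-(nu d / 2)) : ℝ) : ℂ) := by exact_mod_cast hr2
    linear_combination (α i * ((kap d : ℂ) *
        (qf (c' - b i) (u i + v')) ^ (-(nu d : ℂ)))) * h4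

/-- the norm of an exponential -/
theorem O_expo_norm (v c c' v' : Rs d) (hv : v ∈ Fwd) (hv' : v' ∈ Fwd) :
    ∫ ξ, ‖expo (boost v (c' - c)) (boost v v') ξ‖ ^ 2 ∂(sig d) =
      lor v ^ (-(nu d)) * ∫ ξ, ‖expo c' v' ξ‖ ^ 2 ∂(sig d) := by
  have e : ∀ b u : Rs d, u ∈ Fwd → ((∫ ξ, ‖expo b u ξ‖ ^ 2 ∂(sig d) : ℝ) : ℂ) =
      (kap d : ℂ) * (qf 0 (u + u)) ^ (-(nu d : ℂ)) := fun b u hu => by
    rw [← integral_complex_ofReal]
    have h1 : ∀ ξ, (((‖expo b u ξ‖ ^ 2 : ℝ)) : ℂ) = expo b u ξ * conj (expo b u ξ) := fun ξ => by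
      rw [Complex.mul_conj']
      push_cast
      rfl
    simp only [h1]
    rw [inner_expo _ _ _ _ hu hu, sub_self]
  have h1 := e (boost v (c' - c)) (boost v v') (boost_mem_Fwd v hv _ hv')
  have h2 := e c' v' hv'
  have h3 : (0 : Rs d) = boost v 0 := (boost_zero v).symm
  rw [← boost_add, h3, Fb_qf_cpow v hv _ _ (Fb_add_mem _ _ hv' hv')] at h1
  have h4 : ((∫ ξ, ‖expo (boost v (c' - c)) (boost v v') ξ‖ ^ 2 ∂(sig d) : ℝ) : ℂ) =
      ((lor v ^ (-(nu d)) * ∫ ξ, ‖expo c' v' ξ‖ ^ 2 ∂(sig d) : ℝ) : ℂ) := by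
    rw [h1, ofReal_mul, h2]
    ring
  exact_mod_cast h4

/-- the `L^p` norms of the extensions -/
theorem O_ext_norm (f f' : Rd d → ℂ) (v c : Rs d) (hv : v ∈ Fwd)
    (h : ∀ a, coneExt f' (boost v (a - c)) = ((lor v ^ (-(nu d / 2)) : ℝ) : ℂ) * coneExt f a) :
    ∫ a, ‖coneExt f' a‖ ^ pe d = ∫ a, ‖coneExt f a‖ ^ pe d := by
  have hl := BO_lor_pos hv
  have h1 := integral_boost v hv fun a => ((‖coneExt f' a‖ ^ pe d : ℝ) : ℂ)
  rw [integral_complex_ofReal, integral_complex_ofReal, ← ofReal_mul, ofReal_inj] at h1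
  have h2 : ∫ a, ‖coneExt f' (boost v a)‖ ^ pe d = ∫ a, ‖coneExt f' (boost v (a - c))‖ ^ pe d :=
    (integral_sub_right_eq_self (fun a => ‖coneExt f' (boost v a)‖ ^ pe d) c).symm
  have h3 : ∀ a, ‖coneExt f' (boost v (a - c))‖ ^ pe d =
      lor v ^ (-(((d : ℝ) + 1) / 2)) * ‖coneExt f a‖ ^ pe d := fun a => by
    rw [h, norm_mul, Complex.norm_real, Real.norm_eq_abs, abs_of_pos (Real.rpow_pos_of_pos hl _),
      Real.mul_rpow (Real.rpow_nonneg hl.le _) (norm_nonneg _), ← Real.rpow_mul hl.le]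
    congr 2
    have := two_le_real d
    have hd : ((d : ℝ) - 1) ≠ 0 := by linarith
    unfold nu pe
    field_simp
  rw [h2] at h1
  simp only [h3] at h1
  rw [integral_const_mul] at h1
  exact (mul_left_cancel₀ (Real.rpow_pos_of_pos hl _).ne' h1).symm

/-- the squared overlap with a normalised exponential -/
noncomputable def O_q (f : ExpSpan d) (p : Rs d × Rs d) : ℝ :=
  kap d * 4 ^ nu d * ‖∫ ξ, f.1 ξ * conj (expo p.1 p.2 ξ) ∂(sig d)‖ ^ 2 /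
    ∫ ξ, ‖expo p.1 p.2 ξ‖ ^ 2 ∂(sig d)

theorem O_K_pos : 0 < kap d * 4 ^ nu d := mul_pos (kap_pos d) (Real.rpow_pos_of_pos (by norm_num) _)

/-- the exponentials do not vanish -/
theorem O_expo_pos (p : Rs d × Rs d) (hp : p.2 ∈ Fwd) : 0 < ∫ ξ, ‖expo p.1 p.2 ξ‖ ^ 2 ∂(sig d) := by
  have h0 : 0 < ∫ ξ, ‖expo (0 : Rs d) (1, 0) ξ‖ ^ 2 ∂(sig d) := by
    set g : ExpSpan d := ⟨expo 0 (1, 0), U_expo_mem _ _ O_e_mem⟩ with hg
    have h := (O_base g g rfl).1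
    have h2 := U_S_norm g
    have h3 : 0 < ‖U_S g‖ ^ 2 := pow_pos (norm_pos_iff.2 h) 2
    rw [h2] at h3
    exact h3
  have h1 := O_expo_norm p.2 0 0 (1, 0) hp O_e_mem
  have h2 := O_expo_norm p.2 (-(boost (Fa_inv p.2) p.1)) 0 (1, 0) hp O_e_mem
  rw [boost_e, zero_sub, neg_neg, Fa_inv_right p.2 hp] at h2
  rw [h2]
  exact mul_pos (Real.rpow_pos_of_pos (BO_lor_pos hp) _) h0

theorem O_q_le (f : ExpSpan d) (p : Rs d × Rs d) (hp : p.2 ∈ Fwd) :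
    O_q f p ≤ kap d * 4 ^ nu d * ‖U_S f‖ ^ 2 := by
  set g : ExpSpan d := ⟨expo p.1 p.2, U_expo_mem _ _ hp⟩ with hg
  have h1 := U_S_inner g f
  have h2 := U_S_norm g
  have h3 : ‖inner ℂ (U_S g) (U_S f)‖ ≤ ‖U_S g‖ * ‖U_S f‖ := norm_inner_le_norm _ _
  have h4 := O_expo_pos p hp
  unfold O_q
  rw [div_le_iff₀ h4, ← h1, ← h2, mul_assoc (kap d * 4 ^ nu d) (‖U_S f‖ ^ 2)]
  refine mul_le_mul_of_nonneg_left ?_ (O_K_pos (d := d)).le
  calc ‖inner ℂ (U_S g) (U_S f)‖ ^ 2 ≤ (‖U_S g‖ * ‖U_S f‖) ^ 2 :=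
        pow_le_pow_left₀ (norm_nonneg _) h3 2
    _ = _ := by ring

theorem O_q_base (f : ExpSpan d) : O_q f (0, (1, 0)) = ‖U_P 0 (U_F f)‖ ^ 2 := by
  set g : ExpSpan d := ⟨expo 0 (1, 0), U_expo_mem _ _ O_e_mem⟩ with hg
  have h := (O_base f g rfl).2
  have h4 := O_expo_pos ((0, (1, 0)) : Rs d × Rs d) O_e_mem
  unfold O_q
  rw [div_eq_iff h4.ne']
  rw [U_S_inner, U_S_norm] at h
  exact h

/-- an element of the span which is orthogonal to all exponentials vanishes -/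
theorem O_q_pos (f : ExpSpan d) (hf : ∫ ξ, ‖f.1 ξ‖ ^ 2 ∂(sig d) ≠ 0) :
    ∃ p : Rs d × Rs d, p.2 ∈ Fwd ∧ 0 < O_q f p := by
  by_contra hcon
  push Not at hcon
  have h0 : ∀ c v : Rs d, v ∈ Fwd → ∫ ξ, f.1 ξ * conj (expo c v ξ) ∂(sig d) = 0 := by
    intro c v hv
    have h1 := hcon (c, v) hv
    have h2 := O_expo_pos (c, v) hv
    unfold O_q at h1
    have h3 : kap d * 4 ^ nu d * ‖∫ ξ, f.1 ξ * conj (expo c v ξ) ∂(sig d)‖ ^ 2 ≤ 0 := by
      by_contra h4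
      push Not at h4
      exact absurd (div_pos h4 h2) (not_lt.2 h1)
    have h4 : ‖∫ ξ, f.1 ξ * conj (expo c v ξ) ∂(sig d)‖ ^ 2 ≤ 0 := by
      by_contra h5
      push Not at h5
      exact absurd (mul_pos (O_K_pos (d := d)) h5) (not_lt.2 h3)
    have h5 : ‖∫ ξ, f.1 ξ * conj (expo c v ξ) ∂(sig d)‖ = 0 := by
      have := le_antisymm h4 (sq_nonneg _)
      exact pow_eq_zero_iff (two_ne_zero) |>.1 this
    exact norm_eq_zero.1 h5
  have h1 : ∀ g : ExpSpan d, inner ℂ (U_S g) (U_S f) = (0 : ℂ) := by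
    intro g
    obtain ⟨g, hg⟩ := g
    induction hg using Submodule.span_induction with
    | mem x hx =>
      obtain ⟨c, v, hv, rfl⟩ := hx
      rw [U_S_inner]
      exact h0 c v hv
    | zero =>
      have e : (⟨0, (ExpSpan d).zero_mem⟩ : ExpSpan d) = 0 := rfl
      rw [e, map_zero, inner_zero_left]
    | add x y hx hy h1 h2 =>
      have e : (⟨x + y, (ExpSpan d).add_mem hx hy⟩ : ExpSpan d) = ⟨x, hx⟩ + ⟨y, hy⟩ := rfl
      rw [e, map_add, inner_add_left, h1, h2, add_zero]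
    | smul r x hx h1 =>
      have e : (⟨r • x, (ExpSpan d).smul_mem r hx⟩ : ExpSpan d) = r • ⟨x, hx⟩ := rfl
      rw [e, map_smul, inner_smul_left, h1, mul_zero]
  have h2 := h1 f
  rw [inner_self_eq_zero] at h2
  apply hf
  rw [← U_S_norm, h2, norm_zero]
  norm_num

/-- **near maximal overlap** -/
theorem near_overlap (f : ExpSpan d) (hf : ∫ ξ, ‖f.1 ξ‖ ^ 2 ∂(sig d) ≠ 0) (ε : ℝ) (hε : 0 < ε) :
    ∃ f' : ExpSpan d, ∫ ξ, ‖f'.1 ξ‖ ^ 2 ∂(sig d) = ∫ ξ, ‖f.1 ξ‖ ^ 2 ∂(sig d) ∧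
      ∫ a, ‖coneExt f'.1 a‖ ^ pe d = ∫ a, ‖coneExt f.1 a‖ ^ pe d ∧
      ‖U_P 0 (U_F f)‖ ≤ ‖U_P 0 (U_F f')‖ ∧ ‖U_P 1 (U_F f')‖ ≤ ε := by
  obtain ⟨p1, hp1, hq1⟩ := O_q_pos f hf
  set E : ℝ := kap d * 4 ^ nu d * ‖U_S f‖ ^ 2 with hE
  have hE0 : 0 ≤ E := mul_nonneg (O_K_pos (d := d)).le (sq_nonneg _)
  set T : Set ℝ := {x | ∃ p : Rs d × Rs d, p.2 ∈ Fwd ∧ x = O_q f p} with hT
  have hTb : BddAbove T := ⟨E, by
    rintro x ⟨p, hp, rfl⟩
    exact O_q_le f p hp⟩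
  have hTn : T.Nonempty := ⟨_, p1, hp1, rfl⟩
  set M : ℝ := sSup T with hM
  have hMp : 0 < M := lt_of_lt_of_le hq1 (le_csSup hTb ⟨p1, hp1, rfl⟩)
  obtain ⟨δ, hδ, hloc⟩ := O_local (d := d) E (√(M / 2)) ε hE0 (Real.sqrt_pos.2 (by linarith)) hε
  have hδ' : 0 < min δ (M / 2) := lt_min hδ (by linarith)
  obtain ⟨p0, hp0, hp0M, hp0b⟩ : ∃ p : Rs d × Rs d, p.2 ∈ Fwd ∧ M - min δ (M / 2) < O_q f p ∧
      O_q f (0, (1, 0)) ≤ O_q f p := by
    obtain ⟨x, ⟨p, hp, rfl⟩, hx⟩ := exists_lt_of_lt_csSup hTn (sub_lt_self M hδ')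
    by_cases hc : M - min δ (M / 2) < O_q f (0, (1, 0))
    · exact ⟨(0, (1, 0)), O_e_mem, hc, le_refl _⟩
    · exact ⟨p, hp, hx, (not_lt.1 hc).trans hx.le⟩
  set v : Rs d := Fa_inv p0.2 with hv
  have hvF : v ∈ Fwd := Fa_inv_mem p0.2 hp0
  obtain ⟨f', hf', hn, hext, hpair⟩ := O_group f.1 f.2 v p0.1 hvF
  have hl := BO_lor_pos hvF
  -- the overlaps are transported
  have hq : ∀ c' v' : Rs d, v' ∈ Fwd →
      O_q ⟨f', hf'⟩ (boost v (c' - p0.1), boost v v') = O_q f (c', v') := by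
    intro c' v' hv'
    unfold O_q
    simp only
    rw [hpair c' v' hv', O_expo_norm v p0.1 c' v' hvF hv', norm_mul, Complex.norm_real,
      Real.norm_eq_abs, abs_of_pos (Real.rpow_pos_of_pos hl _), mul_pow]
    have e1 : (lor v ^ (-(nu d / 2))) ^ 2 = lor v ^ (-(nu d)) := by
      rw [← Real.rpow_natCast, ← Real.rpow_mul hl.le]
      congr 1
      push_cast
      ring
    rw [e1]
    have e2 : lor v ^ (-(nu d)) ≠ 0 := (Real.rpow_pos_of_pos hl _).ne'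
    have e3 := (O_expo_pos (c', v') hv').ne'
    simp only at e3
    rw [mul_left_comm, mul_div_mul_left _ _ e2]
  have hbase : O_q ⟨f', hf'⟩ (0, (1, 0)) = O_q f p0 := by
    have h1 := hq p0.1 p0.2 hp0
    rw [sub_self, boost_zero] at h1
    have h2 : boost v p0.2 = (1, 0) := by
      have := Fa_inv_left p0.2 hp0 (1, 0)
      rwa [boost_e] at this
    rw [h2] at h1
    exact h1
  have hP0 : ‖U_P 0 (U_F (⟨f', hf'⟩ : ExpSpan d))‖ ^ 2 = O_q f p0 := by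
    rw [← O_q_base, hbase]
  refine ⟨⟨f', hf'⟩, hn, O_ext_norm f.1 f' v p0.1 hvF hext, ?_, ?_⟩
  · have h1 : ‖U_P 0 (U_F f)‖ ^ 2 ≤ ‖U_P 0 (U_F (⟨f', hf'⟩ : ExpSpan d))‖ ^ 2 := by
      rw [hP0, ← O_q_base]
      exact hp0b
    exact (sq_le_sq₀ (norm_nonneg _) (norm_nonneg _)).1 h1
  · refine hloc ⟨f', hf'⟩ ?_ ?_ ?_
    · rw [U_S_norm]
      simp only
      rw [hn, hE, U_S_norm]
    · rw [← Real.sqrt_sq (norm_nonneg (U_P 0 (U_F (⟨f', hf'⟩ : ExpSpan d)))), hP0]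
      refine Real.sqrt_le_sqrt ?_
      have := min_le_right δ (M / 2)
      linarith
    · rintro g ⟨c, u, hu, hg⟩
      rw [hP0]
      have h1 : O_q ⟨f', hf'⟩ (c, u) ≤ M := by
        have h2 := hq (p0.1 + boost (Fa_inv v) c) (boost (Fa_inv v) u)
          (boost_mem_Fwd (Fa_inv v) (Fa_inv_mem v hvF) u hu)
        rw [add_sub_cancel_left, Fa_inv_right v hvF, Fa_inv_right v hvF] at h2
        rw [h2]
        exact le_csSup hTb ⟨(p0.1 + boost (Fa_inv v) c, boost (Fa_inv v) u),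
          boost_mem_Fwd (Fa_inv v) (Fa_inv_mem v hvF) u hu, rfl⟩
      have h3 := O_expo_pos (c, u) hu
      unfold O_q at h1
      rw [div_le_iff₀ h3] at h1
      rw [U_S_inner, U_S_norm, hg]
      simp only at h1 ⊢
      refine h1.trans (mul_le_mul_of_nonneg_right ?_ h3.le)
      have := min_le_left δ (M / 2)
      linarith

end Pool.Agent.ConeG
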