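import Pool.Agent.Work.MP_b0b133_an.G.U5

/-!
# Near maximal overlap: local part
-/

set_option autoImplicit false
open MeasureTheory Complex Filter
open scoped ENNReal ComplexConjugate Topology

namespace Pool.Agent.ConeG

variable {d : ℕ} [Fact (2 ≤ d)]

local instance : IsProbabilityMeasure (mM d) := mM_prob

/-- the energy identity, polarised -/
theorem O_pol (f g : ExpSpan d) :
    HasSum (fun l => ((cw d l : ℝ) : ℂ)⁻¹ * inner ℂ (U_P l (U_F g)) (U_P l (U_F f)))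
      (((kap d * 4 ^ nu d : ℝ) : ℂ) * inner ℂ (U_S g) (U_S f)) := by
  have key : ∀ h : ExpSpan d, HasSum (fun l => ((cw d l : ℝ) : ℂ)⁻¹ * (‖U_P l (U_F h)‖ : ℂ) ^ 2)
      (((kap d * 4 ^ nu d : ℝ) : ℂ) * (‖U_S h‖ : ℂ) ^ 2) := by
    intro h
    have h1 := (U_energy h).1.mapL Complex.ofRealCLM
    convert h1 using 1
    · funext l
      simp
    · simp
  have h1 := key (g + f)
  have h2 := key (g - f)
  have h3 := key (g - I • f)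
  have h4 := key (g + I • f)
  have h5 := ((h1.sub h2).add ((h3.sub h4).mul_right I)).mul_right ((4 : ℂ)⁻¹)
  have e1 : ∀ l, ((cw d l : ℝ) : ℂ)⁻¹ * inner ℂ (U_P l (U_F g)) (U_P l (U_F f)) =
      ((((cw d l : ℝ) : ℂ)⁻¹ * (‖U_P l (U_F (g + f))‖ : ℂ) ^ 2 -
        ((cw d l : ℝ) : ℂ)⁻¹ * (‖U_P l (U_F (g - f))‖ : ℂ) ^ 2) +
        (((cw d l : ℝ) : ℂ)⁻¹ * (‖U_P l (U_F (g - I • f))‖ : ℂ) ^ 2 -
        ((cw d l : ℝ) : ℂ)⁻¹ * (‖U_P l (U_F (g + I • f))‖ : ℂ) ^ 2) * I) * (4 : ℂ)⁻¹ := by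
    intro l
    rw [inner_eq_sum_norm_sq_div_four]
    simp only [map_add, map_sub, map_smul]
    simp only [coe_algebraMap, RCLike.I_to_complex]
    ring
  have e2 : (((kap d * 4 ^ nu d : ℝ) : ℂ) * inner ℂ (U_S g) (U_S f)) =
      ((((kap d * 4 ^ nu d : ℝ) : ℂ) * (‖U_S (g + f)‖ : ℂ) ^ 2 -
        ((kap d * 4 ^ nu d : ℝ) : ℂ) * (‖U_S (g - f)‖ : ℂ) ^ 2) +
        (((kap d * 4 ^ nu d : ℝ) : ℂ) * (‖U_S (g - I • f)‖ : ℂ) ^ 2 -
        ((kap d * 4 ^ nu d : ℝ) : ℂ) * (‖U_S (g + I • f)‖ : ℂ) ^ 2) * I) * (4 : ℂ)⁻¹ := by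
    rw [inner_eq_sum_norm_sq_div_four]
    simp only [map_add, map_sub, map_smul]
    simp only [coe_algebraMap, RCLike.I_to_complex]
    ring
  rw [e2]
  simp only [e1]
  exact h5

theorem O_Z_smul (l : ℕ) (a : ℂ) (β : Fin (d + 1) → ℂ) : U_Z l (a • β) = a ^ l • U_Z l β := by
  unfold U_Z
  rw [zon_smul, map_smul]

/-- degree one -/
theorem O_zon_one (γ : Fin (d + 1) → ℂ) :
    zon 1 γ = MvPolynomial.C ((d : ℂ) - 1) * ∑ j, MvPolynomial.C (γ j) * MvPolynomial.X j := by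
  show MvPolynomial.C ((2 * ((0 : ℕ) : ℂ) + ((d : ℂ) - 1)) / (((0 : ℕ) : ℂ) + 1)) *
    ∑ j, MvPolynomial.C (γ j) * up 0 j (zon 0 γ) = _
  have h : ∀ j, up 0 j (zon 0 γ) = (MvPolynomial.X j : MvPolynomial (Fin (d + 1)) ℂ) := fun j => by
    show up 0 j 1 = _
    unfold up
    simp
  simp only [h]
  congr 2
  simp

theorem O_Z_one_norm (γ : Fin (d + 1) → ℂ) :
    ‖U_Z 1 γ‖ ^ 2 = cw d 1 * ((d : ℝ) - 1) * ∑ j, ‖γ j‖ ^ 2 := by
  have h := U_Z_norm 1 γ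
  rw [O_zon_one] at h
  simp only [map_mul, MvPolynomial.eval_C, map_sum, MvPolynomial.eval_X] at h
  have h2 : ∑ j, γ j * conj (γ j) = ((∑ j, ‖γ j‖ ^ 2 : ℝ) : ℂ) := by
    push_cast
    exact Finset.sum_congr rfl fun j _ => Complex.mul_conj' (γ j)
  rw [h2] at h
  have h3 : ((‖U_Z 1 γ‖ ^ 2 : ℝ) : ℂ) = ((cw d 1 * ((d : ℝ) - 1) * ∑ j, ‖γ j‖ ^ 2 : ℝ) : ℂ) := by
    rw [h]
    push_cast
    ring
  exact_mod_cast h3

/-- every harmonic of degree one is zonal -/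
theorem O_V_one (Y : Lp ℂ 2 (mM d)) (hY : Y ∈ U_V 1) : ∃ γ : Fin (d + 1) → ℂ, Y = U_Z 1 γ := by
  obtain ⟨P, hP, rfl⟩ := hY
  have hd : ((d : ℂ) - 1) ≠ 0 := by
    have := two_le_real d
    have h1 : ((d : ℝ) - 1) ≠ 0 := by linarith
    exact_mod_cast h1
  have hc : ∀ j, ∃ c : ℂ, MvPolynomial.pderiv j P = MvPolynomial.C c := by
    intro j
    have h1 : (MvPolynomial.pderiv j P).IsHomogeneous 0 := by
      have := hP.1.pderiv (i := j)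
      simpa using this
    rw [← MvPolynomial.totalDegree_zero_iff_isHomogeneous,
      MvPolynomial.totalDegree_eq_zero_iff_eq_C] at h1
    exact ⟨_, h1⟩
  choose c hc using hc
  refine ⟨fun j => ((d : ℂ) - 1)⁻¹ * c j, ?_⟩
  unfold U_Z
  congr 1
  rw [O_zon_one]
  refine MvPolynomial.funext fun x => ?_
  have h := L_euler 1 P hP.1 x
  simp only [hc, MvPolynomial.eval_C, Nat.cast_one, one_mul] at h
  simp only [map_mul, MvPolynomial.eval_C, map_sum, MvPolynomial.eval_X]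
  rw [← h, Finset.mul_sum]
  refine Finset.sum_congr rfl fun j _ => ?_
  field_simp

/-- uniform bound of the energy of the kernels -/
theorem O_D_bound : ∃ D0 : ℝ, 0 ≤ D0 ∧ ∀ β : Fin (d + 1) → ℂ, ∑ j, ‖β j‖ ^ 2 ≤ 1 / 16 →
    ∑' l, (cw d l)⁻¹ * ‖U_Z l β‖ ^ 2 ≤ D0 := by
  refine ⟨(7 / 8 : ℝ) ^ (-(nu d)), by positivity, fun β hβ => ?_⟩
  have h := U_Z_hasSum_eval β β hβ hβ
  have h2 : ∀ l, (((cw d l)⁻¹ * ‖U_Z l β‖ ^ 2 : ℝ) : ℂ) =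
      MvPolynomial.eval (fun j => conj (β j)) (zon l β) := by
    intro l
    have h3 := U_Z_norm l β
    have hc : (cw d l : ℂ) ≠ 0 := by exact_mod_cast (U_cw_pos d l).ne'
    rw [ofReal_mul, h3, ofReal_inv, inv_mul_cancel_left₀ hc]
  simp only [← h2] at h
  have h3 : (∑' l, (cw d l)⁻¹ * ‖U_Z l β‖ ^ 2 : ℝ) =
      ‖(1 - 2 * ∑ j, conj (β j) * β j + (∑ j, conj (β j) ^ 2) * ∑ j, β j ^ 2) ^
        (-(nu d : ℂ))‖ := by
    rw [← h.tsum_eq, ← Complex.ofReal_tsum, Complex.norm_real, Real.norm_eq_abs, abs_of_nonneg]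
    exact tsum_nonneg fun l => mul_nonneg (inv_nonneg.2 (U_cw_pos d l).le) (sq_nonneg _)
  rw [h3]
  have h4 : (1 - 2 * ∑ j, conj (β j) * β j + (∑ j, conj (β j) ^ 2) * ∑ j, β j ^ 2) =
      ((1 - 2 * ∑ j, ‖β j‖ ^ 2 + ‖∑ j, β j ^ 2‖ ^ 2 : ℝ) : ℂ) := by
    have e1 : ∑ j, conj (β j) * β j = ((∑ j, ‖β j‖ ^ 2 : ℝ) : ℂ) := by
      push_cast
      exact Finset.sum_congr rfl fun j _ => Complex.conj_mul' (β j)
    have e2 : (∑ j, conj (β j) ^ 2) * ∑ j, β j ^ 2 = ((‖∑ j, β j ^ 2‖ ^ 2 : ℝ) : ℂ) := by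
      have : ∑ j, conj (β j) ^ 2 = conj (∑ j, β j ^ 2) := by simp
      rw [this, Complex.conj_mul']
      push_cast
      rfl
    rw [e1, e2]
    push_cast
    ring
  rw [h4]
  have h5 : (7 / 8 : ℝ) ≤ 1 - 2 * ∑ j, ‖β j‖ ^ 2 + ‖∑ j, β j ^ 2‖ ^ 2 := by
    nlinarith [sq_nonneg ‖∑ j, β j ^ 2‖]
  have h6 : -(nu d : ℂ) = ((-(nu d) : ℝ) : ℂ) := by push_cast; rfl
  rw [h6, ← Complex.ofReal_cpow (by linarith), Complex.norm_real, Real.norm_eq_abs,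
    abs_of_nonneg (by positivity)]
  exact Real.rpow_le_rpow_of_nonpos (by norm_num) h5 (neg_nonpos.2 (nu_pos d).le)

/-! ### elementary series -/

omit [Fact (2 ≤ d)] in
theorem O_tail (a : ℕ → ℂ) (m : ℕ → ℝ) (h : ∀ l, ‖a l‖ ≤ m l) (hm : Summable m) (s : ℝ)
    (h0 : 0 ≤ s) (h1 : s ≤ 1) (b : ℂ) (hb : HasSum (fun l => (s : ℂ) ^ l * a l) b) :
    ‖b - (a 0 + s * a 1)‖ ≤ s ^ 2 * ∑' l, m l := by
  have hb' := (hasSum_nat_add_iff' (f := fun l => (s : ℂ) ^ l * a l) 2).2 hb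
  have e : b - ∑ i ∈ Finset.range 2, (s : ℂ) ^ i * a i = b - (a 0 + s * a 1) := by
    simp [Finset.sum_range_succ]
  rw [e] at hb'
  have hm2 : Summable fun n => m (n + 2) := (summable_nat_add_iff 2).2 hm
  have h2 : ‖b - (a 0 + s * a 1)‖ ≤ ∑' n, s ^ 2 * m (n + 2) := by
    refine hb'.norm_le_of_bounded (hm2.mul_left (s ^ 2)).hasSum fun n => ?_
    rw [norm_mul, norm_pow, Complex.norm_real, Real.norm_eq_abs, abs_of_nonneg h0, pow_add,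
      mul_comm (s ^ n), mul_assoc]
    refine mul_le_mul_of_nonneg_left ?_ (by positivity)
    calc s ^ n * ‖a (n + 2)‖ ≤ 1 * ‖a (n + 2)‖ :=
          mul_le_mul_of_nonneg_right (pow_le_one₀ h0 h1) (norm_nonneg _)
      _ ≤ m (n + 2) := by rw [one_mul]; exact h _
  refine h2.trans ?_
  rw [tsum_mul_left]
  refine mul_le_mul_of_nonneg_left ?_ (by positivity)
  have h3 := hm.sum_add_tsum_nat_add 2
  have h4 : 0 ≤ ∑ i ∈ Finset.range 2, m i := Finset.sum_nonneg fun i _ => (norm_nonneg _).trans (h i)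
  linarith

omit [Fact (2 ≤ d)] in
theorem O_quad (m : ℕ → ℝ) (h : ∀ l, 0 ≤ m l) (hm : Summable m) (s : ℝ)
    (h0 : 0 ≤ s) (h1 : s ≤ 1) (D : ℝ) (hD : HasSum (fun l => (s ^ l) ^ 2 * m l) D) :
    D ≤ m 0 + s ^ 2 * ∑' l, m l := by
  have hb' := (hasSum_nat_add_iff' (f := fun l => (s ^ l) ^ 2 * m l) 1).2 hD
  have e : D - ∑ i ∈ Finset.range 1, (s ^ i) ^ 2 * m i = D - m 0 := by
    simp
  rw [e] at hb'
  have hm2 : Summable fun n => m (n + 1) := (summable_nat_add_iff 1).2 hm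
  have h2 : D - m 0 ≤ ∑' n, s ^ 2 * m (n + 1) := by
    refine hasSum_le (fun n => ?_) hb' (hm2.mul_left (s ^ 2)).hasSum
    refine mul_le_mul_of_nonneg_right ?_ (h _)
    have e5 : (s ^ (n + 1)) ^ 2 = (s ^ n) ^ 2 * s ^ 2 := by ring
    rw [e5]
    have : (s ^ n) ^ 2 ≤ 1 := pow_le_one₀ (by positivity) (pow_le_one₀ h0 h1)
    nlinarith [sq_nonneg s]
  rw [tsum_mul_left] at h2
  have h3 := hm.sum_add_tsum_nat_add 1
  have h4 : 0 ≤ ∑ i ∈ Finset.range 1, m i := Finset.sum_nonneg fun i _ => h i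
  nlinarith [sq_nonneg s]

theorem O_Z_zero (β : Fin (d + 1) → ℂ) : U_Z 0 β = U_one := rfl

theorem O_one_norm : ‖(U_one : Lp ℂ 2 (mM d))‖ = 1 := by
  have h := U_Z_norm 0 (0 : Fin (d + 1) → ℂ)
  rw [O_Z_zero] at h
  have h1 : cw d 0 = 1 := by
    unfold cw
    have := nu_pos d
    push_cast
    rw [zero_add, div_self this.ne']
  have h2 : ((‖(U_one : Lp ℂ 2 (mM d))‖ ^ 2 : ℝ) : ℂ) = ((1 : ℝ) : ℂ) := by
    rw [h, h1]
    simp [zon]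
  have h3 : ‖(U_one : Lp ℂ 2 (mM d))‖ ^ 2 = 1 := by exact_mod_cast h2
  nlinarith [norm_nonneg (U_one : Lp ℂ 2 (mM d))]

theorem O_cw_zero : cw d 0 = 1 := by
  unfold cw
  have := nu_pos d
  push_cast
  rw [zero_add, div_self this.ne']

/-- the terms of the pairing with a kernel -/
noncomputable def O_a (f : ExpSpan d) (β : Fin (d + 1) → ℂ) (l : ℕ) : ℂ :=
  ((cw d l : ℝ) : ℂ)⁻¹ * inner ℂ (U_Z l β) (U_P l (U_F f))

/-- the dominating terms -/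
noncomputable def O_m (f : ExpSpan d) (β : Fin (d + 1) → ℂ) (l : ℕ) : ℝ :=
  ((cw d l)⁻¹ * ‖U_Z l β‖ ^ 2 + (cw d l)⁻¹ * ‖U_P l (U_F f)‖ ^ 2) / 2

theorem O_a_le (f : ExpSpan d) (β : Fin (d + 1) → ℂ) (l : ℕ) : ‖O_a f β l‖ ≤ O_m f β l := by
  unfold O_a O_m
  have h1 : 0 < (cw d l)⁻¹ := inv_pos.2 (U_cw_pos d l)
  rw [norm_mul, norm_inv, Complex.norm_real, Real.norm_eq_abs, abs_of_pos (U_cw_pos d l)]
  have h2 : ‖inner ℂ (U_Z l β) (U_P l (U_F f))‖ ≤ ‖U_Z l β‖ * ‖U_P l (U_F f)‖ := norm_inner_le_norm _ _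
  have h3 := sq_nonneg (‖U_Z l β‖ - ‖U_P l (U_F f)‖)
  have h4 : ‖inner ℂ (U_Z l β) (U_P l (U_F f))‖ ≤ (‖U_Z l β‖ ^ 2 + ‖U_P l (U_F f)‖ ^ 2) / 2 := by
    nlinarith
  calc _ ≤ (cw d l)⁻¹ * ((‖U_Z l β‖ ^ 2 + ‖U_P l (U_F f)‖ ^ 2) / 2) :=
        mul_le_mul_of_nonneg_left h4 h1.le
    _ = _ := by ring

/-- the pairing of `f` with an exponential near the base point -/
theorem O_pair (f g : ExpSpan d) (r : ℝ) (β : Fin (d + 1) → ℂ) (κ : ℂ) (s : ℝ)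
    (h0 : 0 ≤ s) (h1 : s ≤ 1) (hβ : ∑ j, ‖β j‖ ^ 2 ≤ 1 / 16)
    (hg : U_near r g ((s : ℂ) • β) κ) (M : ℝ)
    (hM : ‖inner ℂ (U_S g) (U_S f)‖ ^ 2 ≤ M * ‖U_S g‖ ^ 2) (hM0 : 0 ≤ M) :
    ∃ b : ℂ, ‖b - (O_a f β 0 + s * O_a f β 1)‖ ≤ s ^ 2 * ∑' l, O_m f β l ∧
      ‖b‖ ^ 2 ≤ kap d * 4 ^ nu d * M * (1 + s ^ 2 * ∑' l, (cw d l)⁻¹ * ‖U_Z l β‖ ^ 2) := by
  have hκ := hg.hκ
  have hcκ : conj κ ≠ 0 := (map_ne_zero _).2 hκ
  have hK : 0 < kap d * 4 ^ nu d := mul_pos (kap_pos d) (Real.rpow_pos_of_pos (by norm_num) _)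
  have hP : ∀ l, U_P l (U_F g) = (κ * (s : ℂ) ^ l) • U_Z l β := fun l => by
    rw [U_near_P hg l, O_Z_smul, smul_smul]
  have k1 := O_pol f g
  have e1 : ∀ l, ((cw d l : ℝ) : ℂ)⁻¹ * inner ℂ (U_P l (U_F g)) (U_P l (U_F f)) =
      conj κ * ((s : ℂ) ^ l * O_a f β l) := fun l => by
    rw [hP, inner_smul_left]
    simp only [map_mul, map_pow, Complex.conj_ofReal, O_a]
    ring
  simp only [e1] at k1
  set b : ℂ := (conj κ)⁻¹ * (((kap d * 4 ^ nu d : ℝ) : ℂ) * inner ℂ (U_S g) (U_S f)) with hb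
  have k2 : HasSum (fun l => (s : ℂ) ^ l * O_a f β l) b := by
    have := k1.mul_left (conj κ)⁻¹
    simp only [inv_mul_cancel_left₀ hcκ] at this
    exact this
  have hsm : Summable fun l => (cw d l)⁻¹ * ‖U_Z l β‖ ^ 2 := U_Z_summable β hβ
  have hse : Summable fun l => (cw d l)⁻¹ * ‖U_P l (U_F f)‖ ^ 2 := (U_energy f).1.summable
  have hmm : Summable (O_m f β) := (hsm.add hse).div_const 2
  refine ⟨b, O_tail _ _ (O_a_le f β) hmm s h0 h1 b k2, ?_⟩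
  have k3 := (U_energy g).1
  have e2 : ∀ l, (cw d l)⁻¹ * ‖U_P l (U_F g)‖ ^ 2 =
      ‖κ‖ ^ 2 * ((s ^ l) ^ 2 * ((cw d l)⁻¹ * ‖U_Z l β‖ ^ 2)) := fun l => by
    rw [hP, norm_smul, norm_mul, norm_pow, Complex.norm_real, Real.norm_eq_abs, abs_of_nonneg h0]
    ring
  simp only [e2] at k3
  have hκ2 : 0 < ‖κ‖ ^ 2 := pow_pos (norm_pos_iff.2 hκ) 2
  have k4 : HasSum (fun l => (s ^ l) ^ 2 * ((cw d l)⁻¹ * ‖U_Z l β‖ ^ 2))
      ((‖κ‖ ^ 2)⁻¹ * (kap d * 4 ^ nu d * ‖U_S g‖ ^ 2)) := by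
    have := k3.mul_left (‖κ‖ ^ 2)⁻¹
    simp only [inv_mul_cancel_left₀ hκ2.ne'] at this
    exact this
  have k5 := O_quad _ (fun l => mul_nonneg (inv_nonneg.2 (U_cw_pos d l).le) (sq_nonneg _)) hsm s h0 h1 _ k4
  have e3 : (cw d 0)⁻¹ * ‖U_Z 0 β‖ ^ 2 = 1 := by
    rw [O_cw_zero, O_Z_zero, O_one_norm]; norm_num
  rw [e3] at k5
  have e4 : ‖b‖ ^ 2 = (kap d * 4 ^ nu d) ^ 2 * (‖κ‖ ^ 2)⁻¹ * ‖inner ℂ (U_S g) (U_S f)‖ ^ 2 := by
    rw [hb, norm_mul, norm_mul, norm_inv, RCLike.norm_conj, Complex.norm_real, Real.norm_eq_abs,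
      abs_of_pos hK]
    ring
  rw [e4]
  calc (kap d * 4 ^ nu d) ^ 2 * (‖κ‖ ^ 2)⁻¹ * ‖inner ℂ (U_S g) (U_S f)‖ ^ 2
      ≤ (kap d * 4 ^ nu d) ^ 2 * (‖κ‖ ^ 2)⁻¹ * (M * ‖U_S g‖ ^ 2) :=
        mul_le_mul_of_nonneg_left hM (by positivity)
    _ = kap d * 4 ^ nu d * M * ((‖κ‖ ^ 2)⁻¹ * (kap d * 4 ^ nu d * ‖U_S g‖ ^ 2)) := by ring
    _ ≤ _ := mul_le_mul_of_nonneg_left k5 (mul_nonneg hK.le hM0)

/-! ### the base point -/

theorem O_P_zero (F : Lp ℂ 2 (mM d)) : ‖inner ℂ (U_one : Lp ℂ 2 (mM d)) (U_P 0 F)‖ = ‖U_P 0 F‖ := by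
  have h := U_P_mem 0 F
  rw [U_V0, Submodule.mem_span_singleton] at h
  obtain ⟨c, hc⟩ := h
  rw [← hc, inner_smul_right, inner_self_eq_norm_sq_to_K, norm_smul, O_one_norm]
  simp

theorem O_a_zero (f : ExpSpan d) (β : Fin (d + 1) → ℂ) : ‖O_a f β 0‖ = ‖U_P 0 (U_F f)‖ := by
  unfold O_a
  rw [O_cw_zero, O_Z_zero]
  simp only [ofReal_one, inv_one, one_mul]
  exact O_P_zero _

theorem O_e_mem : ((1, 0) : Rs d) ∈ Fwd := by
  show ‖(0 : Rd d)‖ < 1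
  simp

theorem O_base (f g : ExpSpan d) (hg : g.1 = expo 0 (1, 0)) : U_S g ≠ 0 ∧
    kap d * 4 ^ nu d * ‖inner ℂ (U_S g) (U_S f)‖ ^ 2 = ‖U_P 0 (U_F f)‖ ^ 2 * ‖U_S g‖ ^ 2 := by
  obtain ⟨r, hr, -, hn, -⟩ := U_exists_near (d := d)
  have h := hn (0, (1, 0)) (Metric.mem_ball_self hr) g hg
  have hb : U_bet (0 : Rs d) (1, 0) = 0 := by
    funext j
    exact U_cayM_base j
  rw [hb] at h
  set κ := U_kap (0 : Rs d) (1, 0) with hκdef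
  have hκ := h.hκ
  have hK : 0 < kap d * 4 ^ nu d := mul_pos (kap_pos d) (Real.rpow_pos_of_pos (by norm_num) _)
  have hZ : ∀ l, l ≠ 0 → U_Z l (0 : Fin (d + 1) → ℂ) = 0 := fun l hl => by
    have := O_Z_smul l (0 : ℂ) (0 : Fin (d + 1) → ℂ)
    rw [zero_smul, zero_pow hl, zero_smul] at this
    exact this
  have hP : ∀ l, U_P l (U_F g) = κ • U_Z l 0 := fun l => U_near_P h l
  have k1 := O_pol f g
  have k2 : HasSum (fun l => ((cw d l : ℝ) : ℂ)⁻¹ * inner ℂ (U_P l (U_F g)) (U_P l (U_F f)))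
      (conj κ * inner ℂ (U_one : Lp ℂ 2 (mM d)) (U_P 0 (U_F f))) := by
    have e : conj κ * inner ℂ (U_one : Lp ℂ 2 (mM d)) (U_P 0 (U_F f)) =
        ((cw d 0 : ℝ) : ℂ)⁻¹ * inner ℂ (U_P 0 (U_F g)) (U_P 0 (U_F f)) := by
      rw [hP, O_Z_zero, inner_smul_left, O_cw_zero]
      simp
    rw [e]
    refine hasSum_single 0 fun l hl => ?_
    rw [hP, hZ l hl, smul_zero, inner_zero_left, mul_zero]
  have k3 := k1.unique k2
  have k4 := (U_energy g).1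
  have k5 : HasSum (fun l => (cw d l)⁻¹ * ‖U_P l (U_F g)‖ ^ 2) (‖κ‖ ^ 2) := by
    have e : ‖κ‖ ^ 2 = (cw d 0)⁻¹ * ‖U_P 0 (U_F g)‖ ^ 2 := by
      rw [hP, O_Z_zero, norm_smul, O_cw_zero, O_one_norm]
      simp
    rw [e]
    refine hasSum_single 0 fun l hl => ?_
    rw [hP, hZ l hl, smul_zero, norm_zero]
    simp
  have k6 := k4.unique k5
  have hκ2 : 0 < ‖κ‖ ^ 2 := pow_pos (norm_pos_iff.2 hκ) 2
  refine ⟨?_, ?_⟩
  · intro h0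
    rw [h0, norm_zero] at k6
    rw [← k6] at hκ2
    norm_num at hκ2
  · have k7 : (kap d * 4 ^ nu d) * ‖inner ℂ (U_S g) (U_S f)‖ = ‖κ‖ * ‖U_P 0 (U_F f)‖ := by
      have := congrArg norm k3
      rw [norm_mul, norm_mul, RCLike.norm_conj, Complex.norm_real, Real.norm_eq_abs, abs_of_pos hK,
        O_P_zero] at this
      exact this
    have k8 : (kap d * 4 ^ nu d) * ((kap d * 4 ^ nu d) * ‖inner ℂ (U_S g) (U_S f)‖ ^ 2) =
        (kap d * 4 ^ nu d) * (‖U_P 0 (U_F f)‖ ^ 2 * ‖U_S g‖ ^ 2) := by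
      calc _ = ((kap d * 4 ^ nu d) * ‖inner ℂ (U_S g) (U_S f)‖) ^ 2 := by ring
        _ = ‖U_P 0 (U_F f)‖ ^ 2 * ‖κ‖ ^ 2 := by rw [k7]; ring
        _ = _ := by rw [← k6]; ring
    exact mul_left_cancel₀ hK.ne' k8

/-- almost maximal overlap with the constants forces a small component of degree one -/
theorem O_local (E y0 ε : ℝ) (hE : 0 ≤ E) (hy : 0 < y0) (hε : 0 < ε) :
    ∃ δ : ℝ, 0 < δ ∧ ∀ f : ExpSpan d, kap d * 4 ^ nu d * ‖U_S f‖ ^ 2 ≤ E →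
      y0 ≤ ‖U_P 0 (U_F f)‖ →
      (∀ g : ExpSpan d, (∃ c v : Rs d, v ∈ Fwd ∧ g.1 = expo c v) →
        kap d * 4 ^ nu d * ‖inner ℂ (U_S g) (U_S f)‖ ^ 2 ≤
          (‖U_P 0 (U_F f)‖ ^ 2 + δ) * ‖U_S g‖ ^ 2) →
      ‖U_P 1 (U_F f)‖ ≤ ε := by
  obtain ⟨r, hr, hF, hn, -⟩ := U_exists_near (d := d)
  obtain ⟨ρ, hρ, hsurj⟩ := U_surj (d := d) r hr
  obtain ⟨D0, hD0, hDb⟩ := O_D_bound (d := d)
  have hK : 0 < kap d * 4 ^ nu d := mul_pos (kap_pos d) (Real.rpow_pos_of_pos (by norm_num) _)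
  have hd1 : 0 < ((d : ℝ) - 1) := by have := two_le_real d; linarith
  set c1 : ℝ := cw d 1 * ((d : ℝ) - 1) with hc1
  have hc1p : 0 < c1 := mul_pos (U_cw_pos d 1) hd1
  have hsc : 0 < √c1 := Real.sqrt_pos.2 hc1p
  set ρ1 : ℝ := min (ρ / 2) (1 / 4) with hρ1
  have hρ1p : 0 < ρ1 := lt_min (by linarith) (by norm_num)
  have hρ1a : ρ1 < ρ := lt_of_le_of_lt (min_le_left _ _) (by linarith)
  have hρ1b : ρ1 ≤ 1 / 4 := min_le_right _ _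
  set Q0 : ℝ := (D0 + E) / 2 with hQ0
  set Q1 : ℝ := Q0 + (1 + D0 * (E + 1)) / (2 * y0) with hQ1
  have hQ0p : 0 ≤ Q0 := by positivity
  have hQ1p : 0 ≤ Q1 := by positivity
  set s : ℝ := min 1 (ε * (ρ1 * √c1) / (Q1 + 1)) with hs
  have hsp : 0 < s := lt_min one_pos (by positivity)
  have hs1 : s ≤ 1 := min_le_left _ _
  have hs2 : s * (Q1 + 1) ≤ ε * (ρ1 * √c1) := by
    have := min_le_right (1 : ℝ) (ε * (ρ1 * √c1) / (Q1 + 1))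
    rw [← hs, le_div_iff₀ (by linarith)] at this
    exact this
  refine ⟨s ^ 2, pow_pos hsp 2, fun f hfE hfy hsup => ?_⟩
  by_cases hn1 : ‖U_P 1 (U_F f)‖ = 0
  · rw [hn1]; exact hε.le
  have hn1p : 0 < ‖U_P 1 (U_F f)‖ := lt_of_le_of_ne (norm_nonneg _) (Ne.symm hn1)
  obtain ⟨γ, hγ⟩ := O_V_one (U_P 1 (U_F f)) (U_P_mem 1 _)
  set n1 := ‖U_P 1 (U_F f)‖ with hn1def
  have hγ2 : n1 ^ 2 = c1 * ∑ j, ‖γ j‖ ^ 2 := by
    rw [hn1def, hγ, O_Z_one_norm]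
  set x0 : ℂ := O_a f γ 0 with hx0
  have hx0n : ‖x0‖ = ‖U_P 0 (U_F f)‖ := O_a_zero f γ
  set y : ℝ := ‖U_P 0 (U_F f)‖ with hydef
  have hyp : 0 < y := lt_of_lt_of_le hy hfy
  have hx0ne : x0 ≠ 0 := by
    intro h0
    rw [h0, norm_zero] at hx0n
    linarith
  set A : ℝ := ρ1 * √c1 / n1 with hA
  have hAp : 0 < A := by positivity
  set a : ℂ := (A : ℂ) * conj (x0 / (y : ℂ)) with ha
  have hun : ‖x0 / (y : ℂ)‖ = 1 := by
    rw [norm_div, hx0n, Complex.norm_real, Real.norm_eq_abs, abs_of_pos hyp, div_self hyp.ne']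
  have han : ‖a‖ = A := by
    rw [ha, norm_mul, RCLike.norm_conj, hun, Complex.norm_real, Real.norm_eq_abs, abs_of_pos hAp,
      mul_one]
  set β : Fin (d + 1) → ℂ := a • γ with hβdef
  have hβ2 : ∑ j, ‖β j‖ ^ 2 = ρ1 ^ 2 := by
    have e1 : ∑ j, ‖β j‖ ^ 2 = A ^ 2 * ∑ j, ‖γ j‖ ^ 2 := by
      rw [Finset.mul_sum]
      refine Finset.sum_congr rfl fun j _ => ?_
      rw [hβdef, Pi.smul_apply, norm_smul, han]
      ring
    have e2 : ∑ j, ‖γ j‖ ^ 2 = n1 ^ 2 / c1 := by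
      rw [hγ2]
      field_simp
    rw [e1, e2, hA, div_pow, mul_pow, Real.sq_sqrt hc1p.le]
    field_simp
  have hβ16 : ∑ j, ‖β j‖ ^ 2 ≤ 1 / 16 := by
    rw [hβ2]
    calc ρ1 ^ 2 ≤ (1 / 4) ^ 2 := pow_le_pow_left₀ hρ1p.le hρ1b 2
      _ = 1 / 16 := by norm_num
  have hβρ : ‖((s : ℂ) • β)‖ < ρ := by
    have e1 : ‖β‖ ≤ ρ1 := by
      refine (pi_norm_le_iff_of_nonneg hρ1p.le).2 fun j => ?_
      have e2 : ‖β j‖ ^ 2 ≤ ρ1 ^ 2 := by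
        rw [← hβ2]
        exact Finset.single_le_sum (f := fun j => ‖β j‖ ^ 2) (fun i _ => sq_nonneg _)
          (Finset.mem_univ j)
      exact (sq_le_sq₀ (norm_nonneg _) hρ1p.le).1 e2
    rw [norm_smul, Complex.norm_real, Real.norm_eq_abs, abs_of_pos hsp]
    calc s * ‖β‖ ≤ 1 * ρ1 := mul_le_mul hs1 e1 (norm_nonneg _) zero_le_one
      _ < ρ := by rw [one_mul]; exact hρ1a
  obtain ⟨p, hp, hpb⟩ := hsurj _ hβρ
  set g : ExpSpan d := ⟨expo p.1 p.2, U_expo_mem _ _ (hF p hp)⟩ with hg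
  have hnear := hn p hp g rfl
  rw [hpb] at hnear
  have hM : ‖inner ℂ (U_S g) (U_S f)‖ ^ 2 ≤ ((y ^ 2 + s ^ 2) / (kap d * 4 ^ nu d)) * ‖U_S g‖ ^ 2 := by
    have := hsup g ⟨p.1, p.2, hF p hp, rfl⟩
    rw [div_mul_eq_mul_div, le_div_iff₀ hK]
    linarith
  obtain ⟨b, hb1, hb2⟩ := O_pair f g r β _ s hsp.le hs1 hβ16 hnear _ hM (by positivity)
  have hsm : Summable fun l => (cw d l)⁻¹ * ‖U_Z l β‖ ^ 2 := U_Z_summable β hβ16
  have hse : Summable fun l => (cw d l)⁻¹ * ‖U_P l (U_F f)‖ ^ 2 := (U_energy f).1.summable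
  have hQ : ∑' l, O_m f β l ≤ Q0 := by
    have e1 : ∑' l, O_m f β l = (∑' l, (cw d l)⁻¹ * ‖U_Z l β‖ ^ 2 +
        ∑' l, (cw d l)⁻¹ * ‖U_P l (U_F f)‖ ^ 2) / 2 := by
      unfold O_m
      rw [tsum_div_const, hsm.tsum_add hse]
    rw [e1, (U_energy f).1.tsum_eq, hQ0]
    have := hDb β hβ16
    linarith
  have ha0 : O_a f β 0 = x0 := rfl
  have ha1 : O_a f β 1 = (((cw d 1)⁻¹ * A * n1 ^ 2 : ℝ) : ℂ) * (x0 / y) := by
    have e2 : inner ℂ (U_P 1 (U_F f)) (U_P 1 (U_F f)) = ((n1 ^ 2 : ℝ) : ℂ) := by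
      rw [inner_self_eq_norm_sq_to_K]
      push_cast
      rfl
    unfold O_a
    rw [hβdef]
    have e3 : U_Z 1 (a • γ) = a • U_P 1 (U_F f) := by rw [O_Z_smul, pow_one, hγ]
    rw [e3, inner_smul_left, e2, ha, map_mul, Complex.conj_conj, Complex.conj_ofReal]
    push_cast
    ring
  set t : ℝ := (cw d 1)⁻¹ * A * n1 ^ 2 with ht
  have htp : 0 ≤ t := mul_nonneg (mul_nonneg (inv_nonneg.2 (U_cw_pos d 1).le) hAp.le) (sq_nonneg _)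
  have hsum : O_a f β 0 + s * O_a f β 1 = ((y + s * t : ℝ) : ℂ) * (x0 / y) := by
    rw [ha0, ha1]
    have hy' : (y : ℂ) ≠ 0 := by exact_mod_cast hyp.ne'
    have e : (y : ℂ) * (x0 / y) = x0 := mul_div_cancel₀ _ hy'
    calc x0 + (s : ℂ) * ((t : ℂ) * (x0 / y)) =
        (y : ℂ) * (x0 / y) + (s : ℂ) * ((t : ℂ) * (x0 / y)) := by rw [e]
      _ = _ := by push_cast; ring
  have hnorm : ‖O_a f β 0 + s * O_a f β 1‖ = y + s * t := by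
    rw [hsum, norm_mul, hun, Complex.norm_real, Real.norm_eq_abs, abs_of_pos (by positivity), mul_one]
  have h1 : y + s * t ≤ ‖b‖ + s ^ 2 * Q0 := by
    have e1 : ‖O_a f β 0 + s * O_a f β 1‖ ≤ ‖b‖ + ‖b - (O_a f β 0 + s * O_a f β 1)‖ := by
      have := norm_sub_norm_le (O_a f β 0 + s * O_a f β 1) b
      rw [norm_sub_rev] at this
      linarith
    have e2 : s ^ 2 * ∑' l, O_m f β l ≤ s ^ 2 * Q0 := mul_le_mul_of_nonneg_left hQ (by positivity)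
    linarith
  have h2 : ‖b‖ ^ 2 ≤ (y ^ 2 + s ^ 2) * (1 + s ^ 2 * D0) := by
    have e1 : kap d * 4 ^ nu d * ((y ^ 2 + s ^ 2) / (kap d * 4 ^ nu d)) = y ^ 2 + s ^ 2 :=
      mul_div_cancel₀ _ hK.ne'
    rw [e1] at hb2
    refine hb2.trans (mul_le_mul_of_nonneg_left ?_ (by positivity))
    have := mul_le_mul_of_nonneg_left (hDb β hβ16) (sq_nonneg s)
    linarith
  have hyE : y ^ 2 ≤ E := by
    have e1 := (U_energy f).1
    have e2 : (cw d 0)⁻¹ * ‖U_P 0 (U_F f)‖ ^ 2 ≤ kap d * 4 ^ nu d * ‖U_S f‖ ^ 2 :=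
      le_hasSum e1 0 fun l _ => mul_nonneg (inv_nonneg.2 (U_cw_pos d l).le) (sq_nonneg _)
    rw [O_cw_zero, inv_one, one_mul] at e2
    exact e2.trans hfE
  have h3 : t ≤ s * Q1 := by
    by_cases hw : s * t - s ^ 2 * Q0 ≤ 0
    · have e1 : t ≤ s * Q0 := by
        have : s * t ≤ s * (s * Q0) := by linarith [hw, (by ring : s ^ 2 * Q0 = s * (s * Q0))]
        exact le_of_mul_le_mul_left this hsp
      have e2 : Q0 ≤ Q1 := by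
        rw [hQ1]
        have : 0 ≤ (1 + D0 * (E + 1)) / (2 * y0) := by positivity
        linarith
      exact e1.trans (mul_le_mul_of_nonneg_left e2 hsp.le)
    · push Not at hw
      set W := s * t - s ^ 2 * Q0 with hW
      have e1 : y + W ≤ ‖b‖ := by rw [hW]; linarith
      have e2 : (y + W) ^ 2 ≤ ‖b‖ ^ 2 := by
        refine pow_le_pow_left₀ (by linarith) e1 2
      have e3 : 2 * y * W ≤ s ^ 2 + s ^ 2 * D0 * (y ^ 2 + s ^ 2) := by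
        have e30 := e2.trans h2
        have e31 : (y + W) ^ 2 = y ^ 2 + 2 * y * W + W ^ 2 := by ring
        have e32 : (y ^ 2 + s ^ 2) * (1 + s ^ 2 * D0) =
            y ^ 2 + s ^ 2 + s ^ 2 * D0 * (y ^ 2 + s ^ 2) := by ring
        have e33 := sq_nonneg W
        rw [e31, e32] at e30
        linarith
      have e4 : s ^ 2 ≤ 1 := pow_le_one₀ hsp.le hs1
      have e5 : s ^ 2 + s ^ 2 * D0 * (y ^ 2 + s ^ 2) ≤ s ^ 2 * (1 + D0 * (E + 1)) := by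
        have : s ^ 2 * D0 * (y ^ 2 + s ^ 2) ≤ s ^ 2 * D0 * (E + 1) :=
          mul_le_mul_of_nonneg_left (by linarith) (by positivity)
        have e50 : s ^ 2 * (1 + D0 * (E + 1)) = s ^ 2 + s ^ 2 * D0 * (E + 1) := by ring
        rw [e50]
        linarith
      have e6 : 2 * y0 * W ≤ s ^ 2 * (1 + D0 * (E + 1)) := by
        have : 2 * y0 * W ≤ 2 * y * W := mul_le_mul_of_nonneg_right (by linarith) hw.le
        linarith
      have e7 : W ≤ s ^ 2 * ((1 + D0 * (E + 1)) / (2 * y0)) := by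
        rw [← mul_div_assoc, le_div_iff₀ (by positivity)]
        linarith
      have e8 : s * t ≤ s * (s * Q1) := by
        rw [hQ1]
        have : s * t = W + s ^ 2 * Q0 := by rw [hW]; ring
        rw [this]
        calc _ ≤ s ^ 2 * ((1 + D0 * (E + 1)) / (2 * y0)) + s ^ 2 * Q0 := by linarith
          _ = _ := by ring
      exact le_of_mul_le_mul_left e8 hsp
  have h4 : ρ1 * √c1 * n1 ≤ t := by
    have e1 : A * n1 ^ 2 = ρ1 * √c1 * n1 := by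
      rw [hA]
      field_simp
    have e2 : t = (cw d 1)⁻¹ * (ρ1 * √c1 * n1) := by rw [ht, mul_assoc, e1]
    have e3 : 1 ≤ (cw d 1)⁻¹ := (one_le_inv₀ (U_cw_pos d 1)).2 (U_cw_le d 1)
    rw [e2]
    have e4 : 0 ≤ ρ1 * √c1 * n1 := by positivity
    calc ρ1 * √c1 * n1 = 1 * (ρ1 * √c1 * n1) := (one_mul _).symm
      _ ≤ _ := mul_le_mul_of_nonneg_right e3 e4
  have h5 : ρ1 * √c1 * n1 ≤ ρ1 * √c1 * ε := by
    calc _ ≤ t := h4
      _ ≤ s * Q1 := h3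
      _ ≤ s * (Q1 + 1) := mul_le_mul_of_nonneg_left (by linarith) hsp.le
      _ ≤ ε * (ρ1 * √c1) := hs2
      _ = _ := by ring
  exact le_of_mul_le_mul_left h5 (by positivity)

end Pool.Agent.ConeG
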