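import Pool.Agent.Work.MP_b0b133_an.G.P0

/-!
# The polynomial world, dimension `d`: raising operators, rotation fields, `|H|² + |v|²`
-/

set_option autoImplicit false
open MeasureTheory Complex
open scoped ENNReal ComplexConjugate

namespace Pool.Agent.ConeG

variable {d : ℕ}

/-- `∑ X_j²` -/
noncomputable def sqP : Poly d := ∑ j, MvPolynomial.X j ^ 2

/-- the raising operators: `R_j ψ = 2 X_j A ψ - (∑ X²) ∂_j ψ` -/
noncomputable def RP (j : Fin (d + 1)) (P : Poly d) : Poly d :=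
  (2 : ℂ) • (MvPolynomial.X j * AP P) - sqP * MvPolynomial.pderiv j P

/-- the rotation fields -/
noncomputable def LP (i j : Fin (d + 1)) (P : Poly d) : Poly d :=
  MvPolynomial.X i * MvPolynomial.pderiv j P - MvPolynomial.X j * MvPolynomial.pderiv i P

/-- `|H|² + |v|²`, where `F = A ψ`, `H = ν ψ`, `v_ij = L_ij ψ` -/
noncomputable def G2 (ψ : Poly d) (x : CC d) : ℝ :=
  ‖(nu d : ℂ) * ev ψ x‖ ^ 2 + 1 / 2 * ∑ i, ∑ j, ‖ev (LP i j ψ) x‖ ^ 2

/-- `E[x²] = ⟨F, H⟩` where `F = A ψ`, `H = ν ψ` -/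
noncomputable def X2 (μ : Measure (CC d)) (ψ : Poly d) : ℝ :=
  (∫ x, conj (ev (AP ψ) x) * ((nu d : ℂ) * ev ψ x) ∂μ).re

end Pool.Agent.ConeG
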