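import Pool.Agent.Work.MP_b0b133_an.G.Defs

/-!
# Definitions of the ladder maps and of the zonal polynomials
-/

set_option autoImplicit false
open MeasureTheory Complex
open scoped ENNReal ComplexConjugate

namespace Pool.Agent.ConeG

variable {d : ℕ}

open MvPolynomial in
/-- harmonic part of `x_j P` for `P` harmonic homogeneous of degree `l` -/
noncomputable def up (l : ℕ) (j : Fin (d + 1)) (P : MvPolynomial (Fin (d + 1)) ℂ) :
    MvPolynomial (Fin (d + 1)) ℂ :=
  MvPolynomial.X j * P -
    C (1 / (2 * l + (d - 1)) : ℂ) * ((∑ k, MvPolynomial.X k ^ 2) * pderiv j P)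

open MvPolynomial in
/-- zonal polynomials: `zon l β = K_l (·, β)` -/
noncomputable def zon : ℕ → (Fin (d + 1) → ℂ) → MvPolynomial (Fin (d + 1)) ℂ
  | 0, _ => 1
  | l + 1, β => C ((2 * l + (d - 1)) / (l + 1) : ℂ) * ∑ j, C (β j) * up l j (zon l β)

end Pool.Agent.ConeG
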