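import Pool.Agent.Work.MP_b0b133_an.G.L
import Pool.Agent.Work.MP_b0b133_an.G.LawX

/-!
# The energy of a harmonic polynomial as a sum over its homogeneous components
-/

set_option autoImplicit false
set_option linter.unusedVariables false
open MeasureTheory Complex MvPolynomial
open scoped ENNReal ComplexConjugate

namespace Pool.Agent.ConeG

variable {d : ℕ}

theorem PE_pderiv_hc (j : Fin (d + 1)) (n : ℕ) (P : Poly d) :
    pderiv j (homogeneousComponent (n + 1) P) = homogeneousComponent n (pderiv j P) := by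
  ext m
  rw [coeff_pderiv, coeff_homogeneousComponent, coeff_homogeneousComponent, coeff_pderiv]
  have h1 : (m + Finsupp.single j 1).degree = m.degree + 1 := by
    rw [map_add, Finsupp.degree_single]
  rw [h1]
  by_cases h : m.degree = n
  · rw [if_pos h, if_pos (by rw [h])]
  · rw [if_neg h, if_neg (fun h2 => h (by omega)), zero_mul]

theorem PE_pderiv_hc_zero (j : Fin (d + 1)) (P : Poly d) :
    pderiv j (homogeneousComponent 0 P) = 0 := by
  rw [homogeneousComponent_zero, pderiv_C]

theorem PE_mem_HP {P : Poly d} : P ∈ HP d ↔ ∑ j, pderiv j (pderiv j P) = 0 := Iff.rfl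

theorem PE_hc_HP (n : ℕ) {P : Poly d} (h : P ∈ HP d) : homogeneousComponent n P ∈ HP d := by
  rw [PE_mem_HP] at *
  rcases n with _ | _ | n
  · exact Finset.sum_eq_zero fun j _ => by rw [PE_pderiv_hc_zero, map_zero]
  · exact Finset.sum_eq_zero fun j _ => by rw [PE_pderiv_hc, PE_pderiv_hc_zero]
  · have e : ∑ j, pderiv j (pderiv j (homogeneousComponent (n + 2) P)) =
        homogeneousComponent n (∑ j, pderiv j (pderiv j P)) := by
      rw [map_sum]
      exact Finset.sum_congr rfl fun j _ => by rw [PE_pderiv_hc, PE_pderiv_hc]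
    rw [e, h, map_zero]

theorem PE_hc (n : ℕ) {P : Poly d} (h : P ∈ HP d) : homogeneousComponent n P ∈ Harm d n :=
  ⟨homogeneousComponent_isHomogeneous n P, PE_hc_HP n h⟩

theorem PE_Harm_HP (n : ℕ) {P : Poly d} (h : P ∈ Harm d n) : P ∈ HP d := h.2

theorem PE_AP_hom {l : ℕ} {P : Poly d} (h : P.IsHomogeneous l) :
    AP P = ((l : ℂ) + nu d) • P := by
  unfold AP NP
  rw [h.sum_X_mul_pderiv, ← Nat.cast_smul_eq_nsmul ℂ, add_smul]

theorem PE_AP_add (P Q : Poly d) : AP (P + Q) = AP P + AP Q := by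
  unfold AP NP
  simp only [map_add, mul_add, Finset.sum_add_distrib, smul_add]
  abel

theorem PE_AP_smul (c : ℂ) (P : Poly d) : AP (c • P) = c • AP P := by
  unfold AP NP
  have : ∀ j : Fin (d + 1), pderiv j (c • P) = c • pderiv j P := fun j => by
    rw [Derivation.map_smul]
  simp only [this, smul_add, Finset.smul_sum, mul_smul_comm]
  rw [smul_comm]

theorem PE_AP_zero : AP (0 : Poly d) = 0 := by
  have := PE_AP_smul (d := d) 0 0
  simpa using this

theorem PE_AP_sum {ι : Type*} (s : Finset ι) (P : ι → Poly d) :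
    AP (∑ i ∈ s, P i) = ∑ i ∈ s, AP (P i) := by
  classical
  induction s using Finset.induction_on with
  | empty => simp [PE_AP_zero]
  | insert i s hi ih => rw [Finset.sum_insert hi, Finset.sum_insert hi, PE_AP_add, ih]

theorem PE_AP (P : Poly d) : AP P = ∑ l ∈ Finset.range (P.totalDegree + 1),
    ((l : ℂ) + nu d) • homogeneousComponent l P := by
  conv_lhs => rw [← sum_homogeneousComponent P, PE_AP_sum]
  exact Finset.sum_congr rfl fun l _ => PE_AP_hom (homogeneousComponent_isHomogeneous l P)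

theorem evX_add (P Q : Poly d) (a : Rs d) : evX (P + Q) a = evX P a + evX Q a := by
  simp [evX]

theorem evX_smul (c : ℂ) (P : Poly d) (a : Rs d) : evX (c • P) a = c * evX P a := by
  simp [evX, MvPolynomial.smul_eval]

theorem evX_sum {ι : Type*} (s : Finset ι) (P : ι → Poly d) (a : Rs d) :
    evX (∑ i ∈ s, P i) a = ∑ i ∈ s, evX (P i) a := by
  simp [evX, map_sum]

theorem PE_cont_ev (P : Poly d) : Continuous (ev P) := MvPolynomial.continuous_eval P

theorem cw_inv_eq [Fact (2 ≤ d)] (l : ℕ) : (cw d l)⁻¹ = (nu d)⁻¹ * ((l : ℝ) + nu d) := by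
  unfold cw
  rw [inv_div, div_eq_inv_mul]

/-- the energy, level by level -/
theorem PE_En [Fact (2 ≤ d)] {P : Poly d} (h : P ∈ HP d) :
    En (muX d) P = ∑ l ∈ Finset.range (P.totalDegree + 1),
      (cw d l)⁻¹ * ∫ a, ‖evX (homogeneousComponent l P) a‖ ^ 2 ∂(mM d) := by
  set N := P.totalDegree + 1 with hN
  set Q : ℕ → Poly d := fun l => homogeneousComponent l P with hQ
  have hev : ∀ a, evX P a = ∑ l ∈ Finset.range N, evX (Q l) a := fun a => by
    rw [← evX_sum, hN, sum_homogeneousComponent]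
  have hAP : ∀ a, evX (AP P) a = ∑ l ∈ Finset.range N, ((l : ℂ) + nu d) * evX (Q l) a := fun a => by
    rw [PE_AP, evX_sum]
    exact Finset.sum_congr rfl fun l _ => evX_smul _ _ _
  have h1 : ∫ x, conj (ev P x) * ev (AP P) x ∂(muX d) =
      ∫ a, conj (evX P a) * evX (AP P) a ∂(mM d) :=
    LX_integral (fun x => conj (ev P x) * ev (AP P) x)
      ((PE_cont_ev P).star.mul (PE_cont_ev (AP P)))
  have hint : ∀ l k, Integrable (fun a => evX (Q l) a * conj (evX (Q k) a)) (mM d) := fun l k =>
    ((L_CX_evX (Q l)).mul (L_CX_evX (Q k)).conj).int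
  have h2 : ∫ a, conj (evX P a) * evX (AP P) a ∂(mM d) =
      ∑ l ∈ Finset.range N, ((l : ℂ) + nu d) * ((∫ a, ‖evX (Q l) a‖ ^ 2 ∂(mM d) : ℝ) : ℂ) := by
    have e1 : ∀ a, conj (evX P a) * evX (AP P) a = ∑ l ∈ Finset.range N, ∑ k ∈ Finset.range N,
        ((l : ℂ) + nu d) * (evX (Q l) a * conj (evX (Q k) a)) := fun a => by
      rw [hAP, hev, map_sum, Finset.mul_sum]
      refine Finset.sum_congr rfl fun l _ => ?_
      rw [Finset.sum_mul]
      exact Finset.sum_congr rfl fun k _ => by ring
    simp only [e1]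
    rw [integral_finsetSum _ fun l _ => integrable_finsetSum _ fun k _ =>
      (hint l k).const_mul _]
    refine Finset.sum_congr rfl fun l hl => ?_
    rw [integral_finsetSum _ fun k _ => (hint l k).const_mul _, Finset.sum_eq_single l]
    · rw [integral_const_mul, L_normsq]
    · intro k _ hk
      rw [integral_const_mul, evX_orth l k (Ne.symm hk) _ _ (PE_hc l h) (PE_hc k h), mul_zero]
    · intro h; exact absurd hl h
  unfold En EB
  rw [h1, h2, Complex.re_sum, Finset.mul_sum]
  refine Finset.sum_congr rfl fun l _ => ?_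
  rw [cw_inv_eq, mul_assoc]
  congr 1
  rw [← Complex.ofReal_natCast, ← Complex.ofReal_add, ← Complex.ofReal_mul, Complex.ofReal_re]

end Pool.Agent.ConeG
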