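import Pool.Agent.Work.MP_b0b133_an.G.U5
import Pool.Agent.Work.MP_b0b133_an.G.Fin1
import Pool.Agent.Work.MP_b0b133_an.G.PolyE
import Pool.Agent.Work.MP_b0b133_an.G.GCont

/-!
# Profiles

`Th : L²(σ) → L²(mM)` extends `f ↦ toM (coneExt f)`; the energy of `Th g` is `kE ‖g‖²`, and the
polynomials are in the range.
-/

set_option autoImplicit false
set_option linter.unusedVariables false
open MeasureTheory Complex Filter
open scoped ENNReal ComplexConjugate Topology

namespace Pool.Agent.ConeG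

variable {d : ℕ} [Fact (2 ≤ d)]

local instance : IsProbabilityMeasure (mM d) := mM_prob

/-- the constant of the energy -/
noncomputable def kE (d : ℕ) : ℝ := kap d * 4 ^ nu d

theorem kE_pos : 0 < kE d := mul_pos (kap_pos (d := d)) (Real.rpow_pos_of_pos (by norm_num) _)

theorem G_denseRange : DenseRange (U_S (d := d)) := by
  refine (Z_D0_dense (d := d)).mono ?_
  rintro f ⟨g, hg, h⟩
  exact ⟨⟨g, hg⟩, Lp.ext ((U_S_coe _).trans h.symm)⟩

/-- the extension of `f ↦ toM (coneExt f)` -/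
noncomputable def Th : Lp ℂ 2 (sig d) →L[ℂ] Lp ℂ 2 (mM d) := (U_F (d := d)).extendOfNorm U_S

theorem Th_S (f : ExpSpan d) : Th (U_S f) = U_F f := by
  obtain ⟨C, -, hC⟩ := U_F_le (d := d)
  exact LinearMap.extendOfNorm_eq G_denseRange ⟨C, hC⟩ f

theorem Th_seq (g : Lp ℂ 2 (sig d)) : ∃ f : ℕ → ExpSpan d,
    Tendsto (fun n => U_S (f n)) atTop (𝓝 g) := by
  have h := mem_closure_iff_seq_limit.1 (G_denseRange (d := d) g)
  obtain ⟨x, hx, hlim⟩ := h
  choose f hf using hx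
  exact ⟨f, by simpa only [hf] using hlim⟩

theorem Th_le (g : Lp ℂ 2 (sig d)) (s : Finset ℕ) :
    ∑ l ∈ s, (cw d l)⁻¹ * ‖U_P l (Th g)‖ ^ 2 ≤ kE d * ‖g‖ ^ 2 := by
  refine G_denseRange.induction_on (p := fun g =>
    ∑ l ∈ s, (cw d l)⁻¹ * ‖U_P l (Th g)‖ ^ 2 ≤ kE d * ‖g‖ ^ 2) g ?_ ?_
  · refine isClosed_le ?_ ?_
    · refine continuous_finsetSum _ fun l _ => continuous_const.mul ?_
      exact (((U_P l).continuous.comp (Th (d := d)).continuous).norm).pow 2
    · exact continuous_const.mul (continuous_norm.pow 2)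
  · intro f
    rw [Th_S]
    exact sum_le_hasSum s (fun l _ => mul_nonneg (U_wn l) (sq_nonneg _)) (U_energy f).1

theorem Th_energy (g : Lp ℂ 2 (sig d)) :
    HasSum (fun l => (cw d l)⁻¹ * ‖U_P l (Th g)‖ ^ 2) (kE d * ‖g‖ ^ 2) ∧
    HasSum (fun l => ‖U_P l (Th g)‖ ^ 2) (‖Th g‖ ^ 2) := by
  obtain ⟨f, hf⟩ := Th_seq g
  have hF : Tendsto (fun n => U_F (f n)) atTop (𝓝 (Th g)) := by
    have := ((Th (d := d)).continuous.tendsto g).comp hf
    simpa only [Function.comp_def, Th_S] using this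
  have hP : ∀ l, Tendsto (fun n => U_P l (U_F (f n))) atTop (𝓝 (U_P l (Th g))) := fun l =>
    ((U_P l).continuous.tendsto _).comp hF
  have hd : Tendsto (fun n => ‖g - U_S (f n)‖) atTop (𝓝 0) := by
    have := (tendsto_const_nhds (x := g)).sub hf
    rw [sub_self] at this
    simpa using this.norm
  have hdF : Tendsto (fun n => ‖Th g - U_F (f n)‖) atTop (𝓝 0) := by
    have := (tendsto_const_nhds (x := Th g)).sub hF
    rw [sub_self] at this
    simpa using this.norm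
  constructor
  · refine U_dens2 (fun l => (cw d l)⁻¹) U_wn (fun l => U_P l (Th g))
      (fun n l => U_P l (U_F (f n))) (fun n => kE d * ‖U_S (f n)‖ ^ 2) _
      (fun n => (U_energy (f n)).1) ((hf.norm.pow 2).const_mul _) hP
      (fun n => kE d * ‖g - U_S (f n)‖ ^ 2) ?_ ?_
    · have := (hd.pow 2).const_mul (kE d)
      simpa using this
    · intro n s
      have := Th_le (g - U_S (f n)) s
      simpa only [map_sub, Th_S] using this
  · have h := U_dens2 (fun _ => 1) (fun _ => zero_le_one) (fun l => U_P l (Th g))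
      (fun n l => U_P l (U_F (f n))) (fun n => ‖U_F (f n)‖ ^ 2) (‖Th g‖ ^ 2)
      (fun n => by simpa using (U_energy (f n)).2) (hF.norm.pow 2) hP
      (fun n => ‖Th g - U_F (f n)‖ ^ 2) ?_ ?_
    · simpa using h
    · have := hdF.pow 2
      simpa using this
    · intro n s
      have := U_bessel (Th g - U_F (f n)) s
      simpa only [map_sub, one_mul] using this

/-! ### Polynomials -/

theorem G_inner_self {Ω : Type*} [MeasurableSpace Ω] {m : Measure Ω} (x : Lp ℂ 2 m) :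
    inner ℂ x x = ((‖x‖ ^ 2 : ℝ) : ℂ) := by
  rw [inner_self_eq_norm_sq_to_K]
  push_cast
  rfl

theorem U_ev_sum_hc (P : Poly d) : (U_ev P : Lp ℂ 2 (mM d)) =
    ∑ l ∈ Finset.range (P.totalDegree + 1), U_ev (MvPolynomial.homogeneousComponent l P) := by
  rw [← map_sum, MvPolynomial.sum_homogeneousComponent]

theorem U_ev_mem {P : Poly d} {l : ℕ} (h : P ∈ Harm d l) : U_ev P ∈ U_V (d := d) l := ⟨P, h, rfl⟩

theorem U_P_ev {P : Poly d} (h : P ∈ HP d) (k : ℕ) :
    U_P k (U_ev P) = U_ev (MvPolynomial.homogeneousComponent k P) := by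
  rw [U_ev_sum_hc, map_sum]
  by_cases hk : k ∈ Finset.range (P.totalDegree + 1)
  · rw [Finset.sum_eq_single k]
    · exact U_P_same k _ (U_ev_mem (PE_hc k h))
    · intro l _ hl
      exact U_P_other k l (Ne.symm hl) _ (U_ev_mem (PE_hc l h))
    · intro h'; exact absurd hk h'
  · rw [MvPolynomial.homogeneousComponent_eq_zero k P (by
      rw [Finset.mem_range, not_lt] at hk; omega), map_zero]
    refine Finset.sum_eq_zero fun l hl => ?_
    have : l ≠ k := fun e => hk (e ▸ hl)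
    exact U_P_other k l (Ne.symm this) _ (U_ev_mem (PE_hc l h))

theorem U_ev_normsq (P : Poly d) : ‖(U_ev P : Lp ℂ 2 (mM d))‖ ^ 2 = ∫ a, ‖evX P a‖ ^ 2 ∂(mM d) := by
  have h1 := U_ev_inner P P
  rw [G_inner_self] at h1
  have h2 := L_normsq (evX P)
  rw [← h2] at h1
  exact Complex.ofReal_injective h1

theorem En_hasSum {P : Poly d} (h : P ∈ HP d) :
    HasSum (fun l => (cw d l)⁻¹ * ‖U_P l (U_ev P)‖ ^ 2) (En (muX d) P) := by
  rw [PE_En h]
  have e : ∀ l, (cw d l)⁻¹ * ‖U_P l (U_ev P)‖ ^ 2 = (cw d l)⁻¹ *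
      ∫ a, ‖evX (MvPolynomial.homogeneousComponent l P) a‖ ^ 2 ∂(mM d) := fun l => by
    rw [U_P_ev h, U_ev_normsq]
  simp only [e]
  refine hasSum_sum_of_ne_finset_zero fun l hl => ?_
  rw [MvPolynomial.homogeneousComponent_eq_zero l P (by
      rw [Finset.mem_range, not_lt] at hl; omega)]
  simp [evX]

theorem U_ev_parseval {P : Poly d} (h : P ∈ HP d) :
    HasSum (fun l => ‖U_P l (U_ev P)‖ ^ 2) (‖(U_ev P : Lp ℂ 2 (mM d))‖ ^ 2) := by
  have e1 : ‖(U_ev P : Lp ℂ 2 (mM d))‖ ^ 2 =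
      ∑ l ∈ Finset.range (P.totalDegree + 1), ‖U_P l (U_ev P)‖ ^ 2 := by
    have e2 : inner ℂ (U_ev P : Lp ℂ 2 (mM d)) (U_ev P) =
        ∑ l ∈ Finset.range (P.totalDegree + 1), ((‖U_P l (U_ev P)‖ ^ 2 : ℝ) : ℂ) := by
      conv_lhs => rw [U_ev_sum_hc P, sum_inner]
      refine Finset.sum_congr rfl fun l _ => ?_
      rw [← U_ev_sum_hc P, ← U_P_inner l (U_ev P) _ (U_ev_mem (PE_hc l h)), U_P_ev h,
        G_inner_self]
    rw [G_inner_self, ← Complex.ofReal_sum] at e2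
    exact Complex.ofReal_injective e2
  rw [e1]
  refine hasSum_sum_of_ne_finset_zero fun l hl => ?_
  rw [U_P_ev h, MvPolynomial.homogeneousComponent_eq_zero l P (by
      rw [Finset.mem_range, not_lt] at hl; omega)]
  simp

theorem U_ev_app {P : Poly d} (h : P ∈ HP d) : U_ev P ∈ U_App (d := d) := by
  rw [U_ev_sum_hc]
  exact Submodule.sum_mem _ fun l _ => U_V_app l _ (U_ev_mem (PE_hc l h))

/-- two elements with the same projections, one of them a polynomial -/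
theorem Th_eq_ev {P : Poly d} (h : P ∈ HP d) (g : Lp ℂ 2 (sig d))
    (he : ∀ k, U_P k (Th g) = U_P k (U_ev P)) : Th g = U_ev P := by
  have h1 := (Th_energy g).2
  simp only [he] at h1
  have h2 := h1.unique (U_ev_parseval h)
  have h3 : inner ℂ (U_ev P) (Th g) = ((‖(U_ev P : Lp ℂ 2 (mM d))‖ ^ 2 : ℝ) : ℂ) := by
    have e1 : inner ℂ (U_ev P) (Th g) =
        ∑ l ∈ Finset.range (P.totalDegree + 1), inner ℂ
          (U_ev (MvPolynomial.homogeneousComponent l P)) (Th g) := by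
      rw [U_ev_sum_hc, sum_inner]
    have e2 : inner ℂ (U_ev P) (U_ev P : Lp ℂ 2 (mM d)) =
        ∑ l ∈ Finset.range (P.totalDegree + 1), inner ℂ
          (U_ev (MvPolynomial.homogeneousComponent l P)) (U_ev P : Lp ℂ 2 (mM d)) := by
      conv_lhs => rw [U_ev_sum_hc P, sum_inner]
      rw [← U_ev_sum_hc P]
    have e3 : inner ℂ (U_ev P) (Th g) = inner ℂ (U_ev P) (U_ev P : Lp ℂ 2 (mM d)) := by
      rw [e1, e2]
      refine Finset.sum_congr rfl fun l _ => ?_
      rw [← U_P_inner l (Th g) _ (U_ev_mem (PE_hc l h)), he,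
        U_P_inner l (U_ev P) _ (U_ev_mem (PE_hc l h))]
    rw [e3, G_inner_self]
  have h4 : ‖Th g - U_ev P‖ ^ 2 = 0 := by
    rw [@norm_sub_sq ℂ, h2, ← inner_conj_symm, h3, Complex.conj_ofReal]
    simp only [RCLike.re_to_complex, Complex.ofReal_re]
    ring
  exact sub_eq_zero.1 (norm_eq_zero.1 (pow_eq_zero_iff two_ne_zero |>.1 h4))

/-- the polynomials have profiles -/
theorem Th_surj {P : Poly d} (h : P ∈ HP d) : ∃ g, Th g = U_ev P := by
  have happ : U_app (U_ev P) := U_ev_app h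
  have h0 : ∀ n : ℕ, ∃ f : ExpSpan d, (Summable fun k => (cw d k)⁻¹ * ‖U_P k (U_F f - U_ev P)‖ ^ 2) ∧
      ∑' k, (cw d k)⁻¹ * ‖U_P k (U_F f - U_ev P)‖ ^ 2 < 1 / ((n : ℝ) + 1) :=
    fun n => happ _ (by positivity)
  choose f hfs hft using h0
  have hk := kE_pos (d := d)
  have hc : ∀ n m, kE d * ‖U_S (f n) - U_S (f m)‖ ^ 2 ≤
      2 * (1 / ((n : ℝ) + 1)) + 2 * (1 / ((m : ℝ) + 1)) := by
    intro n m
    have e1 : U_F (f n - f m) = (U_F (f n) - U_ev P) + -(U_F (f m) - U_ev P) := by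
      rw [map_sub]; abel
    have e2 : ∀ k, ‖U_P k (-(U_F (f m) - U_ev P))‖ = ‖U_P k (U_F (f m) - U_ev P)‖ := fun k => by
      rw [map_neg, norm_neg]
    have e3 := U_en_add (U_F (f n) - U_ev P) (-(U_F (f m) - U_ev P)) (hfs n) (by
      simpa only [e2] using hfs m)
    rw [← e1] at e3
    simp only [e2] at e3
    have e4 := (U_energy (f n - f m)).1.tsum_eq
    rw [e4, map_sub] at e3
    refine e3.2.trans ?_
    have := (hft n).le
    have := (hft m).le
    linarith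
  have hcau : CauchySeq fun n => U_S (f n) := by
    rw [Metric.cauchySeq_iff']
    intro ε hε
    obtain ⟨N, hN⟩ := exists_nat_one_div_lt (show 0 < kE d * ε ^ 2 / 4 by positivity)
    refine ⟨N, fun n hn => ?_⟩
    rw [dist_eq_norm]
    have h1 := hc n N
    have h2 : 1 / ((n : ℝ) + 1) ≤ 1 / ((N : ℝ) + 1) := by
      apply one_div_le_one_div_of_le (by positivity)
      have : (N : ℝ) ≤ n := by exact_mod_cast hn
      linarith
    have h3 : kE d * ‖U_S (f n) - U_S (f N)‖ ^ 2 < kE d * ε ^ 2 := by linarith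
    have h4 := lt_of_mul_lt_mul_left h3 hk.le
    exact lt_of_pow_lt_pow_left₀ 2 hε.le h4
  obtain ⟨g, hg⟩ := cauchySeq_tendsto_of_complete hcau
  refine ⟨g, Th_eq_ev h g fun k => ?_⟩
  have hF : Tendsto (fun n => U_P k (U_F (f n))) atTop (𝓝 (U_P k (Th g))) := by
    have := (((U_P k).comp (Th (d := d))).continuous.tendsto g).comp hg
    simpa only [Function.comp_def, ContinuousLinearMap.comp_apply, Th_S] using this
  have hF' : Tendsto (fun n => U_P k (U_F (f n))) atTop (𝓝 (U_P k (U_ev P))) := by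
    rw [tendsto_iff_norm_sub_tendsto_zero]
    have h1 : ∀ n, ‖U_P k (U_F (f n)) - U_P k (U_ev P)‖ ^ 2 ≤ 1 / ((n : ℝ) + 1) := by
      intro n
      rw [← map_sub]
      have e1 := (hfs n).le_tsum k fun j _ => mul_nonneg (U_wn j) (sq_nonneg _)
      have e2 : (1 : ℝ) ≤ (cw d k)⁻¹ := (one_le_inv₀ (U_cw_pos (d := d) k)).2 (U_cw_le (d := d) k)
      have e3 : ‖U_P k (U_F (f n) - U_ev P)‖ ^ 2 ≤ (cw d k)⁻¹ * ‖U_P k (U_F (f n) - U_ev P)‖ ^ 2 :=
        le_mul_of_one_le_left (sq_nonneg _) e2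
      linarith [(hft n).le]
    have h2 : Tendsto (fun n => ‖U_P k (U_F (f n)) - U_P k (U_ev P)‖ ^ 2) atTop (𝓝 0) :=
      squeeze_zero (fun n => sq_nonneg _) h1 tendsto_one_div_add_atTop_nhds_zero_nat
    have h3 := h2.sqrt
    simpa [Real.sqrt_sq (norm_nonneg _)] using h3
  exact tendsto_nhds_unique hF hF'

theorem En_of_Th {P : Poly d} (h : P ∈ HP d) (g : Lp ℂ 2 (sig d)) (hg : Th g = U_ev P) :
    En (muX d) P = kE d * ‖g‖ ^ 2 := by
  have h1 := (Th_energy g).1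
  rw [hg] at h1
  exact (En_hasSum h).unique h1

/-- the profiles of the polynomials -/
noncomputable def PProf (d : ℕ) [Fact (2 ≤ d)] : Submodule ℂ (Lp ℂ 2 (sig d)) :=
  ((HP d).map (U_ev (d := d))).comap (Th (d := d)).toLinearMap

theorem mem_PProf {g : Lp ℂ 2 (sig d)} : g ∈ PProf d ↔ ∃ P ∈ HP d, Th g = U_ev P := by
  unfold PProf
  rw [Submodule.mem_comap, Submodule.mem_map]
  exact ⟨fun ⟨P, h1, h2⟩ => ⟨P, h1, h2.symm⟩, fun ⟨P, h1, h2⟩ => ⟨P, h1, h2.symm⟩⟩

theorem PProf_dense : Dense (PProf d : Set (Lp ℂ 2 (sig d))) := by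
  intro g
  rw [Metric.mem_closure_iff]
  intro ε hε
  have hk := kE_pos (d := d)
  have h1 := (Th_energy g).1
  have h2 := h1.tendsto_sum_nat
  have h3 : ∀ᶠ N in atTop, kE d * ‖g‖ ^ 2 - kE d * ε ^ 2 <
      ∑ l ∈ Finset.range N, (cw d l)⁻¹ * ‖U_P l (Th g)‖ ^ 2 :=
    h2.eventually (lt_mem_nhds (by have : 0 < kE d * ε ^ 2 := by positivity
                                   linarith))
  obtain ⟨N, hN⟩ := h3.exists
  have h4 : ∀ l, ∃ p ∈ Harm d l, U_ev p = U_P l (Th g) := fun l => U_P_mem l (Th g)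
  choose p hp hpe using h4
  set P : Poly d := ∑ l ∈ Finset.range N, p l with hP
  have hPH : P ∈ HP d := Submodule.sum_mem _ fun l _ => PE_Harm_HP l (hp l)
  obtain ⟨g', hg'⟩ := Th_surj hPH
  refine ⟨g', mem_PProf.2 ⟨P, hPH, hg'⟩, ?_⟩
  have h5 : ∀ l, U_P l (Th g') = if l ∈ Finset.range N then U_P l (Th g) else 0 := by
    intro l
    rw [hg', hP, map_sum, map_sum]
    simp only [hpe]
    split_ifs with hl
    · rw [Finset.sum_eq_single l]
      · exact U_P_same l _ (U_P_mem l _)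
      · intro k _ hk
        exact U_P_other l k (Ne.symm hk) _ (U_P_mem k _)
      · intro h; exact absurd hl h
    · refine Finset.sum_eq_zero fun k hk => ?_
      have : k ≠ l := fun e => hl (e ▸ hk)
      exact U_P_other l k (Ne.symm this) _ (U_P_mem k _)
  have h6 := (Th_energy (g - g')).1
  have h7 : HasSum (fun l => (cw d l)⁻¹ * ‖U_P l (Th (g - g'))‖ ^ 2)
      (kE d * ‖g‖ ^ 2 - ∑ l ∈ Finset.range N, (cw d l)⁻¹ * ‖U_P l (Th g)‖ ^ 2) := by
    have e1 : HasSum (fun l => if l ∈ Finset.range N then (cw d l)⁻¹ * ‖U_P l (Th g)‖ ^ 2 else 0)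
        (∑ l ∈ Finset.range N, (cw d l)⁻¹ * ‖U_P l (Th g)‖ ^ 2) := by
      have e2 : ∑ l ∈ Finset.range N, (cw d l)⁻¹ * ‖U_P l (Th g)‖ ^ 2 = ∑ l ∈ Finset.range N,
          (if l ∈ Finset.range N then (cw d l)⁻¹ * ‖U_P l (Th g)‖ ^ 2 else 0) :=
        Finset.sum_congr rfl fun l hl => (if_pos hl).symm
      rw [e2]
      exact hasSum_sum_of_ne_finset_zero fun l hl => if_neg hl
    refine (h1.sub e1).congr_fun fun l => ?_
    rw [map_sub, map_sub, h5]
    split_ifs <;> simp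
  have h8 := h6.unique h7
  have h9 : kE d * ‖g - g'‖ ^ 2 < kE d * ε ^ 2 := by linarith
  have h10 := lt_of_mul_lt_mul_left h9 hk.le
  rw [dist_eq_norm]
  exact lt_of_pow_lt_pow_left₀ 2 hε.le h10

end Pool.Agent.ConeG
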