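import Pool.Agent.Work.MP_b0b133_an.G.STARa

/-!
# The end game with STAR, all dimensions `d ≥ 5`

* `STAR.star` : STAR at near maximisers, any frame
* `STAR.overlap` : near maximisers have overlap at most `r₁` with the constants
* `sharp_of_star` : `Sharp d` from a functional inequality with costs, the margin at level zero may
  be negative
-/

set_option autoImplicit false
open MeasureTheory Complex
open scoped ENNReal ComplexConjugate

namespace Pool.Agent.ConeG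

variable {d : ℕ} {μ : Measure (CC d)}

/-- the constant of the pointwise inequality behind STAR -/
structure StarC (q κ : ℝ) : Prop where
  le : q ≤ κ
  pt : ∀ t : ℝ, 0 ≤ t → q + (1 + q) * t - t ^ (1 + q) ≤ κ * (1 + t) ^ 2

/-- the constant of the overlap bound -/
def OvlC (d : ℕ) (κ r0 : ℝ) : Prop := ∀ r : ℝ, r0 ≤ r → r ≤ 1 →
  r ^ 2 + (2 * κ + (pe d - 2)) / 4 * (xl d 2 * (1 - r ^ 2)) ≤ r ^ (2 - (pe d - 2))

namespace STAR

theorem r_le_one [Fact (2 ≤ d)] (hμ : Law μ) {P : Poly d} (hE : En μ P = 1) : ‖ev P 0‖ ≤ 1 := by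
  have h := FING.r_le (nu_pos d) hμ P
  rw [hE] at h
  nlinarith [norm_nonneg (ev P 0)]

/-- STAR at near maximisers, in any frame -/
theorem star [Fact (2 ≤ d)] (hd : 3 ≤ d) (hμ : Law μ) (hq1 : pe d - 2 ≤ 1) {κ : ℝ}
    (hκ : StarC (pe d - 2) κ) {S : ℝ} (hS : 1 ≤ S) (hmax : Adm μ S) :
    ∃ C : ℝ, 0 ≤ C ∧ ∀ F ∈ HP d, ∀ ε : ℝ, 0 < ε → ε ≤ 1 → En μ F = 1 → S - ε ≤ Ip μ F →
      S * ‖ev F 0‖ ^ (2 - (pe d - 2)) ≤ ‖ev F 0‖ ^ 2 +
        (2 * κ + (pe d - 2)) / 4 * (∫ x, ‖ev F x‖ ^ 2 ∂μ - ‖ev F 0‖ ^ 2) +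
        C * ε ^ (1 / 2 : ℝ) := by
  have hq0 : 0 < pe d - 2 := SV.qq_pos d
  obtain ⟨C, hC, h⟩ := first_var hd hμ S hS hmax 1
  refine ⟨C, hC, fun F hF ε h0 h1 hE hI => ?_⟩
  obtain ⟨c, hc1, hc2⟩ := exists_phase (ev F 0)
  have h2 := h F hF (c • (1 : Poly d)) ((HP d).smul_mem _ FING.one_mem) ε h0 h1 hE
    (by rw [FING.En_const hμ, hc1]; norm_num) hI
  rw [FING.EB_const hμ, hc2, ofReal_re] at h2
  have h3 := star_int hμ hq0 hq1 hκ.le hκ.pt F c hc1 hc2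
  have h4 := (abs_le.1 h2).1
  set r := ‖ev F 0‖ with hr
  have hr0 : 0 ≤ r := norm_nonneg _
  have hr1 : r ≤ 1 := r_le_one hμ hE
  set A := (∫ x, ((‖ev F x‖ ^ (pe d - 2) : ℝ) : ℂ) * (conj (ev F x) * ev (c • (1 : Poly d)) x)
    ∂μ).re with hA
  have h5 : r ^ (1 - (pe d - 2)) * r = r ^ (2 - (pe d - 2)) := by
    rw [← Real.rpow_add_one' hr0 (by linarith)]
    congr 1
    ring
  have h6 : r ^ (1 - (pe d - 2)) ≤ 1 := Real.rpow_le_one hr0 hr1 (by linarith)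
  have h7 : 0 ≤ r ^ (1 - (pe d - 2)) := Real.rpow_nonneg hr0 _
  have h8 : 0 ≤ C * ε ^ (1 / 2 : ℝ) := mul_nonneg hC (Real.rpow_nonneg h0.le _)
  have h9 : r ^ (1 - (pe d - 2)) * (S * r - C * ε ^ (1 / 2 : ℝ)) ≤ r ^ (1 - (pe d - 2)) * A :=
    mul_le_mul_of_nonneg_left (by linarith) h7
  have h10 : r ^ (1 - (pe d - 2)) * (C * ε ^ (1 / 2 : ℝ)) ≤ 1 * (C * ε ^ (1 / 2 : ℝ)) :=
    mul_le_mul_of_nonneg_right h6 h8
  have h11 : r ^ (1 - (pe d - 2)) * (S * r - C * ε ^ (1 / 2 : ℝ)) =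
      S * (r ^ (1 - (pe d - 2)) * r) - r ^ (1 - (pe d - 2)) * (C * ε ^ (1 / 2 : ℝ)) := by ring
  rw [h5] at h11
  linarith

/-- the mass outside level zero, if the level one is small -/
theorem y1_le [Fact (2 ≤ d)] (hμ : Law μ) (P : Poly d) :
    ∫ x, ‖ev P x‖ ^ 2 ∂μ - ‖ev P 0‖ ^ 2 ≤ xl d 2 * (En μ P - ‖ev P 0‖ ^ 2) +
      ((nu d)⁻¹ * (1 + nu d)) * ∫ x, ‖ev (MvPolynomial.homogeneousComponent 1 P) x‖ ^ 2 ∂μ := by
  have hν := nu_pos d
  have hx : ∀ l, 2 ≤ l → xl d l ≤ xl d 2 := fun l hl => by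
    have hl' : (2 : ℝ) ≤ l := by exact_mod_cast hl
    unfold xl
    rw [Nat.cast_ofNat]
    exact div_le_div_of_nonneg_left hν.le (by positivity) (by linarith)
  have h := FING.Lev_split hν hμ (m := fun l => xl d 2 + (if l = 1 then 1 else 0) - xl d l)
    (α := 1 - xl d 2) (β := 0) (by
      simp only [FING.xl_zero hν]
      norm_num) (fun l hl => by
      rcases (by omega : l = 1 ∨ 2 ≤ l) with rfl | h2
      · have := FING.xl_le_one hν 1
        have := FING.xl_pos hν 2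
        simp only [if_true]
        linarith
      · have := hx l h2
        rw [if_neg (by omega)]
        linarith) P
  have e1 : Lev μ (fun l => xl d 2 + (if l = 1 then 1 else 0) - xl d l) P =
      xl d 2 * En μ P + Lev μ (fun l => if l = 1 then 1 else 0) P - ∫ x, ‖ev P x‖ ^ 2 ∂μ := by
    have e2 : Lev μ (fun l => xl d 2 + (if l = 1 then 1 else 0) - xl d l) P + Lev μ (xl d) P =
        xl d 2 * Lev μ (fun _ => 1) P + Lev μ (fun l => if l = 1 then 1 else 0) P := by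
      rw [← FING.Lev_smul, ← FING.Lev_add, ← FING.Lev_add]
      congr 1
      funext l
      ring
    rw [FING.Lev_x hν hμ, FING.Lev_one hμ] at e2
    linarith
  have e3 : Lev μ (fun l => if l = 1 then 1 else 0) P =
      ((nu d)⁻¹ * (1 + nu d)) * ∫ x, ‖ev (MvPolynomial.homogeneousComponent 1 P) x‖ ^ 2 ∂μ := by
    rw [FING.Lev_eq _ P (P.totalDegree + 2) (by omega), Finset.sum_eq_single 1]
    · rw [if_pos rfl, mul_one, Nat.cast_one]
      rfl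
    · intro l _ hl
      rw [if_neg hl, mul_zero, zero_mul]
    · intro h
      exact absurd (Finset.mem_range.2 (by omega)) h
  rw [e1, e3] at h
  linarith

/-- near maximisers of `S > 1` have overlap at most `r₁` with the constants -/
theorem overlap [Fact (2 ≤ d)] (hd : 3 ≤ d) (hμ : Law μ) (hC : Conf μ) (hq1 : pe d - 2 ≤ 1)
    {κ : ℝ} (hκ : StarC (pe d - 2) κ) {r0 r1 : ℝ} (h0 : 0 < r0) (h01 : r0 < r1)
    (hφ : OvlC d κ r0) {S : ℝ} (hS : 1 < S) (hmax : Adm μ S) :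
    ∃ ε₀ > 0, ∀ F ∈ HP d, En μ F = 1 → S - ε₀ ≤ Ip μ F → ‖ev F 0‖ ≤ r1 := by
  have hq0 : 0 < pe d - 2 := SV.qq_pos d
  have hν := nu_pos d
  obtain ⟨C, hC0, hst⟩ := star hd hμ hq1 hκ hS.le hmax
  set A := (2 * κ + (pe d - 2)) / 4 with hA
  have hA0 : 0 < A := by
    have := hκ.le
    rw [hA]
    linarith
  set c1 := (nu d)⁻¹ * (1 + nu d) with hc1
  have hc10 : 0 < c1 := by positivity
  set g := (S - 1) * r0 ^ (2 - (pe d - 2)) with hg
  have hg0 : 0 < g := mul_pos (by linarith) (Real.rpow_pos_of_pos h0 _)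
  set K := A * c1 + 2 * C + 1 with hK
  have hK0 : 0 < K := by positivity
  set t := min (1 / 2) (min (g / (2 * K)) (r1 - r0)) with ht
  have ht0 : 0 < t := lt_min (by norm_num) (lt_min (by positivity) (by linarith))
  have ht1 : t ≤ 1 / 2 := min_le_left _ _
  have ht2 : t ≤ g / (2 * K) := (min_le_right _ _).trans (min_le_left _ _)
  have ht3 : t ≤ r1 - r0 := (min_le_right _ _).trans (min_le_right _ _)
  have ht4 : t * K ≤ g / 2 := by
    have := (le_div_iff₀ (by positivity : (0 : ℝ) < 2 * K)).1 ht2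
    linarith
  refine ⟨t ^ 2, by positivity, fun F hF hE hI => ?_⟩
  obtain ⟨Q, hQ, hQE, hQI, hQ0, hQ1⟩ := hC.ovl F hF hE (t ^ 2) (by positivity)
  have h5 := hst Q hQ (2 * t ^ 2) (by positivity) (by nlinarith) hQE (by linarith)
  have h6 := y1_le hμ Q
  rw [hQE, ← hc1] at h6
  set r := ‖ev Q 0‖ with hr
  have hr0 : 0 ≤ r := norm_nonneg _
  have hr1 : r ≤ 1 := r_le_one hμ hQE
  have h7 : (2 * t ^ 2) ^ (1 / 2 : ℝ) ≤ 2 * t := by
    rw [← Real.sqrt_eq_rpow]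
    refine Real.sqrt_le_iff.2 ⟨by linarith, ?_⟩
    nlinarith
  have h8 : C * (2 * t ^ 2) ^ (1 / 2 : ℝ) ≤ C * (2 * t) := mul_le_mul_of_nonneg_left h7 hC0
  have htt : t ^ 2 ≤ t := by nlinarith
  have hrr : r < r0 := by
    by_contra hcon
    push Not at hcon
    have h9 := hφ r hcon hr1
    rw [← hA] at h9
    have h10 : c1 * ∫ x, ‖ev (MvPolynomial.homogeneousComponent 1 Q) x‖ ^ 2 ∂μ ≤ c1 * t :=
      mul_le_mul_of_nonneg_left (hQ1.trans htt) hc10.le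
    have h11 : A * (∫ x, ‖ev Q x‖ ^ 2 ∂μ - r ^ 2) ≤ A * (xl d 2 * (1 - r ^ 2) + c1 * t) :=
      mul_le_mul_of_nonneg_left (by linarith) hA0.le
    have h12 : r0 ^ (2 - (pe d - 2)) ≤ r ^ (2 - (pe d - 2)) :=
      Real.rpow_le_rpow h0.le hcon (by linarith)
    have h13 : g ≤ (S - 1) * r ^ (2 - (pe d - 2)) :=
      mul_le_mul_of_nonneg_left h12 (by linarith)
    have h14 : A * (xl d 2 * (1 - r ^ 2) + c1 * t) = A * (xl d 2 * (1 - r ^ 2)) + A * c1 * t := by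
      ring
    have h15 : (S - 1) * r ^ (2 - (pe d - 2)) = S * r ^ (2 - (pe d - 2)) -
        r ^ (2 - (pe d - 2)) := by ring
    have h16 : t * K = A * c1 * t + C * (2 * t) + t := by rw [hK]; ring
    linarith
  linarith

/-- a centred near maximiser is impossible if `S > 1` -/
theorem no_gap_star [Fact (2 ≤ d)] (hd : 3 ≤ d) (hμ : Law μ) (hC : Conf μ) (hq1 : pe d - 2 ≤ 1)
    {κ : ℝ} (hκ : StarC (pe d - 2) κ) {r0 r1 : ℝ} (h0 : 0 < r0) (h01 : r0 < r1) (h11 : r1 < 1)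
    (hφ : OvlC d κ r0) {S : ℝ} (hS : 1 < S) (hmax : Adm μ S)
    (hsup : ∀ ε > 0, ∃ P ∈ HP d, En μ P = 1 ∧ S - ε ≤ Ip μ P)
    {l1 l2 : ℝ} (hl1 : 0 ≤ l1) (hl2 : 0 ≤ l2) {m : ℕ → ℝ} {α β δ : ℝ} (hα : 0 ≤ α) (hβ : 0 ≤ β)
    (hδ : 0 < δ) (hαβ : α * r1 ^ (pe d - 2) * ((2 * κ + (pe d - 2)) / 4) ≤
      β * (1 - r1 ^ (pe d - 2)))
    (hm0 : 1 + l2 - α ≤ m 0)
    (hm : ∀ l, 1 ≤ l → (1 - (pe d - 2) + l1) + ((pe d - 2) - l1 + l2) * xl d l ^ 2 +
      β * xl d l + δ ≤ m l)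
    (hLB : NearLB μ S l1 l2 m) : False := by
  have hν := nu_pos d
  have hq0 : 0 < pe d - 2 := SV.qq_pos d
  set A := (2 * κ + (pe d - 2)) / 4 with hA
  have hA0 : 0 < A := by
    have := hκ.le
    rw [hA]
    linarith
  have hr1p : 0 < r1 := h0.trans h01
  set g := δ * (1 - r1 ^ 2) with hg
  have hg0 : 0 < g := mul_pos hδ (by nlinarith)
  set τ := g / 8 with hτ
  have hτ0 : 0 < τ := by positivity
  obtain ⟨ε1, hε1, h1⟩ := hLB τ hτ0
  obtain ⟨ε2, hε2, h2⟩ := overlap hd hμ hC hq1 hκ h0 h01 hφ hS hmax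
  obtain ⟨C, hC0, h3⟩ := FING.second_var_sum hd hμ hl1 hl2 S hS.le hmax
  obtain ⟨C', hC'0, h4⟩ := star hd hμ hq1 hκ hS.le hmax
  set p := min (pe d - 2) 1 / 4 with hp
  have hp0 : 0 < p := by
    rw [hp]
    have := lt_min hq0 one_pos
    linarith
  have hp1 : p ≤ 1 / 2 := by
    rw [hp]
    have := min_le_right (pe d - 2) 1
    linarith
  set K := C + β / A * C' + 1 with hK
  have hK0 : 0 < K := by positivity
  -- the scale
  set s := (τ / K) ^ (1 / p) with hs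
  have hs0 : 0 < s := Real.rpow_pos_of_pos (by positivity) _
  set ε := min (min ε1 ε2) (min 1 s) with hε
  have hε0 : 0 < ε := by positivity
  have he1 : ε ≤ ε1 := (min_le_left _ _).trans (min_le_left _ _)
  have he2 : ε ≤ ε2 := (min_le_left _ _).trans (min_le_right _ _)
  have he3 : ε ≤ 1 := (min_le_right _ _).trans (min_le_left _ _)
  have he4 : ε ≤ s := (min_le_right _ _).trans (min_le_right _ _)
  have hεp : ε ^ p ≤ τ / K := by
    calc ε ^ p ≤ s ^ p := Real.rpow_le_rpow hε0.le he4 hp0.le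
      _ = τ / K := by
        rw [hs, ← Real.rpow_mul (by positivity), one_div, inv_mul_cancel₀ hp0.ne', Real.rpow_one]
  have hεh : ε ^ (1 / 2 : ℝ) ≤ ε ^ p := Real.rpow_le_rpow_of_exponent_ge hε0 he3 hp1
  have hKε : K * ε ^ p ≤ τ := by
    have := mul_le_mul_of_nonneg_left hεp hK0.le
    rwa [mul_div_cancel₀ _ hK0.ne'] at this
  have hεp0 : 0 ≤ ε ^ p := Real.rpow_nonneg hε0.le _
  have hCε : C * ε ^ p ≤ τ := by
    have : C * ε ^ p ≤ K * ε ^ p := mul_le_mul_of_nonneg_right (by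
      have : 0 ≤ β / A * C' := by positivity
      linarith) hεp0
    linarith
  have hCε' : β / A * (C' * ε ^ (1 / 2 : ℝ)) ≤ τ := by
    have a1 : C' * ε ^ (1 / 2 : ℝ) ≤ C' * ε ^ p := mul_le_mul_of_nonneg_left hεh hC'0
    have a2 : β / A * (C' * ε ^ (1 / 2 : ℝ)) ≤ β / A * (C' * ε ^ p) :=
      mul_le_mul_of_nonneg_left a1 (by positivity)
    have a3 : β / A * (C' * ε ^ p) ≤ K * ε ^ p := by
      rw [← mul_assoc]
      exact mul_le_mul_of_nonneg_right (by linarith) hεp0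
    linarith
  obtain ⟨P, hP, hPE, hPI⟩ := hsup (ε / 2) (by positivity)
  obtain ⟨F, hF, hFE, hFI, hFc⟩ := hC.cent P hP hPE (ε / 2) (by positivity)
  have hFn : S - ε ≤ Ip μ F := by linarith
  obtain ⟨ψ, hψ, rfl⟩ := AP_surj hν F hF
  have a1 := h1 ψ hψ hFE (by linarith)
  have a2 := h2 (AP ψ) hF hFE (by linarith)
  have a3 := h3 ψ hψ ε hε0 he3 hFE hFn fun j => (hFc j).trans (by linarith)
  have a4 := h4 (AP ψ) hF ε hε0 he3 hFE hFn
  rw [← hA] at a4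
  set r := ‖ev (AP ψ) 0‖ with hr
  have hr0 : 0 ≤ r := norm_nonneg _
  set X1 := ∫ x, ‖ev (AP ψ) x‖ ^ 2 ∂μ with hX1
  -- the levels
  set a := 1 - (pe d - 2) + l1 with ha
  set b := (pe d - 2) - l1 + l2 with hb
  have hab : a + b = 1 + l2 := by rw [ha, hb]; ring
  have b1 := FING.Lev_split hν hμ (m := fun l => m l - (a + b * xl d l ^ 2) - β * xl d l)
    (α := α + β) (β := δ)
    (by
      simp only [FING.xl_zero hν]
      linarith) (fun l hl => by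
      have := hm l hl
      linarith) (AP ψ)
  have b2 : Lev μ (fun l => m l - (a + b * xl d l ^ 2) - β * xl d l) (AP ψ)
      = Lev μ m (AP ψ) - (a + b * X2 μ ψ) - β * X1 := by
    have e1 : Lev μ m (AP ψ) = Lev μ (fun l => m l - (a + b * xl d l ^ 2) - β * xl d l) (AP ψ) +
        (a * Lev μ (fun _ => 1) (AP ψ) + b * Lev μ (fun l => xl d l ^ 2) (AP ψ)) +
        β * Lev μ (xl d) (AP ψ) := by
      rw [← FING.Lev_smul, ← FING.Lev_smul, ← FING.Lev_smul, ← FING.Lev_add, ← FING.Lev_add,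
        ← FING.Lev_add]
      congr 1
      funext l
      ring
    rw [FING.Lev_one hμ, FING.Lev_x2 hν hμ, FING.Lev_x hν hμ, hFE] at e1
    linarith
  rw [b2, hFE] at b1
  -- STAR
  have c1 : r ^ (2 - (pe d - 2)) - r ^ 2 - C' * ε ^ (1 / 2 : ℝ) ≤ A * (X1 - r ^ 2) := by
    have : r ^ (2 - (pe d - 2)) ≤ S * r ^ (2 - (pe d - 2)) := by
      have := Real.rpow_nonneg hr0 (2 - (pe d - 2))
      nlinarith
    linarith
  have c2 : β / A * (r ^ (2 - (pe d - 2)) - r ^ 2) - τ ≤ β * (X1 - r ^ 2) := by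
    have := mul_le_mul_of_nonneg_left c1 (by positivity : 0 ≤ β / A)
    have e : β / A * (A * (X1 - r ^ 2)) = β * (X1 - r ^ 2) := by field_simp
    rw [e] at this
    linarith
  have c3 : α * r ^ 2 ≤ β / A * (r ^ (2 - (pe d - 2)) - r ^ 2) := by
    rw [div_mul_eq_mul_div, le_div_iff₀ hA0]
    have e1 : r ^ 2 = r ^ (2 - (pe d - 2)) * r ^ (pe d - 2) := by
      rcases hr0.eq_or_lt with h | h
      · rw [← h, Real.zero_rpow hq0.ne', mul_zero]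
        norm_num
      · rw [← Real.rpow_add h, sub_add_cancel, Real.rpow_two]
    have e2 : r ^ (pe d - 2) ≤ r1 ^ (pe d - 2) := Real.rpow_le_rpow hr0 a2 hq0.le
    have e3 : 0 ≤ r ^ (2 - (pe d - 2)) := Real.rpow_nonneg hr0 _
    rw [e1]
    set u := r ^ (2 - (pe d - 2))
    set v := r ^ (pe d - 2)
    set v1 := r1 ^ (pe d - 2)
    have e4 : α * v * A ≤ α * v1 * A :=
      mul_le_mul_of_nonneg_right (mul_le_mul_of_nonneg_left e2 hα) hA0.le
    have e5 : β * (1 - v1) ≤ β * (1 - v) := mul_le_mul_of_nonneg_left (by linarith) hβ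
    have e6 : u * (α * v * A) ≤ u * (β * (1 - v)) :=
      mul_le_mul_of_nonneg_left (by linarith) e3
    nlinarith
  have c4 : g ≤ δ * (1 - r ^ 2) := by
    rw [hg]
    exact mul_le_mul_of_nonneg_left (by nlinarith) hδ.le
  have b3 : g - τ ≤ Lev μ m (AP ψ) - (a + b * X2 μ ψ) := by
    have : δ * (1 - r ^ 2) - (α + β) * r ^ 2 + β * X1 ≤ Lev μ m (AP ψ) - (a + b * X2 μ ψ) := by
      linarith
    linarith
  have b5 : g - τ ≤ S * (Lev μ m (AP ψ) - (a + b * X2 μ ψ)) := by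
    have : 0 ≤ g - τ := by rw [hτ]; linarith
    nlinarith
  linarith

end STAR

/-- the sharp inequality for harmonic polynomials from a lower bound at near maximisers, with
STAR -/
theorem poly_of_star [Fact (2 ≤ d)] (hd : 3 ≤ d) (hμ : Law μ) (hC : Conf μ)
    (hq1 : pe d - 2 ≤ 1) {κ : ℝ} (hκ : StarC (pe d - 2) κ) {r0 r1 : ℝ} (h0 : 0 < r0)
    (h01 : r0 < r1) (h11 : r1 < 1) (hφ : OvlC d κ r0)
    {l1 l2 : ℝ} (hl1 : 0 ≤ l1) (hl2 : 0 ≤ l2) {m : ℕ → ℝ} {α β δ : ℝ} (hα : 0 ≤ α) (hβ : 0 ≤ β)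
    (hδ : 0 < δ) (hαβ : α * r1 ^ (pe d - 2) * ((2 * κ + (pe d - 2)) / 4) ≤
      β * (1 - r1 ^ (pe d - 2)))
    (hm0 : 1 + l2 - α ≤ m 0)
    (hm : ∀ l, 1 ≤ l → (1 - (pe d - 2) + l1) + ((pe d - 2) - l1 + l2) * xl d l ^ 2 +
      β * xl d l + δ ≤ m l)
    (hLB : ∀ S : ℝ, 1 < S → Adm μ S → NearLB μ S l1 l2 m)
    (P : Poly d) (h : P ∈ HP d) : Ip μ P ≤ En μ P ^ (pe d / 2) := by
  have hp := hμ.prob
  have hν := nu_pos d
  obtain ⟨C, hCC⟩ := hC.fin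
  set T : Set ℝ := {t | ∃ P ∈ HP d, En μ P = 1 ∧ Ip μ P = t} with hT
  have h1T : (1 : ℝ) ∈ T := by
    refine ⟨1, FING.one_mem, (EB_one hν hμ 1).2, ?_⟩
    unfold Ip
    simp [FING.ev_one]
  have hbdd : BddAbove T := by
    refine ⟨C, ?_⟩
    rintro t ⟨P, hP, hE, rfl⟩
    have := hCC P hP
    rwa [hE, Real.one_rpow, mul_one] at this
  set S := sSup T with hS
  have hS1 : 1 ≤ S := le_csSup hbdd h1T
  have hle : ∀ P ∈ HP d, En μ P = 1 → Ip μ P ≤ S := fun P hP hE =>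
    le_csSup hbdd ⟨P, hP, hE, rfl⟩
  have hmax : Adm μ S := fun P hP => FING.scale hμ ⟨C, hCC⟩ hle P hP
  have hS1' : S ≤ 1 := by
    by_contra hcon
    push Not at hcon
    refine STAR.no_gap_star hd hμ hC hq1 hκ h0 h01 h11 hφ hcon hmax (fun ε hε => ?_) hl1 hl2 hα hβ
      hδ hαβ hm0 hm (hLB S hcon hmax)
    obtain ⟨t, ⟨P, hP, hE, rfl⟩, ht⟩ := exists_lt_of_lt_csSup ⟨1, h1T⟩
      (show S - ε < sSup T by linarith)
    exact ⟨P, hP, hE, ht.le⟩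
  have h2 := FING.scale hμ ⟨C, hCC⟩ (fun P hP hE => (hle P hP hE).trans hS1') P h
  rwa [one_mul] at h2

/-- from a lower bound at near maximisers to `Sharp d`, with STAR -/
theorem sharp_of_near_star [Fact (2 ≤ d)] (hd : 3 ≤ d) (hq1 : pe d - 2 ≤ 1) {κ : ℝ}
    (hκ : StarC (pe d - 2) κ) {r0 r1 : ℝ} (h0 : 0 < r0) (h01 : r0 < r1) (h11 : r1 < 1)
    (hφ : OvlC d κ r0)
    {l1 l2 : ℝ} (hl1 : 0 ≤ l1) (hl2 : 0 ≤ l2) {m : ℕ → ℝ} {α β δ : ℝ} (hα : 0 ≤ α) (hβ : 0 ≤ β)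
    (hδ : 0 < δ) (hαβ : α * r1 ^ (pe d - 2) * ((2 * κ + (pe d - 2)) / 4) ≤
      β * (1 - r1 ^ (pe d - 2)))
    (hm0 : 1 + l2 - α ≤ m 0)
    (hm : ∀ l, 1 ≤ l → (1 - (pe d - 2) + l1) + ((pe d - 2) - l1 + l2) * xl d l ^ 2 +
      β * xl d l + δ ≤ m l)
    (hLB : ∀ S : ℝ, 1 < S → Adm (muX d) S → NearLB (muX d) S l1 l2 m) : Sharp d :=
  sharp_of_poly fun P hP => poly_of_star hd law_muX (conf_of_ovl (nearOvl d)) hq1 hκ h0 h01 h11 hφ
    hl1 hl2 hα hβ hδ hαβ hm0 hm hLB P hP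

/-- from the functional inequality with costs to `Sharp d`, with STAR -/
theorem sharp_of_star [Fact (2 ≤ d)] (hd : 3 ≤ d) (hq1 : pe d - 2 ≤ 1) {κ : ℝ}
    (hκ : StarC (pe d - 2) κ) {r0 r1 : ℝ} (h0 : 0 < r0) (h01 : r0 < r1) (h11 : r1 < 1)
    (hφ : OvlC d κ r0)
    {l1 l2 c a : ℝ} {k : ℕ → ℝ} (hl1 : 0 ≤ l1) (hl2 : 0 ≤ l2) (hc : 0 ≤ c) {α β δ : ℝ}
    (hα : 0 ≤ α) (hβ : 0 ≤ β)
    (hδ : 0 < δ) (hαβ : α * r1 ^ (pe d - 2) * ((2 * κ + (pe d - 2)) / 4) ≤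
      β * (1 - r1 ^ (pe d - 2)))
    (hm0 : 1 + l2 + k 0 ≤ c + a + α)
    (hm : ∀ l, 1 ≤ l → (1 - (pe d - 2) + l1) + ((pe d - 2) - l1 + l2) * xl d l ^ 2 +
      β * xl d l + δ + k l ≤ c + a * xl d l)
    (hG : FuncGC (muX d) l1 l2 c a k) : Sharp d := by
  have hν := nu_pos d
  refine sharp_of_near_star hd hq1 hκ h0 h01 h11 hφ hl1 hl2 hα hβ hδ hαβ
    (m := fun l => c + a * xl d l - k l) ?_ (fun l hl => ?_)
    fun S hS hmax => FING.nearLB_of_GC hd law_muX hS.le hmax hc hG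
  · simp only [FING.xl_zero hν]
    linarith
  · have := hm l hl
    linarith

end Pool.Agent.ConeG
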