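import Pool.Agent.Work.MP_b0b133_an.G.FING

/-!
# STAR : the first variation in the direction of the constants

* `point` : the pointwise inequality
* `star` : near maximisers, any frame
* `overlap` : near maximisers have small overlap with the constants
-/

set_option autoImplicit false
open MeasureTheory Complex
open scoped ENNReal ComplexConjugate

namespace Pool.Agent.ConeG

variable {d : ℕ} {μ : Measure (CC d)}

namespace STAR

/-- the pointwise inequality behind STAR -/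
theorem point {q κ : ℝ} (hq0 : 0 < q) (hq1 : q ≤ 1) (hκ : q ≤ κ)
    (ht : ∀ t : ℝ, 0 ≤ t → q + (1 + q) * t - t ^ (1 + q) ≤ κ * (1 + t) ^ 2) (w : ℂ) :
    ‖w‖ ^ q * w.re ≤ 1 + (1 + q) * (w.re - 1) + κ * (w.re - 1) ^ 2 + q / 2 * w.im ^ 2 := by
  have hn : ‖w‖ ^ 2 = w.re ^ 2 + w.im ^ 2 := by
    rw [← normSq_eq_norm_sq, normSq_apply]
    ring
  have hn0 := norm_nonneg w
  rcases le_total 0 w.re with h | h
  · have h1 : ‖w‖ ^ q ≤ 1 + q * (‖w‖ - 1) := by
      have := rpow_one_add_le_one_add_mul_self (s := ‖w‖ - 1) (by linarith) hq0.le hq1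
      rwa [add_sub_cancel] at this
    have h2 : ‖w‖ ^ q * w.re ≤ (1 + q * (‖w‖ - 1)) * w.re := mul_le_mul_of_nonneg_right h1 h
    have h3 : ‖w‖ * w.re ≤ (‖w‖ ^ 2 + w.re ^ 2) / 2 := by nlinarith [sq_nonneg (‖w‖ - w.re)]
    have h4 : q * (‖w‖ * w.re) ≤ q * ((‖w‖ ^ 2 + w.re ^ 2) / 2) :=
      mul_le_mul_of_nonneg_left h3 hq0.le
    have h5 : q * (w.re - 1) ^ 2 ≤ κ * (w.re - 1) ^ 2 :=
      mul_le_mul_of_nonneg_right hκ (sq_nonneg _)
    rw [hn] at h4
    nlinarith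
  · set t := -w.re with htt
    have ht0 : 0 ≤ t := by linarith
    have e : w.re = -t := by rw [htt, neg_neg]
    have h1 : t ≤ ‖w‖ := by
      have := Complex.abs_re_le_norm w
      rw [e, abs_neg, abs_of_nonneg ht0] at this
      exact this
    have h2 : t ^ q ≤ ‖w‖ ^ q := Real.rpow_le_rpow ht0 h1 hq0.le
    have h3 : t ^ (1 + q) = t ^ q * t := by
      rw [add_comm, Real.rpow_add_one' ht0 (by linarith)]
    have h4 := ht t ht0
    have h5 : t ^ q * t ≤ ‖w‖ ^ q * t := mul_le_mul_of_nonneg_right h2 ht0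
    rw [e]
    have h6 : 0 ≤ q / 2 * w.im ^ 2 := by positivity
    rw [h3] at h4
    nlinarith

/-- the scaled pointwise inequality -/
theorem point_scaled {q κ : ℝ} (hq0 : 0 < q) (hq1 : q ≤ 1) (hκ : q ≤ κ)
    (ht : ∀ t : ℝ, 0 ≤ t → q + (1 + q) * t - t ^ (1 + q) ≤ κ * (1 + t) ^ 2) {r : ℝ} (hr : 0 < r)
    (u : ℂ) : r ^ (1 - q) * (‖u‖ ^ q * u.re) ≤
      r ^ 2 + (1 + q) * r * (u.re - r) + κ * (u.re - r) ^ 2 + q / 2 * u.im ^ 2 := by
  have h := point hq0 hq1 hκ ht (u / (r : ℂ))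
  have e1 : (u / (r : ℂ)).re = u.re / r := by rw [div_ofReal_re]
  have e2 : (u / (r : ℂ)).im = u.im / r := by rw [div_ofReal_im]
  have e3 : ‖u / (r : ℂ)‖ = ‖u‖ / r := by
    rw [norm_div, norm_real, Real.norm_eq_abs, abs_of_pos hr]
  rw [e1, e2, e3, Real.div_rpow (norm_nonneg _) hr.le] at h
  have h2 := mul_le_mul_of_nonneg_left h (sq_nonneg r)
  have hrq : 0 < r ^ q := Real.rpow_pos_of_pos hr _
  have e4 : r ^ 2 * (‖u‖ ^ q / r ^ q * (u.re / r)) = r ^ (1 - q) * (‖u‖ ^ q * u.re) := by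
    rw [Real.rpow_sub hr, Real.rpow_one]
    field_simp
  rw [e4] at h2
  refine h2.trans (le_of_eq ?_)
  field_simp

theorem exists_phase (z : ℂ) : ∃ c : ℂ, ‖c‖ = 1 ∧ conj z * c = (‖z‖ : ℂ) := by
  rcases eq_or_ne z 0 with h | h
  · exact ⟨1, by simp, by simp [h]⟩
  · have h1 : ‖z‖ ≠ 0 := norm_ne_zero_iff.2 h
    refine ⟨z / (‖z‖ : ℂ), ?_, ?_⟩
    · rw [norm_div, norm_real, norm_norm, div_self h1]
    · rw [mul_div_assoc', mul_comm (conj z) z, mul_conj']
      have : (‖z‖ : ℂ) ≠ 0 := by exact_mod_cast h1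
      field_simp

/-- the integrated inequality -/
theorem star_int [Fact (2 ≤ d)] (hμ : Law μ) {q κ : ℝ} (hq0 : 0 < q) (hq1 : q ≤ 1) (hκ : q ≤ κ)
    (ht : ∀ t : ℝ, 0 ≤ t → q + (1 + q) * t - t ^ (1 + q) ≤ κ * (1 + t) ^ 2) (F : Poly d) (c : ℂ)
    (hc : ‖c‖ = 1) (hcF : conj (ev F 0) * c = (‖ev F 0‖ : ℂ)) :
    ‖ev F 0‖ ^ (1 - q) * (∫ x, ((‖ev F x‖ ^ q : ℝ) : ℂ) * (conj (ev F x) * ev (c • (1 : Poly d)) x) ∂μ).re ≤
      ‖ev F 0‖ ^ 2 + (2 * κ + q) / 4 * (∫ x, ‖ev F x‖ ^ 2 ∂μ - ‖ev F 0‖ ^ 2) := by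
  have hp := hμ.prob
  set r := ‖ev F 0‖ with hr
  have hcont := SV.continuous_ev F
  have hcc : Continuous fun x => conj (ev F x) * c := (continuous_conj.comp hcont).mul continuous_const
  have e1 : ∀ x : CC d, ev (c • (1 : Poly d)) x = c := fun x => by
    rw [SV.ev_smul, FING.ev_one, mul_one]
  simp only [e1]
  have hnu : ∀ x, ‖conj (ev F x) * c‖ = ‖ev F x‖ := fun x => by
    rw [norm_mul, RCLike.norm_conj, hc, mul_one]
  have hi1 : Integrable (fun x => ((‖ev F x‖ ^ q : ℝ) : ℂ) * (conj (ev F x) * c)) μ :=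
    Alg.integrable hμ ((continuous_ofReal.comp (hcont.norm.rpow_const fun _ => Or.inr hq0.le)).mul
      hcc)
  have hi2 : Integrable (fun x => (conj (ev F x) * c) ^ 2) μ := Alg.integrable hμ (hcc.pow 2)
  have hi3 : Integrable (fun x => ‖ev F x‖ ^ 2) μ := Alg.integrable hμ (hcont.norm.pow 2)
  have hi4 : Integrable (fun x => conj (ev F x) * c) μ := Alg.integrable hμ hcc
  have ire : Integrable (fun x => (conj (ev F x) * c).re) μ := hi4.re
  have ire2 : Integrable (fun x => (conj (ev F x) * c).re ^ 2) μ :=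
    Alg.integrable hμ ((continuous_re.comp hcc).pow 2)
  have iim2 : Integrable (fun x => (conj (ev F x) * c).im ^ 2) μ :=
    Alg.integrable hμ ((continuous_im.comp hcc).pow 2)
  -- the moments
  have m1 : ∫ x, (conj (ev F x) * c).re ∂μ = r := by
    have h1 : ∫ x, (conj (ev F x) * c).re ∂μ = (∫ x, conj (ev F x) * c ∂μ).re := integral_re hi4
    have h2 : ∫ x, conj (ev F x) * c ∂μ = conj (ev F 0) * c := by
      rw [← Alg.int_ev hμ F, ← integral_conj, ← integral_mul_const]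
    rw [h1, h2, hcF, ofReal_re]
  have m2 : ∫ x, (conj (ev F x) * c).re ^ 2 ∂μ - ∫ x, (conj (ev F x) * c).im ^ 2 ∂μ = r ^ 2 := by
    have h1 : ∫ x, ((conj (ev F x) * c) ^ 2).re ∂μ = (∫ x, (conj (ev F x) * c) ^ 2 ∂μ).re :=
      integral_re hi2
    have h2 : ∫ x, (conj (ev F x) * c) ^ 2 ∂μ = (conj (ev F 0) * c) ^ 2 := by
      have : ∀ x, (conj (ev F x) * c) ^ 2 = conj (ev F x ^ 2) * c ^ 2 := fun x => by
        rw [mul_pow, map_pow]
      simp only [this]
      rw [integral_mul_const, integral_conj, int_sq hμ F]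
    rw [← integral_sub ire2 iim2]
    have h3 : ∀ x, (conj (ev F x) * c).re ^ 2 - (conj (ev F x) * c).im ^ 2 =
        ((conj (ev F x) * c) ^ 2).re := fun x => by
      generalize conj (ev F x) * c = u
      rw [pow_two u, mul_re]
      ring
    simp only [h3]
    rw [h1, h2, hcF, ← ofReal_pow, ofReal_re]
  have m3 : ∫ x, (conj (ev F x) * c).re ^ 2 ∂μ + ∫ x, (conj (ev F x) * c).im ^ 2 ∂μ =
      ∫ x, ‖ev F x‖ ^ 2 ∂μ := by
    rw [← integral_add ire2 iim2]
    refine integral_congr_ae (Filter.Eventually.of_forall fun x => ?_)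
    simp only
    rw [← hnu x, ← normSq_eq_norm_sq, normSq_apply]
    ring
  rcases (norm_nonneg (ev F 0)).eq_or_lt with h0 | h0
  · have hr0 : r = 0 := h0.symm
    rw [hr0]
    rcases hq1.eq_or_lt with h | h
    · -- q = 1
      subst h
      have e2 : (∫ x, ((‖ev F x‖ ^ (1 : ℝ) : ℝ) : ℂ) * (conj (ev F x) * c) ∂μ).re =
          ∫ x, (((‖ev F x‖ ^ (1 : ℝ) : ℝ) : ℂ) * (conj (ev F x) * c)).re ∂μ := (integral_re hi1).symm
      rw [e2, sub_self, Real.rpow_zero, one_mul]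
      have h2 : ∫ x, (((‖ev F x‖ ^ (1 : ℝ) : ℝ) : ℂ) * (conj (ev F x) * c)).re ∂μ ≤
          ∫ x, (1 * (conj (ev F x) * c).re ^ 2 + 1 / 2 * (conj (ev F x) * c).im ^ 2) ∂μ := by
        refine integral_mono hi1.re ((ire2.const_mul _).add (iim2.const_mul _)) fun x => ?_
        change (((‖ev F x‖ ^ (1 : ℝ) : ℝ) : ℂ) * (conj (ev F x) * c)).re ≤ _
        rw [re_ofReal_mul, Real.rpow_one, ← hnu x]
        have hn : ‖conj (ev F x) * c‖ ^ 2 = (conj (ev F x) * c).re ^ 2 +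
            (conj (ev F x) * c).im ^ 2 := by
          rw [← normSq_eq_norm_sq, normSq_apply]
          ring
        nlinarith [sq_nonneg (‖conj (ev F x) * c‖ - (conj (ev F x) * c).re)]
      rw [integral_add (ire2.const_mul _) (iim2.const_mul _), integral_const_mul,
        integral_const_mul] at h2
      rw [hr0] at m2
      have hX : 0 ≤ ∫ x, ‖ev F x‖ ^ 2 ∂μ := integral_nonneg fun x => by positivity
      have hX2 : 0 ≤ (κ - 1) * ∫ x, ‖ev F x‖ ^ 2 ∂μ := mul_nonneg (by linarith) hX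
      linarith [m2, m3, h2]
    · rw [Real.zero_rpow (by linarith), zero_mul]
      have : 0 ≤ ∫ x, ‖ev F x‖ ^ 2 ∂μ := integral_nonneg fun x => by positivity
      have : 0 ≤ (2 * κ + q) / 4 := by linarith
      nlinarith
  · have hr0 : 0 < r := h0
    have e2 : (∫ x, ((‖ev F x‖ ^ q : ℝ) : ℂ) * (conj (ev F x) * c) ∂μ).re =
        ∫ x, (((‖ev F x‖ ^ q : ℝ) : ℂ) * (conj (ev F x) * c)).re ∂μ := (integral_re hi1).symm
    rw [e2, ← integral_const_mul]
    have h2 : ∫ x, r ^ (1 - q) * (((‖ev F x‖ ^ q : ℝ) : ℂ) * (conj (ev F x) * c)).re ∂μ ≤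
        ∫ x, ((r ^ 2 - (1 + q) * r * r + κ * r ^ 2) + ((1 + q) * r - 2 * κ * r) *
          (conj (ev F x) * c).re + (κ * (conj (ev F x) * c).re ^ 2 +
          q / 2 * (conj (ev F x) * c).im ^ 2)) ∂μ := by
      refine integral_mono (hi1.re.const_mul _) (((integrable_const _).add (ire.const_mul _)).add
        ((ire2.const_mul _).add (iim2.const_mul _))) fun x => ?_
      change r ^ (1 - q) * (((‖ev F x‖ ^ q : ℝ) : ℂ) * (conj (ev F x) * c)).re ≤ _
      rw [re_ofReal_mul, ← hnu x]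
      refine (point_scaled hq0 hq1 hκ ht hr0 (conj (ev F x) * c)).trans (le_of_eq ?_)
      ring
    refine h2.trans (le_of_eq ?_)
    have g0 : ∀ A B : ℝ, Integrable (fun x => A + B * (conj (ev F x) * c).re) μ := fun A B =>
      (integrable_const _).add (ire.const_mul _)
    have g1 : ∀ A B : ℝ, ∫ x, (A + B * (conj (ev F x) * c).re) ∂μ = A + B * r := fun A B => by
      rw [integral_add (integrable_const _) (ire.const_mul _), integral_const_mul, integral_const,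
        m1]
      simp
    have g2 : Integrable (fun x => κ * (conj (ev F x) * c).re ^ 2 +
        q / 2 * (conj (ev F x) * c).im ^ 2) μ := (ire2.const_mul _).add (iim2.const_mul _)
    have g3 : ∫ x, (κ * (conj (ev F x) * c).re ^ 2 + q / 2 * (conj (ev F x) * c).im ^ 2) ∂μ =
        κ * ∫ x, (conj (ev F x) * c).re ^ 2 ∂μ + q / 2 * ∫ x, (conj (ev F x) * c).im ^ 2 ∂μ := by
      rw [integral_add (ire2.const_mul _) (iim2.const_mul _), integral_const_mul,
        integral_const_mul]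
    rw [integral_add (g0 _ _) g2, g1, g3]
    have k1 : ∫ x, (conj (ev F x) * c).re ^ 2 ∂μ = (∫ x, ‖ev F x‖ ^ 2 ∂μ + r ^ 2) / 2 := by
      linarith
    have k2 : ∫ x, (conj (ev F x) * c).im ^ 2 ∂μ = (∫ x, ‖ev F x‖ ^ 2 ∂μ - r ^ 2) / 2 := by
      linarith
    rw [k1, k2]
    ring

end STAR

end Pool.Agent.ConeG
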