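import Pool.Agent.Work.MP_b0b133_an.G.SVg
import Pool.Agent.Work.MP_b0b133_an.G.ALG
import Pool.Agent.Work.MP_b0b133_an.G.ALGrot

/-!
# First and second variation at near maximisers, every dimension `d ≥ 3`
-/

set_option autoImplicit false
open MeasureTheory Complex
open scoped ENNReal ComplexConjugate

namespace Pool.Agent.ConeG

variable {d : ℕ} {μ : Measure (CC d)}

theorem X2_nonneg [Fact (2 ≤ d)] (hμ : Law μ) (ψ : Poly d) : 0 ≤ X2 μ ψ := by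
  rw [← SV.En_smul_nu ψ (nu_pos d).ne']
  exact En_nonneg (nu_pos d).le hμ _

/-- first variation at near maximisers, both signs by `Q → -Q` -/
theorem first_var [Fact (2 ≤ d)] (hd : 3 ≤ d) (hμ : Law μ) (S : ℝ) (hS : 1 ≤ S)
    (hmax : ∀ P ∈ HP d, Ip μ P ≤ S * En μ P ^ (pe d / 2)) (M : ℝ) :
    ∃ C : ℝ, 0 ≤ C ∧ ∀ F ∈ HP d, ∀ Q ∈ HP d, ∀ ε : ℝ, 0 < ε → ε ≤ 1 → En μ F = 1 →
      En μ Q ≤ M → S - ε ≤ Ip μ F →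
      |(∫ x, ((‖ev F x‖ ^ (pe d - 2) : ℝ) : ℂ) * (conj (ev F x) * ev Q x) ∂μ).re -
        S * EB μ F Q| ≤ C * ε ^ (1 / 2 : ℝ) :=
  SV.first_var_core hd hμ (EB_comm hμ) (En_nonneg (nu_pos d).le hμ) S hS hmax M

/-- the inequality (I) -/
theorem second_var [Fact (2 ≤ d)] (hd : 3 ≤ d) (hμ : Law μ) (S : ℝ) (hS : 1 ≤ S)
    (hmax : ∀ P ∈ HP d, Ip μ P ≤ S * En μ P ^ (pe d / 2)) :
    ∃ C : ℝ, 0 ≤ C ∧ ∀ ψ ∈ HP d, ∀ ε : ℝ, 0 < ε → ε ≤ 1 → En μ (AP ψ) = 1 →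
      S - ε ≤ Ip μ (AP ψ) →
      (∀ j, ‖∫ x, x j * ((‖ev (AP ψ) x‖ ^ pe d : ℝ) : ℂ) ∂μ‖ ≤ ε) →
      ∫ x, ‖ev (AP ψ) x‖ ^ (pe d - 2) * G2 ψ x ∂μ ≤
        S * ((1 - (pe d - 2)) + (pe d - 2) * X2 μ ψ) + C * ε ^ (min (pe d - 2) 1 / 4) :=
  SV.second_var_core hd hμ (EB_comm hμ) (En_nonneg (nu_pos d).le hμ)
    (fun j ψ h => HP_pderiv_mem j ψ h) (fun j ψ h => HP_RP_mem j ψ h)
    (fun ψ h => HP_AP_mem ψ h) (fun ψ h => ladder (nu_pos d) hμ ψ h)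
    (fun ψ _ => X2_le (nu_pos d) hμ ψ) S hS hmax

/-- second variation in any direction -/
theorem second_var_dir [Fact (2 ≤ d)] (hd : 3 ≤ d) (hμ : Law μ) (S : ℝ) (hS : 1 ≤ S)
    (hmax : ∀ P ∈ HP d, Ip μ P ≤ S * En μ P ^ (pe d / 2)) (M : ℝ) :
    ∃ C : ℝ, 0 ≤ C ∧ ∀ F ∈ HP d, ∀ K ∈ HP d, ∀ ε : ℝ, 0 < ε → ε ≤ 1 → En μ F = 1 →
      En μ K ≤ M → S - ε ≤ Ip μ F →
      ∫ x, (‖ev F x‖ ^ (pe d - 2) * ‖ev K x‖ ^ 2 +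
        (pe d - 2) * (‖ev F x‖ ^ (pe d - 2 - 2) * ((conj (ev F x) * ev K x).re) ^ 2)) ∂μ ≤
        S * (En μ K + (pe d - 2) * EB μ F K ^ 2) + C * ε ^ (min (pe d - 2) 1 / 4) :=
  SV.second_var_dir hd hμ (EB_comm hμ) (En_nonneg (nu_pos d).le hμ) S hS hmax M

/-- (I_ph): second variation in the direction `i H` -/
theorem second_var_phase [Fact (2 ≤ d)] (hd : 3 ≤ d) (hμ : Law μ) (S : ℝ) (hS : 1 ≤ S)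
    (hmax : ∀ P ∈ HP d, Ip μ P ≤ S * En μ P ^ (pe d / 2)) :
    ∃ C : ℝ, 0 ≤ C ∧ ∀ ψ ∈ HP d, ∀ ε : ℝ, 0 < ε → ε ≤ 1 → En μ (AP ψ) = 1 →
      S - ε ≤ Ip μ (AP ψ) →
      ∫ x, (‖ev (AP ψ) x‖ ^ (pe d - 2) * ‖(nu d : ℂ) * ev ψ x‖ ^ 2 +
        (pe d - 2) * (‖ev (AP ψ) x‖ ^ (pe d - 2 - 2) *
          ((conj (ev (AP ψ) x) * ((nu d : ℂ) * ev ψ x)).im) ^ 2)) ∂μ ≤
        S * X2 μ ψ + C * ε ^ (min (pe d - 2) 1 / 4) :=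
  SV.second_var_phase_core hd hμ (EB_comm hμ) (En_nonneg (nu_pos d).le hμ)
    (fun ψ h => HP_AP_mem ψ h) (fun ψ _ => X2_le (nu_pos d) hμ ψ) S hS hmax

/-- (I_rot): second variation in the directions `L_ij ψ`, summed -/
theorem second_var_rot [Fact (2 ≤ d)] (hd : 3 ≤ d) (hμ : Law μ) (S : ℝ) (hS : 1 ≤ S)
    (hmax : ∀ P ∈ HP d, Ip μ P ≤ S * En μ P ^ (pe d / 2)) :
    ∃ C : ℝ, 0 ≤ C ∧ ∀ ψ ∈ HP d, ∀ ε : ℝ, 0 < ε → ε ≤ 1 → En μ (AP ψ) = 1 →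
      S - ε ≤ Ip μ (AP ψ) →
      ∫ x, (‖ev (AP ψ) x‖ ^ (pe d - 2) * (1 / 2 * ∑ i, ∑ j, ‖ev (LP i j ψ) x‖ ^ 2) +
        (pe d - 2) * (‖ev (AP ψ) x‖ ^ (pe d - 2 - 2) *
          (1 / 2 * ∑ i, ∑ j, ((conj (ev (AP ψ) x) * ev (LP i j ψ) x).re) ^ 2))) ∂μ ≤
        S * (1 - X2 μ ψ) + C * ε ^ (min (pe d - 2) 1 / 4) :=
  SV.second_var_rot_core hd hμ (EB_comm hμ) (En_nonneg (nu_pos d).le hμ)
    (fun ψ h => HP_AP_mem ψ h) (fun i j ψ h => HP_LP_mem i j ψ h)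
    (fun i j ψ _ => EB_AP_LP hμ i j ψ) (fun ψ h => En_LP_sum (nu_pos d) hμ ψ h)
    (fun ψ _ => X2_nonneg hμ ψ) S hS hmax

end Pool.Agent.ConeG
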