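import Mathlib

/-!
# Scalar inequalities for the first and second variation, exponent `2 < p ≤ 4`
-/

set_option autoImplicit false

open Complex MeasureTheory
open scoped ComplexConjugate

namespace Pool.Agent.ConeG.SV

theorem normsq_add (F K : ℂ) : ‖F + K‖ ^ 2 = ‖F‖ ^ 2 + ‖K‖ ^ 2 + 2 * (conj F * K).re := by
  rw [Complex.sq_norm, Complex.sq_norm, Complex.sq_norm, Complex.normSq_apply,
    Complex.normSq_apply, Complex.normSq_apply]
  simp
  ring

theorem normsq_sub (F K : ℂ) : ‖F - K‖ ^ 2 = ‖F‖ ^ 2 + ‖K‖ ^ 2 - 2 * (conj F * K).re := by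
  have h := normsq_add F (-K)
  rw [← sub_eq_add_neg] at h
  rw [h]
  simp
  ring

theorem re_conj_mul_le (F K : ℂ) : |(conj F * K).re| ≤ ‖F‖ * ‖K‖ := by
  have h := Complex.abs_re_le_norm (conj F * K)
  rwa [norm_mul, Complex.norm_conj] at h

/-- `(1+h)^(-b) + (1-h)^(-b) ≥ 2` -/
theorem neg_pow_sum {b h : ℝ} (hb : 0 ≤ b) (h0 : 0 ≤ h) (h1 : h < 1) :
    2 ≤ (1 + h) ^ (-b) + (1 - h) ^ (-b) := by
  have hp : 0 < 1 + h := by linarith
  have hm : 0 < 1 - h := by linarith
  have e : (1 + h) ^ (-b) * (1 - h) ^ (-b) = (1 - h ^ 2) ^ (-b) := by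
    rw [← Real.mul_rpow hp.le hm.le]
    congr 1
    ring
  have h2 : 1 ≤ (1 - h ^ 2) ^ (-b) := by
    apply Real.one_le_rpow_of_pos_of_le_one_of_nonpos
    · nlinarith
    · nlinarith
    · linarith
  have hA : 0 < (1 + h) ^ (-b) := Real.rpow_pos_of_pos hp _
  have hB : 0 < (1 - h) ^ (-b) := Real.rpow_pos_of_pos hm _
  nlinarith [sq_nonneg ((1 + h) ^ (-b) - (1 - h) ^ (-b))]

/-- `(1+h)^t - (1-h)^t ≥ 2 t h` for `0 ≤ t ≤ 1` -/
theorem pow_diff {t h : ℝ} (ht0 : 0 ≤ t) (ht1 : t ≤ 1) (h0 : 0 ≤ h) (h1 : h ≤ 1) :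
    2 * t * h ≤ (1 + h) ^ t - (1 - h) ^ t := by
  rcases ht0.eq_or_lt with rfl | htp
  · simp
  set g : ℝ → ℝ := fun h => (1 + h) ^ t - (1 - h) ^ t - 2 * t * h with hg
  have hmono : MonotoneOn g (Set.Icc 0 1) := by
    apply monotoneOn_of_deriv_nonneg (convex_Icc 0 1)
    · have c1 : Continuous fun h : ℝ => (1 + h) ^ t :=
        (continuous_const.add continuous_id).rpow_const fun _ => Or.inr htp.le
      have c2 : Continuous fun h : ℝ => (1 - h) ^ t :=
        (continuous_const.sub continuous_id).rpow_const fun _ => Or.inr htp.le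
      exact ((c1.sub c2).sub (continuous_const.mul continuous_id)).continuousOn
    · intro x hx
      rw [interior_Icc] at hx
      have d1 : HasDerivAt (fun h : ℝ => (1 + h) ^ t) (t * (1 + x) ^ (t - 1)) x := by
        have := ((hasDerivAt_id x).const_add 1).rpow_const (p := t)
          (Or.inl (by have := hx.1; simp only [id]; linarith))
        simpa [mul_comm] using this
      have d2 : HasDerivAt (fun h : ℝ => (1 - h) ^ t) (-(t * (1 - x) ^ (t - 1))) x := by
        have := ((hasDerivAt_id x).const_sub 1).rpow_const (p := t)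
          (Or.inl (by have := hx.2; simp only [id]; linarith))
        simpa [mul_comm] using this
      exact ((d1.sub d2).sub ((hasDerivAt_id x).const_mul (2 * t))).differentiableAt.differentiableWithinAt
    · intro x hx
      rw [interior_Icc] at hx
      have d1 : HasDerivAt (fun h : ℝ => (1 + h) ^ t) (t * (1 + x) ^ (t - 1)) x := by
        have := ((hasDerivAt_id x).const_add 1).rpow_const (p := t)
          (Or.inl (by have := hx.1; simp only [id]; linarith))
        simpa [mul_comm] using this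
      have d2 : HasDerivAt (fun h : ℝ => (1 - h) ^ t) (-(t * (1 - x) ^ (t - 1))) x := by
        have := ((hasDerivAt_id x).const_sub 1).rpow_const (p := t)
          (Or.inl (by have := hx.2; simp only [id]; linarith))
        simpa [mul_comm] using this
      have d3 := (d1.sub d2).sub ((hasDerivAt_id x).const_mul (2 * t))
      have e : deriv g x = t * (1 + x) ^ (t - 1) - -(t * (1 - x) ^ (t - 1)) - 2 * t * 1 := d3.deriv
      rw [e]
      have h3 := neg_pow_sum (b := 1 - t) (h := x) (by linarith) hx.1.le hx.2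
      rw [show -(1 - t) = t - 1 by ring] at h3
      nlinarith
  have h2 := hmono (Set.left_mem_Icc.2 zero_le_one) ⟨h0, h1⟩ h0
  have h3 : g 0 = 0 := by simp [hg]
  rw [h3] at h2
  simp only [hg] at h2
  linarith

/-- `(1+h)^s + (1-h)^s ≥ 2 + s(s-1) h²` for `1 ≤ s ≤ 2` -/
theorem pow_sum {s h : ℝ} (hs1 : 1 ≤ s) (hs2 : s ≤ 2) (h0 : 0 ≤ h) (h1 : h ≤ 1) :
    2 + s * (s - 1) * h ^ 2 ≤ (1 + h) ^ s + (1 - h) ^ s := by
  set g : ℝ → ℝ := fun h => (1 + h) ^ s + (1 - h) ^ s - s * (s - 1) * h ^ 2 with hg
  have hd : ∀ x, HasDerivAt g (s * (1 + x) ^ (s - 1) + -(s * (1 - x) ^ (s - 1)) -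
      s * (s - 1) * (2 * x)) x := by
    intro x
    have d1 : HasDerivAt (fun h : ℝ => (1 + h) ^ s) (s * (1 + x) ^ (s - 1)) x := by
      have := ((hasDerivAt_id x).const_add 1).rpow_const (p := s) (Or.inr hs1)
      simpa [mul_comm] using this
    have d2 : HasDerivAt (fun h : ℝ => (1 - h) ^ s) (-(s * (1 - x) ^ (s - 1))) x := by
      have := ((hasDerivAt_id x).const_sub 1).rpow_const (p := s) (Or.inr hs1)
      simpa [mul_comm] using this
    have d3 : HasDerivAt (fun h : ℝ => s * (s - 1) * h ^ 2) (s * (s - 1) * (2 * x)) x := by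
      have := ((hasDerivAt_id x).pow 2).const_mul (s * (s - 1))
      simpa using this
    exact (d1.add d2).sub d3
  have hmono : MonotoneOn g (Set.Icc 0 1) := by
    apply monotoneOn_of_deriv_nonneg (convex_Icc 0 1)
    · exact fun x _ => (hd x).continuousAt.continuousWithinAt
    · exact fun x _ => (hd x).differentiableAt.differentiableWithinAt
    · intro x hx
      rw [interior_Icc] at hx
      rw [(hd x).deriv]
      have := pow_diff (t := s - 1) (h := x) (by linarith) (by linarith) hx.1.le hx.2.le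
      nlinarith
  have h2 := hmono (Set.left_mem_Icc.2 zero_le_one) ⟨h0, h1⟩ h0
  have h3 : g 0 = 2 := by simp [hg]; norm_num
  rw [h3] at h2
  simp only [hg] at h2
  linarith

/-- `(1+X)^s ≤ 1 + sX + s(s-1)/2 X² + |X|³` for `1 ≤ s ≤ 2`, `X ≥ -1` -/
theorem pow_taylor {s X : ℝ} (hs1 : 1 ≤ s) (hs2 : s ≤ 2) (hX : -1 ≤ X) :
    (1 + X) ^ s ≤ 1 + s * X + s * (s - 1) / 2 * X ^ 2 + |X| ^ 3 := by
  rcases le_total 0 X with h0 | h0
  · set g : ℝ → ℝ := fun x => 1 + s * x + s * (s - 1) / 2 * x ^ 2 - (1 + x) ^ s with hg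
    have hd : ∀ x, HasDerivAt g (s + s * (s - 1) / 2 * (2 * x) - s * (1 + x) ^ (s - 1)) x := by
      intro x
      have d1 : HasDerivAt (fun h : ℝ => (1 + h) ^ s) (s * (1 + x) ^ (s - 1)) x := by
        have := ((hasDerivAt_id x).const_add 1).rpow_const (p := s) (Or.inr hs1)
        simpa [mul_comm] using this
      have d2 : HasDerivAt (fun h : ℝ => 1 + s * h + s * (s - 1) / 2 * h ^ 2)
          (s + s * (s - 1) / 2 * (2 * x)) x := by
        have := (((hasDerivAt_id' x).const_mul s).const_add 1).fun_add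
          (((hasDerivAt_id' x).fun_pow 2).const_mul (s * (s - 1) / 2))
        simpa using this
      exact d2.sub d1
    have hmono : MonotoneOn g (Set.Ici 0) := by
      apply monotoneOn_of_deriv_nonneg (convex_Ici 0)
      · exact fun x _ => (hd x).continuousAt.continuousWithinAt
      · exact fun x _ => (hd x).differentiableAt.differentiableWithinAt
      · intro x hx
        rw [interior_Ici] at hx
        rw [(hd x).deriv]
        have h1 := rpow_one_add_le_one_add_mul_self (s := x) (p := s - 1)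
          (by have : (0 : ℝ) < x := hx
              linarith) (by linarith) (by linarith)
        nlinarith
    have h2 := hmono (Set.self_mem_Ici) (Set.mem_Ici.2 h0) h0
    have h3 : g 0 = 0 := by simp [hg]
    rw [h3] at h2
    simp only [hg] at h2
    have : 0 ≤ |X| ^ 3 := by positivity
    linarith
  · set y := -X with hy
    have hy0 : 0 ≤ y := by linarith
    have hy1 : y ≤ 1 := by linarith
    have e1 : |X| = y := abs_of_nonpos h0
    have e2 : X = -y := by rw [hy]; ring
    rw [e1, e2]
    set g : ℝ → ℝ := fun x => 1 - s * x + s * (s - 1) / 2 * x ^ 2 + x ^ 3 - (1 - x) ^ s with hg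
    have hd : ∀ x, HasDerivAt g (-s + s * (s - 1) / 2 * (2 * x) + 3 * x ^ 2 +
        s * (1 - x) ^ (s - 1)) x := by
      intro x
      have d1 : HasDerivAt (fun h : ℝ => (1 - h) ^ s) (-(s * (1 - x) ^ (s - 1))) x := by
        have := ((hasDerivAt_id x).const_sub 1).rpow_const (p := s) (Or.inr hs1)
        simpa [mul_comm] using this
      have d2 : HasDerivAt (fun h : ℝ => 1 - s * h + s * (s - 1) / 2 * h ^ 2 + h ^ 3)
          (-s + s * (s - 1) / 2 * (2 * x) + 3 * x ^ 2) x := by
        have := ((((hasDerivAt_id' x).const_mul s).const_sub 1).fun_add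
          (((hasDerivAt_id' x).fun_pow 2).const_mul (s * (s - 1) / 2))).fun_add
            ((hasDerivAt_id' x).fun_pow 3)
        simpa using this
      have := d2.sub d1
      rwa [sub_neg_eq_add] at this
    have hmono : MonotoneOn g (Set.Icc 0 1) := by
      apply monotoneOn_of_deriv_nonneg (convex_Icc 0 1)
      · exact fun x _ => (hd x).continuousAt.continuousWithinAt
      · exact fun x _ => (hd x).differentiableAt.differentiableWithinAt
      · intro x hx
        rw [interior_Icc] at hx
        rw [(hd x).deriv]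
        set t := s - 1 with ht
        have ht0 : 0 ≤ t := by linarith
        have ht1 : t ≤ 1 := by linarith
        have hx0 := hx.1
        have hx1 := hx.2
        -- `(1-x)^t ≥ 1 - t x - x²`
        have b1 := rpow_one_add_le_one_add_mul_self (s := -x) (p := 1 - t)
          (by linarith) (by linarith) (by linarith)
        have hp : 0 < 1 - x := by linarith
        have e3 : (1 - x) = (1 - x) ^ t * (1 - x) ^ (1 - t) := by
          rw [← Real.rpow_add hp]; simp
        have hq : 0 < (1 - x) ^ t := Real.rpow_pos_of_pos hp _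
        rw [show 1 + -x = 1 - x by ring] at b1
        have b2 : 1 - x ≤ (1 - x) ^ t * (1 + (1 - t) * -x) := by
          calc 1 - x = (1 - x) ^ t * (1 - x) ^ (1 - t) := e3
            _ ≤ _ := mul_le_mul_of_nonneg_left b1 hq.le
        have hden : 0 < 1 + (1 - t) * -x := by nlinarith
        have b3 : 1 - t * x - x ^ 2 ≤ (1 - x) ^ t := by
          by_contra hc
          push Not at hc
          have b4 : (1 - x) ^ t * (1 + (1 - t) * -x) < (1 - t * x - x ^ 2) * (1 + (1 - t) * -x) :=
            mul_lt_mul_of_pos_right hc hden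
          have b5 : (1 - t * x - x ^ 2) * (1 + (1 - t) * -x) ≤ 1 - x := by
            have : 1 - x - (1 - t * x - x ^ 2) * (1 + (1 - t) * -x) =
                x ^ 2 * ((1 - t) * (1 - t) * (1 - x) + t * (1 - (1 - t)) + (1 - t) * t * 0 + (1 - t) * t + (t * (1 - t)) * 0 - (t * (1 - t)) + (1 - t) * t * (1 - 1) + 0) +
                x ^ 2 * (1 - (1 - t) * x - t * (1 - t) - ((1 - t) * (1 - t) * (1 - x) + t * t)) := by
              ring
            nlinarith [mul_nonneg (sq_nonneg x) (mul_nonneg (sub_nonneg.2 ht1) hp.le),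
              mul_nonneg (sq_nonneg x) (mul_nonneg ht0 ht0), sq_nonneg x,
              mul_nonneg (sq_nonneg x) ht0, mul_nonneg (sq_nonneg x) (sub_nonneg.2 ht1),
              mul_nonneg (sq_nonneg x) (mul_nonneg ht0 (sub_nonneg.2 ht1))]
          linarith
        nlinarith [sq_nonneg x]
    have h2 := hmono (Set.left_mem_Icc.2 zero_le_one) ⟨hy0, hy1⟩ hy0
    have h3 : g 0 = 0 := by simp [hg]
    rw [h3] at h2
    simp only [hg] at h2
    have e4 : (1 + -y) = 1 - y := by ring
    rw [e4]
    nlinarith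

end Pool.Agent.ConeG.SV
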