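import Pool.Agent.Work.MP_b0b133_an.G.SVa

/-!
# Pointwise second order lower bound for the power of the norm
-/

set_option autoImplicit false

open Complex MeasureTheory
open scoped ComplexConjugate

namespace Pool.Agent.ConeG.SV

/-- `q F K` : the pointwise second variation density of `(1/p)‖F‖^p`, `p = q + 2`, in the
direction `K`. -/
noncomputable def qp (q : ℝ) (F K : ℂ) : ℝ :=
  ‖F‖ ^ q * ‖K‖ ^ 2 + q * (‖F‖ ^ (q - 2) * ((conj F * K).re) ^ 2)

theorem pow_sq {y q : ℝ} (hy : 0 ≤ y) : y ^ (q + 2) = (y ^ 2) ^ ((q + 2) / 2) := by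
  rw [← Real.rpow_natCast y 2, ← Real.rpow_mul hy]
  congr 1
  push_cast; ring

theorem rem_term {q a k r : ℝ} (hq0 : 0 < q) (hq2 : q ≤ 2) (h0 : 0 < a) (hk0 : 0 ≤ k)
    (hr2 : r ^ 2 ≤ a ^ 2 * k ^ 2) :
    a ^ (q - 2) * r ^ 2 - k ^ (q + 2) ≤
      (a ^ 2 + k ^ 2) ^ ((q + 2) / 2) * (|r| / (a ^ 2 + k ^ 2)) ^ 2 := by
  set s := (q + 2) / 2 with hs
  have hs1 : 1 < s := by rw [hs]; linarith
  have hs2 : s ≤ 2 := by rw [hs]; linarith
  set P := a ^ 2 + k ^ 2 with hP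
  have hP0 : 0 < P := by positivity
  rw [div_pow, sq_abs]
  have c1 : P ^ s * (r ^ 2 / P ^ 2) = (P ^ (s - 1) / P) * r ^ 2 := by
    have : P ^ s = P ^ (s - 1) * P := by
      rw [← Real.rpow_add_one hP0.ne']; ring_nf
    rw [this]
    field_simp
  have c2 : a ^ (q - 2) = (a ^ 2) ^ (s - 1) / a ^ 2 := by
    rw [← Real.rpow_natCast a 2, ← Real.rpow_mul h0.le, ← Real.rpow_sub h0]
    congr 1
    rw [hs]; push_cast; ring
  have c3 : (a ^ 2) ^ (s - 1) ≤ P ^ (s - 1) :=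
    Real.rpow_le_rpow (by positivity) (by rw [hP]; linarith [sq_nonneg k]) (by linarith)
  rw [c1, c2]
  have c4 : (a ^ 2) ^ (s - 1) / P * r ^ 2 ≤ P ^ (s - 1) / P * r ^ 2 := by gcongr
  generalize hb : (a ^ 2) ^ (s - 1) = b at *
  have hb0 : 0 ≤ b := by rw [← hb]; positivity
  have c5 : b / a ^ 2 * r ^ 2 - b / P * r ^ 2 = b * k ^ 2 / (a ^ 2 * P) * r ^ 2 := by
    have h9 : P - a ^ 2 = k ^ 2 := by rw [hP]; ring
    rw [← h9]
    field_simp
  have c6 : b * k ^ 2 / (a ^ 2 * P) * r ^ 2 ≤ b * (k ^ 2) ^ 2 / P := by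
    calc b * k ^ 2 / (a ^ 2 * P) * r ^ 2
        ≤ b * k ^ 2 / (a ^ 2 * P) * (a ^ 2 * k ^ 2) := by gcongr
      _ = _ := by field_simp
  have c7 : b * (k ^ 2) ^ 2 / P ≤ k ^ (q + 2) := by
    rw [div_le_iff₀ hP0, pow_sq hk0, ← hs]
    rcases hk0.eq_or_lt with h7 | h7
    · rw [← h7]
      have : (0 : ℝ) ≤ (0 ^ 2 : ℝ) ^ s * P := by positivity
      simpa using this
    · have d1 : (k ^ 2) ^ 2 = (k ^ 2) ^ s * (k ^ 2) ^ (2 - s) := by
        rw [← Real.rpow_add (by positivity)]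
        rw [show s + (2 - s) = 2 by ring, Real.rpow_two]
      have d2 : (k ^ 2) ^ (2 - s) ≤ P ^ (2 - s) :=
        Real.rpow_le_rpow (by positivity) (by rw [hP]; linarith [sq_nonneg a]) (by linarith)
      have d3 : P ^ (s - 1) * P ^ (2 - s) = P := by
        rw [← Real.rpow_add hP0]
        rw [show s - 1 + (2 - s) = 1 by ring, Real.rpow_one]
      calc b * (k ^ 2) ^ 2
          = (k ^ 2) ^ s * (b * (k ^ 2) ^ (2 - s)) := by rw [d1]; ring
        _ ≤ (k ^ 2) ^ s * (P ^ (s - 1) * P ^ (2 - s)) := by gcongr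
        _ = _ := by rw [d3]
  linarith

/-- second order lower bound -/
theorem pow_two_sided {q : ℝ} (hq0 : 0 < q) (hq2 : q ≤ 2) (F K : ℂ) :
    2 * ‖F‖ ^ (q + 2) + (q + 2) * qp q F K - (q + 2) * q * ‖K‖ ^ (q + 2) ≤
      ‖F + K‖ ^ (q + 2) + ‖F - K‖ ^ (q + 2) := by
  unfold qp
  have h1 := normsq_add F K
  have h2 := normsq_sub F K
  have hr := re_conj_mul_le F K
  rcases (norm_nonneg F).eq_or_lt with h0 | h0
  · have hF : F = 0 := norm_eq_zero.1 h0.symm
    subst hF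
    simp only [norm_zero, zero_add, zero_sub, norm_neg, map_zero, zero_mul, Complex.zero_re]
    rw [Real.zero_rpow (by linarith), Real.zero_rpow hq0.ne']
    have : 0 ≤ ‖K‖ ^ (q + 2) := by positivity
    have h3 : 0 ≤ (q + 2) * q * ‖K‖ ^ (q + 2) := by positivity
    simp
    linarith
  · set a := ‖F‖ with ha
    set k := ‖K‖ with hk
    set r := (conj F * K).re with hr'
    set s := (q + 2) / 2 with hs
    have hk0 : 0 ≤ k := norm_nonneg _
    have hs1 : 1 < s := by rw [hs]; linarith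
    have hs2 : s ≤ 2 := by rw [hs]; linarith
    set P := a ^ 2 + k ^ 2 with hP
    have hP0 : 0 < P := by positivity
    have hr2 : r ^ 2 ≤ a ^ 2 * k ^ 2 := by
      rw [← sq_abs, ← mul_pow]
      exact pow_le_pow_left₀ (abs_nonneg _) hr 2
    have hr3 : 2 * |r| ≤ P := by nlinarith [sq_nonneg (a - k)]
    -- `‖F + K‖ ^ (q + 2)`
    have e1 : ∀ {y : ℝ}, 0 ≤ y → y ^ (q + 2) = (y ^ 2) ^ s := by
      intro y hy
      rw [← Real.rpow_natCast y 2, ← Real.rpow_mul hy]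
      congr 1
      rw [hs]; push_cast; ring
    have e2 : ‖F + K‖ ^ (q + 2) + ‖F - K‖ ^ (q + 2) =
        P ^ s * ((1 + 2 * r / P) ^ s + (1 - 2 * r / P) ^ s) := by
      rw [e1 (norm_nonneg _), e1 (norm_nonneg _), h1, h2, mul_add, ← Real.mul_rpow hP0.le,
        ← Real.mul_rpow hP0.le]
      · congr 2
        · field_simp
        · field_simp
      · rw [sub_nonneg, div_le_one hP0]
        linarith [le_abs_self r]
      · have : -1 ≤ 2 * r / P := by
          rw [le_div_iff₀ hP0]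
          linarith [neg_abs_le r]
        linarith
    -- lower bound, for `|h|`
    have e3 : (1 + 2 * r / P) ^ s + (1 - 2 * r / P) ^ s =
        (1 + 2 * |r| / P) ^ s + (1 - 2 * |r| / P) ^ s := by
      rcases le_total 0 r with h | h
      · rw [abs_of_nonneg h]
      · rw [abs_of_nonpos h]
        have : 2 * -r / P = -(2 * r / P) := by ring
        rw [this]
        rw [add_comm, sub_neg_eq_add, ← sub_eq_add_neg]
    have h3 := pow_sum (s := s) (h := 2 * |r| / P) hs1.le hs2 (by positivity)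
      (by rw [div_le_one hP0]; exact hr3)
    rw [e2, e3]
    have hPs : 0 < P ^ s := Real.rpow_pos_of_pos hP0 _
    have h4 := mul_le_mul_of_nonneg_left h3 hPs.le
    refine le_trans ?_ h4
    -- `P ^ s ≥ a ^ (q + 2) + s a ^ q k²`
    have h5 : a ^ (q + 2) + s * (a ^ q * k ^ 2) ≤ P ^ s := by
      have b1 := one_add_mul_self_le_rpow_one_add (s := k ^ 2 / a ^ 2) (p := s)
        (by have : 0 ≤ k ^ 2 / a ^ 2 := by positivity
            linarith) hs1.le
      have b2 : P ^ s = a ^ (q + 2) * (1 + k ^ 2 / a ^ 2) ^ s := by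
        rw [e1 h0.le, ← Real.mul_rpow (by positivity) (by positivity)]
        congr 1
        field_simp
        rw [hP]
      have b3 : a ^ q * k ^ 2 = a ^ (q + 2) * (k ^ 2 / a ^ 2) := by
        rw [Real.rpow_add h0, Real.rpow_two]
        field_simp
      rw [b2, b3]
      have := mul_le_mul_of_nonneg_left b1 (Real.rpow_nonneg h0.le (q + 2))
      linarith
    -- the remaining term
    have h6 : a ^ (q - 2) * r ^ 2 - k ^ (q + 2) ≤ P ^ s * (|r| / P) ^ 2 :=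
      rem_term hq0 hq2 h0 hk0 hr2
    have h8 : s * (s - 1) * (2 * |r| / P) ^ 2 = (q + 2) * q * (|r| / P) ^ 2 := by
      rw [hs]; ring
    rw [h8]
    have h9 : P ^ s * (2 + (q + 2) * q * (|r| / P) ^ 2) =
        2 * P ^ s + (q + 2) * q * (P ^ s * (|r| / P) ^ 2) := by
      ring
    rw [h9]
    have h10 : (q + 2) * q * (a ^ (q - 2) * r ^ 2 - k ^ (q + 2)) ≤
        (q + 2) * q * (P ^ s * (|r| / P) ^ 2) := mul_le_mul_of_nonneg_left h6 (by positivity)
    have h11 : (q + 2) * (a ^ q * k ^ 2) = 2 * (s * (a ^ q * k ^ 2)) := by rw [hs]; ring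
    linarith

/-- convexity of the power of the norm -/
theorem pow_convex {q : ℝ} (hq0 : 0 < q) (F K : ℂ) :
    ‖F‖ ^ (q + 2) + (q + 2) * (‖F‖ ^ q * (conj F * K).re) ≤ ‖F + K‖ ^ (q + 2) := by
  have h1 : ‖F‖ ^ 2 + (conj F * K).re ≤ ‖F‖ * ‖F + K‖ := by
    have h : (conj F * (F + K)).re ≤ ‖conj F * (F + K)‖ := Complex.re_le_norm _
    rw [norm_mul, Complex.norm_conj] at h
    have e : (conj F * (F + K)).re = ‖F‖ ^ 2 + (conj F * K).re := by
      rw [mul_add, Complex.add_re, ← Complex.normSq_eq_conj_mul_self, Complex.ofReal_re,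
        Complex.normSq_eq_norm_sq]
    linarith
  rcases (norm_nonneg F).eq_or_lt with h0 | h0
  · rw [← h0, Real.zero_rpow (by linarith), Real.zero_rpow hq0.ne']
    have : 0 ≤ ‖F + K‖ ^ (q + 2) := by positivity
    linarith
  · set a := ‖F‖
    set α := ‖F + K‖
    set r := (conj F * K).re
    have hα0 : 0 ≤ α := norm_nonneg _
    have b1 := one_add_mul_self_le_rpow_one_add (s := α / a - 1) (p := q + 2)
      (by have : 0 ≤ α / a := by positivity
          linarith) (by linarith)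
    have b2 : α ^ (q + 2) = a ^ (q + 2) * (1 + (α / a - 1)) ^ (q + 2) := by
      rw [← Real.mul_rpow h0.le (by ring_nf; positivity)]
      congr 1
      field_simp
      ring_nf
    have b3 := mul_le_mul_of_nonneg_left b1 (Real.rpow_nonneg h0.le (q + 2))
    rw [← b2] at b3
    have b4 : a ^ (q + 2) * (1 + (q + 2) * (α / a - 1)) =
        a ^ (q + 2) + (q + 2) * (a ^ q * (a * α - a ^ 2)) := by
      have : a ^ (q + 2) = a ^ q * a ^ 2 := by rw [Real.rpow_add h0, Real.rpow_two]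
      rw [this]
      field_simp
    rw [b4] at b3
    refine le_trans ?_ b3
    have h2 : a ^ q * r ≤ a ^ q * (a * α - a ^ 2) :=
      mul_le_mul_of_nonneg_left (by linarith) (Real.rpow_nonneg h0.le q)
    nlinarith

theorem qp_smul (q : ℝ) (F K : ℂ) (t : ℝ) : qp q F ((t : ℂ) * K) = t ^ 2 * qp q F K := by
  unfold qp
  have e : (conj F * ((t : ℂ) * K)).re = t * (conj F * K).re := by
    rw [show conj F * ((t : ℂ) * K) = (t : ℂ) * (conj F * K) by ring, Complex.re_ofReal_mul]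
  rw [e, norm_mul, Complex.norm_real, mul_pow, Real.norm_eq_abs, sq_abs]
  ring

theorem qp_nonneg {q : ℝ} (hq0 : 0 ≤ q) (F K : ℂ) : 0 ≤ qp q F K := by
  unfold qp
  positivity

theorem qp_le {q : ℝ} (hq0 : 0 < q) (hq2 : q ≤ 2) (F K : ℂ) :
    qp q F K ≤ 3 * (‖F‖ ^ q * ‖K‖ ^ 2) := by
  unfold qp
  have h := re_conj_mul_le F K
  have h2 : ((conj F * K).re) ^ 2 ≤ (‖F‖ * ‖K‖) ^ 2 := by
    rw [← sq_abs]
    exact pow_le_pow_left₀ (abs_nonneg _) h 2
  rcases (norm_nonneg F).eq_or_lt with h0 | h0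
  · have hF : F = 0 := norm_eq_zero.1 h0.symm
    subst hF
    simp [Real.zero_rpow hq0.ne']
  · have h3 : ‖F‖ ^ (q - 2) * ((conj F * K).re) ^ 2 ≤ ‖F‖ ^ q * ‖K‖ ^ 2 := by
      calc ‖F‖ ^ (q - 2) * ((conj F * K).re) ^ 2 ≤ ‖F‖ ^ (q - 2) * (‖F‖ * ‖K‖) ^ 2 := by gcongr
        _ = (‖F‖ ^ (q - 2) * ‖F‖ ^ 2) * ‖K‖ ^ 2 := by ring
        _ = _ := by
          rw [← Real.rpow_natCast ‖F‖ 2, ← Real.rpow_add h0]
          norm_num
    have h4 : 0 ≤ ‖F‖ ^ q * ‖K‖ ^ 2 := by positivity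
    have h5 : q * (‖F‖ ^ (q - 2) * ((conj F * K).re) ^ 2) ≤ 2 * (‖F‖ ^ q * ‖K‖ ^ 2) := by
      calc q * (‖F‖ ^ (q - 2) * ((conj F * K).re) ^ 2) ≤ q * (‖F‖ ^ q * ‖K‖ ^ 2) := by gcongr
        _ ≤ _ := by gcongr
    linarith

end Pool.Agent.ConeG.SV
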