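import Pool.Agent.Work.MP_b0b133_an.G.SVa2

/-!
# First and second variation along a line, with explicit errors
-/

set_option autoImplicit false

open Complex MeasureTheory
open scoped ComplexConjugate

namespace Pool.Agent.ConeG.SV

section Var

variable {Ω : Type*} [MeasurableSpace Ω] {μ : Measure Ω} [IsProbabilityMeasure μ]
variable {F K : Ω → ℂ} {A B : ℝ} {q : ℝ}

omit [IsProbabilityMeasure μ] in
theorem aesm_qp (q : ℝ) (hF : AEMeasurable F μ) (hK : AEMeasurable K μ) :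
    AEStronglyMeasurable (fun ω => qp q (F ω) (K ω)) μ := by
  unfold qp
  have h1 : AEMeasurable (fun ω => (conj (F ω) * K ω).re) μ :=
    Complex.measurable_re.comp_aemeasurable
      ((Complex.continuous_conj.measurable.comp_aemeasurable hF).mul hK)
  exact (((hF.norm.pow_const q).mul (hK.norm.pow_const 2)).add
    (((hF.norm.pow_const (q - 2)).mul (h1.pow_const 2)).const_mul q)).aestronglyMeasurable

theorem integrable_qp (hq0 : 0 < q) (hq2 : q ≤ 2) (hF : AEMeasurable F μ) (hK : AEMeasurable K μ)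
    (hA : ∀ᵐ ω ∂μ, ‖F ω‖ ≤ A) (hB : ∀ᵐ ω ∂μ, ‖K ω‖ ≤ B) :
    Integrable (fun ω => qp q (F ω) (K ω)) μ := by
  refine Integrable.of_bound (aesm_qp q hF hK) (3 * (A ^ q * B ^ 2)) ?_
  filter_upwards [hA, hB] with ω h1 h2
  rw [Real.norm_eq_abs, abs_of_nonneg (qp_nonneg hq0.le _ _)]
  refine (qp_le hq0 hq2 _ _).trans ?_
  have h3 : ‖K ω‖ ^ 2 ≤ B ^ 2 := pow_le_pow_left₀ (norm_nonneg _) h2 2
  have h4 : ‖F ω‖ ^ q ≤ A ^ q := Real.rpow_le_rpow (norm_nonneg _) h1 hq0.le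
  have h5 : 0 ≤ A ^ q := (Real.rpow_nonneg (norm_nonneg _) q).trans h4
  have := mul_le_mul h4 h3 (by positivity) h5
  linarith

theorem integrable_pow (hq0 : 0 < q) (hF : AEMeasurable F μ) (hA : ∀ᵐ ω ∂μ, ‖F ω‖ ≤ A) :
    Integrable (fun ω => ‖F ω‖ ^ (q + 2)) μ := by
  refine Integrable.of_bound (hF.norm.pow_const (q + 2)).aestronglyMeasurable (A ^ (q + 2)) ?_
  filter_upwards [hA] with ω h1
  rw [Real.norm_eq_abs, abs_of_nonneg (by positivity)]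
  exact Real.rpow_le_rpow (norm_nonneg _) h1 (by linarith)

theorem integrable_lin (hq0 : 0 < q) (hF : AEMeasurable F μ) (hK : AEMeasurable K μ)
    (hA : ∀ᵐ ω ∂μ, ‖F ω‖ ≤ A) (hB : ∀ᵐ ω ∂μ, ‖K ω‖ ≤ B) :
    Integrable (fun ω => ‖F ω‖ ^ q * (conj (F ω) * K ω).re) μ := by
  have h1 : AEMeasurable (fun ω => (conj (F ω) * K ω).re) μ :=
    Complex.measurable_re.comp_aemeasurable
      ((Complex.continuous_conj.measurable.comp_aemeasurable hF).mul hK)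
  refine Integrable.of_bound ((hF.norm.pow_const q).mul h1).aestronglyMeasurable
    (A ^ q * (A * B)) ?_
  filter_upwards [hA, hB] with ω h2 h3
  rw [Real.norm_eq_abs, abs_mul, abs_of_nonneg (Real.rpow_nonneg (norm_nonneg (F ω)) q)]
  have h4 := re_conj_mul_le (F ω) (K ω)
  have h0 : 0 ≤ A := (norm_nonneg _).trans h2
  have h5 : ‖F ω‖ * ‖K ω‖ ≤ A * B := mul_le_mul h2 h3 (norm_nonneg _) h0
  exact mul_le_mul (Real.rpow_le_rpow (norm_nonneg _) h2 hq0.le) (h4.trans h5) (abs_nonneg _)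
    (Real.rpow_nonneg h0 q)

omit [IsProbabilityMeasure μ] in
theorem ae_bd_add (t : ℝ) (hA : ∀ᵐ ω ∂μ, ‖F ω‖ ≤ A) (hB : ∀ᵐ ω ∂μ, ‖K ω‖ ≤ B) :
    ∀ᵐ ω ∂μ, ‖F ω + (t : ℂ) * K ω‖ ≤ A + |t| * B := by
  filter_upwards [hA, hB] with ω h1 h2
  refine (norm_add_le _ _).trans ?_
  rw [norm_mul, Complex.norm_real, Real.norm_eq_abs]
  have := mul_le_mul_of_nonneg_left h2 (abs_nonneg t)
  linarith

omit [IsProbabilityMeasure μ] in
theorem aem_add (t : ℝ) (hF : AEMeasurable F μ) (hK : AEMeasurable K μ) :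
    AEMeasurable (fun ω => F ω + (t : ℂ) * K ω) μ :=
  hF.add (hK.const_mul _)

/-- bound of the power along a line -/
theorem line_bound {c e M t : ℝ} (hq0 : 0 < q) (hq2 : q ≤ 2) (ht1 : |t| ≤ 1) (he : 0 ≤ e)
    (heM : e ≤ M) (hcM : |c| ≤ M) (hpos : 0 ≤ 1 + 2 * t * c + t ^ 2 * e) :
    (1 + 2 * t * c + t ^ 2 * e) ^ ((q + 2) / 2) ≤
      1 + (q + 2) * t * c + (2 * M + 9 * M ^ 2 + 27 * M ^ 3) * t ^ 2 := by
  have hM : 0 ≤ M := he.trans heM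
  have h3 := pow_taylor (s := (q + 2) / 2) (X := 2 * t * c + t ^ 2 * e) (by linarith)
    (by linarith) (by linarith)
  rw [← add_assoc] at h3
  refine h3.trans ?_
  have habs : |2 * t * c + t ^ 2 * e| ≤ 3 * |t| * M := by
    have a1 : |2 * t * c| ≤ 2 * |t| * M := by
      rw [abs_mul, abs_mul]
      simp only [Nat.abs_ofNat]
      exact mul_le_mul_of_nonneg_left hcM (by positivity)
    have a2 : |t ^ 2 * e| ≤ |t| * M := by
      rw [abs_mul, abs_of_nonneg he, abs_pow]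
      have : |t| ^ 2 ≤ |t| := by nlinarith [abs_nonneg t]
      exact mul_le_mul this heM he (abs_nonneg _)
    calc |2 * t * c + t ^ 2 * e| ≤ |2 * t * c| + |t ^ 2 * e| := abs_add_le _ _
      _ ≤ _ := by linarith
  have hsq : (2 * t * c + t ^ 2 * e) ^ 2 ≤ 9 * t ^ 2 * M ^ 2 := by
    rw [← sq_abs]
    calc |2 * t * c + t ^ 2 * e| ^ 2 ≤ (3 * |t| * M) ^ 2 := pow_le_pow_left₀ (abs_nonneg _) habs 2
      _ = 9 * |t| ^ 2 * M ^ 2 := by ring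
      _ = _ := by rw [sq_abs]
  have hcu : |2 * t * c + t ^ 2 * e| ^ 3 ≤ 27 * t ^ 2 * M ^ 3 := by
    calc |2 * t * c + t ^ 2 * e| ^ 3 ≤ (3 * |t| * M) ^ 3 := pow_le_pow_left₀ (abs_nonneg _) habs 3
      _ = 27 * (|t| ^ 2 * |t|) * M ^ 3 := by ring
      _ ≤ 27 * (|t| ^ 2 * 1) * M ^ 3 := by gcongr
      _ = _ := by rw [sq_abs]; ring
  have hte : t ^ 2 * e ≤ t ^ 2 * M := mul_le_mul_of_nonneg_left heM (sq_nonneg _)
  have k1 : (q + 2) / 2 * (t ^ 2 * e) ≤ 2 * (t ^ 2 * M) := by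
    have : 0 ≤ t ^ 2 * e := by positivity
    calc (q + 2) / 2 * (t ^ 2 * e) ≤ 2 * (t ^ 2 * e) :=
          mul_le_mul_of_nonneg_right (by linarith) this
      _ ≤ _ := by linarith
  have k2 : (q + 2) / 2 * ((q + 2) / 2 - 1) / 2 * (2 * t * c + t ^ 2 * e) ^ 2 ≤
      9 * t ^ 2 * M ^ 2 := by
    have k3 : (q + 2) / 2 * ((q + 2) / 2 - 1) / 2 ≤ 1 := by nlinarith
    calc (q + 2) / 2 * ((q + 2) / 2 - 1) / 2 * (2 * t * c + t ^ 2 * e) ^ 2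
        ≤ 1 * (2 * t * c + t ^ 2 * e) ^ 2 := mul_le_mul_of_nonneg_right k3 (sq_nonneg _)
      _ ≤ _ := by linarith
  have k4 : (q + 2) / 2 * (2 * t * c + t ^ 2 * e) =
      (q + 2) * t * c + (q + 2) / 2 * (t ^ 2 * e) := by ring
  rw [k4]
  linarith

/-- first variation with explicit error -/
theorem first_var_one (hq0 : 0 < q) (hq2 : q ≤ 2) (hF : AEMeasurable F μ) (hK : AEMeasurable K μ)
    (hA : ∀ᵐ ω ∂μ, ‖F ω‖ ≤ A) (hB : ∀ᵐ ω ∂μ, ‖K ω‖ ≤ B)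
    {S ε c e M t : ℝ} (hS : 0 ≤ S) (ht1 : |t| ≤ 1) (he : 0 ≤ e) (heM : e ≤ M) (hcM : |c| ≤ M)
    (hpos : ∀ s : ℝ, 0 ≤ 1 + 2 * s * c + s ^ 2 * e)
    (hsup : ∀ s : ℝ, ∫ ω, ‖F ω + (s : ℂ) * K ω‖ ^ (q + 2) ∂μ ≤
      S * (1 + 2 * s * c + s ^ 2 * e) ^ ((q + 2) / 2))
    (hnear : S - ε ≤ ∫ ω, ‖F ω‖ ^ (q + 2) ∂μ) :
    (q + 2) * t * ((∫ ω, ‖F ω‖ ^ q * (conj (F ω) * K ω).re ∂μ) - S * c) ≤
      ε + S * (2 * M + 9 * M ^ 2 + 27 * M ^ 3) * t ^ 2 := by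
  have h1 : (∫ ω, ‖F ω‖ ^ (q + 2) ∂μ) +
      (q + 2) * t * (∫ ω, ‖F ω‖ ^ q * (conj (F ω) * K ω).re ∂μ) ≤
      ∫ ω, ‖F ω + (t : ℂ) * K ω‖ ^ (q + 2) ∂μ := by
    rw [← integral_const_mul, ← integral_add (integrable_pow hq0 hF hA)
      ((integrable_lin hq0 hF hK hA hB).const_mul _)]
    refine integral_mono ((integrable_pow hq0 hF hA).add
      ((integrable_lin hq0 hF hK hA hB).const_mul _))
      (integrable_pow hq0 (aem_add t hF hK) (ae_bd_add t hA hB)) ?_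
    intro ω
    have h := pow_convex hq0 (F ω) ((t : ℂ) * K ω)
    have e : (conj (F ω) * ((t : ℂ) * K ω)).re = t * (conj (F ω) * K ω).re := by
      rw [show conj (F ω) * ((t : ℂ) * K ω) = (t : ℂ) * (conj (F ω) * K ω) by ring,
        Complex.re_ofReal_mul]
    rw [e] at h
    simp only
    refine le_trans (le_of_eq ?_) h
    ring
  have h2 := hsup t
  have h4 := line_bound hq0 hq2 ht1 he heM hcM (hpos t)
  have h5 := mul_le_mul_of_nonneg_left h4 hS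
  generalize (1 + 2 * t * c + t ^ 2 * e) ^ ((q + 2) / 2) = w at *
  generalize (∫ ω, ‖F ω‖ ^ q * (conj (F ω) * K ω).re ∂μ) = L at *
  have h6 : S * (1 + (q + 2) * t * c + (2 * M + 9 * M ^ 2 + 27 * M ^ 3) * t ^ 2) =
    S + (q + 2) * t * (S * c) + S * (2 * M + 9 * M ^ 2 + 27 * M ^ 3) * t ^ 2 := by ring
  have h7 : (q + 2) * t * (L - S * c) = (q + 2) * t * L - (q + 2) * t * (S * c) := by ring
  linarith

theorem first_var_abs (hq0 : 0 < q) (hq2 : q ≤ 2) (hF : AEMeasurable F μ) (hK : AEMeasurable K μ)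
    (hA : ∀ᵐ ω ∂μ, ‖F ω‖ ≤ A) (hB : ∀ᵐ ω ∂μ, ‖K ω‖ ≤ B)
    {S ε c e M t : ℝ} (hS : 0 ≤ S) (ht0 : 0 < t) (ht1 : t ≤ 1) (he : 0 ≤ e) (heM : e ≤ M)
    (hcM : |c| ≤ M) (hε : 0 ≤ ε)
    (hpos : ∀ s : ℝ, 0 ≤ 1 + 2 * s * c + s ^ 2 * e)
    (hsup : ∀ s : ℝ, ∫ ω, ‖F ω + (s : ℂ) * K ω‖ ^ (q + 2) ∂μ ≤
      S * (1 + 2 * s * c + s ^ 2 * e) ^ ((q + 2) / 2))
    (hnear : S - ε ≤ ∫ ω, ‖F ω‖ ^ (q + 2) ∂μ) :
    |(∫ ω, ‖F ω‖ ^ q * (conj (F ω) * K ω).re ∂μ) - S * c| ≤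
      (ε / t + S * (2 * M + 9 * M ^ 2 + 27 * M ^ 3) * t) / 2 := by
  have h1 := first_var_one hq0 hq2 hF hK hA hB hS (t := t) (by rwa [abs_of_pos ht0]) he heM hcM
    hpos hsup hnear
  have h2 := first_var_one hq0 hq2 hF hK hA hB hS (t := -t) (by rwa [abs_neg, abs_of_pos ht0]) he
    heM hcM hpos hsup hnear
  have hM : 0 ≤ M := he.trans heM
  set L := (∫ ω, ‖F ω‖ ^ q * (conj (F ω) * K ω).re ∂μ) - S * c with hL
  set D := S * (2 * M + 9 * M ^ 2 + 27 * M ^ 3) with hD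
  have hD0 : 0 ≤ D := by positivity
  have e1 : (ε / t + D * t) / 2 = (ε + D * t ^ 2) / (2 * t) := by
    field_simp
  have hN : 0 ≤ ε + D * t ^ 2 := by positivity
  have e2 : (ε + D * t ^ 2) / ((q + 2) * t) ≤ (ε + D * t ^ 2) / (2 * t) := by
    apply div_le_div_of_nonneg_left hN (by positivity)
    exact mul_le_mul_of_nonneg_right (by linarith) ht0.le
  rw [e1, abs_le]
  constructor
  · rw [neg_le]
    refine le_trans ?_ e2
    rw [le_div_iff₀ (by positivity)]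
    nlinarith
  · refine le_trans ?_ e2
    rw [le_div_iff₀ (by positivity)]
    nlinarith

/-- second variation with explicit error -/
theorem second_var_abs (hq0 : 0 < q) (hq2 : q ≤ 2) (hF : AEMeasurable F μ) (hK : AEMeasurable K μ)
    (hA : ∀ᵐ ω ∂μ, ‖F ω‖ ≤ A) (hB : ∀ᵐ ω ∂μ, ‖K ω‖ ≤ B)
    {S ε c e M t : ℝ} (hS : 0 ≤ S) (ht0 : 0 < t) (ht1 : t ≤ 1) (he : 0 ≤ e) (heM : e ≤ M)
    (hcM : |c| ≤ M) (hε : 0 ≤ ε)
    (hpos : ∀ s : ℝ, 0 ≤ 1 + 2 * s * c + s ^ 2 * e)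
    (hsup : ∀ s : ℝ, ∫ ω, ‖F ω + (s : ℂ) * K ω‖ ^ (q + 2) ∂μ ≤
      S * (1 + 2 * s * c + s ^ 2 * e) ^ ((q + 2) / 2))
    (hnear : S - ε ≤ ∫ ω, ‖F ω‖ ^ (q + 2) ∂μ) :
    ∫ ω, qp q (F ω) (K ω) ∂μ ≤ S * (e + q * c ^ 2) +
      (S * (2 * M ^ 2 + 54 * M ^ 3) * t + 2 * ε / t ^ 2) / 2 +
        q * t ^ q * ∫ ω, ‖K ω‖ ^ (q + 2) ∂μ := by
  have hM : 0 ≤ M := he.trans heM
  have h1 : 2 * (∫ ω, ‖F ω‖ ^ (q + 2) ∂μ) + (q + 2) * t ^ 2 * (∫ ω, qp q (F ω) (K ω) ∂μ) ≤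
      (q + 2) * q * t ^ (q + 2) * (∫ ω, ‖K ω‖ ^ (q + 2) ∂μ) +
      ((∫ ω, ‖F ω + (t : ℂ) * K ω‖ ^ (q + 2) ∂μ) +
        ∫ ω, ‖F ω + ((-t : ℝ) : ℂ) * K ω‖ ^ (q + 2) ∂μ) := by
    have i1 := integrable_pow hq0 (aem_add t hF hK) (ae_bd_add t hA hB)
    have i2 := integrable_pow hq0 (aem_add (-t) hF hK) (ae_bd_add (-t) hA hB)
    have i3 := (integrable_pow hq0 hK hB).const_mul ((q + 2) * q * t ^ (q + 2))
    rw [← integral_const_mul, ← integral_const_mul, ← integral_const_mul, ← integral_add i1 i2,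
      ← integral_add ((integrable_pow hq0 hF hA).const_mul _)
        ((integrable_qp hq0 hq2 hF hK hA hB).const_mul _)]
    have i12 : Integrable (fun ω => ‖F ω + (t : ℂ) * K ω‖ ^ (q + 2) +
      ‖F ω + ((-t : ℝ) : ℂ) * K ω‖ ^ (q + 2)) μ := i1.add i2
    rw [← integral_add i3 i12]
    refine integral_mono (((integrable_pow hq0 hF hA).const_mul _).add
        ((integrable_qp hq0 hq2 hF hK hA hB).const_mul _)) (i3.add i12) ?_
    intro ω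
    have h := pow_two_sided hq0 hq2 (F ω) ((t : ℂ) * K ω)
    rw [qp_smul] at h
    have e : F ω + ((-t : ℝ) : ℂ) * K ω = F ω - (t : ℂ) * K ω := by push_cast; ring
    have e2 : ‖(t : ℂ) * K ω‖ ^ (q + 2) = t ^ (q + 2) * ‖K ω‖ ^ (q + 2) := by
      rw [norm_mul, Complex.norm_real, Real.norm_eq_abs, abs_of_pos ht0,
        Real.mul_rpow ht0.le (norm_nonneg _)]
    rw [e2] at h
    simp only
    rw [e]
    linarith
  have h2 := hsup t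
  have h2' := hsup (-t)
  have h3 := pow_taylor (s := (q + 2) / 2) (X := 2 * t * c + t ^ 2 * e) (by linarith)
    (by linarith) (by linarith [hpos t])
  have h3' := pow_taylor (s := (q + 2) / 2) (X := 2 * (-t) * c + (-t) ^ 2 * e) (by linarith)
    (by linarith) (by linarith [hpos (-t)])
  rw [← add_assoc] at h3 h3'
  have a1 : |2 * t * c| ≤ 2 * t * M := by
    rw [abs_mul, abs_mul, abs_of_pos ht0]
    simp only [Nat.abs_ofNat]
    exact mul_le_mul_of_nonneg_left hcM (by positivity)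
  have a2 : |t ^ 2 * e| ≤ t * M := by
    rw [abs_mul, abs_of_nonneg he, abs_pow, abs_of_pos ht0]
    have : t ^ 2 ≤ t := by nlinarith
    exact mul_le_mul this heM he ht0.le
  have habs : |2 * t * c + t ^ 2 * e| ≤ 3 * t * M := by
    calc |2 * t * c + t ^ 2 * e| ≤ |2 * t * c| + |t ^ 2 * e| := abs_add_le _ _
      _ ≤ _ := by linarith
  have habs' : |2 * (-t) * c + (-t) ^ 2 * e| ≤ 3 * t * M := by
    have : 2 * (-t) * c + (-t) ^ 2 * e = -(2 * t * c) + t ^ 2 * e := by ring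
    rw [this]
    calc |-(2 * t * c) + t ^ 2 * e| ≤ |-(2 * t * c)| + |t ^ 2 * e| := abs_add_le _ _
      _ ≤ _ := by rw [abs_neg]; linarith
  have hcu : |2 * t * c + t ^ 2 * e| ^ 3 ≤ 27 * t ^ 3 * M ^ 3 := by
    calc |2 * t * c + t ^ 2 * e| ^ 3 ≤ (3 * t * M) ^ 3 := pow_le_pow_left₀ (abs_nonneg _) habs 3
      _ = _ := by ring
  have hcu' : |2 * (-t) * c + (-t) ^ 2 * e| ^ 3 ≤ 27 * t ^ 3 * M ^ 3 := by
    calc |2 * (-t) * c + (-t) ^ 2 * e| ^ 3 ≤ (3 * t * M) ^ 3 :=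
          pow_le_pow_left₀ (abs_nonneg _) habs' 3
      _ = _ := by ring
  have he2 : t ^ 4 * e ^ 2 ≤ t ^ 3 * M ^ 2 := by
    have b1 : t ^ 4 ≤ t ^ 3 := by
      have : 0 ≤ t ^ 3 := by positivity
      nlinarith
    have b2 : e ^ 2 ≤ M ^ 2 := pow_le_pow_left₀ he heM 2
    exact mul_le_mul b1 b2 (by positivity) (by positivity)
  set w := (1 + 2 * t * c + t ^ 2 * e) ^ ((q + 2) / 2) with hw
  set w' := (1 + 2 * (-t) * c + (-t) ^ 2 * e) ^ ((q + 2) / 2) with hw'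
  have h4 : w + w' ≤ 2 + (q + 2) * t ^ 2 * (e + q * c ^ 2) + t ^ 3 * (2 * M ^ 2 + 54 * M ^ 3) := by
    have e3 : (q + 2) / 2 * ((q + 2) / 2 - 1) / 2 * (2 * t * c + t ^ 2 * e) ^ 2 +
        (q + 2) / 2 * ((q + 2) / 2 - 1) / 2 * (2 * (-t) * c + (-t) ^ 2 * e) ^ 2
        = (q + 2) * t ^ 2 * (q * c ^ 2) + (q + 2) * q / 4 * (t ^ 4 * e ^ 2) := by ring
    have e4 : (q + 2) / 2 * (2 * t * c + t ^ 2 * e) +
        (q + 2) / 2 * (2 * (-t) * c + (-t) ^ 2 * e) = (q + 2) * t ^ 2 * e := by ring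
    have e5 : (q + 2) * q / 4 * (t ^ 4 * e ^ 2) ≤ 2 * (t ^ 3 * M ^ 2) := by
      have : (q + 2) * q / 4 ≤ 2 := by nlinarith
      exact mul_le_mul this he2 (by positivity) (by norm_num)
    have e6 : (q + 2) * t ^ 2 * (e + q * c ^ 2) =
      (q + 2) * t ^ 2 * e + (q + 2) * t ^ 2 * (q * c ^ 2) := by ring
    rw [e6]
    linarith
  have h5 := mul_le_mul_of_nonneg_left h4 hS
  set Q := ∫ ω, qp q (F ω) (K ω) ∂μ with hQ
  set T := ∫ ω, ‖K ω‖ ^ (q + 2) ∂μ with hT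
  have htq : t ^ (q + 2) = t ^ q * t ^ 2 := by rw [Real.rpow_add ht0, Real.rpow_two]
  rw [htq] at h1
  set D := 2 * M ^ 2 + 54 * M ^ 3 with hD
  have hD0 : 0 ≤ D := by positivity
  have h6 : (q + 2) * t ^ 2 * Q ≤ (q + 2) * t ^ 2 * (S * (e + q * c ^ 2) + q * t ^ q * T) +
      (S * D * t ^ 3 + 2 * ε) := by
    have e7 : S * (2 + (q + 2) * t ^ 2 * (e + q * c ^ 2) + t ^ 3 * D) =
        2 * S + (q + 2) * t ^ 2 * (S * (e + q * c ^ 2)) + S * D * t ^ 3 := by ring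
    have e8 : (q + 2) * t ^ 2 * (S * (e + q * c ^ 2) + q * t ^ q * T) =
      (q + 2) * t ^ 2 * (S * (e + q * c ^ 2)) + (q + 2) * q * (t ^ q * t ^ 2) * T := by ring
    rw [e8]
    linarith
  have hN : 0 ≤ S * D * t ^ 3 + 2 * ε := by positivity
  have h7 : S * D * t ^ 3 + 2 * ε ≤ (q + 2) * t ^ 2 * ((S * D * t + 2 * ε / t ^ 2) / 2) := by
    have e9 : (q + 2) * t ^ 2 * ((S * D * t + 2 * ε / t ^ 2) / 2) =
        (q + 2) / 2 * (S * D * t ^ 3 + 2 * ε) := by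
      field_simp
    rw [e9]
    have : 1 ≤ (q + 2) / 2 := by linarith
    nlinarith
  have h8 : 0 < (q + 2) * t ^ 2 := by positivity
  refine le_of_mul_le_mul_left ?_ h8
  have e10 : (q + 2) * t ^ 2 * (S * (e + q * c ^ 2) + (S * D * t + 2 * ε / t ^ 2) / 2 +
      q * t ^ q * T) = (q + 2) * t ^ 2 * (S * (e + q * c ^ 2) + q * t ^ q * T) +
      (q + 2) * t ^ 2 * ((S * D * t + 2 * ε / t ^ 2) / 2) := by ring
  rw [e10]
  linarith

end Var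

end Pool.Agent.ConeG.SV
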