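import Pool.Agent.Work.MP_b0b133_an.G.P1
import Pool.Agent.Work.MP_b0b133_an.G.SVa3

/-!
# Pointwise identities on the support of the law of `X`
-/

set_option autoImplicit false
open MeasureTheory Complex
open scoped ENNReal ComplexConjugate

namespace Pool.Agent.ConeG.SV

section Pointwise

variable {d : ℕ} {x : CC d} {s : ℂ}

theorem norm_s (hx : ∑ j, ‖x j‖ ^ 2 = 1) (hs : ∀ j, s * conj (x j) = x j) : ‖s‖ = 1 := by
  obtain ⟨j, hj⟩ : ∃ j, x j ≠ 0 := by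
    by_contra h
    push Not at h
    simp [h] at hx
  have h1 : ‖s‖ * ‖x j‖ = ‖x j‖ := by
    have := congrArg norm (hs j)
    rwa [norm_mul, Complex.norm_conj] at this
  have h2 : ‖x j‖ ≠ 0 := norm_ne_zero_iff.2 hj
  exact mul_right_cancel₀ h2 (by rw [h1, one_mul])

theorem s_conj (hx : ∑ j, ‖x j‖ ^ 2 = 1) (hs : ∀ j, s * conj (x j) = x j) : s * conj s = 1 := by
  rw [Complex.mul_conj, Complex.normSq_eq_norm_sq, norm_s hx hs]
  simp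

/-- `Z_j = conj F U_j - s F conj U_j` -/
noncomputable def Zf (s F U : ℂ) : ℂ := conj F * U - s * F * conj U

theorem re_sub_conj (z : ℂ) : (z - conj z).re = 0 := by simp

theorem re_conj_Z (j : Fin (d + 1)) (hs : ∀ j, s * conj (x j) = x j) (F U : ℂ) :
    (conj (x j) * Zf s F U).re = 0 := by
  have e : conj (x j) * Zf s F U = conj (x j) * conj F * U - conj (conj (x j) * conj F * U) := by
    unfold Zf
    simp only [map_mul, Complex.conj_conj]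
    linear_combination (-(F * conj U)) * hs j
  rw [e]
  exact re_sub_conj _

/-- parallelogram -/
theorem par_norm (a b : ℂ) : ‖a + b‖ ^ 2 + ‖I * (b - a)‖ ^ 2 = 2 * ‖a‖ ^ 2 + 2 * ‖b‖ ^ 2 := by
  rw [norm_mul, Complex.norm_I, one_mul]
  have h1 := normsq_add a b
  have h2 := normsq_sub a b
  rw [norm_sub_rev]
  linarith

theorem re_pair (F a b : ℂ) :
    ((conj F * (a + b)).re) ^ 2 + ((conj F * (I * (b - a))).re) ^ 2 =
      ‖conj F * b + F * conj a‖ ^ 2 := by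
  rw [Complex.sq_norm, Complex.normSq_apply]
  simp
  ring

theorem norm_rho (hx : ∑ j, ‖x j‖ ^ 2 = 1) (hs : ∀ j, s * conj (x j) = x j) (F ρ : ℂ) (j : Fin (d + 1)) :
    ‖ρ‖ ^ 2 + ‖2 * x j * F - s * ρ‖ ^ 2 = 2 * (‖x j‖ ^ 2 * ‖F‖ ^ 2) + 2 * ‖x j * F - s * ρ‖ ^ 2 := by
  have h1 : ‖ρ‖ = ‖x j * F - (x j * F - s * ρ)‖ := by
    have e : x j * F - (x j * F - s * ρ) = s * ρ := by ring
    rw [e, norm_mul, norm_s hx hs, one_mul]
  have h2 : 2 * x j * F - s * ρ = x j * F + (x j * F - s * ρ) := by ring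
  rw [h1, h2, normsq_add, normsq_sub, norm_mul]
  ring

theorem lam_pt (hx : ∑ j, ‖x j‖ ^ 2 = 1) (hs : ∀ j, s * conj (x j) = x j) (F ρ : ℂ) (j : Fin (d + 1)) :
    conj F * (2 * x j * F - s * ρ) + F * conj ρ =
      2 * x j * (‖F‖ ^ 2 : ℝ) + Zf s F (x j * F - s * ρ) := by
  have h1 := s_conj hx hs
  have h2 : ((‖F‖ ^ 2 : ℝ) : ℂ) = conj F * F := by
    rw [← Complex.normSq_eq_conj_mul_self, Complex.normSq_eq_norm_sq]
  rw [h2]
  unfold Zf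
  simp only [map_mul, map_sub]
  linear_combination (F * conj F) * hs j - (F * conj ρ) * h1

theorem norm_lam (hs : ∀ j, s * conj (x j) = x j) (F U : ℂ) (j : Fin (d + 1)) :
    ‖2 * x j * (‖F‖ ^ 2 : ℝ) + Zf s F U‖ ^ 2 = 4 * (‖x j‖ ^ 2 * ‖F‖ ^ 4) + ‖Zf s F U‖ ^ 2 := by
  rw [normsq_add]
  have h1 : (conj (2 * x j * ((‖F‖ ^ 2 : ℝ) : ℂ)) * Zf s F U).re = 0 := by
    have e : conj (2 * x j * ((‖F‖ ^ 2 : ℝ) : ℂ)) * Zf s F U =
        ((2 * ‖F‖ ^ 2 : ℝ) : ℂ) * (conj (x j) * Zf s F U) := by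
      simp only [map_mul, Complex.conj_ofReal]
      push_cast
      have : conj (2 : ℂ) = 2 := Complex.conj_ofNat 2
      rw [this]
      ring
    rw [e, Complex.re_ofReal_mul, re_conj_Z j hs, mul_zero]
  rw [h1, norm_mul, norm_mul, Complex.norm_real]
  simp
  ring

/-- the density of the second variation in the two directions `∂_j ψ + R_j ψ`,
`i (R_j ψ - ∂_j ψ)` -/
theorem qp_pair {q : ℝ} (hq0 : 0 < q) (hx : ∑ j, ‖x j‖ ^ 2 = 1) (hs : ∀ j, s * conj (x j) = x j)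
    (F ρ : ℂ) (j : Fin (d + 1)) :
    qp q F (ρ + (2 * x j * F - s * ρ)) + qp q F (I * ((2 * x j * F - s * ρ) - ρ)) =
      (4 + 4 * q) * (‖x j‖ ^ 2 * ‖F‖ ^ (q + 2)) + 4 * (‖F‖ ^ q * ‖x j * F - s * ρ‖ ^ 2) +
        q * (‖F‖ ^ (q - 2) * ‖Zf s F (x j * F - s * ρ)‖ ^ 2) := by
  unfold qp
  have h1 := par_norm ρ (2 * x j * F - s * ρ)
  have h2 := re_pair F ρ (2 * x j * F - s * ρ)
  rw [lam_pt hx hs, norm_lam hs] at h2
  have h3 := norm_rho hx hs F ρ j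
  set U := x j * F - s * ρ
  set R := 2 * x j * F - s * ρ
  set a := (conj F * (ρ + R)).re
  set b := (conj F * (I * (R - ρ))).re
  have h4 : ‖F‖ ^ (q - 2) * a ^ 2 + ‖F‖ ^ (q - 2) * b ^ 2 =
      4 * (‖x j‖ ^ 2 * ‖F‖ ^ (q + 2)) + ‖F‖ ^ (q - 2) * ‖Zf s F U‖ ^ 2 := by
    rw [← mul_add, h2, mul_add]
    congr 1
    rcases (norm_nonneg F).eq_or_lt with h0 | h0
    · rw [← h0, Real.zero_rpow (by linarith : q + 2 ≠ 0)]; simp
    · have : ‖F‖ ^ (q + 2) = ‖F‖ ^ (q - 2) * ‖F‖ ^ 4 := by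
        rw [← Real.rpow_natCast ‖F‖ 4, ← Real.rpow_add h0]
        norm_num
        ring_nf
      rw [this]
      ring
  have h5 : ‖ρ + R‖ ^ 2 + ‖I * (R - ρ)‖ ^ 2 = 4 * (‖x j‖ ^ 2 * ‖F‖ ^ 2) + 4 * ‖U‖ ^ 2 := by
    linarith
  have h6 : ‖F‖ ^ q * ‖F‖ ^ 2 = ‖F‖ ^ (q + 2) := by
    rcases (norm_nonneg F).eq_or_lt with h0 | h0
    · rw [← h0, Real.zero_rpow (by linarith : q + 2 ≠ 0)]; simp
    · rw [Real.rpow_add h0, Real.rpow_two]
  calc ‖F‖ ^ q * ‖ρ + R‖ ^ 2 + q * (‖F‖ ^ (q - 2) * a ^ 2) +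
        (‖F‖ ^ q * ‖I * (R - ρ)‖ ^ 2 + q * (‖F‖ ^ (q - 2) * b ^ 2))
      = ‖F‖ ^ q * (‖ρ + R‖ ^ 2 + ‖I * (R - ρ)‖ ^ 2) +
          q * (‖F‖ ^ (q - 2) * a ^ 2 + ‖F‖ ^ (q - 2) * b ^ 2) := by ring
    _ = 4 * (‖x j‖ ^ 2 * (‖F‖ ^ q * ‖F‖ ^ 2)) + 4 * (‖F‖ ^ q * ‖U‖ ^ 2) +
        q * (4 * (‖x j‖ ^ 2 * ‖F‖ ^ (q + 2)) + ‖F‖ ^ (q - 2) * ‖Zf s F U‖ ^ 2) := by
      rw [h4, h5]; ring
    _ = _ := by rw [h6]; ring

/-- Lagrange's identity -/
theorem lagrange (a b : CC d) :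
    1 / 2 * ∑ i, ∑ j, ‖a i * b j - a j * b i‖ ^ 2 =
      (∑ i, ‖a i‖ ^ 2) * (∑ i, ‖b i‖ ^ 2) - ‖∑ i, conj (a i) * b i‖ ^ 2 := by
  have key : ((1 / 2 * ∑ i, ∑ j, ‖a i * b j - a j * b i‖ ^ 2 : ℝ) : ℂ) =
      (((∑ i, ‖a i‖ ^ 2) * (∑ i, ‖b i‖ ^ 2) - ‖∑ i, conj (a i) * b i‖ ^ 2 : ℝ) : ℂ) := by
    have hn : ∀ z : ℂ, ((‖z‖ : ℂ)) ^ 2 = z * conj z := fun z => (Complex.mul_conj' z).symm
    push_cast
    simp only [hn, map_sub, map_mul, map_sum, Complex.conj_conj]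
    have e : ∀ i j : Fin (d + 1), (a i * b j - a j * b i) * (conj (a i) * conj (b j) - conj (a j) * conj (b i))
        = (a i * conj (a i)) * (b j * conj (b j)) + (a j * conj (a j)) * (b i * conj (b i))
          - (a i * conj (b i)) * (conj (a j) * b j) - (conj (a i) * b i) * (a j * conj (b j)) := by
      intro i j; ring
    simp only [e, Finset.sum_sub_distrib, Finset.sum_add_distrib, ← Finset.mul_sum, ← Finset.sum_mul]
    ring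
  exact_mod_cast key

/-- `∑ ‖U_j‖² = ‖H‖² + |v|²` -/
theorem sum_U (hx : ∑ j, ‖x j‖ ^ 2 = 1) (hs : ∀ j, s * conj (x j) = x j) (ρ : CC d) (F H : ℂ)
    (hE : ∑ j, x j * ρ j = F - H) :
    ∑ j, ‖x j * F - s * ρ j‖ ^ 2 =
      ‖H‖ ^ 2 + 1 / 2 * ∑ i, ∑ j, ‖x i * ρ j - x j * ρ i‖ ^ 2 := by
  rw [lagrange, hx, one_mul]
  have h1 : ‖∑ i, conj (x i) * ρ i‖ = ‖F - H‖ := by
    have : s * ∑ i, conj (x i) * ρ i = F - H := by
      rw [← hE, Finset.mul_sum]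
      refine Finset.sum_congr rfl fun i _ => ?_
      rw [← mul_assoc, hs i]
    rw [← this, norm_mul, norm_s hx hs, one_mul]
  rw [h1]
  have h2 : ∀ j, ‖x j * F - s * ρ j‖ ^ 2 =
      ‖x j‖ ^ 2 * ‖F‖ ^ 2 + ‖ρ j‖ ^ 2 - 2 * (conj F * (x j * ρ j)).re := by
    intro j
    rw [normsq_sub, norm_mul, norm_mul, norm_s hx hs]
    have e : conj (x j * F) * (s * ρ j) = conj F * (x j * ρ j) := by
      rw [map_mul]
      linear_combination (conj F * ρ j) * hs j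
    rw [e]
    ring
  simp only [h2, Finset.sum_sub_distrib, Finset.sum_add_distrib, ← Finset.sum_mul, hx,
    ← Finset.mul_sum, ← Complex.re_sum, hE]
  have h3 : ‖H‖ ^ 2 = ‖F‖ ^ 2 + ‖F - H‖ ^ 2 - 2 * (conj F * (F - H)).re := by
    have e : H = F - (F - H) := by ring
    conv_lhs => rw [e]
    rw [normsq_sub]
  linarith

end Pointwise

/-! ### evaluation -/

section Eval

variable {d : ℕ}

theorem ev_add (P Q : Poly d) (x : CC d) : ev (P + Q) x = ev P x + ev Q x := by simp [ev]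

theorem ev_sub (P Q : Poly d) (x : CC d) : ev (P - Q) x = ev P x - ev Q x := by simp [ev]

theorem ev_smul (c : ℂ) (P : Poly d) (x : CC d) : ev (c • P) x = c * ev P x := by simp [ev]

theorem ev_mul (P Q : Poly d) (x : CC d) : ev (P * Q) x = ev P x * ev Q x := by simp [ev]

theorem ev_X (j : Fin (d + 1)) (x : CC d) : ev (MvPolynomial.X j) x = x j := by simp [ev]

theorem ev_sqP (x : CC d) : ev sqP x = ∑ k, x k ^ 2 := by simp [ev, sqP]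

theorem ev_NP (P : Poly d) (x : CC d) : ev (NP P) x = ∑ j, x j * ev (MvPolynomial.pderiv j P) x := by
  simp [ev, NP]

theorem ev_AP (P : Poly d) (x : CC d) : ev (AP P) x = ev (NP P) x + (nu d : ℂ) * ev P x := by
  rw [AP, ev_add, ev_smul]

theorem ev_RP (j : Fin (d + 1)) (P : Poly d) (x : CC d) :
    ev (RP j P) x = 2 * x j * ev (AP P) x - (∑ k, x k ^ 2) * ev (MvPolynomial.pderiv j P) x := by
  rw [RP, ev_sub, ev_smul, ev_mul, ev_mul, ev_X, ev_sqP]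
  ring

theorem ev_LP (i j : Fin (d + 1)) (P : Poly d) (x : CC d) :
    ev (LP i j P) x =
      x i * ev (MvPolynomial.pderiv j P) x - x j * ev (MvPolynomial.pderiv i P) x := by
  rw [LP, ev_sub, ev_mul, ev_mul, ev_X, ev_X]

theorem continuous_ev (P : Poly d) : Continuous (ev P) := MvPolynomial.continuous_eval P

theorem bounded_ev (P : Poly d) : ∃ C : ℝ, 0 ≤ C ∧ ∀ x : CC d, ∑ j, ‖x j‖ ^ 2 = 1 → ‖ev P x‖ ≤ C := by
  obtain ⟨C, hC⟩ := (isCompact_closedBall (0 : CC d) 1).exists_bound_of_continuousOn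
    (continuous_ev P).continuousOn
  refine ⟨max C 0, le_max_right _ _, fun x hx => (hC x ?_).trans (le_max_left _ _)⟩
  rw [mem_closedBall_zero_iff, pi_norm_le_iff_of_nonneg zero_le_one]
  intro j
  have h1 : ‖x j‖ ^ 2 ≤ 1 := by
    rw [← hx]
    exact Finset.single_le_sum (f := fun j => ‖x j‖ ^ 2) (fun _ _ => sq_nonneg _)
      (Finset.mem_univ j)
  nlinarith [norm_nonneg (x j)]

theorem law_bdd {μ : Measure (CC d)} (hμ : Law μ) (P : Poly d) :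
    ∃ C : ℝ, 0 ≤ C ∧ ∀ᵐ x ∂μ, ‖ev P x‖ ≤ C := by
  obtain ⟨C, h0, hC⟩ := bounded_ev P
  refine ⟨C, h0, ?_⟩
  filter_upwards [hμ.supp] with x hx
  exact hC x hx.1

/-- `G2` as the sum of the `‖U_j‖²` -/
theorem G2_eq {x : CC d} (hx : ∑ j, ‖x j‖ ^ 2 = 1) (hs : ∀ j, (∑ k, x k ^ 2) * conj (x j) = x j)
    (ψ : Poly d) :
    ∑ j, ‖x j * ev (AP ψ) x - (∑ k, x k ^ 2) * ev (MvPolynomial.pderiv j ψ) x‖ ^ 2 = G2 ψ x := by
  rw [sum_U hx hs (fun j => ev (MvPolynomial.pderiv j ψ) x) (ev (AP ψ) x)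
    ((nu d : ℂ) * ev ψ x)]
  · simp only [G2, ev_LP]
  · rw [ev_AP, ev_NP]; ring

end Eval

end Pool.Agent.ConeG.SV
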