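import Pool.Agent.Work.MP_b0b133_an.G.SVb

/-!
# The energy form on polynomials
-/

set_option autoImplicit false
open MeasureTheory Complex
open scoped ENNReal ComplexConjugate

namespace Pool.Agent.ConeG.SV

variable {d : ℕ}

theorem NP_add (P Q : Poly d) : NP (P + Q) = NP P + NP Q := by
  simp only [NP, map_add, mul_add, Finset.sum_add_distrib]

theorem NP_smul (c : ℂ) (P : Poly d) : NP (c • P) = c • NP P := by
  simp only [NP, Finset.smul_sum]
  refine Finset.sum_congr rfl fun j _ => ?_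
  rw [Derivation.map_smul, mul_smul_comm]

theorem AP_add (P Q : Poly d) : AP (P + Q) = AP P + AP Q := by
  simp only [AP, NP_add, smul_add]
  abel

theorem AP_smul (c : ℂ) (P : Poly d) : AP (c • P) = c • AP P := by
  simp only [AP, NP_smul, smul_add]
  rw [smul_comm]

theorem AP_sub (P Q : Poly d) : AP (P - Q) = AP P - AP Q := by
  have : P - Q = P + (-1 : ℂ) • Q := by simp [sub_eq_add_neg]
  rw [this, AP_add, AP_smul]
  simp [sub_eq_add_neg]

section

variable {μ : Measure (CC d)}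

theorem law_int_cont (hμ : Law μ) {g : CC d → ℂ} (hg : Continuous g) {C : ℝ}
    (hC : ∀ᵐ x ∂μ, ‖g x‖ ≤ C) : Integrable g μ := by
  have := hμ.prob
  exact Integrable.of_bound hg.aestronglyMeasurable C hC

theorem law_int_pair (hμ : Law μ) (P Q : Poly d) :
    Integrable (fun x => conj (ev P x) * ev Q x) μ := by
  obtain ⟨C, hC0, hC⟩ := law_bdd hμ P
  obtain ⟨D, hD0, hD⟩ := law_bdd hμ Q
  refine law_int_cont hμ (C := C * D)
    ((Complex.continuous_conj.comp (continuous_ev P)).mul (continuous_ev Q)) ?_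
  filter_upwards [hC, hD] with x h1 h2
  rw [norm_mul, Complex.norm_conj]
  exact mul_le_mul h1 h2 (norm_nonneg _) hC0

theorem EB_add_left (hμ : Law μ) (P Q R : Poly d) : EB μ (P + Q) R = EB μ P R + EB μ Q R := by
  simp only [EB, ev_add, map_add, add_mul]
  rw [integral_add (law_int_pair hμ P (AP R)) (law_int_pair hμ Q (AP R)), Complex.add_re]
  ring

theorem EB_add_right (hμ : Law μ) (P Q R : Poly d) : EB μ P (Q + R) = EB μ P Q + EB μ P R := by
  simp only [EB, AP_add, ev_add, mul_add]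
  rw [integral_add (law_int_pair hμ P (AP Q)) (law_int_pair hμ P (AP R)), Complex.add_re]
  ring

theorem EB_smul_left (t : ℝ) (P Q : Poly d) : EB μ ((t : ℂ) • P) Q = t * EB μ P Q := by
  simp only [EB, ev_smul, map_mul, Complex.conj_ofReal, mul_assoc]
  rw [integral_const_mul, Complex.re_ofReal_mul]
  ring

theorem EB_smul_right (t : ℝ) (P Q : Poly d) : EB μ P ((t : ℂ) • Q) = t * EB μ P Q := by
  simp only [EB, AP_smul, ev_smul]
  have : ∀ x, conj (ev P x) * ((t : ℂ) * ev (AP Q) x) = (t : ℂ) * (conj (ev P x) * ev (AP Q) x) :=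
    fun x => by ring
  simp only [this]
  rw [integral_const_mul, Complex.re_ofReal_mul]
  ring

theorem En_I (P : Poly d) : En μ ((I : ℂ) • P) = En μ P := by
  simp only [En, EB, AP_smul, ev_smul]
  have : ∀ x, conj (I * ev P x) * (I * ev (AP P) x) = conj (ev P x) * ev (AP P) x := by
    intro x
    rw [map_mul, Complex.conj_I]
    linear_combination (-(conj (ev P x) * ev (AP P) x)) * Complex.I_mul_I
  simp only [this]

theorem En_par (hμ : Law μ) (P Q : Poly d) :
    En μ (P + Q) + En μ ((I : ℂ) • (Q - P)) = 2 * En μ P + 2 * En μ Q := by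
  rw [En_I]
  have e : Q - P = Q + ((-1 : ℝ) : ℂ) • P := by push_cast; simp [sub_eq_add_neg]
  rw [e]
  simp only [En, EB_add_left hμ, EB_add_right hμ, EB_smul_left, EB_smul_right]
  ring

theorem En_line (hμ : Law μ) (hc : ∀ P Q, EB μ P Q = EB μ Q P) (P Q : Poly d) (t : ℝ) :
    En μ (P + (t : ℂ) • Q) = En μ P + 2 * t * EB μ P Q + t ^ 2 * En μ Q := by
  simp only [En, EB_add_left hμ, EB_add_right hμ, EB_smul_left, EB_smul_right]
  rw [hc Q P]
  ring

/-- `q = p - 2` -/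
noncomputable def qq (d : ℕ) : ℝ := pe d - 2

theorem qq_add (d : ℕ) : qq d + 2 = pe d := by unfold qq; ring

theorem qq_pos (d : ℕ) [Fact (2 ≤ d)] : 0 < qq d := by
  have := pe_gt d
  unfold qq
  linarith

theorem qq_eq (d : ℕ) [Fact (2 ≤ d)] : qq d * nu d = 2 := by
  have := two_le_real d
  unfold qq pe nu
  have h1 : (d : ℝ) - 1 ≠ 0 := by linarith
  field_simp
  ring

theorem qq_le (d : ℕ) [Fact (2 ≤ d)] (hd : 3 ≤ d) : qq d ≤ 2 := by
  have h1 := qq_eq d
  have h2 : 1 ≤ nu d := by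
    have : (3 : ℝ) ≤ d := by exact_mod_cast hd
    unfold nu
    linarith
  have h3 := qq_pos d
  nlinarith

/-- the comparison along a line -/
theorem sup_line (hμ : Law μ) (hc : ∀ P Q, EB μ P Q = EB μ Q P) (hn : ∀ P, 0 ≤ En μ P)
    {S : ℝ} (hmax : ∀ P ∈ HP d, Ip μ P ≤ S * En μ P ^ (pe d / 2)) {F Q : Poly d} (hF : F ∈ HP d)
    (hQ : Q ∈ HP d) (h1 : En μ F = 1) (t : ℝ) :
    0 ≤ 1 + 2 * t * EB μ F Q + t ^ 2 * En μ Q ∧
    ∫ x, ‖ev F x + (t : ℂ) * ev Q x‖ ^ (qq d + 2) ∂μ ≤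
      S * (1 + 2 * t * EB μ F Q + t ^ 2 * En μ Q) ^ ((qq d + 2) / 2) := by
  have h2 := En_line hμ hc F Q t
  rw [h1] at h2
  have h3 := hn (F + (t : ℂ) • Q)
  rw [h2] at h3
  refine ⟨h3, ?_⟩
  have h4 := hmax (F + (t : ℂ) • Q) ((HP d).add_mem hF ((HP d).smul_mem _ hQ))
  rw [h2] at h4
  rw [qq_add]
  refine le_trans (le_of_eq ?_) h4
  unfold Ip
  simp only [ev_add, ev_smul]

theorem abs_EB_le (hμ : Law μ) (hc : ∀ P Q, EB μ P Q = EB μ Q P) (hn : ∀ P, 0 ≤ En μ P)
    {F Q : Poly d} (h1 : En μ F = 1) : |EB μ F Q| ≤ 1 + En μ Q := by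
  have h2 : ∀ t : ℝ, 0 ≤ 1 + 2 * t * EB μ F Q + t ^ 2 * En μ Q := by
    intro t
    have h3 := hn (F + (t : ℂ) • Q)
    rwa [En_line hμ hc F Q t, h1] at h3
  have h3 := h2 1
  have h4 := h2 (-1)
  have h5 := hn Q
  rw [abs_le]
  constructor <;> nlinarith

end

end Pool.Agent.ConeG.SV
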