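import Pool.Agent.Work.MP_b0b133_an.G.SVe

/-!
# The inequality (I), with the facts on the energy as hypotheses
-/

set_option autoImplicit false
open MeasureTheory Complex
open scoped ENNReal ComplexConjugate

namespace Pool.Agent.ConeG.SV

variable {d : ℕ} {μ : Measure (CC d)}

/-- sum of the energies of the test directions -/
theorem sum_energy [Fact (2 ≤ d)] (hμ : Law μ) {ψ : Poly d}
    (hlad : ∑ j, (En μ (MvPolynomial.pderiv j ψ) + En μ (RP j ψ)) =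
      4 * En μ (AP ψ) + 4 / nu d * X2 μ ψ) (h1 : En μ (AP ψ) = 1) :
    ∑ j, (En μ (K1 ψ j) + En μ (K2 ψ j)) = 8 + 4 * qq d * X2 μ ψ := by
  rw [h1] at hlad
  have h3 : ∀ j : Fin (d + 1), En μ (K1 ψ j) + En μ (K2 ψ j) =
      2 * (En μ (MvPolynomial.pderiv j ψ) + En μ (RP j ψ)) := by
    intro j
    unfold K1 K2
    rw [En_par hμ]
    ring
  rw [Finset.sum_congr rfl fun j _ => h3 j, ← Finset.mul_sum, hlad]
  have h4 : qq d = 2 / nu d := by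
    rw [eq_div_iff (nu_pos d).ne', qq_eq]
  rw [h4]
  ring

/-- the estimate for one index -/
theorem key_index [Fact (2 ≤ d)] (hd : 3 ≤ d) (hμ : Law μ)
    (hc : ∀ P Q, EB μ P Q = EB μ Q P) (hn : ∀ P, 0 ≤ En μ P)
    {S : ℝ} (hS : 1 ≤ S) (hmax : ∀ P ∈ HP d, Ip μ P ≤ S * En μ P ^ (pe d / 2)) {M : ℝ}
    (hM1 : 1 ≤ M) {C1 : ℝ} (hC10 : 0 ≤ C1)
    (hC1 : ∀ F ∈ HP d, ∀ Q ∈ HP d, ∀ ε : ℝ, 0 < ε → ε ≤ 1 → En μ F = 1 →
      En μ Q ≤ M → S - ε ≤ Ip μ F →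
      |(∫ x, ((‖ev F x‖ ^ (pe d - 2) : ℝ) : ℂ) * (conj (ev F x) * ev Q x) ∂μ).re -
        S * EB μ F Q| ≤ C1 * ε ^ (1 / 2 : ℝ))
    {ψ : Poly d} (hFm : AP ψ ∈ HP d) (j : Fin (d + 1)) (hK1m : K1 ψ j ∈ HP d)
    (hK2m : K2 ψ j ∈ HP d) (e1M : En μ (K1 ψ j) ≤ M) (e2M : En μ (K2 ψ j) ≤ M)
    {ε : ℝ} (he0 : 0 < ε) (he1 : ε ≤ 1) (h1 : En μ (AP ψ) = 1) (hnear : S - ε ≤ Ip μ (AP ψ))
    (hcent : ‖∫ x, x j * ((‖ev (AP ψ) x‖ ^ pe d : ℝ) : ℂ) ∂μ‖ ≤ ε) :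
    (∫ x, qp (qq d) (ev (AP ψ) x) (ev (K1 ψ j) x) ∂μ) +
      (∫ x, qp (qq d) (ev (AP ψ) x) (ev (K2 ψ j) x) ∂μ) ≤
      S * (En μ (K1 ψ j) + En μ (K2 ψ j)) +
        qq d * (∫ x, ‖ev (AP ψ) x‖ ^ (qq d - 2) * ‖Zx ψ j x‖ ^ 2 ∂μ) +
      (2 * (4 * C1 * (S * (1 + M) + C1) + 2 * C1 ^ 2 + 4 * (2 * (S * (1 + M) + C1) + 2) + 4) +
        (S * (2 * (1 + M) ^ 2 + 54 * (1 + M) ^ 3) + 2) + 4 * (S * M ^ 2)) *
          ε ^ (min (pe d - 2) 1 / 4) := by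
  have := hμ.prob
  have hS0 : 0 ≤ S := zero_le_one.trans hS
  have hq0 := qq_pos d
  have hq2 := qq_le d hd
  set q := qq d with hq
  set M' : ℝ := 1 + M with hM'
  have hM0 : 0 ≤ M := by linarith
  have hM'0 : 0 ≤ M' := by positivity
  set D2 : ℝ := S * (2 * M' ^ 2 + 54 * M' ^ 3) with hD2
  have hD20 : 0 ≤ D2 := by positivity
  set C2 : ℝ := 4 * C1 * (S * M' + C1) + 2 * C1 ^ 2 + 4 * (2 * (S * M' + C1) + 2) + 4 with hC2
  have hC20 : 0 ≤ C2 := by positivity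
  set t : ℝ := ε ^ (1 / 4 : ℝ) with ht
  set T : ℝ := ε ^ (min (pe d - 2) 1 / 4) with hT
  have ht0 : 0 < t := Real.rpow_pos_of_pos he0 _
  have hT0 : 0 < T := Real.rpow_pos_of_pos he0 _
  have ht1 : t ≤ 1 := Real.rpow_le_one he0.le he1 (by norm_num)
  have ht2 : t ^ 2 = ε ^ (1 / 2 : ℝ) := by
    rw [ht, ← Real.rpow_natCast, ← Real.rpow_mul he0.le]; norm_num
  have ht4 : t ^ 4 = ε := by
    rw [ht, ← Real.rpow_natCast, ← Real.rpow_mul he0.le]; norm_num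
  have ht2t : t ^ 2 ≤ t := by nlinarith
  have htT : t ≤ T := by
    rw [ht, hT]
    apply Real.rpow_le_rpow_of_exponent_ge he0 he1
    have := min_le_right (pe d - 2) 1
    linarith
  have htqT : t ^ q ≤ T := by
    rw [ht, hT, ← Real.rpow_mul he0.le]
    apply Real.rpow_le_rpow_of_exponent_ge he0 he1
    have h5 := min_le_left (pe d - 2) 1
    have h6 : q = pe d - 2 := rfl
    rw [h6]
    linarith
  have hεt : ε ≤ t := by
    rw [← ht4]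
    calc t ^ 4 = t ^ 2 * t ^ 2 := by ring
      _ ≤ t * 1 := mul_le_mul ht2t (ht2t.trans ht1) (by positivity) ht0.le
      _ = t := mul_one t
  have hεt2 : ε / t ^ 2 ≤ t := by
    rw [div_le_iff₀ (by positivity), ← ht4]
    have : t ^ 4 = t * (t * t ^ 2) := by ring
    rw [this]
    refine mul_le_mul_of_nonneg_left ?_ ht0.le
    calc t * t ^ 2 ≤ 1 * t ^ 2 := mul_le_mul_of_nonneg_right ht1 (by positivity)
      _ = t ^ 2 := one_mul _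
  set F := AP ψ with hF
  have hIp : Ip μ F ≤ S := by
    have h6 := hmax _ hFm
    rwa [h1, Real.one_rpow, mul_one] at h6
  have hIp0 : 0 ≤ Ip μ F := integral_nonneg fun x => by positivity
  obtain ⟨A, hA0, hA⟩ := law_bdd hμ F
  set δ : ℝ := C1 * ε ^ (1 / 2 : ℝ) with hδ
  have hδ0 : 0 ≤ δ := by rw [hδ]; positivity
  have hδt : δ ≤ C1 * t := by
    rw [hδ, ← ht2]
    exact mul_le_mul_of_nonneg_left ht2t hC10
  have hδ1 : δ ≤ C1 := hδt.trans (by nlinarith)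
  have c1M : |EB μ F (K1 ψ j)| ≤ M' := (abs_EB_le hμ hc hn h1).trans (by linarith)
  have c2M : |EB μ F (K2 ψ j)| ≤ M' := (abs_EB_le hμ hc hn h1).trans (by linarith)
  obtain ⟨B, _, hB⟩ := law_bdd hμ (K1 ψ j)
  obtain ⟨B', _, hB'⟩ := law_bdd hμ (K2 ψ j)
  have hnear' : S - ε ≤ ∫ x, ‖ev F x‖ ^ (q + 2) ∂μ := by
    rw [hq, qq_add]; exact hnear
  have s1 := second_var_abs hq0 hq2 (aem_ev F) (aem_ev (K1 ψ j)) hA hB hS0 ht0 ht1 (hn (K1 ψ j))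
    (e1M.trans (by linarith)) c1M he0.le
    (fun s => (sup_line hμ hc hn hmax hFm hK1m h1 s).1)
    (fun s => (sup_line hμ hc hn hmax hFm hK1m h1 s).2) hnear'
  have s2 := second_var_abs hq0 hq2 (aem_ev F) (aem_ev (K2 ψ j)) hA hB' hS0 ht0 ht1 (hn (K2 ψ j))
    (e2M.trans (by linarith)) c2M he0.le
    (fun s => (sup_line hμ hc hn hmax hFm hK2m h1 s).1)
    (fun s => (sup_line hμ hc hn hmax hFm hK2m h1 s).2) hnear'
  -- the powers of the test directions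
  have hpow : ∀ K ∈ HP d, En μ K ≤ M → ∫ x, ‖ev K x‖ ^ (q + 2) ∂μ ≤ S * M ^ 2 := by
    intro K hK hKM
    have g1 := hmax K hK
    have g2 : Ip μ K = ∫ x, ‖ev K x‖ ^ (q + 2) ∂μ := by rw [hq, qq_add]; rfl
    rw [← g2]
    refine g1.trans ?_
    refine mul_le_mul_of_nonneg_left ?_ hS0
    have g3 : 0 ≤ pe d / 2 := by
      have := pe_gt d
      linarith
    have g4 : pe d / 2 ≤ 2 := by
      have := qq_add d
      linarith
    calc En μ K ^ (pe d / 2) ≤ M ^ (pe d / 2) := Real.rpow_le_rpow (hn K) hKM g3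
      _ ≤ M ^ (2 : ℝ) := Real.rpow_le_rpow_of_exponent_le hM1 g4
      _ = M ^ 2 := Real.rpow_two M
  have hx1 : q * t ^ q * (∫ x, ‖ev (K1 ψ j) x‖ ^ (q + 2) ∂μ) ≤ 2 * (S * M ^ 2) * T := by
    have g0 : 0 ≤ ∫ x, ‖ev (K1 ψ j) x‖ ^ (q + 2) ∂μ := integral_nonneg fun x => by positivity
    have g1 : q * t ^ q ≤ 2 * T := mul_le_mul hq2 htqT (by positivity) (by norm_num)
    calc q * t ^ q * (∫ x, ‖ev (K1 ψ j) x‖ ^ (q + 2) ∂μ) ≤ 2 * T * (S * M ^ 2) :=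
          mul_le_mul g1 (hpow _ hK1m e1M) g0 (by positivity)
      _ = _ := by ring
  have hx2 : q * t ^ q * (∫ x, ‖ev (K2 ψ j) x‖ ^ (q + 2) ∂μ) ≤ 2 * (S * M ^ 2) * T := by
    have g0 : 0 ≤ ∫ x, ‖ev (K2 ψ j) x‖ ^ (q + 2) ∂μ := integral_nonneg fun x => by positivity
    have g1 : q * t ^ q ≤ 2 * T := mul_le_mul hq2 htqT (by positivity) (by norm_num)
    calc q * t ^ q * (∫ x, ‖ev (K2 ψ j) x‖ ^ (q + 2) ∂μ) ≤ 2 * T * (S * M ^ 2) :=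
          mul_le_mul g1 (hpow _ hK2m e2M) g0 (by positivity)
      _ = _ := by ring
  have f1 := hC1 F hFm (K1 ψ j) hK1m ε he0 he1 h1 e1M hnear
  have f2 := hC1 F hFm (K2 ψ j) hK2m ε he0 he1 h1 e2M hnear
  obtain ⟨Λ, W, hL1, hL2, hLW, hW⟩ := lam_eq hq0 hμ ψ j
  have hLW' : ‖Λ - W‖ ≤ 2 * ε := by
    rw [hLW, norm_mul]
    rw [← qq_add d] at hcent
    simp only [Complex.norm_ofNat]
    linarith
  -- Cauchy-Schwarz
  obtain ⟨BU, hBU0, hBU⟩ := law_bdd_cont hμ (continuous_Uf ψ j)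
  have hBj0 : 0 ≤ ∫ x, ‖ev F x‖ ^ (q - 2) * ‖Zx ψ j x‖ ^ 2 ∂μ :=
    integral_nonneg fun x => by positivity
  have hWW : ‖W‖ ^ 2 ≤ Ip μ F * ∫ x, ‖ev F x‖ ^ (q - 2) * ‖Zx ψ j x‖ ^ 2 ∂μ := by
    have hZb : ∀ᵐ x ∂μ, ‖Zx ψ j x‖ ≤ (2 * BU) * ‖ev F x‖ := by
      filter_upwards [law_supp' hμ, hBU] with x hx h2
      refine (norm_Zx_le hx.2.2 ψ j).trans ?_
      have : 2 * ‖Uf ψ j x‖ ≤ 2 * BU := by linarith
      exact mul_le_mul_of_nonneg_right this (norm_nonneg _)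
    have hIe : Ip μ F = ∫ x, ‖ev F x‖ ^ (q + 2) ∂μ := by rw [hq, qq_add]; rfl
    rcases hIp0.eq_or_lt with h0 | h0
    · -- then `F = 0` a.e.
      have hz : (∫ x, ‖ev F x‖ ^ q * ‖Zx ψ j x‖ ∂μ) = 0 := by
        have i3 : Integrable (fun x => ‖ev F x‖ ^ (q + 2)) μ :=
          law_integrable_real hμ (continuous_pow_ev (by linarith) F)
        have h4 := (integral_eq_zero_iff_of_nonneg (fun x => by positivity) i3).1
          (by rw [← hIe]; exact h0.symm)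
        refine integral_eq_zero_of_ae ?_
        filter_upwards [h4] with x hx
        have hx' : ‖ev F x‖ ^ (q + 2) = 0 := hx
        have : ‖ev F x‖ = 0 := by
          by_contra hne
          have : 0 < ‖ev F x‖ := lt_of_le_of_ne (norm_nonneg _) (Ne.symm hne)
          exact (Real.rpow_pos_of_pos this (q + 2)).ne' hx'
        simp only [Pi.zero_apply]
        rw [this, Real.zero_rpow hq0.ne', zero_mul]
      have hW0 : ‖W‖ = 0 := le_antisymm (by rw [← hz]; exact hW) (norm_nonneg _)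
      rw [hW0]
      have := mul_nonneg hIp0 hBj0
      simpa using this
    · have hcs := cs_weight (μ := μ) hq0 (f := fun x => ‖ev F x‖) (z := fun x => ‖Zx ψ j x‖)
        (continuous_ev F).norm.measurable.aemeasurable
        (continuous_Zx ψ j).norm.measurable.aemeasurable (fun x => norm_nonneg _)
        (fun x => norm_nonneg _) hA hZb hA0 (by positivity) (by rw [← hIe]; exact h0)
      rw [hIe]
      calc ‖W‖ ^ 2 ≤ (∫ x, ‖ev F x‖ ^ q * ‖Zx ψ j x‖ ∂μ) ^ 2 :=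
            pow_le_pow_left₀ (norm_nonneg _) hW 2
        _ ≤ _ := hcs
  have cb := c_bound (S := S) (M := M') (δ := δ) (ε := ε) (A := Ip μ F)
    (B := ∫ x, ‖ev F x‖ ^ (q - 2) * ‖Zx ψ j x‖ ^ 2 ∂μ) (c := EB μ F (K1 ψ j))
    (c' := EB μ F (K2 ψ j))
    hS hM'0 hδ0 he0.le f1 f2 c1M c2M hL1 hL2 hLW' hWW hIp hBj0
  generalize hBj : (∫ x, ‖ev F x‖ ^ (q - 2) * ‖Zx ψ j x‖ ^ 2 ∂μ) = Bj at *
  have hE : 4 * δ * (S * M' + δ) + 2 * δ ^ 2 + 4 * ε * (2 * (S * M' + δ) + 2 * ε) + 4 * ε ^ 2 ≤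
      C2 * t := by
    have g1 : δ * (S * M' + δ) ≤ (C1 * t) * (S * M' + C1) :=
      mul_le_mul hδt (by linarith) (by positivity) (by positivity)
    have g2 : δ ^ 2 ≤ C1 ^ 2 * t := by
      calc δ ^ 2 = δ * δ := sq δ
        _ ≤ (C1 * t) * C1 := mul_le_mul hδt hδ1 hδ0 (by positivity)
        _ = _ := by ring
    have g3 : ε * (2 * (S * M' + δ) + 2 * ε) ≤ t * (2 * (S * M' + C1) + 2) :=
      mul_le_mul hεt (by linarith) (by positivity) ht0.le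
    have g4 : ε ^ 2 ≤ t := by
      calc ε ^ 2 = ε * ε := sq ε
        _ ≤ t * 1 := mul_le_mul hεt he1 he0.le ht0.le
        _ = t := mul_one t
    calc 4 * δ * (S * M' + δ) + 2 * δ ^ 2 + 4 * ε * (2 * (S * M' + δ) + 2 * ε) + 4 * ε ^ 2
        = 4 * (δ * (S * M' + δ)) + 2 * δ ^ 2 + 4 * (ε * (2 * (S * M' + δ) + 2 * ε)) +
          4 * ε ^ 2 := by ring
      _ ≤ 4 * ((C1 * t) * (S * M' + C1)) + 2 * (C1 ^ 2 * t) +
          4 * (t * (2 * (S * M' + C1) + 2)) + 4 * t :=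
        add_le_add (add_le_add (add_le_add (mul_le_mul_of_nonneg_left g1 (by norm_num))
          (mul_le_mul_of_nonneg_left g2 (by norm_num)))
          (mul_le_mul_of_nonneg_left g3 (by norm_num)))
          (mul_le_mul_of_nonneg_left g4 (by norm_num))
      _ = C2 * t := by rw [hC2]; ring
  have hr : (D2 * t + 2 * ε / t ^ 2) / 2 ≤ 1 / 2 * (D2 + 2) * T := by
    have g1 : 2 * ε / t ^ 2 = 2 * (ε / t ^ 2) := by ring
    rw [g1]
    have g2 : D2 * t ≤ D2 * T := mul_le_mul_of_nonneg_left htT hD20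
    linarith
  have a2 : q * (S * (EB μ F (K1 ψ j) ^ 2 + EB μ F (K2 ψ j) ^ 2)) ≤ q * Bj + 2 * C2 * T := by
    have g1 := mul_le_mul_of_nonneg_left (cb.trans (add_le_add_right hE Bj)) hq0.le
    have g2 : q * (C2 * t) ≤ 2 * (C2 * T) :=
      mul_le_mul hq2 (mul_le_mul_of_nonneg_left htT hC20) (by positivity) (by norm_num)
    calc _ ≤ q * (Bj + C2 * t) := g1
      _ = q * Bj + q * (C2 * t) := by ring
      _ ≤ q * Bj + 2 * (C2 * T) := by linarith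
      _ = _ := by ring
  have a1 := add_le_add s1 s2
  refine a1.trans ?_
  have e1 : S * (En μ (K1 ψ j) + q * EB μ F (K1 ψ j) ^ 2) =
    S * En μ (K1 ψ j) + q * (S * EB μ F (K1 ψ j) ^ 2) := by ring
  have e2 : S * (En μ (K2 ψ j) + q * EB μ F (K2 ψ j) ^ 2) =
    S * En μ (K2 ψ j) + q * (S * EB μ F (K2 ψ j) ^ 2) := by ring
  have e3 : q * (S * (EB μ F (K1 ψ j) ^ 2 + EB μ F (K2 ψ j) ^ 2)) =
    q * (S * EB μ F (K1 ψ j) ^ 2) + q * (S * EB μ F (K2 ψ j) ^ 2) := by ring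
  rw [e3] at a2
  rw [e1, e2]
  have e4 : (2 * C2 + (D2 + 2) + 4 * (S * M ^ 2)) * T =
    2 * C2 * T + 2 * (1 / 2 * (D2 + 2) * T) + 2 * (2 * (S * M ^ 2) * T) := by ring
  have e5 : S * (En μ (K1 ψ j) + En μ (K2 ψ j)) = S * En μ (K1 ψ j) + S * En μ (K2 ψ j) := by ring
  rw [e4, e5]
  linarith

/-- the inequality (I), with the facts on the energy as hypotheses -/
theorem second_var_core [Fact (2 ≤ d)] (hd : 3 ≤ d) (hμ : Law μ)
    (hc : ∀ P Q, EB μ P Q = EB μ Q P) (hn : ∀ P, 0 ≤ En μ P)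
    (hpd : ∀ j, ∀ ψ ∈ HP d, MvPolynomial.pderiv j ψ ∈ HP d)
    (hRm : ∀ j, ∀ ψ ∈ HP d, RP j ψ ∈ HP d) (hAm : ∀ ψ ∈ HP d, AP ψ ∈ HP d)
    (hlad : ∀ ψ ∈ HP d, ∑ j, (En μ (MvPolynomial.pderiv j ψ) + En μ (RP j ψ)) =
      4 * En μ (AP ψ) + 4 / nu d * X2 μ ψ)
    (hx2 : ∀ ψ ∈ HP d, X2 μ ψ ≤ En μ (AP ψ))
    (S : ℝ) (hS : 1 ≤ S) (hmax : ∀ P ∈ HP d, Ip μ P ≤ S * En μ P ^ (pe d / 2)) :
    ∃ C : ℝ, 0 ≤ C ∧ ∀ ψ ∈ HP d, ∀ ε : ℝ, 0 < ε → ε ≤ 1 → En μ (AP ψ) = 1 →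
      S - ε ≤ Ip μ (AP ψ) →
      (∀ j, ‖∫ x, x j * ((‖ev (AP ψ) x‖ ^ pe d : ℝ) : ℂ) ∂μ‖ ≤ ε) →
      ∫ x, ‖ev (AP ψ) x‖ ^ (pe d - 2) * G2 ψ x ∂μ ≤
        S * ((1 - (pe d - 2)) + (pe d - 2) * X2 μ ψ) + C * ε ^ (min (pe d - 2) 1 / 4) := by
  have hS0 : 0 ≤ S := zero_le_one.trans hS
  have hq0 := qq_pos d
  have hq2 := qq_le d hd
  obtain ⟨C1, hC10, hC1⟩ := first_var_core hd hμ hc hn S hS hmax 16
  set E : ℝ := 2 * (4 * C1 * (S * (1 + 16) + C1) + 2 * C1 ^ 2 +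
    4 * (2 * (S * (1 + 16) + C1) + 2) + 4) +
        (S * (2 * (1 + 16) ^ 2 + 54 * (1 + 16) ^ 3) + 2) + 4 * (S * 16 ^ 2) with hE
  have hE0 : 0 ≤ E := by positivity
  refine ⟨3 + ((d : ℝ) + 1) * E / 4, by positivity, ?_⟩
  intro ψ hψ ε he0 he1 h1 hnear hcent
  have hFm := hAm ψ hψ
  have hX : X2 μ ψ ≤ 1 := by rw [← h1]; exact hx2 ψ hψ
  have hsum := sum_energy hμ (hlad ψ hψ) h1
  have hK1m : ∀ j, K1 ψ j ∈ HP d := fun j => (HP d).add_mem (hpd j ψ hψ) (hRm j ψ hψ)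
  have hK2m : ∀ j, K2 ψ j ∈ HP d := fun j =>
    (HP d).smul_mem _ ((HP d).sub_mem (hRm j ψ hψ) (hpd j ψ hψ))
  have hle : ∀ j, En μ (K1 ψ j) + En μ (K2 ψ j) ≤ 16 := by
    intro j
    have h2 : En μ (K1 ψ j) + En μ (K2 ψ j) ≤ ∑ j, (En μ (K1 ψ j) + En μ (K2 ψ j)) :=
      Finset.single_le_sum (f := fun j => En μ (K1 ψ j) + En μ (K2 ψ j))
        (fun i _ => add_nonneg (hn _) (hn _)) (Finset.mem_univ j)
    rw [hsum] at h2
    have h3 : 4 * qq d * X2 μ ψ ≤ 8 := by nlinarith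
    linarith
  have key : ∀ j : Fin (d + 1), _ := fun j =>
    key_index hd hμ hc hn hS hmax (M := 16) (by norm_num) hC10 hC1 hFm j (hK1m j) (hK2m j)
      (by linarith [hle j, hn (K2 ψ j)]) (by linarith [hle j, hn (K1 ψ j)]) he0 he1 h1 hnear
      (hcent j)
  have hs := Finset.sum_le_sum fun j (_ : j ∈ Finset.univ) => key j
  rw [sum_qp hq0 hq2 hμ ψ, Finset.sum_add_distrib, Finset.sum_add_distrib, ← Finset.mul_sum,
    ← Finset.mul_sum, hsum, Finset.sum_const, Finset.card_univ, Fintype.card_fin,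
    nsmul_eq_mul, ← hE, qq_add] at hs
  set T : ℝ := ε ^ (min (pe d - 2) 1 / 4) with hT
  have hT0 : 0 < T := Real.rpow_pos_of_pos he0 _
  have hεT : ε ≤ T := by
    have : ε ^ (1 : ℝ) ≤ T := by
      rw [hT]
      apply Real.rpow_le_rpow_of_exponent_ge he0 he1
      have := min_le_right (pe d - 2) 1
      linarith
    rwa [Real.rpow_one] at this
  have hq' : pe d - 2 = qq d := rfl
  rw [hq']
  generalize hZ : (∑ j, ∫ x, ‖ev (AP ψ) x‖ ^ (qq d - 2) * ‖Zx ψ j x‖ ^ 2 ∂μ) = Z at *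
  generalize hG : (∫ x, ‖ev (AP ψ) x‖ ^ qq d * G2 ψ x ∂μ) = G at *
  have hI : (∫ x, ‖ev (AP ψ) x‖ ^ pe d ∂μ) = Ip μ (AP ψ) := rfl
  rw [hI] at hs
  have h5 : (4 + 4 * qq d) * (S - ε) ≤ (4 + 4 * qq d) * Ip μ (AP ψ) :=
    mul_le_mul_of_nonneg_left hnear (by positivity)
  have h6 : (4 + 4 * qq d) * ε ≤ 12 * T :=
    mul_le_mul (by linarith) hεT he0.le (by norm_num)
  push_cast at hs
  nlinarith

end Pool.Agent.ConeG.SV
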