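import Pool.Agent.Work.MP_b0b133_an.G.SVf

/-!
# Second variation in one direction; rotations and the phase of `H`
-/

set_option autoImplicit false
open MeasureTheory Complex
open scoped ENNReal ComplexConjugate

namespace Pool.Agent.ConeG.SV

variable {d : ℕ} {μ : Measure (CC d)}

/-- second variation at near maximisers, in any direction -/
theorem second_var_dir [Fact (2 ≤ d)] (hd : 3 ≤ d) (hμ : Law μ)
    (hc : ∀ P Q, EB μ P Q = EB μ Q P) (hn : ∀ P, 0 ≤ En μ P)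
    (S : ℝ) (hS : 1 ≤ S) (hmax : ∀ P ∈ HP d, Ip μ P ≤ S * En μ P ^ (pe d / 2)) (M : ℝ) :
    ∃ C : ℝ, 0 ≤ C ∧ ∀ F ∈ HP d, ∀ K ∈ HP d, ∀ ε : ℝ, 0 < ε → ε ≤ 1 → En μ F = 1 →
      En μ K ≤ M → S - ε ≤ Ip μ F →
      ∫ x, qp (pe d - 2) (ev F x) (ev K x) ∂μ ≤
        S * (En μ K + (pe d - 2) * EB μ F K ^ 2) + C * ε ^ (min (pe d - 2) 1 / 4) := by
  have := hμ.prob
  have hS0 : 0 ≤ S := zero_le_one.trans hS
  have hq0 := qq_pos d
  have hq2 := qq_le d hd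
  set M' : ℝ := 1 + |M| with hM'
  have hM0 : 0 ≤ M' := by positivity
  have hM1 : 1 ≤ M' := by
    have := abs_nonneg M
    linarith
  set D2 : ℝ := S * (2 * (1 + M') ^ 2 + 54 * (1 + M') ^ 3) with hD2
  have hD20 : 0 ≤ D2 := by positivity
  refine ⟨(D2 + 2) / 2 + 2 * (S * M' ^ 2), by positivity, ?_⟩
  intro F hF K hK ε he0 he1 h1 hKM hnear
  obtain ⟨A, hA0, hA⟩ := law_bdd hμ F
  obtain ⟨B, hB0, hB⟩ := law_bdd hμ K
  have heM : En μ K ≤ M' := by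
    have := le_abs_self M
    linarith
  have hcM : |EB μ F K| ≤ 1 + M' := by
    have h2 := abs_EB_le hμ hc hn (Q := K) h1
    linarith
  set t : ℝ := ε ^ (1 / 4 : ℝ) with ht
  set T : ℝ := ε ^ (min (pe d - 2) 1 / 4) with hT
  have ht0 : 0 < t := Real.rpow_pos_of_pos he0 _
  have hT0 : 0 < T := Real.rpow_pos_of_pos he0 _
  have ht1 : t ≤ 1 := Real.rpow_le_one he0.le he1 (by norm_num)
  have ht4 : t ^ 4 = ε := by
    rw [ht, ← Real.rpow_natCast, ← Real.rpow_mul he0.le]; norm_num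
  have htT : t ≤ T := by
    rw [ht, hT]
    apply Real.rpow_le_rpow_of_exponent_ge he0 he1
    have := min_le_right (pe d - 2) 1
    linarith
  have hq' : pe d - 2 = qq d := rfl
  have htqT : t ^ qq d ≤ T := by
    rw [ht, hT, ← Real.rpow_mul he0.le]
    apply Real.rpow_le_rpow_of_exponent_ge he0 he1
    have h5 := min_le_left (pe d - 2) 1
    rw [← hq']
    linarith
  have hεt2 : ε / t ^ 2 ≤ t := by
    rw [div_le_iff₀ (by positivity), ← ht4]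
    have : t ^ 4 = t * (t * t ^ 2) := by ring
    rw [this]
    refine mul_le_mul_of_nonneg_left ?_ ht0.le
    calc t * t ^ 2 ≤ 1 * t ^ 2 := mul_le_mul_of_nonneg_right ht1 (by positivity)
      _ = t ^ 2 := one_mul _
  have hnear' : S - ε ≤ ∫ x, ‖ev F x‖ ^ (qq d + 2) ∂μ := by
    rw [qq_add]; exact hnear
  have s1 := second_var_abs hq0 hq2 (aem_ev F) (aem_ev K) hA hB hS0 ht0 ht1 (hn K)
    (heM.trans (by linarith)) hcM he0.le
    (fun s => (sup_line hμ hc hn hmax hF hK h1 s).1)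
    (fun s => (sup_line hμ hc hn hmax hF hK h1 s).2) hnear'
  have hpow : ∫ x, ‖ev K x‖ ^ (qq d + 2) ∂μ ≤ S * M' ^ 2 := by
    have g1 := hmax K hK
    have g2 : Ip μ K = ∫ x, ‖ev K x‖ ^ (qq d + 2) ∂μ := by rw [qq_add]; rfl
    rw [← g2]
    refine g1.trans ?_
    refine mul_le_mul_of_nonneg_left ?_ hS0
    have g3 : 0 ≤ pe d / 2 := by
      have := pe_gt d
      linarith
    have g4 : pe d / 2 ≤ 2 := by
      have := qq_add d
      linarith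
    calc En μ K ^ (pe d / 2) ≤ M' ^ (pe d / 2) := Real.rpow_le_rpow (hn K) heM g3
      _ ≤ M' ^ (2 : ℝ) := Real.rpow_le_rpow_of_exponent_le hM1 g4
      _ = M' ^ 2 := Real.rpow_two M'
  have hx1 : qq d * t ^ qq d * (∫ x, ‖ev K x‖ ^ (qq d + 2) ∂μ) ≤ 2 * (S * M' ^ 2) * T := by
    have g0 : 0 ≤ ∫ x, ‖ev K x‖ ^ (qq d + 2) ∂μ := integral_nonneg fun x => by positivity
    have g1 : qq d * t ^ qq d ≤ 2 * T := mul_le_mul hq2 htqT (by positivity) (by norm_num)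
    calc qq d * t ^ qq d * (∫ x, ‖ev K x‖ ^ (qq d + 2) ∂μ) ≤ 2 * T * (S * M' ^ 2) :=
          mul_le_mul g1 hpow g0 (by positivity)
      _ = _ := by ring
  rw [← hD2] at s1
  have hr : (D2 * t + 2 * ε / t ^ 2) / 2 ≤ (D2 + 2) / 2 * T := by
    have g1 : 2 * ε / t ^ 2 = 2 * (ε / t ^ 2) := by ring
    rw [g1]
    have g2 : D2 * t ≤ D2 * T := mul_le_mul_of_nonneg_left htT hD20
    linarith
  rw [hq']
  have e1 : ((D2 + 2) / 2 + 2 * (S * M' ^ 2)) * T = (D2 + 2) / 2 * T + 2 * (S * M' ^ 2) * T := by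
    ring
  rw [e1]
  linarith

/-- the density in the direction `i H` -/
theorem qp_phase (q : ℝ) (F H : ℂ) :
    qp q F (I * H) = ‖F‖ ^ q * ‖H‖ ^ 2 + q * (‖F‖ ^ (q - 2) * ((conj F * H).im) ^ 2) := by
  unfold qp
  rw [norm_mul, Complex.norm_I, one_mul]
  have : (conj F * (I * H)).re = -(conj F * H).im := by
    rw [show conj F * (I * H) = I * (conj F * H) by ring, Complex.I_mul_re]
  rw [this]
  ring

theorem En_smul_nu (ψ : Poly d) (hν : nu d ≠ 0) :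
    En μ ((nu d : ℂ) • ψ) = X2 μ ψ := by
  have h1 : EB μ ((nu d : ℂ) • ψ) ((nu d : ℂ) • ψ) = nu d * (nu d * EB μ ψ ψ) := by
    rw [EB_smul_left, EB_smul_right]
  have h2 : (∫ x, conj (ev (AP ψ) x) * ((nu d : ℂ) * ev ψ x) ∂μ).re =
      nu d * (∫ x, conj (ev ψ x) * ev (AP ψ) x ∂μ).re := by
    have e : ∀ x, conj (ev (AP ψ) x) * ((nu d : ℂ) * ev ψ x) =
        (nu d : ℂ) * conj (conj (ev ψ x) * ev (AP ψ) x) := by
      intro x
      rw [map_mul, Complex.conj_conj]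
      ring
    simp only [e]
    rw [integral_const_mul, Complex.re_ofReal_mul, integral_conj, Complex.conj_re]
  unfold En
  rw [h1, X2, h2, EB]
  field_simp

/-- `Re ⟨F, i H⟩_E = 0` -/
theorem EB_phase (ψ : Poly d) : EB μ (AP ψ) ((I : ℂ) • ((nu d : ℂ) • ψ)) = 0 := by
  simp only [EB, AP_smul, ev_smul]
  have e : ∀ x, conj (ev (AP ψ) x) * (I * ((nu d : ℂ) * ev (AP ψ) x)) =
      I * ((nu d * ‖ev (AP ψ) x‖ ^ 2 : ℝ) : ℂ) := by
    intro x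
    push_cast
    rw [← Complex.conj_mul']
    ring
  simp only [e]
  rw [integral_const_mul, integral_complex_ofReal, Complex.I_mul_re, Complex.ofReal_im]
  simp

/-- (I_ph): second variation in the direction `i H` -/
theorem second_var_phase_core [Fact (2 ≤ d)] (hd : 3 ≤ d) (hμ : Law μ)
    (hc : ∀ P Q, EB μ P Q = EB μ Q P) (hn : ∀ P, 0 ≤ En μ P)
    (hAm : ∀ ψ ∈ HP d, AP ψ ∈ HP d) (hx2 : ∀ ψ ∈ HP d, X2 μ ψ ≤ En μ (AP ψ))
    (S : ℝ) (hS : 1 ≤ S) (hmax : ∀ P ∈ HP d, Ip μ P ≤ S * En μ P ^ (pe d / 2)) :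
    ∃ C : ℝ, 0 ≤ C ∧ ∀ ψ ∈ HP d, ∀ ε : ℝ, 0 < ε → ε ≤ 1 → En μ (AP ψ) = 1 →
      S - ε ≤ Ip μ (AP ψ) →
      ∫ x, (‖ev (AP ψ) x‖ ^ (pe d - 2) * ‖(nu d : ℂ) * ev ψ x‖ ^ 2 +
        (pe d - 2) * (‖ev (AP ψ) x‖ ^ (pe d - 2 - 2) *
          ((conj (ev (AP ψ) x) * ((nu d : ℂ) * ev ψ x)).im) ^ 2)) ∂μ ≤
        S * X2 μ ψ + C * ε ^ (min (pe d - 2) 1 / 4) := by
  obtain ⟨C, hC0, hC⟩ := second_var_dir hd hμ hc hn S hS hmax 1
  refine ⟨C, hC0, ?_⟩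
  intro ψ hψ ε he0 he1 h1 hnear
  have hE : En μ ((I : ℂ) • ((nu d : ℂ) • ψ)) = X2 μ ψ := by
    rw [En_I, En_smul_nu ψ (nu_pos d).ne']
  have h2 := hC (AP ψ) (hAm ψ hψ) ((I : ℂ) • ((nu d : ℂ) • ψ))
    ((HP d).smul_mem _ ((HP d).smul_mem _ hψ)) ε he0 he1 h1
    (by rw [hE, ← h1]; exact hx2 ψ hψ) hnear
  rw [hE, EB_phase] at h2
  refine le_trans (le_of_eq ?_) (h2.trans (le_of_eq (by ring)))
  refine integral_congr_ae (Filter.Eventually.of_forall fun x => ?_)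
  simp only
  rw [ev_smul, ev_smul, qp_phase]

/-- (I_rot): second variation in the directions `L_ij ψ`, summed -/
theorem second_var_rot_core [Fact (2 ≤ d)] (hd : 3 ≤ d) (hμ : Law μ)
    (hc : ∀ P Q, EB μ P Q = EB μ Q P) (hn : ∀ P, 0 ≤ En μ P)
    (hAm : ∀ ψ ∈ HP d, AP ψ ∈ HP d) (hLm : ∀ i j, ∀ ψ ∈ HP d, LP i j ψ ∈ HP d)
    (hL0 : ∀ i j, ∀ ψ ∈ HP d, EB μ (AP ψ) (LP i j ψ) = 0)
    (hLs : ∀ ψ ∈ HP d, 1 / 2 * ∑ i, ∑ j, En μ (LP i j ψ) = En μ (AP ψ) - X2 μ ψ)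
    (hx0 : ∀ ψ ∈ HP d, 0 ≤ X2 μ ψ)
    (S : ℝ) (hS : 1 ≤ S) (hmax : ∀ P ∈ HP d, Ip μ P ≤ S * En μ P ^ (pe d / 2)) :
    ∃ C : ℝ, 0 ≤ C ∧ ∀ ψ ∈ HP d, ∀ ε : ℝ, 0 < ε → ε ≤ 1 → En μ (AP ψ) = 1 →
      S - ε ≤ Ip μ (AP ψ) →
      ∫ x, (‖ev (AP ψ) x‖ ^ (pe d - 2) * (1 / 2 * ∑ i, ∑ j, ‖ev (LP i j ψ) x‖ ^ 2) +
        (pe d - 2) * (‖ev (AP ψ) x‖ ^ (pe d - 2 - 2) *
          (1 / 2 * ∑ i, ∑ j, ((conj (ev (AP ψ) x) * ev (LP i j ψ) x).re) ^ 2))) ∂μ ≤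
        S * (1 - X2 μ ψ) + C * ε ^ (min (pe d - 2) 1 / 4) := by
  have := hμ.prob
  have hq0 := qq_pos d
  have hq2 := qq_le d hd
  obtain ⟨C, hC0, hC⟩ := second_var_dir hd hμ hc hn S hS hmax 2
  refine ⟨1 / 2 * (((d : ℝ) + 1) * (((d : ℝ) + 1) * C)), by positivity, ?_⟩
  intro ψ hψ ε he0 he1 h1 hnear
  have hLs' := hLs ψ hψ
  have hX0 := hx0 ψ hψ
  rw [h1] at hLs'
  have hEle : ∀ i j, En μ (LP i j ψ) ≤ 2 := by
    intro i j
    have g1 : En μ (LP i j ψ) ≤ ∑ j, En μ (LP i j ψ) :=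
      Finset.single_le_sum (f := fun j => En μ (LP i j ψ)) (fun _ _ => hn _) (Finset.mem_univ j)
    have g2 : ∑ j, En μ (LP i j ψ) ≤ ∑ i, ∑ j, En μ (LP i j ψ) :=
      Finset.single_le_sum (f := fun i => ∑ j, En μ (LP i j ψ))
        (fun _ _ => Finset.sum_nonneg fun _ _ => hn _) (Finset.mem_univ i)
    linarith
  have hkey : ∀ i j, ∫ x, qp (pe d - 2) (ev (AP ψ) x) (ev (LP i j ψ) x) ∂μ ≤
      S * En μ (LP i j ψ) + C * ε ^ (min (pe d - 2) 1 / 4) := by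
    intro i j
    have h2 := hC (AP ψ) (hAm ψ hψ) (LP i j ψ) (hLm i j ψ hψ) ε he0 he1 h1 (hEle i j) hnear
    rw [hL0 i j ψ hψ] at h2
    refine h2.trans (le_of_eq (by ring))
  have hint : ∀ i j, Integrable (fun x => qp (pe d - 2) (ev (AP ψ) x) (ev (LP i j ψ) x)) μ := by
    intro i j
    obtain ⟨A, _, hA⟩ := law_bdd hμ (AP ψ)
    obtain ⟨B, _, hB⟩ := law_bdd hμ (LP i j ψ)
    exact integrable_qp hq0 hq2 (aem_ev _) (aem_ev _) hA hB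
  have e1 : ∫ x, (‖ev (AP ψ) x‖ ^ (pe d - 2) * (1 / 2 * ∑ i, ∑ j, ‖ev (LP i j ψ) x‖ ^ 2) +
        (pe d - 2) * (‖ev (AP ψ) x‖ ^ (pe d - 2 - 2) *
          (1 / 2 * ∑ i, ∑ j, ((conj (ev (AP ψ) x) * ev (LP i j ψ) x).re) ^ 2))) ∂μ =
      1 / 2 * ∑ i, ∑ j, ∫ x, qp (pe d - 2) (ev (AP ψ) x) (ev (LP i j ψ) x) ∂μ := by
    simp only [← integral_finsetSum _ fun j _ => hint _ j]
    rw [← integral_finsetSum _ fun i _ => integrable_finsetSum _ fun j _ => hint i j,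
      ← integral_const_mul]
    refine integral_congr_ae (Filter.Eventually.of_forall fun x => ?_)
    simp only [qp, Finset.sum_add_distrib, ← Finset.mul_sum]
    ring
  rw [e1]
  have h3 : ∑ i, ∑ j, ∫ x, qp (pe d - 2) (ev (AP ψ) x) (ev (LP i j ψ) x) ∂μ ≤
      ∑ i : Fin (d + 1), ∑ j : Fin (d + 1), (S * En μ (LP i j ψ) +
        C * ε ^ (min (pe d - 2) 1 / 4)) :=
    Finset.sum_le_sum fun i _ => Finset.sum_le_sum fun j _ => hkey i j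
  have h4 : ∑ i : Fin (d + 1), ∑ j : Fin (d + 1), (S * En μ (LP i j ψ) +
        C * ε ^ (min (pe d - 2) 1 / 4)) = S * ∑ i, ∑ j, En μ (LP i j ψ) +
        ((d : ℝ) + 1) * (((d : ℝ) + 1) * (C * ε ^ (min (pe d - 2) 1 / 4))) := by
    simp only [Finset.sum_add_distrib, ← Finset.mul_sum, Finset.sum_const, Finset.card_univ,
      Fintype.card_fin, nsmul_eq_mul]
    push_cast
    ring
  rw [h4] at h3
  have h5 : S * ∑ i, ∑ j, En μ (LP i j ψ) = 2 * (S * (1 - X2 μ ψ)) := by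
    rw [← hLs']; ring
  rw [h5] at h3
  have h6 : 1 / 2 * (((d : ℝ) + 1) * (((d : ℝ) + 1) * C)) * ε ^ (min (pe d - 2) 1 / 4) =
    1 / 2 * (((d : ℝ) + 1) * (((d : ℝ) + 1) * (C * ε ^ (min (pe d - 2) 1 / 4)))) := by ring
  rw [h6]
  linarith

end Pool.Agent.ConeG.SV
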