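import Pool.Agent.Work.MP_b0b133_an.Final
import Pool.Agent.Work.MP_b0b133_an.G.Fin1

/-!
# The sharp inequality on exponentials in dimension four, in the generic notation
-/

set_option autoImplicit false
open MeasureTheory Complex
open scoped ENNReal ComplexConjugate

namespace Pool.Agent.ConeG

theorem S4_nu : nu 4 = 3 / 2 := by norm_num [nu]

theorem S4_pe : pe 4 = 10 / 3 := by norm_num [pe]

theorem S4_te : te 4 = 3 / 5 := by norm_num [te]

theorem S4_kap : kap 4 * 4 ^ nu 4 = 32 * Real.pi ^ 2 := by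
  have hg : Real.Gamma (3 / 2) = √Real.pi / 2 := by
    have h := Real.Gamma_add_one (s := 1 / 2) (by norm_num)
    rw [Real.Gamma_one_half_eq] at h
    norm_num at h
    rw [h]
    ring
  have h4 : (4 : ℝ) ^ (3 / 2 : ℝ) = 8 := by
    have h5 : (4 : ℝ) = 2 ^ (2 : ℝ) := by norm_num
    rw [h5, ← Real.rpow_mul (by norm_num)]
    norm_num
  have hp : Real.pi ^ (3 / 2 : ℝ) = Real.pi * √Real.pi := by
    rw [Real.sqrt_eq_rpow]
    nth_rewrite 2 [← Real.rpow_one Real.pi]
    rw [← Real.rpow_add Real.pi_pos]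
    norm_num
  have hs : √Real.pi * √Real.pi = Real.pi := Real.mul_self_sqrt Real.pi_pos.le
  unfold kap
  rw [S4_nu, Real.mul_rpow (by norm_num) Real.pi_pos.le, h4, hp, hg]
  linear_combination 32 * Real.pi * hs

theorem S4_mM0 : mM0 4 = Cone.mM0 := by
  unfold mM0 Cone.mM0
  congr 1
  funext a
  congr 2
  norm_num

theorem S4_ExpSpan : ExpSpan 4 = Cone.ExpSpan := rfl

theorem S4_coneExt (f : Rd 4 → ℂ) : coneExt f = Cone.coneExt f := rfl

/-- the sharp inequality in dimension four -/
theorem sharp4 : Sharp 4 := by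
  intro f hf
  have h := Cone.Z_sharp f hf
  rw [S4_pe, S4_te, S4_kap, S4_mM0]
  exact h

end Pool.Agent.ConeG
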