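import Pool.Agent.Work.MP_b0b133_an.G.Fb

/-!
# Boundedness of the transplanted extensions
-/

set_option autoImplicit false
open MeasureTheory Complex
open scoped ENNReal ComplexConjugate

namespace Pool.Agent.ConeG

variable {d : ℕ}

theorem U1_norm (a : Rs d) : ‖(w a) ^ (nu d : ℂ)‖ = ‖w a‖ ^ (nu d) := by
  rw [Complex.norm_cpow_of_ne_zero (BO_w_ne_zero a)]
  have h1 : (nu d : ℂ).re = nu d := Complex.ofReal_re _
  have h2 : (nu d : ℂ).im = 0 := Complex.ofReal_im _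
  rw [h1, h2, mul_zero, Real.exp_zero, div_one]

/-- U1 : for `f` in `ExpSpan d`, `toM (coneExt f)` is bounded -/
theorem toM_bdd [Fact (2 ≤ d)] (f : Rd d → ℂ) (hf : f ∈ ExpSpan d) : ∃ C : ℝ, ∀ a, ‖toM (coneExt f) a‖ ≤ C := by
  obtain ⟨C, hC, h⟩ := coneExt_bound f hf
  refine ⟨C, fun a => ?_⟩
  have hw : 0 < ‖w a‖ := lt_of_lt_of_le one_pos (BO_one_le_norm_w a)
  unfold toM
  rw [norm_mul, U1_norm]
  calc ‖w a‖ ^ (nu d) * ‖coneExt f a‖ ≤
      ‖w a‖ ^ (nu d) * (C * ‖w a‖ ^ (-(nu d))) :=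
        mul_le_mul_of_nonneg_left (h a) (Real.rpow_nonneg hw.le _)
    _ = C * (‖w a‖ ^ (nu d) * ‖w a‖ ^ (-(nu d))) := by ring
    _ = C := by
        rw [← Real.rpow_add hw, add_neg_cancel, Real.rpow_zero, mul_one]

end Pool.Agent.ConeG
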