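import Pool.Agent.Work.MP_b0b133_an.G.Uk
import Pool.Agent.Work.MP_b0b133_an.G.U1
import Pool.Agent.Work.MP_b0b133_an.G.U3
import Pool.Agent.Work.MP_b0b133_an.G.L
import Pool.Agent.Work.MP_b0b133_an.G.E

/-!
# The core data on the compactification
-/

set_option autoImplicit false
open MeasureTheory Complex Filter
open scoped ENNReal ComplexConjugate Topology

namespace Pool.Agent.ConeG

variable {d : ℕ} [Fact (2 ≤ d)]

local instance : IsProbabilityMeasure (mM d) := mM_prob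

/-! ### polynomials on the compactification -/

theorem U_evX_cont (P : MvPolynomial (Fin (d + 1)) ℂ) : Continuous (evX P) := by
  unfold evX
  have : Continuous fun a : Rs d => fun j => X j a := continuous_pi fun j => C0_continuous_X j
  exact (MvPolynomial.continuous_eval P).comp this

theorem U_evX_bdd (P : MvPolynomial (Fin (d + 1)) ℂ) : ∃ C : ℝ, ∀ a, ‖evX P a‖ ≤ C := by
  refine ⟨∑ e ∈ P.support, ‖P.coeff e‖, fun a => ?_⟩
  unfold evX
  rw [MvPolynomial.eval_eq]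
  refine (norm_sum_le _ _).trans (Finset.sum_le_sum fun e _ => ?_)
  rw [norm_mul, norm_prod]
  refine mul_le_of_le_one_right (norm_nonneg _) (Finset.prod_le_one (fun _ _ => norm_nonneg _) ?_)
  intro i _
  rw [norm_pow]
  exact pow_le_one₀ (norm_nonneg _) (C0_norm_X_le i a)

theorem U_evX_memLp (P : MvPolynomial (Fin (d + 1)) ℂ) : MemLp (evX P) 2 (mM d) := by
  obtain ⟨C, hC⟩ := U_evX_bdd P
  exact MemLp.of_bound (U_evX_cont P).aestronglyMeasurable C (Eventually.of_forall hC)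

/-- evaluation of polynomials as a linear map into `L²` -/
noncomputable def U_ev : MvPolynomial (Fin (d + 1)) ℂ →ₗ[ℂ] Lp ℂ 2 (mM d) where
  toFun P := (U_evX_memLp P).toLp (evX P)
  map_add' P Q := by
    rw [← MemLp.toLp_add]
    refine MemLp.toLp_congr _ _ (Eventually.of_forall fun a => ?_)
    simp [evX]
  map_smul' c P := by
    rw [RingHom.id_apply, ← MemLp.toLp_const_smul]
    refine MemLp.toLp_congr _ _ (Eventually.of_forall fun a => ?_)
    simp [evX]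

theorem U_ev_coe (P : MvPolynomial (Fin (d + 1)) ℂ) : U_ev P =ᵐ[mM d] evX P :=
  (U_evX_memLp P).coeFn_toLp

theorem U_ev_inner (P Q : MvPolynomial (Fin (d + 1)) ℂ) :
    inner ℂ (U_ev P) (U_ev Q) = ∫ a, evX Q a * conj (evX P a) ∂(mM d) := by
  rw [L2.inner_def]
  refine integral_congr_ae ?_
  filter_upwards [U_ev_coe P, U_ev_coe Q] with a h1 h2
  rw [h1, h2, RCLike.inner_apply]

instance U_fin (l : ℕ) : FiniteDimensional ℂ (Harm d l) := by
  have h : Harm d l ≤ MvPolynomial.restrictTotalDegree (Fin (d + 1)) ℂ l := by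
    intro P hP
    rw [MvPolynomial.mem_restrictTotalDegree]
    exact hP.1.totalDegree_le
  have : FiniteDimensional ℂ (MvPolynomial.restrictTotalDegree (Fin (d + 1)) ℂ l) := inferInstance
  exact Submodule.finiteDimensional_of_le h

/-- the harmonics of degree `l` in `L²` -/
noncomputable def U_V (l : ℕ) : Submodule ℂ (Lp ℂ 2 (mM d)) := (Harm d l).map U_ev

instance U_finV (l : ℕ) : FiniteDimensional ℂ (U_V l : Submodule ℂ (Lp ℂ 2 (mM d))) := by
  unfold U_V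
  infer_instance

/-- the projection -/
noncomputable def U_P (l : ℕ) : Lp ℂ 2 (mM d) →L[ℂ] Lp ℂ 2 (mM d) := (U_V l).starProjection

theorem U_P_mem (l : ℕ) (F : Lp ℂ 2 (mM d)) : U_P l F ∈ U_V l := Submodule.starProjection_apply_mem _ _

theorem U_P_inner (l : ℕ) (F Y : Lp ℂ 2 (mM d)) (hY : Y ∈ U_V l) :
    inner ℂ Y (U_P l F) = inner ℂ Y F := by
  have h := Submodule.sub_starProjection_mem_orthogonal (K := U_V l) F
  have h2 := (Submodule.mem_orthogonal _ _).1 h Y hY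
  rw [inner_sub_right, sub_eq_zero] at h2
  exact h2.symm

theorem U_orth (l k : ℕ) (hlk : l ≠ k) (Y Z : Lp ℂ 2 (mM d)) (hY : Y ∈ U_V l) (hZ : Z ∈ U_V k) :
    inner ℂ Y Z = 0 := by
  obtain ⟨P, hP, rfl⟩ := hY
  obtain ⟨Q, hQ, rfl⟩ := hZ
  rw [U_ev_inner]
  exact evX_orth k l (Ne.symm hlk) Q P hQ hP

theorem U_P_same (l : ℕ) (Y : Lp ℂ 2 (mM d)) (hY : Y ∈ U_V l) : U_P l Y = Y :=
  Submodule.starProjection_eq_self_iff.2 hY

theorem U_P_other (l k : ℕ) (hlk : l ≠ k) (Y : Lp ℂ 2 (mM d)) (hY : Y ∈ U_V k) : U_P l Y = 0 := by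
  have h : inner ℂ (U_P l Y) (U_P l Y) = (0 : ℂ) := by
    rw [U_P_inner l Y _ (U_P_mem l Y)]
    exact U_orth l k hlk _ _ (U_P_mem l Y) hY
  exact inner_self_eq_zero.1 h

theorem U_bessel (F : Lp ℂ 2 (mM d)) (s : Finset ℕ) : ∑ l ∈ s, ‖U_P l F‖ ^ 2 ≤ ‖F‖ ^ 2 := by
  have h1 : ‖F - ∑ l ∈ s, U_P l F‖ ^ 2 = ‖F‖ ^ 2 - ∑ l ∈ s, ‖U_P l F‖ ^ 2 := by
    have e1 : inner ℂ (∑ l ∈ s, U_P l F) F = ((∑ l ∈ s, ‖U_P l F‖ ^ 2 : ℝ) : ℂ) := by
      rw [sum_inner]
      push_cast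
      refine Finset.sum_congr rfl fun l _ => ?_
      rw [← U_P_inner l F _ (U_P_mem l F), inner_self_eq_norm_sq_to_K]
      simp
    have e2 : inner ℂ (∑ l ∈ s, U_P l F) (∑ l ∈ s, U_P l F) =
        ((∑ l ∈ s, ‖U_P l F‖ ^ 2 : ℝ) : ℂ) := by
      rw [sum_inner]
      push_cast
      refine Finset.sum_congr rfl fun l hl => ?_
      rw [inner_sum, Finset.sum_eq_single l]
      · rw [inner_self_eq_norm_sq_to_K]
        simp
      · intro k _ hk
        exact U_orth l k (Ne.symm hk) _ _ (U_P_mem l F) (U_P_mem k F)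
      · intro h; exact absurd hl h
    have e3 : (‖F - ∑ l ∈ s, U_P l F‖ ^ 2 : ℝ) =
        (inner ℂ (F - ∑ l ∈ s, U_P l F) (F - ∑ l ∈ s, U_P l F) : ℂ).re := by
      rw [inner_self_eq_norm_sq_to_K]
      norm_cast
    have e4 : inner ℂ F (∑ l ∈ s, U_P l F) = ((∑ l ∈ s, ‖U_P l F‖ ^ 2 : ℝ) : ℂ) := by
      rw [← inner_conj_symm, e1, conj_ofReal]
    rw [e3, inner_sub_left, inner_sub_right, inner_sub_right, e1, e2, e4,
      inner_self_eq_norm_sq_to_K]
    simp only [sub_self, sub_zero, sub_re, ofReal_re]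
    norm_cast
  have := sq_nonneg ‖F - ∑ l ∈ s, U_P l F‖
  linarith

/-! ### ladder fields -/

theorem U_up (l : ℕ) (Y : Lp ℂ 2 (mM d)) (hY : Y ∈ U_V l) :
    ∃ M : Fin (d + 1) → Lp ℂ 2 (mM d), (∀ j, M j ∈ U_V (l + 1)) ∧
      (∀ᵐ x ∂(mM d), ∑ j, conj (X j x) * M j x = ((l + (d - 1)) / (2 * l + (d - 1)) : ℝ) * Y x) ∧
      ∑ j, ‖M j‖ ^ 2 = (l + (d - 1)) / (2 * l + (d - 1)) * ‖Y‖ ^ 2 := by
  obtain ⟨P, hP, rfl⟩ := hY
  obtain ⟨h1, h2⟩ := evX_up l P hP
  have hn : ∀ Q : MvPolynomial (Fin (d + 1)) ℂ, ‖U_ev Q‖ ^ 2 = ∫ a, ‖evX Q a‖ ^ 2 ∂(mM d) := by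
    intro Q
    have e : ((‖U_ev Q‖ ^ 2 : ℝ) : ℂ) = ((∫ a, ‖evX Q a‖ ^ 2 ∂(mM d) : ℝ) : ℂ) := by
      have h := U_ev_inner Q Q
      rw [inner_self_eq_norm_sq_to_K] at h
      rw [← integral_complex_ofReal]
      push_cast
      refine Eq.trans h (integral_congr_ae (Eventually.of_forall fun a => ?_))
      simp only [Complex.mul_conj, Complex.normSq_eq_norm_sq]
      push_cast
      rfl
    exact_mod_cast e
  refine ⟨fun j => U_ev (up l j P), fun j => ⟨_, up_mem l j P hP, rfl⟩, ?_, ?_⟩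
  · have hc : ∀ᵐ x ∂(mM d), ∀ j, U_ev (up l j P) x = evX (up l j P) x :=
      (ae_all_iff).2 fun j => U_ev_coe _
    filter_upwards [hc, U_ev_coe P] with x hx hx2
    rw [hx2, ← h1 x]
    exact Finset.sum_congr rfl fun j _ => by rw [hx j]
  · simp only [hn]
    exact h2

theorem U_dn (l : ℕ) (Y : Lp ℂ 2 (mM d)) (hY : Y ∈ U_V (l + 1)) :
    ∃ M : Fin (d + 1) → Lp ℂ 2 (mM d), (∀ j, M j ∈ U_V l) ∧
      (∀ᵐ x ∂(mM d), ∑ j, X j x * M j x = ((l + 1) / (2 * l + (d + 1)) : ℝ) * Y x) ∧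
      ∑ j, ‖M j‖ ^ 2 = (l + 1) / (2 * l + (d + 1)) * ‖Y‖ ^ 2 := by
  obtain ⟨P, hP, rfl⟩ := hY
  obtain ⟨h1, h2⟩ := evX_dn l P hP
  have hn : ∀ Q : MvPolynomial (Fin (d + 1)) ℂ, ‖U_ev Q‖ ^ 2 = ∫ a, ‖evX Q a‖ ^ 2 ∂(mM d) := by
    intro Q
    have e : ((‖U_ev Q‖ ^ 2 : ℝ) : ℂ) = ((∫ a, ‖evX Q a‖ ^ 2 ∂(mM d) : ℝ) : ℂ) := by
      have h := U_ev_inner Q Q
      rw [inner_self_eq_norm_sq_to_K] at h
      rw [← integral_complex_ofReal]
      push_cast
      refine Eq.trans h (integral_congr_ae (Eventually.of_forall fun a => ?_))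
      simp only [Complex.mul_conj, Complex.normSq_eq_norm_sq]
      push_cast
      rfl
    exact_mod_cast e
  set r : ℂ := ((1 / (2 * l + (d + 1)) : ℝ) : ℂ) with hr
  have hev : ∀ j, ∀ a, evX (r • MvPolynomial.pderiv j P) a = r * evX (MvPolynomial.pderiv j P) a :=
    fun j a => by simp [evX]
  refine ⟨fun j => U_ev (r • MvPolynomial.pderiv j P),
    fun j => ⟨_, (Harm d l).smul_mem _ (pderiv_mem l j P hP), rfl⟩, ?_, ?_⟩
  · have hc : ∀ᵐ x ∂(mM d), ∀ j, U_ev (r • MvPolynomial.pderiv j P) x =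
        evX (r • MvPolynomial.pderiv j P) x := (ae_all_iff).2 fun j => U_ev_coe _
    filter_upwards [hc, U_ev_coe P] with x hx hx2
    rw [hx2, ← h1 x]
    exact Finset.sum_congr rfl fun j _ => by rw [hx j, hev]
  · simp only [hn, hev]
    rw [← h2]

theorem U_bil (l k : ℕ) (hl : 0 < l) (Y Z : Lp ℂ 2 (mM d)) (hY : Y ∈ U_V l) (hZ : Z ∈ U_V k) :
    ∫ x, Y x * Z x ∂(mM d) = 0 := by
  obtain ⟨P, hP, rfl⟩ := hY
  obtain ⟨Q, hQ, rfl⟩ := hZ
  rw [← evX_bil l k hl P Q hP hQ]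
  refine integral_congr_ae ?_
  filter_upwards [U_ev_coe P, U_ev_coe Q] with a h1 h2
  rw [h1, h2]

/-- the constant function `1` -/
noncomputable def U_one : Lp ℂ 2 (mM d) := U_ev 1

theorem U_one_ae : ∀ᵐ x ∂(mM d), U_one x = 1 := by
  filter_upwards [U_ev_coe 1] with x hx
  rw [U_one, hx]
  simp [evX]

theorem U_V0 : (U_V 0 : Submodule ℂ (Lp ℂ 2 (mM d))) = Submodule.span ℂ {U_one} := by
  have h : Harm d 0 = Submodule.span ℂ {(1 : MvPolynomial (Fin (d + 1)) ℂ)} := by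
    ext P
    rw [Submodule.mem_span_singleton]
    constructor
    · intro hP
      have h0 : P.totalDegree = 0 := Nat.le_zero.1 hP.1.totalDegree_le
      rw [MvPolynomial.totalDegree_eq_zero_iff_eq_C] at h0
      exact ⟨P.coeff 0, by rw [MvPolynomial.smul_eq_C_mul, mul_one, ← h0]⟩
    · rintro ⟨c, rfl⟩
      exact (Harm d 0).smul_mem c ⟨MvPolynomial.isHomogeneous_one _ _, by simp⟩
  unfold U_V U_one
  rw [h, Submodule.map_span, Set.image_singleton]

/-! ### the exponentials -/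

theorem U_exp_int (f : Rd d → ℂ) (hf : f ∈ ExpSpan d) : Integrable f (sig d) ∧ MemLp f 2 (sig d) := by
  refine Submodule.span_induction (p := fun f _ => Integrable f (sig d) ∧ MemLp f 2 (sig d))
    ?_ ?_ ?_ ?_ hf
  · rintro _ ⟨c, v, hv, rfl⟩
    exact expo_integrable c v hv
  · exact ⟨integrable_zero _ _ _, MemLp.zero⟩
  · rintro f g - - ⟨h1, h2⟩ ⟨h3, h4⟩
    exact ⟨h1.add h3, h2.add h4⟩
  · rintro c f - ⟨h1, h2⟩
    exact ⟨h1.smul c, h2.const_smul c⟩

theorem U_ext_int (f : Rd d → ℂ) (hf : Integrable f (sig d)) (a : Rs d) :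
    Integrable (fun ξ => cexp (-(I * (pair a ξ : ℂ))) * f ξ) (sig d) := by
  refine hf.bdd_mul (c := 1) ?_ ?_
  · have : Continuous fun ξ : Rd d => cexp (-(I * (pair a ξ : ℂ))) := by
      unfold pair
      fun_prop
    exact this.aestronglyMeasurable
  · refine Eventually.of_forall fun ξ => ?_
    rw [show -(I * (pair a ξ : ℂ)) = ((-pair a ξ : ℝ) : ℂ) * I by push_cast; ring,
      Complex.norm_exp_ofReal_mul_I]

theorem U_ext_add (f g : Rd d → ℂ) (hf : Integrable f (sig d)) (hg : Integrable g (sig d)) :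
    coneExt (f + g) = coneExt f + coneExt g := by
  funext a
  simp only [coneExt, Pi.add_apply, mul_add]
  exact integral_add (U_ext_int f hf a) (U_ext_int g hg a)

theorem U_ext_smul (c : ℂ) (f : Rd d → ℂ) : coneExt (c • f) = c • coneExt f := by
  funext a
  simp only [coneExt, Pi.smul_apply, smul_eq_mul]
  rw [← integral_const_mul]
  refine integral_congr_ae (Eventually.of_forall fun ξ => ?_)
  simp only
  ring

theorem U_ext_cont (f : Rd d → ℂ) (hf : Integrable f (sig d)) : Continuous (coneExt f) := by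
  unfold coneExt
  refine continuous_of_dominated (bound := fun ξ => ‖f ξ‖) (fun a => (U_ext_int f hf a).1)
    (fun a => Eventually.of_forall fun ξ => ?_) hf.norm (Eventually.of_forall fun ξ => ?_)
  · rw [norm_mul, show -(I * (pair a ξ : ℂ)) = ((-pair a ξ : ℝ) : ℂ) * I by push_cast; ring,
      Complex.norm_exp_ofReal_mul_I, one_mul]
  · unfold pair
    fun_prop

theorem U_toM_add (u v : Rs d → ℂ) : toM (u + v) = toM u + toM v := by
  funext a; simp only [toM, Pi.add_apply]; ring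

theorem U_toM_smul (c : ℂ) (u : Rs d → ℂ) : toM (c • u) = c • toM u := by
  funext a; simp only [toM, Pi.smul_apply, smul_eq_mul]; ring

theorem U_toM_memLp (f : Rd d → ℂ) (hf : f ∈ ExpSpan d) : MemLp (toM (coneExt f)) 2 (mM d) := by
  obtain ⟨C, hC⟩ := toM_bdd f hf
  exact MemLp.of_bound (U3_toM_aesm _ (U_ext_cont f (U_exp_int f hf).1).aestronglyMeasurable) C
    (Eventually.of_forall hC)

/-- `f ↦ toM (coneExt f)` -/
noncomputable def U_F : ExpSpan d →ₗ[ℂ] Lp ℂ 2 (mM d) where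
  toFun f := (U_toM_memLp f.1 f.2).toLp _
  map_add' f g := by
    rw [← MemLp.toLp_add]
    refine MemLp.toLp_congr _ _ (Eventually.of_forall fun a => ?_)
    rw [Submodule.coe_add, U_ext_add _ _ (U_exp_int _ f.2).1 (U_exp_int _ g.2).1, U_toM_add]
  map_smul' c f := by
    rw [RingHom.id_apply, ← MemLp.toLp_const_smul]
    refine MemLp.toLp_congr _ _ (Eventually.of_forall fun a => ?_)
    rw [Submodule.coe_smul, U_ext_smul, U_toM_smul]

theorem U_F_coe (f : ExpSpan d) : U_F f =ᵐ[mM d] toM (coneExt f.1) := (U_toM_memLp f.1 f.2).coeFn_toLp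

/-- `f ↦ f` into `L²` -/
noncomputable def U_S : ExpSpan d →ₗ[ℂ] Lp ℂ 2 (sig d) where
  toFun f := (U_exp_int f.1 f.2).2.toLp _
  map_add' f g := by
    rw [← MemLp.toLp_add]
    exact MemLp.toLp_congr _ _ (Eventually.of_forall fun a => rfl)
  map_smul' c f := by
    rw [RingHom.id_apply, ← MemLp.toLp_const_smul]
    exact MemLp.toLp_congr _ _ (Eventually.of_forall fun a => rfl)

theorem U_S_coe (f : ExpSpan d) : U_S f =ᵐ[sig d] f.1 := (U_exp_int f.1 f.2).2.coeFn_toLp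

theorem U_S_inner (f g : ExpSpan d) : inner ℂ (U_S f) (U_S g) = ∫ ξ, g.1 ξ * conj (f.1 ξ) ∂(sig d) := by
  rw [L2.inner_def]
  refine integral_congr_ae ?_
  filter_upwards [U_S_coe f, U_S_coe g] with a h1 h2
  rw [h1, h2, RCLike.inner_apply]

theorem U_S_norm (f : ExpSpan d) : ‖U_S f‖ ^ 2 = ∫ ξ, ‖f.1 ξ‖ ^ 2 ∂(sig d) := by
  have e : ((‖U_S f‖ ^ 2 : ℝ) : ℂ) = ((∫ a, ‖f.1 a‖ ^ 2 ∂(sig d) : ℝ) : ℂ) := by
    have h := U_S_inner f f
    rw [inner_self_eq_norm_sq_to_K] at h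
    rw [← integral_complex_ofReal]
    push_cast
    refine Eq.trans h (integral_congr_ae (Eventually.of_forall fun a => ?_))
    simp only [Complex.mul_conj, Complex.normSq_eq_norm_sq]
    push_cast
    rfl
  exact_mod_cast e

/-- continuity of `U_F` with respect to `U_S` -/
theorem U_F_le : ∃ C : ℝ, 0 ≤ C ∧ ∀ f : ExpSpan d, ‖U_F f‖ ≤ C * ‖U_S f‖ := by
  obtain ⟨C, hC⟩ : ∃ C : ℝ, ∀ f : Rd d → ℂ, Integrable f (sig d) → MemLp f 2 (sig d) →
      MemLp (coneExt f) (ENNReal.ofReal (pe d)) volume ∧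
      (∫ a, ‖coneExt f a‖ ^ (pe d)) ^ (((d : ℝ) - 1) / ((d : ℝ) + 1)) ≤
        C * ∫ ξ, ‖f ξ‖ ^ 2 ∂(sig d) := strichartz (d := d)
  have hp2 : 2 < pe d := pe_gt d
  have hp0 : 0 < pe d := by linarith
  have hth : ((d : ℝ) - 1) / ((d : ℝ) + 1) = 2 / pe d := by
    have h2 := two_le_real d
    have h3 : (d : ℝ) - 1 ≠ 0 := by linarith
    have h4 : (d : ℝ) + 1 ≠ 0 := by linarith
    unfold pe
    field_simp
  set M : ℝ := (mM0 d Set.univ).toReal with hM
  have hM0 : 0 < M := U3_mass_pos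
  refine ⟨√(|C| * M⁻¹ ^ (2 / pe d)), Real.sqrt_nonneg _, fun f => ?_⟩
  have h1 := (hC f.1 (U_exp_int _ f.2).1 (U_exp_int _ f.2).2).2
  rw [← U_S_norm, hth] at h1
  have h2 := integral_toM (coneExt f.1) (U_ext_cont _ (U_exp_int _ f.2).1).aestronglyMeasurable
  set J : ℝ := ∫ a, ‖toM (coneExt f.1) a‖ ^ (pe d) ∂(mM d) with hJ
  have hJ0 : 0 ≤ J := integral_nonneg fun a => by positivity
  obtain ⟨B, hB⟩ := toM_bdd f.1 f.2
  have haesm := U3_toM_aesm _ (U_ext_cont f.1 (U_exp_int f.1 f.2).1).aestronglyMeasurable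
  -- comparison of norms on a probability space
  have h3 : ‖U_F f‖ ^ 2 ≤ J ^ (2 / pe d) := by
    have hp : MemLp (toM (coneExt f.1)) (ENNReal.ofReal (pe d)) (mM d) :=
      MemLp.of_bound haesm B (Eventually.of_forall hB)
    have e1 : ‖U_F f‖ = (eLpNorm (toM (coneExt f.1)) 2 (mM d)).toReal := by
      exact Lp.norm_toLp _ (U_toM_memLp f.1 f.2)
    have e2 : (eLpNorm (toM (coneExt f.1)) 2 (mM d)).toReal ≤
        (eLpNorm (toM (coneExt f.1)) (ENNReal.ofReal (pe d)) (mM d)).toReal := by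
      refine ENNReal.toReal_mono hp.2.ne ?_
      refine eLpNorm_le_eLpNorm_of_exponent_le ?_ haesm
      rw [show (2 : ℝ≥0∞) = ENNReal.ofReal 2 by simp]
      exact ENNReal.ofReal_le_ofReal hp2.le
    have h10 : (ENNReal.ofReal (pe d)).toReal = pe d := ENNReal.toReal_ofReal hp0.le
    have e3 : (eLpNorm (toM (coneExt f.1)) (ENNReal.ofReal (pe d)) (mM d)).toReal =
        J ^ (pe d)⁻¹ := by
      rw [hp.eLpNorm_eq_integral_rpow_norm (by
        simpa using hp0) ENNReal.ofReal_ne_top, h10]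
      rw [ENNReal.toReal_ofReal (by positivity), hJ]
    rw [e1]
    calc (eLpNorm (toM (coneExt f.1)) 2 (mM d)).toReal ^ 2 ≤ (J ^ (pe d)⁻¹) ^ 2 := by
          rw [← e3]
          exact pow_le_pow_left₀ ENNReal.toReal_nonneg e2 2
      _ = J ^ (2 / pe d) := by
          rw [← Real.rpow_natCast, ← Real.rpow_mul hJ0]
          congr 1
          push_cast
          ring
  have h4 : J = M⁻¹ * ∫ a, ‖coneExt f.1 a‖ ^ (pe d) := by
    rw [h2, ← hM]; field_simp
  have hI0 : 0 ≤ ∫ a, ‖coneExt f.1 a‖ ^ (pe d) := integral_nonneg fun a => by positivity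
  have h5 : J ^ (2 / pe d) ≤ M⁻¹ ^ (2 / pe d) * (|C| * ‖U_S f‖ ^ 2) := by
    rw [h4, Real.mul_rpow (by positivity) hI0]
    refine mul_le_mul_of_nonneg_left (h1.trans ?_) (by positivity)
    exact mul_le_mul_of_nonneg_right (le_abs_self C) (sq_nonneg _)
  have h6 : ‖U_F f‖ ^ 2 ≤ (√(|C| * M⁻¹ ^ (2 / pe d)) * ‖U_S f‖) ^ 2 := by
    rw [mul_pow, Real.sq_sqrt (by positivity)]
    linarith
  exact le_of_sq_le_sq h6 (by positivity)

end Pool.Agent.ConeG
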