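import Pool.Agent.Work.MP_b0b133_an.G.U
import Pool.Agent.Work.MP_b0b133_an.G.A

/-!
# The core data on the compactification: kernels and density
-/

set_option autoImplicit false
open MeasureTheory Complex Filter
open scoped ENNReal ComplexConjugate Topology

namespace Pool.Agent.ConeG

variable {d : ℕ} [Fact (2 ≤ d)]

local instance : IsProbabilityMeasure (mM d) := mM_prob

/-! ### two lemmas on limits of quadratic functionals -/

theorem U_dens1 {H : Type*} [NormedAddCommGroup H] (w : ℕ → ℝ) (hw : ∀ l, 0 ≤ w l) (x : ℕ → H)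
    (y : ℕ → ℕ → H) (q' : ℕ → ℝ) (q : ℝ) (h1 : ∀ n, HasSum (fun l => w l * ‖y n l‖ ^ 2) (q' n))
    (h2 : Tendsto q' atTop (𝓝 q)) (h3 : ∀ l, Tendsto (fun n => y n l) atTop (𝓝 (x l)))
    (s : Finset ℕ) : ∑ l ∈ s, w l * ‖x l‖ ^ 2 ≤ q := by
  refine le_of_tendsto_of_tendsto' (f := fun n => ∑ l ∈ s, w l * ‖y n l‖ ^ 2)
    (tendsto_finsetSum _ fun l _ => ((h3 l).norm.pow 2).const_mul _) h2 fun n => ?_
  exact sum_le_hasSum s (fun l _ => mul_nonneg (hw l) (sq_nonneg _)) (h1 n)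

theorem U_dens2 {H : Type*} [NormedAddCommGroup H] (w : ℕ → ℝ) (hw : ∀ l, 0 ≤ w l) (x : ℕ → H)
    (y : ℕ → ℕ → H) (q' : ℕ → ℝ) (q : ℝ) (h1 : ∀ n, HasSum (fun l => w l * ‖y n l‖ ^ 2) (q' n))
    (h2 : Tendsto q' atTop (𝓝 q)) (h3 : ∀ l, Tendsto (fun n => y n l) atTop (𝓝 (x l)))
    (δ : ℕ → ℝ) (hδ : Tendsto δ atTop (𝓝 0))
    (h4 : ∀ n (s : Finset ℕ), ∑ l ∈ s, w l * ‖x l - y n l‖ ^ 2 ≤ δ n) :
    HasSum (fun l => w l * ‖x l‖ ^ 2) q := by
  have hs := U_dens1 w hw x y q' q h1 h2 h3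
  have h0 : ∀ l, 0 ≤ w l * ‖x l‖ ^ 2 := fun l => mul_nonneg (hw l) (sq_nonneg _)
  have hsum : Summable fun l => w l * ‖x l‖ ^ 2 := summable_of_sum_le h0 hs
  set T := ∑' l, w l * ‖x l‖ ^ 2 with hT
  have hTq : T ≤ q := hsum.tsum_le_of_sum_le hs
  have hT0 : 0 ≤ T := tsum_nonneg h0
  have hlow : ∀ η : ℝ, 0 < η → q ≤ (1 + η) * T := by
    intro η hη
    have h5 : ∀ n, q' n ≤ (1 + η) * T + (1 + 1 / η) * δ n := by
      intro n
      refine hasSum_le_of_sum_le (h1 n) fun s => ?_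
      calc ∑ l ∈ s, w l * ‖y n l‖ ^ 2
          ≤ ∑ l ∈ s, ((1 + η) * (w l * ‖x l‖ ^ 2) + (1 + 1 / η) * (w l * ‖x l - y n l‖ ^ 2)) := by
            refine Finset.sum_le_sum fun l _ => ?_
            have e1 : ‖y n l‖ ≤ ‖x l‖ + ‖x l - y n l‖ := by
              have : y n l = x l - (x l - y n l) := by abel
              calc ‖y n l‖ = ‖x l - (x l - y n l)‖ := by rw [← this]
                _ ≤ _ := norm_sub_le _ _
            have e2 : ‖y n l‖ ^ 2 ≤ (1 + η) * ‖x l‖ ^ 2 + (1 + 1 / η) * ‖x l - y n l‖ ^ 2 := by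
              have e3 : ‖y n l‖ ^ 2 ≤ (‖x l‖ + ‖x l - y n l‖) ^ 2 :=
                pow_le_pow_left₀ (norm_nonneg _) e1 2
              have e4 : 0 ≤ (η * ‖x l‖ - ‖x l - y n l‖) ^ 2 / η := by positivity
              have e5 : (η * ‖x l‖ - ‖x l - y n l‖) ^ 2 / η =
                  η * ‖x l‖ ^ 2 - 2 * (‖x l‖ * ‖x l - y n l‖) + 1 / η * ‖x l - y n l‖ ^ 2 := by
                field_simp
                ring
              rw [e5] at e4
              nlinarith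
            have := mul_le_mul_of_nonneg_left e2 (hw l)
            linarith
        _ = (1 + η) * ∑ l ∈ s, w l * ‖x l‖ ^ 2 +
            (1 + 1 / η) * ∑ l ∈ s, w l * ‖x l - y n l‖ ^ 2 := by
            rw [Finset.sum_add_distrib, Finset.mul_sum, Finset.mul_sum]
        _ ≤ _ := by
            gcongr
            · exact hsum.sum_le_tsum s fun l _ => h0 l
            · exact h4 n s
    have h6 : Tendsto (fun n => (1 + η) * T + (1 + 1 / η) * δ n) atTop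
        (𝓝 ((1 + η) * T + (1 + 1 / η) * 0)) := tendsto_const_nhds.add (hδ.const_mul _)
    have := le_of_tendsto_of_tendsto' h2 h6 h5
    linarith
  have hqT : q ≤ T := by
    refine le_of_forall_pos_le_add fun ε hε => ?_
    have h7 := hlow (ε / (T + 1)) (by positivity)
    have h8 : ε / (T + 1) * T ≤ ε := by
      rw [div_mul_eq_mul_div, div_le_iff₀ (by positivity)]
      nlinarith
    linarith
  have : T = q := le_antisymm hTq hqT
  rw [← this]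
  exact hsum.hasSum

/-! ### kernels -/

/-- the zonal harmonics as elements of `L²` -/
noncomputable def U_Z (l : ℕ) (β : Fin (d + 1) → ℂ) : Lp ℂ 2 (mM d) := U_ev (zon l β)

theorem U_Z_mem (l : ℕ) (β : Fin (d + 1) → ℂ) : U_Z l β ∈ U_V l := ⟨_, zon_mem l β, rfl⟩

theorem U_Z_inner_ev (l : ℕ) (β : Fin (d + 1) → ℂ) (P : MvPolynomial (Fin (d + 1)) ℂ) (hP : P ∈ Harm d l) :
    inner ℂ (U_Z l β) (U_ev P) = cw d l * MvPolynomial.eval (fun j => conj (β j)) P := by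
  rw [U_Z, U_ev_inner]
  exact evX_repr l P hP β

theorem U_Z_norm (l : ℕ) (β : Fin (d + 1) → ℂ) :
    ((‖U_Z l β‖ ^ 2 : ℝ) : ℂ) = cw d l * MvPolynomial.eval (fun j => conj (β j)) (zon l β) := by
  have h := U_Z_inner_ev l β (zon l β) (zon_mem l β)
  rw [← U_Z, inner_self_eq_norm_sq_to_K] at h
  rw [← h]
  norm_cast

theorem U_Z_hasSum_eval (β β' : Fin (d + 1) → ℂ) (hβ : ∑ j, ‖β j‖ ^ 2 ≤ 1 / 16)
    (hβ' : ∑ j, ‖β' j‖ ^ 2 ≤ 1 / 16) :
    HasSum (fun l => MvPolynomial.eval (fun j => conj (β' j)) (zon l β))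
      ((1 - 2 * ∑ j, conj (β' j) * β j + (∑ j, conj (β' j) ^ 2) * ∑ j, β j ^ 2) ^
        (-(nu d : ℂ))) :=
  hasSum_zon _ β (by simp only [RCLike.norm_conj]; exact hβ'.trans (by norm_num)) hβ

theorem U_cw_pos (d : ℕ) [Fact (2 ≤ d)] (l : ℕ) : 0 < cw d l := by
  unfold cw
  have := nu_pos d
  positivity

theorem U_cw_le (d : ℕ) [Fact (2 ≤ d)] (l : ℕ) : cw d l ≤ 1 := by
  unfold cw
  have := nu_pos d
  rw [div_le_one (by positivity)]
  have : (0 : ℝ) ≤ l := Nat.cast_nonneg l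
  linarith

/-- the energies of the zonal harmonics are summable -/
theorem U_Z_summable (β : Fin (d + 1) → ℂ) (hβ : ∑ j, ‖β j‖ ^ 2 ≤ 1 / 16) :
    Summable fun l => (cw d l)⁻¹ * ‖U_Z l β‖ ^ 2 := by
  have h := (U_Z_hasSum_eval β β hβ hβ).summable
  have h2 : ∀ l, ((cw d l)⁻¹ * ‖U_Z l β‖ ^ 2 : ℝ) =
      (MvPolynomial.eval (fun j => conj (β j)) (zon l β)).re := by
    intro l
    have h3 := U_Z_norm l β
    have h4 : (((cw d l)⁻¹ * ‖U_Z l β‖ ^ 2 : ℝ) : ℂ) =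
        MvPolynomial.eval (fun j => conj (β j)) (zon l β) := by
      have hc : (cw d l : ℂ) ≠ 0 := by exact_mod_cast (U_cw_pos d l).ne'
      rw [ofReal_mul, h3, ofReal_inv, inv_mul_cancel_left₀ hc]
    rw [← h4, ofReal_re]
  simp only [h2]
  exact (Complex.hasSum_re h.hasSum).summable

theorem U_Z_summable' (β : Fin (d + 1) → ℂ) (hβ : ∑ j, ‖β j‖ ^ 2 ≤ 1 / 16) :
    Summable fun l => ‖U_Z l β‖ ^ 2 := by
  refine Summable.of_nonneg_of_le (fun l => sq_nonneg _) (fun l => ?_) (U_Z_summable β hβ)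
  have h1 : 1 ≤ (cw d l)⁻¹ := (one_le_inv₀ (U_cw_pos d l)).2 (U_cw_le d l)
  nlinarith [sq_nonneg ‖U_Z l β‖]

theorem U_hasSum_Z (β : Fin (d + 1) → ℂ) (hβ : ∑ j, ‖β j‖ ^ 2 ≤ 1 / 16) (F : Lp ℂ 2 (mM d))
    (hF : ∀ᵐ a ∂(mM d), F a = (1 - 2 * ∑ j, X j a * β j + (∑ j, X j a ^ 2) * ∑ j, β j ^ 2) ^
      (-(nu d : ℂ))) : HasSum (fun l => U_Z l β) F := by
  have hfam : OrthogonalFamily ℂ (fun l => (U_V l : Submodule ℂ (Lp ℂ 2 (mM d))))
      (fun l => (U_V l).subtypeₗᵢ) := by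
    intro i j hij v w
    exact U_orth i j hij _ _ v.2 w.2
  have hS : Summable fun l => U_Z l β := by
    have := (hfam.summable_iff_norm_sq_summable (fun l => ⟨U_Z l β, U_Z_mem l β⟩)).2
      (U_Z_summable' β hβ)
    exact this
  have hT : Tendsto (fun n => ∑ l ∈ Finset.range n, U_Z l β) atTop (𝓝 (∑' l, U_Z l β)) :=
    hS.hasSum.tendsto_sum_nat
  obtain ⟨φ, hφ, hae⟩ := (tendstoInMeasure_of_tendsto_Lp hT).exists_seq_tendsto_ae
  have hcoe : ∀ᵐ a ∂(mM d), ∀ n, (∑ l ∈ Finset.range n, U_Z l β : Lp ℂ 2 (mM d)) a =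
      ∑ l ∈ Finset.range n, evX (zon l β) a := by
    refine ae_all_iff.2 fun n => ?_
    have e : (∑ l ∈ Finset.range n, U_Z l β : Lp ℂ 2 (mM d)) =
        U_ev (∑ l ∈ Finset.range n, zon l β) := by
      rw [map_sum]; rfl
    rw [e]
    filter_upwards [U_ev_coe (∑ l ∈ Finset.range n, zon l β)] with a ha
    rw [ha]
    simp [evX]
  have hEq : (∑' l, U_Z l β) = F := by
    refine Lp.ext ?_
    filter_upwards [hae, hcoe, hF] with a h1 h2 h3
    have h4 : Tendsto (fun n => ∑ l ∈ Finset.range (φ n), evX (zon l β) a) atTop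
        (𝓝 ((1 - 2 * ∑ j, X j a * β j + (∑ j, X j a ^ 2) * ∑ j, β j ^ 2) ^
      (-(nu d : ℂ)))) :=
      ((hasSum_zon (fun j => X j a) β (sum_norm_X a).le hβ).tendsto_sum_nat).comp hφ.tendsto_atTop
    have h5 : Tendsto (fun n => ∑ l ∈ Finset.range (φ n), evX (zon l β) a) atTop
        (𝓝 ((∑' l, U_Z l β : Lp ℂ 2 (mM d)) a)) := by
      refine h1.congr fun n => ?_
      rw [h2]
    rw [h3]
    exact tendsto_nhds_unique h5 h4
  rw [← hEq]
  exact hS.hasSum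

/-- data of one exponential near the base point -/
structure U_near (r : ℝ) (f : ExpSpan d) (β : Fin (d + 1) → ℂ) (κ : ℂ) : Prop where
  hβ : ∑ j, ‖β j‖ ^ 2 ≤ 1 / 16
  hκ : κ ≠ 0
  hsum : HasSum (fun l => κ • U_Z l β) (U_F f)

theorem U_near_P {r : ℝ} {f : ExpSpan d} {β : Fin (d + 1) → ℂ} {κ : ℂ} (h : U_near r f β κ) (l : ℕ) :
    U_P l (U_F f) = κ • U_Z l β := by
  have h1 : HasSum (fun k => U_P l (κ • U_Z k β)) (U_P l (U_F f)) := (U_P l).hasSum h.hsum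
  have h2 : HasSum (fun k => U_P l (κ • U_Z k β)) (U_P l (κ • U_Z l β)) := by
    refine hasSum_single l fun k hk => ?_
    exact U_P_other l k (Ne.symm hk) _ ((U_V k).smul_mem κ (U_Z_mem k β))
  rw [h1.unique h2]
  exact U_P_same l _ ((U_V l).smul_mem κ (U_Z_mem l β))

theorem U_expo_mem (c v : Rs d) (hv : v ∈ Fwd) : expo c v ∈ ExpSpan d :=
  Submodule.subset_span ⟨c, v, hv, rfl⟩

/-- the exponentials near the base point -/
theorem U_exists_near : ∃ r : ℝ, 0 < r ∧ (∀ p ∈ Metric.ball ((0, (1, 0)) : Rs d × Rs d) r,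
      p.2 ∈ Fwd) ∧
    (∀ p ∈ Metric.ball ((0, (1, 0)) : Rs d × Rs d) r, ∀ f : ExpSpan d, f.1 = expo p.1 p.2 →
      U_near r f (U_bet p.1 p.2) (U_kap p.1 p.2)) ∧
    ∀ p ∈ Metric.ball ((0, (1, 0)) : Rs d × Rs d) r, ∀ p' ∈ Metric.ball ((0, (1, 0)) : Rs d × Rs d) r,
      ∀ f g : ExpSpan d, f.1 = expo p.1 p.2 → g.1 = expo p'.1 p'.2 →
      HasSum (fun l => ((cw d l : ℝ) : ℂ)⁻¹ * inner ℂ (U_P l (U_F g)) (U_P l (U_F f)))
        (((kap d * 4 ^ nu d : ℝ) : ℂ) * inner ℂ (U_S g) (U_S f)) := by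
  obtain ⟨r, hr, h⟩ := U_kernel (d := d)
  have hnear : ∀ p ∈ Metric.ball ((0, (1, 0)) : Rs d × Rs d) r, ∀ f : ExpSpan d,
      f.1 = expo p.1 p.2 → U_near r f (U_bet p.1 p.2) (U_kap p.1 p.2) := by
    intro p hp f hf
    obtain ⟨h1, h2, h3, h4, -⟩ := h p hp
    refine ⟨h2, h3, ?_⟩
    have e : U_F f = U_kap p.1 p.2 • ((U_kap p.1 p.2)⁻¹ • U_F f) := by
      rw [smul_smul, mul_inv_cancel₀ h3, one_smul]
    rw [e]
    refine HasSum.const_smul _ (U_hasSum_Z _ h2 _ ?_)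
    filter_upwards [Lp.coeFn_smul (U_kap p.1 p.2)⁻¹ (U_F f), U_F_coe f] with a ha hb
    rw [ha, Pi.smul_apply, hb, hf, h4 a, smul_eq_mul, inv_mul_cancel_left₀ h3]
  refine ⟨r, hr, fun p hp => (h p hp).1, hnear, ?_⟩
  intro p hp p' hp' f g hf hg
  obtain ⟨h1, h2, h3, h4, h5⟩ := h p hp
  have n1 := hnear p hp f hf
  have n2 := hnear p' hp' g hg
  have e1 : ((kap d * 4 ^ nu d : ℝ) : ℂ) * inner ℂ (U_S g) (U_S f) = U_kap p.1 p.2 * conj (U_kap p'.1 p'.2) *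
          (1 - 2 * ∑ j, conj (U_bet p'.1 p'.2 j) * U_bet p.1 p.2 j +
            (∑ j, conj (U_bet p'.1 p'.2 j) ^ 2) * ∑ j, U_bet p.1 p.2 j ^ 2) ^ (-(nu d : ℂ)) := by
    rw [U_S_inner, hf, hg]
    exact h5 p' hp'
  rw [e1]
  have hs := (U_Z_hasSum_eval (U_bet p.1 p.2) (U_bet p'.1 p'.2) n1.hβ n2.hβ).mul_left
    (U_kap p.1 p.2 * conj (U_kap p'.1 p'.2))
  refine hs.congr_fun fun l => ?_
  rw [U_near_P n1, U_near_P n2, inner_smul_left, inner_smul_right]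
  have e2 : inner ℂ (U_Z l (U_bet p'.1 p'.2)) (U_Z l (U_bet p.1 p.2)) =
      cw d l * MvPolynomial.eval (fun j => conj (U_bet p'.1 p'.2 j)) (zon l (U_bet p.1 p.2)) :=
    U_Z_inner_ev l _ _ (zon_mem l _)
  rw [e2]
  have hc : (cw d l : ℂ) ≠ 0 := by exact_mod_cast (U_cw_pos d l).ne'
  field_simp

end Pool.Agent.ConeG
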