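import Pool.Agent.Work.MP_b0b133_an.G.U2
import Pool.Agent.Work.MP_b0b133_an.G.D3

/-!
# The core data on the compactification: energy identity
-/

set_option autoImplicit false
open MeasureTheory Complex Filter
open scoped ENNReal ComplexConjugate Topology

namespace Pool.Agent.ConeG

variable {d : ℕ}

variable [Fact (2 ≤ d)]

local instance : IsProbabilityMeasure (mM d) := mM_prob


theorem U_P_inner' (l : ℕ) (F Y : Lp ℂ 2 (mM d)) (hY : Y ∈ U_V l) :
    inner ℂ (U_P l F) Y = inner ℂ F Y := by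
  rw [← inner_conj_symm, U_P_inner l F Y hY, inner_conj_symm]

/-- energy identity on the span of the near exponentials -/
theorem U_energy_near (N : Set (ExpSpan d))
    (h : ∀ f ∈ N, ∀ g ∈ N, HasSum (fun l => ((cw d l : ℝ) : ℂ)⁻¹ *
      inner ℂ (U_P l (U_F g)) (U_P l (U_F f))) (((kap d * 4 ^ (nu d) : ℝ) : ℂ) * inner ℂ (U_S g) (U_S f)))
    (f g : ExpSpan d) (hf : f ∈ Submodule.span ℂ N) (hg : g ∈ Submodule.span ℂ N) :
    HasSum (fun l => ((cw d l : ℝ) : ℂ)⁻¹ * inner ℂ (U_P l (U_F g)) (U_P l (U_F f)))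
      (((kap d * 4 ^ (nu d) : ℝ) : ℂ) * inner ℂ (U_S g) (U_S f)) := by
  induction hf, hg using Submodule.span_induction₂ with
  | mem_mem x y hx hy => exact h x hx y hy
  | zero_left y hy => simp
  | zero_right x hx => simp
  | add_left x y z hx hy hz h1 h2 =>
    simp only [map_add, inner_add_right, mul_add]
    exact h1.add h2
  | add_right x y z hx hy hz h1 h2 =>
    simp only [map_add, inner_add_left, mul_add]
    exact h1.add h2
  | smul_left r x y hx hy h1 =>
    have := h1.mul_left r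
    simp only [map_smul, inner_smul_right]
    rw [mul_left_comm]
    exact this.congr_fun fun l => mul_left_comm _ _ _
  | smul_right r x y hx hy h1 =>
    have := h1.mul_left (conj r)
    simp only [map_smul, inner_smul_left]
    rw [mul_left_comm]
    exact this.congr_fun fun l => mul_left_comm _ _ _

theorem U_parseval_near (N : Set (ExpSpan d))
    (h : ∀ f ∈ N, ∃ (r : ℝ) (β : Fin (d + 1) → ℂ) (κ : ℂ), U_near r f β κ) (G : Lp ℂ 2 (mM d))
    (f : ExpSpan d) (hf : f ∈ Submodule.span ℂ N) :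
    HasSum (fun l => inner ℂ (U_P l G) (U_P l (U_F f))) (inner ℂ G (U_F f)) := by
  induction hf using Submodule.span_induction with
  | mem x hx =>
    obtain ⟨r, β, κ, hn⟩ := h x hx
    have h1 : HasSum (fun l => inner ℂ G (κ • U_Z l β)) (inner ℂ G (U_F x)) :=
      (innerSL ℂ G).hasSum hn.hsum
    refine h1.congr_fun fun l => ?_
    rw [U_near_P hn, U_P_inner' l G _ ((U_V l).smul_mem κ (U_Z_mem l β))]
  | zero => simp
  | add x y hx hy h1 h2 =>
    simp only [map_add, inner_add_right]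
    exact h1.add h2
  | smul r x hx h1 =>
    have := h1.mul_left r
    simp only [map_smul, inner_smul_right]
    exact this

/-- density of the near exponentials -/
theorem U_dense_near (r : ℝ) (hr : 0 < r)
    (hF : ∀ p ∈ Metric.ball ((0, (1, 0)) : Rs d × Rs d) r, p.2 ∈ Fwd) (N : Set (ExpSpan d))
    (hN : ∀ p ∈ Metric.ball ((0, (1, 0)) : Rs d × Rs d) r, ∀ f : ExpSpan d, f.1 = expo p.1 p.2 → f ∈ N)
    (f : ExpSpan d) (ε : ℝ) (hε : 0 < ε) : ∃ g ∈ Submodule.span ℂ N, ‖U_S (f - g)‖ < ε := by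
  set K : Submodule ℂ (Lp ℂ 2 (sig d)) := (Submodule.span ℂ N).map U_S with hK
  have h0 : Kᗮ = ⊥ := by
    rw [Submodule.eq_bot_iff]
    intro x hx
    have h1 : (x : Rd d → ℂ) =ᵐ[sig d] 0 := by
      refine expo_dense x (Lp.memLp x) r hr fun c v hv hc hv1 => ?_
      have hp : ((c, v) : Rs d × Rs d) ∈ Metric.ball ((0, (1, 0)) : Rs d × Rs d) r := by
        rw [Metric.mem_ball, Prod.dist_eq, max_lt_iff, dist_zero_right, dist_eq_norm]
        exact ⟨hc, hv1⟩
      set e : ExpSpan d := ⟨expo c v, U_expo_mem c v hv⟩ with he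
      have h2 : U_S e ∈ K := ⟨e, Submodule.subset_span (hN _ hp e rfl), rfl⟩
      have h3 := (Submodule.mem_orthogonal _ _).1 hx _ h2
      rw [L2.inner_def] at h3
      rw [← h3]
      refine integral_congr_ae ?_
      filter_upwards [U_S_coe e] with a ha
      rw [ha, RCLike.inner_apply]
    exact (Lp.eq_zero_iff_ae_eq_zero).2 h1
  have h1 : K.topologicalClosure = ⊤ := by
    rw [Submodule.topologicalClosure_eq_top_iff]; exact h0
  have h2 : U_S f ∈ closure (K : Set (Lp ℂ 2 (sig d))) := by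
    have : U_S f ∈ K.topologicalClosure := by rw [h1]; trivial
    exact this
  obtain ⟨y, ⟨g, hg, rfl⟩, hy⟩ := Metric.mem_closure_iff.1 h2 ε hε
  exact ⟨g, hg, by rw [map_sub, ← dist_eq_norm]; exact hy⟩

/-- all exponentials -/
theorem U_energy (f : ExpSpan d) :
    HasSum (fun l => (cw d l)⁻¹ * ‖U_P l (U_F f)‖ ^ 2) ((kap d * 4 ^ (nu d)) * ‖U_S f‖ ^ 2) ∧
    HasSum (fun l => ‖U_P l (U_F f)‖ ^ 2) (‖U_F f‖ ^ 2) := by
  obtain ⟨r, hr, hF, hn, hpair⟩ := U_exists_near (d := d)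
  set N : Set (ExpSpan d) := {f | ∃ p ∈ Metric.ball ((0, (1, 0)) : Rs d × Rs d) r, f.1 = expo p.1 p.2}
    with hN
  obtain ⟨C, hC0, hC⟩ := U_F_le (d := d)
  have e1 : ∀ g ∈ Submodule.span ℂ N,
      HasSum (fun l => (cw d l)⁻¹ * ‖U_P l (U_F g)‖ ^ 2) ((kap d * 4 ^ (nu d)) * ‖U_S g‖ ^ 2) := by
    intro g hg
    have h1 := U_energy_near N (fun f ⟨p, hp, hf⟩ g ⟨p', hp', hg⟩ => hpair p hp p' hp' f g hf hg)
      g g hg hg
    have h2 := Complex.hasSum_re h1
    convert h2 using 1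
    · funext l
      rw [inner_self_eq_norm_sq_to_K, ← ofReal_inv]
      simp [← ofReal_pow, -Complex.ofReal_inv]
    · rw [inner_self_eq_norm_sq_to_K]
      have : (((kap d * 4 ^ (nu d) : ℝ) : ℂ) * ((‖U_S g‖ : ℝ) : ℂ) ^ 2) =
          (((kap d * 4 ^ (nu d)) * ‖U_S g‖ ^ 2 : ℝ) : ℂ) := by push_cast; ring
      exact (congrArg Complex.re this).symm ▸ (ofReal_re _).symm
  have e2 : ∀ g ∈ Submodule.span ℂ N,
      HasSum (fun l => ‖U_P l (U_F g)‖ ^ 2) (‖U_F g‖ ^ 2) := by
    intro g hg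
    have h1 := U_parseval_near N (fun f ⟨p, hp, hf⟩ => ⟨r, _, _, hn p hp f hf⟩) (U_F g) g hg
    have h2 := Complex.hasSum_re h1
    convert h2 using 1
    · funext l
      rw [inner_self_eq_norm_sq_to_K]
      simp [← ofReal_pow]
    · rw [inner_self_eq_norm_sq_to_K]
      simp [← ofReal_pow]
  -- approximating sequences
  have hseq : ∀ f : ExpSpan d, ∃ g : ℕ → ExpSpan d, (∀ n, g n ∈ Submodule.span ℂ N) ∧
      Tendsto (fun n => ‖U_S (f - g n)‖) atTop (𝓝 0) := by
    intro f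
    have := fun n : ℕ => U_dense_near r hr hF N (fun p hp f hf => ⟨p, hp, hf⟩) f
      (1 / ((n : ℝ) + 1)) (by positivity)
    choose g hg1 hg2 using this
    refine ⟨g, hg1, ?_⟩
    refine squeeze_zero (fun n => norm_nonneg _) (fun n => (hg2 n).le) ?_
    exact tendsto_one_div_add_atTop_nhds_zero_nat
  have hw : ∀ l, 0 ≤ (cw d l)⁻¹ := fun l => inv_nonneg.2 (U_cw_pos (d := d) l).le
  have hFt : ∀ (f : ExpSpan d) (g : ℕ → ExpSpan d), Tendsto (fun n => ‖U_S (f - g n)‖) atTop (𝓝 0) →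
      Tendsto (fun n => ‖U_F (f - g n)‖) atTop (𝓝 0) := by
    intro f g hg
    refine squeeze_zero (fun n => norm_nonneg _) (fun n => hC _) ?_
    simpa using hg.const_mul C
  have hPt : ∀ (f : ExpSpan d) (g : ℕ → ExpSpan d), Tendsto (fun n => ‖U_S (f - g n)‖) atTop (𝓝 0) →
      ∀ l, Tendsto (fun n => U_P l (U_F (g n))) atTop (𝓝 (U_P l (U_F f))) := by
    intro f g hg l
    have h1 : Tendsto (fun n => U_F (g n)) atTop (𝓝 (U_F f)) := by
      rw [tendsto_iff_norm_sub_tendsto_zero]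
      refine (hFt f g hg).congr fun n => ?_
      rw [map_sub, norm_sub_rev]
    exact ((U_P l).continuous.tendsto _).comp h1
  have hSt : ∀ (f : ExpSpan d) (g : ℕ → ExpSpan d), Tendsto (fun n => ‖U_S (f - g n)‖) atTop (𝓝 0) →
      Tendsto (fun n => ‖U_S (g n)‖) atTop (𝓝 ‖U_S f‖) := by
    intro f g hg
    have h1 : Tendsto (fun n => U_S (g n)) atTop (𝓝 (U_S f)) := by
      rw [tendsto_iff_norm_sub_tendsto_zero]
      refine hg.congr fun n => ?_
      rw [map_sub, norm_sub_rev]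
    exact h1.norm
  have hFt' : ∀ (f : ExpSpan d) (g : ℕ → ExpSpan d), Tendsto (fun n => ‖U_S (f - g n)‖) atTop (𝓝 0) →
      Tendsto (fun n => ‖U_F (g n)‖) atTop (𝓝 ‖U_F f‖) := by
    intro f g hg
    have h1 : Tendsto (fun n => U_F (g n)) atTop (𝓝 (U_F f)) := by
      rw [tendsto_iff_norm_sub_tendsto_zero]
      refine (hFt f g hg).congr fun n => ?_
      rw [map_sub, norm_sub_rev]
    exact h1.norm
  -- first bounds for all exponentials
  have b1 : ∀ (f : ExpSpan d) (s : Finset ℕ), ∑ l ∈ s, (cw d l)⁻¹ * ‖U_P l (U_F f)‖ ^ 2 ≤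
      (kap d * 4 ^ (nu d)) * ‖U_S f‖ ^ 2 := by
    intro f s
    obtain ⟨g, hg1, hg2⟩ := hseq f
    exact U_dens1 (fun l => (cw d l)⁻¹) hw (fun l => U_P l (U_F f)) (fun n l => U_P l (U_F (g n)))
      (fun n => (kap d * 4 ^ (nu d)) * ‖U_S (g n)‖ ^ 2) _ (fun n => e1 _ (hg1 n))
      (((hSt f g hg2).pow 2).const_mul _) (hPt f g hg2) s
  obtain ⟨g, hg1, hg2⟩ := hseq f
  constructor
  · refine U_dens2 (fun l => (cw d l)⁻¹) hw (fun l => U_P l (U_F f))
      (fun n l => U_P l (U_F (g n)))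
      (fun n => (kap d * 4 ^ (nu d)) * ‖U_S (g n)‖ ^ 2) _ (fun n => e1 _ (hg1 n))
      (((hSt f g hg2).pow 2).const_mul _) (hPt f g hg2)
      (fun n => (kap d * 4 ^ (nu d)) * ‖U_S (f - g n)‖ ^ 2) ?_ ?_
    · have := (hg2.pow 2).const_mul ((kap d * 4 ^ (nu d)))
      simpa using this
    · intro n s
      have := b1 (f - g n) s
      simpa only [map_sub] using this
  · have h := U_dens2 (fun _ => 1) (fun _ => zero_le_one) (fun l => U_P l (U_F f))
      (fun n l => U_P l (U_F (g n)))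
      (fun n => ‖U_F (g n)‖ ^ 2) (‖U_F f‖ ^ 2) (fun n => by simpa using e2 _ (hg1 n))
      ((hFt' f g hg2).pow 2) (hPt f g hg2)
      (fun n => ‖U_F (f - g n)‖ ^ 2) ?_ ?_
    · simpa using h
    · have := (hFt f g hg2).pow 2
      simpa using this
    · intro n s
      have := U_bessel (U_F (f - g n)) s
      simpa only [map_sub, one_mul] using this

end Pool.Agent.ConeG
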