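import Pool.Agent.Work.MP_b0b133_an.G.U4

/-!
# The core data on the compactification: density of the exponentials in the energy, pre-core
-/

set_option autoImplicit false
open MeasureTheory Complex Filter
open scoped ENNReal ComplexConjugate Topology

namespace Pool.Agent.ConeG

variable {d : ℕ}

/-! ### inverse of the Cayley transform -/

/-- `1 + 2 β₀ + β²` -/
noncomputable def U_D (β : Fin (d + 1) → ℂ) : ℂ := 1 + 2 * β 0 + ∑ j, β j ^ 2

/-- the inverse of `cayM` -/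
noncomputable def U_inv (β : Fin (d + 1) → ℂ) : Fin (d + 1) → ℂ :=
  Fin.cons (I * (1 - ∑ j, β j ^ 2) / U_D β) fun j => 2 * β j.succ / U_D β

/-- the parameter point -/
noncomputable def U_p (β : Fin (d + 1) → ℂ) : Rs d × Rs d :=
  (((U_inv β 0).re, WithLp.toLp 2 fun j : Fin d => (U_inv β j.succ).re),
    ((U_inv β 0).im, WithLp.toLp 2 fun j : Fin d => (U_inv β j.succ).im))

theorem U_z_p (β : Fin (d + 1) → ℂ) : U_z (U_p β).1 (U_p β).2 = U_inv β := by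
  funext j
  refine Fin.cases ?_ (fun i => ?_) j
  · simp only [U_z, U_p, Fin.cons_zero]
    rw [mul_comm I]
    exact re_add_im _
  · simp only [U_z, U_p, Fin.cons_succ]
    rw [mul_comm I]
    exact re_add_im _

theorem U_WM_inv (β : Fin (d + 1) → ℂ) (h : U_D β ≠ 0) : WM (U_inv β) = 4 / U_D β := by
  have hs : ∑ j : Fin d, β j.succ ^ 2 = (∑ j, β j ^ 2) - β 0 ^ 2 := by
    have := Fin.sum_univ_succ (fun j => β j ^ 2)
    rw [this]; ring
  have h1 : ∑ j : Fin d, U_inv β j.succ ^ 2 = 4 * ((∑ j, β j ^ 2) - β 0 ^ 2) / U_D β ^ 2 := by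
    rw [← hs, Finset.mul_sum, Finset.sum_div]
    refine Finset.sum_congr rfl fun j _ => ?_
    simp only [U_inv, Fin.cons_succ]
    rw [div_pow]; ring
  have h2 : 1 - I * U_inv β 0 = (2 + 2 * β 0) / U_D β := by
    simp only [U_inv, Fin.cons_zero]
    rw [eq_div_iff h, sub_mul, mul_div_assoc', div_mul_cancel₀ _ h, ← mul_assoc, I_mul_I, U_D]
    ring
  unfold WM
  rw [h1, h2, div_pow, ← add_div, eq_div_iff h, div_mul_eq_mul_div,
    div_eq_iff (pow_ne_zero 2 h)]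
  rw [U_D]
  ring

theorem U_cayM_inv (β : Fin (d + 1) → ℂ) (h : U_D β ≠ 0) : cayM (U_inv β) = β := by
  have hW := U_WM_inv β h
  have hs : ∑ j : Fin d, β j.succ ^ 2 = (∑ j, β j ^ 2) - β 0 ^ 2 := by
    have := Fin.sum_univ_succ (fun j => β j ^ 2)
    rw [this]; ring
  have h1 : ∑ j : Fin d, U_inv β j.succ ^ 2 = 4 * ((∑ j, β j ^ 2) - β 0 ^ 2) / U_D β ^ 2 := by
    rw [← hs, Finset.mul_sum, Finset.sum_div]
    refine Finset.sum_congr rfl fun j _ => ?_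
    simp only [U_inv, Fin.cons_succ]
    rw [div_pow]; ring
  funext j
  refine Fin.cases ?_ (fun i => ?_) j
  · simp only [cayM, Fin.cons_zero]
    rw [hW, h1]
    simp only [U_inv, Fin.cons_zero]
    rw [div_pow, mul_pow, I_sq]
    have hD : U_D β = 1 + 2 * β 0 + ∑ j, β j ^ 2 := rfl
    field_simp
    rw [hD]
    ring
  · simp only [cayM, Fin.cons_succ]
    rw [hW]
    simp only [U_inv, Fin.cons_succ]
    field_simp
    ring

theorem U_cont_sq : Continuous fun β : Fin (d + 1) → ℂ => ∑ j, β j ^ 2 :=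
  continuous_finsetSum _ fun j _ => (continuous_apply j).pow 2

theorem U_cont_inv_zero (j : Fin (d + 1)) : ContinuousAt (fun β : Fin (d + 1) → ℂ => U_inv β j) 0 := by
  have hD : ContinuousAt (fun β : Fin (d + 1) → ℂ => U_D β) 0 := by
    unfold U_D
    fun_prop
  have h0 : U_D (0 : Fin (d + 1) → ℂ) ≠ 0 := by simp [U_D]
  refine Fin.cases ?_ (fun i => ?_) j
  · simp only [U_inv, Fin.cons_zero]
    exact ContinuousAt.div
      (continuousAt_const.mul (continuousAt_const.sub U_cont_sq.continuousAt)) hD h0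
  · simp only [U_inv, Fin.cons_succ]
    exact ContinuousAt.div (continuousAt_const.mul (continuous_apply i.succ).continuousAt) hD h0

theorem U_p_zero : U_p (0 : Fin (d + 1) → ℂ) = (0, (1, 0)) := by
  have h0 : U_inv (0 : Fin (d + 1) → ℂ) 0 = I := by simp [U_inv, U_D]
  have h1 : ∀ j : Fin d, U_inv (0 : Fin (d + 1) → ℂ) j.succ = 0 := fun j => by simp [U_inv]
  unfold U_p
  simp only [h0, h1, I_re, I_im, zero_re, zero_im]
  rfl

/-- all small parameters are attained -/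
theorem U_surj (r : ℝ) (hr : 0 < r) : ∃ ρ : ℝ, 0 < ρ ∧ ∀ β : Fin (d + 1) → ℂ, ‖β‖ < ρ →
    ∃ p ∈ Metric.ball ((0, (1, 0)) : Rs d × Rs d) r, U_bet p.1 p.2 = β := by
  have h1 : ∀ᶠ β : Fin (d + 1) → ℂ in 𝓝 0, U_D β ≠ 0 := by
    have hD : ContinuousAt (fun β : Fin (d + 1) → ℂ => U_D β) 0 := by
      unfold U_D
      fun_prop
    exact hD.eventually_ne (by simp [U_D])
  have h2 : ∀ᶠ β : Fin (d + 1) → ℂ in 𝓝 0, U_p β ∈ Metric.ball ((0, (1, 0)) : Rs d × Rs d) r := by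
    have hc : ContinuousAt U_p (0 : Fin (d + 1) → ℂ) := by
      unfold U_p
      refine ContinuousAt.prodMk (ContinuousAt.prodMk ?_ ?_) (ContinuousAt.prodMk ?_ ?_)
      · exact continuous_re.continuousAt.comp (U_cont_inv_zero 0)
      · refine (PiLp.continuous_toLp 2 _).continuousAt.comp ?_
        exact continuousAt_pi.2 fun j => continuous_re.continuousAt.comp (U_cont_inv_zero j.succ)
      · exact continuous_im.continuousAt.comp (U_cont_inv_zero 0)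
      · refine (PiLp.continuous_toLp 2 _).continuousAt.comp ?_
        exact continuousAt_pi.2 fun j => continuous_im.continuousAt.comp (U_cont_inv_zero j.succ)
    refine hc.preimage_mem_nhds ?_
    rw [U_p_zero]
    exact Metric.ball_mem_nhds _ hr
  obtain ⟨ρ, hρ, h⟩ := Metric.eventually_nhds_iff.1 (h1.and h2)
  refine ⟨ρ, hρ, fun β hβ => ?_⟩
  obtain ⟨h3, h4⟩ := h (y := β) (by rwa [dist_zero_right])
  exact ⟨U_p β, h4, by rw [U_bet, U_z_p, U_cayM_inv β h3]⟩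

/-! ### the approximable elements -/

variable [Fact (2 ≤ d)]

local instance : IsProbabilityMeasure (mM d) := mM_prob

/-- `Y` is approximable in the energy by exponentials -/
def U_app (Y : Lp ℂ 2 (mM d)) : Prop :=
  ∀ ε > 0, ∃ f : ExpSpan d, (Summable fun k => (cw d k)⁻¹ * ‖U_P k (U_F f - Y)‖ ^ 2) ∧
    ∑' k, (cw d k)⁻¹ * ‖U_P k (U_F f - Y)‖ ^ 2 < ε

theorem U_wn (l : ℕ) : 0 ≤ (cw d l)⁻¹ := inv_nonneg.2 (U_cw_pos (d := d) l).le

theorem U_en_add (x y : Lp ℂ 2 (mM d)) (hx : Summable fun k => (cw d k)⁻¹ * ‖U_P k x‖ ^ 2)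
    (hy : Summable fun k => (cw d k)⁻¹ * ‖U_P k y‖ ^ 2) :
    (Summable fun k => (cw d k)⁻¹ * ‖U_P k (x + y)‖ ^ 2) ∧
      ∑' k, (cw d k)⁻¹ * ‖U_P k (x + y)‖ ^ 2 ≤
        2 * ∑' k, (cw d k)⁻¹ * ‖U_P k x‖ ^ 2 + 2 * ∑' k, (cw d k)⁻¹ * ‖U_P k y‖ ^ 2 := by
  have h1 : ∀ k, (cw d k)⁻¹ * ‖U_P k (x + y)‖ ^ 2 ≤
      2 * ((cw d k)⁻¹ * ‖U_P k x‖ ^ 2) + 2 * ((cw d k)⁻¹ * ‖U_P k y‖ ^ 2) := by
    intro k
    have e1 : ‖U_P k (x + y)‖ ^ 2 ≤ 2 * ‖U_P k x‖ ^ 2 + 2 * ‖U_P k y‖ ^ 2 := by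
      rw [map_add]
      have e2 := pow_le_pow_left₀ (norm_nonneg _) (norm_add_le (U_P k x) (U_P k y)) 2
      nlinarith [sq_nonneg (‖U_P k x‖ - ‖U_P k y‖)]
    have := mul_le_mul_of_nonneg_left e1 (U_wn (d := d) k)
    linarith
  have hs := (hx.mul_left 2).add (hy.mul_left 2)
  have hs' : Summable fun k => (cw d k)⁻¹ * ‖U_P k (x + y)‖ ^ 2 :=
    Summable.of_nonneg_of_le (fun k => mul_nonneg (U_wn k) (sq_nonneg _)) h1 hs
  refine ⟨hs', ?_⟩
  rw [← tsum_mul_left, ← tsum_mul_left, ← (hx.mul_left 2).tsum_add (hy.mul_left 2)]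
  exact hs'.tsum_le_tsum h1 hs

theorem U_app_limit (Y : Lp ℂ 2 (mM d))
    (h : ∀ ε > 0, ∃ Y', U_app Y' ∧ (Summable fun k => (cw d k)⁻¹ * ‖U_P k (Y' - Y)‖ ^ 2) ∧
      ∑' k, (cw d k)⁻¹ * ‖U_P k (Y' - Y)‖ ^ 2 < ε) : U_app Y := by
  intro ε hε
  obtain ⟨Y', h1, h2, h3⟩ := h (ε / 4) (by positivity)
  obtain ⟨f, h4, h5⟩ := h1 (ε / 4) (by positivity)
  obtain ⟨h6, h7⟩ := U_en_add _ _ h4 h2
  have e : U_F f - Y' + (Y' - Y) = U_F f - Y := by abel
  rw [e] at h6 h7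
  exact ⟨f, h6, by linarith⟩

theorem U_app_F (f : ExpSpan d) : U_app (U_F f) := by
  intro ε hε
  refine ⟨f, ?_, ?_⟩
  · simp [summable_zero]
  · simpa using hε

theorem U_app_add (x y : Lp ℂ 2 (mM d)) (hx : U_app x) (hy : U_app y) : U_app (x + y) := by
  intro ε hε
  obtain ⟨f, h1, h2⟩ := hx (ε / 4) (by positivity)
  obtain ⟨g, h3, h4⟩ := hy (ε / 4) (by positivity)
  obtain ⟨h6, h7⟩ := U_en_add _ _ h1 h3
  have e : U_F f - x + (U_F g - y) = U_F (f + g) - (x + y) := by rw [map_add]; abel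
  rw [e] at h6 h7
  exact ⟨f + g, h6, by linarith⟩

theorem U_app_smul (c : ℂ) (x : Lp ℂ 2 (mM d)) (hx : U_app x) : U_app (c • x) := by
  intro ε hε
  obtain ⟨f, h1, h2⟩ := hx (ε / (‖c‖ ^ 2 + 1)) (by positivity)
  have e : ∀ k, (cw d k)⁻¹ * ‖U_P k (U_F (c • f) - c • x)‖ ^ 2 =
      ‖c‖ ^ 2 * ((cw d k)⁻¹ * ‖U_P k (U_F f - x)‖ ^ 2) := by
    intro k
    rw [map_smul, ← smul_sub, map_smul, norm_smul]
    ring
  refine ⟨c • f, ?_, ?_⟩
  · simp only [e]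
    exact h1.mul_left _
  · simp only [e]
    rw [tsum_mul_left]
    have h3 : 0 ≤ ∑' k, (cw d k)⁻¹ * ‖U_P k (U_F f - x)‖ ^ 2 :=
      tsum_nonneg fun k => mul_nonneg (U_wn k) (sq_nonneg _)
    rw [lt_div_iff₀ (by positivity)] at h2
    nlinarith

/-- the approximable elements -/
noncomputable def U_App : Submodule ℂ (Lp ℂ 2 (mM d)) where
  carrier := {Y | U_app Y}
  add_mem' := fun {x y} hx hy => U_app_add x y hx hy
  zero_mem' := by
    have := U_app_F (0 : ExpSpan d)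
    rwa [map_zero] at this
  smul_mem' := fun c x hx => U_app_smul c x hx

theorem U_norm_sum_le (β : Fin (d + 1) → ℂ) (h : ‖β‖ ≤ 1 / (4 * (d + 1))) :
    ∑ j, ‖β j‖ ^ 2 ≤ 1 / 16 := by
  have h1 : ∀ j, ‖β j‖ ^ 2 ≤ (1 / (4 * ((d : ℝ) + 1))) ^ 2 := fun j =>
    pow_le_pow_left₀ (norm_nonneg _) ((norm_le_pi_norm β j).trans h) 2
  have hd : (0 : ℝ) ≤ d := Nat.cast_nonneg d
  calc ∑ j, ‖β j‖ ^ 2 ≤ ∑ _j : Fin (d + 1), ((1 : ℝ) / (4 * ((d : ℝ) + 1))) ^ 2 :=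
        Finset.sum_le_sum fun j _ => h1 j
    _ = 1 / 16 * (1 / ((d : ℝ) + 1)) := by
        rw [Finset.sum_const, Finset.card_univ, Fintype.card_fin, nsmul_eq_mul]
        push_cast
        field_simp
        norm_num
    _ ≤ 1 / 16 * 1 := by
        refine mul_le_mul_of_nonneg_left ?_ (by norm_num)
        rw [div_le_one (by linarith)]
        linarith
    _ = 1 / 16 := mul_one _

/-- zonal harmonics with small parameter are approximable -/
theorem U_Z_app : ∃ ρ : ℝ, 0 < ρ ∧ ∀ β : Fin (d + 1) → ℂ, ‖β‖ < ρ → ∀ l, U_Z l β ∈ U_App := by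
  obtain ⟨r, hr, hF, hn, hpair⟩ := U_exists_near (d := d)
  obtain ⟨ρ', hρ', hsurj⟩ := U_surj r hr
  refine ⟨min ρ' (1 / (4 * (d + 1))), by positivity, fun β hβ => ?_⟩
  have hβ1 : ‖β‖ < ρ' := hβ.trans_le (min_le_left _ _)
  have hβ2 : ‖β‖ ≤ 1 / (4 * (d + 1)) := (hβ.trans_le (min_le_right _ _)).le
  have hβs := U_norm_sum_le β hβ2
  -- the kernels with parameter `s β`
  have hker : ∀ s : ℝ, 0 < s → s ≤ 1 → ∃ K ∈ U_App, HasSum (fun k => (s : ℂ) ^ k • U_Z k β) K := by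
    intro s hs0 hs1
    have hsβ : ‖(s : ℂ) • β‖ < ρ' := by
      rw [norm_smul, Complex.norm_real, Real.norm_of_nonneg hs0.le]
      exact (mul_le_of_le_one_left (norm_nonneg _) hs1).trans_lt hβ1
    obtain ⟨p, hp, hpβ⟩ := hsurj _ hsβ
    set f : ExpSpan d := ⟨expo p.1 p.2, U_expo_mem _ _ (hF p hp)⟩ with hf
    have h1 := hn p hp f rfl
    rw [hpβ] at h1
    refine ⟨(U_kap p.1 p.2)⁻¹ • U_F f, U_App.smul_mem _ (U_app_F f), ?_⟩
    have h2 := h1.hsum.const_smul (U_kap p.1 p.2)⁻¹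
    refine h2.congr_fun fun k => ?_
    rw [smul_smul, inv_mul_cancel₀ h1.hκ, one_smul, U_Z, U_Z, zon_smul, map_smul]
  intro l
  induction l using Nat.strong_induction_on with
  | _ l ih =>
    refine U_app_limit _ fun ε hε => ?_
    -- choose `s`
    set M : ℝ := ∑' k, (cw d k)⁻¹ * ‖U_Z k β‖ ^ 2 with hM
    have hM0 : 0 ≤ M := tsum_nonneg fun k => mul_nonneg (U_wn k) (sq_nonneg _)
    set s : ℝ := min 1 (ε / (2 * (M + 1))) with hs
    have hs0 : 0 < s := by rw [hs]; positivity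
    have hs1 : s ≤ 1 := min_le_left _ _
    obtain ⟨K, hK, hKs⟩ := hker s hs0 hs1
    have hsc : (s : ℂ) ≠ 0 := by exact_mod_cast hs0.ne'
    set Y' : Lp ℂ 2 (mM d) := ((s : ℂ) ^ l)⁻¹ • (K - ∑ k ∈ Finset.range l, (s : ℂ) ^ k • U_Z k β)
      with hY'
    have hY'm : Y' ∈ U_App := by
      refine U_App.smul_mem _ (U_App.sub_mem hK (U_App.sum_mem fun k hk => ?_))
      exact U_App.smul_mem _ (ih k (Finset.mem_range.1 hk))
    have hPK : ∀ k, U_P k K = (s : ℂ) ^ k • U_Z k β := by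
      intro k
      have h1 : HasSum (fun i => U_P k ((s : ℂ) ^ i • U_Z i β)) (U_P k K) := (U_P k).hasSum hKs
      have h2 : HasSum (fun i => U_P k ((s : ℂ) ^ i • U_Z i β)) (U_P k ((s : ℂ) ^ k • U_Z k β)) :=
        hasSum_single k fun i hi =>
          U_P_other k i (Ne.symm hi) _ ((U_V i).smul_mem _ (U_Z_mem i β))
      rw [h1.unique h2]
      exact U_P_same k _ ((U_V k).smul_mem _ (U_Z_mem k β))
    have hPs : ∀ k, U_P k (∑ i ∈ Finset.range l, (s : ℂ) ^ i • U_Z i β) =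
        if k < l then (s : ℂ) ^ k • U_Z k β else 0 := by
      intro k
      rw [map_sum]
      split_ifs with hk
      · rw [Finset.sum_eq_single k]
        · exact U_P_same k _ ((U_V k).smul_mem _ (U_Z_mem k β))
        · intro i _ hi
          exact U_P_other k i (Ne.symm hi) _ ((U_V i).smul_mem _ (U_Z_mem i β))
        · intro h
          exact absurd (Finset.mem_range.2 hk) h
      · refine Finset.sum_eq_zero fun i hi => ?_
        have : i ≠ k := by have := Finset.mem_range.1 hi; omega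
        exact U_P_other k i (Ne.symm this) _ ((U_V i).smul_mem _ (U_Z_mem i β))
    have hle : ∀ k, (cw d k)⁻¹ * ‖U_P k (Y' - U_Z l β)‖ ^ 2 ≤ s * ((cw d k)⁻¹ * ‖U_Z k β‖ ^ 2) := by
      intro k
      have hnn : 0 ≤ s * ((cw d k)⁻¹ * ‖U_Z k β‖ ^ 2) :=
        mul_nonneg hs0.le (mul_nonneg (U_wn k) (sq_nonneg _))
      rcases lt_trichotomy k l with hk | hk | hk
      · have e : U_P k (Y' - U_Z l β) = 0 := by
          rw [hY', map_sub, map_smul, map_sub, hPK, hPs, if_pos hk, sub_self, smul_zero,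
            U_P_other k l hk.ne _ (U_Z_mem l β), sub_zero]
        rw [e]
        simpa using hnn
      · subst hk
        have e : U_P k (Y' - U_Z k β) = 0 := by
          rw [hY', map_sub, map_smul, map_sub, hPK, hPs, if_neg (lt_irrefl k), sub_zero, smul_smul,
            inv_mul_cancel₀ (pow_ne_zero k hsc), one_smul, U_P_same k _ (U_Z_mem k β), sub_self]
        rw [e]
        simpa using hnn
      · have e : U_P k (Y' - U_Z l β) = (s : ℂ) ^ (k - l) • U_Z k β := by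
          rw [hY', map_sub, map_smul, map_sub, hPK, hPs, if_neg (by omega), sub_zero, smul_smul,
            U_P_other k l hk.ne' _ (U_Z_mem l β), sub_zero]
          congr 1
          rw [inv_mul_eq_div, div_eq_iff (pow_ne_zero l hsc), ← pow_add]
          congr 1
          omega
        rw [e, norm_smul, norm_pow, Complex.norm_real, Real.norm_of_nonneg hs0.le, mul_pow,
          ← pow_mul]
        have h1 : s ^ ((k - l) * 2) ≤ s := by
          calc s ^ ((k - l) * 2) ≤ s ^ 1 := pow_le_pow_of_le_one hs0.le hs1 (by omega)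
            _ = s := pow_one s
        have h2 : 0 ≤ (cw d k)⁻¹ * ‖U_Z k β‖ ^ 2 := mul_nonneg (U_wn k) (sq_nonneg _)
        calc (cw d k)⁻¹ * (s ^ ((k - l) * 2) * ‖U_Z k β‖ ^ 2)
            = s ^ ((k - l) * 2) * ((cw d k)⁻¹ * ‖U_Z k β‖ ^ 2) := by ring
          _ ≤ _ := mul_le_mul_of_nonneg_right h1 h2
    have hsum := (U_Z_summable β hβs).mul_left s
    have hsum' : Summable fun k => (cw d k)⁻¹ * ‖U_P k (Y' - U_Z l β)‖ ^ 2 :=
      Summable.of_nonneg_of_le (fun k => mul_nonneg (U_wn k) (sq_nonneg _)) hle hsum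
    refine ⟨Y', hY'm, hsum', ?_⟩
    calc ∑' k, (cw d k)⁻¹ * ‖U_P k (Y' - U_Z l β)‖ ^ 2 ≤ ∑' k, s * ((cw d k)⁻¹ * ‖U_Z k β‖ ^ 2) :=
          hsum'.tsum_le_tsum hle hsum
      _ = s * M := tsum_mul_left
      _ ≤ ε / (2 * (M + 1)) * M := mul_le_mul_of_nonneg_right (min_le_right _ _) hM0
      _ < ε := by
          rw [div_mul_eq_mul_div, div_lt_iff₀ (by positivity)]
          nlinarith

/-- every harmonic is approximable -/
theorem U_V_app (l : ℕ) (Y : Lp ℂ 2 (mM d)) (hY : Y ∈ U_V l) : Y ∈ U_App := by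
  obtain ⟨ρ, hρ, hZ⟩ := U_Z_app (d := d)
  set W : Submodule ℂ (Lp ℂ 2 (mM d)) := Submodule.span ℂ {Y | ∃ β : Fin (d + 1) → ℂ, ‖β‖ < ρ ∧ Y = U_Z l β}
    with hW
  have hWA : W ≤ U_App := by
    rw [hW, Submodule.span_le]
    rintro _ ⟨β, hβ, rfl⟩
    exact hZ β hβ l
  have hWV : W ≤ U_V l := by
    rw [hW, Submodule.span_le]
    rintro _ ⟨β, hβ, rfl⟩
    exact U_Z_mem l β
  have : FiniteDimensional ℂ W := Submodule.finiteDimensional_of_le hWV
  set D : Lp ℂ 2 (mM d) := Y - W.starProjection Y with hD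
  have hDV : D ∈ U_V l := (U_V l).sub_mem hY (hWV (Submodule.starProjection_apply_mem _ _))
  have hDo : D ∈ Wᗮ := Submodule.sub_starProjection_mem_orthogonal _
  obtain ⟨P, hP, hPD⟩ := hDV
  have hev : ∀ β : Fin (d + 1) → ℂ, ‖β‖ < ρ → MvPolynomial.eval (fun j => conj (β j)) P = 0 := by
    intro β hβ
    have h1 := (Submodule.mem_orthogonal _ _).1 hDo (U_Z l β) (Submodule.subset_span ⟨β, hβ, rfl⟩)
    rw [← hPD, U_Z_inner_ev l β P hP] at h1
    have hc : (cw d l : ℂ) ≠ 0 := by exact_mod_cast (U_cw_pos (d := d) l).ne'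
    exact (mul_eq_zero.1 h1).resolve_left hc
  have hP0 : P = 0 := by
    refine MvPolynomial.funext fun x => ?_
    rw [map_zero]
    -- scale
    obtain ⟨t, ht0, ht⟩ : ∃ t : ℝ, 0 < t ∧ ‖(t : ℂ) • x‖ < ρ := by
      refine ⟨ρ / (2 * (‖x‖ + 1)), by positivity, ?_⟩
      rw [norm_smul, Complex.norm_real, Real.norm_of_nonneg (by positivity), div_mul_eq_mul_div,
        div_lt_iff₀ (by positivity)]
      nlinarith [norm_nonneg x]
    have h1 := hev (fun j => conj ((t : ℂ) * x j)) (by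
      refine lt_of_le_of_lt ?_ ht
      refine (pi_norm_le_iff_of_nonneg (norm_nonneg _)).2 fun j => ?_
      rw [RCLike.norm_conj]
      exact norm_le_pi_norm ((t : ℂ) • x) j)
    simp only [Complex.conj_conj] at h1
    have h2 : MvPolynomial.eval (fun j => (t : ℂ) * x j) P = (t : ℂ) ^ l * MvPolynomial.eval x P := by
      rw [MvPolynomial.eval_eq, MvPolynomial.eval_eq, Finset.mul_sum]
      refine Finset.sum_congr rfl fun d hd => ?_
      have hd' : ∑ i, d i = l := by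
        have := hP.1 (MvPolynomial.mem_support_iff.1 hd)
        rw [Finsupp.weight_apply, Finsupp.sum_fintype _ _ (fun i => by simp)] at this
        simpa using this
      have hd'' : ∑ i ∈ d.support, d i = l := by
        rw [← hd']
        exact Finset.sum_subset (Finset.subset_univ _) (by simp)
      simp only [mul_pow]
      rw [Finset.prod_mul_distrib, Finset.prod_pow_eq_pow_sum, hd'']
      ring
    rw [h2] at h1
    exact (mul_eq_zero.1 h1).resolve_left (pow_ne_zero l (by exact_mod_cast ht0.ne'))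
  have hD0 : D = 0 := by rw [← hPD, hP0, map_zero]
  have : Y = W.starProjection Y := sub_eq_zero.1 hD0
  rw [this]
  exact hWA (Submodule.starProjection_apply_mem _ _)

theorem exists_preCore : ∃ (_ : IsProbabilityMeasure (mM d)) (V : ℕ → Submodule ℂ (Lp ℂ 2 (mM d)))
    (P : ℕ → (Lp ℂ 2 (mM d) →L[ℂ] Lp ℂ 2 (mM d))) (A : Submodule ℂ (Lp ℂ 2 (mM d))) (one : Lp ℂ 2 (mM d)),
    (∀ l F, P l F ∈ V l) ∧ (∀ l F, ∀ Y ∈ V l, inner ℂ Y (P l F) = inner ℂ Y F) ∧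
    (∀ l k, l ≠ k → ∀ Y ∈ V l, ∀ Z ∈ V k, inner ℂ Y Z = 0) ∧
    (∀ᵐ x ∂(mM d), one x = 1) ∧ (V 0 = Submodule.span ℂ {one}) ∧
    (∀ l, ∀ Y ∈ V l, ∃ M : Fin (d + 1) → Lp ℂ 2 (mM d), (∀ j, M j ∈ V (l + 1)) ∧
      (∀ᵐ x ∂(mM d), ∑ j, conj (X j x) * M j x = ((l + (d - 1)) / (2 * l + (d - 1)) : ℝ) * Y x) ∧
      ∑ j, ‖M j‖ ^ 2 = (l + (d - 1)) / (2 * l + (d - 1)) * ‖Y‖ ^ 2) ∧
    (∀ l, ∀ Y ∈ V (l + 1), ∃ M : Fin (d + 1) → Lp ℂ 2 (mM d), (∀ j, M j ∈ V l) ∧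
      (∀ᵐ x ∂(mM d), ∑ j, X j x * M j x = ((l + 1) / (2 * l + (d + 1)) : ℝ) * Y x) ∧
      ∑ j, ‖M j‖ ^ 2 = (l + 1) / (2 * l + (d + 1)) * ‖Y‖ ^ 2) ∧
    (∀ l k, 0 < l → ∀ Y ∈ V l, ∀ Z ∈ V k, ∫ x, Y x * Z x ∂(mM d) = 0) ∧
    one ∈ A ∧
    (∀ F ∈ A, Summable fun l => (cw d l)⁻¹ * ‖P l F‖ ^ 2) ∧
    (∀ F ∈ A, HasSum (fun l => ‖P l F‖ ^ 2) (‖F‖ ^ 2)) ∧
    (∀ l, ∀ Y ∈ V l, ∀ ε > 0, ∃ F ∈ A, ∑' k, (cw d k)⁻¹ * ‖P k (F - Y)‖ ^ 2 < ε) ∧
    (∀ F : Lp ℂ 2 (mM d), F ∈ A ↔ ∃ f ∈ ExpSpan d, F =ᵐ[mM d] toM (coneExt f)) ∧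
    (∀ F : Lp ℂ 2 (mM d), ∀ f ∈ ExpSpan d, F =ᵐ[mM d] toM (coneExt f) →
      ∑' l, (cw d l)⁻¹ * ‖P l F‖ ^ 2 = (kap d * 4 ^ (nu d)) * ∫ ξ, ‖f ξ‖ ^ 2 ∂(sig d)) := by
  have hA : ∀ F : Lp ℂ 2 (mM d), ∀ f (hf : f ∈ ExpSpan d), F =ᵐ[mM d] toM (coneExt f) →
      F = U_F ⟨f, hf⟩ := by
    intro F f hf h
    refine Lp.ext ?_
    filter_upwards [h, U_F_coe ⟨f, hf⟩] with a h1 h2
    rw [h1, h2]
  refine ⟨mM_prob, U_V, U_P, LinearMap.range U_F, U_one, U_P_mem, U_P_inner,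
    fun l k hlk Y hY Z hZ => U_orth l k hlk Y Z hY hZ, U_one_ae,
    U_V0, U_up, U_dn, ?_, ?_, ?_, ?_, ?_, ?_, ?_⟩
  · intro l k hl Y hY Z hZ
    exact U_bil l k hl Y Z hY hZ
  · -- `one ∈ A`
    have he : ((1, 0) : Rs d) ∈ Fwd := by simp [Fwd]
    have hpi : (kap d : ℂ) ≠ 0 := by exact_mod_cast (kap_pos d).ne'
    refine ⟨(kap d : ℂ)⁻¹ • ⟨expo 0 (1, 0), U_expo_mem _ _ he⟩, ?_⟩
    refine Lp.ext ?_
    rw [map_smul]
    filter_upwards [Lp.coeFn_smul (kap d : ℂ)⁻¹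
      (U_F ⟨expo 0 (1, 0), U_expo_mem _ _ he⟩),
      U_F_coe ⟨expo 0 (1, 0), U_expo_mem _ _ he⟩, U_one_ae] with a h1 h2 h3
    rw [h1, Pi.smul_apply, h2, h3]
    simp only [toM, smul_eq_mul]
    rw [coneExt_expo 0 (1, 0) he, sub_zero]
    have h4 : qf a (1, 0) = w a := rfl
    have h5 : w a ^ (nu d : ℂ) * w a ^ (-(nu d : ℂ)) = 1 := by
      rw [← Complex.cpow_add _ _ (U_w_ne a), add_neg_cancel, Complex.cpow_zero]
    rw [h4]
    calc (kap d : ℂ)⁻¹ * (w a ^ (nu d : ℂ) * ((kap d : ℂ) *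
          w a ^ (-(nu d : ℂ)))) = (kap d : ℂ)⁻¹ * (kap d : ℂ) *
          (w a ^ (nu d : ℂ) * w a ^ (-(nu d : ℂ))) := by ring
      _ = 1 := by rw [h5, inv_mul_cancel₀ hpi, one_mul]
  · rintro _ ⟨f, rfl⟩
    exact (U_energy f).1.summable
  · rintro _ ⟨f, rfl⟩
    exact (U_energy f).2
  · intro l Y hY ε hε
    obtain ⟨f, h1, h2⟩ := U_V_app l Y hY ε hε
    exact ⟨U_F f, ⟨f, rfl⟩, h2⟩
  · intro F
    constructor
    · rintro ⟨f, rfl⟩
      exact ⟨f.1, f.2, U_F_coe f⟩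
    · rintro ⟨f, hf, h⟩
      exact ⟨⟨f, hf⟩, (hA F f hf h).symm⟩
  · intro F f hf h
    rw [hA F f hf h, (U_energy ⟨f, hf⟩).1.tsum_eq, U_S_norm]

end Pool.Agent.ConeG
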