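import Pool.Agent.Work.MP_b0b133_an.G.C0
import Pool.Agent.Work.MP_b0b133_an.G.D

/-!
# Exponentials and kernels
-/

set_option autoImplicit false
open MeasureTheory Complex Filter
open scoped ENNReal ComplexConjugate Topology

namespace Pool.Agent.ConeG

variable {d : ℕ}

theorem U_key0 (y A : ℂ) : (1 + y ^ 2 - A) ^ 2 + 4 * A =
    ((1 + I * y) ^ 2 + A) * ((1 - I * y) ^ 2 + A) := by
  linear_combination (y ^ 2 * (2 - I ^ 2 * y ^ 2 + y ^ 2) - 2 * A * y ^ 2) * I_sq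

theorem U_key1 (y z A Z D P Q : ℂ) (h1 : P ≠ 0) (h2 : Q ≠ 0)
    (hP : P = (1 + I * y) ^ 2 + A) (hQ : Q = (1 - I * z) ^ 2 + Z) :
    A + Z - 2 * D - (y - z) ^ 2 = 1 / 4 * P * Q *
      (1 - 2 * ((1 + y ^ 2 - A) / P * ((1 + z ^ 2 - Z) / Q) + 4 * D / (P * Q)) +
      (((1 + y ^ 2 - A) / P) ^ 2 + 4 * A / P ^ 2) *
      (((1 + z ^ 2 - Z) / Q) ^ 2 + 4 * Z / Q ^ 2)) := by
  have e1 : ((1 + y ^ 2 - A) / P) ^ 2 + 4 * A / P ^ 2 = ((1 - I * y) ^ 2 + A) / P := by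
    rw [div_pow, ← add_div, U_key0, ← hP]
    field_simp
  have e2 : ((1 + z ^ 2 - Z) / Q) ^ 2 + 4 * Z / Q ^ 2 = ((1 + I * z) ^ 2 + Z) / Q := by
    rw [div_pow, ← add_div, U_key0, ← hQ]
    field_simp
  rw [e1, e2]
  have e3 : 1 / 4 * P * Q *
      (1 - 2 * ((1 + y ^ 2 - A) / P * ((1 + z ^ 2 - Z) / Q) + 4 * D / (P * Q)) +
      ((1 - I * y) ^ 2 + A) / P * (((1 + I * z) ^ 2 + Z) / Q)) =
      1 / 4 * (P * Q - 2 * ((1 + y ^ 2 - A) * (1 + z ^ 2 - Z) + 4 * D) +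
      ((1 - I * y) ^ 2 + A) * ((1 + I * z) ^ 2 + Z)) := by
    field_simp
  rw [e3, hP, hQ]
  ring_nf
  have i4 : I ^ 4 = 1 := I_pow_four
  simp only [i4, I_sq]
  ring

/-- `(1 + i y₀)² + ∑ y_j²` -/
noncomputable def WP (y : Fin (d + 1) → ℂ) : ℂ := (1 + I * y 0) ^ 2 + ∑ j : Fin d, y j.succ ^ 2

/-- `(1 - i z₀)² + ∑ z_j²` -/
noncomputable def WM (z : Fin (d + 1) → ℂ) : ℂ := (1 - I * z 0) ^ 2 + ∑ j : Fin d, z j.succ ^ 2

/-- the Cayley transform -/
noncomputable def cayP (y : Fin (d + 1) → ℂ) : Fin (d + 1) → ℂ :=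
  Fin.cons ((1 + y 0 ^ 2 - ∑ j : Fin d, y j.succ ^ 2) / WP y) fun j => 2 * y j.succ / WP y

/-- the conjugate Cayley transform -/
noncomputable def cayM (z : Fin (d + 1) → ℂ) : Fin (d + 1) → ℂ :=
  Fin.cons ((1 + z 0 ^ 2 - ∑ j : Fin d, z j.succ ^ 2) / WM z) fun j => 2 * z j.succ / WM z

theorem U_cay (y z : Fin (d + 1) → ℂ) (hy : WP y ≠ 0) (hz : WM z ≠ 0) :
    ∑ j : Fin d, (y j.succ - z j.succ) ^ 2 - (y 0 - z 0) ^ 2 = 1 / 4 * WP y * WM z *
      (1 - 2 * ∑ j, cayP y j * cayM z j + (∑ j, cayP y j ^ 2) * ∑ j, cayM z j ^ 2) := by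
  have h := U_key1 (y 0) (z 0) (∑ j : Fin d, y j.succ ^ 2) (∑ j : Fin d, z j.succ ^ 2)
    (∑ j : Fin d, y j.succ * z j.succ) (WP y) (WM z) hy hz rfl rfl
  have e1 : ∑ j : Fin d, (y j.succ - z j.succ) ^ 2 = ∑ j : Fin d, y j.succ ^ 2 +
      ∑ j : Fin d, z j.succ ^ 2 - 2 * ∑ j : Fin d, y j.succ * z j.succ := by
    rw [Finset.mul_sum, ← Finset.sum_add_distrib, ← Finset.sum_sub_distrib]
    exact Finset.sum_congr rfl fun j _ => by ring
  have e2 : ∑ j, cayP y j * cayM z j = (1 + y 0 ^ 2 - ∑ j : Fin d, y j.succ ^ 2) / WP y *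
      ((1 + z 0 ^ 2 - ∑ j : Fin d, z j.succ ^ 2) / WM z) +
      4 * (∑ j : Fin d, y j.succ * z j.succ) / (WP y * WM z) := by
    rw [Fin.sum_univ_succ, Finset.mul_sum, Finset.sum_div]
    simp only [cayP, cayM, Fin.cons_zero, Fin.cons_succ]
    congr 1
    exact Finset.sum_congr rfl fun j _ => by field_simp; ring
  have e3 : ∑ j, cayP y j ^ 2 = ((1 + y 0 ^ 2 - ∑ j : Fin d, y j.succ ^ 2) / WP y) ^ 2 +
      4 * (∑ j : Fin d, y j.succ ^ 2) / WP y ^ 2 := by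
    rw [Fin.sum_univ_succ, Finset.mul_sum, Finset.sum_div]
    simp only [cayP, Fin.cons_zero, Fin.cons_succ]
    congr 1
    exact Finset.sum_congr rfl fun j _ => by field_simp; ring
  have e4 : ∑ j, cayM z j ^ 2 = ((1 + z 0 ^ 2 - ∑ j : Fin d, z j.succ ^ 2) / WM z) ^ 2 +
      4 * (∑ j : Fin d, z j.succ ^ 2) / WM z ^ 2 := by
    rw [Fin.sum_univ_succ, Finset.mul_sum, Finset.sum_div]
    simp only [cayM, Fin.cons_zero, Fin.cons_succ]
    congr 1
    exact Finset.sum_congr rfl fun j _ => by field_simp; ring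
  rw [e1, e2, e3, e4, ← h]

/-- real points -/
noncomputable def U_r (a : Rs d) : Fin (d + 1) → ℂ := Fin.cons (a.1 : ℂ) fun j => (a.2 j : ℂ)

/-- the complex point `c + i v` -/
noncomputable def U_z (c v : Rs d) : Fin (d + 1) → ℂ :=
  Fin.cons ((c.1 : ℂ) + I * v.1) fun j => (c.2 j : ℂ) + I * v.2 j

theorem U_inner4 (x y : Rd d) : (inner ℝ x y : ℝ) = ∑ j, x j * y j := by
  simp [PiLp.inner_apply, mul_comm]

theorem U_norm4 (x : Rd d) : ‖x‖ ^ 2 = ∑ j, x j ^ 2 := by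
  rw [EuclideanSpace.norm_sq_eq]
  exact Finset.sum_congr rfl fun j _ => by rw [Real.norm_eq_abs, sq_abs]

theorem U_qf (u v : Rs d) : qf u v = ∑ j : Fin d, ((u.2 j : ℂ) - I * v.2 j) ^ 2 -
    ((u.1 : ℂ) - I * v.1) ^ 2 := by
  unfold qf
  rw [U_inner4, U_norm4, U_norm4]
  have e : ∑ j : Fin d, ((u.2 j : ℂ) - I * v.2 j) ^ 2 = ∑ j : Fin d, (u.2 j : ℂ) ^ 2 -
      ∑ j : Fin d, (v.2 j : ℂ) ^ 2 - 2 * I * ∑ j : Fin d, (u.2 j : ℂ) * v.2 j := by
    rw [Finset.mul_sum, ← Finset.sum_sub_distrib, ← Finset.sum_sub_distrib]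
    refine Finset.sum_congr rfl fun j _ => ?_
    linear_combination ((v.2 j : ℂ)) ^ 2 * I_sq
  rw [e]
  push_cast
  linear_combination ((v.1 : ℂ) ^ 2) * I_sq

theorem U_w (a : Rs d) : w a = WP (U_r a) := by
  unfold w WP U_r
  rw [U_qf]
  simp only [Fin.cons_zero, Fin.cons_succ, PiLp.zero_apply, ofReal_zero, mul_zero, sub_zero,
    ofReal_one, mul_one]
  ring_nf
  simp only [I_sq]
  ring

theorem U_X (a : Rs d) (j : Fin (d + 1)) : X j a = cayP (U_r a) j := by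
  have h := U_w a
  refine Fin.cases ?_ (fun i => ?_) j
  · simp only [X, cayP, U_r, Fin.cases_zero, Fin.cons_zero, Fin.cons_succ] at h ⊢
    rw [h, U_norm4]
    push_cast
    congr 1
    ring
  · simp only [X, cayP, U_r, Fin.cases_succ, Fin.cons_zero, Fin.cons_succ] at h ⊢
    rw [h]

theorem U_qf_z (a c v : Rs d) : qf (a - c) v =
    ∑ j : Fin d, (U_r a j.succ - U_z c v j.succ) ^ 2 - (U_r a 0 - U_z c v 0) ^ 2 := by
  rw [U_qf]
  simp only [U_r, U_z, Fin.cons_zero, Fin.cons_succ, Prod.fst_sub, Prod.snd_sub, PiLp.sub_apply]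
  push_cast
  congr 1
  · exact Finset.sum_congr rfl fun j _ => by ring
  · ring

theorem U_qf_zz (c v c' v' : Rs d) : qf (c' - c) (v + v') =
    ∑ j : Fin d, (conj (U_z c' v' j.succ) - U_z c v j.succ) ^ 2 -
      (conj (U_z c' v' 0) - U_z c v 0) ^ 2 := by
  rw [U_qf]
  simp only [U_z, Fin.cons_zero, Fin.cons_succ, Prod.fst_sub, Prod.snd_sub, PiLp.sub_apply,
    Prod.fst_add, Prod.snd_add, PiLp.add_apply, map_add, map_mul, conj_ofReal, conj_I]
  push_cast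
  congr 1
  · exact Finset.sum_congr rfl fun j _ => by ring
  · ring

theorem U_conj_WM (z : Fin (d + 1) → ℂ) : conj (WM z) = WP (fun j => conj (z j)) := by
  simp [WM, WP]

theorem U_conj_cayM (z : Fin (d + 1) → ℂ) (j : Fin (d + 1)) :
    conj (cayM z j) = cayP (fun j => conj (z j)) j := by
  refine Fin.cases ?_ (fun i => ?_) j
  · simp [cayM, cayP, ← U_conj_WM]
  · simp [cayM, cayP, ← U_conj_WM, Complex.conj_ofNat]

theorem U_sum_mul_le (x β : Fin (d + 1) → ℂ) (hx : ∑ j, ‖x j‖ ^ 2 ≤ 1) (hβ : ∑ j, ‖β j‖ ^ 2 ≤ 1 / 16) :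
    ‖∑ j, x j * β j‖ ≤ 1 / 4 := by
  have h1 : ‖∑ j, x j * β j‖ ≤ ∑ j, ‖x j‖ * ‖β j‖ :=
    (norm_sum_le _ _).trans (Finset.sum_le_sum fun j _ => (norm_mul _ _).le)
  have h2 := Finset.sum_mul_sq_le_sq_mul_sq Finset.univ (fun j => ‖x j‖) (fun j => ‖β j‖)
  have h3 : (∑ j, ‖x j‖ ^ 2) * ∑ j, ‖β j‖ ^ 2 ≤ 1 * (1 / 16) :=
    mul_le_mul hx hβ (Finset.sum_nonneg fun _ _ => sq_nonneg _) zero_le_one
  have h4 : (∑ j, ‖x j‖ * ‖β j‖) ^ 2 ≤ (1 / 4) ^ 2 := by linarith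
  exact h1.trans (le_of_sq_le_sq h4 (by norm_num))

theorem U_sum_sq_le (x : Fin (d + 1) → ℂ) : ‖∑ j, x j ^ 2‖ ≤ ∑ j, ‖x j‖ ^ 2 :=
  (norm_sum_le _ _).trans (Finset.sum_le_sum fun _ _ => (norm_pow _ _).le)

theorem U_ker_slit (x β : Fin (d + 1) → ℂ) (hx : ∑ j, ‖x j‖ ^ 2 ≤ 1) (hβ : ∑ j, ‖β j‖ ^ 2 ≤ 1 / 16) :
    1 - 2 * ∑ j, x j * β j + (∑ j, x j ^ 2) * ∑ j, β j ^ 2 ∈ slitPlane := by
  left
  have h1 := U_sum_mul_le x β hx hβ
  have h2 : ‖(∑ j, x j ^ 2) * ∑ j, β j ^ 2‖ ≤ 1 * (1 / 16) := by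
    rw [norm_mul]
    exact mul_le_mul ((U_sum_sq_le x).trans hx) ((U_sum_sq_le β).trans hβ) (norm_nonneg _)
      zero_le_one
  have h3 := (abs_le.1 ((abs_re_le_norm _).trans h1)).2
  have h4 := (abs_le.1 ((abs_re_le_norm _).trans h2)).1
  have h5 : (1 - 2 * ∑ j, x j * β j + (∑ j, x j ^ 2) * ∑ j, β j ^ 2).re =
      1 - 2 * (∑ j, x j * β j).re + ((∑ j, x j ^ 2) * ∑ j, β j ^ 2).re := by
    rw [add_re, sub_re, one_re, mul_re 2, re_ofNat, im_ofNat]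
    ring
  rw [h5]
  linarith

theorem U_cont_z : Continuous fun p : Rs d × Rs d => U_z p.1 p.2 := by
  refine continuous_pi fun j => ?_
  refine Fin.cases ?_ (fun i => ?_) j
  · simp only [U_z, Fin.cons_zero]
    fun_prop
  · simp only [U_z, Fin.cons_succ]
    fun_prop

theorem U_cont_WM : Continuous (WM : (Fin (d + 1) → ℂ) → ℂ) := by
  unfold WM
  fun_prop

theorem U_cont_cayM (j : Fin (d + 1)) {z : Fin (d + 1) → ℂ} (hz : WM z ≠ 0) :
    ContinuousAt (fun z => cayM z j) z := by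
  have h := U_cont_WM.continuousAt (x := z)
  refine Fin.cases ?_ (fun i => ?_) j
  · simp only [cayM, Fin.cons_zero]
    exact ContinuousAt.div (by fun_prop) h hz
  · simp only [cayM, Fin.cons_succ]
    exact ContinuousAt.div (continuousAt_const.mul (continuous_apply i.succ).continuousAt) h hz

theorem U_z_base : U_z (0 : Rs d) (1, 0) = (Fin.cons I fun _ => 0 : Fin (d + 1) → ℂ) := by
  ext j
  refine Fin.cases ?_ (fun i => ?_) j <;> simp [U_z]

theorem U_WM_base : WM (U_z (0 : Rs d) (1, 0)) = 4 := by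
  rw [U_z_base]
  simp only [WM, Fin.cons_zero, Fin.cons_succ, I_mul_I]
  norm_num

theorem U_cayM_base (j : Fin (d + 1)) : cayM (U_z 0 (1, 0)) j = 0 := by
  rw [U_z_base]
  refine Fin.cases ?_ (fun i => ?_) j
  · simp [cayM]
  · simp [cayM]

theorem U_isOpen_Fwd : IsOpen (Fwd : Set (Rs d)) := isOpen_lt (by fun_prop) (by fun_prop)

/-- good parameters -/
theorem U_good : ∃ r : ℝ, 0 < r ∧ ∀ p ∈ Metric.ball ((0, (1, 0)) : Rs d × Rs d) r,
    p.2 ∈ Fwd ∧ WM (U_z p.1 p.2) ∈ slitPlane ∧ ∑ j, ‖cayM (U_z p.1 p.2) j‖ ^ 2 ≤ 1 / 16 := by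
  have h1 : ∀ᶠ p : Rs d × Rs d in 𝓝 (0, (1, 0)), p.2 ∈ Fwd :=
    (U_isOpen_Fwd.preimage continuous_snd).mem_nhds (by simp [Fwd])
  have h2 : ∀ᶠ p : Rs d × Rs d in 𝓝 (0, (1, 0)), WM (U_z p.1 p.2) ∈ slitPlane :=
    (isOpen_slitPlane.preimage (U_cont_WM.comp U_cont_z)).mem_nhds (by
      simp only [Set.mem_preimage, Function.comp]
      rw [U_WM_base]
      left; norm_num)
  have h3 : ∀ᶠ p : Rs d × Rs d in 𝓝 (0, (1, 0)), ∑ j, ‖cayM (U_z p.1 p.2) j‖ ^ 2 < 1 / 16 := by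
    have hc : ContinuousAt (fun p : Rs d × Rs d => ∑ j, ‖cayM (U_z p.1 p.2) j‖ ^ 2) (0, (1, 0)) := by
      have : ∀ j, ContinuousAt (fun p : Rs d × Rs d => cayM (U_z p.1 p.2) j) (0, (1, 0)) := fun j =>
        ContinuousAt.comp (g := fun z => cayM z j) (f := fun p : Rs d × Rs d => U_z p.1 p.2)
          (U_cont_cayM j (by show WM (U_z (0 : Rs d) (1, 0)) ≠ 0; rw [U_WM_base]; norm_num))
          U_cont_z.continuousAt
      exact tendsto_finsetSum _ fun j _ => (this j).norm.pow 2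
    refine hc.eventually_lt continuousAt_const ?_
    simp only [U_cayM_base]
    norm_num
  obtain ⟨r, hr, h⟩ := Metric.eventually_nhds_iff_ball.1 (h1.and (h2.and h3))
  exact ⟨r, hr, fun p hp => ⟨(h p hp).1, (h p hp).2.1, (h p hp).2.2.le⟩⟩

theorem U_two_nu (d : ℕ) [Fact (2 ≤ d)] : 2 * (nu d : ℂ) = ((d - 1 : ℕ) : ℂ) := by
  have h : 1 ≤ d := le_trans (by norm_num) (two_le d)
  rw [Nat.cast_sub h]
  unfold nu
  push_cast
  ring

theorem U_sq_cpow [Fact (2 ≤ d)] (z : ℂ) : (z ^ (-(nu d : ℂ))) ^ 2 = (z ^ (d - 1))⁻¹ := by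
  rw [← Complex.cpow_nat_mul]
  have : ((2 : ℕ) : ℂ) * (-(nu d : ℂ)) = -((d - 1 : ℕ) : ℂ) := by
    rw [← U_two_nu d]; push_cast; ring
  rw [this, Complex.cpow_neg, Complex.cpow_natCast]

theorem U_sq_cpow' [Fact (2 ≤ d)] (z : ℂ) : (z ^ (nu d : ℂ)) ^ 2 = z ^ (d - 1) := by
  rw [← Complex.cpow_nat_mul]
  have : ((2 : ℕ) : ℂ) * (nu d : ℂ) = ((d - 1 : ℕ) : ℂ) := by
    rw [← U_two_nu d]; push_cast; ring
  rw [this, Complex.cpow_natCast]

theorem U_cont_qf : Continuous fun p : Rs d × Rs d => qf p.1 p.2 := by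
  unfold qf
  fun_prop

theorem U_w_ne (a : Rs d) : w a ≠ 0 :=
  slitPlane_ne_zero (qf_mem_slitPlane a (1, 0) (by simp [Fwd]))

/-- `4 ^ ν` -/
noncomputable def U_e4 (d : ℕ) : ℂ := (((4 : ℝ) ^ nu d : ℝ) : ℂ)

theorem U_e4_ne (d : ℕ) : U_e4 d ≠ 0 := by
  unfold U_e4
  exact_mod_cast (Real.rpow_pos_of_pos (by norm_num : (0 : ℝ) < 4) _).ne'

theorem U_e4_conj (d : ℕ) : conj (U_e4 d) = U_e4 d := by
  unfold U_e4
  rw [conj_ofReal]

theorem U_e4_sq (d : ℕ) [Fact (2 ≤ d)] : U_e4 d ^ 2 = 4 ^ (d - 1) := by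
  have h : U_e4 d = (4 : ℂ) ^ (nu d : ℂ) := by
    unfold U_e4
    rw [Complex.ofReal_cpow (by norm_num)]
    norm_num
  rw [h, U_sq_cpow']

/-- the factor in front of the kernel -/
noncomputable def U_kap (c v : Rs d) : ℂ :=
  ((kap d * 4 ^ nu d : ℝ) : ℂ) * (WM (U_z c v)) ^ (-(nu d : ℂ))

/-- the parameter of the kernel -/
noncomputable def U_bet (c v : Rs d) : Fin (d + 1) → ℂ := cayM (U_z c v)

theorem U_four_cpow (d : ℕ) : (4 : ℂ) ^ (-(nu d : ℂ)) = (U_e4 d)⁻¹ := by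
  have h : U_e4 d = (4 : ℂ) ^ (nu d : ℂ) := by
    unfold U_e4
    rw [Complex.ofReal_cpow (by norm_num)]
    norm_num
  rw [h, Complex.cpow_neg]

theorem U_const (d : ℕ) : ((kap d * 4 ^ nu d : ℝ) : ℂ) = kap d * U_e4 d := by
  unfold U_e4
  push_cast
  rfl

theorem U_kernel [Fact (2 ≤ d)] : ∃ r : ℝ, 0 < r ∧ ∀ p ∈ Metric.ball ((0, (1, 0)) : Rs d × Rs d) r,
    p.2 ∈ Fwd ∧ ∑ j, ‖U_bet p.1 p.2 j‖ ^ 2 ≤ 1 / 16 ∧ U_kap p.1 p.2 ≠ 0 ∧
    (∀ a, toM (coneExt (expo p.1 p.2)) a = U_kap p.1 p.2 *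
      (1 - 2 * ∑ j, X j a * U_bet p.1 p.2 j + (∑ j, X j a ^ 2) * ∑ j, U_bet p.1 p.2 j ^ 2) ^
        (-(nu d : ℂ))) ∧
    ∀ p' ∈ Metric.ball ((0, (1, 0)) : Rs d × Rs d) r,
      ((kap d * 4 ^ nu d : ℝ) : ℂ) * ∫ ξ, expo p.1 p.2 ξ * conj (expo p'.1 p'.2 ξ) ∂(sig d) =
        U_kap p.1 p.2 * conj (U_kap p'.1 p'.2) *
          (1 - 2 * ∑ j, conj (U_bet p'.1 p'.2 j) * U_bet p.1 p.2 j +
            (∑ j, conj (U_bet p'.1 p'.2 j) ^ 2) * ∑ j, U_bet p.1 p.2 j ^ 2) ^ (-(nu d : ℂ)) := by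
  obtain ⟨r, hr, hgood⟩ := U_good
  have hbase : ((0, (1, 0)) : Rs d × Rs d) ∈ Metric.ball ((0, (1, 0)) : Rs d × Rs d) r :=
    Metric.mem_ball_self hr
  refine ⟨r, hr, fun p hp => ⟨(hgood p hp).1, (hgood p hp).2.2, ?_, fun a => ?_, fun p' hp' => ?_⟩⟩
  · unfold U_kap
    refine mul_ne_zero ?_ ?_
    · rw [U_const]
      exact mul_ne_zero (by exact_mod_cast (kap_pos d).ne') (U_e4_ne d)
    intro h0
    have := (Complex.cpow_eq_zero_iff _ _).1 h0
    exact slitPlane_ne_zero (hgood p hp).2.1 this.1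
  · have hX : ∑ j, ‖X j a‖ ^ 2 ≤ 1 := (sum_norm_X a).le
    have key := ((convex_ball ((0, (1, 0)) : Rs d × Rs d) r).isPreconnected).eq_of_sq_eq
      (f := fun p => w a ^ (nu d : ℂ) * qf (a - p.1) p.2 ^ (-(nu d : ℂ)))
      (g := fun p => U_e4 d * (WM (U_z p.1 p.2)) ^ (-(nu d : ℂ)) *
        (1 - 2 * ∑ j, X j a * U_bet p.1 p.2 j + (∑ j, X j a ^ 2) * ∑ j, U_bet p.1 p.2 j ^ 2) ^
        (-(nu d : ℂ))) ?_ ?_ ?_ ?_ hbase ?_ hp
    · simp only at key
      unfold toM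
      rw [coneExt_expo _ _ (hgood p hp).1]
      unfold U_kap
      calc _ = (kap d : ℂ) * (w a ^ (nu d : ℂ) * qf (a - p.1) p.2 ^ (-(nu d : ℂ))) := by
            ring
        _ = _ := by
            rw [key, U_const]
            ring
    · intro q hq
      refine (continuousAt_const.mul (ContinuousAt.cpow ?_ continuousAt_const ?_)).continuousWithinAt
      · exact (U_cont_qf.comp (f := fun q : Rs d × Rs d => (a - q.1, q.2)) (by fun_prop)).continuousAt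
      · exact qf_mem_slitPlane _ _ (hgood q hq).1
    · intro q hq
      obtain ⟨g1, g2, g3⟩ := hgood q hq
      have hc : ∀ j, ContinuousAt (fun q : Rs d × Rs d => U_bet q.1 q.2 j) q := fun j =>
        ContinuousAt.comp (g := fun z => cayM z j) (f := fun p : Rs d × Rs d => U_z p.1 p.2)
          (U_cont_cayM j (slitPlane_ne_zero g2)) U_cont_z.continuousAt
      refine ((continuousAt_const.mul (ContinuousAt.cpow
        (U_cont_WM.comp U_cont_z).continuousAt continuousAt_const g2)).mul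
        (ContinuousAt.cpow ?_ continuousAt_const (U_ker_slit _ _ hX g3))).continuousWithinAt
      refine ContinuousAt.add (continuousAt_const.sub (continuousAt_const.mul ?_))
        (continuousAt_const.mul ?_)
      · exact tendsto_finsetSum _ fun j _ => continuousAt_const.mul (hc j)
      · exact tendsto_finsetSum _ fun j _ => (hc j).pow 2
    · intro q hq
      obtain ⟨g1, g2, g3⟩ := hgood q hq
      simp only [Pi.pow_apply]
      have n1 := slitPlane_ne_zero (U_ker_slit (fun j => X j a) (U_bet q.1 q.2) hX g3)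
      have n2 := slitPlane_ne_zero g2
      have n3 := U_w_ne a
      have n4 := slitPlane_ne_zero (qf_mem_slitPlane (a - q.1) q.2 g1)
      rw [mul_pow, mul_pow, mul_pow, U_sq_cpow', U_sq_cpow, U_sq_cpow, U_sq_cpow]
      have hq2 := U_qf_z a q.1 q.2
      rw [U_cay (U_r a) (U_z q.1 q.2) (by rw [← U_w]; exact n3) n2, ← U_w] at hq2
      simp only [← U_X] at hq2
      have hq3 : qf (a - q.1) q.2 = 1 / 4 * w a * WM (U_z q.1 q.2) *
        (1 - 2 * ∑ j, X j a * U_bet q.1 q.2 j + (∑ j, X j a ^ 2) * ∑ j, U_bet q.1 q.2 j ^ 2) := hq2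
      rw [hq3, U_e4_sq, mul_pow, mul_pow, mul_pow, one_div, inv_pow]
      field_simp
    · intro q hq
      obtain ⟨g1, g2, g3⟩ := hgood q hq
      refine mul_ne_zero (mul_ne_zero (U_e4_ne d) ?_) ?_
      · intro h0; exact slitPlane_ne_zero g2 ((Complex.cpow_eq_zero_iff _ _).1 h0).1
      · intro h0; exact slitPlane_ne_zero (U_ker_slit (fun j => X j a) (U_bet q.1 q.2) hX g3)
          ((Complex.cpow_eq_zero_iff _ _).1 h0).1
    · simp only [U_bet, U_cayM_base, U_WM_base, sub_zero]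
      rw [U_four_cpow]
      have : qf a (1, 0) = w a := rfl
      rw [this, ← Complex.cpow_add _ _ (U_w_ne a)]
      simp [U_e4_ne d]
  · have key := (((convex_ball ((0, (1, 0)) : Rs d × Rs d) r).prod
        (convex_ball ((0, (1, 0)) : Rs d × Rs d) r)).isPreconnected).eq_of_sq_eq
      (f := fun q : (Rs d × Rs d) × (Rs d × Rs d) => qf (q.2.1 - q.1.1) (q.1.2 + q.2.2) ^ (-(nu d : ℂ)))
      (g := fun q => U_e4 d * (WM (U_z q.1.1 q.1.2)) ^ (-(nu d : ℂ)) *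
        conj ((WM (U_z q.2.1 q.2.2)) ^ (-(nu d : ℂ))) *
        (1 - 2 * ∑ j, conj (U_bet q.2.1 q.2.2 j) * U_bet q.1.1 q.1.2 j +
          (∑ j, conj (U_bet q.2.1 q.2.2 j) ^ 2) * ∑ j, U_bet q.1.1 q.1.2 j ^ 2) ^
        (-(nu d : ℂ))) ?_ ?_ ?_ ?_ (Set.mk_mem_prod hbase hbase) ?_ (Set.mk_mem_prod hp hp')
    · simp only at key
      rw [inner_expo _ _ _ _ (hgood p hp).1 (hgood p' hp').1, key]
      unfold U_kap
      simp only [map_mul, U_const, U_e4_conj, conj_ofReal]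
      ring
    · intro q hq
      obtain ⟨g1, g2, g3⟩ := hgood q.1 hq.1
      obtain ⟨g1', g2', g3'⟩ := hgood q.2 hq.2
      refine (ContinuousAt.cpow ?_ continuousAt_const ?_).continuousWithinAt
      · exact (U_cont_qf.comp (f := fun q : (Rs d × Rs d) × (Rs d × Rs d) =>
          (q.2.1 - q.1.1, q.1.2 + q.2.2)) (by fun_prop)).continuousAt
      · refine qf_mem_slitPlane _ _ ?_
        simp only [Fwd, Set.mem_ofPred_eq, Prod.snd_add, Prod.fst_add] at g1 g1' ⊢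
        exact (norm_add_le _ _).trans_lt (add_lt_add g1 g1')
    · intro q hq
      obtain ⟨g1, g2, g3⟩ := hgood q.1 hq.1
      obtain ⟨g1', g2', g3'⟩ := hgood q.2 hq.2
      have hc : ∀ j, ContinuousAt (fun q : (Rs d × Rs d) × (Rs d × Rs d) => U_bet q.1.1 q.1.2 j) q :=
        fun j => ContinuousAt.comp (g := fun z => cayM z j)
          (f := fun q : (Rs d × Rs d) × (Rs d × Rs d) => U_z q.1.1 q.1.2)
          (U_cont_cayM j (slitPlane_ne_zero g2)) (U_cont_z.comp continuous_fst).continuousAt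
      have hc' : ∀ j, ContinuousAt (fun q : (Rs d × Rs d) × (Rs d × Rs d) => conj (U_bet q.2.1 q.2.2 j)) q :=
        fun j => Complex.continuous_conj.continuousAt.comp
          (ContinuousAt.comp (g := fun z => cayM z j)
          (f := fun q : (Rs d × Rs d) × (Rs d × Rs d) => U_z q.2.1 q.2.2)
          (U_cont_cayM j (slitPlane_ne_zero g2')) (U_cont_z.comp continuous_snd).continuousAt)
      have hs : ∑ j, ‖conj (U_bet q.2.1 q.2.2 j)‖ ^ 2 ≤ 1 := by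
        simp only [RCLike.norm_conj]
        exact g3'.trans (by norm_num)
      refine ((((continuousAt_const.mul (ContinuousAt.cpow
        ((U_cont_WM.comp U_cont_z).comp continuous_fst).continuousAt continuousAt_const g2))).mul
        (Complex.continuous_conj.continuousAt.comp (ContinuousAt.cpow
        ((U_cont_WM.comp U_cont_z).comp continuous_snd).continuousAt continuousAt_const g2'))).mul
        (ContinuousAt.cpow ?_ continuousAt_const
          (U_ker_slit _ _ hs g3))).continuousWithinAt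
      refine ContinuousAt.add (continuousAt_const.sub (continuousAt_const.mul ?_))
        (ContinuousAt.mul ?_ ?_)
      · exact tendsto_finsetSum _ fun j _ => (hc' j).mul (hc j)
      · exact tendsto_finsetSum _ fun j _ => (hc' j).pow 2
      · exact tendsto_finsetSum _ fun j _ => (hc j).pow 2
    · intro q hq
      obtain ⟨g1, g2, g3⟩ := hgood q.1 hq.1
      obtain ⟨g1', g2', g3'⟩ := hgood q.2 hq.2
      have hs : ∑ j, ‖conj (U_bet q.2.1 q.2.2 j)‖ ^ 2 ≤ 1 := by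
        simp only [RCLike.norm_conj]
        exact g3'.trans (by norm_num)
      simp only [Pi.pow_apply]
      have n1 := slitPlane_ne_zero (U_ker_slit (fun j => conj (U_bet q.2.1 q.2.2 j))
        (U_bet q.1.1 q.1.2) hs g3)
      have n2 := slitPlane_ne_zero g2
      have n3 := slitPlane_ne_zero g2'
      have n3' : conj (WM (U_z q.2.1 q.2.2)) ≠ 0 := by
        rw [Ne, map_eq_zero]; exact n3
      have n4 := slitPlane_ne_zero (qf_mem_slitPlane (q.2.1 - q.1.1) (q.1.2 + q.2.2) (by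
        simp only [Fwd, Set.mem_ofPred_eq, Prod.snd_add, Prod.fst_add] at g1 g1' ⊢
        exact (norm_add_le _ _).trans_lt (add_lt_add g1 g1')))
      rw [mul_pow, mul_pow, mul_pow, U_sq_cpow, U_sq_cpow, U_sq_cpow, ← map_pow,
        U_sq_cpow]
      have hq2 := U_qf_zz q.1.1 q.1.2 q.2.1 q.2.2
      rw [U_cay (fun j => conj (U_z q.2.1 q.2.2 j)) (U_z q.1.1 q.1.2)
        (by rw [← U_conj_WM]; exact n3') n2, ← U_conj_WM] at hq2
      simp only [← U_conj_cayM] at hq2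
      have hq3 : qf (q.2.1 - q.1.1) (q.1.2 + q.2.2) = 1 / 4 * conj (WM (U_z q.2.1 q.2.2)) *
        WM (U_z q.1.1 q.1.2) *
        (1 - 2 * ∑ j, conj (U_bet q.2.1 q.2.2 j) * U_bet q.1.1 q.1.2 j +
          (∑ j, conj (U_bet q.2.1 q.2.2 j) ^ 2) * ∑ j, U_bet q.1.1 q.1.2 j ^ 2) := hq2
      rw [hq3, U_e4_sq, mul_pow, mul_pow, mul_pow, one_div, inv_pow]
      simp only [map_inv₀, map_pow]
      field_simp
    · intro q hq
      obtain ⟨g1, g2, g3⟩ := hgood q.1 hq.1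
      obtain ⟨g1', g2', g3'⟩ := hgood q.2 hq.2
      have hs : ∑ j, ‖conj (U_bet q.2.1 q.2.2 j)‖ ^ 2 ≤ 1 := by
        simp only [RCLike.norm_conj]
        exact g3'.trans (by norm_num)
      refine mul_ne_zero (mul_ne_zero (mul_ne_zero (U_e4_ne d) ?_) ?_) ?_
      · intro h0; exact slitPlane_ne_zero g2 ((Complex.cpow_eq_zero_iff _ _).1 h0).1
      · rw [Ne, map_eq_zero]
        intro h0; exact slitPlane_ne_zero g2' ((Complex.cpow_eq_zero_iff _ _).1 h0).1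
      · intro h0; exact slitPlane_ne_zero (U_ker_slit (fun j => conj (U_bet q.2.1 q.2.2 j))
          (U_bet q.1.1 q.1.2) hs g3) ((Complex.cpow_eq_zero_iff _ _).1 h0).1
    · simp only [U_bet, U_cayM_base, U_WM_base, sub_zero]
      have : qf (0 : Rs d) ((1, 0) + (1, 0)) = 4 := by
        simp [qf]
        norm_num
      rw [this, U_four_cpow]
      simp [U_e4_conj, U_e4_ne d]

end Pool.Agent.ConeG
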